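import Pool.Agent.Lib.MP_b7c8b0_gt.EDefs

/-! Definitions for the construction of a prelegendrian 3-sphere. -/

open scoped ContDiff ComplexConjugate
open Complex

noncomputable section

namespace Pool.Agent.Lib.MP_b7c8b0_gt

abbrev C2 : Type := ℂ × ℂ
abbrev Cov : Type := C2 →L[ℝ] ℝ

/-- The hermitian form defining the target sphere. -/
def Nsq (e : ℝ) (Z : C2) : ℝ := ‖Z.1‖ ^ 2 + e ^ 2 * ‖Z.2‖ ^ 2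

/-- Radial projection to the target sphere. -/
def Nrm (e : ℝ) (Z : C2) : C2 := (√(Nsq e Z))⁻¹ • Z

/-- The complex line of the contact structure of the target sphere at `Z`. -/
def Jv (e : ℝ) (Z : C2) (c : ℂ) : C2 := (-(c * (e : ℂ) ^ 2 * conj Z.2), c * conj Z.1)

/-- A Legendrian sphere in the 1-jet space of the punctured target sphere whose projection along
the contact form is an injective immersion. -/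
structure Data (e : ℝ) where
  Pi : C2 → C2
  U : C2 → ℝ
  P : C2 → Cov
  sPi : ∀ z, z ≠ 0 → ContDiffAt ℝ ∞ Pi z
  sU : ∀ z, z ≠ 0 → ContDiffAt ℝ ∞ U z
  sP : ∀ z, z ≠ 0 → ContDiffAt ℝ ∞ P z
  unit : ∀ z, z ≠ 0 → Nsq e (Pi z) = 1
  avoid : ∀ z, z ≠ 0 → ∀ s : ℝ, 0 < s → Pi z ≠ (-(s : ℂ), -(s : ℂ))
  leg : ∀ z, z ≠ 0 → ∀ v, fderiv ℝ U z v = P z (fderiv ℝ Pi z v)
  inj : ∀ z z', ‖z.1‖ ^ 2 + ‖z.2‖ ^ 2 = 1 → ‖z'.1‖ ^ 2 + ‖z'.2‖ ^ 2 = 1 → Pi z = Pi z' →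
    U z = U z' → (∀ c, P z (Jv e (Pi z) c) = P z' (Jv e (Pi z) c)) → z = z'
  imm : ∀ z, z ≠ 0 → ∀ v, fderiv ℝ Pi z v = 0 → (∀ c, fderiv ℝ P z v (Jv e (Pi z) c) = 0) →
    ∃ s : ℝ, v = s • z

/-- Far form of the first chart. -/
def F1 (W : C2) : C2 :=
  (W.1 ^ 2, 9 / 4 * W.1 ^ 2 + 1 / 4 * conj W.1 ^ 2 - 9 / 2 * W.1 * W.2 + 1 / 2 * conj W.1 * conj W.2)

/-- Far form of the second chart. -/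
def F2 (W : C2) : C2 := (W.2 ^ 2, conj W.2 ^ 2 + 3 * conj W.2 * W.1)

/-- The constraint defining the double cover of the source minus two circles. -/
def Con (Φ : ℝ → ℝ) (W : C2) (t : ℝ) : Prop :=
  W.1 ≠ 0 ∧ W.2 ≠ 0 ∧ Real.log (‖W.1‖ ^ 2 / ‖W.2‖ ^ 2) = Φ t

/-- The derivative of `log (‖X‖ ^ 2 / ‖Y‖ ^ 2)` at `W` in the direction `V`. -/
def dLog (W V : C2) : ℝ :=
  2 * (conj W.1 * V.1).re / ‖W.1‖ ^ 2 - 2 * (conj W.2 * V.2).re / ‖W.2‖ ^ 2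

/-- The data on the double cover. -/
structure Cover (e : ℝ) where
  Φ : ℝ → ℝ
  T : ℝ
  c1 : ℝ
  c2 : ℝ
  Pi : C2 × ℝ → C2
  U : C2 × ℝ → ℝ
  P : C2 × ℝ → Cov
  y1 : C2 → ℝ
  y0 : C2 → ℝ
  sΦ : ContDiff ℝ ∞ Φ
  lo : ∀ t, t ≤ -T → Φ t = t + c1
  hi : ∀ t, T ≤ t → Φ t = t + c2
  sy1 : ∀ Z, Z ≠ 0 → ContDiffAt ℝ ∞ y1 Z
  sy0 : ∀ Z, Z ≠ 0 → ContDiffAt ℝ ∞ y0 Z
  sPi : ∀ W t, Con Φ W t → ContDiffAt ℝ ∞ Pi (W, t)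
  sU : ∀ W t, Con Φ W t → ContDiffAt ℝ ∞ U (W, t)
  sP : ∀ W t, Con Φ W t → ContDiffAt ℝ ∞ P (W, t)
  hom : ∀ W t, Con Φ W t → ∀ s : ℝ, s ≠ 0 →
    Pi (s • W, t) = Pi (W, t) ∧ U (s • W, t) = U (W, t) ∧ P (s • W, t) = P (W, t)
  unit : ∀ W t, Con Φ W t → Nsq e (Pi (W, t)) = 1
  avoid : ∀ W t, Con Φ W t → ∀ s : ℝ, 0 < s → Pi (W, t) ≠ (-(s : ℂ), -(s : ℂ))
  leg : ∀ W t, Con Φ W t → ∀ V τ, dLog W V = deriv Φ t * τ →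
    fderiv ℝ U (W, t) (V, τ) = P (W, t) (fderiv ℝ Pi (W, t) (V, τ))
  imm : ∀ W t, Con Φ W t → ∀ V τ, dLog W V = deriv Φ t * τ → fderiv ℝ Pi (W, t) (V, τ) = 0 →
    (∀ c, fderiv ℝ P (W, t) (V, τ) (Jv e (Pi (W, t)) c) = 0) → τ = 0 ∧ ∃ s : ℝ, V = s • W
  inj : ∀ W t W' t', Con Φ W t → Con Φ W' t' → Pi (W, t) = Pi (W', t') → U (W, t) = U (W', t') →
    (∀ c, P (W, t) (Jv e (Pi (W, t)) c) = P (W', t') (Jv e (Pi (W, t)) c)) →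
    t = t' ∧ ∃ s : ℝ, W' = s • W
  far1 : ∀ W t, Con Φ W t → t ≤ -T → Pi (W, t) = Nrm e (F1 W) ∧ U (W, t) = y1 (Pi (W, t)) ∧
    P (W, t) = fderiv ℝ y1 (Pi (W, t))
  far2 : ∀ W t, Con Φ W t → T ≤ t → Pi (W, t) = Nrm e (F2 W) ∧ U (W, t) = y0 (Pi (W, t)) ∧
    P (W, t) = fderiv ℝ y0 (Pi (W, t))
  core1 : ∀ W t, Con Φ W t → (Pi (W, t)).1 = 0 → U (W, t) ≠ y1 (Pi (W, t))
  core2 : ∀ W t, Con Φ W t → (Pi (W, t)).1 = 0 → U (W, t) = y0 (Pi (W, t)) →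
    ¬ ∀ c, P (W, t) (Jv e (Pi (W, t)) c) = fderiv ℝ y0 (Pi (W, t)) (Jv e (Pi (W, t)) c)
  lt : ∀ Z, Nsq e Z = 1 → y0 Z < y1 Z

/-- Zigzag profile functions. -/
structure Zig where
  g : ℝ → ℝ
  n : ℝ → ℝ
  k : ℝ → ℝ
  c : ℝ
  c' : ℝ
  K : ℝ
  sg : ContDiff ℝ ∞ g
  sn : ContDiff ℝ ∞ n
  sk : ContDiff ℝ ∞ k
  glo : ∀ t, t ≤ -1 → g t = -t + c'
  ghi : ∀ t, 1 ≤ t → g t = t + c
  anti : StrictAntiOn g (Set.Iic 0)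
  mono : StrictMonoOn g (Set.Ici 0)
  dg : ∀ t, t ≠ 0 → deriv g t ≠ 0
  dg0 : deriv g 0 = 0
  n0 : ∀ t, t ≤ -1 → n t = 0
  n1 : ∀ t, 1 ≤ t → n t = 1
  nmono : Monotone n
  nstrict : StrictMonoOn n (Set.Icc (-1) 1)
  dn : ∀ t, deriv n t = k t * deriv g t
  k0 : ∀ t, 1 ≤ |t| → k t = 0
  dk : deriv k 0 ≠ 0
  kb : ∀ t, |k t| ≤ K

/-- A slowly varying cut-off function. -/
structure Cut where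
  lam : ℝ → ℝ
  r0 : ℝ
  s : ContDiff ℝ ∞ lam
  r0pos : 0 < r0
  r0lt : r0 < 1 / 10000
  one : ∀ r, 0 ≤ r → r ≤ r0 → lam r = 1
  zero : ∀ r, 1 / 10000 ≤ r → lam r = 0
  nonneg : ∀ r, 0 ≤ lam r
  le_one : ∀ r, lam r ≤ 1
  slow : ∀ r, 0 ≤ r → |r * deriv lam r| ≤ 1 / 100

/-- `‖b‖ ^ 2 / (‖a‖ ^ 2 + ‖b‖ ^ 2)`. -/
def rat (a b : ℂ) : ℝ := ‖b‖ ^ 2 / (‖a‖ ^ 2 + ‖b‖ ^ 2)

def Lm (X : ℂ) : ℂ := 3 / 2 * X - 1 / 2 * conj X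

/-- The branched double cover. -/
def sq2 (w : C2) : C2 := (w.1 ^ 2, w.2 ^ 2)

/-- The deck transformation. -/
def tau (w : C2) : C2 := (w.1, -w.2)

/-- The linear coordinates adapted to the two lines. -/
def Lin (W : C2) : C2 := (W.1 + W.2, 3 / 2 * W.1 + 1 / 2 * conj W.1 + conj W.2)

def Xc (w : C2) : ℂ := 3 / 4 * (w.2 - conj w.1) + 1 / 4 * conj (w.2 - conj w.1)

def Yc (w : C2) : ℂ := w.1 - Xc w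

def nu1 (κ : Cut) (W : C2) : ℂ := W.1 + (κ.lam (rat W.1 W.2) : ℂ) * W.2

def Q1 (κ : Cut) (ν Y : ℂ) : ℂ :=
  9 / 4 * ν ^ 2 + 1 / 4 * conj ν ^ 2 + 3 / 2 * ((1 - κ.lam (rat Y ν)) * ‖ν‖ ^ 2 : ℝ)
    - 9 / 2 * ν * Y + 1 / 2 * conj ν * conj Y
    - 3 / 2 * (κ.lam (rat ν Y) : ℂ) * (conj ν * Y - ν * conj Y)
    + (κ.lam (rat ν Y) : ℂ) * Lm Y ^ 2

/-- The first chart. -/
def G1 (κ : Cut) (W : C2) : C2 := (nu1 κ W ^ 2, Q1 κ (nu1 κ W) W.2)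

def nu2 (κ : Cut) (W : C2) : ℂ := W.2 + (κ.lam (rat W.2 W.1) : ℂ) * W.1

def Q2 (κ : Cut) (ν X : ℂ) : ℂ :=
  conj ν ^ 2 + 3 * conj ν * X - (κ.lam (rat ν X) : ℂ) * conj ν * conj X
    + (κ.lam (rat ν X) : ℂ) * Lm X ^ 2

/-- The second chart. -/
def G2 (κ : Cut) (W : C2) : C2 := (nu2 κ W ^ 2, Q2 κ (nu2 κ W) W.1)

/-- What is needed about the two charts. -/
structure GOK (κ : Cut) : Prop where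
  s1 : ∀ W : C2, W.1 ≠ 0 → ContDiffAt ℝ ∞ (G1 κ) W
  s2 : ∀ W : C2, W.2 ≠ 0 → ContDiffAt ℝ ∞ (G2 κ) W
  h1 : ∀ W (s : ℝ), s ≠ 0 → G1 κ (s • W) = s ^ 2 • G1 κ W
  h2 : ∀ W (s : ℝ), s ≠ 0 → G2 κ (s • W) = s ^ 2 • G2 κ W
  ne1 : ∀ W : C2, W.1 ≠ 0 → (G1 κ W).1 ≠ 0
  ne2 : ∀ W : C2, W.2 ≠ 0 → (G2 κ W).1 ≠ 0
  inj1 : ∀ W W' : C2, W.1 ≠ 0 → G1 κ W = G1 κ W' → W' = W ∨ W' = -W
  inj2 : ∀ W W' : C2, W.2 ≠ 0 → G2 κ W = G2 κ W' → W' = W ∨ W' = -W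
  imm1 : ∀ W V : C2, W.1 ≠ 0 → fderiv ℝ (G1 κ) W V = 0 → V = 0
  imm2 : ∀ W V : C2, W.2 ≠ 0 → fderiv ℝ (G2 κ) W V = 0 → V = 0
  near : ∃ ρ : ℝ, 0 < ρ ∧ ∀ W : C2, W ≠ 0 →
    (‖W.2‖ ^ 2 ≤ ρ * ‖W.1‖ ^ 2 → G1 κ W = sq2 (Lin W) ∧ G2 κ W = F2 W) ∧
    (‖W.1‖ ^ 2 ≤ ρ * ‖W.2‖ ^ 2 → G2 κ W = sq2 (Lin W) ∧ G1 κ W = F1 W)

/-- The two-valued function. -/
def uu (w : C2) : ℝ := ((w.2 * conj w.1) ^ 3).re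

/-- The covector `V ↦ Re (a V.1 + b V.2)`. -/
def cov (a b : ℂ) : Cov :=
  reCLM.comp (((a • ContinuousLinearMap.id ℂ ℂ).restrictScalars ℝ).comp
      (ContinuousLinearMap.fst ℝ ℂ ℂ) +
    ((b • ContinuousLinearMap.id ℂ ℂ).restrictScalars ℝ).comp (ContinuousLinearMap.snd ℝ ℂ ℂ))

@[simp] theorem cov_apply (a b : ℂ) (V : C2) : cov a b V = (a * V.1 + b * V.2).re := by
  simp [cov]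

/-- The differential of `uu` seen from the target. -/
def Pu (w : C2) : Cov := cov (3 / 2 * conj w.2 ^ 3 * w.1) (3 / 2 * w.2 * conj w.1 ^ 3)

/-- `Lm` is self-adjoint, and so is its inverse. -/
def Li (X : ℂ) : ℂ := 3 / 4 * X + 1 / 4 * conj X

/-- The differential of `log (‖Xc‖ ^ 2 / ‖Yc‖ ^ 2)` seen from the target: it sends `V` to
`dLog (Xc w, Yc w) (Xc V', Yc V')` with `V' = (V.1 / (2 ν), V.2 / (2 ω))`. -/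
def PR (w : C2) : Cov :=
  cov (-(Li ((‖Xc w‖ ^ 2 : ℝ)⁻¹ • Xc w + (‖Yc w‖ ^ 2 : ℝ)⁻¹ • Yc w)
        + conj ((‖Yc w‖ ^ 2 : ℝ)⁻¹ • Yc w)) / w.1)
    (conj (Li ((‖Xc w‖ ^ 2 : ℝ)⁻¹ • Xc w + (‖Yc w‖ ^ 2 : ℝ)⁻¹ • Yc w)) / w.2)

/-- The bottom sheet. -/
def y0 (Z : C2) : ℝ :=
  3 / 2 * (conj Z.1 ^ 2 * Z.2).re - 1 / 2 * (conj Z.1 ^ 3).re
    - 2 * ‖Z.2 - conj Z.1‖ ^ 2 * (‖Z.2‖ ^ 2 - ‖Z.1‖ ^ 2 / 2)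

/-- A smooth version of `‖Z.1‖`. -/
def nn (Z : C2) : ℝ := Real.smoothTransition (52 * rat Z.2 Z.1 - 1) * ‖Z.1‖

def oo (Z : C2) : ℂ := 3 / 2 * (nn Z : ℂ) + 1 / 2 * conj Z.1

def kk (Z : C2) : ℂ := 9 / 4 * Z.1 + 3 / 2 * (nn Z : ℂ) + 1 / 4 * conj Z.1

/-- The top sheet. -/
def y1 (C : ℝ) (Z : C2) : ℝ :=
  (oo Z ^ 3).re + 3 / 2 * (conj Z.1 * oo Z * (Z.2 - kk Z)).re + C * ‖Z.2 - kk Z‖ ^ 2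

def D0 (w : C2) : ℝ := uu w - y0 (sq2 w)
def PD0 (w : C2) : Cov := Pu w - fderiv ℝ y0 (sq2 w)
def D1 (C : ℝ) (w : C2) : ℝ := y1 C (sq2 w) - uu w
def PD1 (C : ℝ) (w : C2) : Cov := fderiv ℝ (y1 C) (sq2 w) - Pu w

def near1 (ρ : ℝ) (w : C2) : Prop := ‖Yc w‖ ^ 2 ≤ ρ * ‖Xc w‖ ^ 2
def near2 (ρ : ℝ) (w : C2) : Prop := ‖Xc w‖ ^ 2 ≤ ρ * ‖Yc w‖ ^ 2

/-- Size of a jet modulo the contact form. -/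
def jn (e : ℝ) (w : C2) (a : ℝ) (B : Cov) : ℝ :=
  |a| + |B (Jv e (sq2 w) 1)| + |B (Jv e (sq2 w) I)|

/-- Facts on the two-valued function. -/
structure JetU (e : ℝ) : Prop where
  du : ∀ w V, fderiv ℝ uu w V = Pu w (fderiv ℝ sq2 w V)
  dR : ∀ w V : C2, w.1 ≠ 0 → w.2 ≠ 0 →
    PR w (fderiv ℝ sq2 w V) = dLog (Xc w, Yc w) (Xc V, Yc V)
  tau0 : ∀ w, jn e w (uu w) (Pu w) = 0 → w.1 = 0 ∨ w.2 = 0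
  branch : ∀ w V, w ≠ 0 → fderiv ℝ sq2 w V = 0 →
    (∀ c, fderiv ℝ Pu w V (Jv e (sq2 w) c) = 0) → V = 0
  ne : ∀ w, w ≠ 0 → near1 (1 / 16) w ∨ near2 (1 / 16) w → w.1 ≠ 0 ∧ w.2 ≠ 0
  mtau : ∃ m, 0 < m ∧ ∀ w, Nsq e (sq2 w) = 1 → near1 (1 / 16) w ∨ near2 (1 / 16) w →
    m ≤ jn e w (uu w) (Pu w)
  fold : ∃ ρ, 0 < ρ ∧ ∀ w, near1 ρ w ∨ near2 ρ w → Xc w ≠ 0 → Yc w ≠ 0 →
    ∃ c, PR w (Jv e (sq2 w) c) ≠ 0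

/-- Facts on the bottom sheet. -/
structure Jet0 (e : ℝ) : Prop where
  pos : ∃ ρ, 0 < ρ ∧ ∀ w, Nsq e (sq2 w) = 1 → near2 ρ w → Xc w ≠ 0 → 0 < D0 w
  marg : ∀ ρ, 0 < ρ → ∃ m, 0 < m ∧ ∀ w, Nsq e (sq2 w) = 1 → ρ * ‖Yc w‖ ^ 2 ≤ ‖Xc w‖ ^ 2 →
    m ≤ jn e w (D0 w) (PD0 w)
  small : ∀ η, 0 < η → ∃ ρ, 0 < ρ ∧ ∀ w, Nsq e (sq2 w) = 1 → near2 ρ w →
    jn e w (D0 w) (PD0 w) ≤ η ∧ jn e w 0 (D0 w • PR w) ≤ η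

/-- Facts on the top sheet. -/
structure Jet1 (e C : ℝ) : Prop where
  s : ∀ Z, Z ≠ 0 → ContDiffAt ℝ ∞ (y1 C) Z
  lt : ∀ Z, Nsq e Z = 1 → y0 Z < y1 C Z
  pos : ∀ w, Nsq e (sq2 w) = 1 → Yc w ≠ 0 → 0 < D1 C w
  marg : ∀ ρ, 0 < ρ → ∃ m, 0 < m ∧ ∀ w, Nsq e (sq2 w) = 1 → ρ * ‖Xc w‖ ^ 2 ≤ ‖Yc w‖ ^ 2 →
    m ≤ D1 C w
  small : ∀ η, 0 < η → ∃ ρ, 0 < ρ ∧ ∀ w, Nsq e (sq2 w) = 1 → near1 ρ w →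
    jn e w (D1 C w) (PD1 C w) ≤ η ∧ jn e w 0 (D1 C w • PR w) ≤ η

/-- The zigzag. -/
def Phi (ζ : Zig) (Λ t : ℝ) : ℝ := t + ζ.g (t - Λ) - ζ.g (t + Λ)

def n1 (ζ : Zig) (Λ t : ℝ) : ℝ := ζ.n (t + Λ)
def n2 (ζ : Zig) (Λ t : ℝ) : ℝ := 1 - ζ.n (t - Λ)
def k1 (ζ : Zig) (Λ t : ℝ) : ℝ := -ζ.k (t + Λ)
def k2 (ζ : Zig) (Λ t : ℝ) : ℝ := -ζ.k (t - Λ)

/-- The normalized point of the branched cover. -/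
def wn (e : ℝ) (W : C2) : C2 := (√√(Nsq e (sq2 (Lin W))))⁻¹ • Lin W

def GG (κ : Cut) (Λ : ℝ) (p : C2 × ℝ) : C2 :=
  if p.2 ≤ -Λ then G1 κ p.1 else if Λ ≤ p.2 then G2 κ p.1 else sq2 (Lin p.1)

def PiC (e : ℝ) (κ : Cut) (Λ : ℝ) (p : C2 × ℝ) : C2 := Nrm e (GG κ Λ p)

def UC (e C : ℝ) (ζ : Zig) (κ : Cut) (Λ : ℝ) (p : C2 × ℝ) : ℝ :=
  (1 - n1 ζ Λ p.2) * y1 C (PiC e κ Λ p) + (1 - n2 ζ Λ p.2) * y0 (PiC e κ Λ p)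
    + (n1 ζ Λ p.2 + n2 ζ Λ p.2 - 1) * uu (wn e p.1)

def PC (e C : ℝ) (ζ : Zig) (κ : Cut) (Λ : ℝ) (p : C2 × ℝ) : Cov :=
  (1 - n1 ζ Λ p.2) • fderiv ℝ (y1 C) (PiC e κ Λ p) + (1 - n2 ζ Λ p.2) • fderiv ℝ y0 (PiC e κ Λ p)
    + (n1 ζ Λ p.2 + n2 ζ Λ p.2 - 1) • Pu (wn e p.1)
    + (k1 ζ Λ p.2 * (uu (wn e p.1) - y1 C (PiC e κ Λ p))
        + k2 ζ Λ p.2 * (uu (wn e p.1) - y0 (PiC e κ Λ p))) • PR (wn e p.1)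

/-- All the hypotheses on the parameters except the size of `Λ`. -/
structure Par (e C : ℝ) (κ : Cut) : Prop where
  epos : 0 < e
  ele : e ≤ 1 / 10
  gok : GOK κ
  ju : JetU e
  j0 : Jet0 e
  j1 : Jet1 e C

end Pool.Agent.Lib.MP_b7c8b0_gt
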