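import Pool.Agent.Lib.MP_b7c8b0_gt.MForm

open scoped ContDiff Topology ComplexConjugate
open Filter MeasureTheory Matrix

noncomputable section

namespace Pool.Agent.Lib.MP_b7c8b0_gt

variable {ι : Type} [Fintype ι] [DecidableEq ι] {n : Type} [Fintype n] [DecidableEq n]
  {t s z : ι} {l : List ι}

/-- The character `exp (2 π i m x_i)`. -/
def approxChar (i : ι) (m : ℤ) : Sm ι :=
  ⟨fun x => Complex.exp (2 * Real.pi * Complex.I * m * (xc i).1 x),
    (Complex.contDiff_exp (𝕜 := ℝ)).comp (contDiff_const.mul (Sm.smooth (xc i)))⟩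

omit [DecidableEq ι] in
theorem approxChar_apply (i : ι) (m : ℤ) (x : ι → ℝ) :
    (approxChar i m).1 x = Complex.exp (2 * Real.pi * Complex.I * m * (x i : ℝ)) := rfl

omit [DecidableEq ι] in
theorem approx_zeta_pow (z : ι) (M : ℕ) (x : ι → ℝ) :
    (zeta z ^ M).1 x = Complex.exp (2 * Real.pi * Complex.I * M * (x z : ℝ)) := by
  have : (zeta z ^ M).1 x = Complex.exp (2 * Real.pi * Complex.I * (x z : ℝ)) ^ M := by
    rw [SubmonoidClass.coe_pow]
    rfl
  rw [this, ← Complex.exp_nat_mul]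
  congr 1
  ring

omit [DecidableEq ι] in
theorem approx_tor_char {i : ι} (h : i ∈ l) (m : ℤ) : Tor [] l (approxChar i m) := by
  intro x y _ hl
  obtain ⟨k, hk⟩ := hl i h
  rw [approxChar_apply, approxChar_apply, hk, Complex.exp_eq_exp_iff_exists_int]
  refine ⟨m * k, ?_⟩
  push_cast
  ring

omit [DecidableEq ι] in
theorem approx_tor_prod {α : Type} (S : Finset α) (F : α → Sm ι) (h : ∀ a ∈ S, Tor [] l (F a)) :
    Tor [] l (∏ a ∈ S, F a) := by
  intro x y hP hl
  rw [SubmonoidClass.coe_finsetProd, Finset.prod_apply, Finset.prod_apply]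
  exact Finset.prod_congr rfl fun a ha => h a ha x y hP hl

/-- `h` is a Laurent polynomial in `zeta z` with coefficients periodic in the variables `l`. -/
def approxRep (z : ι) (l : List ι) (h : Sm ι) : Prop :=
  ∃ N : ℕ, ∀ M, N ≤ M → ∃ a : ℕ → Sm ι, (∀ j, Tor [] l (a j)) ∧
    zeta z ^ M * h = ∑ j ∈ Finset.range (2 * M + 1), zeta z ^ j * a j

theorem approx_rep_zero : approxRep z l 0 :=
  ⟨0, fun _ _ => ⟨fun _ => 0, fun _ => Tor.zero, by simp⟩⟩

theorem approx_rep_add {f g : Sm ι} (hf : approxRep z l f) (hg : approxRep z l g) :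
    approxRep z l (f + g) := by
  obtain ⟨N, hf⟩ := hf
  obtain ⟨N', hg⟩ := hg
  refine ⟨max N N', fun M hM => ?_⟩
  obtain ⟨a, a1, a2⟩ := hf M (le_of_max_le_left hM)
  obtain ⟨b, b1, b2⟩ := hg M (le_of_max_le_right hM)
  refine ⟨fun j => a j + b j, fun j => (a1 j).add (b1 j), ?_⟩
  simp only [mul_add, Finset.sum_add_distrib, a2, b2]

theorem approx_rep_smul {f : Sm ι} (c : ℂ) (hf : approxRep z l f) : approxRep z l (c • f) := by
  obtain ⟨N, hf⟩ := hf
  refine ⟨N, fun M hM => ?_⟩
  obtain ⟨a, a1, a2⟩ := hf M hM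
  refine ⟨fun j => c • a j, fun j => (a1 j).smul c, ?_⟩
  simp only [mul_smul_comm, ← Finset.smul_sum, a2]

theorem approx_rep_mono (m : ℤ) {b : Sm ι} (hb : Tor [] l b) :
    approxRep z l (approxChar z m * b) := by
  refine ⟨m.natAbs, fun M hM => ?_⟩
  obtain ⟨q, hq⟩ : ∃ q : ℕ, (q : ℤ) = M + m := ⟨(M + m).toNat, by omega⟩
  refine ⟨fun j => if j = q then b else 0, fun j => ?_, ?_⟩
  · by_cases c : j = q
    · simpa [c] using hb
    · simpa [c] using Tor.zero
  · have e : zeta z ^ M * approxChar z m = zeta z ^ q := by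
      ext x
      rw [MulMemClass.coe_mul, Pi.mul_apply, approx_zeta_pow, approx_zeta_pow, approxChar_apply,
        ← Complex.exp_add]
      have : (q : ℂ) = M + m := by exact_mod_cast congrArg (Int.cast : ℤ → ℂ) hq
      rw [this]
      congr 1
      ring
    rw [← mul_assoc, e, Finset.sum_eq_single q]
    · simp
    · intro j _ hj
      simp [hj]
    · intro h
      exact absurd (Finset.mem_range.2 (by omega)) h

theorem approx_dense (hz : z ∉ l) {f : Sm ι} (ht : Tor [] (z :: l) f) {δ : ℝ} (hδ : 0 < δ) :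
    ∃ h : Sm ι, approxRep z l h ∧ ∀ x, ‖f.1 x - h.1 x‖ < δ := by
  let π : (ι → ℝ) → UnitAddTorus ι := Pi.map fun _ => QuotientAddGroup.mk
  have hπ : IsOpenQuotientMap π :=
    IsOpenQuotientMap.piMap fun _ => QuotientAddGroup.isOpenQuotientMap_mk
  let F0 : UnitAddTorus ι → ℂ := fun y => f.1 (Function.surjInv hπ.surjective y)
  have hF0 : ∀ x, F0 (π x) = f.1 x := by
    intro x
    refine ht _ _ (by simp) fun i _ => ?_
    have h1 := congrFun (Function.surjInv_eq hπ.surjective (π x)) i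
    obtain ⟨k, hk⟩ := AddSubgroup.mem_zmultiples_iff.1 (QuotientAddGroup.eq.1 h1.symm)
    refine ⟨k, ?_⟩
    rw [zsmul_eq_mul, mul_one] at hk
    rw [hk]
    ring
  have cF : Continuous F0 := by
    rw [← hπ.continuous_comp_iff]
    have : F0 ∘ π = f.1 := funext hF0
    rw [this]
    exact (Sm.smooth f).continuous
  let F : C(UnitAddTorus ι, ℂ) := ⟨F0, cF⟩
  have mem : F ∈ (Submodule.span ℂ
      (Set.range (UnitAddTorus.mFourier (d := ι)))).topologicalClosure := by
    rw [UnitAddTorus.span_mFourier_closure_eq_top]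
    trivial
  obtain ⟨G, hG, hd⟩ := Metric.mem_closure_iff.1 mem δ hδ
  let pr : (ι → ℝ) → ι → ℝ := fun x i => if i ∈ z :: l then x i else 0
  have key : ∃ h : Sm ι, approxRep z l h ∧ ∀ x, h.1 x = G (π (pr x)) := by
    clear hd
    induction hG using Submodule.span_induction with
    | mem G hG =>
      obtain ⟨k, rfl⟩ := hG
      refine ⟨approxChar z (k z) * ∏ i ∈ l.toFinset, approxChar i (k i),
        approx_rep_mono _ (approx_tor_prod _ _ fun i hi =>
          approx_tor_char (List.mem_toFinset.1 hi) _), fun x => ?_⟩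
      rw [← Finset.prod_insert (f := fun i => approxChar i (k i)) (by simpa using hz),
        SubmonoidClass.coe_finsetProd, Finset.prod_apply]
      change _ = ∏ i, fourier (k i) ((pr x i : ℝ) : UnitAddCircle)
      rw [← Finset.prod_subset (Finset.subset_univ (insert z l.toFinset))]
      · refine Finset.prod_congr rfl fun i hi => ?_
        have : i ∈ z :: l := by simpa using hi
        rw [fourier_coe_apply, approxChar_apply]
        simp only [pr, if_pos this]
        congr 1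
        simp
      · intro i _ hi
        have : i ∉ z :: l := by simpa using hi
        rw [fourier_coe_apply]
        simp only [pr, if_neg this]
        simp
    | zero => exact ⟨0, approx_rep_zero, fun _ => rfl⟩
    | add G G' _ _ h1 h2 =>
      obtain ⟨h, a1, a2⟩ := h1
      obtain ⟨h', b1, b2⟩ := h2
      refine ⟨h + h', approx_rep_add a1 b1, fun x => ?_⟩
      rw [ContinuousMap.add_apply, ← a2, ← b2]
      rfl
    | smul c G _ h1 =>
      obtain ⟨h, a1, a2⟩ := h1
      refine ⟨c • h, approx_rep_smul c a1, fun x => ?_⟩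
      rw [ContinuousMap.smul_apply, ← a2]
      rfl
  obtain ⟨h, h1, h2⟩ := key
  refine ⟨h, h1, fun x => ?_⟩
  have e : f.1 x = F (π (pr x)) := by
    refine Eq.trans ?_ (hF0 _).symm
    exact ht _ _ (by simp) fun i hi => ⟨0, by simp only [pr, if_pos hi]; simp⟩
  rw [e, h2, ← dist_eq_norm]
  exact lt_of_le_of_lt (ContinuousMap.dist_apply_le_dist _) hd

/-- Uniform approximation by trigonometric polynomials in the variable `z`. -/
theorem trig_approx (hz : z ∉ l) {f : Sm ι} (ht : Tor [] (z :: l) f) {δ : ℝ} (hδ : 0 < δ) :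
    ∃ (M r : ℕ) (a : ℕ → Sm ι), (∀ j, Tor [] l (a j)) ∧
      ∀ x, ‖(zeta z ^ M * f).1 x - (∑ j ∈ Finset.range r, zeta z ^ j * a j).1 x‖ < δ := by
  obtain ⟨h, ⟨N, h1⟩, h2⟩ := approx_dense hz ht hδ
  obtain ⟨a, a1, a2⟩ := h1 N le_rfl
  refine ⟨N, 2 * N + 1, a, a1, fun x => ?_⟩
  rw [← a2, MulMemClass.coe_mul, MulMemClass.coe_mul, Pi.mul_apply, Pi.mul_apply, ← mul_sub,
    norm_mul, approx_zeta_pow]
  have : (2 * Real.pi * Complex.I * N * (x z : ℝ) : ℂ) =
      ((2 * Real.pi * N * x z : ℝ) : ℂ) * Complex.I := by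
    push_cast
    ring
  rw [this, Complex.norm_exp_ofReal_mul_I, one_mul]
  exact h2 x

theorem approx_margin {L : List ι} {g : MS n ι} (ht : TorM [] L g) (hg : Inv g) :
    ∃ δ : ℝ, 0 < δ ∧ ∀ (x : ι → ℝ) (E : Matrix n n ℂ), (∀ a b, ‖E a b - ev g x a b‖ < δ) →
      E.det ≠ 0 := by
  have c : Continuous fun (x : ι → ℝ) (a b : n) => (g a b).1 x :=
    continuous_pi fun a => continuous_pi fun b => (Sm.smooth (g a b)).continuous
  have K : IsCompact ((fun (x : ι → ℝ) (a b : n) => (g a b).1 x) '' Set.Icc 0 1) :=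
    isCompact_Icc.image c
  have U : IsOpen {m : n → n → ℂ | (Matrix.of m).det ≠ 0} :=
    isOpen_ne_fun (Continuous.matrix_det continuous_id) continuous_const
  obtain ⟨δ, d0, hd⟩ := K.exists_thickening_subset_open U (by
    rintro _ ⟨x, _, rfl⟩
    exact hg x)
  refine ⟨δ, d0, fun x E hE => hd (a := fun a b => E a b) ?_⟩
  refine Metric.mem_thickening_iff.2 ⟨_, ⟨fun i => Int.fract (x i),
    ⟨fun i => Int.fract_nonneg _, fun i => (Int.fract_lt_one _).le⟩, rfl⟩, ?_⟩
  refine (dist_pi_lt_iff d0).2 fun a => (dist_pi_lt_iff d0).2 fun b => ?_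
  have e : (g a b).1 x = (g a b).1 fun i => Int.fract (x i) :=
    ht a b x _ (by simp) fun i _ => ⟨⌊x i⌋, (Int.fract_add_floor _).symm⟩
  have := hE a b
  rw [ev_apply, e, ← dist_eq_norm] at this
  exact this

theorem approx (hz : z ∉ l) {g : MS n ι} (ht : TorM [] (z :: l) g) (hg : Inv g) :
    ∃ (M r : ℕ) (a : ℕ → MS n ι), (∀ j, TorM [] l (a j)) ∧
      Seg (zeta z ^ M • g) (∑ j ∈ Finset.range r, zeta z ^ j • a j) := by
  obtain ⟨δ, d0, hd⟩ := approx_margin ht hg
  choose h h1 h2 using fun a b => approx_dense hz (ht a b) d0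
  choose N hN using h1
  let M : ℕ := Finset.univ.sup fun p : n × n => N p.1 p.2
  choose A A1 A2 using fun a b => hN a b M
    (Finset.le_sup (f := fun p : n × n => N p.1 p.2) (Finset.mem_univ (a, b)))
  refine ⟨M, 2 * M + 1, fun j => Matrix.of fun a b => A a b j, fun j a b => A1 a b j, ?_⟩
  have e : (∑ j ∈ Finset.range (2 * M + 1), zeta z ^ j • Matrix.of fun a b => A a b j) =
      zeta z ^ M • Matrix.of h := by
    ext a b : 2
    simp only [Matrix.sum_apply, Matrix.smul_apply, Matrix.of_apply, smul_eq_mul, A2]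
  rw [e]
  intro r r0 r1 x
  rw [ev_smul, ev_smul, smul_comm _ ((zeta z ^ M).1 x), smul_comm _ ((zeta z ^ M).1 x),
    ← smul_add, Matrix.det_smul]
  refine mul_ne_zero (pow_ne_zero _ ?_) (hd x _ fun a b => ?_)
  · rw [approx_zeta_pow]
    exact Complex.exp_ne_zero _
  · have e2 : (((1 - r : ℝ) : ℂ) • ev g x + ((r : ℝ) : ℂ) • ev (Matrix.of h) x) a b - ev g x a b =
        -((r : ℂ) * ((g a b).1 x - (h a b).1 x)) := by
      simp only [Matrix.add_apply, Matrix.smul_apply, ev_apply, Matrix.of_apply, smul_eq_mul]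
      push_cast
      ring
    rw [e2, norm_neg, norm_mul, Complex.norm_real, Real.norm_eq_abs, abs_of_nonneg r0]
    exact lt_of_le_of_lt (mul_le_of_le_one_left (norm_nonneg _) r1) (h2 a b x)

end Pool.Agent.Lib.MP_b7c8b0_gt
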