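import Pool.Agent.Lib.MP_b7c8b0_gt.MForm

open scoped ContDiff Topology ComplexConjugate
open Filter MeasureTheory Matrix

noncomputable section

namespace Pool.Agent.Lib.MP_b7c8b0_gt

variable {ι : Type} [Fintype ι] [DecidableEq ι] {n : Type} [Fintype n] [DecidableEq n]
  {t s z : ι} {l : List ι}

theorem clutchU_smooth (z : ι) (r : ℝ) :
    ContDiff ℝ ∞ (fun x : ι → ℝ => Function.update x z (r * Real.smoothTransition (x z))) := by
  refine contDiff_pi.2 fun j => ?_
  by_cases h : j = z
  · subst h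
    simpa [Function.comp_def] using
      contDiff_const.mul (Real.smoothTransition.contDiff.comp (contDiff_apply ℝ ℝ j))
  · simpa [Function.update_of_ne h] using contDiff_apply ℝ ℝ j

/-- The idempotent at time `r` of the reparametrised loop. -/
def clutchU_e (z : ι) (r : ℝ) : MS n ι →ₐ[ℂ] MS n ι := (compS _ (clutchU_smooth z r)).mapMatrix

theorem clutchU_ev (z : ι) (r : ℝ) (e : MS n ι) (x : ι → ℝ) :
    ev (clutchU_e z r e) x = ev e (Function.update x z (r * Real.smoothTransition (x z))) := rfl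

theorem clutchU_zero (z : ι) (e : MS n ι) : clutchU_e z 0 e = fSM z 0 e :=
  ev_ext fun x => by rw [clutchU_ev, ev_fSM, zero_mul]

theorem clutchU_one (z : ι) (e : MS n ι) : clutchU_e z 1 e = repM z e :=
  ev_ext fun x => by
    rw [clutchU_ev, one_mul]
    rfl

theorem clutchU_face (z : ι) (r : ℝ) (e : MS n ι) : fSM z 0 (clutchU_e z r e) = fSM z 0 e :=
  ev_ext fun x => by
    rw [ev_fSM, clutchU_ev, ev_fSM]
    simp [Real.smoothTransition.zero]

theorem clutchU_tor (hz : z ∉ l) {e : MS n ι} (ht : TorM [] (z :: l) e) (r : ℝ) :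
    TorM [z] l (clutchU_e z r e) := by
  rw [torM_iff] at ht ⊢
  intro x y hP hl
  have hxy : x z = y z := hP z (by simp)
  rw [clutchU_ev, clutchU_ev]
  refine ht _ _ (by simp) fun i hi => ?_
  by_cases h : i = z
  · subst h
    exact ⟨0, by simp [hxy]⟩
  · have hi' : i ∈ l := by simpa [h] using hi
    simpa [Function.update_of_ne h] using hl i hi'

theorem clutchU_alg {R : Type} [Ring R] {a b : R} (ha : a * a = a) (hb : b * b = b) :
    (a * b + (1 - a) * (1 - b)) * b = a * (a * b + (1 - a) * (1 - b)) ∧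
    (a * b + (1 - a) * (1 - b)) * (b * a + (1 - b) * (1 - a)) = 1 - (a - b) * (a - b) := by
  have hb' : ∀ c : R, b * (b * c) = b * c := fun c => by rw [← mul_assoc, hb]
  have ha' : ∀ c : R, a * (a * c) = a * c := fun c => by rw [← mul_assoc, ha]
  constructor
  · simp only [mul_add, add_mul, mul_sub, sub_mul, mul_one, one_mul, mul_assoc, ha, hb, ha']
    abel
  · simp only [mul_add, add_mul, mul_sub, sub_mul, mul_one, one_mul, mul_assoc, ha, hb, hb']
    abel

theorem clutchU_unif {e : MS n ι} (ht : TorM [] (z :: l) e) :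
    ∃ δ : ℝ, 0 < δ ∧ ∀ (x : ι → ℝ) (a b : ℝ), a ∈ Set.Icc (0 : ℝ) 1 → b ∈ Set.Icc (0 : ℝ) 1 →
      |a - b| < δ → (1 - (ev e (Function.update x z a) - ev e (Function.update x z b)) *
        (ev e (Function.update x z a) - ev e (Function.update x z b))).det ≠ 0 := by
  obtain ⟨G, hG⟩ : ∃ G : (ι → ℝ) × (ι → ℝ) → ℂ,
      G = fun p => (1 - (ev e p.1 - ev e p.2) * (ev e p.1 - ev e p.2)).det := ⟨_, rfl⟩
  have hc : Continuous G := by
    have h1 : Continuous fun p : (ι → ℝ) × (ι → ℝ) => ev e p.1 - ev e p.2 :=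
      ((continuous_ev e).comp continuous_fst).sub ((continuous_ev e).comp continuous_snd)
    rw [hG]
    exact (continuous_const.sub (h1.matrix_mul h1)).matrix_det
  have hK : IsCompact (Set.Icc (0 : ι → ℝ) 1 ×ˢ Set.Icc (0 : ι → ℝ) 1) :=
    isCompact_Icc.prod isCompact_Icc
  obtain ⟨δ, hδ, hu⟩ := Metric.uniformContinuousOn_iff.1
    (hK.uniformContinuousOn_of_continuous hc.continuousOn) 1 one_pos
  refine ⟨δ, hδ, fun x a b ha hb hab => ?_⟩
  rw [torM_iff] at ht
  have hred : ∀ c : ℝ, ev e (Function.update x z c) =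
      ev e (Function.update (fun i => Int.fract (x i)) z c) := fun c => by
    refine ht _ _ (by simp) fun i _ => ?_
    by_cases h : i = z
    · subst h
      exact ⟨0, by simp⟩
    · exact ⟨⌊x i⌋, by simp [Function.update_of_ne h]⟩
  have hmem : ∀ c ∈ Set.Icc (0 : ℝ) 1,
      Function.update (fun i => Int.fract (x i)) z c ∈ Set.Icc (0 : ι → ℝ) 1 := fun c hc => by
    constructor <;> intro i <;> by_cases h : i = z
    · subst h
      simpa using hc.1
    · simp [Function.update_of_ne h]
    · subst h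
      simpa using hc.2
    · simpa [Function.update_of_ne h] using (Int.fract_lt_one (x i)).le
  rw [hred a, hred b]
  obtain ⟨y, hy⟩ : ∃ y : ι → ℝ, y = fun i => Int.fract (x i) := ⟨_, rfl⟩
  rw [← hy] at hmem ⊢
  have hd : dist (Function.update y z a, Function.update y z b)
      (Function.update y z b, Function.update y z b) < δ := by
    rw [Prod.dist_eq, dist_self, max_lt_iff]
    refine ⟨(dist_pi_lt_iff hδ).2 fun i => ?_, hδ⟩
    by_cases h : i = z
    · subst h
      simpa [Real.dist_eq] using hab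
    · simpa [Function.update_of_ne h] using hδ
  have h1 := hu _ ⟨hmem a ha, hmem b hb⟩ _ ⟨hmem b hb, hmem b hb⟩ hd
  intro h0
  rw [hG] at h1
  simp only [h0, sub_self, mul_zero, sub_zero, det_one] at h1
  simp at h1

/-- Parallel transport for a loop of idempotents. -/
theorem clutch_U (hz : z ∉ l) {e : MS n ι} (he : e * e = e) (ht : TorM [] (z :: l) e) :
    ∃ U : MS n ι, Inv U ∧ TorM [z] l U ∧ fSM z 0 U = 1 ∧ U * fSM z 0 e = repM z e * U := by
  obtain ⟨δ, hδ, hu⟩ := clutchU_unif ht
  obtain ⟨K, hK⟩ := exists_nat_one_div_lt hδ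
  have hK0 : (0 : ℝ) < (K : ℝ) + 1 := by positivity
  have hid : ∀ r : ℝ, clutchU_e z r e * clutchU_e z r e = clutchU_e z r e := fun r => by
    rw [← map_mul, he]
  have key : ∀ j : ℕ, j ≤ K + 1 → ∃ U : MS n ι, Inv U ∧ TorM [z] l U ∧ fSM z 0 U = 1 ∧
      U * fSM z 0 e = clutchU_e z ((j : ℝ) / (K + 1)) e * U := by
    intro j
    induction j with
    | zero =>
      intro _
      refine ⟨1, Inv.one, TorM.one, map_one _, ?_⟩
      rw [Nat.cast_zero, zero_div, clutchU_zero, one_mul, mul_one]
    | succ j ih =>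
      intro hj
      obtain ⟨U, hU1, hU2, hU3, hU4⟩ := ih (by omega)
      have hj' : (j : ℝ) + 1 ≤ K + 1 := by exact_mod_cast hj
      obtain ⟨a, ha⟩ : ∃ a : MS n ι, a = clutchU_e z (((j + 1 : ℕ) : ℝ) / (K + 1)) e := ⟨_, rfl⟩
      obtain ⟨b, hb⟩ : ∃ b : MS n ι, b = clutchU_e z ((j : ℝ) / (K + 1)) e := ⟨_, rfl⟩
      have hta : TorM [z] l a := ha ▸ clutchU_tor hz ht _
      have htb : TorM [z] l b := hb ▸ clutchU_tor hz ht _
      obtain ⟨h1, h2⟩ := clutchU_alg (a := a) (b := b) (ha ▸ hid _) (hb ▸ hid _)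
      rw [← ha]
      rw [← hb] at hU4
      refine ⟨(a * b + (1 - a) * (1 - b)) * U, Inv.mul (fun x h0 => ?_) hU1,
        ((hta.mul htb).add ((TorM.one.sub hta).mul (TorM.one.sub htb))).mul hU2, ?_, ?_⟩
      · have h3 := congrArg (fun g => (ev g x).det) h2
        simp only [ev_mul (a * b + (1 - a) * (1 - b)), det_mul, h0, zero_mul] at h3
        rw [ev_sub, ev_mul, ev_sub, ev_one, ha, hb, clutchU_ev, clutchU_ev] at h3
        have hs0 := Real.smoothTransition.nonneg (x z)
        have hs1 := Real.smoothTransition.le_one (x z)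
        have hq : ∀ c : ℝ, 0 ≤ c → c ≤ K + 1 →
            c / (K + 1) * Real.smoothTransition (x z) ∈ Set.Icc (0 : ℝ) 1 := fun c hc0 hc1 =>
          ⟨by positivity, mul_le_one₀ ((div_le_one hK0).2 hc1) hs0 hs1⟩
        refine hu x _ _ (hq _ (by positivity) (by exact_mod_cast hj))
          (hq _ (by positivity) (by linarith)) ?_ h3.symm
        have h4 : ((j + 1 : ℕ) : ℝ) / (K + 1) * Real.smoothTransition (x z) -
            (j : ℝ) / (K + 1) * Real.smoothTransition (x z) =
            1 / (K + 1) * Real.smoothTransition (x z) := by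
          push_cast
          ring
        rw [h4, abs_of_nonneg (by positivity)]
        exact lt_of_le_of_lt (mul_le_of_le_one_right (by positivity) hs1) hK
      · have he0 : fSM z 0 e * fSM z 0 e = fSM z 0 e := by rw [← map_mul, he]
        rw [map_mul, hU3, mul_one, map_add, map_mul, map_mul, map_sub, map_sub, map_one, ha, hb,
          clutchU_face, clutchU_face]
        simp only [mul_sub, sub_mul, mul_one, one_mul, he0]
        abel
      · rw [mul_assoc, hU4, ← mul_assoc, h1, mul_assoc]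
  obtain ⟨U, h1, h2, h3, h4⟩ := key (K + 1) le_rfl
  refine ⟨U, h1, h2, h3, ?_⟩
  rw [h4, ← clutchU_one]
  push_cast
  rw [div_self hK0.ne']

end Pool.Agent.Lib.MP_b7c8b0_gt
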