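import Pool.Agent.Lib.MP_b7c8b0_gt.Trans
import Pool.Agent.Lib.MP_b7c8b0_gt.ClutchU

open scoped ContDiff Topology ComplexConjugate
open Filter MeasureTheory Matrix

noncomputable section

namespace Pool.Agent.Lib.MP_b7c8b0_gt

variable {ι : Type} [Fintype ι] [DecidableEq ι] {n : Type} [Fintype n] [DecidableEq n]
  {t s z : ι} {l : List ι}

theorem clutch_face (i : ι) (c : ℝ) (k : ℕ) (e : MS n ι) :
    face i c (trace (fnM e * dM (fnM e) ^ k)) =
      trace (fnM (fSM i c e) * dM (fnM (fSM i c e)) ^ k) := by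
  rw [face_trace, map_mul, map_pow, faceM_dM, faceM_fnM]

theorem clutch_contDiff (s z : ι) : ContDiff ℝ ∞ (fun x : ι → ℝ =>
    Function.update x z ((1 - x s) * x z + x s * Real.smoothTransition (x z))) := by
  refine contDiff_pi.2 fun j => ?_
  by_cases h : j = z
  · subst h
    simp only [Function.update_self]
    exact ((contDiff_const.sub (contDiff_apply ℝ ℝ s)).mul (contDiff_apply ℝ ℝ j)).add
      ((contDiff_apply ℝ ℝ s).mul (Real.smoothTransition.contDiff.comp (contDiff_apply ℝ ℝ j)))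
  · simpa [Function.update_of_ne h] using contDiff_apply ℝ ℝ j

/-- Reparametrisation invariance of the even Chern character number. -/
theorem JJ_rep (m : ℕ) (hN : (s :: z :: l).Nodup) {e : MS n ι} (he : e * e = e)
    (ht : TorM [] (z :: l) e) : JJ m (z :: l) (repM z e) = JJ m (z :: l) e := by
  have hN' := hN
  simp only [List.nodup_cons, List.mem_cons, not_or] at hN'
  obtain ⟨⟨sz, sl⟩, zl, -⟩ := hN'
  let E : MS n ι := (compS _ (clutch_contDiff s z)).mapMatrix e
  have hE : E * E = E := by rw [← map_mul, he]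
  have evE : ∀ x, ev E x = ev e
      (Function.update x z ((1 - x s) * x z + x s * Real.smoothTransition (x z))) := fun _ => rfl
  have evR : ∀ x, ev (repM z e) x = ev e (Function.update x z (Real.smoothTransition (x z))) :=
    fun _ => rfl
  have tor := torM_iff.1 ht
  have e1 : fSM s 1 E = repM z e := ev_ext fun x => by
    rw [ev_fSM, evE, evR]
    refine tor _ _ (by simp) fun i hi => ⟨0, ?_⟩
    by_cases c : i = z
    · subst c
      simp [Function.update_of_ne (Ne.symm sz)]
    · have : i ≠ s := by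
        rintro rfl
        exact sl ((List.mem_cons.1 hi).resolve_left c)
      simp [Function.update_of_ne c, Function.update_of_ne this]
  have e0 : fSM s 0 E = e := ev_ext fun x => by
    rw [ev_fSM, evE]
    refine tor _ _ (by simp) fun i hi => ⟨0, ?_⟩
    by_cases c : i = z
    · subst c
      simp [Function.update_of_ne (Ne.symm sz)]
    · have : i ≠ s := by
        rintro rfl
        exact sl ((List.mem_cons.1 hi).resolve_left c)
      simp [Function.update_of_ne c, Function.update_of_ne this]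
  have per : ∀ j ∈ z :: l, fSM j 1 E = fSM j 0 E := fun j hj => ev_ext fun x => by
    rw [ev_fSM, ev_fSM, evE, evE]
    refine tor _ _ (by simp) fun i hi => ?_
    by_cases jz : j = z
    · subst jz
      by_cases c : i = j
      · subst c
        exact ⟨1, by simp [Function.update_of_ne sz]⟩
      · exact ⟨0, by simp [Function.update_of_ne c]⟩
    · have sj : s ≠ j := by
        rintro rfl
        exact sl ((List.mem_cons.1 hj).resolve_left jz)
      by_cases c : i = z
      · subst c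
        exact ⟨0, by simp [Function.update_of_ne sj, Function.update_of_ne (Ne.symm jz)]⟩
      · by_cases c' : i = j
        · subst c'
          exact ⟨1, by simp [Function.update_of_ne c]⟩
        · exact ⟨0, by simp [Function.update_of_ne c, Function.update_of_ne c']⟩
  have := st1 hN (w := trace (fnM E * dM (fnM E) ^ (2 * m))) fun j hj => by
    unfold WPer
    rw [clutch_face, clutch_face, per j hj]
  rw [dd_idem m hE, map_zero, clutch_face, clutch_face, e1, e0] at this
  exact sub_eq_zero.1 this.symm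

theorem clutch_dinv {V : MS n ι} (hV : Inv V) :
    dM (fnM V⁻¹) = -(fnM V⁻¹ * dM (fnM V) * fnM V⁻¹) := by
  have h1 : fnM V * fnM V⁻¹ = 1 := by rw [← map_mul, hV.mul_inv, map_one]
  have h2 : fnM V⁻¹ * fnM V = 1 := by rw [← map_mul, hV.inv_mul, map_one]
  have h3 := congrArg dM h2
  rw [dM_mul, dM_one, sgM_fnM] at h3
  have h4 := congrArg (· * fnM V⁻¹) h3
  simp only [add_mul, zero_mul, mul_assoc (dM (fnM V⁻¹)), h1, mul_one] at h4
  exact eq_neg_of_add_eq_zero_left h4

theorem clutch_mc_mul {g h : MS n ι} (hg : Inv g) :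
    mc (g * h) = gauge h h⁻¹ (mc g) := by
  have h2 : fnM g⁻¹ * fnM g = 1 := by rw [← map_mul, hg.inv_mul, map_one]
  unfold mc gauge
  rw [Matrix.mul_inv_rev, map_mul, map_mul, dM_mul, sgM_fnM, mul_add]
  congr 1
  · simp only [mul_assoc]
  · rw [mul_assoc, ← mul_assoc (fnM g⁻¹), h2, one_mul]

variable {n' : Type} [Fintype n'] [DecidableEq n']

omit [DecidableEq ι] in
theorem clutch_fnM_diag (a : MS n ι) (b : MS n' ι) :
    fnM (fromBlocks a 0 0 b) = fromBlocks (fnM a) 0 0 (fnM b) := by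
  ext (i | i) (j | j) <;> simp [fnM_apply]

omit [Fintype n] [DecidableEq n] [Fintype n'] [DecidableEq n'] in
theorem clutch_dM_diag (a : MO n ι) (b : MO n' ι) :
    dM (fromBlocks a 0 0 b) = fromBlocks (dM a) 0 0 (dM b) := by
  ext (i | i) (j | j) <;> simp [dM_apply]

omit [DecidableEq n] [DecidableEq n'] in
theorem clutch_trace {R : Type} [AddCommMonoid R] (a : Matrix n n R) (b : Matrix n n' R)
    (c : Matrix n' n R) (d : Matrix n' n' R) :
    trace (fromBlocks a b c d) = trace a + trace d := by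
  simp [trace, Fintype.sum_sum_type]

/-- The Grassmann connection in a trivialising frame. -/
theorem grass {n' : Type} [Fintype n'] [DecidableEq n'] (m : ℕ) {V : MS (n ⊕ n') ι} (hV : Inv V) :
    trace (fnM (V * fromBlocks 1 0 0 0 * V⁻¹) * dM (fnM (V * fromBlocks 1 0 0 0 * V⁻¹)) ^ (2 * m))
      = ch m (toBlocks₁₁ (mc V)) := by
  have h1 : fnM V * fnM V⁻¹ = 1 := by rw [← map_mul, hV.mul_inv, map_one]
  have h2 : fnM V⁻¹ * fnM V = 1 := by rw [← map_mul, hV.inv_mul, map_one]
  have hP : fnM (fromBlocks 1 0 0 0 : MS (n ⊕ n') ι) = fromBlocks 1 0 0 0 := by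
    rw [clutch_fnM_diag, map_one, map_zero]
  have dP : dM (fromBlocks 1 0 0 0 : MO (n ⊕ n') ι) = 0 := by
    rw [clutch_dM_diag, dM_one, dM_zero, fromBlocks_zero]
  have sP : sgM (fromBlocks 1 0 0 0 : MO (n ⊕ n') ι) = fromBlocks 1 0 0 0 := by
    rw [← hP, sgM_fnM]
  have dE : dM (fnM (V * fromBlocks 1 0 0 0 * V⁻¹)) =
      fnM V * (mc V * fromBlocks 1 0 0 0 - fromBlocks 1 0 0 0 * mc V) * fnM V⁻¹ := by
    rw [map_mul, map_mul, hP, dM_mul, dM_mul, dP, map_mul, sgM_fnM, sP, clutch_dinv hV]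
    unfold mc
    rw [mul_sub, sub_mul, ← mul_assoc (fnM V), ← mul_assoc (fnM V), h1]
    simp only [mul_zero, add_zero, one_mul, mul_neg, mul_assoc, sub_eq_add_neg]
  have pw : ∀ (X : MO (n ⊕ n') ι) (k : ℕ),
      (fnM V * X * fnM V⁻¹) ^ k = fnM V * X ^ k * fnM V⁻¹ := by
    intro X k
    induction k with
    | zero => simp [h1]
    | succ k ih =>
      rw [pow_succ, ih, pow_succ]
      simp only [mul_assoc]
      rw [← mul_assoc (fnM V⁻¹), h2, one_mul]
  have fl := hV.curv_mc
  obtain ⟨A, B, C, D, hθ⟩ : ∃ A B C D, mc V = fromBlocks A B C D :=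
    ⟨_, _, _, _, (fromBlocks_toBlocks _).symm⟩
  have cA : curv A = -(B * C) := by
    have := congrArg toBlocks₁₁ fl
    rw [hθ, curv, fromBlocks_multiply] at this
    refine eq_neg_of_add_eq_zero_left ?_
    ext i j
    have := congrFun (congrFun this i) j
    simpa [curv, toBlocks₁₁, dM_apply, add_assoc] using this
  have X2 : (mc V * fromBlocks 1 0 0 0 - fromBlocks 1 0 0 0 * mc V) ^ 2 =
      fromBlocks (curv A) 0 0 (-(C * B)) := by
    have : mc V * fromBlocks 1 0 0 0 - fromBlocks 1 0 0 0 * mc V = fromBlocks 0 (-B) C 0 := by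
      rw [hθ, fromBlocks_multiply, fromBlocks_multiply, sub_eq_add_neg, fromBlocks_neg,
        fromBlocks_add]
      simp
    rw [this, pow_two, fromBlocks_multiply, cA]
    simp
  rw [dE, pw, pow_mul, X2, fromBlocks_diagonal_pow, map_mul, map_mul, hP, hθ,
    toBlocks_fromBlocks₁₁]
  simp only [mul_assoc]
  rw [← mul_assoc (fnM V⁻¹), h2, one_mul, trace_ev (sgM_fnM V)]
  simp only [mul_assoc]
  rw [h2, mul_one, fromBlocks_multiply, clutch_trace]
  simp [ch]

theorem clutch_adm {I : List ι} {θ : MO (n ⊕ n') ι} (h : Adm I l θ) :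
    Adm I l (toBlocks₁₁ θ) :=
  ⟨by
    ext i j
    exact congrFun (congrFun h.odd (Sum.inl i)) (Sum.inl j),
  fun a ha => by
    ext i j
    exact congrFun (congrFun (h.ind a ha) (Sum.inl i)) (Sum.inl j),
  fun a ha => by
    ext i j
    exact congrFun (congrFun (h.per a ha) (Sum.inl i)) (Sum.inl j)⟩

omit [DecidableEq ι] [Fintype n] [DecidableEq n] in
theorem clutch_tor {P : List ι} {a b c d : MS n ι} (ha : TorM P l a) (hb : TorM P l b)
    (hc : TorM P l c) (hd : TorM P l d) : TorM P l (fromBlocks a b c d) := by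
  rintro (i | i) (j | j)
  · exact ha i j
  · exact hb i j
  · exact hc i j
  · exact hd i j

theorem clutch_fSM (i : ι) (r : ℝ) (a b c d : MS n ι) : fSM i r (fromBlocks a b c d) =
    fromBlocks (fSM i r a) (fSM i r b) (fSM i r c) (fSM i r d) := by
  ext (i | i) (j | j) : 2 <;> rfl

theorem clutch_gauge {v w : MS n ι} {v' w' : MS n' ι} (θ : MO (n ⊕ n') ι) :
    toBlocks₁₁ (gauge (fromBlocks v 0 0 v') (fromBlocks w 0 0 w') θ) =
      gauge v w (toBlocks₁₁ θ) := by
  obtain ⟨A, B, C, D, rfl⟩ : ∃ A B C D, θ = fromBlocks A B C D :=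
    ⟨_, _, _, _, (fromBlocks_toBlocks _).symm⟩
  unfold gauge
  rw [clutch_fnM_diag, clutch_fnM_diag, clutch_dM_diag, fromBlocks_multiply, fromBlocks_multiply,
    fromBlocks_multiply, fromBlocks_add, toBlocks_fromBlocks₁₁, toBlocks_fromBlocks₁₁]
  simp

theorem clutch_alg {R : Type} [Ring R] {u u' p : R} (hp : p * p = p) (hu : u * p = p * u)
    (h1 : u * u' = 1) (h2 : u' * u = 1) : (u * p + (1 - p)) * (u' * p + (1 - p)) = 1 := by
  have hu' : u' * p = p * u' := by
    calc u' * p = u' * p * (u * u') := by rw [h1, mul_one]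
      _ = u' * (p * u) * u' := by simp only [mul_assoc]
      _ = p * u' := by rw [← hu, ← mul_assoc, h2, one_mul]
  have a1 : u * p * (u' * p) = p := by rw [hu, mul_assoc, ← mul_assoc u, h1, one_mul, hp]
  have a2 : p * (1 - p) = 0 := by rw [mul_sub, mul_one, hp, sub_self]
  have a2' : (1 - p) * p = 0 := by rw [sub_mul, one_mul, hp, sub_self]
  have a3 : (1 - p) * (1 - p) = 1 - p := by rw [sub_mul, one_mul, a2, sub_zero]
  rw [add_mul, mul_add, mul_add, a1, a3, mul_assoc, a2, hu', ← mul_assoc (1 - p), a2']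
  simp

/-- Clutching. -/
theorem clutch (m : ℕ) (hN : (t :: s :: z :: l).Nodup) {e : MS n ι} (he : e * e = e)
    (ht : TorM [] (z :: l) e) :
    ∃ v : MS n ι, Inv v ∧ TorM [] l v ∧ JJ m (z :: l) e = Ch m t l v := by
  have hN' := hN
  simp only [List.nodup_cons, List.mem_cons, not_or] at hN'
  obtain ⟨⟨ts, tz, tl⟩, ⟨sz, sl⟩, zl, hl⟩ := hN'
  obtain ⟨U, hU, tU, U0, Ue⟩ := clutch_U zl he ht
  obtain ⟨p, hp⟩ : ∃ p, p = fSM z 0 e := ⟨_, rfl⟩
  rw [← hp] at Ue
  have pp : p * p = p := by rw [hp, ← map_mul, he]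
  have tp : TorM [] l p := hp ▸ ht.fSM_cons_right 0
  have fp : ∀ c, fSM z c p = p := fun c => tp.fSM_not_mem (by simp) zl c
  have a2 : p * (1 - p) = 0 := by rw [mul_sub, mul_one, pp, sub_self]
  have a2' : (1 - p) * p = 0 := by rw [sub_mul, one_mul, pp, sub_self]
  have a3 : (1 - p) * (1 - p) = 1 - p := by rw [sub_mul, one_mul, a2, sub_zero]
  obtain ⟨u, hu⟩ : ∃ u, u = fSM z 1 U := ⟨_, rfl⟩
  have iu : Inv u := hu ▸ hU.fSM z 1
  have tu : TorM [] l u := hu ▸ tU.fSM_cons_left 1
  have r1 : fSM z 1 (repM z e) = p := by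
    rw [hp, ← ht.fSM_per (by simp)]
    refine ev_ext fun x => ?_
    rw [ev_fSM, ev_fSM]
    change ev e (Function.update (Function.update x z 1) z
      (Real.smoothTransition (Function.update x z 1 z))) = _
    simp
  have up : u * p = p * u := by
    have := congrArg (fSM z 1) Ue
    rwa [map_mul, map_mul, r1, fp, ← hu] at this
  have up' : u * (1 - p) = (1 - p) * u := by rw [mul_sub, sub_mul, up, mul_one, one_mul]
  obtain ⟨S, hS⟩ : ∃ S : MS (n ⊕ n) ι, S = fromBlocks p (1 - p) (1 - p) p := ⟨_, rfl⟩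
  have SS : S * S = 1 := by
    rw [hS, fromBlocks_multiply, pp, a2, a2', a3, ← fromBlocks_one]
    simp
  have iS : Inv S := Inv.of_mul SS
  have tS : TorM [] l S := hS ▸ clutch_tor tp (TorM.one.sub tp) (TorM.one.sub tp) tp
  have fS' : ∀ c, fSM z c S = S := fun c => tS.fSM_not_mem (by simp) zl c
  have dU : fromBlocks U 0 0 (1 : MS n ι) * fromBlocks U⁻¹ 0 0 1 = 1 := by
    rw [fromBlocks_multiply, hU.mul_inv, ← fromBlocks_one]
    simp
  obtain ⟨V, hV⟩ : ∃ V : MS (n ⊕ n) ι, V = fromBlocks U 0 0 1 * S := ⟨_, rfl⟩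
  have iV : Inv V := hV ▸ (Inv.of_mul dU).mul iS
  have tV : TorM [z] l V := hV ▸ (clutch_tor tU TorM.zero TorM.zero TorM.one).mul
    (tS.mono (by simp) fun i hi => Or.inr hi)
  have Vi : V⁻¹ = S * fromBlocks U⁻¹ 0 0 1 := Matrix.inv_eq_right_inv (by
    rw [hV, mul_assoc, ← mul_assoc S, SS, one_mul, dU])
  have VP : V * fromBlocks 1 0 0 0 * V⁻¹ = fromBlocks (repM z e) 0 0 (1 - p) := by
    have : S * fromBlocks 1 0 0 0 * S = fromBlocks p 0 0 (1 - p) := by
      rw [hS, fromBlocks_multiply, fromBlocks_multiply]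
      simp [pp, a2, a2', a3]
    rw [Vi, hV, mul_assoc _ S, mul_assoc, ← mul_assoc (S * _), this, fromBlocks_multiply,
      fromBlocks_multiply]
    simp [← mul_assoc, Ue, mul_assoc (repM z e), hU.mul_inv]
  have G := grass m iV
  rw [VP, clutch_fnM_diag, clutch_dM_diag, fromBlocks_diagonal_pow, fromBlocks_multiply,
    clutch_trace] at G
  simp only [Matrix.mul_zero, add_zero, zero_add] at G
  have J0 : itg (z :: l) (trace (fnM (1 - p) * dM (fnM (1 - p)) ^ (2 * m))) = 0 :=
    itg_ind (i := z) (by simp) (by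
      unfold Ind
      rw [clutch_face, map_sub, map_one, fp])
  have J1 : JJ m (z :: l) e = itg (z :: l) (ch m (toBlocks₁₁ (mc V))) := by
    rw [← G, map_add, J0, add_zero, ← JJ_rep m (s := s) (by simp [sz, sl, zl, hl]) he ht]
    rfl
  have vv := clutch_alg pp up iu.mul_inv iu.inv_mul
  have vv' := clutch_alg a3 up' iu.mul_inv iu.inv_mul
  rw [sub_sub_cancel] at vv'
  have iv : Inv (u * p + (1 - p)) := Inv.of_mul vv
  have tv : TorM [] l (u * p + (1 - p)) := (tu.mul tp).add (TorM.one.sub tp)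
  have DD : fromBlocks (u * p + (1 - p)) 0 0 (u * (1 - p) + p) *
      fromBlocks (u⁻¹ * p + (1 - p)) 0 0 (u⁻¹ * (1 - p) + p) = 1 := by
    rw [fromBlocks_multiply, vv, vv', ← fromBlocks_one]
    simp
  have V0 : fSM z 0 V = S := by
    rw [hV, map_mul, fS', clutch_fSM, U0, map_zero, map_one, fromBlocks_one, one_mul]
  have V1 : fSM z 1 V = S * fromBlocks (u * p + (1 - p)) 0 0 (u * (1 - p) + p) := by
    rw [hV, map_mul, fS', clutch_fSM, ← hu, map_zero, map_one, hS, fromBlocks_multiply,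
      fromBlocks_multiply]
    have b1 : p * (u * p + (1 - p)) = u * p := by
      rw [mul_add, a2, add_zero, ← mul_assoc, ← up, mul_assoc, pp]
    have b2 : (1 - p) * (u * (1 - p) + p) = u * (1 - p) := by
      rw [mul_add, a2', add_zero, ← mul_assoc, ← up', mul_assoc, a3]
    have b3 : (1 - p) * (u * p + (1 - p)) = 1 - p := by
      rw [mul_add, a3, ← mul_assoc, ← up', mul_assoc, a2', mul_zero, zero_add]
    have b4 : p * (u * (1 - p) + p) = p := by
      rw [mul_add, pp, ← mul_assoc, ← up, mul_assoc, a2, mul_zero, zero_add]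
    rw [b1, b2, b3, b4]
    simp
  have fb : ∀ (c : ℝ) (θ : MO (n ⊕ n) ι),
      faceM z c (toBlocks₁₁ θ) = toBlocks₁₁ (faceM z c θ) := fun _ _ => rfl
  have A1 : toBlocks₁₁ (mc (fSM z 1 V)) =
      gauge (u * p + (1 - p)) (u * p + (1 - p))⁻¹ (toBlocks₁₁ (mc S)) := by
    rw [V1, clutch_mc_mul iS, Matrix.inv_eq_right_inv DD, clutch_gauge,
      Matrix.inv_eq_right_inv vv]
  refine ⟨_, iv, tv, ?_⟩
  rw [J1, T_path m (s := s) (by simp [Ne.symm sz, zl, sl, hl])
      (clutch_adm (Adm.mc iV tV (by simp [sz, sl]) (fun i hi => by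
        simp only [List.mem_singleton]
        rintro rfl
        exact zl hi))),
    fb, fb, iV.faceM_mc, iV.faceM_mc, V0,
    T_var m (s := t) (by simp [Ne.symm tz, zl, tl, hl])
      (clutch_adm (Adm.mc iS tS (by simp [zl, tl]) (by simp)))
      (clutch_adm (Adm.mc (iV.fSM z 1) (tV.fSM_cons_left 1) (by simp [zl, tl]) (by simp))),
    A1, Ch_eq m (s := s) (by simp [ts, tl, sl, hl]) iv tv
      (clutch_adm (Adm.mc iS tS (by simp [sl, tl]) (by simp)))]

end Pool.Agent.Lib.MP_b7c8b0_gt
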