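import Pool.Agent.Lib.MP_b7c8b0_gt.MForm

open scoped ContDiff Topology ComplexConjugate
open Filter MeasureTheory Matrix

noncomputable section

namespace Pool.Agent.Lib.MP_b7c8b0_gt

variable {ι : Type} [Fintype ι] [DecidableEq ι] {n : Type} [Fintype n] [DecidableEq n]
  {t s z : ι} {l : List ι}

/-- Integrals over a parameter of smooth functions are smooth. -/
theorem contDiff_param_integral {E F : Type} [NormedAddCommGroup E] [NormedSpace ℝ E]
    [FiniteDimensional ℝ E] [NormedAddCommGroup F] [NormedSpace ℝ F] [CompleteSpace F]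
    (f : E × ℝ → F) (hf : ContDiff ℝ ∞ f) :
    ContDiff ℝ ∞ fun x => ∫ u in (0 : ℝ)..1, f (x, u) := by
  let χ : ContDiffBump (0 : ℝ) := ⟨1, 2, one_pos, one_lt_two⟩
  let φ : ℝ → ℝ := Set.indicator (Set.Ioc (0 : ℝ) 1) fun _ => 1
  let g : E → ℝ → F := fun p u => χ u • f (p, -u)
  have hφ : LocallyIntegrable φ volume := by
    refine Integrable.locallyIntegrable ?_
    exact (integrable_indicator_iff measurableSet_Ioc).2 (integrableOn_const (by simp))
  have hg : ContDiff ℝ ∞ (Function.uncurry g) := by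
    have h1 : ContDiff ℝ ∞ fun q : E × ℝ => χ q.2 := χ.contDiff.comp contDiff_snd
    have h2 : ContDiff ℝ ∞ fun q : E × ℝ => f (q.1, -q.2) :=
      hf.comp (contDiff_fst.prodMk contDiff_snd.neg)
    exact h1.smul h2
  have key := contDiffOn_convolution_right_with_param_comp (𝕜 := ℝ) (μ := volume) (n := ⊤)
    (ContinuousLinearMap.lsmul ℝ ℝ : ℝ →L[ℝ] F →L[ℝ] F) (s := Set.univ)
    (v := fun _ : E => (0 : ℝ)) contDiffOn_const (f := φ) (g := g)
    (k := Metric.closedBall (0 : ℝ) 2) isOpen_univ (isCompact_closedBall _ _)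
    (fun p x _ hx => by
      have : χ x = 0 := χ.zero_of_le_dist (by
        simp only [Metric.mem_closedBall, not_le] at hx
        exact hx.le)
      simp only [g, this, zero_smul]) hφ hg.contDiffOn
  rw [contDiffOn_univ] at key
  convert key using 2 with x
  rw [convolution_def, intervalIntegral.integral_of_le zero_le_one,
    ← integral_indicator measurableSet_Ioc]
  refine integral_congr_ae (Eventually.of_forall fun u => ?_)
  by_cases hu : u ∈ Set.Ioc (0 : ℝ) 1
  · have h1 : χ (0 - u) = 1 := χ.one_of_mem_closedBall (by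
      simp only [Metric.mem_closedBall, dist_zero_right, Real.norm_eq_abs, zero_sub, abs_neg]
      rw [abs_of_pos hu.1]
      exact hu.2)
    simp only [φ, g, Set.indicator_of_mem hu, ContinuousLinearMap.lsmul_apply, one_smul, h1]
    simp
  · simp [φ, Set.indicator_of_notMem hu]

/-- A geometric recursion along a null sequence forces the first term to vanish. -/
theorem riesz_geom {V : Type} [NormedAddCommGroup V] [NormedSpace ℂ V] (y : ℕ → V) (μ : ℂ)
    (hμ : ‖μ‖ ≤ 1) (h : ∀ k, y k = μ • y (k + 1)) (hl : Tendsto y atTop (𝓝 0)) : y 0 = 0 := by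
  have h1 : ∀ k, ‖y 0‖ ≤ ‖y k‖ := by
    intro k
    induction k with
    | zero => exact le_rfl
    | succ k ih =>
      refine ih.trans ?_
      rw [h k, norm_smul]
      exact mul_le_of_le_one_left (norm_nonneg _) hμ
  have h2 : Tendsto (fun k => ‖y k‖) atTop (𝓝 0) := by simpa using hl.norm
  exact norm_le_zero_iff.1 (ge_of_tendsto' h2 h1)

theorem riesz_norm_le {s : ℝ} (h0 : 0 ≤ s) (h1 : s ≤ 1) {ζ : ℂ} (hζ : ‖ζ‖ = 1) :
    ‖((1 - s : ℝ) : ℂ) + (s : ℂ) * ζ‖ ≤ 1 := by
  refine (norm_add_le _ _).trans ?_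
  rw [norm_mul, hζ, Complex.norm_real, Complex.norm_real, Real.norm_of_nonneg h0,
    Real.norm_of_nonneg (by linarith)]
  linarith

/-- The algebraic part of the construction of the Riesz projection. -/
theorem riesz_alg (A : Matrix n n ℂ) (p q : ℕ → Matrix n n ℂ)
    (hp : ∀ k, Commute A (p k)) (hq : ∀ k, Commute A (q k))
    (h0 : (1 - A) * p 0 + A * q 0 = 1)
    (h1 : ∀ k, (1 - A) * p (k + 1) + A * p k = 0)
    (h2 : ∀ k, (1 - A) * q k + A * q (k + 1) = 0)
    (hlp : Tendsto p atTop (𝓝 0)) (hlq : Tendsto q atTop (𝓝 0)) :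
    A * q 0 * (A * q 0) = A * q 0 ∧ ∀ s : ℝ, 0 ≤ s → s ≤ 1 → ∀ ζ : ℂ, ‖ζ‖ = 1 →
      (((1 - s : ℝ) : ℂ) • (1 + (ζ - 1) • A) + (s : ℂ) • (1 + (ζ - 1) • (A * q 0))).det ≠ 0 := by
  have hBq : ∀ k, Commute (1 - A) (q k) := fun k => (Commute.one_left _).sub_left (hq k)
  have hBp : ∀ k, Commute (1 - A) (p k) := fun k => (Commute.one_left _).sub_left (hp k)
  have e1 : ∀ k, A * p k = -((1 - A) * p (k + 1)) := fun k =>
    eq_neg_of_add_eq_zero_right (h1 k)
  have e2 : ∀ k, (1 - A) * q k = -(A * q (k + 1)) := fun k =>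
    eq_neg_of_add_eq_zero_left (h2 k)
  have e0 : 1 - A * q 0 = (1 - A) * p 0 := (eq_sub_of_add_eq h0).symm
  have hidem : A * q 0 * (A * q 0) = A * q 0 := by
    have hk : ∀ k, A * q 0 * ((1 - A) * p 0) = A * q k * ((1 - A) * p k) := by
      intro k
      induction k with
      | zero => rfl
      | succ k ih =>
        rw [ih]
        have a1 : A * q k * ((1 - A) * p k) = ((1 - A) * q k) * (A * p k) := by
          rw [(hq k).eq, (hBq k).eq]
          noncomm_ring
        rw [a1, e1, e2, neg_mul_neg]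
    have hl : Tendsto (fun k => A * q k * ((1 - A) * p k)) atTop (𝓝 (A * 0 * ((1 - A) * 0))) :=
      (tendsto_const_nhds.mul hlq).mul (tendsto_const_nhds.mul hlp)
    have hz : A * q 0 * ((1 - A) * p 0) = 0 := by
      have := tendsto_nhds_unique (tendsto_const_nhds.congr hk) hl
      simpa using this
    rw [← e0, mul_sub, mul_one, sub_eq_zero] at hz
    exact hz.symm
  refine ⟨hidem, fun s hs0 hs1 ζ hζ hdet => ?_⟩
  obtain ⟨v, hv0, hv⟩ := Matrix.exists_mulVec_eq_zero_iff.2 hdet
  set P := A * q 0 with hP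
  have hAP : Commute A P := (Commute.refl A).mul_right (hq 0)
  set M : Matrix n n ℂ :=
    ((1 - s : ℝ) : ℂ) • (1 + (ζ - 1) • A) + (s : ℂ) • (1 + (ζ - 1) • P) with hM
  have hMP : Commute M P :=
    (((Commute.one_left P).add_left (hAP.smul_left _)).smul_left _).add_left
      (((Commute.one_left P).add_left ((Commute.refl P).smul_left _)).smul_left _)
  have hζ0 : ζ ≠ 0 := by
    rintro rfl
    simp at hζ
  have hcont : ∀ y : n → ℂ, Continuous fun X : Matrix n n ℂ => X *ᵥ y := fun y =>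
    continuous_id.matrix_mulVec continuous_const
  have hM' : ∀ w : n → ℂ, M *ᵥ w = w + ((ζ - 1) * ((1 - s : ℝ) : ℂ)) • A *ᵥ w +
      ((ζ - 1) * (s : ℂ)) • P *ᵥ w := by
    intro w
    simp only [hM, Matrix.add_mulVec, Matrix.smul_mulVec, Matrix.one_mulVec]
    push_cast
    module
  have c1 : P *ᵥ v = 0 := by
    set w := P *ᵥ v with hw
    have hPw : P *ᵥ w = w := by rw [hw, Matrix.mulVec_mulVec, hidem]
    have hMw : M *ᵥ w = 0 := by
      rw [hw, Matrix.mulVec_mulVec, hMP.eq, ← Matrix.mulVec_mulVec, hv, Matrix.mulVec_zero]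
    set μ : ℂ := ζ⁻¹ * (((1 - s : ℝ) : ℂ) + (s : ℂ) * ζ) with hμ
    have hμ1 : ‖μ‖ ≤ 1 := by
      rw [hμ, norm_mul, norm_inv, hζ, inv_one, one_mul]
      exact riesz_norm_le hs0 hs1 hζ
    have hA : A *ᵥ w = -(μ • (1 - A) *ᵥ w) := by
      rw [hM', hPw] at hMw
      have a1 : ζ • (A *ᵥ w + μ • (1 - A) *ᵥ w) = 0 := by
        rw [← hMw, Matrix.sub_mulVec, Matrix.one_mulVec, smul_add, smul_smul, hμ,
          mul_inv_cancel_left₀ hζ0]
        push_cast
        module
      exact eq_neg_of_add_eq_zero_left ((smul_eq_zero.1 a1).resolve_left hζ0)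
    have hy := riesz_geom (fun k => q k *ᵥ ((1 - A) *ᵥ w)) μ hμ1 (fun k => by
      show q k *ᵥ ((1 - A) *ᵥ w) = μ • q (k + 1) *ᵥ ((1 - A) *ᵥ w)
      rw [Matrix.mulVec_mulVec, ← (hBq k).eq, e2, (hq (k + 1)).eq, Matrix.neg_mulVec,
        ← Matrix.mulVec_mulVec, hA, Matrix.mulVec_neg, neg_neg, Matrix.mulVec_smul])
      (by simpa [Function.comp_def] using ((hcont ((1 - A) *ᵥ w)).tendsto 0).comp hlq)
    have hy' : q 0 *ᵥ ((1 - A) *ᵥ w) = 0 := hy
    rw [← hPw, hP, (hq 0).eq, ← Matrix.mulVec_mulVec, hA, Matrix.mulVec_neg, Matrix.mulVec_smul,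
      hy', smul_zero, neg_zero]
  apply hv0
  set μ : ℂ := ((1 - (1 - s) : ℝ) : ℂ) + ((1 - s : ℝ) : ℂ) * ζ with hμ
  have hμ1 : ‖μ‖ ≤ 1 := riesz_norm_le (by linarith) (by linarith) hζ
  have hB : (1 - A) *ᵥ v = -(μ • A *ᵥ v) := by
    rw [hM', c1] at hv
    refine eq_neg_of_add_eq_zero_left ?_
    rw [← hv, Matrix.sub_mulVec, Matrix.one_mulVec, hμ]
    push_cast
    module
  have hy := riesz_geom (fun k => p k *ᵥ (A *ᵥ v)) μ hμ1 (fun k => by
    show p k *ᵥ (A *ᵥ v) = μ • p (k + 1) *ᵥ (A *ᵥ v)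
    rw [Matrix.mulVec_mulVec, ← (hp k).eq, e1, (hBp (k + 1)).eq, Matrix.neg_mulVec,
      ← Matrix.mulVec_mulVec, hB, Matrix.mulVec_neg, neg_neg, Matrix.mulVec_smul])
    (by simpa [Function.comp_def] using ((hcont (A *ᵥ v)).tendsto 0).comp hlp)
  have hy' : p 0 *ᵥ (A *ᵥ v) = 0 := hy
  have a2 : (1 - P) *ᵥ v = v := by rw [Matrix.sub_mulVec, Matrix.one_mulVec, c1, sub_zero]
  rw [← a2, e0, (hBp 0).eq, ← Matrix.mulVec_mulVec, hB, Matrix.mulVec_neg, Matrix.mulVec_smul,
    hy', smul_zero, neg_zero]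

/-- The character `exp (2 π i c u)`. -/
def riesz_e (c : ℝ) (u : ℝ) : ℂ := Complex.exp (2 * Real.pi * Complex.I * ((c * u : ℝ) : ℂ))

theorem riesz_e_continuous (c : ℝ) : Continuous (riesz_e c) := by
  unfold riesz_e
  fun_prop

theorem riesz_e_add (c d u : ℝ) : riesz_e (c + d) u = riesz_e c u * riesz_e d u := by
  unfold riesz_e
  rw [← Complex.exp_add]
  congr 1
  push_cast
  ring

theorem riesz_e_zero (u : ℝ) : riesz_e 0 u = 1 := by
  simp [riesz_e]

theorem riesz_e_norm (c u : ℝ) : ‖riesz_e c u‖ = 1 := by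
  unfold riesz_e
  have : 2 * (Real.pi : ℂ) * Complex.I * ((c * u : ℝ) : ℂ) =
      ((2 * Real.pi * (c * u) : ℝ) : ℂ) * Complex.I := by
    push_cast
    ring
  rw [this, Complex.norm_exp_ofReal_mul_I]

theorem riesz_e_int (j : ℤ) (hj : j ≠ 0) : ∫ u in (0 : ℝ)..1, riesz_e j u = 0 := by
  have hc : (2 * (Real.pi : ℂ) * Complex.I * j) ≠ 0 := by
    have h1 : (Real.pi : ℂ) ≠ 0 := Complex.ofReal_ne_zero.2 Real.pi_ne_zero
    have h2 : (j : ℂ) ≠ 0 := Int.cast_ne_zero.2 hj
    simp [h1, h2, Complex.I_ne_zero]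
  have : (fun u : ℝ => riesz_e j u) =
      fun u : ℝ => Complex.exp ((2 * (Real.pi : ℂ) * Complex.I * j) * u) := by
    funext u
    unfold riesz_e
    congr 1
    push_cast
    ring
  rw [this, integral_exp_mul_complex hc]
  have h3 : Complex.exp (2 * (Real.pi : ℂ) * Complex.I * j * ((1 : ℝ) : ℂ)) = 1 := by
    rw [← Complex.exp_int_mul_two_pi_mul_I j]
    congr 1
    push_cast
    ring
  rw [h3]
  simp

theorem riesz_RL (f : ℝ → ℂ) :
    Tendsto (fun c : ℝ => ∫ u in (0 : ℝ)..1, riesz_e (-c) u * f u) (cocompact ℝ) (𝓝 0) := by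
  refine (Real.tendsto_integral_exp_smul_cocompact
    (Set.indicator (Set.Ioc (0 : ℝ) 1) f)).congr fun c => ?_
  rw [intervalIntegral.integral_of_le zero_le_one, ← integral_indicator measurableSet_Ioc]
  refine integral_congr_ae (Eventually.of_forall fun u => ?_)
  by_cases hu : u ∈ Set.Ioc (0 : ℝ) 1
  · simp only [Set.indicator_of_mem hu, Circle.smul_def, Real.fourierChar_apply, smul_eq_mul,
      riesz_e]
    congr 2
    push_cast
    ring
  · simp [Set.indicator_of_notMem hu]

/-- Fourier coefficients of a matrix valued function. -/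
def riesz_fc (R : ℝ → Matrix n n ℂ) (c : ℝ) : Matrix n n ℂ :=
  Matrix.of fun a b => ∫ u in (0 : ℝ)..1, riesz_e (-c) u * R u a b

omit [Fintype n] [DecidableEq n] in
theorem riesz_fc_tendsto (R : ℝ → Matrix n n ℂ) : Tendsto (riesz_fc R) (cocompact ℝ) (𝓝 0) :=
  tendsto_pi_nhds.2 fun a => tendsto_pi_nhds.2 fun b => riesz_RL fun u => R u a b

omit [Fintype n] [DecidableEq n] in
theorem riesz_ii {R : ℝ → Matrix n n ℂ} (hR : Continuous R) (c : ℝ) (a b : n) :
    IntervalIntegrable (fun u => riesz_e c u * R u a b) volume 0 1 :=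
  ((riesz_e_continuous c).mul (hR.matrix_elem a b)).intervalIntegrable _ _

omit [DecidableEq n] in
theorem riesz_mul_fc {R : ℝ → Matrix n n ℂ} (hR : Continuous R) (A : Matrix n n ℂ) (c : ℝ) :
    A * riesz_fc R c = riesz_fc (fun u => A * R u) c := by
  ext a b
  simp only [riesz_fc, Matrix.mul_apply, Matrix.of_apply, Finset.mul_sum]
  rw [intervalIntegral.integral_finsetSum]
  · refine Finset.sum_congr rfl fun j _ => ?_
    rw [← intervalIntegral.integral_const_mul]
    congr 1
    funext u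
    ring
  · intro j _
    exact ((riesz_e_continuous _).mul
      (continuous_const.mul (hR.matrix_elem j b))).intervalIntegrable _ _

omit [DecidableEq n] in
theorem riesz_fc_mul {R : ℝ → Matrix n n ℂ} (hR : Continuous R) (A : Matrix n n ℂ) (c : ℝ) :
    riesz_fc R c * A = riesz_fc (fun u => R u * A) c := by
  ext a b
  simp only [riesz_fc, Matrix.mul_apply, Matrix.of_apply, Finset.mul_sum]
  rw [intervalIntegral.integral_finsetSum]
  · refine Finset.sum_congr rfl fun j _ => ?_
    rw [← intervalIntegral.integral_mul_const]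
    congr 1
    funext u
    ring
  · intro j _
    exact ((riesz_e_continuous _).mul
      ((hR.matrix_elem a j).mul continuous_const)).intervalIntegrable _ _

theorem riesz_rec {R : ℝ → Matrix n n ℂ} (hR : Continuous R) (A : Matrix n n ℂ)
    (h : ∀ u, (1 + (riesz_e 1 u - 1) • A) * R u = 1) (c : ℝ) :
    (1 - A) * riesz_fc R c + A * riesz_fc R (c - 1) =
      (∫ u in (0 : ℝ)..1, riesz_e (-c) u) • (1 : Matrix n n ℂ) := by
  rw [riesz_mul_fc hR, riesz_mul_fc hR]
  ext a b
  simp only [riesz_fc, Matrix.add_apply, Matrix.of_apply, Matrix.smul_apply, smul_eq_mul]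
  rw [← intervalIntegral.integral_add (riesz_ii (continuous_const.matrix_mul hR) _ a b)
    (riesz_ii (continuous_const.matrix_mul hR) _ a b), ← intervalIntegral.integral_mul_const]
  congr 1
  funext u
  have h1 : (1 - A) * R u + riesz_e 1 u • (A * R u) = 1 := by
    refine Eq.trans ?_ (h u)
    rw [← Matrix.smul_mul, ← Matrix.add_mul]
    congr 1
    module
  have h2 : riesz_e (-(c - 1)) u = riesz_e (-c) u * riesz_e 1 u := by
    rw [← riesz_e_add]
    congr 1
    ring
  have h3 := congrFun (congrFun h1 a) b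
  simp only [Matrix.add_apply, Matrix.smul_apply, smul_eq_mul] at h3
  rw [h2, ← h3]
  ring

/-- The resolvent along the unit circle. -/
def riesz_R (A : Matrix n n ℂ) (u : ℝ) : Matrix n n ℂ := (1 + (riesz_e 1 u - 1) • A)⁻¹

/-- The Riesz projection of a single matrix. -/
theorem riesz_pt (A : Matrix n n ℂ) (hd : ∀ u, (1 + (riesz_e 1 u - 1) • A).det ≠ 0)
    (hR : Continuous (riesz_R A)) :
    A * riesz_fc (riesz_R A) (-1) * (A * riesz_fc (riesz_R A) (-1)) =
      A * riesz_fc (riesz_R A) (-1) ∧ ∀ s : ℝ, 0 ≤ s → s ≤ 1 → ∀ ζ : ℂ, ‖ζ‖ = 1 →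
      (((1 - s : ℝ) : ℂ) • (1 + (ζ - 1) • A) +
        (s : ℂ) • (1 + (ζ - 1) • (A * riesz_fc (riesz_R A) (-1)))).det ≠ 0 := by
  have h1 : ∀ u, (1 + (riesz_e 1 u - 1) • A) * riesz_R A u = 1 := fun u =>
    Matrix.mul_nonsing_inv _ (Ne.isUnit (hd u))
  have h2 : ∀ u, riesz_R A u * (1 + (riesz_e 1 u - 1) • A) = 1 := fun u =>
    Matrix.nonsing_inv_mul _ (Ne.isUnit (hd u))
  have hc : ∀ u, A * riesz_R A u = riesz_R A u * A := by
    intro u
    have h3 : A * (1 + (riesz_e 1 u - 1) • A) = (1 + (riesz_e 1 u - 1) • A) * A :=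
      ((Commute.one_right A).add_right ((Commute.refl A).smul_right _)).eq
    calc A * riesz_R A u
        = (riesz_R A u * (1 + (riesz_e 1 u - 1) • A)) * A * riesz_R A u := by rw [h2, one_mul]
      _ = riesz_R A u * A * ((1 + (riesz_e 1 u - 1) • A) * riesz_R A u) := by
          rw [mul_assoc (riesz_R A u), ← h3]
          simp only [mul_assoc]
      _ = riesz_R A u * A := by rw [h1, mul_one]
  have hcf : ∀ c, Commute A (riesz_fc (riesz_R A) c) := by
    intro c
    show A * _ = _ * A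
    rw [riesz_mul_fc hR, riesz_fc_mul hR]
    simp only [hc]
  have hrec := riesz_rec hR A h1
  have hrec' : ∀ j : ℤ, j ≠ 0 →
      (1 - A) * riesz_fc (riesz_R A) j + A * riesz_fc (riesz_R A) (j - 1) = 0 := by
    intro j hj
    have h4 := riesz_e_int (-j) (neg_ne_zero.2 hj)
    rw [Int.cast_neg] at h4
    rw [hrec, h4, zero_smul]
  have key := riesz_alg A (fun k => riesz_fc (riesz_R A) k)
    (fun k => riesz_fc (riesz_R A) (-1 - k)) (fun _ => hcf _) (fun _ => hcf _)
    (by
      have h5 := hrec 0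
      simp only [neg_zero, riesz_e_zero, intervalIntegral.integral_const, sub_zero, one_smul,
        zero_sub] at h5
      simpa using h5)
    (fun k => by
      have h5 := hrec' (k + 1) (by omega)
      push_cast at h5 ⊢
      rwa [add_sub_cancel_right] at h5)
    (fun k => by
      have h5 := hrec' (-1 - k) (by omega)
      push_cast at h5 ⊢
      rwa [sub_sub (-1 : ℝ)] at h5)
    ((riesz_fc_tendsto _).comp (tendsto_natCast_atTop_atTop.mono_right atTop_le_cocompact))
    ((riesz_fc_tendsto _).comp ((tendsto_atBot_add_const_left atTop (-1 : ℝ)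
      (tendsto_neg_atTop_atBot.comp tendsto_natCast_atTop_atTop)).mono_right atBot_le_cocompact))
  simpa only [Nat.cast_zero, sub_zero] using key

theorem riesz_ev_pencil (z : ι) (e : MS n ι) (x : ι → ℝ) :
    ev (pencil z e) x = 1 + (riesz_e 1 (x z) - 1) • ev e x := by
  unfold pencil
  rw [ev_add, ev_one, ev_smul]
  congr 2
  show (zeta z).1 x - 1 = _
  simp [zeta, xc, riesz_e]

/-- The Riesz projection of an invertible linear pencil. -/
theorem riesz (hz : z ∉ l) {α : MS n ι} (ht : TorM [] l α) (hi : Inv (pencil z α)) :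
    ∃ P : MS n ι, TorM [] l P ∧ P * P = P ∧ Seg (pencil z α) (pencil z P) := by
  have hu : ContDiff ℝ ∞ fun q : (ι → ℝ) × ℝ => Function.update q.1 z q.2 := by
    refine contDiff_pi.2 fun j => ?_
    by_cases h : j = z
    · subst h
      simpa using contDiff_snd
    · simpa [Function.update_of_ne h, Function.comp_def] using
        (contDiff_apply ℝ ℝ j).comp contDiff_fst
  have hα : ∀ x u, ev α (Function.update x z u) = ev α x := by
    intro x u
    rw [← ev_fSM, ht.fSM_not_mem (by simp) hz]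
  have hpen : ∀ x u, ev (pencil z α) (Function.update x z u) =
      1 + (riesz_e 1 u - 1) • ev α x := by
    intro x u
    rw [riesz_ev_pencil, hα, Function.update_self]
  have hinv : ∀ x u, ev (pencil z α)⁻¹ (Function.update x z u) = riesz_R (ev α x) u := by
    intro x u
    rw [hi.ev_inv, hpen]
    rfl
  have he : ContDiff ℝ ∞ fun q : (ι → ℝ) × ℝ => riesz_e (-(-1)) q.2 := by
    unfold riesz_e
    refine (Complex.contDiff_exp (𝕜 := ℝ)).comp (contDiff_const.mul ?_)
    exact Complex.ofRealCLM.contDiff.comp (contDiff_const.mul contDiff_snd)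
  let r : MS n ι := Matrix.of fun a b => Sm.mk
    (fun x => ∫ u in (0 : ℝ)..1,
      riesz_e (-(-1)) u * ((pencil z α)⁻¹ a b).1 (Function.update x z u))
    (contDiff_param_integral (fun q : (ι → ℝ) × ℝ =>
      riesz_e (-(-1)) q.2 * ((pencil z α)⁻¹ a b).1 (Function.update q.1 z q.2))
      (he.mul ((Sm.smooth _).comp hu)))
  have hr : ∀ x, ev r x = riesz_fc (riesz_R (ev α x)) (-1) := by
    intro x
    ext a b
    show (∫ u in (0 : ℝ)..1,
      riesz_e (-(-1)) u * ev (pencil z α)⁻¹ (Function.update x z u) a b) = _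
    simp only [hinv]
    rfl
  have hP : ∀ x, ev (α * r) x = ev α x * riesz_fc (riesz_R (ev α x)) (-1) := fun x => by
    rw [ev_mul, hr]
  have hpt := fun x => riesz_pt (ev α x) (fun u => by
      rw [← hpen]
      exact hi _) (by
      have : riesz_R (ev α x) = fun u => ev (pencil z α)⁻¹ (Function.update x z u) :=
        funext fun u => (hinv x u).symm
      rw [this]
      exact (continuous_ev _).comp (hu.continuous.comp (Continuous.prodMk_right x)))
  refine ⟨α * r, torM_iff.2 fun x y h1 h2 => ?_, ev_ext fun x => ?_, fun c h0 h1 x => ?_⟩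
  · rw [hP, hP, torM_iff.1 ht x y h1 h2]
  · rw [ev_mul, hP]
    exact (hpt x).1
  · rw [riesz_ev_pencil, riesz_ev_pencil, hP]
    exact (hpt x).2 c h0 h1 _ (riesz_e_norm _ _)

end Pool.Agent.Lib.MP_b7c8b0_gt
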