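import Pool.Agent.Lib.MP_b7c8b0_gt.Pencil
import Pool.Agent.Lib.MP_b7c8b0_gt.Clutch
import Pool.Agent.Lib.MP_b7c8b0_gt.Riesz
import Pool.Agent.Lib.MP_b7c8b0_gt.Approx

open scoped ContDiff Topology ComplexConjugate
open Filter MeasureTheory Matrix

noncomputable section

namespace Pool.Agent.Lib.MP_b7c8b0_gt

variable {ι : Type} [Fintype ι] [DecidableEq ι]

/-- Integrality of even Chern character numbers on the torus of the variables `l`. -/
def EvenInt (m : ℕ) (l : List ι) : Prop :=
  ∀ (n : Type) [Fintype n] [DecidableEq n] (e : MS n ι), e * e = e → TorM [] l e →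
    Lat m (JJ m l e)

/-- Integrality of odd Chern character numbers on the torus of the variables `l`. -/
def OddInt (m : ℕ) (t : ι) (l : List ι) : Prop :=
  ∀ (n : Type) [Fintype n] [DecidableEq n] (g : MS n ι), Inv g → TorM [] l g →
    Lat m (Ch m t l g)

theorem bott_lat_add {m : ℕ} {a b : ℂ} (ha : Lat m a) (hb : Lat m b) : Lat m (a + b) := by
  obtain ⟨d, rfl⟩ := ha
  obtain ⟨e, rfl⟩ := hb
  exact ⟨d + e, by push_cast; ring⟩

theorem bott_lat_cancel {m : ℕ} {a b : ℂ} (ha : Lat m a) (hb : Lat m (a + b)) : Lat m b := by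
  obtain ⟨d, hd⟩ := ha
  obtain ⟨e, he⟩ := hb
  refine ⟨e - d, ?_⟩
  push_cast
  rw [mul_sub, ← he, ← hd]; ring

theorem bott_lat_succ {m : ℕ} {a : ℂ} (ha : Lat m a) :
    Lat (m + 1) ((m + 1 : ℕ) * (2 * Real.pi * Complex.I) * a) := by
  obtain ⟨d, rfl⟩ := ha
  exact ⟨d, by rw [Nat.factorial_succ]; push_cast; ring⟩

theorem bott_trace_idem {n : Type} [Fintype n] [DecidableEq n] (e : Matrix n n ℂ)
    (he : e * e = e) : ∃ k : ℕ, trace e = k := by
  have h : IsIdempotentElem (Matrix.toLin' e) := by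
    show Matrix.toLin' e * Matrix.toLin' e = Matrix.toLin' e
    rw [Module.End.mul_eq_comp, ← Matrix.toLin'_mul, he]
  refine ⟨Module.finrank ℂ (LinearMap.range (Matrix.toLin' e)), ?_⟩
  rw [← Matrix.trace_toLin'_eq]
  exact (LinearMap.IsIdempotentElem.isProj_range _ h).trace

theorem evenInt_zero : EvenInt 0 ([] : List ι) := by
  intro n _ _ e he ht
  obtain ⟨k, hk⟩ := bott_trace_idem (ev e 0) (by rw [← ev_mul, he])
  refine ⟨k, ?_⟩
  have h1 : trace (fnM e) = fn (trace e) := by
    simp only [trace, diag, fnM_apply, map_sum]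
  have h2 : ∀ x, (trace e).1 x = (k : ℂ) := by
    intro x
    rw [← hk, torM_iff.1 ht 0 x (by simp) (by simp)]
    simp only [trace, diag, ev_apply]
    rw [AddSubmonoidClass.coe_finsetSum, Finset.sum_apply]
  simp only [JJ, mul_zero, pow_zero, mul_one, h1]
  rw [itg_nil_const _ _ h2]
  simp

section
variable {n : Type} [Fintype n] [DecidableEq n] {m : ℕ} {t s z : ι} {l : List ι}

omit [DecidableEq ι] [Fintype n] [DecidableEq n] in
theorem bott_tor_blocks {P l : List ι} {A B C D : MS n ι} (hA : TorM P l A) (hB : TorM P l B)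
    (hC : TorM P l C) (hD : TorM P l D) : TorM P l (fromBlocks A B C D) := by
  rintro (a | a) (b | b)
  exacts [hA a b, hB a b, hC a b, hD a b]

omit [DecidableEq ι] [Fintype n] [DecidableEq n] in
theorem bott_ev_blocks (A B C D : MS n ι) (x : ι → ℝ) :
    ev (fromBlocks A B C D) x = fromBlocks (ev A x) (ev B x) (ev C x) (ev D x) := by
  ext (a | a) (b | b) <;> rfl

theorem bott_seg_up (X : MS n ι) : Seg (1 : MS (n ⊕ n) ι) (fromBlocks 1 X 0 1) := by
  intro r _ _ x
  have : ((1 - r : ℝ) : ℂ) • ev (1 : MS (n ⊕ n) ι) x + ((r : ℝ) : ℂ) • ev (fromBlocks 1 X 0 1) x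
      = fromBlocks 1 ((r : ℂ) • ev X x) 0 1 := by
    rw [bott_ev_blocks, ev_one, ev_one, ev_zero, ← fromBlocks_one, fromBlocks_smul,
      fromBlocks_smul, fromBlocks_add, ← add_smul]
    simp
  rw [this, det_fromBlocks_zero₂₁]
  simp

theorem bott_seg_lo (X : MS n ι) : Seg (1 : MS (n ⊕ n) ι) (fromBlocks 1 0 X 1) := by
  intro r _ _ x
  have : ((1 - r : ℝ) : ℂ) • ev (1 : MS (n ⊕ n) ι) x + ((r : ℝ) : ℂ) • ev (fromBlocks 1 0 X 1) x
      = fromBlocks 1 0 ((r : ℂ) • ev X x) 1 := by
    rw [bott_ev_blocks, ev_one, ev_one, ev_zero, ← fromBlocks_one, fromBlocks_smul,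
      fromBlocks_smul, fromBlocks_add, ← add_smul]
    simp
  rw [this, det_fromBlocks_zero₁₂]
  simp

theorem bott_inv_diag {p : MS n ι} (hp : Inv p) : Inv (fromBlocks p 0 0 (1 : MS n ι)) := by
  intro x
  rw [bott_ev_blocks, ev_zero, ev_one, det_fromBlocks_zero₂₁]
  simpa using hp x

theorem bott_tor_cons {g : MS n ι} (h : TorM [] l g) : TorM [] (z :: l) g :=
  h.mono (fun _ hi => hi) (fun _ hi => Or.inr (List.mem_cons_of_mem _ hi))

theorem bott_tor_zeta : Tor [] (z :: l) (zeta z) := Tor.zeta List.mem_cons_self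

theorem bott_good_idem (hN : (t :: s :: z :: l).Nodup) (h : EvenInt m l) {e : MS n ι}
    (he : e * e = e) (ht : TorM [] l e) :
    Lat (m + 1) (Ch (m + 1) t (z :: l) (pencil z e)) := by
  rw [Ch_pencil m hN he ht]
  exact bott_lat_succ (h n e he ht)

theorem bott_good_pencil (hN : (t :: s :: z :: l).Nodup) (h : EvenInt m l) {a : MS n ι}
    (ht : TorM [] l a) (hi : Inv (pencil z a)) :
    Lat (m + 1) (Ch (m + 1) t (z :: l) (pencil z a)) := by
  have hz : z ∉ l := by
    simp only [List.nodup_cons] at hN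
    exact hN.2.2.1
  obtain ⟨P, tP, hP, hS⟩ := riesz hz ht hi
  rw [Ch_seg (m + 1) hN hS ht.pencil tP.pencil]
  exact bott_good_idem hN h hP tP

theorem bott_good_lin (hN : (t :: s :: z :: l).Nodup) (h : EvenInt m l) {a b : MS n ι}
    (ta : TorM [] l a) (tb : TorM [] l b) (hi : Inv (a + zeta z • b)) :
    Lat (m + 1) (Ch (m + 1) t (z :: l) (a + zeta z • b)) := by
  have hz : z ∉ l := by
    simp only [List.nodup_cons] at hN
    exact hN.2.2.1
  have htz : t ≠ z := by
    simp only [List.nodup_cons, List.mem_cons, not_or] at hN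
    exact hN.1.2.1
  have hc : Inv (a + b) := by
    have := hi.fSM z 0
    rwa [map_add, fSM_smul, fS_zeta_zero, one_smul, ta.fSM_not_mem (by simp) hz,
      tb.fSM_not_mem (by simp) hz] at this
  have tc : TorM [] l (a + b) := ta.add tb
  have tα : TorM [] l ((a + b)⁻¹ * b) := (tc.inv hc).mul tb
  have e1 : a + zeta z • b = (a + b) * pencil z ((a + b)⁻¹ * b) := by
    have e0 : (zeta z - 1) • b = zeta z • b - b := by
      have := sub_smul (zeta z) 1 b
      rwa [one_smul] at this
    rw [pencil, mul_add, mul_one, Matrix.mul_smul, ← mul_assoc, hc.mul_inv, one_mul, e0]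
    abel
  have hp : Inv (pencil z ((a + b)⁻¹ * b)) := by
    have := hc.inv.mul hi
    rwa [e1, ← mul_assoc, hc.inv_mul, one_mul] at this
  rw [e1, Ch_mul (m + 1) hN hc hp (bott_tor_cons tc) tα.pencil,
    Ch_ind (m + 1) List.mem_cons_self htz hc (tc.fSM_not_mem (by simp) hz 0), zero_add]
  exact bott_good_pencil hN h tα hp

theorem bott_tor_poly {r : ℕ} {a : ℕ → MS n ι} (ha : ∀ j, TorM [] l (a j)) :
    TorM [] (z :: l) (∑ j ∈ Finset.range r, zeta z ^ j • a j) :=
  TorM.sum _ _ fun j _ => (bott_tor_cons (ha j)).smul (bott_tor_zeta.pow j)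

/-- The coefficients of the linearised matrix polynomial. -/
def bottB (r : ℕ) (a : ℕ → MS n ι) (j : ℕ) : MS (n ⊕ n) ι :=
  fromBlocks (a j) (if j = r + 1 then a (r + 2) else 0) (if j = 1 then -1 else 0)
    (if j = 0 then 1 else 0)

omit [DecidableEq ι] [Fintype n] [DecidableEq n] in
theorem bott_sum_blocks (k : ℕ) (A B C D : ℕ → MS n ι) :
    ∑ j ∈ Finset.range k, fromBlocks (A j) (B j) (C j) (D j) =
      fromBlocks (∑ j ∈ Finset.range k, A j) (∑ j ∈ Finset.range k, B j)
        (∑ j ∈ Finset.range k, C j) (∑ j ∈ Finset.range k, D j) := by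
  induction k with
  | zero => simp
  | succ k ih => simp only [Finset.sum_range_succ, ih, fromBlocks_add]

omit [DecidableEq ι] in
theorem bott_fact (z : ι) (r : ℕ) (a : ℕ → MS n ι) :
    ∑ j ∈ Finset.range (r + 2), zeta z ^ j • bottB r a j =
      fromBlocks 1 (zeta z ^ (r + 1) • a (r + 2)) 0 1 *
        (fromBlocks (∑ j ∈ Finset.range (r + 3), zeta z ^ j • a j) 0 0 1 *
          fromBlocks 1 0 (-(zeta z • 1)) 1) := by
  simp only [bottB, fromBlocks_smul, bott_sum_blocks, fromBlocks_multiply, smul_ite, smul_zero,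
    Finset.sum_ite_eq', Finset.mem_range]
  rw [if_pos (by omega), if_pos (by omega), if_pos (by omega), Finset.sum_range_succ _ (r + 2)]
  congr 1
  · simp only [Matrix.mul_one, Matrix.one_mul, Matrix.zero_mul, Matrix.mul_zero, add_zero,
      zero_add, Matrix.mul_neg, Matrix.mul_smul, smul_smul, pow_succ' (zeta z) (r + 1), smul_zero,
      neg_zero]
    abel
  · simp
  · simp
  · simp

theorem bott_good_poly (hN : (t :: s :: z :: l).Nodup) (h : EvenInt m l) (r : ℕ) :
    ∀ (n : Type) [Fintype n] [DecidableEq n] (a : ℕ → MS n ι), (∀ j, TorM [] l (a j)) →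
      Inv (∑ j ∈ Finset.range (r + 2), zeta z ^ j • a j) →
      Lat (m + 1) (Ch (m + 1) t (z :: l) (∑ j ∈ Finset.range (r + 2), zeta z ^ j • a j)) := by
  induction r with
  | zero =>
    intro n _ _ a ha hi
    simp only [zero_add, Finset.sum_range_succ, Finset.sum_range_zero, pow_zero, pow_one,
      one_smul] at hi ⊢
    exact bott_good_lin hN h (ha 0) (ha 1) hi
  | succ r ih =>
    intro n _ _ a ha hi
    have tb : ∀ j, TorM [] l (bottB r a j) := by
      intro j
      refine bott_tor_blocks (ha j) ?_ ?_ ?_ <;> split_ifs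
      exacts [ha _, TorM.zero, TorM.one.neg, TorM.zero, TorM.one, TorM.zero]
    have hU := bott_seg_up (zeta z ^ (r + 1) • a (r + 2))
    have hL := bott_seg_lo (-(zeta z • (1 : MS n ι)))
    have hD := bott_inv_diag hi
    have tU : TorM [] (z :: l) (fromBlocks 1 (zeta z ^ (r + 1) • a (r + 2)) 0 (1 : MS n ι)) :=
      bott_tor_blocks TorM.one ((bott_tor_cons (ha _)).smul (bott_tor_zeta.pow _)) TorM.zero
        TorM.one
    have tL : TorM [] (z :: l) (fromBlocks 1 0 (-(zeta z • (1 : MS n ι))) (1 : MS n ι)) :=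
      bott_tor_blocks TorM.one TorM.zero (TorM.one.smul bott_tor_zeta).neg TorM.one
    have tD : TorM [] (z :: l) (fromBlocks (∑ j ∈ Finset.range (r + 3), zeta z ^ j • a j) 0 0
        (1 : MS n ι)) := bott_tor_blocks (bott_tor_poly ha) TorM.zero TorM.zero TorM.one
    have key := ih (n ⊕ n) (bottB r a) tb (by
      rw [bott_fact]; exact hU.right.mul (hD.mul hL.right))
    rw [bott_fact, Ch_mul _ hN hU.right (hD.mul hL.right) tU (tD.mul tL),
      Ch_mul _ hN hD hL.right tD tL, ← Ch_seg _ hN hU TorM.one tU, ← Ch_seg _ hN hL TorM.one tL,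
      Ch_one, zero_add, add_zero, Ch_block _ hi] at key
    exact key

theorem bott_good_poly' (hN : (t :: s :: z :: l).Nodup) (h : EvenInt m l) (r : ℕ)
    (a : ℕ → MS n ι) (ha : ∀ j, TorM [] l (a j))
    (hi : Inv (∑ j ∈ Finset.range r, zeta z ^ j • a j)) :
    Lat (m + 1) (Ch (m + 1) t (z :: l) (∑ j ∈ Finset.range r, zeta z ^ j • a j)) := by
  have e : ∑ j ∈ Finset.range r, zeta z ^ j • a j =
      ∑ j ∈ Finset.range (r + 2), zeta z ^ j • (if j < r then a j else 0) := by
    rw [Finset.sum_range_succ, Finset.sum_range_succ, if_neg (by omega), if_neg (by omega),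
      smul_zero, smul_zero, add_zero, add_zero]
    exact Finset.sum_congr rfl fun j hj => by rw [if_pos (Finset.mem_range.1 hj)]
  rw [e] at hi ⊢
  refine bott_good_poly hN h r n _ (fun j => ?_) hi
  split_ifs
  exacts [ha j, TorM.zero]

omit [DecidableEq ι] in
theorem bott_zeta_mul (z : ι) (g : MS n ι) : pencil z 1 * g = zeta z • g := by
  have e0 : (zeta z - 1) • g = zeta z • g - g := by
    have := sub_smul (zeta z) 1 g
    rwa [one_smul] at this
  rw [pencil, add_mul, one_mul, Matrix.smul_mul, one_mul, e0]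
  abel

theorem bott_good_shift (hN : (t :: s :: z :: l).Nodup) (h : EvenInt m l) {g : MS n ι}
    (hg : Inv g) (ht : TorM [] (z :: l) g) (M : ℕ) :
    Inv (zeta z ^ M • g) ∧ (Lat (m + 1) (Ch (m + 1) t (z :: l) (zeta z ^ M • g)) →
      Lat (m + 1) (Ch (m + 1) t (z :: l) g)) := by
  induction M with
  | zero => rw [pow_zero, one_smul]; exact ⟨hg, id⟩
  | succ M ih =>
    have h1 : Inv (pencil z (1 : MS n ι)) := pencil_inv (one_mul _) z
    rw [pow_succ', mul_smul, ← bott_zeta_mul]
    refine ⟨h1.mul ih.1, fun H => ih.2 ?_⟩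
    rw [Ch_mul _ hN h1 ih.1 TorM.one.pencil (ht.smul (bott_tor_zeta.pow M))] at H
    exact bott_lat_cancel (bott_good_idem hN h (one_mul _) TorM.one) H

end

theorem oddInt_succ {m : ℕ} {t s z : ι} {l : List ι} (hN : (t :: s :: z :: l).Nodup)
    (h : EvenInt m l) : OddInt (m + 1) t (z :: l) := by
  intro n _ _ g hg ht
  have hz : z ∉ l := by
    simp only [List.nodup_cons] at hN
    exact hN.2.2.1
  obtain ⟨M, r, a, ha, hS⟩ := approx hz ht hg
  refine (bott_good_shift hN h hg ht M).2 ?_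
  rw [Ch_seg _ hN hS (ht.smul (bott_tor_zeta.pow M)) (bott_tor_poly ha)]
  exact bott_good_poly' hN h r a ha hS.right

theorem evenInt_succ {m : ℕ} {t s z : ι} {l : List ι} (hN : (t :: s :: z :: l).Nodup)
    (h : OddInt m t l) : EvenInt m (z :: l) := by
  intro n _ _ e he ht
  obtain ⟨v, hv, tv, hJ⟩ := clutch m hN he ht
  rw [hJ]
  exact h n v hv tv

theorem bott_evenInt (m : ℕ) {t s : ι} : ∀ {l : List ι}, (t :: s :: l).Nodup →
    l.length = 2 * m → EvenInt m l := by
  induction m with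
  | zero =>
    intro l _ hl
    rw [List.length_eq_zero_iff.1 hl]
    exact evenInt_zero
  | succ m ih =>
    intro l hN hl
    match l, hN, hl with
    | z' :: z :: l, hN, hl =>
      have h1 : (t :: s :: z :: l).Nodup :=
        hN.sublist ((List.sublist_cons_self z' (z :: l)).cons_cons s |>.cons_cons t)
      have h2 : (t :: s :: l).Nodup :=
        h1.sublist ((List.sublist_cons_self z l).cons_cons s |>.cons_cons t)
      exact evenInt_succ hN (oddInt_succ h1 (ih h2 (by simp at hl; omega)))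

/-- Bott integrality on tori. -/
theorem oddInt (m : ℕ) {t s : ι} {l : List ι} (hN : (t :: s :: l).Nodup)
    (hl : l.length = 2 * m + 1) : OddInt (m + 1) t l := by
  match l, hN, hl with
  | z :: l, hN, hl =>
    have h2 : (t :: s :: l).Nodup :=
      hN.sublist ((List.sublist_cons_self z l).cons_cons s |>.cons_cons t)
    exact oddInt_succ hN (bott_evenInt m h2 (by simpa using hl))

end Pool.Agent.Lib.MP_b7c8b0_gt
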