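import Pool.Agent.Lib.MP_b7c8b0_gt.FDefs

open scoped ContDiff Topology ComplexConjugate
open Filter MeasureTheory Matrix

noncomputable section

namespace Pool.Agent.Lib.MP_b7c8b0_gt

/-- A good neighbourhood of a regular point: the map is injective and open on it and the
Jacobian determinant has constant sign. -/
theorem degInt_local {κ : Type} [Fintype κ] [DecidableEq κ]
    (Θ : (κ → ℝ) → (κ → ℝ)) (hΘ : ContDiff ℝ 1 Θ) (p : κ → ℝ) (hp : (fderiv ℝ Θ p).det ≠ 0) :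
    ∃ N : Set (κ → ℝ), IsOpen N ∧ p ∈ N ∧ Set.InjOn Θ N ∧
      (∀ U, U ⊆ N → IsOpen U → IsOpen (Θ '' U)) ∧
      ∃ s : ℤ, (s = 1 ∨ s = -1) ∧ ∀ x ∈ N, (fderiv ℝ Θ x).det = s * |(fderiv ℝ Θ x).det| := by
  have hd : HasFDerivAt Θ
      (((fderiv ℝ Θ p).toContinuousLinearEquivOfDetNeZero hp : (κ → ℝ) ≃L[ℝ] (κ → ℝ)) :
        (κ → ℝ) →L[ℝ] (κ → ℝ)) p := by
    rw [ContinuousLinearMap.coe_toContinuousLinearEquivOfDetNeZero]
    exact (hΘ.differentiable one_ne_zero p).hasFDerivAt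
  let e := hΘ.contDiffAt.toOpenPartialHomeomorph Θ hd one_ne_zero
  have he : (e : (κ → ℝ) → (κ → ℝ)) = Θ := ContDiffAt.toOpenPartialHomeomorph_coe _ _ _
  have hps : p ∈ e.source := ContDiffAt.mem_toOpenPartialHomeomorph_source _ _ _
  have hc : Continuous fun x => (fderiv ℝ Θ x).det :=
    ContinuousLinearMap.continuous_det.comp (hΘ.continuous_fderiv one_ne_zero)
  have hinj : Set.InjOn Θ e.source := by
    rw [← he]; exact e.injOn
  have hop : ∀ U, U ⊆ e.source → IsOpen U → IsOpen (Θ '' U) := by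
    intro U hU hUo
    rw [← he]
    exact e.isOpen_image_of_subset_source hUo hU
  rcases lt_or_gt_of_ne hp with h | h
  · refine ⟨e.source ∩ {x | (fderiv ℝ Θ x).det < 0}, e.open_source.inter
      (isOpen_lt hc continuous_const), ⟨hps, h⟩, hinj.mono Set.inter_subset_left,
      fun U hU hUo => hop U (hU.trans Set.inter_subset_left) hUo, -1, Or.inr rfl, ?_⟩
    intro x hx
    have hx' : (fderiv ℝ Θ x).det < 0 := hx.2
    rw [abs_of_neg hx']
    simp
  · refine ⟨e.source ∩ {x | 0 < (fderiv ℝ Θ x).det}, e.open_source.inter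
      (isOpen_lt continuous_const hc), ⟨hps, h⟩, hinj.mono Set.inter_subset_left,
      fun U hU hUo => hop U (hU.trans Set.inter_subset_left) hUo, 1, Or.inl rfl, ?_⟩
    intro x hx
    have hx' : 0 < (fderiv ℝ Θ x).det := hx.2
    rw [abs_of_pos hx']
    simp

/-- Local degree formula for a map of a box with regular interior zeros. -/
theorem deg_int {κ : Type} [Fintype κ] [DecidableEq κ] (a b : κ → ℝ)
    (Θ : (κ → ℝ) → (κ → ℝ)) (hΘ : ContDiff ℝ 1 Θ)
    (hZ : ∀ x ∈ Set.Icc a b, Θ x = 0 → (∀ i, a i < x i ∧ x i < b i) ∧ (fderiv ℝ Θ x).det ≠ 0) :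
    {x | x ∈ Set.Icc a b ∧ Θ x = 0}.Finite ∧ ∃ ε : ℝ, 0 < ε ∧ ∃ d : ℤ,
      d ≡ ({x | x ∈ Set.Icc a b ∧ Θ x = 0}.ncard : ℤ) [ZMOD 2] ∧
      ∀ φ : (κ → ℝ) → ℝ, Continuous φ → (∀ w, ε ≤ ‖w‖ → φ w = 0) →
        ∫ x in Set.Icc a b, φ (Θ x) * (fderiv ℝ Θ x).det = d * ∫ w, φ w := by
  classical
  set Z : Set (κ → ℝ) := {x | x ∈ Set.Icc a b ∧ Θ x = 0} with hZdef
  have hloc : ∀ p : κ → ℝ, ∃ N : Set (κ → ℝ), ∃ s : ℤ, p ∈ Z → IsOpen N ∧ p ∈ N ∧
      Set.InjOn Θ N ∧ (∀ U, U ⊆ N → IsOpen U → IsOpen (Θ '' U)) ∧ (s = 1 ∨ s = -1) ∧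
      ∀ x ∈ N, (fderiv ℝ Θ x).det = s * |(fderiv ℝ Θ x).det| := by
    intro p
    by_cases hp : p ∈ Z
    · obtain ⟨N, h1, h2, h3, h4, s, h5, h6⟩ := degInt_local Θ hΘ p (hZ p hp.1 hp.2).2
      exact ⟨N, s, fun _ => ⟨h1, h2, h3, h4, h5, h6⟩⟩
    · exact ⟨∅, 1, fun h => absurd h hp⟩
  choose N s hN using hloc
  have hK : IsCompact (Set.Icc a b) := isCompact_Icc
  have hZc : IsCompact Z := by
    have : Z = Set.Icc a b ∩ Θ ⁻¹' {0} := rfl
    rw [this]
    exact hK.inter_right (isClosed_singleton.preimage hΘ.continuous)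
  have hfin : Z.Finite := by
    obtain ⟨t, ht, hcov⟩ := hZc.elim_nhds_subcover N
      (fun p hp => (hN p hp).1.mem_nhds (hN p hp).2.1)
    refine t.finite_toSet.subset ?_
    intro x hx
    obtain ⟨p, hp, hxp⟩ := Set.mem_iUnion₂.1 (hcov hx)
    have hpZ := ht p hp
    have : x = p := (hN p hpZ).2.2.1 hxp (hN p hpZ).2.1 (by rw [hx.2, hpZ.2])
    rw [this]
    exact hp
  refine ⟨hfin, ?_⟩
  obtain ⟨T, hT, hTd⟩ := hfin.t2_separation
  let B : Set (κ → ℝ) := {x | ∀ i, a i < x i ∧ x i < b i}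
  have hBo : IsOpen B := by
    have : B = ⋂ i, ({x : κ → ℝ | a i < x i} ∩ {x : κ → ℝ | x i < b i}) := by
      ext x
      simp [B]
    rw [this]
    exact isOpen_iInter_of_finite fun i =>
      (isOpen_lt continuous_const (continuous_apply i)).inter
        (isOpen_lt (continuous_apply i) continuous_const)
  have hBK : B ⊆ Set.Icc a b := fun x hx => ⟨fun i => (hx i).1.le, fun i => (hx i).2.le⟩
  let U : (κ → ℝ) → Set (κ → ℝ) := fun p => N p ∩ T p ∩ B
  have hUo : ∀ p ∈ Z, IsOpen (U p) := fun p hp => ((hN p hp).1.inter (hT p).2).inter hBo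
  have hUp : ∀ p ∈ Z, p ∈ U p := fun p hp => ⟨⟨(hN p hp).2.1, (hT p).1⟩, (hZ p hp.1 hp.2).1⟩
  have hUN : ∀ p, U p ⊆ N p := fun p x hx => hx.1.1
  have hUK : ∀ p, U p ⊆ Set.Icc a b := fun p x hx => hBK hx.2
  let t : Finset (κ → ℝ) := hfin.toFinset
  have ht : ∀ p, p ∈ t ↔ p ∈ Z := fun p => hfin.mem_toFinset
  let W : Set (κ → ℝ) := ⋃ p ∈ t, U p
  have hWo : IsOpen W := isOpen_biUnion fun p hp => hUo p ((ht p).1 hp)
  have hC : IsCompact (Θ '' (Set.Icc a b \ W)) := (hK.diff hWo).image hΘ.continuous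
  have h0 : (Θ '' (Set.Icc a b \ W))ᶜ ∈ 𝓝 (0 : κ → ℝ) := by
    refine hC.isClosed.isOpen_compl.mem_nhds ?_
    rintro ⟨x, hx, hx0⟩
    have hxZ : x ∈ Z := ⟨hx.1, hx0⟩
    exact hx.2 (Set.mem_biUnion ((ht x).2 hxZ) (hUp x hxZ))
  have h1 : (⋂ p ∈ t, Θ '' U p) ∈ 𝓝 (0 : κ → ℝ) := by
    refine (Filter.biInter_finset_mem t).2 fun p hp => ?_
    have hpZ := (ht p).1 hp
    exact ((hN p hpZ).2.2.2.1 _ (hUN p) (hUo p hpZ)).mem_nhds ⟨p, hUp p hpZ, hpZ.2⟩
  obtain ⟨ε, hε, hball⟩ := Metric.mem_nhds_iff.1 (Filter.inter_mem h0 h1)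
  refine ⟨ε, hε, ∑ p ∈ t, s p, ?_, ?_⟩
  · rw [Set.ncard_eq_toFinset_card Z hfin]
    change ∑ p ∈ t, s p ≡ (t.card : ℤ) [ZMOD 2]
    rw [Finset.card_eq_sum_ones, Nat.cast_sum]
    refine Int.ModEq.sum fun p hp => ?_
    rcases (hN p ((ht p).1 hp)).2.2.2.2.1 with h | h
    · rw [h]; rfl
    · rw [h]; decide
  · intro φ hφ hφ0
    have hsupp : ∀ w, φ w ≠ 0 → w ∈ Metric.ball (0 : κ → ℝ) ε := by
      intro w hw
      rw [mem_ball_zero_iff]
      by_contra hlt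
      exact hw (hφ0 w (not_lt.1 hlt))
    have hc : Continuous fun x => (fderiv ℝ Θ x).det :=
      ContinuousLinearMap.continuous_det.comp (hΘ.continuous_fderiv one_ne_zero)
    have hF : Continuous fun x => φ (Θ x) * (fderiv ℝ Θ x).det :=
      (hφ.comp hΘ.continuous).mul hc
    have hWK : W ⊆ Set.Icc a b := Set.iUnion₂_subset fun p _ => hUK p
    have e1 : ∫ x in Set.Icc a b, φ (Θ x) * (fderiv ℝ Θ x).det =
        ∫ x in W, φ (Θ x) * (fderiv ℝ Θ x).det := by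
      refine setIntegral_eq_of_subset_of_forall_sdiff_eq_zero measurableSet_Icc hWK ?_
      intro x hx
      by_cases h : φ (Θ x) = 0
      · rw [h, zero_mul]
      · exact absurd (Set.mem_image_of_mem Θ hx) (hball (hsupp _ h)).1
    have e2 : ∫ x in W, φ (Θ x) * (fderiv ℝ Θ x).det =
        ∑ p ∈ t, ∫ x in U p, φ (Θ x) * (fderiv ℝ Θ x).det := by
      refine integral_biUnion_finset t (fun p hp => (hUo p ((ht p).1 hp)).measurableSet) ?_ ?_
      · intro p hp q hq hpq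
        have := hTd ((ht p).1 hp) ((ht q).1 hq) hpq
        exact this.mono (fun x hx => hx.1.2) (fun x hx => hx.1.2)
      · intro p _
        exact (hF.continuousOn.integrableOn_compact hK).mono_set (hUK p)
    rw [e1, e2, Int.cast_sum, Finset.sum_mul]
    refine Finset.sum_congr rfl fun p hp => ?_
    have hpZ := (ht p).1 hp
    have hm := (hUo p hpZ).measurableSet
    have e3 : ∫ w in Θ '' U p, φ w = ∫ x in U p, |(fderiv ℝ Θ x).det| • φ (Θ x) :=
      integral_image_eq_integral_abs_det_fderiv_smul volume hm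
        (fun x _ => (hΘ.differentiable one_ne_zero x).hasFDerivAt.hasFDerivWithinAt)
        ((hN p hpZ).2.2.1.mono (hUN p)) φ
    have e4 : ∫ w in Θ '' U p, φ w = ∫ w, φ w := by
      refine setIntegral_eq_integral_of_forall_compl_eq_zero fun w hw => ?_
      by_contra h
      exact hw (Set.mem_iInter₂.1 (hball (hsupp w h)).2 p hp)
    rw [← e4, e3, ← integral_const_mul]
    refine setIntegral_congr_fun hm fun x hx => ?_
    have := (hN p hpZ).2.2.2.2.2 x (hUN p hx)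
    simp only [smul_eq_mul]
    rw [← mul_assoc, ← this, mul_comm]

end Pool.Agent.Lib.MP_b7c8b0_gt
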