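import Pool.Agent.Lib.MP_b7c8b0_gt.FDefs

open scoped ContDiff Topology ComplexConjugate
open Filter MeasureTheory Matrix

noncomputable section

namespace Pool.Agent.Lib.MP_b7c8b0_gt

variable {A B : Type} [Ring A] [Algebra ℂ A] [Ring B] [Algebra ℂ B]

theorem Ek_zero (p : ℕ → A) : Ek p 0 = 1 := by rw [Ek]
theorem Ek_succ (p : ℕ → A) (k : ℕ) : Ek p (k + 1) = ((k + 1 : ℕ) : ℂ)⁻¹ •
    ∑ i : Fin (k + 1), (-1 : ℂ) ^ (i : ℕ) • (Ek p (k - i) * p (i + 1)) := by rw [Ek]
theorem map_Ek (φ : A →ₐ[ℂ] B) (p : ℕ → A) (k : ℕ) : φ (Ek p k) = Ek (fun i => φ (p i)) k := by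
  induction k using Nat.strong_induction_on with
  | _ k ih =>
    cases k with
    | zero => rw [Ek_zero, Ek_zero, map_one]
    | succ k =>
      rw [Ek_succ, Ek_succ, map_smul, map_sum]
      congr 1
      refine Finset.sum_congr rfl fun i _ => ?_
      rw [map_smul, map_mul, ih _ (by omega)]
theorem Ek_congr {p q : ℕ → A} (h : ∀ i, p (i + 1) = q (i + 1)) (k : ℕ) : Ek p k = Ek q k := by
  induction k using Nat.strong_induction_on with
  | _ k ih =>
    cases k with
    | zero => rw [Ek_zero, Ek_zero]
    | succ k =>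
      rw [Ek_succ, Ek_succ]
      congr 1
      refine Finset.sum_congr rfl fun i _ => ?_
      rw [ih _ (by omega), h]
theorem Ek_nil {p : ℕ → A} (h : ∀ i j, p (i + 1) * p (j + 1) = 0) (k : ℕ) :
    Ek p (k + 1) = ((-1 : ℂ) ^ k * ((k + 1 : ℕ) : ℂ)⁻¹) • p (k + 1) := by
  induction k using Nat.strong_induction_on with
  | _ k ih =>
    rw [Ek_succ, Finset.sum_eq_single (Fin.last k)]
    · rw [Fin.val_last, Nat.sub_self, Ek_zero, one_mul, smul_smul, mul_comm]
    · intro i _ hi
      have hi' : (i : ℕ) < k := Fin.val_lt_last hi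
      obtain ⟨j, hj⟩ : ∃ j, k - i = j + 1 := ⟨k - i - 1, by omega⟩
      rw [hj, ih j (by omega), smul_mul_assoc, h, smul_zero, smul_zero]
    · simp
theorem Ek_geom {p : ℕ → A} {x : A} (h : ∀ i, p (i + 1) = -x ^ (i + 1)) (k : ℕ) :
    Ek p k = (-x) ^ k := by
  induction k using Nat.strong_induction_on with
  | _ k ih =>
    cases k with
    | zero => rw [Ek_zero, pow_zero]
    | succ k =>
      rw [Ek_succ]
      have h1 : ∀ i : Fin (k + 1),
          (-1 : ℂ) ^ (i : ℕ) • (Ek p (k - i) * p (i + 1)) = (-x) ^ (k + 1) := by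
        intro i
        have hi := i.2
        have h2 : (-1 : ℂ) ^ (i : ℕ) • (-x ^ ((i : ℕ) + 1)) = (-x) ^ ((i : ℕ) + 1) := by
          rw [← neg_one_smul ℂ x, smul_pow, pow_succ (-1 : ℂ), mul_smul, neg_one_smul]
        rw [ih _ (by omega), h, ← mul_smul_comm, h2, ← pow_add]
        congr 1
        omega
      rw [Finset.sum_congr rfl fun i _ => h1 i, Finset.sum_const, Finset.card_univ,
        Fintype.card_fin, ← Nat.cast_smul_eq_nsmul ℂ, smul_smul,
        inv_mul_cancel₀ (Nat.cast_ne_zero.mpr (by omega)), one_smul]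

section newton

open Polynomial

variable {R : Type} [CommRing R] {n : Type} [Fintype n] [DecidableEq n]

/-- Derivative of a determinant. -/
theorem newton_jacobi (P : Matrix n n R[X]) :
    derivative P.det = trace (P.adjugate * P.map derivative) := by
  have h1 : trace (P.adjugate * P.map derivative) =
      ∑ j, (P.updateCol j fun i => derivative (P i j)).det := by
    unfold trace
    refine Finset.sum_congr rfl fun j _ => ?_
    rw [← cramer_apply, cramer_eq_adjugate_mulVec]
    rfl
  rw [h1]
  simp only [det_apply']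
  rw [Finset.sum_comm, derivative_sum]
  refine Finset.sum_congr rfl fun σ _ => ?_
  rw [← Finset.mul_sum, derivative_intCast_mul, derivative_prod_finset]
  congr 1
  refine Finset.sum_congr rfl fun j _ => ?_
  rw [← Finset.prod_erase_mul _ _ (Finset.mem_univ j), updateCol_self]
  congr 1
  refine Finset.prod_congr rfl fun i hi => ?_
  rw [updateCol_ne (Finset.ne_of_mem_erase hi)]

theorem newton_coeff (M : Matrix n n R) (k : ℕ) :
    ((k + 1 : ℕ) : R) * ((X : R[X]) • M.map C + (1 : Matrix n n R).map C).det.coeff (k + 1) =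
      ∑ i : Fin (k + 1), (-1 : R) ^ (i : ℕ) *
        (((X : R[X]) • M.map C + (1 : Matrix n n R).map C).det.coeff (k - i) *
          trace (M ^ ((i : ℕ) + 1))) := by
  set P : Matrix n n R[X] := (X : R[X]) • M.map C + (1 : Matrix n n R).map C with hP
  let N : ℕ → Matrix n n R := fun k => P.adjugate.map fun f => f.coeff k
  have hadj := adjugate_mul P
  have hent : ∀ a b, (∑ c, P.adjugate a c * C (M c b)) * X + P.adjugate a b =
      P.det * C ((1 : Matrix n n R) a b) := by
    intro a b
    have h := congrFun (congrFun hadj a) b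
    rw [mul_apply] at h
    have e1 : ∀ c, P c b = C (M c b) * X + C ((1 : Matrix n n R) c b) := by
      intro c
      rw [hP, Matrix.add_apply, Matrix.smul_apply, map_apply, map_apply, smul_eq_mul, mul_comm]
    have e2 : (P.det • (1 : Matrix n n R[X])) a b = P.det * C ((1 : Matrix n n R) a b) := by
      by_cases hab : a = b
      · subst hab; simp
      · simp [one_apply_ne hab]
    rw [← e2, ← h, Finset.sum_mul]
    simp only [e1, mul_add, Finset.sum_add_distrib, mul_assoc]
    congr 1
    rw [Finset.sum_eq_single b]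
    · simp
    · intro c _ hc
      simp [one_apply_ne hc]
    · simp
  have h0 : N 0 = P.det.coeff 0 • 1 := by
    ext a b
    have h := congrArg (fun f => f.coeff 0) (hent a b)
    simpa [N] using h
  have hs : ∀ k, N (k + 1) = P.det.coeff (k + 1) • 1 - N k * M := by
    intro k
    ext a b
    have h := congrArg (fun f => f.coeff (k + 1)) (hent a b)
    simp only [coeff_add, coeff_mul_X, finsetSum_coeff, coeff_mul_C] at h
    simp only [N, Matrix.sub_apply, Matrix.smul_apply, smul_eq_mul, mul_apply, map_apply]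
    rw [← h]
    ring
  have hN : ∀ k, N k = ∑ i ∈ Finset.range (k + 1), ((-1 : R) ^ i * P.det.coeff (k - i)) • M ^ i := by
    intro k
    induction k with
    | zero => simp [h0]
    | succ k ih =>
      rw [hs, ih, Finset.sum_range_succ' _ (k + 1), Finset.sum_mul, sub_eq_neg_add,
        ← Finset.sum_neg_distrib]
      congr 1
      · refine Finset.sum_congr rfl fun i _ => ?_
        rw [Nat.add_sub_add_right, smul_mul_assoc, ← pow_succ, ← neg_smul]
        congr 1
        ring
      · simp
  have hd : P.map derivative = M.map C := by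
    ext a b : 2
    rw [map_apply, hP, Matrix.add_apply, Matrix.smul_apply, map_apply, map_apply, smul_eq_mul,
      derivative_add, derivative_C, add_zero, derivative_mul, derivative_X, derivative_C, mul_zero,
      add_zero, one_mul]
  have h1 := congrArg (fun f => f.coeff k) (newton_jacobi P)
  simp only [coeff_derivative, hd] at h1
  have h2 : (trace (P.adjugate * M.map C)).coeff k = trace (N k * M) := by
    simp [trace, mul_apply, N]
  rw [h2, hN, Finset.sum_mul, trace_sum] at h1
  rw [Fin.sum_univ_eq_sum_range (fun i => (-1 : R) ^ i * (P.det.coeff (k - i) *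
    trace (M ^ (i + 1)))) (k + 1), mul_comm]
  push_cast
  rw [h1]
  refine Finset.sum_congr rfl fun i _ => ?_
  rw [smul_mul_assoc, ← pow_succ, trace_smul, smul_eq_mul, mul_assoc]

theorem newton_Ek [Algebra ℂ R] (M : Matrix n n R) (k : ℕ) :
    Ek (fun i => trace (M ^ i)) k =
      ((X : R[X]) • M.map C + (1 : Matrix n n R).map C).det.coeff k := by
  induction k using Nat.strong_induction_on with
  | _ k ih =>
    cases k with
    | zero => rw [Ek_zero, coeff_det_X_add_C_zero, det_one]
    | succ k =>
      have hk : ((k + 1 : ℕ) : ℂ) ≠ 0 := Nat.cast_ne_zero.mpr (by omega)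
      rw [Ek_succ, inv_smul_eq_iff₀ hk, Nat.cast_smul_eq_nsmul, nsmul_eq_mul, newton_coeff]
      refine Finset.sum_congr rfl fun i _ => ?_
      rw [ih _ (by omega), Algebra.smul_def, map_pow, map_neg, map_one]

end newton

/-- Newton's identities: the top expression vanishes for a matrix with a zero column. -/
theorem Ek_zero_col {n : Type} [Fintype n] [DecidableEq n] (M : Matrix n n A)
    (hc : ∀ a b w, M a b * w = w * M a b) (j0 : n) (h0 : ∀ a, M a j0 = 0) :
    Ek (fun i => trace (M ^ i)) (Fintype.card n) = 0 := by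
  let Z := Subalgebra.center ℂ A
  let M' : Matrix n n Z := fun a b =>
    ⟨M a b, Subalgebra.mem_center_iff.mpr fun w => (hc a b w).symm⟩
  have h1 : Ek (fun i => trace (M' ^ i)) (Fintype.card n) = 0 := by
    have h := newton_Ek (R := Subalgebra.center ℂ A) M' (Fintype.card n)
    rw [Polynomial.coeff_det_X_add_C_card,
      det_eq_zero_of_column_eq_zero j0 fun a => Subtype.ext (h0 a)] at h
    exact h
  have h2 := map_Ek Z.val (fun i => trace (M' ^ i)) (Fintype.card n)
  rw [h1, map_zero] at h2
  have h3 : ∀ i, Z.val (trace (M' ^ i)) = trace (M ^ i) := by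
    intro i
    have h4 : Z.val.mapMatrix M' = M := rfl
    rw [← h4, ← map_pow]
    simp [trace]
  simp only [h3] at h2
  exact h2.symm

end Pool.Agent.Lib.MP_b7c8b0_gt
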