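import Pool.Agent.Lib.MP_b7c8b0_gt.CoefDet

open scoped ContDiff Topology ComplexConjugate
open Filter MeasureTheory Matrix

noncomputable section

namespace Pool.Agent.Lib.MP_b7c8b0_gt

variable {ι : Type} [Fintype ι] [DecidableEq ι] {s : ι} {l : List ι}

theorem uv_kill {A : Type} [Ring A] (y : A) (L : List A) (hc : ∀ x ∈ L, y * x = x * y)
    (h0 : ∃ x ∈ L, y * x = 0) : y * L.prod = 0 := by
  induction L with
  | nil => simp at h0
  | cons h t ih =>
    rw [List.prod_cons, ← mul_assoc]
    obtain ⟨x, hx, hx0⟩ := h0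
    rcases List.mem_cons.1 hx with rfl | hx'
    · rw [hx0, zero_mul]
    · rw [hc h List.mem_cons_self, mul_assoc,
        ih (fun z hz => hc z (List.mem_cons_of_mem _ hz)) ⟨x, hx', hx0⟩, mul_zero]

theorem uv_dd_th {n : Type} [Fintype n] (u v : n → Sm ι) :
    dd (th u v) = ∑ a, dd (fn (u a)) * dd (fn (v a)) := by
  unfold th
  rw [map_sum]
  refine Finset.sum_congr rfl fun a _ => ?_
  rw [dd_mul, dd_dd, mul_zero, add_zero]

theorem uv_sg_th {n : Type} [Fintype n] (u v : n → Sm ι) : sg (th u v) = -th u v := by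
  unfold th
  rw [map_sum, ← Finset.sum_neg_distrib]
  refine Finset.sum_congr rfl fun a _ => ?_
  rw [map_mul, sg_fn, sg_dd_fn, mul_neg]

theorem uv_face_th {n : Type} [Fintype n] (u v : n → Sm ι) (i : ι) (c : ℝ) :
    face i c (th u v) = th (fun a => fS i c (u a)) (fun a => fS i c (v a)) := by
  unfold th
  rw [map_sum]
  refine Finset.sum_congr rfl fun a _ => ?_
  rw [map_mul, face_dd, face_fn, face_fn]

theorem uv_face_cs {n : Type} [Fintype n] (m : ℕ) (u v : n → Sm ι) (i : ι) (c : ℝ) :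
    face i c (th u v * dd (th u v) ^ m) = th (fun a => fS i c (u a)) (fun a => fS i c (v a)) *
      dd (th (fun a => fS i c (u a)) (fun a => fS i c (v a))) ^ m := by
  rw [map_mul, map_pow, face_dd, uv_face_th]

theorem uv_dd_cs {n : Type} [Fintype n] (m : ℕ) (u v : n → Sm ι) :
    dd (th u v * dd (th u v) ^ m) = dd (th u v) ^ (m + 1) := by
  have h1 : sg (dd (th u v)) = dd (th u v) := by
    rw [sg_dd, uv_sg_th, map_neg, neg_neg]
  rw [dd_mul, dd_pow h1 (dd_dd _), mul_zero, add_zero, pow_succ']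

theorem uv_top {m : ℕ} {u v : Fin (m + 1) → Sm ι} (h : ∑ a, u a * v a = 1) :
    dd (th u v) ^ (m + 1) = 0 := by
  set x : Fin (m + 1) → Om ι := fun a => dd (fn (u a)) * dd (fn (v a)) with hx
  have hev : ∀ a, sg (x a) = x a := fun a => by
    simp only [hx]
    rw [map_mul, sg_dd_fn, sg_dd_fn, neg_mul_neg]
  have hc : ∀ (y : Om ι) a, y * x a = x a * y := fun y a => (ev_comm (hev a) y).symm
  have hu0 : ∀ a, dd (fn (u a)) * x a = 0 := fun a => by
    simp only [hx]
    rw [← mul_assoc, od_sq (sg_dd_fn _), zero_mul]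
  have hv0 : ∀ a, dd (fn (v a)) * x a = 0 := fun a => by
    rw [hc]
    simp only [hx]
    rw [mul_assoc, od_sq (sg_dd_fn _), mul_zero]
  have h0 : ∀ a, x a * x a = 0 := fun a => by
    have : x a * x a = dd (fn (u a)) * (dd (fn (v a)) * x a) := by
      simp only [hx, mul_assoc]
    rw [this, hv0, mul_zero]
  have hcomm : ∀ a b, Commute (x a) (x b) := fun a b => hc _ _
  set R : Fin (m + 1) → Om ι := fun c => (List.ofFn fun b => x (c.succAbove b)).prod with hR
  have hkill : ∀ (y : Om ι) (b c : Fin (m + 1)), b ≠ c → y * x b = 0 → y * R c = 0 := by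
    intro y b c hbc hy
    obtain ⟨b', rfl⟩ := Fin.exists_succAbove_eq hbc
    refine uv_kill y _ (fun z hz => ?_) ⟨_, List.mem_ofFn.2 ⟨b', rfl⟩, hy⟩
    obtain ⟨j, rfl⟩ := List.mem_ofFn.1 hz
    exact hc _ _
  have heta : ∑ b, (dd (fn (u b)) * fn (v b) + fn (u b) * dd (fn (v b))) = 0 := by
    have := congrArg (fun f : Sm ι => dd (fn f)) h
    simp only [map_sum, map_one, dd_one] at this
    rw [← this]
    exact Finset.sum_congr rfl fun b _ => (dd_fn_mul _ _).symm
  have key : ∀ a c, fn (u a) * x a * R c = 0 := by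
    intro a c
    by_cases hac : a = c
    · subst hac
      have e1 : dd (fn (u a)) * ((∑ b, (dd (fn (u b)) * fn (v b) + fn (u b) * dd (fn (v b))))
          * R a) = 0 := by rw [heta, zero_mul, mul_zero]
      rw [Finset.sum_mul, Finset.sum_eq_single a, add_mul, mul_add] at e1
      · have e2 : dd (fn (u a)) * (dd (fn (u a)) * fn (v a) * R a) = 0 := by
          rw [mul_assoc, ← mul_assoc, od_sq (sg_dd_fn _), zero_mul]
        rw [e2, zero_add] at e1
        rw [← e1]
        simp only [hx]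
        rw [← mul_assoc (fn (u a)), fn_comm (u a) (dd (fn (u a)))]
        simp only [mul_assoc]
      · intro b _ hb
        rw [add_mul, ← fn_comm, mul_assoc, mul_assoc, hkill _ b a hb (hu0 b),
          hkill _ b a hb (hv0 b), mul_zero, mul_zero, add_zero]
      · intro hb
        exact absurd (Finset.mem_univ a) hb
    · rw [mul_assoc, hkill _ a c hac (h0 a), mul_zero]
  have key2 : ∀ a, fn (u a) * ((m.factorial : Om ι) * (List.ofFn x).prod) = 0 := by
    intro a
    rw [← mul_sum_pow_sq_zero x hcomm h0 a, sum_pow_pred_sq_zero x hcomm h0, ← mul_assoc,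
      ← mul_assoc, ← (Nat.cast_commute _ _).eq, mul_assoc, Finset.mul_sum,
      Finset.sum_eq_zero (fun c _ => key a c), mul_zero]
  have key3 : (m.factorial : Om ι) * (List.ofFn x).prod = 0 := by
    have e : (1 : Om ι) = ∑ a, fn (v a) * fn (u a) := by
      rw [← map_one (fn (ι := ι)), ← h, map_sum]
      refine Finset.sum_congr rfl fun a _ => ?_
      rw [mul_comm, map_mul]
    rw [← one_mul ((m.factorial : Om ι) * _), e, Finset.sum_mul]
    exact Finset.sum_eq_zero fun a _ => by rw [mul_assoc, key2, mul_zero]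
  rw [uv_dd_th, sum_pow_sq_zero x hcomm h0, Nat.factorial_succ, Nat.cast_mul, mul_assoc, key3,
    mul_zero]

/-- Stokes for the filling. -/
theorem CS_stokes {n : Type} [Fintype n] (m : ℕ) (hN : (s :: l).Nodup) {P : List ι}
    (hP : ∀ i ∈ l, i ∉ P) {u v : n → Sm ι} (hu : ∀ a, Tor P l (u a)) (hv : ∀ a, Tor P l (v a)) :
    itg (s :: l) (dd (th u v) ^ (m + 1)) = CS m l (fun a => fS s 1 (u a)) (fun a => fS s 1 (v a))
      - CS m l (fun a => fS s 0 (u a)) (fun a => fS s 0 (v a)) := by
  rw [← uv_dd_cs, st1 hN, uv_face_cs, uv_face_cs]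
  · rfl
  · intro i hi
    unfold WPer
    rw [uv_face_cs, uv_face_cs]
    have e1 : (fun a => fS i 1 (u a)) = fun a => fS i 0 (u a) :=
      funext fun a => (hu a).fS_per (hP i hi)
    have e2 : (fun a => fS i 1 (v a)) = fun a => fS i 0 (v a) :=
      funext fun a => (hv a).fS_per (hP i hi)
    rw [e1, e2]

theorem CS_indep {m : ℕ} (hN : (s :: l).Nodup) {u u' v : Fin (m + 1) → Sm ι}
    (hu : ∀ a, Tor [] l (u a)) (hu' : ∀ a, Tor [] l (u' a)) (hv : ∀ a, Tor [] l (v a))
    (h : ∑ a, u a * v a = 1) (h' : ∑ a, u' a * v a = 1) : CS m l u v = CS m l u' v := by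
  have hs : s ∉ l := (List.nodup_cons.1 hN).1
  have hm : ∀ {f : Sm ι}, Tor [] l f → Tor [s] l f := fun hf =>
    hf.mono (fun i hi => absurd hi List.not_mem_nil) (fun i hi => Or.inr hi)
  have hfix : ∀ {f : Sm ι}, Tor [] l f → ∀ c, fS s c f = f := fun hf c =>
    hf.fS_not_mem List.not_mem_nil hs c
  have hU : ∑ a, (u a + xc s * (u' a - u a)) * v a = 1 := by
    have : ∀ a, (u a + xc s * (u' a - u a)) * v a
        = u a * v a + xc s * (u' a * v a - u a * v a) := fun a => by ring
    rw [Finset.sum_congr rfl fun a _ => this a, Finset.sum_add_distrib, ← Finset.mul_sum,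
      Finset.sum_sub_distrib, h, h', sub_self, mul_zero, add_zero]
  have H := CS_stokes (s := s) (l := l) (P := [s]) m hN
    (fun i hi hi' => hs (List.mem_singleton.1 hi' ▸ hi))
    (u := fun a => u a + xc s * (u' a - u a)) (v := v)
    (fun a => (hm (hu a)).add ((Tor.xc List.mem_cons_self).mul ((hm (hu' a)).sub (hm (hu a)))))
    (fun a => hm (hv a))
  rw [uv_top hU, map_zero] at H
  have e1 : (fun a => fS s 1 (u a + xc s * (u' a - u a))) = u' := funext fun a => by
    rw [map_add, map_mul, map_sub, fS_xc_self, hfix (hu a), hfix (hu' a)]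
    simp
  have e0 : (fun a => fS s 0 (u a + xc s * (u' a - u a))) = u := funext fun a => by
    rw [map_add, map_mul, map_sub, fS_xc_self, hfix (hu a), hfix (hu' a)]
    simp
  have e2 : ∀ c, (fun a => fS s c (v a)) = v := fun c => funext fun a => hfix (hv a) c
  rw [e1, e0, e2, e2] at H
  exact (sub_eq_zero.1 H.symm).symm

theorem CS_const {n : Type} [Fintype n] (m : ℕ) {u v : n → Sm ι}
    (hv : ∀ a x y, (v a).1 x = (v a).1 y) : CS m l u v = 0 := by
  have h1 : ∀ a, dd (fn (v a)) = 0 := fun a => by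
    have : v a = algebraMap ℂ (Sm ι) ((v a).1 0) := Subtype.ext (funext fun x => hv a x 0)
    rw [this, AlgHom.commutes, dd_algebraMap]
  have h2 : th u v = 0 := Finset.sum_eq_zero fun a _ => by rw [h1, mul_zero]
  unfold CS
  rw [h2, zero_mul, map_zero]

end Pool.Agent.Lib.MP_b7c8b0_gt
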