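import Pool.Agent.Lib.MP_b7c8b0_gt.Trans
import Pool.Agent.Lib.MP_b7c8b0_gt.Newton
import Pool.Agent.Lib.MP_b7c8b0_gt.UV

open scoped ContDiff Topology ComplexConjugate
open Filter MeasureTheory Matrix

noncomputable section

namespace Pool.Agent.Lib.MP_b7c8b0_gt

variable {ι : Type} [Fintype ι] [DecidableEq ι] {n : Type} [Fintype n] [DecidableEq n]
  {t s z : ι} {l : List ι}

theorem dd_Ek {p : ℕ → Om ι} (h : ∀ i, sg (p i) = p i ∧ dd (p i) = 0) (k : ℕ) :
    sg (Ek p k) = Ek p k ∧ dd (Ek p k) = 0 := by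
  induction k using Nat.strong_induction_on with
  | _ k ih =>
    rcases k with _ | k
    · rw [Ek_zero]
      exact ⟨map_one _, dd_one⟩
    · have ih' : ∀ i : Fin (k + 1), sg (Ek p (k - i)) = Ek p (k - i) ∧ dd (Ek p (k - i)) = 0 :=
        fun i => ih _ (by omega)
      rw [Ek_succ]
      constructor
      · rw [map_smul, map_sum]
        congr 1
        refine Finset.sum_congr rfl fun i _ => ?_
        rw [map_smul, map_mul, (ih' i).1, (h _).1]
      · rw [map_smul, map_sum, Finset.sum_eq_zero, smul_zero]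
        intro i _
        rw [map_smul, dd_mul, (ih' i).2, (h _).2, zero_mul, mul_zero, add_zero, smul_zero]

omit [DecidableEq n] in
theorem euler_sg_th (w v : n → Sm ι) : sg (th w v) = -th w v := by
  unfold th
  rw [map_sum, ← Finset.sum_neg_distrib]
  refine Finset.sum_congr rfl fun a _ => ?_
  rw [map_mul, sg_fn, sg_dd_fn, mul_neg]

omit [DecidableEq n] in
theorem euler_dd_th (w v : n → Sm ι) :
    dd (th w v) = ∑ a, dd (fn (w a)) * dd (fn (v a)) := by
  unfold th
  rw [map_sum]
  refine Finset.sum_congr rfl fun a _ => ?_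
  rw [dd_mul, dd_dd, mul_zero, add_zero]

omit [DecidableEq ι] in
theorem euler_rank_pow (α γ : n → Om ι) (i : ℕ) :
    (Matrix.of fun a b => α a * γ b : MO n ι) ^ (i + 1) =
      Matrix.of fun a b => α a * (∑ c, γ c * α c) ^ i * γ b := by
  induction i with
  | zero => ext a b; simp
  | succ i ih =>
    rw [pow_succ, ih]
    ext a b
    rw [Matrix.mul_apply]
    simp only [Matrix.of_apply]
    rw [pow_succ, Finset.mul_sum, Finset.mul_sum, Finset.sum_mul]
    refine Finset.sum_congr rfl fun c _ => ?_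
    simp only [mul_assoc]

/-- Power sums of a rank one connection. -/
theorem ch_rank_one (w v : n → Sm ι) (i : ℕ) :
    ch (i + 1) (Matrix.of fun a b => dd (fn (v a)) * fn (w b))
      = -(-dd (th w v)) ^ (i + 1) := by
  have hc : curv (Matrix.of fun a b => dd (fn (v a)) * fn (w b) : MO n ι) =
      Matrix.of fun a b => dd (fn (v a)) * (-dd (fn (w b)) + th w v * fn (w b)) := by
    ext a b
    unfold curv
    rw [Matrix.add_apply, dM_apply, Matrix.mul_apply]
    simp only [Matrix.of_apply]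
    rw [dd_mul, dd_dd, sg_dd_fn, zero_mul, zero_add, mul_add, neg_mul, mul_neg]
    congr 1
    unfold th
    rw [Finset.sum_mul, Finset.mul_sum]
    refine Finset.sum_congr rfl fun c _ => ?_
    simp only [mul_assoc]
  have hσ : ∑ c, (-dd (fn (w c)) + th w v * fn (w c)) * dd (fn (v c)) = -dd (th w v) := by
    have h1 : ∑ c, (-dd (fn (w c)) + th w v * fn (w c)) * dd (fn (v c)) =
        -∑ c, dd (fn (w c)) * dd (fn (v c)) + th w v * ∑ c, fn (w c) * dd (fn (v c)) := by
      rw [Finset.mul_sum, ← Finset.sum_neg_distrib, ← Finset.sum_add_distrib]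
      refine Finset.sum_congr rfl fun c _ => ?_
      rw [add_mul, neg_mul, mul_assoc]
    rw [h1, ← euler_dd_th]
    change -dd (th w v) + th w v * th w v = _
    rw [od_sq (euler_sg_th w v), add_zero]
  have hev : sg (-dd (th w v)) = -dd (th w v) := by
    rw [map_neg, sg_dd, euler_sg_th, map_neg, neg_neg]
  unfold ch
  rw [hc, euler_rank_pow, hσ, pow_succ]
  unfold Matrix.trace
  simp only [Matrix.diag_apply, Matrix.of_apply]
  have h2 : ∀ a, dd (fn (v a)) * (-dd (th w v)) ^ i * (-dd (fn (w a)) + th w v * fn (w a)) =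
      -((-dd (th w v)) ^ i * ((-dd (fn (w a)) + th w v * fn (w a)) * dd (fn (v a)))) := by
    intro a
    rw [mul_assoc, od_comm (sg_dd_fn (v a)), map_mul, map_pow, hev, map_add, map_neg, map_mul,
      sg_dd_fn, euler_sg_th, sg_fn]
    noncomm_ring
  simp only [h2]
  rw [Finset.sum_neg_distrib, ← Finset.mul_sum, hσ]

theorem euler_smul_pow {f : Om ι} (hf : sg f = f) (M : MO n ι) (k : ℕ) :
    (f • M) ^ k = f ^ k • M ^ k := by
  induction k with
  | zero => simp
  | succ k ih => rw [pow_succ, ih, smul_mul_M, mul_smul_ev hf, smul_smul, pow_succ, pow_succ]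

theorem euler_add_pow (θ Y : MO n ι) (k : ℕ) :
    ∃ Z : MO n ι, (eps t • θ + Y) ^ k = Y ^ k + eps t • Z := by
  induction k with
  | zero => exact ⟨0, by simp⟩
  | succ k ih =>
    obtain ⟨Z, hZ⟩ := ih
    refine ⟨sgM (Y ^ k) * θ + Z * (eps t • θ + Y), ?_⟩
    rw [pow_succ, hZ, add_mul, mul_add, mul_smul_od (sg_eps t), smul_mul_M, smul_add, pow_succ]
    abel

theorem euler_ch_lin {g : MS n ι} (hg : Inv g) (i : ℕ) :
    ∃ η : Om ι, ch (i + 1) (lin t 0 (mc g)) = eps t * η := by
  have hd : dM (mc g) = -(mc g * mc g) := by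
    have := hg.curv_mc
    unfold curv at this
    exact eq_neg_of_add_eq_zero_left this
  have hc : curv (lin t 0 (mc g)) =
      eps t • mc g + (fn (xc t) * fn (xc t) - fn (xc t)) • (mc g * mc g) := by
    unfold curv lin
    rw [zero_add, sub_zero, dM_smul, dd_xc, sg_fn, hd, smul_mul_M, mul_smul_ev (sg_fn _),
      smul_smul, sub_smul, smul_neg]
    abel
  obtain ⟨Z, hZ⟩ := euler_add_pow (t := t) (mc g)
    ((fn (xc t) * fn (xc t) - fn (xc t)) • (mc g * mc g)) (i + 1)
  refine ⟨trace Z, ?_⟩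
  unfold ch
  rw [hc, hZ, euler_smul_pow (by rw [map_sub, map_mul, sg_fn]), trace_add, trace_smul,
    trace_smul, ← sq (mc g), ← pow_mul, trace_od_pow (sgM_mc g), smul_zero, zero_add, smul_eq_mul]

/-- Power sums along the straight path to a flat connection have vanishing products. -/
theorem ch_lin_mul {g : MS n ι} (hg : Inv g) (i j : ℕ) :
    ch (i + 1) (lin t 0 (mc g)) * ch (j + 1) (lin t 0 (mc g)) = 0 := by
  obtain ⟨η, h1⟩ := euler_ch_lin (t := t) hg i
  obtain ⟨η', h2⟩ := euler_ch_lin (t := t) hg j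
  have h3 : η * eps t = eps t * sg η := by rw [eps_mul, sg_sg]
  rw [h1, h2, mul_assoc, ← mul_assoc η, h3, ← mul_assoc, ← mul_assoc, eps_sq, zero_mul, zero_mul]

theorem euler_zero_col (m : ℕ) (hn : Fintype.card n = m + 1) {B : MO n ι} (hB : sgM B = -B)
    (j0 : n) (h0 : ∀ a, B a j0 = 0) : Ek (fun i => ch i B) (m + 1) = 0 := by
  rw [← hn]
  refine Ek_zero_col (curv B) (fun a b w => ev_comm ?_ w) j0 fun a => ?_
  · rw [← sgM_apply, sgM_curv hB]
  · unfold curv
    rw [Matrix.add_apply, dM_apply, h0, map_zero, Matrix.mul_apply, zero_add]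
    exact Finset.sum_eq_zero fun c _ => by rw [h0, mul_zero]

theorem euler_face_Ek (i : ι) (c : ℝ) (B : MO n ι) (k : ℕ) :
    face i c (Ek (fun j => ch j B) k) = Ek (fun j => ch j (faceM i c B)) k := by
  rw [map_Ek]
  simp only [face_ch]

theorem euler_fSM_single (i : ι) (c : ℝ) (j0 : n) :
    fSM i c (Matrix.single j0 j0 1 : MS n ι) = Matrix.single j0 j0 1 := by
  ext1 a b
  rw [fSM_apply, Matrix.single_apply]
  split_ifs
  · exact map_one _
  · exact map_zero _

omit [DecidableEq n] in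
theorem euler_CS_neg (m : ℕ) (u v : n → Sm ι) :
    CS m l (fun a => -u a) v = (-1 : ℂ) ^ (m + 1) * CS m l u v := by
  have h1 : th (fun a => -u a) v = (-1 : ℂ) • th u v := by
    unfold th
    rw [neg_one_smul, ← Finset.sum_neg_distrib]
    refine Finset.sum_congr rfl fun a _ => ?_
    rw [map_neg, neg_mul]
  unfold CS
  rw [h1, map_smul, smul_pow, smul_mul_smul_comm, map_smul, smul_eq_mul, pow_succ']

omit [DecidableEq n] in
theorem euler_CS_zero (m : ℕ) (v : n → Sm ι) : CS m l (fun _ => 0) v = 0 := by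
  have h1 : th (fun _ => 0) v = 0 := by
    unfold th
    exact Finset.sum_eq_zero fun a _ => by rw [map_zero, zero_mul]
  unfold CS
  rw [h1, zero_mul, map_zero]

/-- The odd Chern character in the middle dimension is given by one column. -/
theorem Ch_euler (m : ℕ) (hn : Fintype.card n = m + 1) (hN : (t :: s :: l).Nodup) {g : MS n ι}
    (hg : Inv g) (ht : TorM [] l g) (j0 : n) :
    Ch (m + 1) t l g = (m + 1 : ℕ) * CS m l (fun b => g⁻¹ j0 b) (fun a => g a j0) := by
  have hts : t ≠ s := fun h => by simp [h] at hN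
  have htl : t ∉ l := fun h => by simp [h] at hN
  have hsl : s ∉ l := fun h => by simp [h] at hN
  have hl : l.Nodup := hN.of_cons.of_cons
  have hN' : (s :: t :: l).Nodup := by
    simp only [List.nodup_cons, List.mem_cons, not_or]
    exact ⟨⟨hts.symm, hsl⟩, htl, hl⟩
  have hNs : (s :: l).Nodup := hN.of_cons
  set Q : MS n ι := 1 - (1 - xc s) • Matrix.single j0 j0 1 with hQ
  set B : MO n ι := fn (xc t) • (mc g * fnM Q) with hB
  have hodd : sgM B = -B := by
    rw [hB, sgM_smul, sg_fn, map_mul, sgM_mc, sgM_fnM, neg_mul, smul_neg]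
  have hface : ∀ (i : ι) (c : ℝ), faceM i c B = fn (fS i c (xc t)) • (mc (fSM i c g) *
      fnM (1 - (1 - fS i c (xc s)) • Matrix.single j0 j0 1)) := by
    intro i c
    rw [hB, faceM_smul, face_fn, map_mul, hg.faceM_mc, faceM_fnM, hQ, map_sub (fSM i c),
      map_one, fSM_smul, map_sub (fS i c), map_one, euler_fSM_single]
  have hE := (dd_Ek (p := fun i => ch i B) (fun i => ⟨sg_ch i hodd, dd_ch i hodd⟩) (m + 1)).2
  have hper : ∀ i ∈ l, WPer i (Ek (fun i => ch i B) (m + 1)) := by
    intro i hi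
    have h1 : t ≠ i := fun h => htl (h ▸ hi)
    have h2 : s ≠ i := fun h => hsl (h ▸ hi)
    unfold WPer
    rw [euler_face_Ek, euler_face_Ek, hface, hface, fS_xc_ne h1, fS_xc_ne h1, fS_xc_ne h2,
      fS_xc_ne h2, ht.fSM_per (by simp)]
  have st := st2 hN' hper
  rw [hE, map_zero, euler_face_Ek, euler_face_Ek, euler_face_Ek, euler_face_Ek] at st
  have gs : ∀ c, fSM s c g = g := fun c => ht.fSM_not_mem (by simp) hsl c
  have gt : ∀ c, fSM t c g = g := fun c => ht.fSM_not_mem (by simp) htl c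
  have f1 : faceM s 1 B = lin t 0 (mc g) := by
    rw [hface, fS_xc_ne hts, fS_xc_self, gs]
    unfold lin
    simp
  have f2 : Ek (fun i => ch i (faceM s 0 B)) (m + 1) = 0 := by
    refine euler_zero_col m hn (by rw [← faceM_sgM, hodd, map_neg]) j0 fun a => ?_
    rw [hface, fS_xc_self, Matrix.smul_apply, Matrix.mul_apply, Finset.sum_eq_zero, smul_zero]
    intro c _
    rw [fnM_apply]
    have : (1 - (1 - algebraMap ℂ (Sm ι) ((0 : ℝ) : ℂ)) • Matrix.single j0 j0 1 : MS n ι) c j0
        = 0 := by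
      by_cases h : c = j0
      · subst h; simp
      · simp [h, Ne.symm h]
    rw [this, map_zero, mul_zero]
  have f3 : Ek (fun i => ch i (faceM t 0 B)) (m + 1) = 0 := by
    refine euler_zero_col m hn (by rw [← faceM_sgM, hodd, map_neg]) j0 fun a => ?_
    rw [hface, fS_xc_self]
    simp
  have f4 : Ek (fun i => ch i (faceM t 1 B)) (m + 1) =
      dd (th (fun b => -((1 - xc s) * g⁻¹ j0 b)) (fun a => g a j0)) ^ (m + 1) := by
    have hA : (Matrix.of fun a b => dd (fn (g a j0)) * fn (-((1 - xc s) * g⁻¹ j0 b)) : MO n ι) =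
        dM (fnM g) * fnM (-((1 - xc s) • (Matrix.single j0 j0 1 * g⁻¹))) := by
      ext1 a b
      rw [Matrix.mul_apply, Finset.sum_eq_single j0]
      · rw [Matrix.of_apply, dM_apply, fnM_apply, fnM_apply]
        simp
      · intro c _ hc
        rw [fnM_apply]
        simp [hc]
      · simp
    have hAodd : sgM (Matrix.of fun a b =>
        dd (fn (g a j0)) * fn (-((1 - xc s) * g⁻¹ j0 b)) : MO n ι) =
        -(Matrix.of fun a b => dd (fn (g a j0)) * fn (-((1 - xc s) * g⁻¹ j0 b))) := by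
      rw [hA, map_mul, sgM_dM, sgM_fnM, sgM_fnM, neg_mul]
    have hg1 : faceM t 1 B = gauge g g⁻¹ (Matrix.of fun a b =>
        dd (fn (g a j0)) * fn (-((1 - xc s) * g⁻¹ j0 b))) := by
      rw [hface, fS_xc_self, fS_xc_ne hts.symm, gt, hA]
      unfold gauge mc
      have e1 : (-((1 - xc s) • (Matrix.single j0 j0 1 * g⁻¹))) * g =
          -((1 - xc s) • (Matrix.single j0 j0 1 : MS n ι)) := by
        rw [Matrix.neg_mul, Matrix.smul_mul, Matrix.mul_assoc, hg.inv_mul, Matrix.mul_one]
      have e2 : fnM g⁻¹ * (dM (fnM g) * fnM (-((1 - xc s) • (Matrix.single j0 j0 1 * g⁻¹)))) *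
          fnM g = fnM g⁻¹ * dM (fnM g) *
            fnM (-((1 - xc s) • (Matrix.single j0 j0 1 : MS n ι))) := by
        rw [← e1, map_mul fnM]
        simp only [mul_assoc]
      rw [e2, map_sub fnM, map_neg fnM, map_one]
      simp only [Complex.ofReal_one, map_one, one_smul]
      noncomm_ring
    have := Ek_geom (p := fun i => ch i (faceM t 1 B))
      (x := -dd (th (fun b => -((1 - xc s) * g⁻¹ j0 b)) (fun a => g a j0))) (fun i => by
        rw [hg1, ch_gauge _ hg.inv_mul hg.mul_inv hAodd]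
        exact ch_rank_one (fun b => -((1 - xc s) * g⁻¹ j0 b)) (fun a => g a j0) i) (m + 1)
    rw [this, neg_neg]
  have hgi : TorM [] l g⁻¹ := ht.inv hg
  have f5 := CS_stokes (n := n) m hNs (P := [s])
    (fun i hi h => hsl (by rw [List.mem_singleton] at h; exact h ▸ hi))
    (u := fun b => -((1 - xc s) * g⁻¹ j0 b)) (v := fun a => g a j0)
    (fun b => ((Tor.one.sub (Tor.xc (by simp))).mul
      ((hgi j0 b).mono (by simp) (fun i hi => Or.inr hi))).neg)
    (fun a => (ht a j0).mono (by simp) (fun i hi => Or.inr hi))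
  have u1 : (fun b => fS s 1 (-((1 - xc s) * g⁻¹ j0 b))) = fun _ => 0 := by
    funext b
    rw [map_neg, map_mul, map_sub, map_one, fS_xc_self]
    simp
  have u0 : (fun b => fS s 0 (-((1 - xc s) * g⁻¹ j0 b))) = fun b => -g⁻¹ j0 b := by
    funext b
    rw [map_neg, map_mul, map_sub, map_one, fS_xc_self, (hgi j0 b).fS_not_mem (by simp) hsl]
    simp
  have v0 : (fun a => fS s 0 (g a j0)) = fun a => g a j0 := by
    funext a
    rw [(ht a j0).fS_not_mem (by simp) hsl]
  rw [u1, u0, v0, euler_CS_zero, euler_CS_neg] at f5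
  rw [f1, f2, f3, f4, f5, Ek_nil (p := fun i => ch i (lin t 0 (mc g)))
    (fun i j => ch_lin_mul hg i j), map_smul, map_zero, map_zero, smul_eq_mul] at st
  have hm : ((m + 1 : ℕ) : ℂ) ≠ 0 := Nat.cast_ne_zero.2 (Nat.succ_ne_zero m)
  have hs : ((-1 : ℂ) ^ m) ≠ 0 := pow_ne_zero _ (by norm_num)
  change itg (t :: l) (ch (m + 1) (lin t 0 (mc g))) = _
  generalize itg (t :: l) (ch (m + 1) (lin t 0 (mc g))) = X at st
  generalize CS m l (fun b => g⁻¹ j0 b) (fun a => g a j0) = Y at st
  have h2 : (-1 : ℂ) ^ m * (((m + 1 : ℕ) : ℂ)⁻¹ * X) = (-1 : ℂ) ^ m * Y := by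
    rw [pow_succ] at st
    linear_combination -st
  have h3 := mul_left_cancel₀ hs h2
  rw [← h3, mul_inv_cancel_left₀ hm]

end Pool.Agent.Lib.MP_b7c8b0_gt
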