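import Pool.Agent.Lib.MP_b7c8b0_gt.FDefs

open scoped ContDiff Topology ComplexConjugate
open Filter MeasureTheory Matrix

noncomputable section

namespace Pool.Agent.Lib.MP_b7c8b0_gt

theorem exists_psi {δ : ℝ} (hδ : 0 < δ) :
    ∃ ψ : ℝ → ℝ, ContDiff ℝ ∞ ψ ∧ ∀ ρ, δ ≤ ρ → ψ ρ = ρ⁻¹ := by
  refine ⟨fun ρ => Real.smoothTransition (2 * ρ / δ - 1) * ρ⁻¹, ?_, ?_⟩
  · rw [contDiff_iff_contDiffAt]
    intro x
    by_cases hx : x = 0
    · subst hx
      have hev : (fun ρ : ℝ => Real.smoothTransition (2 * ρ / δ - 1) * ρ⁻¹) =ᶠ[𝓝 0]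
          fun _ => 0 := by
        have : Set.Iio (δ / 2) ∈ 𝓝 (0 : ℝ) := Iio_mem_nhds (by linarith)
        filter_upwards [this] with ρ hρ
        have h1 : 2 * ρ / δ - 1 ≤ 0 := by
          have : 2 * ρ / δ ≤ 1 := by
            rw [div_le_one hδ]; have : ρ < δ / 2 := hρ; linarith
          linarith
        rw [Real.smoothTransition.zero_of_nonpos h1, zero_mul]
      exact contDiffAt_const.congr_of_eventuallyEq hev
    · refine ContDiffAt.mul ?_ (contDiffAt_inv ℝ hx)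
      exact (Real.smoothTransition.contDiff.comp
        (((contDiff_const.mul contDiff_id).div_const δ).sub contDiff_const)).contDiffAt
  · intro ρ hρ
    have h1 : 1 ≤ 2 * ρ / δ - 1 := by
      have : 2 ≤ 2 * ρ / δ := by rw [le_div_iff₀ hδ]; linarith
      linarith
    simp only
    rw [Real.smoothTransition.one_of_one_le h1, one_mul]

theorem PhiR_eq_zero (m : ℕ) {ψ : ℝ → ℝ} {δ : ℝ} (hδ : 0 < δ) (h : ∀ ρ, δ ≤ ρ → ψ ρ = ρ⁻¹)
    {ρ : ℝ} (hρ : δ < ρ) : PhiR m ψ ρ = 0 := by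
  have hρ0 : ρ ≠ 0 := (hδ.trans hρ).ne'
  have hev : ψ =ᶠ[𝓝 ρ] fun x => x⁻¹ := by
    filter_upwards [Ioi_mem_nhds hρ] with x hx using h x (le_of_lt hx)
  have hd : deriv ψ ρ = -(ρ ^ 2)⁻¹ := by
    rw [hev.deriv_eq]; exact deriv_inv
  unfold PhiR
  rw [hd, h ρ hρ.le]
  have e : ρ * ρ⁻¹ ^ m * -(ρ ^ 2)⁻¹ = -(ρ⁻¹ ^ m * ρ⁻¹) * (ρ * ρ⁻¹) := by
    rw [← inv_pow]; ring
  rw [e, mul_inv_cancel₀ hρ0, pow_succ]
  ring

theorem continuous_PhiR (m : ℕ) {ψ : ℝ → ℝ} (hψ : ContDiff ℝ ∞ ψ) : Continuous (PhiR m ψ) := by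
  have h1 : Continuous ψ := hψ.continuous
  have h2 : Continuous (deriv ψ) := hψ.continuous_deriv (by simp)
  unfold PhiR
  fun_prop

theorem sum_sq_RI {m : ℕ} (w : Fin m → ℂ) : ∑ a, RI w a ^ 2 = ∑ b, Complex.normSq (w b) := by
  rw [← (finProdFinEquiv (m := m) (n := 2)).sum_comp, Fintype.sum_prod_type]
  refine Finset.sum_congr rfl fun b _ => ?_
  simp only [RI, Equiv.symm_apply_apply, Fin.sum_univ_two, if_true]
  rw [if_neg (by decide), Complex.normSq_apply]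
  ring

theorem RI_eq_zero {m : ℕ} {w : Fin m → ℂ} : RI w = 0 ↔ w = 0 := by
  constructor
  · intro h
    funext b
    have h0 := congrFun h (finProdFinEquiv (b, 0))
    have h1 := congrFun h (finProdFinEquiv (b, 1))
    simp only [RI, Equiv.symm_apply_apply, if_true, Pi.zero_apply] at h0 h1
    rw [if_neg (by decide)] at h1
    exact Complex.ext h0 h1
  · rintro rfl
    funext a
    simp [RI]

/-- `RI` as a continuous real linear map. -/
theorem exists_RI_clm (m : ℕ) :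
    ∃ L : (Fin m → ℂ) →L[ℝ] (Fin (m * 2) → ℝ), ∀ w, L w = RI w := by
  refine ⟨ContinuousLinearMap.pi fun a =>
    if (finProdFinEquiv.symm a).2 = 0 then
      Complex.reCLM.comp (ContinuousLinearMap.proj (R := ℝ) (φ := fun _ : Fin m => ℂ)
        (finProdFinEquiv.symm a).1)
    else
      Complex.imCLM.comp (ContinuousLinearMap.proj (R := ℝ) (φ := fun _ : Fin m => ℂ)
        (finProdFinEquiv.symm a).1), fun w => ?_⟩
  funext a
  rw [ContinuousLinearMap.pi_apply]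
  unfold RI
  split_ifs <;> rfl

theorem radial_hasDerivAt (m : ℕ) {ψ : ℝ → ℝ} (hψ : ContDiff ℝ ∞ ψ) (r : ℝ) :
    HasDerivAt (fun r : ℝ => (r ^ 2 * ψ (r ^ 2)) ^ (m + 1) / (2 * (m + 1)))
      (r ^ (2 * m + 1) * PhiR m ψ (r ^ 2)) r := by
  have h1 : HasDerivAt (fun r : ℝ => r ^ 2) (2 * r) r := by
    simpa using hasDerivAt_pow 2 r
  have h2 : HasDerivAt ψ (deriv ψ (r ^ 2)) (r ^ 2) :=
    ((hψ.differentiable (by simp)) _).hasDerivAt
  have h3 : HasDerivAt (fun r : ℝ => ψ (r ^ 2)) (deriv ψ (r ^ 2) * (2 * r)) r :=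
    HasDerivAt.comp (h₂ := ψ) (h := fun r : ℝ => r ^ 2) r h2 h1
  have h4 := ((h1.fun_mul h3).fun_pow (m + 1)).div_const (2 * ((m : ℝ) + 1))
  refine h4.congr_deriv ?_
  have : (m : ℝ) + 1 ≠ 0 := by positivity
  simp only [PhiR, Nat.add_sub_cancel]
  push_cast
  field_simp
  ring

theorem radial_integral (m : ℕ) {ψ : ℝ → ℝ} (hψ : ContDiff ℝ ∞ ψ) {δ : ℝ} (hδ : 0 < δ)
    (h : ∀ ρ, δ ≤ ρ → ψ ρ = ρ⁻¹) :
    ∫ r in Set.Ioi (0 : ℝ), r ^ (2 * m + 1) * PhiR m ψ (r ^ 2) = 1 / (2 * ((m : ℝ) + 1)) := by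
  have hc : Continuous fun r : ℝ => r ^ (2 * m + 1) * PhiR m ψ (r ^ 2) := by
    have := continuous_PhiR m hψ
    fun_prop
  have hbig : ∀ r : ℝ, δ + 1 < r → δ < r ^ 2 := fun r hr => by nlinarith
  have hint : IntegrableOn (fun r : ℝ => r ^ (2 * m + 1) * PhiR m ψ (r ^ 2)) (Set.Ioi 0) := by
    have h1 : IntegrableOn (fun r : ℝ => r ^ (2 * m + 1) * PhiR m ψ (r ^ 2))
        (Set.Icc 0 (δ + 1)) := hc.continuousOn.integrableOn_compact isCompact_Icc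
    refine h1.of_forall_sdiff_eq_zero measurableSet_Ioi ?_
    rintro r ⟨hr0, hr1⟩
    have hr : δ + 1 < r := by
      by_contra hh
      exact hr1 ⟨le_of_lt hr0, not_lt.1 hh⟩
    rw [PhiR_eq_zero m hδ h (hbig r hr), mul_zero]
  have hlim : Tendsto (fun r : ℝ => (r ^ 2 * ψ (r ^ 2)) ^ (m + 1) / (2 * ((m : ℝ) + 1))) atTop
      (𝓝 (1 / (2 * ((m : ℝ) + 1)))) := by
    refine tendsto_const_nhds.congr' ?_
    filter_upwards [eventually_gt_atTop (δ + 1)] with r hr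
    have h2 := hbig r hr
    rw [h _ h2.le, mul_inv_cancel₀ (hδ.trans h2).ne', one_pow]
  rw [integral_Ioi_of_hasDerivAt_of_tendsto' (fun r _ => radial_hasDerivAt m hψ r) hint hlim]
  simp

/-- The radial integral. -/
theorem integral_PhiR (m : ℕ) {ψ : ℝ → ℝ} (hψ : ContDiff ℝ ∞ ψ) {δ : ℝ} (hδ : 0 < δ)
    (h : ∀ ρ, δ ≤ ρ → ψ ρ = ρ⁻¹) :
    ∫ w : Fin ((m + 1) * 2) → ℝ, PhiR m ψ (∑ a, w a ^ 2)
      = Real.pi ^ (m + 1) / ((m + 1).factorial : ℝ) := by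
  have e1 := (EuclideanSpace.volume_preserving_symm_measurableEquiv_toLp
    (Fin ((m + 1) * 2))).integral_comp' (fun w => PhiR m ψ (∑ a, w a ^ 2))
  rw [← e1]
  have e2 : ∀ x : EuclideanSpace ℝ (Fin ((m + 1) * 2)),
      PhiR m ψ (∑ a, ((MeasurableEquiv.toLp 2 (Fin ((m + 1) * 2) → ℝ)).symm x) a ^ 2)
        = (fun r : ℝ => PhiR m ψ (r ^ 2)) ‖x‖ := by
    intro x
    simp only [EuclideanSpace.real_norm_sq_eq]
    rfl
  simp only [e2]
  have hdim : Module.finrank ℝ (EuclideanSpace ℝ (Fin ((m + 1) * 2))) = 2 * (m + 1) := by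
    simp [mul_comm]
  have : Nontrivial (EuclideanSpace ℝ (Fin ((m + 1) * 2))) :=
    Module.nontrivial_of_finrank_pos (R := ℝ) (by rw [hdim]; omega)
  rw [integral_fun_norm_addHaar volume (fun r : ℝ => PhiR m ψ (r ^ 2)), Measure.real,
    InnerProductSpace.volume_ball_of_dim_even hdim, hdim]
  have e3 : 2 * (m + 1) - 1 = 2 * m + 1 := by omega
  simp only [e3, smul_eq_mul]
  rw [radial_integral m hψ hδ h]
  have hpos : 0 ≤ Real.pi ^ (m + 1) / ((m + 1).factorial : ℝ) := by positivity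
  rw [ENNReal.ofReal_one, one_pow, one_mul, ENNReal.toReal_ofReal hpos, nsmul_eq_mul]
  have : (m : ℝ) + 1 ≠ 0 := by positivity
  push_cast
  field_simp

end Pool.Agent.Lib.MP_b7c8b0_gt
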