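import Pool.Agent.Lib.MP_b7c8b0_gt.CoefDet

open scoped ContDiff Topology ComplexConjugate
open Filter MeasureTheory Matrix

noncomputable section

namespace Pool.Agent.Lib.MP_b7c8b0_gt

variable {ι : Type} [Fintype ι] [DecidableEq ι]

theorem top_add_pow {A : Type} [Ring A] {Y N : A} (hc : Y * N = N * Y) (h0 : N * N = 0) (m : ℕ) :
    (Y + N) ^ (m + 1) = Y ^ (m + 1) + ((m + 1 : ℕ) : A) * (N * Y ^ m) := by
  induction m with
  | zero => simp
  | succ m ih =>
    have h1 : N * Y ^ m * N = 0 := by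
      rw [mul_assoc, ((show Commute Y N from hc).pow_left m).eq, ← mul_assoc, h0, zero_mul]
    have h2 : Y ^ (m + 1) * N = N * Y ^ (m + 1) := ((show Commute Y N from hc).pow_left _).eq
    rw [pow_succ (Y + N), ih, add_mul, mul_add, mul_add, mul_assoc _ _ N, h1, h2, mul_zero,
      add_zero, mul_assoc _ _ Y, mul_assoc N, ← pow_succ, ← pow_succ, Nat.cast_succ (m + 1),
      add_mul, one_mul]
    abel

theorem top_kill {A : Type} [Ring A] {y x : A} (hyx : y * x = 0) (L : List A)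
    (hL : ∀ z ∈ L, ∀ w, z * w = w * z) (hx : x ∈ L) : y * L.prod = 0 := by
  induction L with
  | nil => simp at hx
  | cons z L ih =>
    rw [List.prod_cons]
    rcases List.mem_cons.mp hx with rfl | h
    · rw [← mul_assoc, hyx, zero_mul]
    · rw [hL z List.mem_cons_self, ← mul_assoc,
        ih (fun u hu => hL u (List.mem_cons_of_mem _ hu)) h, zero_mul]

theorem top_prod_smul {A : Type} [Ring A] [Algebra ℂ A] (c : ℂ) {n : ℕ} (f : Fin n → A) :
    (List.ofFn fun a => c • f a).prod = c ^ n • (List.ofFn f).prod := by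
  induction n with
  | zero => simp
  | succ n ih =>
    rw [List.ofFn_succ, List.ofFn_succ, List.prod_cons, List.prod_cons, ih, smul_mul_smul_comm,
      pow_succ']

theorem top_prod_pair {A : Type} [Ring A] {n : ℕ} (g : Fin (n * 2) → A) :
    (List.ofFn g).prod = (List.ofFn fun a : Fin n =>
      g (finProdFinEquiv (a, 0)) * g (finProdFinEquiv (a, 1))).prod := by
  rw [List.ofFn_mul, List.prod_flatten, List.map_ofFn]
  refine congrArg List.prod (congrArg List.ofFn (funext fun a => ?_))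
  simp only [Function.comp_apply, List.ofFn_succ, List.ofFn_zero, List.prod_cons, List.prod_nil,
    mul_one]
  refine congrArg₂ (· * ·) (congrArg g (Fin.ext ?_)) (congrArg g (Fin.ext ?_))
  · simp [finProdFinEquiv, mul_comm]
  · simp [finProdFinEquiv, mul_comm, add_comm]

/-- The algebraic core. -/
theorem top_alg {m : ℕ} (W V : Fin (m + 1) → Sm ι) (S S' : Sm ι)
    (hS : dd (fn S) = fn S' * dd (fn (∑ b, W b * V b))) :
    dd (th (fun a => S * W a) V) ^ (m + 1) =
      fn ((((m + 1).factorial : ℕ) : Sm ι) * (S ^ (m + 1) + (∑ b, W b * V b) * S ^ m * S')) *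
        (List.ofFn fun a => dd (fn (W a)) * dd (fn (V a))).prod := by
  obtain ⟨β, hβ⟩ : ∃ β, β = ∑ a, fn (W a) * dd (fn (V a)) := ⟨_, rfl⟩
  obtain ⟨γ, hγ⟩ : ∃ γ, γ = ∑ a, fn (V a) * dd (fn (W a)) := ⟨_, rfl⟩
  obtain ⟨x, hx⟩ : ∃ x : Fin (m + 1) → Om ι, x = fun a => dd (fn (W a)) * dd (fn (V a)) :=
    ⟨_, rfl⟩
  have hodd : ∀ f g : Fin (m + 1) → Sm ι,
      sg (∑ a, fn (f a) * dd (fn (g a))) = -∑ a, fn (f a) * dd (fn (g a)) := by
    intro f g
    simp only [map_sum, map_mul, sg_fn, sg_dd_fn, mul_neg, Finset.sum_neg_distrib]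
  have hβo : sg β = -β := hβ ▸ hodd W V
  have hγo : sg γ = -γ := hγ ▸ hodd V W
  have anti : ∀ f g : Sm ι, dd (fn f) * dd (fn g) = -(dd (fn g) * dd (fn f)) := by
    intro f g
    rw [od_comm (sg_dd_fn f), sg_dd_fn, neg_mul]
  have sq : ∀ f : Sm ι, dd (fn f) * dd (fn f) = 0 := fun f => od_sq (sg_dd_fn f)
  have even : ∀ f g : Sm ι, ∀ w, dd (fn f) * dd (fn g) * w = w * (dd (fn f) * dd (fn g)) := by
    intro f g
    refine ev_comm ?_
    rw [map_mul, sg_dd_fn, sg_dd_fn, neg_mul_neg]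
  have k1 : ∀ f g h : Sm ι, dd (fn f) * dd (fn g) * (dd (fn f) * dd (fn h)) = 0 := by
    intro f g h
    rw [anti f g, neg_mul, mul_assoc, ← mul_assoc (dd (fn f)), sq, zero_mul, mul_zero, neg_zero]
  have k2 : ∀ f g h : Sm ι, dd (fn f) * dd (fn g) * (dd (fn h) * dd (fn g)) = 0 := by
    intro f g h
    rw [anti h g, mul_neg, mul_assoc, ← mul_assoc (dd (fn g)), sq, zero_mul, mul_zero, neg_zero]
  have hxe : ∀ a w, x a * w = w * x a := fun a => hx ▸ even _ _
  have hxc : ∀ a b, Commute (x a) (x b) := fun a b => hxe a _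
  have hx0 : ∀ a, x a * x a = 0 := fun a => hx ▸ k1 _ _ _
  have hth : th (fun a => S * W a) V = fn S * β := by
    simp only [th, hβ, Finset.mul_sum, map_mul, mul_assoc]
  have hdβ : dd β = ∑ a, x a := by
    simp only [hβ, hx, map_sum, dd_mul, dd_dd, mul_zero, add_zero]
  have hdρ : dd (fn (∑ b, W b * V b)) = γ + β := by
    simp only [hβ, hγ, map_sum, dd_fn_mul, ← Finset.sum_add_distrib, ← fn_comm]
  have hd : dd (th (fun a => S * W a) V) = fn S * ∑ a, x a + fn S' * (γ * β) := by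
    rw [hth, dd_mul, hS, hdρ, sg_fn, hdβ, mul_assoc, add_mul, od_sq hβo, add_zero, add_comm]
  have hN : ∀ w, γ * β * w = w * (γ * β) := ev_comm (by rw [map_mul, hβo, hγo, neg_mul_neg])
  have hNN : γ * β * (γ * β) = 0 := by
    rw [mul_assoc, ← mul_assoc β, od_comm hβo γ, hγo, neg_mul, neg_mul, mul_assoc, od_sq hβo]
    simp
  have hmix : γ * β * (∑ a, x a) ^ m =
      fn (∑ b, W b * V b) * ((m.factorial : Om ι) * (List.ofFn x).prod) := by
    rw [hγ, hβ, Finset.sum_mul_sum, Finset.sum_mul, map_sum, Finset.sum_mul]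
    refine Finset.sum_congr rfl fun a _ => ?_
    have e : ∀ b, fn (V a) * dd (fn (W a)) * (fn (W b) * dd (fn (V b))) =
        fn (W b * V a) * (dd (fn (W a)) * dd (fn (V b))) := by
      intro b
      rw [mul_comm (W b), map_mul, mul_assoc, mul_assoc, ← mul_assoc (dd _), ← fn_comm (W b),
        mul_assoc]
    simp only [e]
    rw [Finset.sum_mul, Finset.sum_eq_single a _ (by simp), mul_assoc,
      ← mul_sum_pow_sq_zero x hxc hx0 a, hx]
    intro b _ hb
    rw [mul_assoc, sum_pow_pred_sq_zero x hxc hx0,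
      ← (Nat.cast_commute m.factorial (dd (fn (W a)) * dd (fn (V b)))).left_comm,
      Finset.mul_sum, Finset.sum_eq_zero, mul_zero, mul_zero]
    intro c _
    have hL : ∀ z ∈ List.ofFn fun b => x (c.succAbove b), ∀ w, z * w = w * z := by
      intro z hz
      obtain ⟨i, rfl⟩ := List.mem_ofFn.mp hz
      exact hxe _
    by_cases hac : a = c
    · obtain ⟨i, hi⟩ := Fin.exists_succAbove_eq (show b ≠ c from hac ▸ hb)
      exact top_kill (x := x b) (hx ▸ k2 _ _ _) _ hL (List.mem_ofFn.mpr ⟨i, by rw [hi]⟩)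
    · obtain ⟨i, hi⟩ := Fin.exists_succAbove_eq hac
      exact top_kill (x := x a) (hx ▸ k1 _ _ _) _ hL (List.mem_ofFn.mpr ⟨i, by rw [hi]⟩)
  have hNe : ∀ w, fn S' * (γ * β) * w = w * (fn S' * (γ * β)) := by
    intro w
    rw [mul_assoc, hN, ← mul_assoc, fn_comm, mul_assoc]
  have hcm : Commute (fn S : Om ι) (∑ a, x a) := fn_comm _ _
  rw [hd, top_add_pow (hNe _).symm, hcm.mul_pow, hcm.mul_pow, sum_pow_sq_zero x hxc hx0, ← hx]
  · rw [mul_assoc (fn S'), ← map_pow, ← map_pow, ← mul_assoc (γ * β), ← fn_comm (S ^ m),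
      mul_assoc (fn (S ^ m)), hmix, ← map_natCast (fn : Sm ι →ₐ[ℂ] Om ι),
      ← map_natCast (fn : Sm ι →ₐ[ℂ] Om ι), ← map_natCast (fn : Sm ι →ₐ[ℂ] Om ι)]
    simp only [← mul_assoc, ← map_mul]
    rw [← add_mul, ← map_add]
    refine congrArg (fun f => fn f * (List.ofFn x).prod) ?_
    rw [Nat.factorial_succ]
    push_cast
    ring
  · rw [mul_assoc, ← mul_assoc (γ * β), ← fn_comm S', mul_assoc, hNN, mul_zero, mul_zero]

/-- A real smooth function as an element of `Sm`. -/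
def topR (r : (ι → ℝ) → ℝ) (hr : ContDiff ℝ ∞ r) : Sm ι :=
  ⟨fun x => (r x : ℂ), show ContDiff ℝ ∞ (Complex.ofRealCLM ∘ r) from
    Complex.ofRealCLM.contDiff.comp hr⟩

theorem top_pd (r : (ι → ℝ) → ℝ) (hr : ContDiff ℝ ∞ r) (i : ι) (x : ι → ℝ) :
    (pd i (topR r hr)).1 x = ((fderiv ℝ r x (Pi.single i 1) : ℝ) : ℂ) := by
  have h := (Complex.ofRealCLM.hasFDerivAt.comp x
    ((hr.differentiable (by simp)) x).hasFDerivAt).fderiv
  rw [pd_apply]
  change fderiv ℝ (Complex.ofRealCLM ∘ r) x _ = _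
  rw [h]
  rfl

theorem top_chain (r : (ι → ℝ) → ℝ) (hr : ContDiff ℝ ∞ r) (ψ : ℝ → ℝ) (hψ : ContDiff ℝ ∞ ψ)
    (hψ' : ContDiff ℝ ∞ (deriv ψ)) :
    dd (fn (topR (ψ ∘ r) (hψ.comp hr))) =
      fn (topR (deriv ψ ∘ r) (hψ'.comp hr)) * dd (fn (topR r hr)) := by
  rw [dd_fn, dd_fn, Finset.mul_sum]
  refine Finset.sum_congr rfl fun i _ => ?_
  rw [← mul_assoc, ← map_mul]
  refine congrArg (fun f => fn f * eps i) (Subtype.ext (funext fun x => ?_))
  have h := (((hψ.differentiable (by simp)) (r x)).hasDerivAt.comp_hasFDerivAt x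
    ((hr.differentiable (by simp)) x).hasFDerivAt).fderiv
  change _ = ((deriv ψ (r x) : ℝ) : ℂ) * (pd i (topR r hr)).1 x
  rw [top_pd, top_pd, h]
  simp

/-- Evaluation at a point. -/
def topEv (x : ι → ℝ) : Sm ι →+* ℂ :=
  (Pi.evalRingHom (fun _ : ι → ℝ => ℂ) x).comp (Sm ι).val.toRingHom

/-- The top coefficient of `(dϑ)^(m+1)` for `ϑ = ψ(|V|²) ∑ conj V_a dV_a`. -/
theorem top_coef {m : ℕ} (v : Fin ((m + 1) * 2) → ι) (hv : Function.Injective v)
    (ψ : ℝ → ℝ) (hψ : ContDiff ℝ ∞ ψ) (U V : Fin (m + 1) → Sm ι)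
    (hU : ∀ a x, (U a).1 x = (ψ (∑ b, Complex.normSq ((V b).1 x)) : ℂ) * conj ((V a).1 x))
    (x : ι → ℝ) :
    (coef (List.ofFn v) (dd (th U V) ^ (m + 1))).1 x
      = ((m + 1).factorial : ℂ) * (2 * Complex.I) ^ (m + 1) *
        ((PhiR m ψ (∑ b, Complex.normSq ((V b).1 x)) *
          (Matrix.of fun a b : Fin ((m + 1) * 2) =>
            fderiv ℝ (fun y => RI (fun c => (V c).1 y) a) x (Pi.single (v b) 1)).det : ℝ) : ℂ) := by
  have hre : ∀ a, ContDiff ℝ ∞ fun y => ((V a).1 y).re := fun a =>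
    Complex.reCLM.contDiff.comp (Sm.smooth (V a))
  have him : ∀ a, ContDiff ℝ ∞ fun y => ((V a).1 y).im := fun a =>
    Complex.imCLM.contDiff.comp (Sm.smooth (V a))
  have hRI : ∀ k, ContDiff ℝ ∞ fun y => RI (fun c => (V c).1 y) k := by
    intro k
    unfold RI
    split_ifs
    · exact hre _
    · exact him _
  have hr : ContDiff ℝ ∞ fun y => ∑ b, Complex.normSq ((V b).1 y) := by
    simp only [Complex.normSq_apply]
    exact ContDiff.sum fun b _ => ((hre b).mul (hre b)).add ((him b).mul (him b))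
  have hψ' : ContDiff ℝ ∞ (deriv ψ) := hψ.iterate_deriv 1
  obtain ⟨R, hR⟩ : ∃ R : Fin ((m + 1) * 2) → Sm ι, R = fun k => topR _ (hRI k) := ⟨_, rfl⟩
  obtain ⟨X, hX⟩ : ∃ X : Fin (m + 1) → Sm ι, X = fun a => R (finProdFinEquiv (a, 0)) := ⟨_, rfl⟩
  obtain ⟨Y, hY⟩ : ∃ Y : Fin (m + 1) → Sm ι, Y = fun a => R (finProdFinEquiv (a, 1)) := ⟨_, rfl⟩
  have hXv : ∀ a y, (X a).1 y = (((V a).1 y).re : ℂ) := by
    intro a y
    simp only [hX, hR, topR, RI, Equiv.symm_apply_apply, if_true]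
  have hYv : ∀ a y, (Y a).1 y = (((V a).1 y).im : ℂ) := by
    intro a y
    simp only [hY, hR, topR, RI, Equiv.symm_apply_apply, if_neg (show (1 : Fin 2) ≠ 0 by simp)]
  obtain ⟨W, hW⟩ : ∃ W : Fin (m + 1) → Sm ι, W = fun a => X a - Complex.I • Y a := ⟨_, rfl⟩
  have hWv : ∀ a y, (W a).1 y = conj ((V a).1 y) := by
    intro a y
    rw [hW]
    change (X a).1 y - Complex.I * (Y a).1 y = _
    rw [hXv, hYv]
    apply Complex.ext <;> simp
  have hV : ∀ a, V a = X a + Complex.I • Y a := by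
    intro a
    refine Subtype.ext (funext fun y => ?_)
    change _ = (X a).1 y + Complex.I * (Y a).1 y
    rw [hXv, hYv, mul_comm, Complex.re_add_im]
  have hρ : ∑ b, W b * V b = topR _ hr := by
    refine Subtype.ext (funext fun y => ?_)
    change topEv y (∑ b, W b * V b) = ((∑ b, Complex.normSq ((V b).1 y) : ℝ) : ℂ)
    rw [map_sum, Complex.ofReal_sum]
    refine Finset.sum_congr rfl fun b _ => ?_
    change (W b).1 y * (V b).1 y = _
    rw [hWv, Complex.normSq_eq_conj_mul_self]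
  have hUe : U = fun a => topR (ψ ∘ _) (hψ.comp hr) * W a := by
    refine funext fun a => Subtype.ext (funext fun y => ?_)
    rw [hU, ← hWv]
    rfl
  have hpair : ∀ a, dd (fn (W a)) * dd (fn (V a)) =
      (2 * Complex.I) • (dd (fn (X a)) * dd (fn (Y a))) := by
    intro a
    have h1 := od_sq (sg_dd_fn (X a))
    have h2 := od_sq (sg_dd_fn (Y a))
    have h3 : dd (fn (Y a)) * dd (fn (X a)) = -(dd (fn (X a)) * dd (fn (Y a))) := by
      rw [od_comm (sg_dd_fn (Y a)), sg_dd_fn, neg_mul]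
    rw [hV a, hW]
    simp only [map_sub, map_add, map_smul, sub_mul, mul_add, mul_smul_comm, smul_mul_assoc, h1, h2,
      h3, smul_zero, smul_neg, two_mul, add_smul]
    simp
  rw [hUe, top_alg W V _ (topR (deriv ψ ∘ _) (hψ'.comp hr))
    (by rw [hρ, top_chain _ hr ψ hψ hψ']), hρ]
  simp only [hpair]
  rw [top_prod_smul, hX, hY, ← top_prod_pair fun k => dd (fn (R k)), coef_fn_mul, map_smul,
    coef_det_dd v hv]
  change topEv x (_ * _) = _
  rw [map_mul, Algebra.smul_def, map_mul _ (algebraMap _ _ _), RingHom.map_det, Complex.ofReal_mul,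
    ← Complex.ofRealHom_eq_coe (Matrix.det _), RingHom.map_det]
  have hm : (topEv x).mapMatrix (Matrix.of fun a b => pd (v b) (R a)) =
      Complex.ofRealHom.mapMatrix (Matrix.of fun a b : Fin ((m + 1) * 2) =>
        fderiv ℝ (fun y => RI (fun c => (V c).1 y) a) x (Pi.single (v b) 1)) := by
    ext a b
    rw [hR]
    exact top_pd _ (hRI a) _ _
  have he : ∀ (r : (ι → ℝ) → ℝ) (h : ContDiff ℝ ∞ r), topEv x (topR r h) = (r x : ℂ) :=
    fun _ _ => rfl
  have hc : ∀ c : ℂ, topEv x (algebraMap ℂ (Sm ι) c) = c := fun _ => rfl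
  rw [hm, hc]
  simp only [map_mul, map_add, map_pow, map_natCast, he, PhiR, Function.comp_apply]
  push_cast
  ring

end Pool.Agent.Lib.MP_b7c8b0_gt
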