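import Pool.Agent.Lib.MP_b7c8b0_gt.HDefs
import Pool.Agent.Lib.MP_b7c8b0_gt.Bott
import Pool.Agent.Lib.MP_b7c8b0_gt.Euler
import Pool.Agent.Lib.MP_b7c8b0_gt.UV
import Pool.Agent.Lib.MP_b7c8b0_gt.Top
import Pool.Agent.Lib.MP_b7c8b0_gt.Radial
import Pool.Agent.Lib.MP_b7c8b0_gt.DegInt

open scoped ContDiff Topology ComplexConjugate
open Filter MeasureTheory Matrix

noncomputable section

namespace Pool.Agent.Lib.MP_b7c8b0_gt

theorem be_fract_near {r : ℝ} {n : ℤ} (h : |r - n| < 1 / 4) :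
    Int.fract r ≤ 1 / 4 ∨ 3 / 4 ≤ Int.fract r := by
  obtain ⟨h1, h2⟩ := abs_lt.1 h
  rcases le_or_gt (n : ℝ) r with h3 | h3
  · left
    have : ⌊r⌋ = n := Int.floor_eq_iff.2 ⟨h3, by linarith⟩
    rw [Int.fract, this]; linarith
  · right
    have : ⌊r⌋ = n - 1 := Int.floor_eq_iff.2 ⟨by push_cast; linarith, by push_cast; linarith⟩
    rw [Int.fract, this]; push_cast; linarith

/-- Periodisation of a family that is constant on the outer region. -/
theorem contDiff_fract {k : ℕ} {E F : Type} [NormedAddCommGroup E] [NormedSpace ℝ E]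
    [NormedAddCommGroup F] [NormedSpace ℝ F] {f : E × YY k → F} (hf : ContDiff ℝ ∞ f)
    (ho : ∀ s y, Out y → f (s, y) = f (s, 0)) :
    ContDiff ℝ ∞ fun p : E × YY k => f (p.1, fun i => Int.fract (p.2 i)) := by
  rw [contDiff_iff_contDiffAt]
  intro p
  by_cases h : ∃ i, ∃ n : ℤ, |p.2 i - n| < 1 / 4
  · obtain ⟨i, n, hi⟩ := h
    have hc : Continuous fun q : E × YY k => |q.2 i - n| := by fun_prop
    have hev : ∀ᶠ q : E × YY k in 𝓝 p, |q.2 i - n| < 1 / 4 :=
      hc.continuousAt.eventually_lt continuousAt_const hi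
    have h0 : ContDiff ℝ ∞ fun q : E × YY k => f (q.1, 0) :=
      hf.comp (contDiff_fst.prodMk contDiff_const)
    refine h0.contDiffAt.congr_of_eventuallyEq (hev.mono fun q hq => ?_)
    exact ho _ _ ⟨i, be_fract_near hq⟩
  · have hev : ∀ᶠ q : E × YY k in 𝓝 p, ∀ i, ⌊q.2 i⌋ = ⌊p.2 i⌋ := by
      refine eventually_all.2 fun i => ?_
      have hc : Continuous fun q : E × YY k => q.2 i := by fun_prop
      have h1 : (⌊p.2 i⌋ : ℝ) < p.2 i := by
        refine lt_of_le_of_ne (Int.floor_le _) fun h2 => h ⟨i, ⌊p.2 i⌋, ?_⟩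
        rw [h2]; norm_num
      have h2 : p.2 i < (⌊p.2 i⌋ : ℝ) + 1 := Int.lt_floor_add_one _
      filter_upwards [continuousAt_const.eventually_lt hc.continuousAt h1,
        hc.continuousAt.eventually_lt continuousAt_const h2] with q hq1 hq2
      exact Int.floor_eq_iff.2 ⟨hq1.le, hq2⟩
    have h0 : ContDiff ℝ ∞ fun q : E × YY k => f (q.1, q.2 - fun i => (⌊p.2 i⌋ : ℝ)) :=
      hf.comp (contDiff_fst.prodMk (contDiff_snd.sub contDiff_const))
    refine h0.contDiffAt.congr_of_eventuallyEq (hev.mono fun q hq => ?_)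
    have : (fun i => Int.fract (q.2 i)) = q.2 - fun i => (⌊p.2 i⌋ : ℝ) := by
      funext i
      rw [Int.fract, hq i]; rfl
    simp only [this]

/-- Dropping one variable of the unit cube. -/
theorem be_drop {κ : Type} [Fintype κ] (F : (κ → ℝ) → ℝ) (hF : Continuous F) :
    ∫ x in Set.Icc (0 : Option κ → ℝ) 1, F (fun i => x (some i)) =
      ∫ z in Set.Icc (0 : κ → ℝ) 1, F z := by
  have hr : ∀ (β : Type) [Fintype β], (volume : Measure (β → ℝ)).restrict (Set.Icc 0 1) =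
      Measure.pi fun _ => (volume : Measure ℝ).restrict (Set.Icc 0 1) := by
    intro β _
    rw [← Set.pi_univ_Icc, volume_pi, Measure.restrict_pi_pi]
    rfl
  have hm : Measurable fun (x : Option κ → ℝ) (i : κ) => x (some i) := by fun_prop
  have hmap : Measure.map (fun (x : Option κ → ℝ) (i : κ) => x (some i))
      (Measure.pi fun _ => (volume : Measure ℝ).restrict (Set.Icc 0 1)) =
      Measure.pi fun _ => (volume : Measure ℝ).restrict (Set.Icc 0 1) := by
    refine (Measure.pi_eq fun s hs => ?_).symm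
    rw [Measure.map_apply hm (MeasurableSet.univ_pi hs)]
    have : (fun (x : Option κ → ℝ) (i : κ) => x (some i)) ⁻¹' (Set.univ.pi s) =
        Set.univ.pi fun o : Option κ => o.elim Set.univ s := by
      ext x
      simp [Option.forall]
    rw [this, Measure.pi_pi, Fintype.prod_option]
    simp
  rw [hr, hr, ← hmap, integral_map hm.aemeasurable hF.aestronglyMeasurable]

/-- Splitting off the first coordinate. -/
def beP {k N : ℕ} (h : k + 1 = N) : (Fin N → ℝ) →L[ℝ] ℝ × YY k :=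
  (ContinuousLinearMap.proj (Fin.cast h 0)).prod
    (ContinuousLinearMap.pi fun i => ContinuousLinearMap.proj (Fin.cast h i.succ))

theorem beP_fst {k N : ℕ} (h : k + 1 = N) (z : Fin N → ℝ) : (beP h z).1 = z (Fin.cast h 0) := rfl

theorem beP_snd {k N : ℕ} (h : k + 1 = N) (z : Fin N → ℝ) (i : Fin k) :
    (beP h z).2 i = z (Fin.cast h i.succ) := rfl

theorem be_forall {k N : ℕ} (h : k + 1 = N) {Q : Fin N → Prop} (h0 : Q (Fin.cast h 0))
    (h1 : ∀ i : Fin k, Q (Fin.cast h i.succ)) (j : Fin N) : Q j := by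
  subst h
  exact Fin.cases h0 h1 j

theorem beP_inj {k N : ℕ} (h : k + 1 = N) : Function.Injective (beP h) := by
  intro z z' H
  funext j
  refine be_forall h (Q := fun j => z j = z' j) ?_ (fun i => ?_) j
  · exact congrArg Prod.fst H
  · exact congrFun (congrArg Prod.snd H) i

theorem beP_surj {k N : ℕ} (h : k + 1 = N) : Function.Surjective (beP h) := by
  subst h
  intro p
  exact ⟨Fin.cons p.1 p.2, rfl⟩

theorem be_fract_cube {k : ℕ} {F : Type} {f : YY k → F} (ho : ∀ y, Out y → f y = f 0) {y : YY k}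
    (hy : ∀ i, 0 ≤ y i ∧ y i ≤ 1) : f (fun i => Int.fract (y i)) = f y := by
  by_cases h : ∃ i, y i = 1
  · obtain ⟨i, hi⟩ := h
    rw [ho y ⟨i, Or.inr (by rw [hi]; norm_num)⟩, ho _ ⟨i, Or.inl (by simp [hi])⟩]
  · congr 1
    funext i
    exact Int.fract_eq_self.2 ⟨(hy i).1, lt_of_le_of_ne (hy i).2 fun h1 => h ⟨i, h1⟩⟩

/-- The degree of the filling. -/
theorem be_deg {k m : ℕ} (h : k + 1 = (m + 1) * 2)
    {A : YY k → Matrix (Fin (m + 1)) (Fin (m + 1)) ℂ} {j0 : Fin (m + 1)}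
    {W : ℝ × YY k → (Fin (m + 1) → ℂ)} {Z : Finset (ℝ × YY k)} (hW : Fill A j0 W Z)
    (Θ : (Fin ((m + 1) * 2) → ℝ) → (Fin ((m + 1) * 2) → ℝ)) (hΘ : ContDiff ℝ 1 Θ)
    (hΘW : ∀ z, Θ z = RI (W ((beP h z).1, fun i => Int.fract ((beP h z).2 i)))) :
    ∃ ε : ℝ, 0 < ε ∧ ∃ d : ℤ, d ≡ (Z.card : ℤ) [ZMOD 2] ∧
      ∀ φ : (Fin ((m + 1) * 2) → ℝ) → ℝ, Continuous φ → (∀ w, ε ≤ ‖w‖ → φ w = 0) →
        ∫ x in Set.Icc (0 : Fin ((m + 1) * 2) → ℝ) 1, φ (Θ x) * (fderiv ℝ Θ x).det
          = d * ∫ w, φ w := by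
  have hcube : ∀ z ∈ Set.Icc (0 : Fin ((m + 1) * 2) → ℝ) 1, Θ z = RI (W (beP h z)) := by
    intro z hz
    rw [hΘW, be_fract_cube (f := fun y => W ((beP h z).1, y)) (y := (beP h z).2) (hW.out _)
      (fun i => ⟨hz.1 _, hz.2 _⟩)]
  have hmem : ∀ z, (z ∈ Set.Icc (0 : Fin ((m + 1) * 2) → ℝ) 1 ∧ Θ z = 0) ↔ beP h z ∈ Z := by
    intro z
    constructor
    · rintro ⟨hz, h0⟩
      rw [hcube z hz, RI_eq_zero] at h0
      exact (hW.mem _).2 ⟨⟨hz.1 _, hz.2 _⟩, h0⟩
    · intro hz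
      obtain ⟨h1, h2, h3, -⟩ := hW.reg _ hz
      have h4 : ∀ i, 1 / 4 < (beP h z).2 i ∧ (beP h z).2 i < 3 / 4 := fun i =>
        ⟨not_le.1 fun h5 => h3 ⟨i, Or.inl h5⟩, not_le.1 fun h5 => h3 ⟨i, Or.inr h5⟩⟩
      have h5 : z ∈ Set.Icc (0 : Fin ((m + 1) * 2) → ℝ) 1 := by
        refine ⟨be_forall h h1.le fun i => ?_, be_forall h h2.le fun i => ?_⟩
        · exact le_trans (by norm_num) (h4 i).1.le
        · exact le_trans (h4 i).2.le (by norm_num)
      refine ⟨h5, ?_⟩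
      rw [hcube z h5, RI_eq_zero]
      exact ((hW.mem _).1 hz).2
  obtain ⟨L, hL⟩ := exists_RI_clm (m + 1)
  obtain ⟨-, ε, hε, d, hd, hint⟩ := deg_int (0 : Fin ((m + 1) * 2) → ℝ) 1 Θ hΘ (by
    intro z hz h0
    obtain ⟨h1, h2, h3, hinj⟩ := hW.reg _ ((hmem z).1 ⟨hz, h0⟩)
    have h4 : ∀ i, 1 / 4 < (beP h z).2 i ∧ (beP h z).2 i < 3 / 4 := fun i =>
      ⟨not_le.1 fun h5 => h3 ⟨i, Or.inl h5⟩, not_le.1 fun h5 => h3 ⟨i, Or.inr h5⟩⟩
    have h5 : ∀ j, (0 : Fin ((m + 1) * 2) → ℝ) j < z j ∧ z j < (1 : Fin ((m + 1) * 2) → ℝ) j := by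
      refine be_forall h ⟨h1, h2⟩ fun i => ⟨?_, ?_⟩
      · exact lt_trans (by norm_num) (h4 i).1
      · exact lt_trans (h4 i).2 (by norm_num)
    refine ⟨h5, ?_⟩
    have hev : Θ =ᶠ[𝓝 z] fun x => L (W (beP h x)) := by
      filter_upwards [pi_Icc_mem_nhds' (fun j => (h5 j).1) (fun j => (h5 j).2)] with x hx
      rw [hcube x hx, hL]
    have hd : HasFDerivAt (fun x => L (W (beP h x)))
        (L.comp ((fderiv ℝ W (beP h z)).comp (beP h))) z :=
      L.hasFDerivAt.comp z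
        (((hW.smooth.differentiable (by simp)) _).hasFDerivAt.comp z (beP h).hasFDerivAt)
    rw [hev.fderiv_eq, hd.fderiv]
    intro hdet
    refine LinearMap.det_eq_zero_iff_ker_ne_bot.1 hdet (LinearMap.ker_eq_bot'.2 fun v hv => ?_)
    have h6 : RI (fderiv ℝ W (beP h z) (beP h v)) = 0 := by rw [← hL]; exact hv
    rw [RI_eq_zero, ← map_zero (fderiv ℝ W (beP h z))] at h6
    exact beP_inj h ((hinj h6).trans (map_zero _).symm))
  refine ⟨ε, hε, d, ?_, hint⟩
  have hS : (Z : Set (ℝ × YY k)) =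
      beP h '' {x | x ∈ Set.Icc (0 : Fin ((m + 1) * 2) → ℝ) 1 ∧ Θ x = 0} := by
    ext p
    obtain ⟨z, rfl⟩ := beP_surj h p
    rw [(beP_inj h).mem_set_image]
    exact (hmem z).symm
  rwa [← Set.ncard_coe_finset Z, hS, Set.ncard_image_of_injective _ (beP_inj h)]

/-- Restriction to the variables `some i`. -/
def beR (κ : Type) : (Option κ → ℝ) →L[ℝ] (κ → ℝ) :=
  ContinuousLinearMap.pi fun i => ContinuousLinearMap.proj (some i)

theorem be_det {κ : Type} [Fintype κ] [DecidableEq κ] (Θ : (κ → ℝ) → (κ → ℝ))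
    (hΘ : ContDiff ℝ 1 Θ) (x : Option κ → ℝ) :
    (Matrix.of fun a b : κ =>
      fderiv ℝ (fun y => Θ (beR κ y) a) x (Pi.single (some b) 1)).det =
      (fderiv ℝ Θ (beR κ x)).det := by
  rw [ContinuousLinearMap.det, ← LinearMap.det_toMatrix']
  congr 1
  ext a b
  have hd : HasFDerivAt (fun y => Θ (beR κ y) a)
      ((ContinuousLinearMap.proj a : (κ → ℝ) →L[ℝ] ℝ).comp
        ((fderiv ℝ Θ (beR κ x)).comp (beR κ))) x :=
    (ContinuousLinearMap.proj a : (κ → ℝ) →L[ℝ] ℝ).hasFDerivAt.comp x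
      (((hΘ.differentiable (by simp)) _).hasFDerivAt.comp x (beR κ).hasFDerivAt)
  have h1 : beR κ (Pi.single (some b) 1) = Pi.single b 1 := by
    funext i
    simp [beR, Pi.single_apply]
  rw [Matrix.of_apply, hd.fderiv, LinearMap.toMatrix'_apply]
  simp [h1]

theorem be_delta {k n : ℕ} {A : YY k → Matrix (Fin n) (Fin n) ℂ} (hA : SmGood A) (j0 : Fin n) :
    ∃ δ : ℝ, 0 < δ ∧ ∀ y : YY k, δ ≤ ∑ b, Complex.normSq (A (fun i => Int.fract (y i)) b j0) := by
  have hc : Continuous fun y : YY k => ∑ b, Complex.normSq (A y b j0) :=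
    continuous_finsetSum _ fun b _ => Complex.continuous_normSq.comp (hA.smooth b j0).continuous
  obtain ⟨y0, -, hy0⟩ := (isCompact_Icc (a := (0 : YY k)) (b := 1)).exists_isMinOn
    ⟨0, le_rfl, zero_le_one⟩ hc.continuousOn
  refine ⟨_, ?_, fun y => hy0 ⟨fun i => Int.fract_nonneg _, fun i => (Int.fract_lt_one _).le⟩⟩
  refine lt_of_le_of_ne (Finset.sum_nonneg fun b _ => Complex.normSq_nonneg _) fun h0 => ?_
  have h1 := (Finset.sum_eq_zero_iff_of_nonneg fun b _ => Complex.normSq_nonneg _).1 h0.symm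
  exact hA.det y0 (Matrix.det_eq_zero_of_column_eq_zero j0 fun b =>
    Complex.normSq_eq_zero.1 (h1 b (Finset.mem_univ _)))

/-- Bott's divisibility: the column of an invertible matrix family has even degree. -/
theorem bott_even {k m : ℕ} (hm : 2 ≤ m) (hk : k = 2 * m + 1)
    {A : YY k → Matrix (Fin (m + 1)) (Fin (m + 1)) ℂ} (hA : SmGood A) {j0 : Fin (m + 1)}
    {W : ℝ × YY k → (Fin (m + 1) → ℂ)} {Z : Finset (ℝ × YY k)} (hW : Fill A j0 W Z) :
    Even Z.card := by
  have h : k + 1 = (m + 1) * 2 := by omega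
  have hWs := contDiff_fract hW.smooth hW.out
  have hAs : ∀ a b, ContDiff ℝ ∞ fun p : ℝ × YY k => A (fun i => Int.fract (p.2 i)) a b :=
    fun a b => contDiff_fract (E := ℝ) (f := fun p => A p.2 a b)
      ((hA.smooth a b).comp contDiff_snd) (fun s y hy => by simp only [hA.out y hy])
  obtain ⟨L, hL⟩ := exists_RI_clm (m + 1)
  set Θ : (Fin ((m + 1) * 2) → ℝ) → (Fin ((m + 1) * 2) → ℝ) :=
    fun z => RI (W ((beP h z).1, fun i => Int.fract ((beP h z).2 i))) with hΘdef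
  have hΘ : ContDiff ℝ 1 Θ := by
    have : Θ = fun z => L (W ((beP h z).1, fun i => Int.fract ((beP h z).2 i))) := by
      funext z; rw [hL]
    rw [this]
    exact (L.contDiff.comp (hWs.comp (beP h).contDiff)).of_le (by simp)
  obtain ⟨ε, hε, d', hd', hint⟩ := be_deg h hW Θ hΘ (fun z => rfl)
  obtain ⟨δ0, hδ0, hδA⟩ := be_delta hA j0
  have hδ : 0 < min δ0 (ε ^ 2 / 2) := lt_min hδ0 (by positivity)
  obtain ⟨ψ, hψ, hψδ⟩ := exists_psi hδ
  have hI := hint (fun w => PhiR m ψ (∑ a, w a ^ 2))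
    ((continuous_PhiR m hψ).comp (by fun_prop)) (by
      intro w hw
      refine PhiR_eq_zero m hδ hψδ (lt_of_le_of_lt (min_le_right _ _) ?_)
      have h1 : ‖w‖ ≤ Real.sqrt (∑ a, w a ^ 2) := by
        refine (pi_norm_le_iff_of_nonneg (Real.sqrt_nonneg _)).2 fun a => ?_
        rw [Real.norm_eq_abs]
        exact Real.abs_le_sqrt
          (Finset.single_le_sum (f := fun a => w a ^ 2) (fun _ _ => sq_nonneg _) (Finset.mem_univ a))
      have h2 : ε ^ 2 ≤ ∑ a, w a ^ 2 :=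
        (Real.le_sqrt hε.le (Finset.sum_nonneg fun _ _ => sq_nonneg _)).1 (hw.trans h1)
      have : 0 < ε ^ 2 := by positivity
      linarith)
  rw [integral_PhiR m hψ hδ hψδ] at hI
  have hQ : ContDiff ℝ ∞ fun x : Option (Fin ((m + 1) * 2)) → ℝ => beP h (beR _ x) :=
    (beP h).contDiff.comp (beR (Fin ((m + 1) * 2))).contDiff
  let g : MS (Fin (m + 1)) (Option (Fin ((m + 1) * 2))) := Matrix.of fun a b =>
    Sm.mk (fun x => A (fun i => Int.fract ((beP h (beR _ x)).2 i)) a b) ((hAs a b).comp hQ)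
  have hVs : ∀ a, ContDiff ℝ ∞ fun x : Option (Fin ((m + 1) * 2)) → ℝ =>
      W ((beP h (beR _ x)).1, fun i => Int.fract ((beP h (beR _ x)).2 i)) a :=
    fun a => (contDiff_apply ℝ ℂ a).comp (hWs.comp hQ)
  let V : Fin (m + 1) → Sm (Option (Fin ((m + 1) * 2))) := fun a => Sm.mk _ (hVs a)
  have hUs : ∀ a, ContDiff ℝ ∞ fun x : Option (Fin ((m + 1) * 2)) → ℝ =>
      (ψ (∑ b, Complex.normSq ((V b).1 x)) : ℂ) * conj ((V a).1 x) := by
    intro a
    refine ContDiff.mul (Complex.ofRealCLM.contDiff.comp (hψ.comp (ContDiff.sum fun b _ => ?_)))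
      (Complex.conjCLE.contDiff.comp (hVs a))
    simp only [Complex.normSq_apply]
    exact ((Complex.reCLM.contDiff.comp (hVs b)).mul (Complex.reCLM.contDiff.comp (hVs b))).add
      ((Complex.imCLM.contDiff.comp (hVs b)).mul (Complex.imCLM.contDiff.comp (hVs b)))
  let U : Fin (m + 1) → Sm (Option (Fin ((m + 1) * 2))) := fun a => Sm.mk _ (hUs a)
  let s : Option (Fin ((m + 1) * 2)) := some (Fin.cast h 0)
  let l : List (Option (Fin ((m + 1) * 2))) := List.ofFn fun i : Fin k => some (Fin.cast h i.succ)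
  have hsl : List.ofFn (some : Fin ((m + 1) * 2) → Option (Fin ((m + 1) * 2))) = s :: l := by
    rw [List.ofFn_congr h.symm, List.ofFn_succ]
  have hN1 : (s :: l).Nodup := by
    rw [← hsl]; exact List.nodup_ofFn.2 (Option.some_injective _)
  have hN : (none :: s :: l).Nodup := by
    refine List.nodup_cons.2 ⟨?_, hN1⟩
    rw [← hsl]; simp
  have hfr : ∀ x y : Option (Fin ((m + 1) * 2)) → ℝ, (∀ i ∈ l, ∃ n : ℤ, x i = y i + n) →
      (fun i => Int.fract ((beP h (beR _ x)).2 i)) = fun i => Int.fract ((beP h (beR _ y)).2 i) := by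
    intro x y H
    funext i
    obtain ⟨n, hn⟩ := H (some (Fin.cast h i.succ)) (List.mem_ofFn.2 ⟨i, rfl⟩)
    change Int.fract (x (some (Fin.cast h i.succ))) = Int.fract (y (some (Fin.cast h i.succ)))
    rw [hn, Int.fract_add_intCast]
  have hgI : Inv g := fun x => hA.det _
  have hgT : TorM [] l g := by
    intro a b x y _ H
    change A _ a b = A _ a b
    rw [hfr x y H]
  have hVT : ∀ a, Tor [s] l (V a) := by
    intro a x y H0 H
    change W (x s, _) a = W (y s, _) a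
    rw [hfr x y H, H0 s (by simp)]
  have hUT : ∀ a, Tor [s] l (U a) := by
    intro a x y H0 H
    change (ψ (∑ b, Complex.normSq ((V b).1 x)) : ℂ) * conj ((V a).1 x) =
      (ψ (∑ b, Complex.normSq ((V b).1 y)) : ℂ) * conj ((V a).1 y)
    simp only [fun b => hVT b x y H0 H]
  have hupd : ∀ (x : Option (Fin ((m + 1) * 2)) → ℝ) (c : ℝ) (a : Fin (m + 1)),
      (V a).1 (Function.update x s c) = W (c, fun i => Int.fract ((beP h (beR _ x)).2 i)) a := by
    intro x c a
    have h1 : (fun i => Int.fract ((beP h (beR _ (Function.update x s c))).2 i)) =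
        fun i => Int.fract ((beP h (beR _ x)).2 i) := by
      refine hfr _ _ fun i hi => ⟨0, ?_⟩
      have : i ≠ s := fun h2 => (List.nodup_cons.1 hN1).1 (h2 ▸ hi)
      simp [Function.update_of_ne this]
    change W (Function.update x s c s, _) a = _
    rw [h1, Function.update_self]
  have hV0 : (fun a => fS s 0 (V a)) = fun a => g a j0 := by
    funext a
    refine Subtype.ext (funext fun x => ?_)
    rw [fS_apply, hupd, hW.zero]
    rfl
  have h1 := oddInt m hN (by simp [l, hk]) (Fin (m + 1)) g hgI hgT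
  rw [Ch_euler m (by simp) hN hgI hgT j0] at h1
  have h2 : CS m l (fun b => g⁻¹ j0 b) (fun a => g a j0) =
      CS m l (fun a => fS s 0 (U a)) (fun a => g a j0) := by
    refine CS_indep hN1 (fun a => hgT.inv hgI j0 a) (fun a => (hUT a).fS_cons_left 0)
      (fun a => hgT a j0) ?_ ?_
    · have := congrFun (congrFun hgI.inv_mul j0) j0
      rwa [Matrix.mul_apply, Matrix.one_apply_eq] at this
    · refine Subtype.ext (funext fun x => ?_)
      have h3 : ∀ b, (V b).1 (Function.update x s 0) =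
          A (fun i => Int.fract ((beP h (beR _ x)).2 i)) b j0 := fun b => by rw [hupd, hW.zero]
      have h4 := (min_le_left δ0 (ε ^ 2 / 2)).trans (hδA (beP h (beR _ x)).2)
      have h5 : (∑ a, fS s 0 (U a) * g a j0).1 x =
          ∑ a, (ψ (∑ b, Complex.normSq ((V b).1 (Function.update x s 0))) : ℂ) *
            conj ((V a).1 (Function.update x s 0)) *
            A (fun i => Int.fract ((beP h (beR _ x)).2 i)) a j0 := by
        rw [AddSubmonoidClass.coe_finsetSum, Finset.sum_apply]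
        rfl
      rw [h5]
      simp only [h3, mul_assoc, ← Finset.mul_sum, ← Complex.normSq_eq_conj_mul_self]
      rw [hψδ _ h4, ← Complex.ofReal_sum, ← Complex.ofReal_mul,
        inv_mul_cancel₀ (hδ.trans_le h4).ne']
      rfl
  have h3 := CS_stokes m hN1 (P := [s]) (fun i hi h2 =>
    (List.nodup_cons.1 hN1).1 (List.mem_singleton.1 h2 ▸ hi)) hUT hVT
  rw [CS_const m (fun a x y => by
    rw [fS_apply, fS_apply, hupd, hupd, hW.one, hW.one (fun i => Int.fract _)]), hV0, ← h2, zero_sub,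
    ← hsl, itg_apply] at h3
  have h4 : ∀ x, (coef (List.ofFn some) (dd (th U V) ^ (m + 1))).1 x =
      ((m + 1).factorial : ℂ) * (2 * Complex.I) ^ (m + 1) *
        ((PhiR m ψ (∑ a, Θ (beR _ x) a ^ 2) * (fderiv ℝ Θ (beR _ x)).det : ℝ) : ℂ) := by
    intro x
    rw [top_coef some (Option.some_injective _) ψ hψ U V (fun a x => rfl) x, ← be_det Θ hΘ x,
      hΘdef]
    simp only [sum_sq_RI]
    rfl
  have hFc : Continuous fun z => PhiR m ψ (∑ a, Θ z a ^ 2) * (fderiv ℝ Θ z).det := by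
    have := hΘ.continuous
    exact ((continuous_PhiR m hψ).comp (by fun_prop)).mul
      (ContinuousLinearMap.continuous_det.comp (hΘ.continuous_fderiv (by simp)))
  have h5 := be_drop _ hFc
  simp only [h4] at h3
  rw [integral_const_mul, integral_complex_ofReal] at h3
  change ∫ x in Set.Icc (0 : Option (Fin ((m + 1) * 2)) → ℝ) 1,
    PhiR m ψ (∑ a, Θ (beR _ x) a ^ 2) * (fderiv ℝ Θ (beR _ x)).det = _ at h5
  rw [h5, hI] at h3
  obtain ⟨d, hd⟩ := h1
  have h6 : (d' : ℂ) = -((m.factorial : ℂ) * d) := by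
    have hf : ((m + 1).factorial : ℂ) ≠ 0 := Nat.cast_ne_zero.2 (Nat.factorial_ne_zero _)
    have hm1 : ((m + 1 : ℕ) : ℂ) ≠ 0 := Nat.cast_ne_zero.2 (Nat.succ_ne_zero _)
    have hp : (2 * (Real.pi : ℂ) * Complex.I) ^ (m + 1) ≠ 0 :=
      pow_ne_zero _ Complex.two_pi_I_ne_zero
    have h7 : (2 * (Real.pi : ℂ) * Complex.I) ^ (m + 1) * d' =
        -CS m l (fun b => g⁻¹ j0 b) (fun a => g a j0) := by
      rw [← h3]
      push_cast
      field_simp
      ring
    refine mul_left_cancel₀ hm1 (mul_left_cancel₀ hp ?_)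
    rw [mul_left_comm, h7, mul_neg, hd, Nat.factorial_succ]
    push_cast
    ring
  have h8 : d' = -((m.factorial : ℤ) * d) := by exact_mod_cast h6
  have h9 : (2 : ℤ) ∣ d' := by
    rw [h8, dvd_neg]
    refine Dvd.dvd.mul_right ?_ d
    exact_mod_cast Nat.dvd_factorial (by norm_num : 0 < 2) hm
  have h10 : (2 : ℤ) ∣ (Z.card : ℤ) := by
    have := hd'.dvd
    omega
  exact even_iff_two_dvd.2 (by exact_mod_cast h10)

end Pool.Agent.Lib.MP_b7c8b0_gt
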