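import Pool.Agent.Lib.MP_b7c8b0_gt.EDefs

open scoped ContDiff ComplexConjugate Topology Manifold
open Complex Filter

noncomputable section

namespace Pool.Agent.Lib.MP_b7c8b0_gt

/-- The differential of the inclusion of the sphere. -/
def dCoe {n : ℕ} (p : Sph n) : EuclideanSpace ℝ (Fin (2 * n + 1)) →L[ℝ] Euc n :=
  mfderiv (modelWithCornersSelf ℝ (EuclideanSpace ℝ (Fin (2 * n + 1))))
    (modelWithCornersSelf ℝ (Euc n)) ((↑) : Sph n → Euc n) p

lemma coe_smooth (n : ℕ) : ContMDiff (modelWithCornersSelf ℝ (EuclideanSpace ℝ (Fin (2 * n + 1))))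
    (modelWithCornersSelf ℝ (Euc n)) ∞ ((↑) : Sph n → Euc n) :=
  haveI := Fact.mk (@finrank_euclideanSpace_fin ℝ _ (2 * n + 1 + 1))
  contMDiff_coe_sphere

lemma dCoe_inj {n : ℕ} (p : Sph n) : Function.Injective (dCoe p) := by
  have := Fact.mk (@finrank_euclideanSpace_fin ℝ _ (2 * n + 1 + 1))
  have := injective_mvfderiv_subtypeVal_sphere (n := 2 * n + 1) p
  exact this

lemma dCoe_range {n : ℕ} (p : Sph n) (v : Euc n) :
    (∃ u, dCoe p u = v) ↔ inner ℝ (p : Euc n) v = 0 := by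
  have := Fact.mk (@finrank_euclideanSpace_fin ℝ _ (2 * n + 1 + 1))
  have h := range_mvfderiv_subtypeVal (n := 2 * n + 1) p
  rw [← Submodule.mem_orthogonal_singleton_iff_inner_right, ← h]
  exact Iff.rfl

lemma sph_norm {n : ℕ} (p : Sph n) : ‖(p : Euc n)‖ = 1 := by simp

lemma sph_ne {n : ℕ} (p : Sph n) : (p : Euc n) ≠ 0 := ne_zero_of_mem_unit_sphere p

lemma dMap_comp {n : ℕ} {F : Euc n → Amb n} (p : Sph n) (h : ContDiffAt ℝ ∞ F p) :
    dMap (fun q : Sph n => F q) p = (fderiv ℝ F p).comp (dCoe p) := by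
  have h1 : HasMFDerivAt (modelWithCornersSelf ℝ (Euc n)) (modelWithCornersSelf ℝ (Amb n)) F
      (p : Euc n) (fderiv ℝ F (p : Euc n)) :=
    (h.differentiableAt (by simp)).hasFDerivAt.hasMFDerivAt
  have h2 := ((coe_smooth n p).mdifferentiableAt (by simp)).hasMFDerivAt
  exact (h1.comp p h2).mfderiv

lemma alpha_surj {n : ℕ} (p : Amb n) : Function.Surjective (alpha p) := fun c =>
  ⟨(0, 0, c), by simp [alpha]⟩

lemma corank_iff {W : Type} [AddCommGroup W] [Module ℝ W] [FiniteDimensional ℝ W]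
    (a : W →ₗ[ℝ] ℂ) (ha : Function.Surjective a) (R : Submodule ℝ W) :
    Module.finrank ℝ (R ⊔ LinearMap.ker a : Submodule ℝ W) + 1 = Module.finrank ℝ W ↔
      ∃ c : ℂ, c ≠ 0 ∧ (∀ w ∈ R, ∃ r : ℝ, a w = r * c) ∧ ∃ w ∈ R, a w ≠ 0 := by
  have h1 := LinearMap.finrank_range_add_finrank_ker a
  rw [LinearMap.range_eq_top.2 ha, finrank_top, Complex.finrank_real_complex] at h1
  have h2 := LinearMap.finrank_range_add_finrank_ker (a.domRestrict (R ⊔ LinearMap.ker a))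
  rw [LinearMap.range_domRestrict, LinearMap.ker_domRestrict,
    (Submodule.comapSubtypeEquivOfLe (le_sup_right : LinearMap.ker a ≤ R ⊔ LinearMap.ker a)).finrank_eq,
    Submodule.map_sup, (LinearMap.le_ker_iff_map.1 le_rfl : Submodule.map a (LinearMap.ker a) = ⊥),
    sup_bot_eq] at h2
  have h3 : Module.finrank ℝ (R ⊔ LinearMap.ker a : Submodule ℝ W) + 1 = Module.finrank ℝ W ↔
      Module.finrank ℝ (R.map a) = 1 := by omega
  rw [h3, finrank_eq_one_iff']
  constructor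
  · rintro ⟨⟨c, hc⟩, h0, hall⟩
    have hc0 : c ≠ 0 := fun e => h0 (Subtype.ext e)
    refine ⟨c, hc0, fun w hw => ?_, ?_⟩
    · obtain ⟨r, hr⟩ := hall ⟨a w, Submodule.mem_map_of_mem hw⟩
      exact ⟨r, by simpa using (congrArg Subtype.val hr).symm⟩
    · obtain ⟨w, hw, e⟩ := Submodule.mem_map.1 hc
      exact ⟨w, hw, e ▸ hc0⟩
  · rintro ⟨c, hc, hall, w, hw, h0⟩
    obtain ⟨r, hr⟩ := hall w hw
    have hr0 : r ≠ 0 := by rintro rfl; simp [hr] at h0
    refine ⟨⟨a w, Submodule.mem_map_of_mem hw⟩, fun e => h0 (congrArg Subtype.val e), ?_⟩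
    rintro ⟨_, w', hw', rfl⟩
    obtain ⟨r', hr'⟩ := hall w' hw'
    refine ⟨r' / r, Subtype.ext ?_⟩
    have : (r : ℂ) ≠ 0 := by exact_mod_cast hr0
    simp only [SetLike.mk_smul_mk, real_smul, hr, hr', ofReal_div]
    field_simp

lemma corank_comp {n : ℕ} {F : Euc n → Amb n} (p : Sph n) (h : ContDiffAt ℝ ∞ F p) :
    Module.finrank ℝ ((LinearMap.range (dMap (fun q : Sph n => F q) p).toLinearMap ⊔ Dstd (F p) :
      Submodule ℝ (Amb n))) + 1 = Module.finrank ℝ (Amb n) ↔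
    ∃ c : ℂ, c ≠ 0 ∧ (∀ v, inner ℝ (p : Euc n) v = 0 →
      ∃ r : ℝ, alpha (F p) (fderiv ℝ F p v) = r * c) ∧
      ∃ v, inner ℝ (p : Euc n) v = 0 ∧ alpha (F p) (fderiv ℝ F p v) ≠ 0 := by
  unfold Dstd
  rw [corank_iff _ (alpha_surj _), dMap_comp p h]
  refine exists_congr fun c => and_congr_right fun _ => and_congr ⟨fun H v hv => ?_, ?_⟩ ⟨?_, ?_⟩
  · obtain ⟨u, rfl⟩ := (dCoe_range p v).2 hv
    exact H _ ⟨u, rfl⟩
  · rintro H _ ⟨u, rfl⟩
    exact H _ ((dCoe_range p _).1 ⟨u, rfl⟩)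
  · rintro ⟨_, ⟨u, rfl⟩, H⟩
    exact ⟨_, (dCoe_range p _).1 ⟨u, rfl⟩, H⟩
  · rintro ⟨v, hv, H⟩
    obtain ⟨u, rfl⟩ := (dCoe_range p v).2 hv
    exact ⟨_, ⟨u, rfl⟩, H⟩

/-- From the Euclidean form to the manifold form. -/
theorem bridgeA {n : ℕ} {F : Euc n → Amb n} (h : EPre n F) :
    IsPrelegendrianEmbedding n (fun p => F p) := by
  have hs : ContMDiff (modelWithCornersSelf ℝ (EuclideanSpace ℝ (Fin (2 * n + 1))))
      (modelWithCornersSelf ℝ (Amb n)) ∞ (fun p : Sph n => F p) := fun p =>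
    (h.smooth p (sph_ne p)).contMDiffAt.comp p (coe_smooth n p)
  refine ⟨hs, ?_, fun p => ?_, fun p => ?_⟩
  · exact (hs.continuous.isClosedEmbedding fun p q e =>
      Subtype.ext (h.inj p q (sph_norm p) (sph_norm q) e)).isEmbedding
  · rw [dMap_comp p (h.smooth p (sph_ne p))]
    refine (injective_iff_map_eq_zero _).2 fun u hu => ?_
    have := h.imm p (dCoe p u) (sph_norm p) ((dCoe_range p _).1 ⟨u, rfl⟩) hu
    exact dCoe_inj p (by rw [this, map_zero])
  · exact (corank_comp p (h.smooth p (sph_ne p))).2 (h.rank p (sph_norm p))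

/-- Radial projection of the punctured space. -/
def nrmO (n : ℕ) (x : (⟨{0}ᶜ, isOpen_compl_singleton⟩ : TopologicalSpace.Opens (Euc n))) : Sph n :=
  ⟨‖(x : Euc n)‖⁻¹ • (x : Euc n), by
    have : (x : Euc n) ≠ 0 := x.2
    simp [norm_smul, this]⟩

lemma nrmO_smooth (n : ℕ) : ContMDiff (modelWithCornersSelf ℝ (Euc n))
    (modelWithCornersSelf ℝ (EuclideanSpace ℝ (Fin (2 * n + 1)))) ∞ (nrmO n) := by
  have := Fact.mk (@finrank_euclideanSpace_fin ℝ _ (2 * n + 1 + 1))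
  have h1 : ContMDiff (modelWithCornersSelf ℝ (Euc n)) (modelWithCornersSelf ℝ (Euc n)) ∞
      (fun x : (⟨{0}ᶜ, isOpen_compl_singleton⟩ : TopologicalSpace.Opens (Euc n)) =>
        ‖(x : Euc n)‖⁻¹ • (x : Euc n)) := by
    intro x
    have hx : (x : Euc n) ≠ 0 := x.2
    have : ContDiffAt ℝ ∞ (fun y : Euc n => ‖y‖⁻¹ • y) x :=
      ((contDiffAt_norm ℝ hx).inv (norm_ne_zero_iff.2 hx)).smul contDiffAt_id
    exact (contMDiffAt_subtype_iff (f := fun y : Euc n => ‖y‖⁻¹ • y)).2 this.contMDiffAt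
  exact h1.codRestrict_sphere (n := 2 * n + 1) fun x => (nrmO n x).2

/-- From the manifold form to the Euclidean form (take `F x = f (x / ‖x‖)`). -/
theorem bridgeB {n : ℕ} {f : Sph n → Amb n} (h : IsPrelegendrianEmbedding n f) :
    ∃ F, EPre n F := by
  classical
  set F : Euc n → Amb n := fun x => if hx : x ≠ 0 then f (nrmO n ⟨x, hx⟩) else 0 with hF
  have hs : ∀ x, x ≠ 0 → ContDiffAt ℝ ∞ F x := by
    intro x hx
    have h1 := (h.smooth.comp (nrmO_smooth n)) ⟨x, hx⟩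
    have h2 : (f ∘ nrmO n) = fun y : (⟨{0}ᶜ, isOpen_compl_singleton⟩ :
        TopologicalSpace.Opens (Euc n)) => F y := by
      funext y
      have hy : (y : Euc n) ≠ 0 := y.2
      simp only [hF, dif_pos hy, Function.comp]
    rw [h2] at h1
    exact contMDiffAt_iff_contDiffAt.1 ((contMDiffAt_subtype_iff (f := F)).1 h1)
  have hf : f = fun p : Sph n => F p := by
    funext p
    simp only [hF, dif_pos (sph_ne p)]
    congr 1
    exact Subtype.ext (by simp [nrmO])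
  refine ⟨F, hs, fun x x' hx hx' e => ?_, fun x v hx hv e => ?_, fun x hx => ?_⟩
  · have := h.embedding.injective (a₁ := ⟨x, by simpa using hx⟩) (a₂ := ⟨x', by simpa using hx'⟩)
      (by rw [hf]; exact e)
    exact congrArg Subtype.val this
  · let p : Sph n := ⟨x, by simpa using hx⟩
    obtain ⟨u, rfl⟩ := (dCoe_range p v).2 hv
    have h1 := h.immersion p
    rw [hf, dMap_comp p (hs p (sph_ne p))] at h1
    have : u = 0 := h1 (by rw [map_zero]; exact e)
    rw [this, map_zero]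
  · let p : Sph n := ⟨x, by simpa using hx⟩
    have h1 := h.corank p
    rw [hf] at h1
    exact (corank_comp p (hs p (sph_ne p))).1 h1

end Pool.Agent.Lib.MP_b7c8b0_gt
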