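import Pool.Agent.Lib.MP_b7c8b0_gt.JetU

open scoped ContDiff ComplexConjugate Topology
open Complex Filter

noncomputable section

namespace Pool.Agent.Lib.MP_b7c8b0_gt

/-- Basic facts on the zigzag and the local forms of the projection, valid for large `Λ`. -/
structure Base (e : ℝ) (ζ : Zig) (κ : Cut) (Λ : ℝ) : Prop where
  big : 3 ≤ Λ
  lo : ∀ t, t ≤ Λ - 1 → Phi ζ Λ t = Λ + ζ.c' - ζ.g (t + Λ)
  hi : ∀ t, -Λ + 1 ≤ t → Phi ζ Λ t = -Λ - ζ.c + ζ.g (t - Λ)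
  dphi : ∀ t, t ≠ Λ → t ≠ -Λ → deriv (Phi ζ Λ) t ≠ 0
  dn1 : ∀ t, deriv (n1 ζ Λ) t = k1 ζ Λ t * deriv (Phi ζ Λ) t
  dn2 : ∀ t, deriv (n2 ζ Λ) t = k2 ζ Λ t * deriv (Phi ζ Λ) t
  mono1 : StrictMonoOn (Phi ζ Λ) (Set.Iic (-Λ))
  anti : StrictAntiOn (Phi ζ Λ) (Set.Icc (-Λ) Λ)
  mono2 : StrictMonoOn (Phi ζ Λ) (Set.Ici Λ)
  loc1 : ∀ W t, Con (Phi ζ Λ) W t → t ≤ -Λ + 2 →
    GG κ Λ =ᶠ[𝓝 (W, t)] fun p => G1 κ p.1
  loc2 : ∀ W t, Con (Phi ζ Λ) W t → Λ - 2 ≤ t →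
    GG κ Λ =ᶠ[𝓝 (W, t)] fun p => G2 κ p.1
  loc0 : ∀ W t, Con (Phi ζ Λ) W t → |t| ≤ Λ + 2 →
    GG κ Λ =ᶠ[𝓝 (W, t)] fun p => sq2 (Lin p.1)

theorem Nsq_pos {e : ℝ} (he : 0 < e) {Z : C2} (hZ : Z ≠ 0) : 0 < Nsq e Z := by
  unfold Nsq
  by_cases h1 : Z.1 = 0
  · have h2 : Z.2 ≠ 0 := fun h2 => hZ (Prod.ext h1 h2)
    have := norm_pos_iff.2 h2
    positivity
  · have := norm_pos_iff.2 h1
    positivity

lemma cb_Nsq_smul (e s : ℝ) (Z : C2) : Nsq e (s • Z) = s ^ 2 * Nsq e Z := by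
  simp only [Nsq, Prod.smul_fst, Prod.smul_snd, norm_smul, Real.norm_eq_abs, mul_pow, sq_abs]
  ring

theorem Nsq_Nrm {e : ℝ} (he : 0 < e) {Z : C2} (hZ : Z ≠ 0) : Nsq e (Nrm e Z) = 1 := by
  have h := Nsq_pos he hZ
  rw [Nrm, cb_Nsq_smul, inv_pow, Real.sq_sqrt h.le, inv_mul_cancel₀ h.ne']

theorem Nrm_smul {e : ℝ} {s : ℝ} (hs : 0 < s) (Z : C2) : Nrm e (s • Z) = Nrm e Z := by
  rw [Nrm, Nrm, cb_Nsq_smul, Real.sqrt_mul (sq_nonneg s), Real.sqrt_sq hs.le, smul_smul, mul_inv,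
    mul_comm s⁻¹, mul_assoc, inv_mul_cancel₀ hs.ne', mul_one]

theorem Nrm_eq {e : ℝ} (he : 0 < e) {Z Z' : C2} (hZ : Z ≠ 0) (hZ' : Z' ≠ 0)
    (h : Nrm e Z = Nrm e Z') : ∃ s : ℝ, 0 < s ∧ Z' = s • Z := by
  have h1 := Real.sqrt_pos.2 (Nsq_pos he hZ)
  have h2 := Real.sqrt_pos.2 (Nsq_pos he hZ')
  refine ⟨√(Nsq e Z') * (√(Nsq e Z))⁻¹, by positivity, ?_⟩
  rw [← smul_smul]
  change Z' = √(Nsq e Z') • Nrm e Z
  rw [h, Nrm, smul_smul, mul_inv_cancel₀ h2.ne', one_smul]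

lemma cb_contDiff_Nsq (e : ℝ) : ContDiff ℝ ∞ (Nsq e) :=
  ((contDiff_norm_sq ℝ).comp contDiff_fst).add
    (contDiff_const.mul ((contDiff_norm_sq ℝ).comp contDiff_snd))

lemma cb_contDiffAt_inv {e : ℝ} (he : 0 < e) {Z : C2} (hZ : Z ≠ 0) :
    ContDiffAt ℝ ∞ (fun Z => (√(Nsq e Z))⁻¹) Z :=
  ((cb_contDiff_Nsq e).contDiffAt.sqrt (Nsq_pos he hZ).ne').inv
    (Real.sqrt_pos.2 (Nsq_pos he hZ)).ne'

theorem contDiffAt_Nrm {e : ℝ} (he : 0 < e) {Z : C2} (hZ : Z ≠ 0) :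
    ContDiffAt ℝ ∞ (Nrm e) Z :=
  (cb_contDiffAt_inv he hZ).smul contDiffAt_id

lemma cb_fderiv_smul {φ : C2 → ℝ} {Z : C2} (h : DifferentiableAt ℝ φ Z) (L : C2 →L[ℝ] C2)
    (V : C2) : fderiv ℝ (fun W => φ W • L W) Z V = φ Z • L V + fderiv ℝ φ Z V • L Z := by
  have := (h.hasFDerivAt.smul L.hasFDerivAt).fderiv
  change fderiv ℝ (φ • (L : C2 → C2)) Z V = _
  rw [this]
  simp

theorem fderiv_Nrm_eq_zero {e : ℝ} (he : 0 < e) {Z V : C2} (hZ : Z ≠ 0)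
    (h : fderiv ℝ (Nrm e) Z V = 0) : ∃ s : ℝ, V = s • Z := by
  have h1 := cb_fderiv_smul ((cb_contDiffAt_inv he hZ).differentiableAt (by simp))
    (ContinuousLinearMap.id ℝ C2) V
  have h2 := Real.sqrt_pos.2 (Nsq_pos he hZ)
  change fderiv ℝ (Nrm e) Z V = (√(Nsq e Z))⁻¹ • V + _ • Z at h1
  rw [h] at h1
  refine ⟨-(√(Nsq e Z) * fderiv ℝ (fun Z => (√(Nsq e Z))⁻¹) Z V), ?_⟩
  have h3 := congrArg (fun x => √(Nsq e Z) • x) h1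
  simp only [smul_zero, smul_add, smul_smul, mul_inv_cancel₀ h2.ne', one_smul] at h3
  rw [neg_smul]
  exact eq_neg_of_add_eq_zero_left h3.symm

lemma cb_sq2_smul (s : ℝ) (w : C2) : sq2 (s • w) = s ^ 2 • sq2 w := by
  ext <;> simp [sq2, mul_pow]

lemma cb_Xc_Lin (W : C2) : Xc (Lin W) = W.1 := by
  simp only [Xc, Lin, map_add, map_sub, map_mul, map_div₀, map_ofNat, map_one, conj_conj]
  ring

lemma cb_Yc_Lin (W : C2) : Yc (Lin W) = W.2 := by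
  rw [Yc, cb_Xc_Lin]; simp [Lin]

lemma cb_Xc_smul (s : ℝ) (w : C2) : Xc (s • w) = s • Xc w := by
  simp only [Xc, Prod.smul_fst, Prod.smul_snd, real_smul, map_sub, map_mul, conj_ofReal]
  ring

lemma cb_Yc_smul (s : ℝ) (w : C2) : Yc (s • w) = s • Yc w := by
  rw [Yc, Yc, cb_Xc_smul, smul_sub, Prod.smul_fst]

lemma cb_Xc_add (v w : C2) : Xc (v + w) = Xc v + Xc w := by
  simp only [Xc, Prod.fst_add, Prod.snd_add, map_sub, map_add]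
  ring

lemma cb_Yc_add (v w : C2) : Yc (v + w) = Yc v + Yc w := by
  rw [Yc, Yc, Yc, cb_Xc_add, Prod.fst_add]; ring

/-- `Lin` as a continuous linear map. -/
def cbLin : C2 →L[ℝ] C2 := LinearMap.toContinuousLinearMap
  { toFun := Lin
    map_add' := fun v w => by
      ext
      · simp only [Lin, Prod.fst_add, Prod.snd_add]; ring
      · simp only [Lin, Prod.fst_add, Prod.snd_add, map_add]; ring
    map_smul' := fun s w => by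
      ext
      · simp only [Lin, Prod.smul_fst, Prod.smul_snd, real_smul, RingHom.id_apply]; ring
      · simp only [Lin, Prod.smul_fst, Prod.smul_snd, real_smul, RingHom.id_apply, map_mul,
          conj_ofReal]
        ring }

lemma cbLin_apply (W : C2) : cbLin W = Lin W := rfl

lemma cb_sq2_Lin_ne {W : C2} (hW : W ≠ 0) : sq2 (Lin W) ≠ 0 := by
  intro h
  have h1 : (Lin W).1 = 0 := by simpa [sq2] using congrArg Prod.fst h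
  have h2 : (Lin W).2 = 0 := by simpa [sq2] using congrArg Prod.snd h
  have h3 : Lin W = 0 := Prod.ext h1 h2
  apply hW
  ext
  · rw [← cb_Xc_Lin, h3]; simp [Xc]
  · rw [← cb_Yc_Lin, h3]; simp [Yc, Xc]

theorem sq2_wn {e : ℝ} (he : 0 < e) {W : C2} (hW : W ≠ 0) :
    sq2 (wn e W) = Nrm e (sq2 (Lin W)) := by
  have _h := Nsq_pos he (cb_sq2_Lin_ne hW)
  rw [wn, cb_sq2_smul, Nrm, inv_pow, Real.sq_sqrt (Real.sqrt_nonneg _)]

lemma cb_wn_pos {e : ℝ} (he : 0 < e) {W : C2} (hW : W ≠ 0) : 0 < √√(Nsq e (sq2 (Lin W))) :=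
  Real.sqrt_pos.2 (Real.sqrt_pos.2 (Nsq_pos he (cb_sq2_Lin_ne hW)))

theorem wn_eq {e : ℝ} (he : 0 < e) {W : C2} (hW : W ≠ 0) :
    ∃ s : ℝ, 0 < s ∧ wn e W = s • Lin W ∧ Xc (wn e W) = s • W.1 ∧ Yc (wn e W) = s • W.2 :=
  ⟨_, inv_pos.2 (cb_wn_pos he hW), rfl, by rw [wn, cb_Xc_smul, cb_Xc_Lin],
    by rw [wn, cb_Yc_smul, cb_Yc_Lin]⟩

lemma cb_contDiffAt_wn {e : ℝ} (he : 0 < e) {W : C2} (hW : W ≠ 0) :
    ContDiffAt ℝ ∞ (fun W => (√√(Nsq e (sq2 (Lin W))))⁻¹) W := by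
  have h0 : ContDiff ℝ ∞ sq2 := (contDiff_fst.pow 2).prodMk (contDiff_snd.pow 2)
  have h1 : ContDiff ℝ ∞ (fun W => Nsq e (sq2 (Lin W))) :=
    (cb_contDiff_Nsq e).comp (h0.comp cbLin.contDiff)
  have h2 := Nsq_pos he (cb_sq2_Lin_ne hW)
  exact ((h1.contDiffAt.sqrt h2.ne').sqrt (Real.sqrt_pos.2 h2).ne').inv (cb_wn_pos he hW).ne'

theorem contDiffAt_wn {e : ℝ} (he : 0 < e) {W : C2} (hW : W ≠ 0) :
    ContDiffAt ℝ ∞ (wn e) W :=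
  (cb_contDiffAt_wn he hW).smul cbLin.contDiff.contDiffAt

lemma cb_fderiv_wn {e : ℝ} (he : 0 < e) {W : C2} (hW : W ≠ 0) (V : C2) :
    ∃ s r : ℝ, 0 < s ∧ wn e W = s • Lin W ∧ fderiv ℝ (wn e) W V = s • Lin V + r • Lin W :=
  ⟨_, _, inv_pos.2 (cb_wn_pos he hW), rfl,
    cb_fderiv_smul ((cb_contDiffAt_wn he hW).differentiableAt (by simp)) cbLin V⟩

theorem fderiv_wn_eq_zero {e : ℝ} (he : 0 < e) {W V : C2} (hW : W ≠ 0)
    (h : fderiv ℝ (wn e) W V = 0) : ∃ s : ℝ, V = s • W := by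
  obtain ⟨s, r, hs, -, h1⟩ := cb_fderiv_wn he hW V
  rw [h] at h1
  have h2 := congrArg Xc h1
  have h3 := congrArg Yc h1
  rw [cb_Xc_add, cb_Xc_smul, cb_Xc_smul, cb_Xc_Lin, cb_Xc_Lin] at h2
  rw [cb_Yc_add, cb_Yc_smul, cb_Yc_smul, cb_Yc_Lin, cb_Yc_Lin] at h3
  have hs' : (s : ℂ) ≠ 0 := by exact_mod_cast hs.ne'
  simp only [Yc, Xc, Prod.fst_zero, Prod.snd_zero, map_zero, sub_zero, mul_zero, add_zero,
    real_smul] at h2 h3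
  refine ⟨-r / s, Prod.ext ?_ ?_⟩
  · simp only [Prod.smul_fst, real_smul, ofReal_div, ofReal_neg]
    field_simp
    linear_combination -h2
  · simp only [Prod.smul_snd, real_smul, ofReal_div, ofReal_neg]
    field_simp
    linear_combination -h3

lemma cb_dlog {s : ℝ} (hs : 0 < s) (r : ℝ) {a : ℂ} (ha : a ≠ 0) (v : ℂ) :
    2 * (conj (s • a) * (s • v + r • a)).re / ‖s • a‖ ^ 2
      = 2 * (conj a * v).re / ‖a‖ ^ 2 + 2 * r / s := by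
  have h1 : 0 < ‖a‖ := norm_pos_iff.2 ha
  have h2 : ‖a‖ ^ 2 = a.re * a.re + a.im * a.im := by rw [Complex.sq_norm, normSq_apply]
  have h3 : (conj (s • a) * (s • v + r • a)).re = s ^ 2 * (conj a * v).re + s * r * ‖a‖ ^ 2 := by
    rw [h2]; simp; ring
  rw [h3, norm_smul, Real.norm_eq_abs, abs_of_pos hs]
  field_simp

/-- The derivative of `wn` does not change the logarithmic derivative of the ratio. -/
theorem dLog_wn {e : ℝ} (he : 0 < e) {W : C2} (h1 : W.1 ≠ 0) (h2 : W.2 ≠ 0) (V : C2) :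
    dLog (Xc (wn e W), Yc (wn e W)) (Xc (fderiv ℝ (wn e) W V), Yc (fderiv ℝ (wn e) W V))
      = dLog W V := by
  obtain ⟨s, r, hs, e1, e2⟩ := cb_fderiv_wn he (W := W) (fun h => h1 (by rw [h]; rfl)) V
  rw [e1, e2]
  simp only [dLog, cb_Xc_add, cb_Yc_add, cb_Xc_smul, cb_Yc_smul, cb_Xc_Lin, cb_Yc_Lin]
  rw [cb_dlog hs r h1, cb_dlog hs r h2]
  ring

lemma cb_lo (ζ : Zig) (Λ t : ℝ) (h : t ≤ Λ - 1) : Phi ζ Λ t = Λ + ζ.c' - ζ.g (t + Λ) := by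
  rw [Phi, ζ.glo _ (by linarith)]; ring

lemma cb_hi (ζ : Zig) (Λ t : ℝ) (h : -Λ + 1 ≤ t) : Phi ζ Λ t = -Λ - ζ.c + ζ.g (t - Λ) := by
  rw [Phi, ζ.ghi (t + Λ) (by linarith)]; ring

/-- In the collars the ratio is as small as we like. -/
theorem collar (ζ : Zig) {ρ : ℝ} (hρ : 0 < ρ) : ∀ᶠ Λ in atTop, ∀ W t, Con (Phi ζ Λ) W t →
    (|t + Λ| ≤ 3 → ‖W.2‖ ^ 2 < ρ * ‖W.1‖ ^ 2) ∧ (|t - Λ| ≤ 3 → ‖W.1‖ ^ 2 < ρ * ‖W.2‖ ^ 2) := by
  obtain ⟨M, hM⟩ := (isCompact_Icc (a := (-3 : ℝ)) (b := 3)).bddAbove_image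
    ζ.sg.continuous.continuousOn
  have hM' : ∀ t, |t| ≤ 3 → ζ.g t ≤ M := fun t ht => hM ⟨t, abs_le.1 ht, rfl⟩
  filter_upwards [eventually_ge_atTop (2 : ℝ), eventually_gt_atTop (M - ζ.c' - Real.log ρ),
    eventually_gt_atTop (M - ζ.c - Real.log ρ)] with Λ a1 a2 a3
  rintro W t ⟨h1, h2, h3⟩
  have p1 : 0 < ‖W.1‖ ^ 2 := pow_pos (norm_pos_iff.2 h1) 2
  have p2 : 0 < ‖W.2‖ ^ 2 := pow_pos (norm_pos_iff.2 h2) 2
  rw [Real.log_div p1.ne' p2.ne'] at h3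
  constructor
  · intro ht
    rw [cb_lo ζ Λ t (by linarith [(abs_le.1 ht).2])] at h3
    have := hM' _ ht
    rw [← Real.log_lt_log_iff p2 (by positivity), Real.log_mul hρ.ne' p1.ne']
    linarith
  · intro ht
    rw [cb_hi ζ Λ t (by linarith [(abs_le.1 ht).1])] at h3
    have := hM' _ ht
    rw [← Real.log_lt_log_iff p1 (by positivity), Real.log_mul hρ.ne' p2.ne']
    linarith

lemma cb_dlo (ζ : Zig) (Λ t : ℝ) (h : t < Λ - 1) :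
    deriv (Phi ζ Λ) t = -deriv ζ.g (t + Λ) := by
  have h1 : Phi ζ Λ =ᶠ[𝓝 t] fun t => Λ + ζ.c' - ζ.g (t + Λ) :=
    (eventually_lt_nhds h).mono fun x hx => cb_lo ζ Λ x hx.le
  rw [h1.deriv_eq, deriv_const_sub, deriv_comp_add_const]

lemma cb_dhi (ζ : Zig) (Λ t : ℝ) (h : -Λ + 1 < t) :
    deriv (Phi ζ Λ) t = deriv ζ.g (t - Λ) := by
  have h1 : Phi ζ Λ =ᶠ[𝓝 t] fun t => -Λ - ζ.c + ζ.g (t - Λ) :=
    (eventually_gt_nhds h).mono fun x hx => cb_hi ζ Λ x hx.le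
  rw [h1.deriv_eq, deriv_const_add, deriv_comp_sub_const]

lemma cb_ev1 {ρ : ℝ} {W : C2} (t : ℝ) (h : ‖W.2‖ ^ 2 < ρ * ‖W.1‖ ^ 2) :
    ∀ᶠ p : C2 × ℝ in 𝓝 (W, t), p.1 ≠ 0 ∧ ‖p.1.2‖ ^ 2 ≤ ρ * ‖p.1.1‖ ^ 2 := by
  have : ∀ᶠ p : C2 × ℝ in 𝓝 (W, t), ‖p.1.2‖ ^ 2 < ρ * ‖p.1.1‖ ^ 2 :=
    ContinuousAt.eventually_lt (by fun_prop) (by fun_prop) h
  exact this.mono fun p hp => ⟨fun e => by simp [e] at hp, hp.le⟩

lemma cb_ev2 {ρ : ℝ} {W : C2} (t : ℝ) (h : ‖W.1‖ ^ 2 < ρ * ‖W.2‖ ^ 2) :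
    ∀ᶠ p : C2 × ℝ in 𝓝 (W, t), p.1 ≠ 0 ∧ ‖p.1.1‖ ^ 2 ≤ ρ * ‖p.1.2‖ ^ 2 := by
  have : ∀ᶠ p : C2 × ℝ in 𝓝 (W, t), ‖p.1.1‖ ^ 2 < ρ * ‖p.1.2‖ ^ 2 :=
    ContinuousAt.eventually_lt (by fun_prop) (by fun_prop) h
  exact this.mono fun p hp => ⟨fun e => by simp [e] at hp, hp.le⟩

lemma cb_evlt (W : C2) {t a : ℝ} (h : t < a) : ∀ᶠ p : C2 × ℝ in 𝓝 (W, t), p.2 < a :=
  ContinuousAt.eventually_lt (by fun_prop) (by fun_prop) h

lemma cb_evgt (W : C2) {t a : ℝ} (h : a < t) : ∀ᶠ p : C2 × ℝ in 𝓝 (W, t), a < p.2 :=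
  ContinuousAt.eventually_lt (by fun_prop) (by fun_prop) h

theorem base {e : ℝ} (ζ : Zig) {κ : Cut} (h : GOK κ) : ∀ᶠ Λ in atTop, Base e ζ κ Λ := by
  obtain ⟨ρ, hρ, hn⟩ := h.near
  filter_upwards [eventually_ge_atTop (3 : ℝ), collar ζ hρ] with Λ a1 hc
  refine ⟨a1, cb_lo ζ Λ, cb_hi ζ Λ, fun t h1 h2 => ?_, fun t => ?_, fun t => ?_, ?_, ?_, ?_,
    fun W t h1 h2 => ?_, fun W t h1 h2 => ?_, fun W t h1 h2 => ?_⟩
  · rcases lt_or_ge t (Λ - 1) with h3 | h3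
    · rw [cb_dlo ζ Λ t h3]
      exact neg_ne_zero.2 (ζ.dg _ fun e => h2 (by linarith))
    · rw [cb_dhi ζ Λ t (by linarith)]
      exact ζ.dg _ fun e => h1 (by linarith)
  · have : deriv (n1 ζ Λ) t = ζ.k (t + Λ) * deriv ζ.g (t + Λ) := by
      rw [← ζ.dn]; exact deriv_comp_add_const _ _ _
    rw [this, k1]
    rcases lt_or_ge t (Λ - 1) with h3 | h3
    · rw [cb_dlo ζ Λ t h3]; ring
    · rw [ζ.k0 _ (le_abs.2 (Or.inl (by linarith)))]; ring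
  · have : deriv (n2 ζ Λ) t = -(ζ.k (t - Λ) * deriv ζ.g (t - Λ)) := by
      rw [← ζ.dn, ← deriv_comp_sub_const]; exact deriv_const_sub _
    rw [this, k2]
    rcases lt_or_ge (-Λ + 1) t with h3 | h3
    · rw [cb_dhi ζ Λ t h3]; ring
    · rw [ζ.k0 _ (le_abs.2 (Or.inr (by linarith)))]; ring
  · intro a ha b hb hab
    rw [Set.mem_Iic] at ha hb
    rw [cb_lo ζ Λ a (by linarith), cb_lo ζ Λ b (by linarith)]
    have := ζ.anti (a := a + Λ) (b := b + Λ) (Set.mem_Iic.2 (by linarith))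
      (Set.mem_Iic.2 (by linarith)) (by linarith)
    linarith
  · have l1 : ∀ a b, -Λ ≤ a → a < b → b ≤ Λ - 1 → Phi ζ Λ b < Phi ζ Λ a := by
      intro a b ha hab hb
      rw [cb_lo ζ Λ a (by linarith), cb_lo ζ Λ b hb]
      have := ζ.mono (a := a + Λ) (b := b + Λ) (Set.mem_Ici.2 (by linarith))
        (Set.mem_Ici.2 (by linarith)) (by linarith)
      linarith
    have l2 : ∀ a b, -Λ + 1 ≤ a → a < b → b ≤ Λ → Phi ζ Λ b < Phi ζ Λ a := by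
      intro a b ha hab hb
      rw [cb_hi ζ Λ a ha, cb_hi ζ Λ b (by linarith)]
      have := ζ.anti (a := a - Λ) (b := b - Λ) (Set.mem_Iic.2 (by linarith))
        (Set.mem_Iic.2 (by linarith)) (by linarith)
      linarith
    intro a ha b hb hab
    rcases le_or_gt b (Λ - 1) with h3 | h3
    · exact l1 a b ha.1 hab h3
    rcases le_or_gt (-Λ + 1) a with h4 | h4
    · exact l2 a b h4 hab hb.2
    exact (l2 0 b (by linarith) (by linarith) hb.2).trans (l1 a 0 ha.1 (by linarith) (by linarith))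
  · intro a ha b hb hab
    rw [Set.mem_Ici] at ha hb
    rw [cb_hi ζ Λ a (by linarith), cb_hi ζ Λ b (by linarith)]
    have := ζ.mono (a := a - Λ) (b := b - Λ) (Set.mem_Ici.2 (by linarith))
      (Set.mem_Ici.2 (by linarith)) (by linarith)
    linarith
  · rcases lt_or_ge t (-Λ) with h3 | h3
    · filter_upwards [cb_evlt W h3] with p hp
      simp only [GG, if_pos hp.le]
    · filter_upwards [cb_evlt W (by linarith : t < Λ),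
        cb_ev1 t ((hc W t h1).1 (abs_le.2 ⟨by linarith, by linarith⟩))] with p hp hq
      simp only [GG, if_neg (not_le.2 hp), ((hn p.1 hq.1).1 hq.2).1, ite_self]
  · rcases lt_or_ge Λ t with h3 | h3
    · filter_upwards [cb_evgt W h3] with p hp
      simp only [GG, if_pos hp.le, if_neg (not_le.2 (by linarith : -Λ < p.2))]
    · filter_upwards [cb_evgt W (by linarith : -Λ < t),
        cb_ev2 t ((hc W t h1).2 (abs_le.2 ⟨by linarith, by linarith⟩))] with p hp hq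
      simp only [GG, if_neg (not_le.2 hp), ((hn p.1 hq.1).2 hq.2).1, ite_self]
  · rw [abs_le] at h2
    rcases le_or_gt t (-Λ) with h3 | h3
    · filter_upwards [cb_evlt W (by linarith : t < Λ),
        cb_ev1 t ((hc W t h1).1 (abs_le.2 ⟨by linarith, by linarith⟩))] with p hp hq
      simp only [GG, if_neg (not_le.2 hp), ((hn p.1 hq.1).1 hq.2).1, ite_self]
    rcases le_or_gt Λ t with h4 | h4
    · filter_upwards [cb_evgt W h3,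
        cb_ev2 t ((hc W t h1).2 (abs_le.2 ⟨by linarith, by linarith⟩))] with p hp hq
      simp only [GG, if_neg (not_le.2 hp), ((hn p.1 hq.1).2 hq.2).1, ite_self]
    · filter_upwards [cb_evgt W h3, cb_evlt W h4] with p hp hq
      simp only [GG, if_neg (not_le.2 hp), if_neg (not_le.2 hq)]

end Pool.Agent.Lib.MP_b7c8b0_gt
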