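import Pool.Agent.Lib.MP_b7c8b0_gt.CLeg

open scoped ContDiff ComplexConjugate Topology
open Complex Filter

noncomputable section

namespace Pool.Agent.Lib.MP_b7c8b0_gt

theorem imm_dLog_smul (W : C2) (s : ℝ) (h1 : W.1 ≠ 0) (h2 : W.2 ≠ 0) : dLog W (s • W) = 0 := by
  have a1 : ‖W.1‖ ^ 2 ≠ 0 := pow_ne_zero _ (norm_ne_zero_iff.2 h1)
  have a2 : ‖W.2‖ ^ 2 ≠ 0 := pow_ne_zero _ (norm_ne_zero_iff.2 h2)
  have e1 : ∀ z : ℂ, (conj z * (s • z)).re = s * ‖z‖ ^ 2 := by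
    intro z
    rw [Complex.sq_norm, Complex.normSq_apply]
    simp only [real_smul, mul_re, conj_re, conj_im, ofReal_re, ofReal_im, mul_im]
    ring
  unfold dLog
  rw [Prod.smul_fst, Prod.smul_snd, e1, e1]
  field_simp
  ring

theorem imm_euler {G : C2 → C2} {W : C2} (hd : DifferentiableAt ℝ G W)
    (hh : ∀ s : ℝ, s ≠ 0 → G (s • W) = s ^ 2 • G W) : fderiv ℝ G W W = (2 : ℝ) • G W := by
  have h1 : HasDerivAt (fun s : ℝ => s • W) W 1 := by
    simpa using (hasDerivAt_id (1 : ℝ)).smul_const W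
  have h2 : HasDerivAt (fun s : ℝ => G (s • W)) (fderiv ℝ G W W) 1 := by
    have h : HasFDerivAt G (fderiv ℝ G W) ((1 : ℝ) • W) := by
      rw [one_smul]; exact hd.hasFDerivAt
    exact h.comp_hasDerivAt (1 : ℝ) h1
  have h3 : HasDerivAt (fun s : ℝ => s ^ 2 • G W) ((2 : ℝ) • G W) 1 := by
    simpa using (hasDerivAt_pow 2 (1 : ℝ)).smul_const (G W)
  have h4 : (fun s : ℝ => G (s • W)) =ᶠ[𝓝 1] fun s : ℝ => s ^ 2 • G W := by
    filter_upwards [isOpen_ne.mem_nhds (one_ne_zero (α := ℝ))] with s hs using hh s hs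
  exact h2.unique (h3.congr_of_eventuallyEq h4)

theorem imm_chart {e : ℝ} (he : 0 < e) {G : C2 → C2} {W V : C2} {t τ : ℝ} {F : C2 × ℝ → C2}
    (hF : F =ᶠ[𝓝 (W, t)] fun p => G p.1) (hd : DifferentiableAt ℝ G W)
    (hh : ∀ s : ℝ, s ≠ 0 → G (s • W) = s ^ 2 • G W) (hne : G W ≠ 0)
    (himm : ∀ V, fderiv ℝ G W V = 0 → V = 0)
    (h0 : fderiv ℝ (fun p => Nrm e (F p)) (W, t) (V, τ) = 0) : ∃ s : ℝ, V = s • W := by
  have h1 : (fun p => Nrm e (F p)) =ᶠ[𝓝 (W, t)] fun p : C2 × ℝ => Nrm e (G p.1) := by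
    filter_upwards [hF] with p hp
    rw [hp]
  have hN : DifferentiableAt ℝ (Nrm e) (G W) :=
    (contDiffAt_Nrm he hne).differentiableAt (by simp)
  have h2 : HasFDerivAt (fun p : C2 × ℝ => Nrm e (G p.1))
      ((fderiv ℝ (Nrm e) (G W)).comp ((fderiv ℝ G W).comp (ContinuousLinearMap.fst ℝ C2 ℝ)))
      (W, t) :=
    HasFDerivAt.comp (W, t) (f := fun p : C2 × ℝ => G p.1) hN.hasFDerivAt
      (HasFDerivAt.comp (W, t) (f := fun p : C2 × ℝ => p.1) hd.hasFDerivAt hasFDerivAt_fst)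
  rw [h1.fderiv_eq, h2.fderiv] at h0
  obtain ⟨s, hs⟩ := fderiv_Nrm_eq_zero he hne (V := fderiv ℝ G W V) h0
  refine ⟨s / 2, ?_⟩
  have h3 : fderiv ℝ G W (V - (s / 2) • W) = 0 := by
    rw [map_sub, map_smul, imm_euler hd hh, hs, smul_smul]
    have : s / 2 * 2 = s := by ring
    rw [this, sub_self]
  exact sub_eq_zero.1 (himm _ h3)

theorem imm_fold {P : C2 × ℝ → Cov} {W : C2} {t τ s : ℝ} (hd : DifferentiableAt ℝ P (W, t))
    (hh : ∀ r : ℝ, r ≠ 0 → ∀ t', P (r • W, t') = P (W, t')) {J : C2} {d : ℝ}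
    (hder : HasDerivAt (fun t' => P (W, t') J) d t) :
    fderiv ℝ P (W, t) (s • W, τ) J = d * τ := by
  have h1 : HasDerivAt (fun r : ℝ => (1 + r * s) • W) (s • W) 0 := by
    simpa using (((hasDerivAt_id (0 : ℝ)).mul_const s).const_add 1).smul_const W
  have h2 : HasDerivAt (fun r : ℝ => t + r * τ) τ 0 := by
    simpa using ((hasDerivAt_id (0 : ℝ)).mul_const τ).const_add t
  have h3 : HasDerivAt (fun r : ℝ => (((1 + r * s) • W, t + r * τ) : C2 × ℝ)) (s • W, τ) 0 :=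
    h1.prodMk h2
  have h4 : HasFDerivAt P (fderiv ℝ P (W, t)) (((1 + 0 * s) • W, t + 0 * τ) : C2 × ℝ) := by
    simpa using hd.hasFDerivAt
  have h5 : HasDerivAt (fun r : ℝ => P ((1 + r * s) • W, t + r * τ))
      (fderiv ℝ P (W, t) (s • W, τ)) 0 := h4.comp_hasDerivAt (0 : ℝ) h3
  have h6 : HasDerivAt (fun r : ℝ => P ((1 + r * s) • W, t + r * τ) J)
      (fderiv ℝ P (W, t) (s • W, τ) J) 0 := by
    simpa using h5.clm_apply (hasDerivAt_const (0 : ℝ) J)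
  have h7 : HasDerivAt (fun r : ℝ => P (W, t + r * τ) J) (d * τ) 0 := by
    have h : HasDerivAt (fun t' => P (W, t') J) d (t + 0 * τ) := by simpa using hder
    exact h.comp (0 : ℝ) h2
  have h8 : (fun r : ℝ => P ((1 + r * s) • W, t + r * τ) J) =ᶠ[𝓝 0]
      fun r : ℝ => P (W, t + r * τ) J := by
    have hc : Continuous fun r : ℝ => 1 + r * s := by fun_prop
    have : ∀ᶠ r : ℝ in 𝓝 0, 1 + r * s ≠ 0 :=
      hc.continuousAt.eventually_ne (by simp)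
    filter_upwards [this] with r hr
    rw [hh _ hr]
  exact h6.unique (h7.congr_of_eventuallyEq h8)

theorem imm_coef (ζ : Zig) (Λ t A B E a b D : ℝ) :
    HasDerivAt (fun r => (1 - n1 ζ Λ r) * A + (1 - n2 ζ Λ r) * B
      + (n1 ζ Λ r + n2 ζ Λ r - 1) * E + (k1 ζ Λ r * a + k2 ζ Λ r * b) * D)
      (-deriv ζ.n (t + Λ) * A + deriv ζ.n (t - Λ) * B
        + (deriv ζ.n (t + Λ) - deriv ζ.n (t - Λ)) * E
        + (-deriv ζ.k (t + Λ) * a + -deriv ζ.k (t - Λ) * b) * D) t := by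
  have hn : Differentiable ℝ ζ.n := ζ.sn.differentiable (by simp)
  have hk : Differentiable ℝ ζ.k := ζ.sk.differentiable (by simp)
  have a1 : HasDerivAt (n1 ζ Λ) (deriv ζ.n (t + Λ)) t :=
    (hn (t + Λ)).hasDerivAt.comp_add_const t Λ
  have a2 : HasDerivAt (n2 ζ Λ) (-deriv ζ.n (t - Λ)) t :=
    ((hn (t - Λ)).hasDerivAt.comp_sub_const t Λ).const_sub 1
  have a3 : HasDerivAt (k1 ζ Λ) (-deriv ζ.k (t + Λ)) t :=
    ((hk (t + Λ)).hasDerivAt.comp_add_const t Λ).neg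
  have a4 : HasDerivAt (k2 ζ Λ) (-deriv ζ.k (t - Λ)) t :=
    ((hk (t - Λ)).hasDerivAt.comp_sub_const t Λ).neg
  have h := ((((a1.const_sub 1).mul_const A).add ((a2.const_sub 1).mul_const B)).add
    (((a1.add a2).sub_const 1).mul_const E)).add
    (((a3.mul_const a).add (a4.mul_const b)).mul_const D)
  refine HasDerivAt.congr_deriv h ?_
  ring

theorem imm_dk (ζ : Zig) {x : ℝ} (hx : 1 < |x|) : deriv ζ.k x = 0 := by
  have h : ζ.k =ᶠ[𝓝 x] fun _ => 0 := by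
    filter_upwards [continuous_abs.continuousAt.eventually (lt_mem_nhds hx)] with y hy
    exact ζ.k0 y (le_of_lt hy)
  rw [h.deriv_eq, deriv_const]

theorem imm_dn (ζ : Zig) {x : ℝ} (hx : 1 < |x|) : deriv ζ.n x = 0 := by
  rw [ζ.dn, ζ.k0 x hx.le, zero_mul]

theorem imm_dn0 (ζ : Zig) : deriv ζ.n 0 = 0 := by
  rw [ζ.dn, ζ.dg0, mul_zero]

theorem imm_sq2_diff : Differentiable ℝ sq2 := by
  unfold sq2
  fun_prop

theorem imm_Pu_diff : Differentiable ℝ Pu := by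
  have h : ContDiff ℝ 1 Pu := by
    rw [contDiff_clm_apply_iff]
    intro V
    simp only [Pu, cov_apply]
    have hc : ContDiff ℝ 1 (fun z : ℂ => conj z) := Complex.conjCLE.contDiff
    have h1 : ContDiff ℝ 1 (fun w : C2 => conj w.1) := hc.comp contDiff_fst
    have h2 : ContDiff ℝ 1 (fun w : C2 => conj w.2) := hc.comp contDiff_snd
    refine Complex.reCLM.contDiff.comp (f := fun w : C2 =>
      3 / 2 * conj w.2 ^ 3 * w.1 * V.1 + 3 / 2 * w.2 * conj w.1 ^ 3 * V.2) ?_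
    exact (((contDiff_const.mul (h2.pow 3)).mul contDiff_fst).mul contDiff_const).add
      (((contDiff_const.mul contDiff_snd).mul (h1.pow 3)).mul contDiff_const)
  exact h.differentiable (by simp)

theorem imm_Lin_ne {W : C2} (hW : W ≠ 0) : Lin W ≠ 0 := by
  intro h
  apply hW
  have h1 := Xc_Lin W
  have h2 := Yc_Lin W
  rw [h] at h1 h2
  ext
  · rw [← h1]; simp [Xc]
  · rw [← h2]; simp [Yc, Xc]

theorem imm_sq2_ne {w : C2} (hw : w ≠ 0) : sq2 w ≠ 0 := by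
  intro h
  apply hw
  have h1 : w.1 ^ 2 = 0 := congrArg Prod.fst h
  have h2 : w.2 ^ 2 = 0 := congrArg Prod.snd h
  ext
  · simpa using h1
  · simpa using h2

/-- The derivative in `t` of the covector at a point where the projection has its middle form. -/
theorem imm_PC_deriv {e C : ℝ} {κ : Cut} (he : 0 < e) (ζ : Zig) {Λ t : ℝ} {W : C2} (hW : W ≠ 0)
    (hG : GG κ Λ =ᶠ[𝓝 (W, t)] fun p => sq2 (Lin p.1)) (J : C2)
    (h1 : deriv ζ.n (t + Λ) = 0) (h2 : deriv ζ.n (t - Λ) = 0) :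
    HasDerivAt (fun t' => PC e C ζ κ Λ (W, t') J)
      ((deriv ζ.k (t + Λ) * D1 C (wn e W) - deriv ζ.k (t - Λ) * D0 (wn e W)) * PR (wn e W) J) t := by
  have hc : Continuous fun t' : ℝ => ((W, t') : C2 × ℝ) := by fun_prop
  have h3 : ∀ᶠ t' in 𝓝 t, GG κ Λ (W, t') = sq2 (Lin W) := hc.continuousAt.eventually hG
  have h := imm_coef ζ Λ t (fderiv ℝ (y1 C) (sq2 (wn e W)) J) (fderiv ℝ y0 (sq2 (wn e W)) J)
    (Pu (wn e W) J) (uu (wn e W) - y1 C (sq2 (wn e W))) (uu (wn e W) - y0 (sq2 (wn e W)))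
    (PR (wn e W) J)
  rw [h1, h2] at h
  refine HasDerivAt.congr_deriv (h.congr_of_eventuallyEq ?_) ?_
  · filter_upwards [h3] with t' ht'
    have hP : PiC e κ Λ (W, t') = sq2 (wn e W) := by
      rw [PiC, ht', sq2_wn he hW]
    simp only [PC, hP, add_apply, smul_apply, smul_eq_mul]
  · simp only [D1, D0]
    ring

theorem cover_imm {e C : ℝ} {κ : Cut} (h : Par e C κ) (ζ : Zig) :
    ∀ᶠ Λ in atTop, ∀ W t, Con (Phi ζ Λ) W t → ∀ V τ, dLog W V = deriv (Phi ζ Λ) t * τ →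
      fderiv ℝ (PiC e κ Λ) (W, t) (V, τ) = 0 →
      (∀ c, fderiv ℝ (PC e C ζ κ Λ) (W, t) (V, τ) (Jv e (PiC e κ Λ (W, t)) c) = 0) →
      τ = 0 ∧ ∃ s : ℝ, V = s • W := by
  have he := h.epos
  obtain ⟨ρ1, hρ1, hfold⟩ := h.ju.fold
  obtain ⟨ρ2, hρ2, hpos⟩ := h.j0.pos
  filter_upwards [base (e := e) ζ h.gok, cover_smooth h ζ, collar ζ hρ1, collar ζ hρ2]
    with Λ hB hS hc1 hc2
  intro W t hCon V τ hlog hPi hP
  have hbig := hB.big
  have hW1 : W.1 ≠ 0 := hCon.1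
  have hW2 : W.2 ≠ 0 := hCon.2.1
  have hW : W ≠ 0 := fun h0 => hW1 (by rw [h0]; rfl)
  have hV : ∃ s : ℝ, V = s • W := by
    by_cases ht1 : t ≤ -Λ + 2
    · exact imm_chart he (hB.loc1 W t hCon ht1) ((h.gok.s1 W hW1).differentiableAt (by simp))
        (fun s hs => h.gok.h1 W s hs) (fun h0 => h.gok.ne1 W hW1 (by rw [h0]; rfl))
        (fun V' => h.gok.imm1 W V' hW1) hPi
    by_cases ht2 : Λ - 2 ≤ t
    · exact imm_chart he (hB.loc2 W t hCon ht2) ((h.gok.s2 W hW2).differentiableAt (by simp))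
        (fun s hs => h.gok.h2 W s hs) (fun h0 => h.gok.ne2 W hW2 (by rw [h0]; rfl))
        (fun V' => h.gok.imm2 W V' hW2) hPi
    push Not at ht1 ht2
    have hG := hB.loc0 W t hCon (abs_le.2 ⟨by linarith, by linarith⟩)
    have hne : ∀ᶠ p : C2 × ℝ in 𝓝 (W, t), p.1 ≠ 0 :=
      continuous_fst.continuousAt.eventually_ne hW
    have hlo : ∀ᶠ p : C2 × ℝ in 𝓝 (W, t), -Λ + 2 < p.2 :=
      continuous_snd.continuousAt.eventually (lt_mem_nhds ht1)
    have hhi : ∀ᶠ p : C2 × ℝ in 𝓝 (W, t), p.2 < Λ - 2 :=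
      continuous_snd.continuousAt.eventually (gt_mem_nhds ht2)
    have e1 : PiC e κ Λ =ᶠ[𝓝 (W, t)] fun p => sq2 (wn e p.1) := by
      filter_upwards [hG, hne] with p hp hp0
      rw [PiC, hp, sq2_wn he hp0]
    have e2 : PC e C ζ κ Λ =ᶠ[𝓝 (W, t)] fun p => Pu (wn e p.1) := by
      filter_upwards [hlo, hhi] with p hp1 hp2
      have b1 : n1 ζ Λ p.2 = 1 := ζ.n1 _ (by linarith)
      have b2 : n2 ζ Λ p.2 = 1 := by rw [n2, ζ.n0 _ (by linarith), sub_zero]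
      have b3 : k1 ζ Λ p.2 = 0 := by
        rw [k1, ζ.k0 _ (le_trans (by linarith) (le_abs_self _)), neg_zero]
      have b4 : k2 ζ Λ p.2 = 0 := by
        rw [k2, ζ.k0 _ (le_trans (by linarith) (neg_le_abs _)), neg_zero]
      simp [PC, b1, b2, b3, b4]
    have hwn : HasFDerivAt (fun p : C2 × ℝ => wn e p.1)
        ((fderiv ℝ (wn e) W).comp (ContinuousLinearMap.fst ℝ C2 ℝ)) (W, t) :=
      HasFDerivAt.comp (W, t) (f := fun p : C2 × ℝ => p.1)
        ((contDiffAt_wn he hW).differentiableAt (by simp)).hasFDerivAt hasFDerivAt_fst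
    have d1 := (HasFDerivAt.comp (W, t) (f := fun p : C2 × ℝ => wn e p.1)
      (imm_sq2_diff (wn e W)).hasFDerivAt hwn).fderiv
    have d2 := (HasFDerivAt.comp (W, t) (f := fun p : C2 × ℝ => wn e p.1)
      (imm_Pu_diff (wn e W)).hasFDerivAt hwn).fderiv
    have hw : wn e W ≠ 0 := by
      obtain ⟨s, hs, hs1, -⟩ := wn_eq he hW
      rw [hs1]
      exact smul_ne_zero hs.ne' (imm_Lin_ne hW)
    refine fderiv_wn_eq_zero he hW (h.ju.branch (wn e W) _ hw ?_ ?_)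
    · rw [e1.fderiv_eq] at hPi
      have := congrArg (fun L : C2 × ℝ →L[ℝ] C2 => L (V, τ)) d1
      exact this.symm.trans hPi
    · intro c
      have hc := hP c
      rw [e2.fderiv_eq, e1.self_of_nhds] at hc
      have := congrArg (fun L : C2 × ℝ →L[ℝ] Cov => L (V, τ) (Jv e (sq2 (wn e W)) c)) d2
      exact this.symm.trans hc
  refine ⟨?_, hV⟩
  obtain ⟨s, rfl⟩ := hV
  rw [imm_dLog_smul W s hW1 hW2] at hlog
  by_cases hfoldt : t ≠ Λ ∧ t ≠ -Λ
  · exact (mul_eq_zero.1 hlog.symm).resolve_left (hB.dphi t hfoldt.1 hfoldt.2)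
  have ht : t = Λ ∨ t = -Λ := by tauto
  have habs : |t| ≤ Λ + 2 := by
    rcases ht with rfl | rfl
    · exact abs_le.2 ⟨by linarith, by linarith⟩
    · exact abs_le.2 ⟨by linarith, by linarith⟩
  have hG := hB.loc0 W t hCon habs
  have hPiC : PiC e κ Λ (W, t) = sq2 (wn e W) := by
    rw [PiC, hG.self_of_nhds, sq2_wn he hW]
  obtain ⟨r, hr, -, hX, hY⟩ := wn_eq he hW
  have hX0 : Xc (wn e W) ≠ 0 := by rw [hX]; exact smul_ne_zero hr.ne' hW1
  have hY0 : Yc (wn e W) ≠ 0 := by rw [hY]; exact smul_ne_zero hr.ne' hW2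
  have hN : Nsq e (sq2 (wn e W)) = 1 := by
    rw [sq2_wn he hW]
    exact Nsq_Nrm he (imm_sq2_ne (imm_Lin_ne hW))
  have hscale : ∀ (a b : ℂ) (ρ : ℝ), ‖a‖ ^ 2 < ρ * ‖b‖ ^ 2 → ‖r • a‖ ^ 2 ≤ ρ * ‖r • b‖ ^ 2 := by
    intro a b ρ hab
    rw [norm_smul, norm_smul, mul_pow, mul_pow, mul_left_comm]
    exact mul_le_mul_of_nonneg_left hab.le (sq_nonneg _)
  have hd : DifferentiableAt ℝ (PC e C ζ κ Λ) (W, t) :=
    (hS W t hCon).2.2.differentiableAt (by simp)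
  have hh : ∀ q : ℝ, q ≠ 0 → ∀ t', PC e C ζ κ Λ (q • W, t') = PC e C ζ κ Λ (W, t') :=
    fun q hq t' => (cover_hom h ζ Λ W t' hW q hq).2.2
  rcases ht with ht | ht
  · have u0 : t - Λ = 0 := by linarith
    have u1 : 1 < |t + Λ| := lt_of_lt_of_le (by linarith) (le_abs_self _)
    have hn1 : near2 ρ1 (wn e W) := by
      unfold near2
      rw [hX, hY]
      exact hscale _ _ _ ((hc1 W t hCon).2 (by rw [u0]; simp))
    have hn2 : near2 ρ2 (wn e W) := by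
      unfold near2
      rw [hX, hY]
      exact hscale _ _ _ ((hc2 W t hCon).2 (by rw [u0]; simp))
    obtain ⟨c, hc⟩ := hfold _ (Or.inr hn1) hX0 hY0
    have hD := hpos _ hN hn2 hX0
    have hder := imm_PC_deriv (C := C) he ζ hW hG (Jv e (sq2 (wn e W)) c) (imm_dn ζ u1)
      (by rw [u0]; exact imm_dn0 ζ)
    have key := hP c
    rw [hPiC, imm_fold hd hh hder, imm_dk ζ u1, u0, zero_mul, zero_sub] at key
    exact (mul_eq_zero.1 key).resolve_left
      (mul_ne_zero (neg_ne_zero.2 (mul_ne_zero ζ.dk hD.ne')) hc)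
  · have u0 : t + Λ = 0 := by linarith
    have u1 : 1 < |t - Λ| := lt_of_lt_of_le (by linarith) (neg_le_abs _)
    have hn1 : near1 ρ1 (wn e W) := by
      unfold near1
      rw [hX, hY]
      exact hscale _ _ _ ((hc1 W t hCon).1 (by rw [u0]; simp))
    obtain ⟨c, hc⟩ := hfold _ (Or.inl hn1) hX0 hY0
    have hD := h.j1.pos _ hN hY0
    have hder := imm_PC_deriv (C := C) he ζ hW hG (Jv e (sq2 (wn e W)) c)
      (by rw [u0]; exact imm_dn0 ζ) (imm_dn ζ u1)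
    have key := hP c
    rw [hPiC, imm_fold hd hh hder, imm_dk ζ u1, u0, zero_mul, sub_zero] at key
    exact (mul_eq_zero.1 key).resolve_left (mul_ne_zero (mul_ne_zero ζ.dk hD.ne') hc)

end Pool.Agent.Lib.MP_b7c8b0_gt
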