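import Pool.Agent.Lib.MP_b7c8b0_gt.CBase

open scoped ContDiff ComplexConjugate Topology
open Complex Filter

noncomputable section

namespace Pool.Agent.Lib.MP_b7c8b0_gt

theorem cinj_jn_nonneg (e : ℝ) (w : C2) (a : ℝ) (B : Cov) : 0 ≤ jn e w a B := by
  unfold jn
  positivity

theorem cinj_jn_comb (e : ℝ) (w : C2) (a b x y : ℝ) (B B' : Cov) :
    jn e w (a * x + b * y) (a • B + b • B') ≤ |a| * jn e w x B + |b| * jn e w y B' := by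
  have key : ∀ p q : ℝ, |a * p + b * q| ≤ |a| * |p| + |b| * |q| := fun p q => by
    rw [← abs_mul, ← abs_mul]
    exact abs_add_le _ _
  simp only [jn, _root_.add_apply, _root_.smul_apply, smul_eq_mul]
  linarith [key x y, key (B (Jv e (sq2 w) 1)) (B' (Jv e (sq2 w) 1)),
    key (B (Jv e (sq2 w) I)) (B' (Jv e (sq2 w) I))]

theorem cinj_jn_congr {e : ℝ} {w w' : C2} {a a' : ℝ} {B B' : Cov} (hw : sq2 w = sq2 w')
    (ha : a = a') (hB : ∀ c, B (Jv e (sq2 w) c) = B' (Jv e (sq2 w) c)) :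
    jn e w a B = jn e w' a' B' := by
  unfold jn
  rw [← hw, ha, hB, hB]

theorem cinj_n_nonneg (ζ : Zig) (t : ℝ) : 0 ≤ ζ.n t := by
  have h := ζ.nmono (min_le_left t (-1))
  rwa [ζ.n0 _ (min_le_right _ _)] at h

theorem cinj_n_le_one (ζ : Zig) (t : ℝ) : ζ.n t ≤ 1 := by
  have h := ζ.nmono (le_max_left t 1)
  rwa [ζ.n1 _ (le_max_right _ _)] at h

theorem cinj_n_lt (ζ : Zig) {a b : ℝ} (hab : a < b) (ha : a < 1) (hb : -1 < b) :
    ζ.n a < ζ.n b := by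
  have h1 : max a (-1) < min b 1 := by
    rw [max_lt_iff, lt_min_iff, lt_min_iff]
    exact ⟨⟨hab, ha⟩, hb, by norm_num⟩
  have h2 := ζ.nstrict ⟨le_max_right a (-1), h1.le.trans (min_le_right _ _)⟩
    ⟨(le_max_right a (-1)).trans h1.le, min_le_right b 1⟩ h1
  exact (ζ.nmono (le_max_left _ _)).trans_lt (h2.trans_le (ζ.nmono (min_le_left _ _)))

theorem cinj_ne {Φ : ℝ → ℝ} {W : C2} {t : ℝ} (h : Con Φ W t) : W ≠ 0 := fun h0 =>
  h.1 (by rw [h0]; rfl)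

theorem cinj_sq2_ne {w : C2} (hw : w ≠ 0) : sq2 w ≠ 0 := by
  intro h
  have h1 : w.1 ^ 2 = 0 := congrArg Prod.fst h
  have h2 : w.2 ^ 2 = 0 := congrArg Prod.snd h
  exact hw (Prod.ext (pow_eq_zero_iff two_ne_zero |>.1 h1) (pow_eq_zero_iff two_ne_zero |>.1 h2))

theorem cinj_Lin_ne {W : C2} (h : W.1 ≠ 0) : Lin W ≠ 0 := by
  intro h0
  apply h
  rw [← Xc_Lin W, h0]
  simp [Xc]

theorem cinj_unit {e : ℝ} (he : 0 < e) {Φ : ℝ → ℝ} {W : C2} {t : ℝ} (h : Con Φ W t) :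
    Nsq e (sq2 (wn e W)) = 1 := by
  rw [sq2_wn he (cinj_ne h)]
  exact Nsq_Nrm he (cinj_sq2_ne (cinj_Lin_ne h.1))

theorem cinj_wn_ne {e : ℝ} (he : 0 < e) {Φ : ℝ → ℝ} {W : C2} {t : ℝ} (h : Con Φ W t) :
    wn e W ≠ 0 ∧ Xc (wn e W) ≠ 0 ∧ Yc (wn e W) ≠ 0 := by
  obtain ⟨s, hs, h1, h2, h3⟩ := wn_eq he (cinj_ne h)
  rw [h2, h3, h1]
  exact ⟨smul_ne_zero hs.ne' (cinj_Lin_ne h.1), smul_ne_zero hs.ne' h.1, smul_ne_zero hs.ne' h.2.1⟩

theorem cinj_near {e : ℝ} (he : 0 < e) {W : C2} (hW : W ≠ 0) (ρ : ℝ) :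
    (near1 ρ (wn e W) ↔ ‖W.2‖ ^ 2 ≤ ρ * ‖W.1‖ ^ 2) ∧
      (near2 ρ (wn e W) ↔ ‖W.1‖ ^ 2 ≤ ρ * ‖W.2‖ ^ 2) := by
  obtain ⟨s, hs, -, h2, h3⟩ := wn_eq he hW
  have hs2 : 0 < |s| ^ 2 := by positivity
  unfold near1 near2
  rw [h2, h3, norm_smul, norm_smul, Real.norm_eq_abs, mul_pow, mul_pow, mul_left_comm,
    mul_left_comm ρ]
  exact ⟨mul_le_mul_iff_right₀ hs2, mul_le_mul_iff_right₀ hs2⟩

/-- Proportional points have the same value of the zigzag. -/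
theorem cinj_phi {Φ : ℝ → ℝ} {W W' : C2} {t t' s : ℝ} (h : Con Φ W t) (h' : Con Φ W' t')
    (hs : W' = s • W) : Φ t = Φ t' := by
  have hs0 : s ≠ 0 := by
    rintro rfl
    exact cinj_ne h' (by rw [hs, zero_smul])
  have hs2 : |s| ^ 2 ≠ 0 := by positivity
  rw [← h.2.2, ← h'.2.2, hs, Prod.smul_fst, Prod.smul_snd, norm_smul, norm_smul, Real.norm_eq_abs,
    mul_pow, mul_pow, mul_div_mul_left _ _ hs2]

/-- A homogeneous chart which is injective up to sign is injective on rays. -/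
theorem cinj_ray {e : ℝ} (he : 0 < e) {G : C2 → C2} {S : C2 → ℂ}
    (hS : ∀ (s : ℝ) W, S (s • W) = s • S W)
    (hh : ∀ W (s : ℝ), s ≠ 0 → G (s • W) = s ^ 2 • G W) (hne : ∀ W, S W ≠ 0 → (G W).1 ≠ 0)
    (hinj : ∀ W W', S W ≠ 0 → G W = G W' → W' = W ∨ W' = -W) {W W' : C2} (hW : S W ≠ 0)
    (hW' : S W' ≠ 0) (h : Nrm e (G W) = Nrm e (G W')) : ∃ s : ℝ, W' = s • W := by
  have h0 : ∀ V, S V ≠ 0 → G V ≠ 0 := fun V hV h1 => hne V hV (by rw [h1]; rfl)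
  obtain ⟨s, hs, h1⟩ := Nrm_eq he (h0 W hW) (h0 W' hW') h
  have hr : √s ≠ 0 := (Real.sqrt_pos.2 hs).ne'
  have h2 : G (√s • W) = G W' := by rw [hh W _ hr, Real.sq_sqrt hs.le, h1]
  rcases hinj _ _ (by rw [hS]; exact smul_ne_zero hr hW) h2 with h3 | h3
  · exact ⟨√s, h3⟩
  · exact ⟨-√s, by rw [h3, neg_smul]⟩

section Forms

variable {e C : ℝ} {κ : Cut} {ζ : Zig} {Λ : ℝ} {W : C2} {t : ℝ}

theorem cinj_lo1 (ht : t ≤ -Λ - 1) : n1 ζ Λ t = 0 ∧ k1 ζ Λ t = 0 :=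
  ⟨ζ.n0 _ (by linarith), by
    rw [k1, ζ.k0 _ (le_abs.2 (Or.inr (by linarith))), neg_zero]⟩

theorem cinj_hi1 (ht : -Λ + 1 ≤ t) : n1 ζ Λ t = 1 ∧ k1 ζ Λ t = 0 :=
  ⟨ζ.n1 _ (by linarith), by
    rw [k1, ζ.k0 _ (le_abs.2 (Or.inl (by linarith))), neg_zero]⟩

theorem cinj_lo2 (ht : t ≤ Λ - 1) : n2 ζ Λ t = 1 ∧ k2 ζ Λ t = 0 :=
  ⟨by rw [n2, ζ.n0 _ (by linarith), sub_zero], by
    rw [k2, ζ.k0 _ (le_abs.2 (Or.inr (by linarith))), neg_zero]⟩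

theorem cinj_hi2 (ht : Λ + 1 ≤ t) : n2 ζ Λ t = 0 ∧ k2 ζ Λ t = 0 :=
  ⟨by rw [n2, ζ.n1 _ (by linarith), sub_self], by
    rw [k2, ζ.k0 _ (le_abs.2 (Or.inl (by linarith))), neg_zero]⟩

theorem cinj_pi1 (ht : t ≤ -Λ) : PiC e κ Λ (W, t) = Nrm e (G1 κ W) := by
  simp only [PiC, GG, if_pos ht]

theorem cinj_pi2 (hΛ : 3 ≤ Λ) (ht : Λ ≤ t) : PiC e κ Λ (W, t) = Nrm e (G2 κ W) := by
  simp only [PiC, GG, if_neg (show ¬ t ≤ -Λ by linarith), if_pos ht]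

theorem cinj_far1 (hΛ : 3 ≤ Λ) (ht : t ≤ -Λ - 1) :
    UC e C ζ κ Λ (W, t) = y1 C (PiC e κ Λ (W, t)) := by
  simp [UC, (cinj_lo1 ht).1, (cinj_lo2 (ζ := ζ) (show t ≤ Λ - 1 by linarith)).1]

theorem cinj_far2 (hΛ : 3 ≤ Λ) (ht : Λ + 1 ≤ t) :
    UC e C ζ κ Λ (W, t) = y0 (PiC e κ Λ (W, t)) ∧
      PC e C ζ κ Λ (W, t) = fderiv ℝ y0 (PiC e κ Λ (W, t)) := by
  have h1 := cinj_hi1 (ζ := ζ) (show -Λ + 1 ≤ t by linarith)
  have h2 := cinj_hi2 (ζ := ζ) ht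
  constructor
  · simp [UC, h1.1, h2.1]
  · simp [PC, h1.1, h1.2, h2.1, h2.2]

theorem cinj_pi0 (he : 0 < e) (hb : Base e ζ κ Λ) (h : Con (Phi ζ Λ) W t) (ht : |t| ≤ Λ + 2) :
    PiC e κ Λ (W, t) = sq2 (wn e W) := by
  rw [PiC, (hb.loc0 W t h ht).eq_of_nhds, sq2_wn he (cinj_ne h)]

theorem cinj_U0 (hp : PiC e κ Λ (W, t) = sq2 (wn e W)) :
    UC e C ζ κ Λ (W, t) - uu (wn e W) =
      (1 - n1 ζ Λ t) * D1 C (wn e W) - (1 - n2 ζ Λ t) * D0 (wn e W) := by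
  simp only [UC, hp, D1, D0]
  ring

theorem cinj_P0 (hp : PiC e κ Λ (W, t) = sq2 (wn e W)) :
    PC e C ζ κ Λ (W, t) - Pu (wn e W) =
      ((1 - n1 ζ Λ t) • PD1 C (wn e W) + (-k1 ζ Λ t) • (D1 C (wn e W) • PR (wn e W))) +
      ((n2 ζ Λ t - 1) • PD0 (wn e W) + k2 ζ Λ t • (D0 (wn e W) • PR (wn e W))) := by
  simp only [PC, hp, D1, D0, PD1, PD0]
  module

theorem cinj_mid (hp : PiC e κ Λ (W, t) = sq2 (wn e W)) (ht : |t| ≤ Λ - 1) :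
    UC e C ζ κ Λ (W, t) - uu (wn e W) = 0 ∧ PC e C ζ κ Λ (W, t) - Pu (wn e W) = 0 := by
  have h1 := cinj_hi1 (ζ := ζ) (show -Λ + 1 ≤ t by linarith [(abs_le.1 ht).1])
  have h2 := cinj_lo2 (ζ := ζ) (abs_le.1 ht).2
  rw [cinj_U0 hp, cinj_P0 hp, h1.1, h1.2, h2.1, h2.2]
  simp

end Forms

/-- In the collars the normalized point is close to one of the two lines. -/
theorem cinj_collar {e : ℝ} (he : 0 < e) (ζ : Zig) {ρ : ℝ} (hρ : 0 < ρ) :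
    ∀ᶠ Λ in atTop, ∀ W t, Con (Phi ζ Λ) W t →
      (|t + Λ| ≤ 3 → near1 ρ (wn e W)) ∧ (|t - Λ| ≤ 3 → near2 ρ (wn e W)) := by
  filter_upwards [collar ζ hρ] with Λ hΛ W t h
  exact ⟨fun ht => (cinj_near he (cinj_ne h) ρ).1.2 ((hΛ W t h).1 ht).le,
    fun ht => (cinj_near he (cinj_ne h) ρ).2.2 ((hΛ W t h).2 ht).le⟩

/-- The jet is close to the jet of the two-valued function. -/
theorem cinj_err {e C : ℝ} {κ : Cut} (h : Par e C κ) (ζ : Zig) {η : ℝ} (hη : 0 < η) :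
    ∀ᶠ Λ in atTop, ∀ W t, Con (Phi ζ Λ) W t → |t| ≤ Λ + 2 →
      jn e (wn e W) (UC e C ζ κ Λ (W, t) - uu (wn e W)) (PC e C ζ κ Λ (W, t) - Pu (wn e W))
        ≤ η := by
  have hK : 0 ≤ ζ.K := (abs_nonneg _).trans (ζ.kb 0)
  have hη' : 0 < η / (1 + ζ.K) := by positivity
  obtain ⟨ρ0, hρ0, h0⟩ := h.j0.small _ hη'
  obtain ⟨ρ1, hρ1, h1⟩ := h.j1.small _ hη'
  have key : ∀ (w : C2) (a b x : ℝ) (B B' : Cov), |a| ≤ 1 → |b| ≤ ζ.K →
      jn e w x B ≤ η / (1 + ζ.K) → jn e w 0 B' ≤ η / (1 + ζ.K) →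
      jn e w (a * x + b * 0) (a • B + b • B') ≤ η := by
    intro w a b x B B' ha hb h2 h3
    refine (cinj_jn_comb e w a b x 0 B B').trans ?_
    calc |a| * jn e w x B + |b| * jn e w 0 B' ≤
          1 * (η / (1 + ζ.K)) + ζ.K * (η / (1 + ζ.K)) :=
          add_le_add (mul_le_mul ha h2 (cinj_jn_nonneg _ _ _ _) zero_le_one)
            (mul_le_mul hb h3 (cinj_jn_nonneg _ _ _ _) hK)
      _ = η := by field_simp
  filter_upwards [base (e := e) ζ h.gok, cinj_collar h.epos ζ hρ0, cinj_collar h.epos ζ hρ1]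
    with Λ hb hc0 hc1 W t hW ht
  have hp := cinj_pi0 h.epos hb hW ht
  have hu := cinj_unit h.epos hW
  have hΛ := hb.big
  obtain ⟨ht1, ht2⟩ := abs_le.1 ht
  rcases le_total t 0 with h2 | h2
  · rcases le_total t (-Λ + 1) with h3 | h3
    · have h4 := cinj_lo2 (ζ := ζ) (show t ≤ Λ - 1 by linarith)
      have h5 := h1 _ hu ((hc1 W t hW).1 (abs_le.2 ⟨by linarith, by linarith⟩))
      have h6 := key (wn e W) (1 - n1 ζ Λ t) (-k1 ζ Λ t) _ _ _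
        (abs_le.2 ⟨by linarith [cinj_n_le_one ζ (t + Λ), show n1 ζ Λ t = ζ.n (t + Λ) from rfl],
          by linarith [cinj_n_nonneg ζ (t + Λ), show n1 ζ Λ t = ζ.n (t + Λ) from rfl]⟩)
        (by rw [k1, neg_neg]; exact ζ.kb _) h5.1 h5.2
      rw [cinj_U0 hp, cinj_P0 hp, h4.1, h4.2]
      simpa using h6
    · obtain ⟨h4, h5⟩ := cinj_mid (C := C) (ζ := ζ) hp (abs_le.2 ⟨by linarith, by linarith⟩)
      rw [h4, h5]
      simpa [jn] using hη.le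
  · rcases le_total (Λ - 1) t with h3 | h3
    · have h4 := cinj_hi1 (ζ := ζ) (show -Λ + 1 ≤ t by linarith)
      have h5 := h0 _ hu ((hc0 W t hW).2 (abs_le.2 ⟨by linarith, by linarith⟩))
      have h6 := key (wn e W) (n2 ζ Λ t - 1) (k2 ζ Λ t) _ _ _
        (abs_le.2 ⟨by linarith [cinj_n_le_one ζ (t - Λ), show n2 ζ Λ t = 1 - ζ.n (t - Λ) from rfl],
          by linarith [cinj_n_nonneg ζ (t - Λ), show n2 ζ Λ t = 1 - ζ.n (t - Λ) from rfl]⟩)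
        (by rw [k2, abs_neg]; exact ζ.kb _) h5.1 h5.2
      rw [cinj_U0 hp, cinj_P0 hp, h4.1, h4.2]
      have h7 : (1 - 1) * D1 C (wn e W) - (1 - n2 ζ Λ t) * D0 (wn e W) =
          (n2 ζ Λ t - 1) * D0 (wn e W) + k2 ζ Λ t * 0 := by ring
      rw [h7]
      simpa using h6
    · obtain ⟨h4, h5⟩ := cinj_mid (C := C) (ζ := ζ) hp (abs_le.2 ⟨by linarith, by linarith⟩)
      rw [h4, h5]
      simpa [jn] using hη.le

/-- Everything that is needed on a large parameter. -/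
structure CInjBig (e C : ℝ) (κ : Cut) (ζ : Zig) (Λ : ℝ) : Prop where
  b : Base e ζ κ Λ
  col : ∀ W t, Con (Phi ζ Λ) W t → Λ - 1 ≤ |t| → |t| ≤ Λ + 2 →
    near1 (1 / 16) (wn e W) ∨ near2 (1 / 16) (wn e W)
  pos : ∀ W t, Con (Phi ζ Λ) W t → |t - Λ| ≤ 3 → 0 < D0 (wn e W)
  m : ∃ η : ℝ, (∀ W t, Con (Phi ζ Λ) W t → |t| ≤ Λ + 2 →
      jn e (wn e W) (UC e C ζ κ Λ (W, t) - uu (wn e W)) (PC e C ζ κ Λ (W, t) - Pu (wn e W))
        ≤ η) ∧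
    (∀ w, Nsq e (sq2 w) = 1 → near1 (1 / 16) w ∨ near2 (1 / 16) w → η < jn e w (uu w) (Pu w)) ∧
    (∀ W t, Con (Phi ζ Λ) W t → η < jn e (wn e W) (D0 (wn e W)) (PD0 (wn e W)) ∨
      (G2 κ W = sq2 (Lin W) ∧ 0 < D0 (wn e W))) ∧
    (∀ W t, Con (Phi ζ Λ) W t → η < D1 C (wn e W) ∨ G1 κ W = sq2 (Lin W))

theorem cinj_big {e C : ℝ} {κ : Cut} (h : Par e C κ) (ζ : Zig) :
    ∀ᶠ Λ in atTop, CInjBig e C κ ζ Λ := by
  obtain ⟨ρp, hρp, hp⟩ := h.j0.pos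
  obtain ⟨ρn, hρn, hn⟩ := h.gok.near
  obtain ⟨m, hm, hm'⟩ := h.ju.mtau
  obtain ⟨m0, hm0, hm0'⟩ := h.j0.marg (min ρp ρn) (lt_min hρp hρn)
  obtain ⟨m1, hm1, hm1'⟩ := h.j1.marg ρn hρn
  have hη : 0 < min m (min m0 m1) / 2 := by positivity
  have e0 : min m (min m0 m1) / 2 < m := by linarith [min_le_left m (min m0 m1)]
  have e1 : min m (min m0 m1) / 2 < m0 := by
    linarith [min_le_right m (min m0 m1), min_le_left m0 m1]
  have e2 : min m (min m0 m1) / 2 < m1 := by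
    linarith [min_le_right m (min m0 m1), min_le_right m0 m1]
  filter_upwards [base (e := e) ζ h.gok, cinj_collar h.epos ζ hρp,
    cinj_collar h.epos ζ (show (0 : ℝ) < 1 / 16 by norm_num), cinj_err h ζ hη]
    with Λ hb hc0 hc1 herr
  refine ⟨hb, fun W t hW ht1 ht2 => ?_, fun W t hW ht => ?_, _, herr,
    fun w hw hw' => e0.trans_le (hm' w hw hw'), fun W t hW => ?_, fun W t hW => ?_⟩
  · rcases le_total t 0 with h2 | h2
    · rw [abs_of_nonpos h2] at ht1 ht2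
      exact Or.inl ((hc1 W t hW).1 (abs_le.2 ⟨by linarith, by linarith⟩))
    · rw [abs_of_nonneg h2] at ht1 ht2
      exact Or.inr ((hc1 W t hW).2 (abs_le.2 ⟨by linarith, by linarith⟩))
  · exact hp _ (cinj_unit h.epos hW) ((hc0 W t hW).2 ht) (cinj_wn_ne h.epos hW).2.1
  · by_cases h2 : near2 (min ρp ρn) (wn e W)
    · have h3 : ∀ ρ, min ρp ρn ≤ ρ → near2 ρ (wn e W) := fun ρ hρ =>
        h2.trans (mul_le_mul_of_nonneg_right hρ (by positivity))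
      exact Or.inr ⟨((hn W (cinj_ne hW)).2
        ((cinj_near h.epos (cinj_ne hW) ρn).2.1 (h3 _ (min_le_right _ _)))).1,
        hp _ (cinj_unit h.epos hW) (h3 _ (min_le_left _ _)) (cinj_wn_ne h.epos hW).2.1⟩
    · exact Or.inl (e1.trans_le (hm0' _ (cinj_unit h.epos hW) (not_le.1 h2).le))
  · by_cases h2 : near1 ρn (wn e W)
    · exact Or.inr ((hn W (cinj_ne hW)).1 ((cinj_near h.epos (cinj_ne hW) ρn).1.1 h2)).1
    · exact Or.inl (e2.trans_le (hm1' _ (cinj_unit h.epos hW) (not_le.1 h2).le))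

section Main

variable {e C : ℝ} {κ : Cut} {ζ : Zig} {Λ : ℝ} {W W' : C2} {t t' : ℝ}

theorem cinj_ray1 (h : Par e C κ) (h1 : W.1 ≠ 0) (h2 : W'.1 ≠ 0)
    (hp : Nrm e (G1 κ W) = Nrm e (G1 κ W')) : ∃ s : ℝ, W' = s • W :=
  cinj_ray h.epos (S := Prod.fst) (fun _ _ => rfl) h.gok.h1 h.gok.ne1 h.gok.inj1 h1 h2 hp

theorem cinj_ray2 (h : Par e C κ) (h1 : W.2 ≠ 0) (h2 : W'.2 ≠ 0)
    (hp : Nrm e (G2 κ W) = Nrm e (G2 κ W')) : ∃ s : ℝ, W' = s • W :=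
  cinj_ray h.epos (S := Prod.snd) (fun _ _ => rfl) h.gok.h2 h.gok.ne2 h.gok.inj2 h1 h2 hp

/-- The term of the bottom sheet has a sign. -/
theorem cinj_sign (hB : CInjBig e C κ ζ Λ) (hW : Con (Phi ζ Λ) W t) (ht : |t| ≤ Λ + 2) {a : ℝ}
    (ha : 0 ≤ a) (h0 : t ≤ Λ - 1 → a = 0) : 0 ≤ a * D0 (wn e W) := by
  rcases le_total t (Λ - 1) with h1 | h1
  · rw [h0 h1, zero_mul]
  · exact mul_nonneg ha
      (hB.pos W t hW (abs_le.2 ⟨by linarith, by linarith [(abs_le.1 ht).2]⟩)).le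

/-- Same point of the branched cover. -/
theorem cinj_same (h : Par e C κ) (hB : CInjBig e C κ ζ Λ) (hW : Con (Phi ζ Λ) W t)
    (hW' : Con (Phi ζ Λ) W' t') (ht : |t| ≤ Λ + 2) (ht' : |t'| ≤ Λ + 2)
    (hφ : Phi ζ Λ t = Phi ζ Λ t') (hq : sq2 (wn e W') = sq2 (wn e W))
    (hu : uu (wn e W') = uu (wn e W)) (hU : UC e C ζ κ Λ (W, t) = UC e C ζ κ Λ (W', t')) :
    ¬ t < t' := by
  intro hlt
  have hΛ := hB.b.big
  have e1 := cinj_U0 (C := C) (ζ := ζ) (cinj_pi0 h.epos hB.b hW ht)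
  have e2 := cinj_U0 (C := C) (ζ := ζ) (cinj_pi0 h.epos hB.b hW' ht')
  have d1 : D1 C (wn e W) = D1 C (wn e W') := by rw [D1, D1, hq, hu]
  have d0 : D0 (wn e W) = D0 (wn e W') := by rw [D0, D0, hq, hu]
  rw [hU, ← hu, e2, d1, d0] at e1
  have hD1 := h.j1.pos _ (cinj_unit h.epos hW') (cinj_wn_ne h.epos hW').2.2
  have m1 : n1 ζ Λ t ≤ n1 ζ Λ t' := ζ.nmono (by linarith)
  have m2 : n2 ζ Λ t' ≤ n2 ζ Λ t := sub_le_sub_left (ζ.nmono (by linarith)) 1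
  have s1 : 0 ≤ (n1 ζ Λ t' - n1 ζ Λ t) * D1 C (wn e W') := mul_nonneg (sub_nonneg.2 m1) hD1.le
  have s2 : 0 ≤ (n2 ζ Λ t - n2 ζ Λ t') * D0 (wn e W') :=
    cinj_sign hB hW' ht' (sub_nonneg.2 m2) fun h1 => by
      rw [(cinj_lo2 h1).1, (cinj_lo2 (show t ≤ Λ - 1 by linarith)).1, sub_self]
  by_cases c1 : t' ≤ -Λ
  · exact (hB.b.mono1 (show t ≤ -Λ by linarith) c1 hlt).ne hφ
  by_cases c2 : Λ ≤ t
  · exact (hB.b.mono2 c2 (show Λ ≤ t' by linarith) hlt).ne hφ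
  by_cases c3 : t < -Λ
  · have h1 : n1 ζ Λ t < n1 ζ Λ t' := cinj_n_lt ζ (by linarith) (by linarith) (by linarith)
    have h2 := mul_pos (sub_pos.2 h1) hD1
    linarith
  by_cases c4 : Λ < t'
  · have h1 : n2 ζ Λ t' < n2 ζ Λ t :=
      sub_lt_sub_left (cinj_n_lt ζ (by linarith) (by linarith) (by linarith)) 1
    have h2 := mul_pos (sub_pos.2 h1)
      (hB.pos W' t' hW' (abs_le.2 ⟨by linarith, by linarith [(abs_le.1 ht').2]⟩))
    linarith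
  exact (hB.b.anti ⟨by linarith, by linarith⟩ ⟨by linarith, by linarith⟩ hlt).ne' hφ

theorem cinj_uu_neg (w : C2) : uu (-w) = uu w := by simp [uu]

theorem cinj_uu_tau (w : C2) : uu (tau w) = -uu w := by
  simp only [uu, tau, neg_mul, ← neg_re]
  congr 1
  ring

theorem cinj_Pu_neg (w V : C2) : Pu (-w) V = Pu w V := by
  simp only [Pu, cov_apply, Prod.fst_neg, Prod.snd_neg, map_neg]
  congr 1
  ring

theorem cinj_Pu_tau (w V : C2) : Pu (tau w) V = -Pu w V := by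
  simp only [Pu, cov_apply, tau, map_neg, ← neg_re]
  congr 1
  ring

theorem cinj_sq2_cases {w w' : C2} (h : sq2 w = sq2 w') :
    (w' = w ∨ w' = -w) ∨ (w' = tau w ∨ w' = -tau w) := by
  have h1 : w'.1 ^ 2 = w.1 ^ 2 := (congrArg Prod.fst h).symm
  have h2 : w'.2 ^ 2 = w.2 ^ 2 := (congrArg Prod.snd h).symm
  rcases sq_eq_sq_iff_eq_or_eq_neg.1 h1 with h3 | h3 <;>
    rcases sq_eq_sq_iff_eq_or_eq_neg.1 h2 with h4 | h4
  · exact Or.inl (Or.inl (Prod.ext h3 h4))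
  · exact Or.inr (Or.inl (Prod.ext h3 h4))
  · exact Or.inr (Or.inr (Prod.ext h3 (by simp [tau, h4])))
  · exact Or.inl (Or.inr (Prod.ext h3 h4))

/-- Two points of the central region. -/
theorem cinj_xx (h : Par e C κ) (hB : CInjBig e C κ ζ Λ) (hW : Con (Phi ζ Λ) W t)
    (hW' : Con (Phi ζ Λ) W' t') (ht : |t| ≤ Λ + 2) (ht' : |t'| ≤ Λ + 2)
    (hp : PiC e κ Λ (W, t) = PiC e κ Λ (W', t'))
    (hU : UC e C ζ κ Λ (W, t) = UC e C ζ κ Λ (W', t'))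
    (hP : ∀ c, PC e C ζ κ Λ (W, t) (Jv e (PiC e κ Λ (W, t)) c)
      = PC e C ζ κ Λ (W', t') (Jv e (PiC e κ Λ (W, t)) c)) :
    t = t' ∧ ∃ s : ℝ, W' = s • W := by
  have p1 := cinj_pi0 h.epos hB.b hW ht
  have p2 := cinj_pi0 h.epos hB.b hW' ht'
  rw [p1] at hP
  rw [p1, p2] at hp
  have key : wn e W' = wn e W ∨ wn e W' = -wn e W := by
    rcases cinj_sq2_cases hp with h1 | h1
    · exact h1
    have hu : uu (wn e W') = -uu (wn e W) := by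
      rcases h1 with h1 | h1
      · rw [h1, cinj_uu_tau]
      · rw [h1, cinj_uu_neg, cinj_uu_tau]
    have hv : ∀ V, Pu (wn e W') V = -Pu (wn e W) V := by
      intro V
      rcases h1 with h1 | h1
      · rw [h1, cinj_Pu_tau]
      · rw [h1, cinj_Pu_neg, cinj_Pu_tau]
    have j1 : jn e (wn e W') (uu (wn e W')) (Pu (wn e W')) =
        jn e (wn e W) (uu (wn e W)) (Pu (wn e W)) := by
      simp only [jn, hu, hv, abs_neg, hp]
    have j2 : 2 * jn e (wn e W) (uu (wn e W)) (Pu (wn e W)) ≤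
        jn e (wn e W) (UC e C ζ κ Λ (W, t) - uu (wn e W)) (PC e C ζ κ Λ (W, t) - Pu (wn e W)) +
        jn e (wn e W') (UC e C ζ κ Λ (W', t') - uu (wn e W'))
          (PC e C ζ κ Λ (W', t') - Pu (wn e W')) := by
      have k : ∀ x y : ℝ, 2 * |x| ≤ |y - x| + |y - -x| := fun x y => by
        have h2 := abs_sub_le (-x) y x
        rw [abs_sub_comm (-x) y, show -x - x = -(2 * x) by ring, abs_neg, abs_mul, abs_two] at h2
        linarith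
      simp only [jn, _root_.sub_apply, hu, hv, ← hp, ← hU, ← hP]
      linarith [k (uu (wn e W)) (UC e C ζ κ Λ (W, t)),
        k (Pu (wn e W) (Jv e (sq2 (wn e W)) 1)) (PC e C ζ κ Λ (W, t) (Jv e (sq2 (wn e W)) 1)),
        k (Pu (wn e W) (Jv e (sq2 (wn e W)) I)) (PC e C ζ κ Λ (W, t) (Jv e (sq2 (wn e W)) I))]
    obtain ⟨η, herr, htau, -, -⟩ := hB.m
    have r1 := herr W t hW ht
    have r2 := herr W' t' hW' ht'
    by_cases c1 : Λ - 1 ≤ |t|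
    · have h2 := htau _ (cinj_unit h.epos hW) (hB.col W t hW c1 ht)
      linarith
    by_cases c2 : Λ - 1 ≤ |t'|
    · have h2 := htau _ (cinj_unit h.epos hW') (hB.col W' t' hW' c2 ht')
      linarith
    obtain ⟨a1, a2⟩ := cinj_mid (C := C) (ζ := ζ) p1 (not_le.1 c1).le
    obtain ⟨a3, a4⟩ := cinj_mid (C := C) (ζ := ζ) p2 (not_le.1 c2).le
    rw [a1, a2, a3, a4] at j2
    have j3 : jn e (wn e W) (uu (wn e W)) (Pu (wn e W)) = 0 :=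
      le_antisymm (by simp [jn] at j2 ⊢; linarith) (cinj_jn_nonneg _ _ _ _)
    have j4 : tau (wn e W) = wn e W ∨ tau (wn e W) = -wn e W := by
      rcases h.ju.tau0 _ j3 with h2 | h2
      · exact Or.inr (Prod.ext (by simp [tau, h2]) rfl)
      · exact Or.inl (Prod.ext rfl (by simp [tau, h2]))
    rcases h1 with h1 | h1 <;> rcases j4 with h2 | h2
    · exact Or.inl (h1.trans h2)
    · exact Or.inr (h1.trans h2)
    · exact Or.inr (by rw [h1, h2])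
    · exact Or.inl (by rw [h1, h2, neg_neg])
  have hu : uu (wn e W') = uu (wn e W) := by
    rcases key with h1 | h1
    · rw [h1]
    · rw [h1, cinj_uu_neg]
  obtain ⟨s, hs⟩ : ∃ s : ℝ, W' = s • W := by
    obtain ⟨a, ha, -, a1, a2⟩ := wn_eq h.epos (cinj_ne hW)
    obtain ⟨b, hb, -, b1, b2⟩ := wn_eq h.epos (cinj_ne hW')
    have hx : ∀ w : C2, Xc (-w) = -Xc w := fun w => by
      simp only [Xc, Prod.fst_neg, Prod.snd_neg, map_neg, map_sub]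
      ring
    have hy : ∀ w : C2, Yc (-w) = -Yc w := fun w => by
      simp only [Yc, hx, Prod.fst_neg]
      ring
    have hz : ∀ σ : ℝ, b • W'.1 = σ • W.1 → b • W'.2 = σ • W.2 → W' = (b⁻¹ * σ) • W := by
      intro σ h1 h2
      have h3 : b • W' = σ • W := Prod.ext h1 h2
      rw [mul_smul, ← h3, inv_smul_smul₀ hb.ne']
    rcases key with h1 | h1
    · exact ⟨_, hz a (by rw [← b1, h1, a1]) (by rw [← b2, h1, a2])⟩
    · exact ⟨_, hz (-a) (by rw [← b1, h1, hx, a1, neg_smul]) (by rw [← b2, h1, hy, a2, neg_smul])⟩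
  have hφ := cinj_phi hW hW' hs
  exact ⟨le_antisymm (not_lt.1 (cinj_same h hB hW' hW ht' ht hφ.symm hp hu.symm hU.symm))
    (not_lt.1 (cinj_same h hB hW hW' ht ht' hφ hp.symm hu hU)), s, hs⟩

/-- A point of the central region and a far point of the second chart. -/
theorem cinj_x2 (h : Par e C κ) (hB : CInjBig e C κ ζ Λ) (hW : Con (Phi ζ Λ) W t)
    (hW' : Con (Phi ζ Λ) W' t') (ht : |t| ≤ Λ + 2) (ht' : Λ + 1 ≤ t')
    (hp : PiC e κ Λ (W, t) = PiC e κ Λ (W', t'))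
    (hU : UC e C ζ κ Λ (W, t) = UC e C ζ κ Λ (W', t'))
    (hP : ∀ c, PC e C ζ κ Λ (W, t) (Jv e (PiC e κ Λ (W, t)) c)
      = PC e C ζ κ Λ (W', t') (Jv e (PiC e κ Λ (W, t)) c)) :
    t = t' ∧ ∃ s : ℝ, W' = s • W := by
  have hΛ := hB.b.big
  have p1 := cinj_pi0 h.epos hB.b hW ht
  obtain ⟨f1, f2⟩ := cinj_far2 (e := e) (C := C) (κ := κ) (ζ := ζ) (W := W') hΛ ht'
  rw [f1, ← hp, p1] at hU
  rw [f2, ← hp, p1] at hP
  obtain ⟨η, herr, -, h0, -⟩ := hB.m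
  rcases h0 W t hW with h1 | ⟨h1, h2⟩
  · have r1 := herr W t hW ht
    have r2 : jn e (wn e W) (UC e C ζ κ Λ (W, t) - uu (wn e W))
        (PC e C ζ κ Λ (W, t) - Pu (wn e W)) = jn e (wn e W) (D0 (wn e W)) (PD0 (wn e W)) := by
      simp only [jn, _root_.sub_apply, hU, hP, D0, PD0]
      rw [abs_sub_comm (y0 _), abs_sub_comm (fderiv ℝ y0 _ _), abs_sub_comm (fderiv ℝ y0 _ _)]
    linarith
  · rw [p1, sq2_wn h.epos (cinj_ne hW), ← h1, cinj_pi2 hΛ (by linarith)] at hp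
    obtain ⟨s, hs⟩ := cinj_ray2 h hW.2.1 hW'.2.1 hp
    have e1 := cinj_U0 (C := C) (ζ := ζ) p1
    have hD1 := h.j1.pos _ (cinj_unit h.epos hW) (cinj_wn_ne h.epos hW).2.2
    have s1 : 0 ≤ (1 - n1 ζ Λ t) * D1 C (wn e W) :=
      mul_nonneg (sub_nonneg.2 (cinj_n_le_one ζ _)) hD1.le
    have c1 : Λ ≤ t := by
      by_contra c1
      have h3 := cinj_n_lt ζ (show t - Λ < 1 by linarith) (by linarith) (by norm_num)
      rw [ζ.n1 1 le_rfl] at h3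
      have h4 := mul_pos (show 0 < n2 ζ Λ t from sub_pos.2 h3) h2
      rw [hU] at e1
      unfold D0 at e1 h4
      linarith
    exact ⟨hB.b.mono2.injOn c1 (show Λ ≤ t' by linarith) (cinj_phi hW hW' hs), s, hs⟩

/-- A point of the central region and a far point of the first chart. -/
theorem cinj_x1 (h : Par e C κ) (hB : CInjBig e C κ ζ Λ) (hW : Con (Phi ζ Λ) W t)
    (hW' : Con (Phi ζ Λ) W' t') (ht : |t| ≤ Λ + 2) (ht' : t' ≤ -Λ - 1)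
    (hp : PiC e κ Λ (W, t) = PiC e κ Λ (W', t'))
    (hU : UC e C ζ κ Λ (W, t) = UC e C ζ κ Λ (W', t')) :
    t = t' ∧ ∃ s : ℝ, W' = s • W := by
  have hΛ := hB.b.big
  have p1 := cinj_pi0 h.epos hB.b hW ht
  rw [cinj_far1 hΛ ht', ← hp, p1] at hU
  obtain ⟨η, herr, -, -, h0⟩ := hB.m
  rcases h0 W t hW with h1 | h1
  · have r1 := herr W t hW ht
    rw [hU] at r1
    unfold jn at r1
    unfold D1 at h1
    linarith [le_abs_self (y1 C (sq2 (wn e W)) - uu (wn e W)),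
      abs_nonneg ((PC e C ζ κ Λ (W, t) - Pu (wn e W)) (Jv e (sq2 (wn e W)) 1)),
      abs_nonneg ((PC e C ζ κ Λ (W, t) - Pu (wn e W)) (Jv e (sq2 (wn e W)) I))]
  · rw [p1, sq2_wn h.epos (cinj_ne hW), ← h1, cinj_pi1 (by linarith)] at hp
    obtain ⟨s, hs⟩ := cinj_ray1 h hW.1 hW'.1 hp
    have e1 := cinj_U0 (C := C) (ζ := ζ) p1
    have hD1 := h.j1.pos _ (cinj_unit h.epos hW) (cinj_wn_ne h.epos hW).2.2
    have hn2 : n2 ζ Λ t = 1 - ζ.n (t - Λ) := rfl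
    have s2 : 0 ≤ (1 - n2 ζ Λ t) * D0 (wn e W) :=
      cinj_sign hB hW ht (by linarith [cinj_n_nonneg ζ (t - Λ)])
        fun h2 => by rw [(cinj_lo2 h2).1, sub_self]
    have c1 : t ≤ -Λ := by
      by_contra c1
      have h3 := cinj_n_lt ζ (show -1 < t + Λ by linarith) (by norm_num) (by linarith)
      rw [ζ.n0 (-1) le_rfl] at h3
      have h4 := mul_pos (show 0 < n1 ζ Λ t from h3) hD1
      rw [hU] at e1
      unfold D1 at e1 h4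
      linarith
    exact ⟨hB.b.mono1.injOn c1 (show t' ≤ -Λ by linarith) (cinj_phi hW hW' hs), s, hs⟩

/-- Far points of different charts. -/
theorem cinj_12 (h : Par e C κ) (hΛ : 3 ≤ Λ) (hW : Con (Phi ζ Λ) W t) (ht : t ≤ -Λ - 1)
    (ht' : Λ + 1 ≤ t') (hp : PiC e κ Λ (W, t) = PiC e κ Λ (W', t'))
    (hU : UC e C ζ κ Λ (W, t) = UC e C ζ κ Λ (W', t')) : False := by
  rw [cinj_far1 hΛ ht, (cinj_far2 hΛ ht').1, ← hp] at hU
  refine (h.j1.lt _ ?_).ne' hU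
  rw [cinj_pi1 (by linarith)]
  exact Nsq_Nrm h.epos fun h0 => h.gok.ne1 W hW.1 (by rw [h0]; rfl)

theorem cinj_symm (hW' : Con (Phi ζ Λ) W' t') (h : t' = t ∧ ∃ s : ℝ, W' = s • W) :
    t = t' ∧ ∃ s : ℝ, W = s • W' := by
  obtain ⟨h1, s, hs⟩ := h
  have hs0 : s ≠ 0 := by
    rintro rfl
    exact cinj_ne hW' (by rw [hs, zero_smul])
  exact ⟨h1.symm, s⁻¹, by rw [hs, inv_smul_smul₀ hs0]⟩

end Main

theorem cover_inj {e C : ℝ} {κ : Cut} (h : Par e C κ) (ζ : Zig) :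
    ∀ᶠ Λ in atTop, ∀ W t W' t', Con (Phi ζ Λ) W t → Con (Phi ζ Λ) W' t' →
      PiC e κ Λ (W, t) = PiC e κ Λ (W', t') → UC e C ζ κ Λ (W, t) = UC e C ζ κ Λ (W', t') →
      (∀ c, PC e C ζ κ Λ (W, t) (Jv e (PiC e κ Λ (W, t)) c)
        = PC e C ζ κ Λ (W', t') (Jv e (PiC e κ Λ (W, t)) c)) →
      t = t' ∧ ∃ s : ℝ, W' = s • W := by
  filter_upwards [cinj_big h ζ] with Λ hB W t W' t' hW hW' hp hU hP
  have hΛ := hB.b.big
  have hP' : ∀ c, PC e C ζ κ Λ (W', t') (Jv e (PiC e κ Λ (W', t')) c)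
      = PC e C ζ κ Λ (W, t) (Jv e (PiC e κ Λ (W', t')) c) := fun c => by
    rw [← hp, hP]
  have tri : ∀ x : ℝ, x ≤ -Λ - 1 ∨ |x| ≤ Λ + 2 ∨ Λ + 1 ≤ x := fun x => by
    by_contra hc
    push Not at hc
    exact absurd hc.2.1 (not_lt.2 (abs_le.2 ⟨by linarith [hc.1], by linarith [hc.2.2]⟩))
  rcases tri t with c | c | c <;> rcases tri t' with c' | c' | c'
  · rw [cinj_pi1 (by linarith), cinj_pi1 (by linarith)] at hp
    obtain ⟨s, hs⟩ := cinj_ray1 h hW.1 hW'.1 hp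
    exact ⟨hB.b.mono1.injOn (show t ≤ -Λ by linarith) (show t' ≤ -Λ by linarith)
      (cinj_phi hW hW' hs), s, hs⟩
  · exact cinj_symm hW (by
      obtain ⟨h1, h2⟩ := cinj_x1 h hB hW' hW c' c hp.symm hU.symm
      exact ⟨h1.symm, h2⟩) |>.imp Eq.symm id
  · exact (cinj_12 h hΛ hW c c' hp hU).elim
  · exact cinj_x1 h hB hW hW' c c' hp hU
  · exact cinj_xx h hB hW hW' c c' hp hU hP
  · exact cinj_x2 h hB hW hW' c c' hp hU hP
  · exact (cinj_12 h hΛ hW' c' c hp.symm hU.symm).elim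
  · exact cinj_symm hW (by
      obtain ⟨h1, h2⟩ := cinj_x2 h hB hW' hW c' c hp.symm hU.symm hP'
      exact ⟨h1.symm, h2⟩) |>.imp Eq.symm id
  · rw [cinj_pi2 hΛ (by linarith), cinj_pi2 hΛ (by linarith)] at hp
    obtain ⟨s, hs⟩ := cinj_ray2 h hW.2.1 hW'.2.1 hp
    exact ⟨hB.b.mono2.injOn (show Λ ≤ t by linarith) (show Λ ≤ t' by linarith)
      (cinj_phi hW hW' hs), s, hs⟩

theorem cover_core {e C : ℝ} {κ : Cut} (h : Par e C κ) (ζ : Zig) :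
    ∀ᶠ Λ in atTop, ∀ W t, Con (Phi ζ Λ) W t → (PiC e κ Λ (W, t)).1 = 0 →
      UC e C ζ κ Λ (W, t) ≠ y1 C (PiC e κ Λ (W, t)) ∧
      (UC e C ζ κ Λ (W, t) = y0 (PiC e κ Λ (W, t)) →
        ¬ ∀ c, PC e C ζ κ Λ (W, t) (Jv e (PiC e κ Λ (W, t)) c)
          = fderiv ℝ y0 (PiC e κ Λ (W, t)) (Jv e (PiC e κ Λ (W, t)) c)) := by
  obtain ⟨m, hm, hm'⟩ := h.j0.marg (1 / 16) (by norm_num)
  filter_upwards [cinj_big h ζ] with Λ hB W t hW h0
  have hΛ := hB.b.big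
  have hN : ∀ Z : C2, Z.1 ≠ 0 → (Nrm e Z).1 ≠ 0 := fun Z hZ =>
    smul_ne_zero (inv_ne_zero (Real.sqrt_pos.2
      (Nsq_pos h.epos fun h1 => hZ (by rw [h1]; rfl))).ne') hZ
  have c1 : -Λ < t := by
    by_contra c1
    rw [cinj_pi1 (not_lt.1 c1)] at h0
    exact hN _ (h.gok.ne1 W hW.1) h0
  have c2 : t < Λ := by
    by_contra c2
    rw [cinj_pi2 hΛ (not_lt.1 c2)] at h0
    exact hN _ (h.gok.ne2 W hW.2.1) h0
  have ht : |t| ≤ Λ + 2 := abs_le.2 ⟨by linarith, by linarith⟩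
  have p1 := cinj_pi0 h.epos hB.b hW ht
  have hn : ¬ (near1 (1 / 16) (wn e W) ∨ near2 (1 / 16) (wn e W)) := fun hn => by
    rw [p1] at h0
    exact (h.ju.ne _ (cinj_wn_ne h.epos hW).1 hn).1 (pow_eq_zero_iff two_ne_zero |>.1 h0)
  obtain ⟨a1, a2⟩ := cinj_mid (C := C) (ζ := ζ) p1
    (not_le.1 fun h1 => hn (hB.col W t hW h1 ht)).le
  rw [sub_eq_zero] at a1 a2
  rw [a1, a2, p1]
  refine ⟨(sub_pos.1 (h.j1.pos _ (cinj_unit h.epos hW) (cinj_wn_ne h.epos hW).2.2)).ne,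
    fun h1 h2 => ?_⟩
  have h3 := hm' _ (cinj_unit h.epos hW) (not_le.1 fun h3 => hn (Or.inr h3)).le
  simp only [jn, D0, PD0, _root_.sub_apply, h1, h2, sub_self, abs_zero,
    add_zero] at h3
  linarith

end Pool.Agent.Lib.MP_b7c8b0_gt
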