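import Pool.Agent.Lib.MP_b7c8b0_gt.CBase

open scoped ContDiff ComplexConjugate Topology
open Complex Filter

noncomputable section

namespace Pool.Agent.Lib.MP_b7c8b0_gt

namespace CLegX

theorem ne_of_fst {W : C2} (h1 : W.1 ≠ 0) : W ≠ 0 := fun h => h1 (by rw [h]; rfl)

theorem sq2_Lin_ne {W : C2} (h1 : W.1 ≠ 0) : sq2 (Lin W) ≠ 0 := by
  intro h
  have a : (Lin W).1 = 0 := pow_eq_zero_iff (two_ne_zero) |>.mp (congrArg Prod.fst h)
  have b : (Lin W).2 = 0 := pow_eq_zero_iff (two_ne_zero) |>.mp (congrArg Prod.snd h)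
  apply h1
  rw [← Xc_Lin W, Xc, a, b]
  simp

theorem GG_ne {κ : Cut} (h : GOK κ) (Λ : ℝ) {W : C2} (t : ℝ) (h1 : W.1 ≠ 0) (h2 : W.2 ≠ 0) :
    GG κ Λ (W, t) ≠ 0 := by
  unfold GG
  split_ifs
  · exact ne_of_fst (h.ne1 W h1)
  · exact ne_of_fst (h.ne2 W h2)
  · exact sq2_Lin_ne h1

theorem Lin_smul (s : ℝ) (W : C2) : Lin (s • W) = s • Lin W := by
  ext
  · simp [Lin]
  · simp only [Lin, Prod.smul_fst, Prod.smul_snd, real_smul, map_mul, conj_ofReal]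
    ring

theorem sq2_smul (s : ℝ) (w : C2) : sq2 (s • w) = s ^ 2 • sq2 w := by
  ext
  · simp [sq2, mul_pow]
  · simp [sq2, mul_pow]

theorem Nsq_smul (e s : ℝ) (Z : C2) : Nsq e (s • Z) = s ^ 2 * Nsq e Z := by
  simp only [Nsq, Prod.smul_fst, Prod.smul_snd, norm_smul, mul_pow, Real.norm_eq_abs, sq_abs]
  ring

theorem wn_smul (e : ℝ) (W : C2) {s : ℝ} (hs : s ≠ 0) :
    wn e (s • W) = wn e W ∨ wn e (s • W) = -wn e W := by
  have key : wn e (s • W) = (|s|⁻¹ * s) • wn e W := by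
    unfold wn
    rw [Lin_smul, sq2_smul, Nsq_smul, Real.sqrt_mul (sq_nonneg _), Real.sqrt_sq (sq_nonneg _),
      Real.sqrt_mul (sq_nonneg _), Real.sqrt_sq_eq_abs, smul_smul, smul_smul]
    congr 1
    rw [mul_inv]
    ring
  rcases lt_or_gt_of_ne hs with h | h
  · right
    rw [key, abs_of_neg h, inv_neg, neg_mul, inv_mul_cancel₀ hs, neg_smul, one_smul]
  · left
    rw [key, abs_of_pos h, inv_mul_cancel₀ hs, one_smul]

theorem uu_neg (w : C2) : uu (-w) = uu w := by simp [uu]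

theorem Pu_neg (w : C2) : Pu (-w) = Pu w := by
  unfold Pu
  congr 1
  · simp only [Prod.fst_neg, Prod.snd_neg, map_neg]; ring
  · simp only [Prod.fst_neg, Prod.snd_neg, map_neg]; ring

theorem Xc_neg (w : C2) : Xc (-w) = -Xc w := by
  simp only [Xc, Prod.fst_neg, Prod.snd_neg, map_neg, map_sub]; ring

theorem Yc_neg (w : C2) : Yc (-w) = -Yc w := by
  simp only [Yc, Xc_neg, Prod.fst_neg]; ring

theorem Li_neg (X : ℂ) : Li (-X) = -Li X := by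
  simp only [Li, map_neg]; ring

theorem PR_neg (w : C2) : PR (-w) = PR w := by
  unfold PR
  rw [Xc_neg, Yc_neg, norm_neg, norm_neg, smul_neg, smul_neg, ← neg_add, Li_neg, map_neg, map_neg,
    Prod.fst_neg, Prod.snd_neg, ← neg_add, neg_div_neg_eq, neg_div_neg_eq]

theorem GG_smul {κ : Cut} (h : GOK κ) (Λ : ℝ) (W : C2) (t : ℝ) {s : ℝ} (hs : s ≠ 0) :
    GG κ Λ (s • W, t) = s ^ 2 • GG κ Λ (W, t) := by
  unfold GG
  split_ifs
  · exact h.h1 W s hs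
  · exact h.h2 W s hs
  · rw [Lin_smul, sq2_smul]

theorem cd_conj : ContDiff ℝ ∞ (fun z : ℂ => conj z) := conjCLE.contDiff

theorem cd_re : ContDiff ℝ ∞ (fun z : ℂ => z.re) := reCLM.contDiff

theorem cd_y0 : ContDiff ℝ ∞ y0 := by
  have hc := cd_conj
  have hr := cd_re
  unfold y0
  refine ContDiff.sub (ContDiff.sub ?_ ?_) ?_
  · exact contDiff_const.mul (hr.comp (((hc.comp contDiff_fst).pow 2).mul contDiff_snd))
  · exact contDiff_const.mul (hr.comp ((hc.comp contDiff_fst).pow 3))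
  · exact (contDiff_const.mul ((contDiff_snd.sub (hc.comp contDiff_fst)).norm_sq ℝ)).mul
      ((contDiff_snd.norm_sq ℝ).sub ((contDiff_fst.norm_sq ℝ).div_const 2))

theorem cd_uu : ContDiff ℝ ∞ uu :=
  cd_re.comp ((contDiff_snd.mul (cd_conj.comp contDiff_fst)).pow 3)

theorem cd_cov : ContDiff ℝ ∞ (fun p : ℂ × ℂ => cov p.1 p.2) := by
  rw [contDiff_clm_apply_iff]
  intro V
  simp only [cov_apply]
  exact cd_re.comp ((contDiff_fst.mul contDiff_const).add (contDiff_snd.mul contDiff_const))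

theorem cdAt_cov {E : Type} [NormedAddCommGroup E] [NormedSpace ℝ E] {a b : E → ℂ} {x : E}
    (ha : ContDiffAt ℝ ∞ a x) (hb : ContDiffAt ℝ ∞ b x) :
    ContDiffAt ℝ ∞ (fun x => cov (a x) (b x)) x :=
  ContDiffAt.comp (g := fun p : ℂ × ℂ => cov p.1 p.2) (f := fun x => (a x, b x)) x
    cd_cov.contDiffAt (ha.prodMk hb)

theorem cd_Pu : ContDiff ℝ ∞ Pu := by
  have a : ContDiff ℝ ∞ (fun w : C2 => 3 / 2 * conj w.2 ^ 3 * w.1) :=
    (contDiff_const.mul ((cd_conj.comp contDiff_snd).pow 3)).mul contDiff_fst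
  have b : ContDiff ℝ ∞ (fun w : C2 => 3 / 2 * w.2 * conj w.1 ^ 3) :=
    (contDiff_const.mul contDiff_snd).mul ((cd_conj.comp contDiff_fst).pow 3)
  rw [contDiff_iff_contDiffAt]
  intro w
  exact cdAt_cov a.contDiffAt b.contDiffAt

theorem cdAt_fst {F : Type} [NormedAddCommGroup F] [NormedSpace ℝ F] {f : C2 → F} {W : C2}
    (hf : ContDiffAt ℝ ∞ f W) (t : ℝ) : ContDiffAt ℝ ∞ (fun p : C2 × ℝ => f p.1) (W, t) :=
  ContDiffAt.comp (g := f) (f := Prod.fst) (W, t) hf contDiffAt_fst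

theorem hasF_fst {F : Type} [NormedAddCommGroup F] [NormedSpace ℝ F] {f : C2 → F} {W : C2}
    (hf : ContDiffAt ℝ ∞ f W) (t : ℝ) : HasFDerivAt (fun p : C2 × ℝ => f p.1)
      ((fderiv ℝ f W).comp (ContinuousLinearMap.fst ℝ C2 ℝ)) (W, t) :=
  HasFDerivAt.comp (g := f) (f := Prod.fst) (W, t)
    (hf.differentiableAt (by simp)).hasFDerivAt hasFDerivAt_fst

theorem hasF_snd {f : ℝ → ℝ} (hf : ContDiff ℝ ∞ f) (W : C2) (t : ℝ) :
    HasFDerivAt (fun p : C2 × ℝ => f p.2) (deriv f t • ContinuousLinearMap.snd ℝ C2 ℝ) (W, t) :=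
  HasDerivAt.comp_hasFDerivAt (h₂ := f) (f := Prod.snd) (W, t)
    (hf.differentiable (by simp) t).hasDerivAt hasFDerivAt_snd

theorem cd_sq2 : ContDiff ℝ ∞ sq2 := (contDiff_fst.pow 2).prodMk (contDiff_snd.pow 2)

theorem cd_Lin : ContDiff ℝ ∞ Lin :=
  (contDiff_fst.add contDiff_snd).prodMk (((contDiff_const.mul contDiff_fst).add
    (contDiff_const.mul (cd_conj.comp contDiff_fst))).add (cd_conj.comp contDiff_snd))

theorem cd_Xc : ContDiff ℝ ∞ Xc :=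
  (contDiff_const.mul (contDiff_snd.sub (cd_conj.comp contDiff_fst))).add
    (contDiff_const.mul (cd_conj.comp (contDiff_snd.sub (cd_conj.comp contDiff_fst))))

theorem cd_Yc : ContDiff ℝ ∞ Yc := contDiff_fst.sub cd_Xc

theorem cd_Li : ContDiff ℝ ∞ Li :=
  (contDiff_const.mul contDiff_id).add (contDiff_const.mul cd_conj)

theorem cd_PR {w : C2} (h1 : w.1 ≠ 0) (h2 : w.2 ≠ 0) (hX : Xc w ≠ 0) (hY : Yc w ≠ 0) :
    ContDiffAt ℝ ∞ PR w := by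
  have a : ContDiffAt ℝ ∞ (fun w : C2 => (‖Xc w‖ ^ 2 : ℝ)⁻¹ • Xc w) w :=
    ((cd_Xc.norm_sq ℝ).contDiffAt.inv (by positivity)).smul cd_Xc.contDiffAt
  have b : ContDiffAt ℝ ∞ (fun w : C2 => (‖Yc w‖ ^ 2 : ℝ)⁻¹ • Yc w) w :=
    ((cd_Yc.norm_sq ℝ).contDiffAt.inv (by positivity)).smul cd_Yc.contDiffAt
  have c : ContDiffAt ℝ ∞
      (fun w : C2 => Li ((‖Xc w‖ ^ 2 : ℝ)⁻¹ • Xc w + (‖Yc w‖ ^ 2 : ℝ)⁻¹ • Yc w)) w :=
    cd_Li.contDiffAt.comp w (a.add b)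
  have i1 : ContDiffAt ℝ ∞ (fun w : C2 => (w.1)⁻¹) w := contDiffAt_fst.inv h1
  have i2 : ContDiffAt ℝ ∞ (fun w : C2 => (w.2)⁻¹) w := contDiffAt_snd.inv h2
  have d1 := (c.add (cd_conj.contDiffAt.comp w b)).neg.mul i1
  have d2 := (cd_conj.contDiffAt.comp w c).mul i2
  have e := cdAt_cov d1 d2
  unfold PR
  simp only [div_eq_mul_inv]
  exact e

theorem cd_n1 (ζ : Zig) (Λ : ℝ) : ContDiff ℝ ∞ (n1 ζ Λ) :=
  ζ.sn.comp (contDiff_id.add contDiff_const)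

theorem cd_n2 (ζ : Zig) (Λ : ℝ) : ContDiff ℝ ∞ (n2 ζ Λ) :=
  contDiff_const.sub (ζ.sn.comp (contDiff_id.sub contDiff_const))

theorem cd_k1 (ζ : Zig) (Λ : ℝ) : ContDiff ℝ ∞ (k1 ζ Λ) :=
  (ζ.sk.comp (contDiff_id.add contDiff_const)).neg

theorem cd_k2 (ζ : Zig) (Λ : ℝ) : ContDiff ℝ ∞ (k2 ζ Λ) :=
  (ζ.sk.comp (contDiff_id.sub contDiff_const)).neg

theorem cd_GG {e : ℝ} {ζ : Zig} {κ : Cut} {Λ : ℝ} (h : GOK κ) (hb : Base e ζ κ Λ) {W : C2}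
    {t : ℝ} (hc : Con (Phi ζ Λ) W t) : ContDiffAt ℝ ∞ (GG κ Λ) (W, t) := by
  have h3 := hb.big
  rcases le_or_gt t (-Λ + 2) with ht | ht
  · exact (cdAt_fst (h.s1 W hc.1) t).congr_of_eventuallyEq (hb.loc1 W t hc ht)
  · rcases le_or_gt (Λ - 2) t with ht' | ht'
    · exact (cdAt_fst (h.s2 W hc.2.1) t).congr_of_eventuallyEq
        (hb.loc2 W t hc ht')
    · exact ((cd_sq2.comp (cd_Lin.comp contDiff_fst)).contDiffAt).congr_of_eventuallyEq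
        (hb.loc0 W t hc (abs_le.mpr ⟨by linarith, by linarith⟩))

theorem cd_PiC {e C : ℝ} {ζ : Zig} {κ : Cut} {Λ : ℝ} (h : Par e C κ) (hb : Base e ζ κ Λ)
    {W : C2} {t : ℝ} (hc : Con (Phi ζ Λ) W t) : ContDiffAt ℝ ∞ (PiC e κ Λ) (W, t) :=
  (contDiffAt_Nrm h.epos (GG_ne h.gok Λ t hc.1 hc.2.1)).comp (W, t) (cd_GG h.gok hb hc)

theorem PiC_ne {e C : ℝ} {κ : Cut} (h : Par e C κ) (Λ : ℝ) {W : C2} (t : ℝ)
    (h1 : W.1 ≠ 0) (h2 : W.2 ≠ 0) : PiC e κ Λ (W, t) ≠ 0 := by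
  intro h0
  have := Nsq_Nrm h.epos (GG_ne h.gok Λ t h1 h2)
  change Nsq e (PiC e κ Λ (W, t)) = 1 at this
  rw [h0] at this
  simp [Nsq] at this

/-- In the collars both coordinates of the normalized point are non-zero. -/
theorem wn_ne {e C : ℝ} {κ : Cut} (h : Par e C κ) {W : C2} (h1 : W.1 ≠ 0)
    (hr : ‖W.2‖ ^ 2 < 1 / 16 * ‖W.1‖ ^ 2 ∨ ‖W.1‖ ^ 2 < 1 / 16 * ‖W.2‖ ^ 2) :
    (wn e W).1 ≠ 0 ∧ (wn e W).2 ≠ 0 := by
  obtain ⟨s, hs, -, hX, hY⟩ := wn_eq h.epos (ne_of_fst h1)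
  refine h.ju.ne _ ?_ ?_
  · intro h0
    rw [h0] at hX
    have : Xc 0 = 0 := by simp [Xc]
    rw [this] at hX
    exact h1 ((smul_eq_zero.mp hX.symm).resolve_left hs.ne')
  · have hs2 : 0 < s ^ 2 := by positivity
    rcases hr with hr | hr
    · left
      rw [near1, hX, hY, norm_smul, norm_smul, mul_pow, mul_pow, Real.norm_eq_abs, sq_abs]
      nlinarith
    · right
      rw [near2, hX, hY, norm_smul, norm_smul, mul_pow, mul_pow, Real.norm_eq_abs, sq_abs]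
      nlinarith

theorem XY_wn_ne {e : ℝ} (he : 0 < e) {W : C2} (h1 : W.1 ≠ 0) (h2 : W.2 ≠ 0) :
    Xc (wn e W) ≠ 0 ∧ Yc (wn e W) ≠ 0 := by
  obtain ⟨s, hs, -, hX, hY⟩ := wn_eq he (ne_of_fst h1)
  rw [hX, hY]
  exact ⟨smul_ne_zero hs.ne' h1, smul_ne_zero hs.ne' h2⟩

/-- In the central region the projection factors through the branched cover. -/
theorem PiC_loc0 {e : ℝ} {ζ : Zig} {κ : Cut} {Λ : ℝ} (he : 0 < e) (hb : Base e ζ κ Λ) {W : C2}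
    {t : ℝ} (hc : Con (Phi ζ Λ) W t) (ht : |t| ≤ Λ + 2) :
    PiC e κ Λ =ᶠ[𝓝 (W, t)] fun p => sq2 (wn e p.1) := by
  have h1 : ∀ᶠ p : C2 × ℝ in 𝓝 (W, t), p.1 ≠ 0 :=
    continuous_fst.continuousAt.eventually_ne (ne_of_fst hc.1)
  filter_upwards [hb.loc0 W t hc ht, h1] with p hp hp1
  rw [PiC, hp, sq2_wn he hp1]

theorem fderiv_PiC0 {e : ℝ} {ζ : Zig} {κ : Cut} {Λ : ℝ} (he : 0 < e) (hb : Base e ζ κ Λ)
    {W : C2} {t : ℝ} (hc : Con (Phi ζ Λ) W t) (ht : |t| ≤ Λ + 2) (V : C2) (τ : ℝ) :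
    fderiv ℝ (PiC e κ Λ) (W, t) (V, τ)
      = fderiv ℝ sq2 (wn e W) (fderiv ℝ (wn e) W V) := by
  rw [(PiC_loc0 he hb hc ht).fderiv_eq]
  have a := hasF_fst (contDiffAt_wn he (ne_of_fst hc.1)) t
  have b : HasFDerivAt sq2 (fderiv ℝ sq2 (wn e W)) (wn e W) :=
    (cd_sq2.differentiable (by simp) _).hasFDerivAt
  have c := HasFDerivAt.comp (g := sq2) (f := fun p : C2 × ℝ => wn e p.1) (W, t) b a
  exact congrArg (fun L : C2 × ℝ →L[ℝ] C2 => L (V, τ)) c.fderiv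

end CLegX

open CLegX

theorem cover_smooth {e C : ℝ} {κ : Cut} (h : Par e C κ) (ζ : Zig) :
    ∀ᶠ Λ in atTop, ∀ W t, Con (Phi ζ Λ) W t → ContDiffAt ℝ ∞ (PiC e κ Λ) (W, t) ∧
      ContDiffAt ℝ ∞ (UC e C ζ κ Λ) (W, t) ∧ ContDiffAt ℝ ∞ (PC e C ζ κ Λ) (W, t) := by
  filter_upwards [base (e := e) ζ h.gok, collar ζ (ρ := 1 / 16) (by norm_num)] with Λ hb hcol
  intro W t hc
  have hP := cd_PiC h hb hc
  have hne := PiC_ne h Λ t hc.1 hc.2.1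
  have hw : ContDiffAt ℝ ∞ (fun p : C2 × ℝ => wn e p.1) (W, t) :=
    cdAt_fst (contDiffAt_wn h.epos (ne_of_fst hc.1)) t
  have hn1 : ContDiffAt ℝ ∞ (fun p : C2 × ℝ => n1 ζ Λ p.2) (W, t) :=
    ((cd_n1 ζ Λ).comp contDiff_snd).contDiffAt
  have hn2 : ContDiffAt ℝ ∞ (fun p : C2 × ℝ => n2 ζ Λ p.2) (W, t) :=
    ((cd_n2 ζ Λ).comp contDiff_snd).contDiffAt
  have hk1 : ContDiffAt ℝ ∞ (fun p : C2 × ℝ => k1 ζ Λ p.2) (W, t) :=
    ((cd_k1 ζ Λ).comp contDiff_snd).contDiffAt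
  have hk2 : ContDiffAt ℝ ∞ (fun p : C2 × ℝ => k2 ζ Λ p.2) (W, t) :=
    ((cd_k2 ζ Λ).comp contDiff_snd).contDiffAt
  have hy1 : ContDiffAt ℝ ∞ (fun p => y1 C (PiC e κ Λ p)) (W, t) :=
    (h.j1.s _ hne).comp (W, t) hP
  have hy0 : ContDiffAt ℝ ∞ (fun p => y0 (PiC e κ Λ p)) (W, t) :=
    cd_y0.contDiffAt.comp (W, t) hP
  have hu : ContDiffAt ℝ ∞ (fun p : C2 × ℝ => uu (wn e p.1)) (W, t) :=
    cd_uu.contDiffAt.comp (W, t) hw
  have hdy1 : ContDiffAt ℝ ∞ (fun p => fderiv ℝ (y1 C) (PiC e κ Λ p)) (W, t) :=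
    ((h.j1.s _ hne).fderiv_right (m := ∞) (by simp)).comp (W, t) hP
  have hdy0 : ContDiffAt ℝ ∞ (fun p => fderiv ℝ y0 (PiC e κ Λ p)) (W, t) :=
    (cd_y0.contDiffAt.fderiv_right (m := ∞) (by simp)).comp (W, t) hP
  have hPu : ContDiffAt ℝ ∞ (fun p : C2 × ℝ => Pu (wn e p.1)) (W, t) :=
    cd_Pu.contDiffAt.comp (W, t) hw
  have hlast : ContDiffAt ℝ ∞ (fun p : C2 × ℝ =>
      (k1 ζ Λ p.2 * (uu (wn e p.1) - y1 C (PiC e κ Λ p))
        + k2 ζ Λ p.2 * (uu (wn e p.1) - y0 (PiC e κ Λ p))) • PR (wn e p.1)) (W, t) := by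
    by_cases hcl : |t + Λ| ≤ 3 ∨ |t - Λ| ≤ 3
    · have hw0 := wn_ne h hc.1 (hcl.imp (hcol W t hc).1 (hcol W t hc).2)
      have hXY := XY_wn_ne h.epos hc.1 hc.2.1
      exact ((hk1.mul (hu.sub hy1)).add (hk2.mul (hu.sub hy0))).smul
        (ContDiffAt.comp (g := PR) (W, t) (cd_PR hw0.1 hw0.2 hXY.1 hXY.2) hw)
    · rw [not_or, not_le, not_le] at hcl
      have e1 : ∀ᶠ p : C2 × ℝ in 𝓝 (W, t), 1 < |p.2 + Λ| :=
        ContinuousAt.eventually_lt continuousAt_const (by fun_prop) (by linarith [hcl.1])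
      have e2 : ∀ᶠ p : C2 × ℝ in 𝓝 (W, t), 1 < |p.2 - Λ| :=
        ContinuousAt.eventually_lt continuousAt_const (by fun_prop) (by linarith [hcl.2])
      refine (contDiffAt_const (c := (0 : Cov))).congr_of_eventuallyEq ?_
      filter_upwards [e1, e2] with p p1 p2
      simp [k1, k2, ζ.k0 _ p1.le, ζ.k0 _ p2.le]
  refine ⟨hP, ?_, ?_⟩
  · exact (((contDiffAt_const.sub hn1).mul hy1).add ((contDiffAt_const.sub hn2).mul hy0)).add
      (((hn1.add hn2).sub contDiffAt_const).mul hu)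
  · exact ((((contDiffAt_const.sub hn1).smul hdy1).add
      ((contDiffAt_const.sub hn2).smul hdy0)).add
      (((hn1.add hn2).sub contDiffAt_const).smul hPu)).add hlast

theorem cover_hom {e C : ℝ} {κ : Cut} (h : Par e C κ) (ζ : Zig) (Λ : ℝ) (W : C2) (t : ℝ)
    (hW : W ≠ 0) (s : ℝ) (hs : s ≠ 0) :
    PiC e κ Λ (s • W, t) = PiC e κ Λ (W, t) ∧ UC e C ζ κ Λ (s • W, t) = UC e C ζ κ Λ (W, t) ∧
      PC e C ζ κ Λ (s • W, t) = PC e C ζ κ Λ (W, t) := by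
  have hP : PiC e κ Λ (s • W, t) = PiC e κ Λ (W, t) := by
    unfold PiC
    rw [GG_smul h.gok Λ W t hs, Nrm_smul (by positivity)]
  refine ⟨hP, ?_, ?_⟩
  · unfold UC
    rw [hP]
    rcases wn_smul e W hs with h' | h'
    · simp only [h']
    · simp only [h', uu_neg]
  · unfold PC
    rw [hP]
    rcases wn_smul e W hs with h' | h'
    · simp only [h']
    · simp only [h', uu_neg, Pu_neg, PR_neg]

theorem cover_unit {e C : ℝ} {κ : Cut} (h : Par e C κ) (Λ : ℝ) (W : C2) (t : ℝ)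
    (h1 : W.1 ≠ 0) (h2 : W.2 ≠ 0) : Nsq e (PiC e κ Λ (W, t)) = 1 :=
  Nsq_Nrm h.epos (GG_ne h.gok Λ t h1 h2)

theorem cover_avoid {e C : ℝ} {κ : Cut} (h : Par e C κ) (Λ : ℝ) (W : C2) (t : ℝ)
    (h1 : W.1 ≠ 0) (h2 : W.2 ≠ 0) (s : ℝ) (hs : 0 < s) :
    PiC e κ Λ (W, t) ≠ (-(s : ℂ), -(s : ℂ)) := by
  intro hP
  have hne := GG_ne h.gok Λ t h1 h2
  have hpos : 0 < √(Nsq e (GG κ Λ (W, t))) := Real.sqrt_pos.mpr (Nsq_pos h.epos hne)
  obtain ⟨r, hr, hG⟩ : ∃ r : ℝ, 0 < r ∧ GG κ Λ (W, t) = (-(r : ℂ) ^ 2, -(r : ℂ) ^ 2) := by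
    refine ⟨√(√(Nsq e (GG κ Λ (W, t))) * s), Real.sqrt_pos.mpr (mul_pos hpos hs), ?_⟩
    have e1 : GG κ Λ (W, t) = √(Nsq e (GG κ Λ (W, t))) • PiC e κ Λ (W, t) := by
      unfold PiC Nrm
      rw [smul_smul, mul_inv_cancel₀ hpos.ne', one_smul]
    have e2 : ((√(√(Nsq e (GG κ Λ (W, t))) * s) : ℝ) : ℂ) ^ 2
        = (√(Nsq e (GG κ Λ (W, t))) : ℝ) * (s : ℂ) := by
      rw [← ofReal_pow, Real.sq_sqrt (mul_pos hpos hs).le, ofReal_mul]
    rw [e2]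
    refine e1.trans ?_
    rw [hP]
    ext <;> simp
  have hr' : (r : ℂ) * I ≠ 0 := mul_ne_zero (ofReal_ne_zero.mpr hr.ne') I_ne_zero
  obtain ⟨ρ, hρ, hnear⟩ := h.gok.near
  unfold GG at hG
  split_ifs at hG
  · have hW0 : G1 κ ((r : ℂ) * I, 0) = (-(r : ℂ) ^ 2, -(r : ℂ) ^ 2) := by
      rw [((hnear ((r : ℂ) * I, 0) (ne_of_fst hr')).1 (by simp; positivity)).1]
      ext
      · simp [sq2, Lin, mul_pow]
      · simp only [sq2, Lin, map_mul, conj_ofReal, conj_I, map_zero]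
        linear_combination (r : ℂ) ^ 2 * I_sq
    rcases h.gok.inj1 W _ h1 (hG.trans hW0.symm) with h' | h'
    · exact h2 (congrArg Prod.snd h').symm
    · exact h2 (neg_eq_zero.mp (congrArg Prod.snd h').symm)
  · have hW0 : G2 κ (0, (r : ℂ) * I) = (-(r : ℂ) ^ 2, -(r : ℂ) ^ 2) := by
      rw [((hnear (0, (r : ℂ) * I) (fun h0 => hr' (congrArg Prod.snd h0))).2
        (by simp; positivity)).1]
      ext
      · simp [sq2, Lin, mul_pow]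
      · simp only [sq2, Lin, map_mul, conj_ofReal, conj_I, map_zero]
        linear_combination (r : ℂ) ^ 2 * I_sq
    rcases h.gok.inj2 W _ h2 (hG.trans hW0.symm) with h' | h'
    · exact h1 (congrArg Prod.fst h').symm
    · exact h1 (neg_eq_zero.mp (congrArg Prod.fst h').symm)
  · have a : (Lin W).1 ^ 2 = -(r : ℂ) ^ 2 := congrArg Prod.fst hG
    have b : (Lin W).2 ^ 2 = -(r : ℂ) ^ 2 := congrArg Prod.snd hG
    have hc : conj (Lin W).1 = -(Lin W).1 := by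
      have : ((Lin W).1 - r * I) * ((Lin W).1 + r * I) = 0 := by
        linear_combination a - (r : ℂ) ^ 2 * I_sq
      rcases mul_eq_zero.mp this with h' | h'
      · rw [sub_eq_zero.mp h']; simp
      · rw [eq_neg_of_add_eq_zero_left h']; simp
    have : ((Lin W).2 - (Lin W).1) * ((Lin W).2 + (Lin W).1) = 0 := by
      linear_combination b - a
    rcases mul_eq_zero.mp this with h' | h'
    · apply h2
      rw [← Yc_Lin W, Yc, Xc, sub_eq_zero.mp h', map_sub, conj_conj, hc]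
      ring
    · apply h1
      rw [← Xc_Lin W, Xc, eq_neg_of_add_eq_zero_left h', hc]
      simp

theorem cover_leg {e C : ℝ} {κ : Cut} (h : Par e C κ) (ζ : Zig) :
    ∀ᶠ Λ in atTop, ∀ W t, Con (Phi ζ Λ) W t → ∀ V τ, dLog W V = deriv (Phi ζ Λ) t * τ →
      fderiv ℝ (UC e C ζ κ Λ) (W, t) (V, τ)
        = PC e C ζ κ Λ (W, t) (fderiv ℝ (PiC e κ Λ) (W, t) (V, τ)) := by
  filter_upwards [base (e := e) ζ h.gok, collar ζ (ρ := 1 / 16) (by norm_num)] with Λ hb hcol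
  intro W t hc V τ hV
  have h3 := hb.big
  have hne := PiC_ne h Λ t hc.1 hc.2.1
  have hP : HasFDerivAt (PiC e κ Λ) (fderiv ℝ (PiC e κ Λ) (W, t)) (W, t) :=
    ((cd_PiC h hb hc).differentiableAt (by simp)).hasFDerivAt
  have hw : HasFDerivAt (fun p : C2 × ℝ => wn e p.1)
      ((fderiv ℝ (wn e) W).comp (ContinuousLinearMap.fst ℝ C2 ℝ)) (W, t) :=
    hasF_fst (contDiffAt_wn h.epos (ne_of_fst hc.1)) t
  have hn1 : HasFDerivAt (fun p : C2 × ℝ => n1 ζ Λ p.2)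
      (deriv (n1 ζ Λ) t • ContinuousLinearMap.snd ℝ C2 ℝ) (W, t) :=
    hasF_snd (cd_n1 ζ Λ) W t
  have hn2 : HasFDerivAt (fun p : C2 × ℝ => n2 ζ Λ p.2)
      (deriv (n2 ζ Λ) t • ContinuousLinearMap.snd ℝ C2 ℝ) (W, t) :=
    hasF_snd (cd_n2 ζ Λ) W t
  have hy1 := ((h.j1.s _ hne).differentiableAt (by simp)).hasFDerivAt.comp (W, t) hP
  have hy0 := (cd_y0.differentiable (by simp) (PiC e κ Λ (W, t))).hasFDerivAt.comp (W, t) hP
  have hu := (cd_uu.differentiable (by simp) (wn e W)).hasFDerivAt.comp (W, t) hw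
  have hU := (((hn1.const_sub 1).mul hy1).add ((hn2.const_sub 1).mul hy0)).add
    (((hn1.add hn2).sub_const 1).mul hu)
  have hU' := congrArg (fun L : C2 × ℝ →L[ℝ] ℝ => L (V, τ)) hU.fderiv
  have A : (n1 ζ Λ t + n2 ζ Λ t - 1) * fderiv ℝ uu (wn e W) (fderiv ℝ (wn e) W V)
      = (n1 ζ Λ t + n2 ζ Λ t - 1) * Pu (wn e W) (fderiv ℝ (PiC e κ Λ) (W, t) (V, τ)) := by
    by_cases ht : |t| ≤ Λ + 2
    · rw [fderiv_PiC0 h.epos hb hc ht, h.ju.du]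
    · have : n1 ζ Λ t + n2 ζ Λ t - 1 = 0 := by
        rcases lt_abs.mp (not_le.mp ht) with ht | ht
        · rw [n1, n2, ζ.n1 _ (by linarith), ζ.n1 _ (by linarith)]; ring
        · rw [n1, n2, ζ.n0 _ (by linarith), ζ.n0 _ (by linarith)]; ring
      rw [this, zero_mul, zero_mul]
  have B : ∀ a b : ℝ, (k1 ζ Λ t * a + k2 ζ Λ t * b) * (deriv (Phi ζ Λ) t * τ)
      = (k1 ζ Λ t * a + k2 ζ Λ t * b) * PR (wn e W) (fderiv ℝ (PiC e κ Λ) (W, t) (V, τ)) := by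
    intro a b
    by_cases hcl : |t + Λ| ≤ 1 ∨ |t - Λ| ≤ 1
    · have hw0 := wn_ne h hc.1 (hcl.imp (fun h' => (hcol W t hc).1 (by linarith))
        (fun h' => (hcol W t hc).2 (by linarith)))
      have ht : |t| ≤ Λ + 2 := by
        rcases hcl with h' | h' <;> rw [abs_le] at h' ⊢ <;> constructor <;> linarith [h'.1, h'.2]
      rw [fderiv_PiC0 h.epos hb hc ht, h.ju.dR _ _ hw0.1 hw0.2, dLog_wn h.epos hc.1 hc.2.1, hV]
    · rw [not_or, not_le, not_le] at hcl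
      simp [k1, k2, ζ.k0 _ hcl.1.le, ζ.k0 _ hcl.2.le]
  have B' := B (uu (wn e W) - y1 C (PiC e κ Λ (W, t))) (uu (wn e W) - y0 (PiC e κ Λ (W, t)))
  refine Eq.trans hU' ?_
  simp only [PC, _root_.add_apply, _root_.smul_apply,
    _root_.neg_apply, ContinuousLinearMap.comp_apply, ContinuousLinearMap.coe_fst',
    ContinuousLinearMap.coe_snd', smul_eq_mul, Function.comp_apply, Pi.add_apply, hb.dn1, hb.dn2]
  linear_combination A + B'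

theorem cover_far {e C : ℝ} {κ : Cut} (h : Par e C κ) (ζ : Zig) :
    ∀ᶠ Λ in atTop, ∃ T c1 c2 : ℝ, (∀ t, t ≤ -T → Phi ζ Λ t = t + c1) ∧
      (∀ t, T ≤ t → Phi ζ Λ t = t + c2) ∧
      (∀ W t, Con (Phi ζ Λ) W t → t ≤ -T → PiC e κ Λ (W, t) = Nrm e (F1 W) ∧
        UC e C ζ κ Λ (W, t) = y1 C (PiC e κ Λ (W, t)) ∧
        PC e C ζ κ Λ (W, t) = fderiv ℝ (y1 C) (PiC e κ Λ (W, t))) ∧
      (∀ W t, Con (Phi ζ Λ) W t → T ≤ t → PiC e κ Λ (W, t) = Nrm e (F2 W) ∧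
        UC e C ζ κ Λ (W, t) = y0 (PiC e κ Λ (W, t)) ∧
        PC e C ζ κ Λ (W, t) = fderiv ℝ y0 (PiC e κ Λ (W, t))) := by
  obtain ⟨ρ, hρ, hnear⟩ := h.gok.near
  filter_upwards [eventually_ge_atTop (1 : ℝ)] with Λ hΛ
  set T := max (Λ + 1) (2 * Λ - Real.log ρ) with hT
  have hT1 : Λ + 1 ≤ T := le_max_left _ _
  have hT2 : 2 * Λ - Real.log ρ ≤ T := le_max_right _ _
  have lo : ∀ t, t ≤ -T → Phi ζ Λ t = t + 2 * Λ := by
    intro t ht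
    unfold Phi
    rw [ζ.glo _ (by linarith), ζ.glo _ (by linarith)]
    ring
  have hi : ∀ t, T ≤ t → Phi ζ Λ t = t + -(2 * Λ) := by
    intro t ht
    unfold Phi
    rw [ζ.ghi _ (by linarith), ζ.ghi _ (by linarith)]
    ring
  refine ⟨T, 2 * Λ, -(2 * Λ), lo, hi, ?_, ?_⟩
  · rintro W t ⟨h1, h2, h3⟩ ht
    have p1 : 0 < ‖W.1‖ ^ 2 := by positivity
    have p2 : 0 < ‖W.2‖ ^ 2 := by positivity
    have hle : ‖W.1‖ ^ 2 ≤ ρ * ‖W.2‖ ^ 2 := by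
      rw [← div_le_iff₀ p2, ← Real.log_le_log_iff (div_pos p1 p2) hρ, h3, lo t ht]
      linarith
    have a1 : n1 ζ Λ t = 0 := ζ.n0 _ (by linarith)
    have a2 : n2 ζ Λ t = 1 := by rw [n2, ζ.n0 _ (by linarith), sub_zero]
    have a3 : k1 ζ Λ t = 0 := by
      rw [k1, ζ.k0 _ (by rw [abs_of_nonpos (by linarith)]; linarith), neg_zero]
    have a4 : k2 ζ Λ t = 0 := by
      rw [k2, ζ.k0 _ (by rw [abs_of_nonpos (by linarith)]; linarith), neg_zero]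
    refine ⟨?_, ?_, ?_⟩
    · unfold PiC GG
      rw [if_pos (show t ≤ -Λ by linarith), ((hnear W (ne_of_fst h1)).2 hle).2]
    · simp [UC, a1, a2]
    · simp [PC, a1, a2, a3, a4]
  · rintro W t ⟨h1, h2, h3⟩ ht
    have p1 : 0 < ‖W.1‖ ^ 2 := by positivity
    have p2 : 0 < ‖W.2‖ ^ 2 := by positivity
    have hle : ‖W.2‖ ^ 2 ≤ ρ * ‖W.1‖ ^ 2 := by
      rw [← div_le_iff₀ p1, ← Real.log_le_log_iff (div_pos p2 p1) hρ, ← inv_div, Real.log_inv,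
        h3, hi t ht]
      linarith
    have a1 : n1 ζ Λ t = 1 := ζ.n1 _ (by linarith)
    have a2 : n2 ζ Λ t = 0 := by rw [n2, ζ.n1 _ (by linarith), sub_self]
    have a3 : k1 ζ Λ t = 0 := by
      rw [k1, ζ.k0 _ (by rw [abs_of_nonneg (by linarith)]; linarith), neg_zero]
    have a4 : k2 ζ Λ t = 0 := by
      rw [k2, ζ.k0 _ (by rw [abs_of_nonneg (by linarith)]; linarith), neg_zero]
    refine ⟨?_, ?_, ?_⟩
    · unfold PiC GG
      rw [if_neg (show ¬ t ≤ -Λ by linarith), if_pos (show Λ ≤ t by linarith),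
        ((hnear W (ne_of_fst h1)).1 hle).2]
    · simp [UC, a1, a2]
    · simp [PC, a1, a2, a3, a4]

end Pool.Agent.Lib.MP_b7c8b0_gt
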