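import Pool.Agent.Lib.MP_b7c8b0_gt.ADefs

open scoped ContDiff ComplexConjugate Topology
open Complex Filter

noncomputable section

namespace Pool.Agent.Lib.MP_b7c8b0_gt

/-- A contact chart of the punctured target sphere. -/
structure Chart (e : ℝ) where
  c : C2 → ℝ × ℝ × ℝ
  ψ : ℝ × ℝ × ℝ → C2
  κ1 : ℝ × ℝ × ℝ → ℂ
  κ2 : ℝ × ℝ × ℝ → ℂ
  sψ : ContDiff ℝ ∞ ψ
  sc : ∀ Z, Nsq e Z = 1 → (∀ s : ℝ, 0 < s → Z ≠ (-(s : ℂ), -(s : ℂ))) → ContDiffAt ℝ ∞ c Z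
  left : ∀ Z, Nsq e Z = 1 → (∀ s : ℝ, 0 < s → Z ≠ (-(s : ℂ), -(s : ℂ))) → ψ (c Z) = Z
  d1 : ∀ q, fderiv ℝ ψ q (0, 1, 0) = Jv e (ψ q) (κ1 q)
  d2 : ∀ q, fderiv ℝ ψ q (1, 0, q.2.1) = Jv e (ψ q) (κ2 q)
  ind : ∀ q, (conj (κ1 q) * κ2 q).im ≠ 0

/-- The Heisenberg coordinate. -/
def cyW (q : ℝ × ℝ × ℝ) : ℂ := (q.1 : ℂ) + I * (q.2.1 : ℂ) / 4

/-- The denominator of the Cayley transform. -/
def cyD (q : ℝ × ℝ × ℝ) : ℂ :=
  1 + ((q.1 : ℂ) ^ 2 + (q.2.1 : ℂ) ^ 2 / 16) - I * ((q.2.2 : ℂ) - (q.1 : ℂ) * (q.2.1 : ℂ) / 2)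

/-- The Cayley transform followed by a rotation. -/
def cyP (e c s : ℝ) (w D : ℂ) : C2 :=
  ((s : ℂ) * (2 * w / D) + (c : ℂ) * (2 / D - 1),
    (-(c : ℂ) * (2 * w / D) + (s : ℂ) * (2 / D - 1)) / (e : ℂ))

def cyZ1 (e c s : ℝ) (Z : C2) : ℂ := (s : ℂ) * Z.1 - (c : ℂ) * (e : ℂ) * Z.2

def cyZ2 (e c s : ℝ) (Z : C2) : ℂ := (c : ℂ) * Z.1 + (s : ℂ) * (e : ℂ) * Z.2

/-- The inverse of the Cayley transform. -/
def cyC (e c s : ℝ) (Z : C2) : ℝ × ℝ × ℝ :=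
  ((cyZ1 e c s Z / (1 + cyZ2 e c s Z)).re, 4 * (cyZ1 e c s Z / (1 + cyZ2 e c s Z)).im,
    -(2 / (1 + cyZ2 e c s Z)).im + (cyZ1 e c s Z / (1 + cyZ2 e c s Z)).re *
      (4 * (cyZ1 e c s Z / (1 + cyZ2 e c s Z)).im) / 2)

theorem cyD_re (q : ℝ × ℝ × ℝ) : (cyD q).re = 1 + (q.1 ^ 2 + q.2.1 ^ 2 / 16) := by
  simp [cyD, pow_two]

theorem cyD_im (q : ℝ × ℝ × ℝ) : (cyD q).im = -(q.2.2 - q.1 * q.2.1 / 2) := by
  simp [cyD, pow_two]

theorem cyD_ne (q : ℝ × ℝ × ℝ) : cyD q ≠ 0 := by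
  intro h
  have h1 := cyD_re q
  rw [h, zero_re] at h1
  have : 0 < 1 + (q.1 ^ 2 + q.2.1 ^ 2 / 16) := by positivity
  linarith

theorem cyW_conj (q : ℝ × ℝ × ℝ) : conj (cyW q) = (q.1 : ℂ) - I * (q.2.1 : ℂ) / 4 := by
  simp only [cyW, map_add, map_div₀, map_mul, conj_ofReal, conj_I, map_ofNat]
  ring

theorem cyD_add_conj (q : ℝ × ℝ × ℝ) :
    conj (cyD q) = 2 + 2 * (cyW q * conj (cyW q)) - cyD q := by
  rw [mul_conj]
  apply Complex.ext
  · simp [cyD_re, normSq_apply, cyW]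
    ring
  · simp

theorem cy_ofReal_smooth {f : ℝ × ℝ × ℝ → ℝ} (hf : ContDiff ℝ ∞ f) :
    ContDiff ℝ ∞ fun q => (f q : ℂ) :=
  ofRealCLM.contDiff.comp hf

theorem cyW_smooth : ContDiff ℝ ∞ cyW := by
  have h1 := cy_ofReal_smooth (f := fun q => q.1) contDiff_fst
  have h2 := cy_ofReal_smooth (f := fun q => q.2.1) (contDiff_fst.comp contDiff_snd)
  exact h1.add ((contDiff_const.mul h2).div_const _)

theorem cyD_smooth : ContDiff ℝ ∞ cyD := by
  have h1 := cy_ofReal_smooth (f := fun q => q.1) contDiff_fst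
  have h2 := cy_ofReal_smooth (f := fun q => q.2.1) (contDiff_fst.comp contDiff_snd)
  have h3 := cy_ofReal_smooth (f := fun q => q.2.2) (contDiff_snd.comp contDiff_snd)
  exact (contDiff_const.add ((h1.pow 2).add ((h2.pow 2).div_const _))).sub
    (contDiff_const.mul (h3.sub ((h1.mul h2).div_const _)))

theorem cyP_smooth (e c s : ℝ) : ContDiff ℝ ∞ fun q => cyP e c s (cyW q) (cyD q) := by
  have hi : ContDiff ℝ ∞ fun q => (cyD q)⁻¹ := cyD_smooth.inv cyD_ne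
  have h1 : ContDiff ℝ ∞ fun q => 2 * cyW q / cyD q := by
    simp only [div_eq_mul_inv]
    exact (contDiff_const.mul cyW_smooth).mul hi
  have h2 : ContDiff ℝ ∞ fun q => 2 / cyD q - 1 := by
    simp only [div_eq_mul_inv]
    exact (contDiff_const.mul hi).sub contDiff_const
  exact ((contDiff_const.mul h1).add (contDiff_const.mul h2)).prodMk
    (((contDiff_const.mul h1).add (contDiff_const.mul h2)).div_const _)

theorem cyP_deriv {e : ℝ} (he : 0 < e) (c s : ℝ) {w D : ℝ → ℂ} {dw : ℂ}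
    (hw : HasDerivAt w dw 0) (hD : HasDerivAt D (2 * conj (w 0) * dw) 0) (h0 : D 0 ≠ 0)
    (hc : conj (D 0) = 2 + 2 * (w 0 * conj (w 0)) - D 0) :
    HasDerivAt (fun t => cyP e c s (w t) (D t))
      (Jv e (cyP e c s (w 0) (D 0)) (dw * (-2 * conj (D 0) / (D 0 ^ 2 * e)))) 0 := by
  have he' : (e : ℂ) ≠ 0 := by exact_mod_cast he.ne'
  have h0' : conj (D 0) ≠ 0 := by simpa using h0
  have h1 : HasDerivAt (fun t => 2 * w t / D t)
      (dw * (2 * conj (D 0) / D 0 ^ 2) * (2 / conj (D 0) - 1)) 0 := by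
    refine ((hw.const_mul 2).div hD h0).congr_deriv ?_
    field_simp
    rw [hc]
    ring
  have h2 : HasDerivAt (fun t => 2 / D t - 1)
      (-(dw * (2 * conj (D 0) / D 0 ^ 2) * (2 * conj (w 0) / conj (D 0)))) 0 := by
    refine (((hasDerivAt_const (0 : ℝ) (2 : ℂ)).div hD h0).sub_const 1).congr_deriv ?_
    field_simp
    ring
  refine (((h1.const_mul (s : ℂ)).add (h2.const_mul (c : ℂ))).prodMk
    (((h1.const_mul (-(c : ℂ))).add (h2.const_mul (s : ℂ))).div_const (e : ℂ))).congr_deriv ?_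
  simp only [Jv, cyP, map_add, map_mul, map_div₀, map_sub, map_neg, conj_ofReal, map_ofNat,
    map_one]
  refine Prod.ext ?_ ?_
  · simp only
    field_simp
    ring
  · simp only
    field_simp
    ring

theorem cy_fderiv {F : Type} [NormedAddCommGroup F] [NormedSpace ℝ F] {f : ℝ × ℝ × ℝ → F}
    (hf : ContDiff ℝ ∞ f) {q v : ℝ × ℝ × ℝ} {d : F}
    (h : HasDerivAt (fun t : ℝ => f (q + t • v)) d 0) : fderiv ℝ f q v = d := by
  have h1 : DifferentiableAt ℝ f q := (hf.differentiable (by simp)).differentiableAt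
  rw [← h1.lineDeriv_eq_fderiv]
  exact HasLineDerivAt.lineDeriv h

theorem cy_ofReal_deriv : HasDerivAt (fun t : ℝ => (t : ℂ)) 1 0 :=
  (hasDerivAt_id (0 : ℝ)).ofReal_comp

theorem cy_d1 {e : ℝ} (he : 0 < e) (c s : ℝ) (q : ℝ × ℝ × ℝ) :
    fderiv ℝ (fun q => cyP e c s (cyW q) (cyD q)) q (0, 1, 0) =
      Jv e (cyP e c s (cyW q) (cyD q)) (I / 4 * (-2 * conj (cyD q) / (cyD q ^ 2 * e))) := by
  apply cy_fderiv (cyP_smooth e c s)
  have ht := cy_ofReal_deriv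
  have hy := ht.const_add (q.2.1 : ℂ)
  have h := cyP_deriv he c s (w := fun t : ℝ => cyW (q + t • ((0, 1, 0) : ℝ × ℝ × ℝ)))
    (D := fun t : ℝ => cyD (q + t • ((0, 1, 0) : ℝ × ℝ × ℝ))) (dw := I / 4) ?_ ?_ (cyD_ne _)
    (cyD_add_conj _)
  · simpa using h
  · have h1 := ((hy.const_mul I).div_const 4).const_add (q.1 : ℂ)
    refine (h1.congr_deriv (by ring)).congr_of_eventuallyEq (Eventually.of_forall fun t => ?_)
    simp [cyW]
  · have h1 := ((((hy.pow 2).div_const 16).const_add ((q.1 : ℂ) ^ 2)).const_add 1).sub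
      ((((hy.const_mul (q.1 : ℂ)).div_const 2).const_sub (q.2.2 : ℂ)).const_mul I)
    refine (h1.congr_deriv ?_).congr_of_eventuallyEq (Eventually.of_forall fun t => ?_)
    · simp only [zero_smul, add_zero, cyW_conj]
      simp
      linear_combination (q.2.1 : ℂ) / 8 * I_mul_I
    · simp [cyD]

theorem cy_d2 {e : ℝ} (he : 0 < e) (c s : ℝ) (q : ℝ × ℝ × ℝ) :
    fderiv ℝ (fun q => cyP e c s (cyW q) (cyD q)) q (1, 0, q.2.1) =
      Jv e (cyP e c s (cyW q) (cyD q)) (1 * (-2 * conj (cyD q) / (cyD q ^ 2 * e))) := by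
  apply cy_fderiv (cyP_smooth e c s)
  have ht := cy_ofReal_deriv
  have hx := ht.const_add (q.1 : ℂ)
  have hz := (ht.mul_const (q.2.1 : ℂ)).const_add (q.2.2 : ℂ)
  have h := cyP_deriv he c s (w := fun t : ℝ => cyW (q + t • ((1, 0, q.2.1) : ℝ × ℝ × ℝ)))
    (D := fun t : ℝ => cyD (q + t • ((1, 0, q.2.1) : ℝ × ℝ × ℝ))) (dw := 1) ?_ ?_ (cyD_ne _)
    (cyD_add_conj _)
  · simpa using h
  · have h1 := hx.add_const (I * (q.2.1 : ℂ) / 4)
    refine h1.congr_of_eventuallyEq (Eventually.of_forall fun t => ?_)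
    simp [cyW]
  · have h1 := (((hx.pow 2).add_const ((q.2.1 : ℂ) ^ 2 / 16)).const_add 1).sub
      ((hz.sub ((hx.mul_const (q.2.1 : ℂ)).div_const 2)).const_mul I)
    refine (h1.congr_deriv ?_).congr_of_eventuallyEq (Eventually.of_forall fun t => ?_)
    · simp only [zero_smul, add_zero, cyW_conj]
      simp
      ring
    · simp [cyD]

theorem cy_norm {e c s : ℝ} (hcs : c ^ 2 + s ^ 2 = 1) {Z : C2} (hZ : Nsq e Z = 1) :
    normSq (cyZ1 e c s Z) + normSq (cyZ2 e c s Z) = 1 := by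
  unfold Nsq at hZ
  rw [← normSq_eq_norm_sq, ← normSq_eq_norm_sq] at hZ
  simp only [normSq_apply] at hZ
  simp only [cyZ1, cyZ2, normSq_apply, sub_re, add_re, mul_re, ofReal_re, ofReal_im, sub_im,
    add_im, mul_im]
  linear_combination hZ + (Z.1.re * Z.1.re + Z.1.im * Z.1.im +
    e ^ 2 * (Z.2.re * Z.2.re + Z.2.im * Z.2.im)) * hcs

theorem cy_rot {e c s : ℝ} (he : 0 < e) (hcs : c ^ 2 + s ^ 2 = 1) (Z : C2) :
    ((s : ℂ) * cyZ1 e c s Z + (c : ℂ) * cyZ2 e c s Z,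
      (-(c : ℂ) * cyZ1 e c s Z + (s : ℂ) * cyZ2 e c s Z) / (e : ℂ)) = Z := by
  have he' : (e : ℂ) ≠ 0 := by exact_mod_cast he.ne'
  have h : (c : ℂ) ^ 2 + (s : ℂ) ^ 2 = 1 := by exact_mod_cast hcs
  refine Prod.ext ?_ ?_
  · simp only [cyZ1, cyZ2]
    linear_combination Z.1 * h
  · simp only [cyZ1, cyZ2]
    rw [div_eq_iff he']
    linear_combination Z.2 * e * h

theorem cy_ne {e c : ℝ} (he : 0 < e) (hc : 0 < c) (hcs : c ^ 2 + (e * c) ^ 2 = 1) {Z : C2}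
    (hZ : Nsq e Z = 1) (ha : ∀ s : ℝ, 0 < s → Z ≠ (-(s : ℂ), -(s : ℂ))) :
    1 + cyZ2 e c (e * c) Z ≠ 0 := by
  intro h
  have he' : (e : ℂ) ≠ 0 := by exact_mod_cast he.ne'
  have h2 : cyZ2 e c (e * c) Z = -1 := by linear_combination h
  have h1 := cy_norm hcs hZ
  rw [h2] at h1
  have h3 : cyZ1 e c (e * c) Z = 0 := by simpa using h1
  apply ha c hc
  rw [← cy_rot he hcs Z, h2, h3]
  refine Prod.ext (by simp) ?_
  simp only
  rw [div_eq_iff he']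
  push_cast
  ring

theorem cy_left {e c s : ℝ} (he : 0 < e) (hcs : c ^ 2 + s ^ 2 = 1) {Z : C2}
    (hZ : Nsq e Z = 1) (hne : 1 + cyZ2 e c s Z ≠ 0) :
    cyP e c s (cyW (cyC e c s Z)) (cyD (cyC e c s Z)) = Z := by
  have h1 := cy_norm hcs hZ
  have hW : cyW (cyC e c s Z) = cyZ1 e c s Z / (1 + cyZ2 e c s Z) := by
    apply Complex.ext <;> simp [cyW, cyC]
  have hD : cyD (cyC e c s Z) = 2 / (1 + cyZ2 e c s Z) := by
    apply Complex.ext
    · have h2 : (cyD (cyC e c s Z)).re = 1 + normSq (cyZ1 e c s Z / (1 + cyZ2 e c s Z)) := by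
        rw [cyD_re, normSq_apply]
        simp only [cyC]
        ring
      have h3 : normSq (1 + cyZ2 e c s Z) ≠ 0 := by simpa using hne
      rw [h2, normSq_div, div_re]
      simp only [re_ofNat, im_ofNat, zero_mul, zero_div, add_zero]
      field_simp
      rw [normSq_add]
      simp only [map_one, one_mul, conj_re, add_re, one_re]
      linear_combination h1
    · rw [cyD_im]
      simp only [cyC]
      ring
  rw [hW, hD]
  refine Eq.trans ?_ (cy_rot he hcs Z)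
  have e1 : 2 * (cyZ1 e c s Z / (1 + cyZ2 e c s Z)) / (2 / (1 + cyZ2 e c s Z)) =
      cyZ1 e c s Z := by field_simp
  have e2 : 2 / (2 / (1 + cyZ2 e c s Z)) - 1 = cyZ2 e c s Z := by
    field_simp
    ring
  rw [cyP, e1, e2]

theorem cyC_smooth {e c s : ℝ} {Z : C2} (hne : 1 + cyZ2 e c s Z ≠ 0) :
    ContDiffAt ℝ ∞ (cyC e c s) Z := by
  have h1 : ContDiff ℝ ∞ (cyZ1 e c s) :=
    (contDiff_const.mul contDiff_fst).sub (contDiff_const.mul contDiff_snd)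
  have h2 : ContDiff ℝ ∞ fun Z => 1 + cyZ2 e c s Z :=
    contDiff_const.add ((contDiff_const.mul contDiff_fst).add (contDiff_const.mul contDiff_snd))
  have hi : ContDiffAt ℝ ∞ (fun Z => (1 + cyZ2 e c s Z)⁻¹) Z := h2.contDiffAt.inv hne
  have hw : ContDiffAt ℝ ∞ (fun Z => cyZ1 e c s Z / (1 + cyZ2 e c s Z)) Z := by
    simp only [div_eq_mul_inv]
    exact h1.contDiffAt.mul hi
  have hd : ContDiffAt ℝ ∞ (fun Z => 2 / (1 + cyZ2 e c s Z)) Z := by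
    simp only [div_eq_mul_inv]
    exact contDiffAt_const.mul hi
  have hre : ContDiffAt ℝ ∞ (fun Z => (cyZ1 e c s Z / (1 + cyZ2 e c s Z)).re) Z :=
    reCLM.contDiff.contDiffAt.comp Z hw
  have him : ContDiffAt ℝ ∞ (fun Z => 4 * (cyZ1 e c s Z / (1 + cyZ2 e c s Z)).im) Z :=
    contDiffAt_const.mul (imCLM.contDiff.contDiffAt.comp Z hw)
  have hdi : ContDiffAt ℝ ∞ (fun Z => (2 / (1 + cyZ2 e c s Z)).im) Z :=
    imCLM.contDiff.contDiffAt.comp Z hd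
  exact hre.prodMk (him.prodMk (hdi.neg.add ((hre.mul him).div_const 2)))

/-- The Cayley transform. -/
theorem exists_chart {e : ℝ} (he : 0 < e) : Nonempty (Chart e) := by
  obtain ⟨c, hc, hcs⟩ : ∃ c : ℝ, 0 < c ∧ c ^ 2 + (e * c) ^ 2 = 1 := by
    have h : 0 < 1 + e ^ 2 := by positivity
    refine ⟨(√(1 + e ^ 2))⁻¹, by positivity, ?_⟩
    rw [mul_pow, inv_pow, Real.sq_sqrt h.le]
    field_simp
  refine ⟨⟨cyC e c (e * c), fun q => cyP e c (e * c) (cyW q) (cyD q),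
    fun q => I / 4 * (-2 * conj (cyD q) / (cyD q ^ 2 * e)),
    fun q => 1 * (-2 * conj (cyD q) / (cyD q ^ 2 * e)), cyP_smooth e c _,
    fun Z hZ ha => cyC_smooth (cy_ne he hc hcs hZ ha),
    fun Z hZ ha => cy_left he hcs hZ (cy_ne he hc hcs hZ ha), cy_d1 he c _, cy_d2 he c _,
    fun q => ?_⟩⟩
  have he' : (e : ℂ) ≠ 0 := by exact_mod_cast he.ne'
  have h0 := cyD_ne q
  have h0' : conj (cyD q) ≠ 0 := by simpa using h0
  have hk : (-2 * conj (cyD q) / (cyD q ^ 2 * e)) ≠ 0 :=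
    div_ne_zero (mul_ne_zero (by norm_num) h0') (mul_ne_zero (pow_ne_zero 2 h0) he')
  generalize (-2 * conj (cyD q) / (cyD q ^ 2 * e)) = k at hk
  have h1 : (conj (I / 4 * k) * (1 * k)).im = -(normSq k / 4) := by
    have h2 : conj (I / 4 * k) * (1 * k) = -(I * (k * conj k)) / 4 := by
      simp only [map_div₀, map_mul, conj_I, map_ofNat]
      ring
    rw [h2, mul_conj]
    simp
    ring
  rw [h1]
  have := normSq_pos.2 hk
  linarith

end Pool.Agent.Lib.MP_b7c8b0_gt
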