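import Mathlib

namespace Pool.Agent.Lib.MP_b7c8b0_gt

namespace CertAux

/-- The modulus equation in terms of `x = Re σ` and `q = (Im σ) ^ 2`. -/
noncomputable def Ap (x q : ℝ) : ℝ :=
  64 * (x ^ 2 + q + 2 * x + 1) * ((2 * (x ^ 2 + q) ^ 2 - x ^ 2 - 1 / 2 + q) ^ 2 + 4 * x ^ 2 * q) - 9

/-- The real part equation in terms of `x = Re σ` and `q = (Im σ) ^ 2`. -/
noncomputable def Bp (x q : ℝ) : ℝ :=
  -10 * (x ^ 2 + q) ^ 3 - 12 * x * (x ^ 2 + q) ^ 2 - 10 * (x ^ 2 + q) ^ 2 - 3 * (x ^ 2 + q) - 1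
    + 16 * x ^ 2 * (x ^ 2 + q) + 8 * x ^ 2 + 16 * x ^ 3 - 4 * x * (x ^ 2 + q)

theorem box0 (x q : ℝ) (h1 : x ≤ -21 / 20) (hq : 0 ≤ q) (hA : Ap x q = 0)
    (hB : Bp x q = 0) : False := by
  have key : ∀ u : ℝ, 0 ≤ u → 0 ≤
      457857 / 6400000 + 808563 / 160000 * u ^ 1 + 116867 / 3200 * u ^ 2 + 3441 / 40 * u ^ 3
      + 771 / 8 * u ^ 4 + 51 * u ^ 5 + 10 * u ^ 6 + 7611 / 640 * q ^ 1
      + 12787 / 200 * u ^ 1 * q ^ 1 + 2537 / 20 * u ^ 2 * q ^ 1 + 102 * u ^ 3 * q ^ 1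
      + 30 * u ^ 4 * q ^ 1 + 1219 / 40 * q ^ 2 + 51 * u ^ 1 * q ^ 2 + 30 * u ^ 2 * q ^ 2
      + 10 * q ^ 3 :=
    fun u hu => by positivity
  have h := key ((-21 / 20) - x) (by linarith)
  unfold Ap at hA
  unfold Bp at hB
  have : (1 / 10 : ℝ) ≤ 0 := by linear_combination h + 0 * hA - hB
  norm_num at this

theorem box1 (x q : ℝ) (h1 : -21 / 20 ≤ x) (h2 : x ≤ -17 / 20) (hq : 0 ≤ q) (hA : Ap x q = 0)
    (hB : Bp x q = 0) : False := by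
  have key : ∀ u v : ℝ, 0 ≤ u → 0 ≤ v → 0 ≤
      1037767454039 / 4096 * v ^ 10 + 3192596665895 / 2048 * u ^ 1 * v ^ 9
      + 16400440823075 / 4096 * u ^ 2 * v ^ 8 + 2939385187485 / 512 * u ^ 3 * v ^ 7
      + 12030904412255 / 2048 * u ^ 4 * v ^ 6 + 6518584352789 / 1024 * u ^ 5 * v ^ 5
      + 15499329862615 / 2048 * u ^ 6 * v ^ 4 + 3508524375725 / 512 * u ^ 7 * v ^ 3
      + 15799856264235 / 4096 * u ^ 8 * v ^ 2 + 2448933753735 / 2048 * u ^ 9 * v ^ 1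
      + 642140616431 / 4096 * u ^ 10 + 232060227035 / 512 * v ^ 8 * q ^ 1
      + 50467724645 / 16 * u ^ 1 * v ^ 7 * q ^ 1 + 1222213741735 / 128 * u ^ 2 * v ^ 6 * q ^ 1
      + 526029687575 / 32 * u ^ 3 * v ^ 5 * q ^ 1 + 4510753025925 / 256 * u ^ 4 * v ^ 4 * q ^ 1
      + 12054850460 * u ^ 5 * v ^ 3 * q ^ 1 + 658864313995 / 128 * u ^ 6 * v ^ 2 * q ^ 1
      + 40198561655 / 32 * u ^ 7 * v ^ 1 * q ^ 1 + 68823454675 / 512 * u ^ 8 * q ^ 1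
      + 27141530285 / 512 * v ^ 6 * q ^ 2 + 77117442795 / 256 * u ^ 1 * v ^ 5 * q ^ 2
      + 363927330875 / 512 * u ^ 2 * v ^ 4 * q ^ 2 + 114248381125 / 128 * u ^ 3 * v ^ 3 * q ^ 2
      + 322449126675 / 512 * u ^ 4 * v ^ 2 * q ^ 2 + 60661062235 / 256 * u ^ 5 * v ^ 1 * q ^ 2
      + 19031748005 / 512 * u ^ 6 * q ^ 2 + 62959975 / 32 * v ^ 4 * q ^ 3
      + 59260395 / 8 * u ^ 1 * v ^ 3 * q ^ 3 + 168148765 / 16 * u ^ 2 * v ^ 2 * q ^ 3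
      + 53267715 / 8 * u ^ 3 * v ^ 1 * q ^ 3 + 50869015 / 32 * u ^ 4 * q ^ 3
      + 133095 / 2 * v ^ 2 * q ^ 4 + 118475 * u ^ 1 * v ^ 1 * q ^ 4 + 107295 / 2 * u ^ 2 * q ^ 4
      + 744 * q ^ 5 :=
    fun u v hu hv => by positivity
  have h := key (x - (-21 / 20)) ((-17 / 20) - x) (by linarith) (by linarith)
  unfold Ap at hA
  unfold Bp at hB
  have : (1 / 10 : ℝ) ≤ 0 := by linear_combination h + (-1) * hA - (100 + 100 * q + 100 * q ^ 2) * hB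
  norm_num at this

theorem box2 (x q : ℝ) (h1 : -17 / 20 ≤ x) (h2 : x ≤ -7 / 20) (hq : 0 ≤ q) (hA : Ap x q = 0)
    (hB : Bp x q = 0) : False := by
  have key : ∀ u v : ℝ, 0 ≤ u → 0 ≤ v → 0 ≤
      396761 / 100000 * v ^ 6 + 4273573 / 50000 * u ^ 1 * v ^ 5 + 8699563 / 20000 * u ^ 2 * v ^ 4
      + 3713751 / 5000 * u ^ 3 * v ^ 3 + 12381643 / 20000 * u ^ 4 * v ^ 2
      + 13413733 / 50000 * u ^ 5 * v ^ 1 + 4846841 / 100000 * u ^ 6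
      + 54579 / 1000 * v ^ 4 * q ^ 1 + 5629 / 250 * u ^ 1 * v ^ 3 * q ^ 1
      + 15737 / 500 * u ^ 2 * v ^ 2 * q ^ 1 + 14429 / 250 * u ^ 3 * v ^ 1 * q ^ 1
      + 24179 / 1000 * u ^ 4 * q ^ 1 + 859 / 10 * v ^ 2 * q ^ 2 + 469 / 5 * u ^ 1 * v ^ 1 * q ^ 2
      + 379 / 10 * u ^ 2 * q ^ 2 + 10 * q ^ 3 :=
    fun u v hu hv => by positivity
  have h := key (x - (-17 / 20)) ((-7 / 20) - x) (by linarith) (by linarith)
  unfold Ap at hA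
  unfold Bp at hB
  have : (1 / 100 : ℝ) ≤ 0 := by linear_combination h + 0 * hA - hB
  norm_num at this

theorem box3 (x q : ℝ) (h1 : -7 / 20 ≤ x) (h2 : x ≤ 3 / 20) (hq : 0 ≤ q) (hA : Ap x q = 0)
    (hB : Bp x q = 0) : False := by
  have key : ∀ u v : ℝ, 0 ≤ u → 0 ≤ v → 0 ≤
      4846841 / 100000 * v ^ 6 + 15667313 / 50000 * u ^ 1 * v ^ 5
      + 16888803 / 20000 * u ^ 2 * v ^ 4 + 6169331 / 5000 * u ^ 3 * v ^ 3
      + 20137883 / 20000 * u ^ 4 * v ^ 2 + 19801473 / 50000 * u ^ 5 * v ^ 1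
      + 5343921 / 100000 * u ^ 6 + 24179 / 1000 * v ^ 4 * q ^ 1
      + 33929 / 250 * u ^ 1 * v ^ 3 * q ^ 1 + 132737 / 500 * u ^ 2 * v ^ 2 * q ^ 1
      + 46129 / 250 * u ^ 3 * v ^ 1 * q ^ 1 + 60579 / 1000 * u ^ 4 * q ^ 1
      + 379 / 10 * v ^ 2 * q ^ 2 + 289 / 5 * u ^ 1 * v ^ 1 * q ^ 2 + 499 / 10 * u ^ 2 * q ^ 2
      + 10 * q ^ 3 :=
    fun u v hu hv => by positivity
  have h := key (x - (-7 / 20)) ((3 / 20) - x) (by linarith) (by linarith)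
  unfold Ap at hA
  unfold Bp at hB
  have : (1 / 100 : ℝ) ≤ 0 := by linear_combination h + 0 * hA - hB
  norm_num at this

theorem box4 (x q : ℝ) (h1 : 3 / 20 ≤ x) (h2 : x ≤ 3 / 10) (hq : 0 ≤ q) (hA : Ap x q = 0)
    (hB : Bp x q = 0) : False := by
  have key : ∀ u v : ℝ, 0 ≤ u → 0 ≤ v → 0 ≤
      1979230 / 27 * v ^ 6 + 33113000 / 81 * u ^ 1 * v ^ 5 + 74783000 / 81 * u ^ 2 * v ^ 4
      + 28820800 / 27 * u ^ 3 * v ^ 3 + 52776800 / 81 * u ^ 4 * v ^ 2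
      + 15370880 / 81 * u ^ 5 * v ^ 1 + 483200 / 27 * u ^ 6 + 67310 / 9 * v ^ 4 * q ^ 1
      + 865520 / 27 * u ^ 1 * v ^ 3 * q ^ 1 + 156400 / 3 * u ^ 2 * v ^ 2 * q ^ 1
      + 114880 / 3 * u ^ 3 * v ^ 1 * q ^ 1 + 290720 / 27 * u ^ 4 * q ^ 1
      + 4990 / 9 * v ^ 2 * q ^ 2 + 11240 / 9 * u ^ 1 * v ^ 1 * q ^ 2 + 6520 / 9 * u ^ 2 * q ^ 2
      + 10 * q ^ 3 :=
    fun u v hu hv => by positivity
  have h := key (x - (3 / 20)) ((3 / 10) - x) (by linarith) (by linarith)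
  unfold Ap at hA
  unfold Bp at hB
  have : (1 / 100 : ℝ) ≤ 0 := by linear_combination h + 0 * hA - hB
  norm_num at this

theorem box5 (x q : ℝ) (h1 : 3 / 10 ≤ x) (h2 : x ≤ 7 / 10) (hq : 0 ≤ q) (hA : Ap x q = 0)
    (hB : Bp x q = 0) : False := by
  have key : ∀ u v : ℝ, 0 ≤ u → 0 ≤ v → 0 ≤
      10757420297 / 32768 * v ^ 10 + 44787194195 / 16384 * u ^ 1 * v ^ 9
      + 322021009425 / 32768 * u ^ 2 * v ^ 8 + 81904739365 / 4096 * u ^ 3 * v ^ 7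
      + 418600212265 / 16384 * u ^ 4 * v ^ 6 + 178886064929 / 8192 * u ^ 5 * v ^ 5
      + 218464726005 / 16384 * u ^ 6 * v ^ 4 + 25428561725 / 4096 * u ^ 7 * v ^ 3
      + 70642468805 / 32768 * u ^ 8 * v ^ 2 + 7605374435 / 16384 * u ^ 9 * v ^ 1
      + 1453419237 / 32768 * u ^ 10 + 290272395 / 2048 * v ^ 8 * q ^ 1
      + 546790225 / 512 * u ^ 1 * v ^ 7 * q ^ 1 + 889842705 / 256 * u ^ 2 * v ^ 6 * q ^ 1
      + 3212874785 / 512 * u ^ 3 * v ^ 5 * q ^ 1 + 6815820275 / 1024 * u ^ 4 * v ^ 4 * q ^ 1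
      + 2055681995 / 512 * u ^ 5 * v ^ 3 * q ^ 1 + 157365675 / 128 * u ^ 6 * v ^ 2 * q ^ 1
      + 96825315 / 512 * u ^ 7 * v ^ 1 * q ^ 1 + 92805335 / 2048 * u ^ 8 * q ^ 1
      + 14939275 / 128 * v ^ 6 * q ^ 2 + 46975755 / 64 * u ^ 1 * v ^ 5 * q ^ 2
      + 253192025 / 128 * u ^ 2 * v ^ 4 * q ^ 2 + 95210825 / 32 * u ^ 3 * v ^ 3 * q ^ 2
      + 346483725 / 128 * u ^ 4 * v ^ 2 * q ^ 2 + 92770675 / 64 * u ^ 5 * v ^ 1 * q ^ 2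
      + 46048815 / 128 * u ^ 6 * q ^ 2 + 290585 / 8 * v ^ 4 * q ^ 3
      + 169715 * u ^ 1 * v ^ 3 * q ^ 3 + 1283865 / 4 * u ^ 2 * v ^ 2 * q ^ 3
      + 290880 * u ^ 3 * v ^ 1 * q ^ 3 + 846925 / 8 * u ^ 4 * q ^ 3 + 4880 * v ^ 2 * q ^ 4
      + 12960 * u ^ 1 * v ^ 1 * q ^ 4 + 9360 * u ^ 2 * q ^ 4 + 256 * q ^ 5 :=
    fun u v hu hv => by positivity
  have h := key (x - (3 / 10)) ((7 / 10) - x) (by linarith) (by linarith)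
  unfold Ap at hA
  unfold Bp at hB
  have : (1 / 10 : ℝ) ≤ 0 := by linear_combination h + hA - (58 - 70 * x) * hB
  norm_num at this

theorem box6 (x q : ℝ) (h1 : 7 / 10 ≤ x) (h2 : x ≤ 1) (hq : 0 ≤ q) (hA : Ap x q = 0)
    (hB : Bp x q = 0) : False := by
  have key : ∀ u v : ℝ, 0 ≤ u → 0 ≤ v → 0 ≤
      15503138528 / 19683 * v ^ 10 + 16624325920 / 2187 * u ^ 1 * v ^ 9
      + 214608911200 / 6561 * u ^ 2 * v ^ 8 + 524371540000 / 6561 * u ^ 3 * v ^ 7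
      + 786400240000 / 6561 * u ^ 4 * v ^ 6 + 776480000000 / 6561 * u ^ 5 * v ^ 5
      + 210892000000 / 2187 * u ^ 6 * v ^ 4 + 594260000000 / 6561 * u ^ 7 * v ^ 3
      + 521800000000 / 6561 * u ^ 8 * v ^ 2 + 830000000000 / 19683 * u ^ 9 * v ^ 1
      + 61000000000 / 6561 * u ^ 10 + 2969770720 / 6561 * v ^ 8 * q ^ 1
      + 32281559840 / 6561 * u ^ 1 * v ^ 7 * q ^ 1 + 186112583200 / 6561 * u ^ 2 * v ^ 6 * q ^ 1
      + 658369916000 / 6561 * u ^ 3 * v ^ 5 * q ^ 1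
      + 1454800720000 / 6561 * u ^ 4 * v ^ 4 * q ^ 1
      + 2005191200000 / 6561 * u ^ 5 * v ^ 3 * q ^ 1
      + 1675588000000 / 6561 * u ^ 6 * v ^ 2 * q ^ 1
      + 777620000000 / 6561 * u ^ 7 * v ^ 1 * q ^ 1 + 154000000000 / 6561 * u ^ 8 * q ^ 1
      + 163729120 / 81 * v ^ 6 * q ^ 2 + 3673136480 / 243 * u ^ 1 * v ^ 5 * q ^ 2
      + 11654927200 / 243 * u ^ 2 * v ^ 4 * q ^ 2 + 20030036000 / 243 * u ^ 3 * v ^ 3 * q ^ 2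
      + 19608080000 / 243 * u ^ 4 * v ^ 2 * q ^ 2 + 10338400000 / 243 * u ^ 5 * v ^ 1 * q ^ 2
      + 2288000000 / 243 * u ^ 6 * q ^ 2 + 27101600 / 81 * v ^ 4 * q ^ 3
      + 133862240 / 81 * u ^ 1 * v ^ 3 * q ^ 3 + 83668000 / 27 * u ^ 2 * v ^ 2 * q ^ 3
      + 211316000 / 81 * u ^ 3 * v ^ 1 * q ^ 3 + 67280000 / 81 * u ^ 4 * q ^ 3
      + 16640 * v ^ 2 * q ^ 4 + 40960 * u ^ 1 * v ^ 1 * q ^ 4 + 25600 * u ^ 2 * q ^ 4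
      + 256 * q ^ 5 :=
    fun u v hu hv => by positivity
  have h := key (x - (7 / 10)) ((1) - x) (by linarith) (by linarith)
  unfold Ap at hA
  unfold Bp at hB
  have : (1 / 10 : ℝ) ≤ 0 := by linear_combination h + hA - (58 - 70 * x) * hB
  norm_num at this

theorem box7 (x q : ℝ) (h1 : 1 ≤ x) (hq : 0 ≤ q) (hA : Ap x q = 0)
    (hB : Bp x q = 0) : False := by
  have key : ∀ u : ℝ, 0 ≤ u → 0 ≤
      54 + 1600 * u ^ 1 + 13584 * u ^ 2 + 48256 * u ^ 3 + 94912 * u ^ 4 + 116224 * u ^ 5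
      + 92864 * u ^ 6 + 48640 * u ^ 7 + 16128 * u ^ 8 + 3072 * u ^ 9 + 256 * u ^ 10
      + 2320 * q ^ 1 + 22144 * u ^ 1 * q ^ 1 + 77824 * u ^ 2 * q ^ 1 + 146432 * u ^ 3 * q ^ 1
      + 165952 * u ^ 4 * q ^ 1 + 117248 * u ^ 5 * q ^ 1 + 50688 * u ^ 6 * q ^ 1
      + 12288 * u ^ 7 * q ^ 1 + 1280 * u ^ 8 * q ^ 1 + 7488 * q ^ 2 + 38400 * u ^ 1 * q ^ 2
      + 79936 * u ^ 2 * q ^ 2 + 88576 * u ^ 3 * q ^ 2 + 55296 * u ^ 4 * q ^ 2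
      + 18432 * u ^ 5 * q ^ 2 + 2560 * u ^ 6 * q ^ 2 + 6848 * q ^ 3 + 19968 * u ^ 1 * q ^ 3
      + 23040 * u ^ 2 * q ^ 3 + 12288 * u ^ 3 * q ^ 3 + 2560 * u ^ 4 * q ^ 3 + 2304 * q ^ 4
      + 3072 * u ^ 1 * q ^ 4 + 1280 * u ^ 2 * q ^ 4 + 256 * q ^ 5 :=
    fun u hu => by positivity
  have h := key (x - (1)) (by linarith)
  unfold Ap at hA
  unfold Bp at hB
  have : (1 : ℝ) ≤ 0 := by linear_combination h + hA + 0 * hB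
  norm_num at this

theorem no_sol (x q : ℝ) (hq : 0 ≤ q) (hA : Ap x q = 0) (hB : Bp x q = 0) : False := by
  rcases le_total x (-21 / 20) with h0 | h0
  · exact box0 x q h0 hq hA hB
  rcases le_total x (-17 / 20) with h1 | h1
  · exact box1 x q h0 h1 hq hA hB
  rcases le_total x (-7 / 20) with h2 | h2
  · exact box2 x q h1 h2 hq hA hB
  rcases le_total x (3 / 20) with h3 | h3
  · exact box3 x q h2 h3 hq hA hB
  rcases le_total x (3 / 10) with h4 | h4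
  · exact box4 x q h3 h4 hq hA hB
  rcases le_total x (7 / 10) with h5 | h5
  · exact box5 x q h4 h5 hq hA hB
  rcases le_total x 1 with h6 | h6
  · exact box6 x q h5 h6 hq hA hB
  exact box7 x q h6 hq hA hB

end CertAux

end Pool.Agent.Lib.MP_b7c8b0_gt
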