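import Pool.Agent.Lib.MP_b7c8b0_gt.ADefs
import Pool.Agent.Lib.MP_b7c8b0_gt.CertAux

open scoped ContDiff ComplexConjugate Topology
open Complex Filter

noncomputable section

namespace Pool.Agent.Lib.MP_b7c8b0_gt

theorem cert (σ c : ℂ) (hc : ‖c‖ = 1) (hσ : σ ≠ 1)
    (h1 : (c * (σ - 1) ^ 2 * (σ + 1 / 2)).re + 2 * ‖σ ^ 2 - 1‖ ^ 2 * (‖σ‖ ^ 4 - 1 / 2) = 0)
    (h2 : 3 * c * (σ - 1) + 8 * ((conj σ ^ 2 - 1) * ((‖σ‖ ^ 4 - 1 / 2 : ℝ) : ℂ)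
      + ((‖σ ^ 2 - 1‖ ^ 2 : ℝ) : ℂ) * conj σ ^ 2) = 0) : False := by
  have e1 : ‖σ‖ ^ 4 = (σ.re ^ 2 + σ.im ^ 2) ^ 2 := by
    rw [show (4 : ℕ) = 2 * 2 from rfl, pow_mul, Complex.sq_norm, normSq_apply]
    ring
  have e2 : ‖σ ^ 2 - 1‖ ^ 2 = (σ.re ^ 2 - σ.im ^ 2 - 1) ^ 2 + (2 * σ.re * σ.im) ^ 2 := by
    rw [Complex.sq_norm, normSq_apply]
    simp only [sq, sub_re, mul_re, one_re, sub_im, mul_im, one_im]
    ring
  have e3 : c.re ^ 2 + c.im ^ 2 = 1 := by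
    have := Complex.sq_norm c
    rw [hc, normSq_apply] at this
    linear_combination -this
  have hD : (σ.re - 1) ^ 2 + σ.im ^ 2 ≠ 0 := by
    intro h
    refine hσ (Complex.ext ?_ ?_)
    · have : (σ.re - 1) ^ 2 = 0 := by nlinarith [sq_nonneg (σ.re - 1), sq_nonneg σ.im]
      rw [one_re]
      linear_combination pow_eq_zero_iff two_ne_zero |>.mp this
    · have : σ.im ^ 2 = 0 := by nlinarith [sq_nonneg (σ.re - 1), sq_nonneg σ.im]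
      rw [one_im]
      exact pow_eq_zero_iff two_ne_zero |>.mp this
  rw [e1, e2] at h1 h2
  generalize ha : (σ.re ^ 2 + σ.im ^ 2) ^ 2 - 1 / 2 = a at h1 h2
  generalize hb : (σ.re ^ 2 - σ.im ^ 2 - 1) ^ 2 + (2 * σ.re * σ.im) ^ 2 = b at h1 h2
  have hr := congrArg Complex.re h2
  have hi := congrArg Complex.im h2
  have half : (1 / 2 : ℂ) = ((1 / 2 : ℝ) : ℂ) := by push_cast; rfl
  rw [half] at h1
  simp only [sq, add_re, add_im, mul_re, mul_im, sub_re, sub_im, conj_re, conj_im, one_re, one_im,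
    ofReal_re, ofReal_im, re_ofNat, im_ofNat, zero_re, zero_im] at h1 hr hi
  subst ha hb
  generalize σ.re = x at *
  generalize σ.im = y at *
  generalize c.re = s at *
  generalize c.im = t at *
  refine CertAux.no_sol x (y ^ 2) (sq_nonneg y) (mul_left_cancel₀ hD ?_) (mul_left_cancel₀ hD ?_)
  · unfold CertAux.Ap
    linear_combination
      (8 * ((x ^ 2 - y ^ 2 - 1) * ((x ^ 2 + y ^ 2) ^ 2 - 1 / 2)
        + ((x ^ 2 - y ^ 2 - 1) ^ 2 + (2 * x * y) ^ 2) * (x ^ 2 - y ^ 2))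
        - 3 * (s * (x - 1) - t * y)) * hr
      + (8 * (-(2 * x * y) * ((x ^ 2 + y ^ 2) ^ 2 - 1 / 2)
        - ((x ^ 2 - y ^ 2 - 1) ^ 2 + (2 * x * y) ^ 2) * (2 * x * y))
        - 3 * (s * y + t * (x - 1))) * hi
      + 9 * ((x - 1) ^ 2 + y ^ 2) * e3
  · unfold CertAux.Bp
    linear_combination 3 * h1 - ((x - 1) * (x + 1 / 2) - y ^ 2) * hr
      + (y * (x + 1 / 2) + (x - 1) * y) * hi

end Pool.Agent.Lib.MP_b7c8b0_gt
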