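import Pool.Agent.Lib.MP_b7c8b0_gt.EDefs

open scoped ContDiff ComplexConjugate Topology
open Complex Filter

noncomputable section

namespace Pool.Agent.Lib.MP_b7c8b0_gt

/-- Injective immersions of the unit sphere are stable under small perturbations. -/
theorem pert {E G : Type*} [NormedAddCommGroup E] [InnerProductSpace ℝ E] [FiniteDimensional ℝ E]
    [NormedAddCommGroup G] [NormedSpace ℝ G] [FiniteDimensional ℝ G] (F : ℝ × E → G)
    (hF : ∀ x, ‖x‖ = 1 → ContDiffAt ℝ 1 F (0, x))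
    (inj : ∀ x x', ‖x‖ = 1 → ‖x'‖ = 1 → F (0, x) = F (0, x') → x = x')
    (imm : ∀ x v, ‖x‖ = 1 → inner ℝ x v = 0 → fderiv ℝ F (0, x) (0, v) = 0 → v = 0) :
    ∀ᶠ δ in 𝓝 (0 : ℝ), (∀ x x', ‖x‖ = 1 → ‖x'‖ = 1 → F (δ, x) = F (δ, x') → x = x') ∧
      ∀ x v, ‖x‖ = 1 → inner ℝ x v = 0 → fderiv ℝ F (δ, x) (0, v) = 0 → v = 0 := by
  let H : ℝ × E → ℝ × G × ℝ := fun p => (p.1, F p, inner ℝ p.2 p.2)
  have dH : ∀ z u, DifferentiableAt ℝ F z →
      fderiv ℝ H z u = (u.1, fderiv ℝ F z u, 2 * inner ℝ z.2 u.2) := fun z u h => by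
    rw [(hasFDerivAt_fst.prodMk (h.hasFDerivAt.prodMk
      ((hasFDerivAt_snd (p := z)).inner ℝ hasFDerivAt_snd))).fderiv]
    simp [real_inner_comm, two_mul]
  have sH : ∀ x, ‖x‖ = 1 → ContDiffAt ℝ 1 H (0, x) := fun x hx =>
    contDiffAt_fst.prodMk ((hF x hx).prodMk (contDiffAt_snd.inner ℝ contDiffAt_snd))
  have iH : ∀ x, ‖x‖ = 1 → Function.Injective (fderiv ℝ H (0, x)) := fun x hx => by
    refine (injective_iff_map_eq_zero _).2 fun ⟨d, v⟩ h => ?_
    rw [dH _ _ ((hF x hx).differentiableAt one_ne_zero)] at h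
    simp only [Prod.mk_eq_zero, mul_eq_zero, two_ne_zero, false_or] at h
    obtain ⟨rfl, h1, h2⟩ := h
    rw [imm x v hx h2 h1]
    rfl
  have hK := isCompact_sphere (0 : E) 1
  have e1 := (hK.prod hK).eventually_forall_of_forall_eventually (x₀ := (0 : ℝ))
    (P := fun δ y => ‖y.1‖ = 1 → ‖y.2‖ = 1 → F (δ, y.1) = F (δ, y.2) → y.1 = y.2) (by
      rintro ⟨x, x'⟩ ⟨hx, hx'⟩
      rw [mem_sphere_zero_iff_norm] at hx hx'
      have t1 : Tendsto (fun z : ℝ × E × E => (z.1, z.2.1)) (𝓝 (0, x, x')) (𝓝 (0, x)) :=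
        Continuous.tendsto' (by fun_prop) _ _ rfl
      have t2 : Tendsto (fun z : ℝ × E × E => (z.1, z.2.2)) (𝓝 (0, x, x')) (𝓝 (0, x')) :=
        Continuous.tendsto' (by fun_prop) _ _ rfl
      by_cases h : x = x'
      · subst h
        obtain ⟨K, K0, hK⟩ := LinearMap.exists_antilipschitzWith (fderiv ℝ H (0, x)).toLinearMap
          (LinearMap.ker_eq_bot.2 (iH x hx))
        have h1 := ((sH x hx).hasStrictFDerivAt one_ne_zero).isLittleO.def
          (c := 1 / (2 * K)) (by positivity)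
        filter_upwards [(t1.prodMk_nhds t2).eventually h1] with z hz h2 h3 h4
        have h5 : H (z.1, z.2.1) = H (z.1, z.2.2) := by
          simp only [H, h4, real_inner_self_eq_norm_sq, h2, h3]
        have h6 := hK.le_mul_dist (z.1, z.2.1) (z.1, z.2.2)
        rw [h5, sub_self, zero_sub, norm_neg, map_sub] at hz
        rw [dist_eq_norm, dist_eq_norm] at h6
        have h7 := h6.trans (mul_le_mul_of_nonneg_left hz K.coe_nonneg)
        rw [← mul_assoc, show (K : ℝ) * (1 / (2 * K)) = 1 / 2 by field_simp] at h7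
        have h8 : ‖(z.1, z.2.1) - (z.1, z.2.2)‖ ≤ 0 := by linarith
        exact congrArg Prod.snd (sub_eq_zero.1 (norm_le_zero_iff.1 h8))
      · have h1 := (((hF x hx).continuousAt.tendsto.comp t1).sub
          ((hF x' hx').continuousAt.tendsto.comp t2)).eventually_ne
          (sub_ne_zero.2 fun e => h (inj x x' hx hx' e))
        filter_upwards [h1] with z hz _ _ h2 using absurd (sub_eq_zero.2 h2) hz)
  have e2 := hK.eventually_forall_of_forall_eventually (x₀ := (0 : ℝ))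
    (P := fun δ x => ∀ v, inner ℝ x v = 0 → fderiv ℝ F (δ, x) (0, v) = 0 → v = 0) (by
      intro x hx
      rw [mem_sphere_zero_iff_norm] at hx
      filter_upwards [((sH x hx).continuousAt_fderiv one_ne_zero).eventually
        (ContinuousLinearMap.isOpen_injective.mem_nhds (iH x hx)), (hF x hx).eventually (by simp)]
        with z h1 h2 v h3 h4
      refine congrArg Prod.snd ((injective_iff_map_eq_zero _).1 h1 (0, v) ?_)
      rw [dH _ _ (h2.differentiableAt one_ne_zero), h4, h3, mul_zero]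
      rfl)
  filter_upwards [e1, e2] with δ h1 h2
  exact ⟨fun x x' hx hx' => h1 (x, x') ⟨mem_sphere_zero_iff_norm.2 hx, mem_sphere_zero_iff_norm.2 hx'⟩
    hx hx', fun x v hx => h2 x (mem_sphere_zero_iff_norm.2 hx) v⟩

/-- Differentiating the condition that `alpha` has a fixed phase: the kernel of `alpha` is
isotropic for the imaginary part of `c⁻¹ ∑ dx_j ∧ dy_j`. -/
theorem isotropic {n : ℕ} {E : Type*} [NormedAddCommGroup E] [NormedSpace ℝ E]
    (F : E → Amb n) (c : E → ℂ) (x : E) (hF : ContDiffAt ℝ 2 F x) (hc : ContDiffAt ℝ 1 c x)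
    (h : ∀ᶠ y in 𝓝 x, ∀ v, (c y * alpha (F y) (fderiv ℝ F y v)).im = 0)
    (v w : E) (hv : alpha (F x) (fderiv ℝ F x v) = 0) (hw : alpha (F x) (fderiv ℝ F x w) = 0) :
    (c x * ∑ j, ((fderiv ℝ F x v).1 j * (fderiv ℝ F x w).2.1 j
      - (fderiv ℝ F x w).1 j * (fderiv ℝ F x v).2.1 j)).im = 0 := by
  have hA := (hF.differentiableAt two_ne_zero).hasFDerivAt
  have hB := ((hF.fderiv_right (m := 1) le_rfl).differentiableAt one_ne_zero).hasFDerivAt
  have hC := (hc.differentiableAt one_ne_zero).hasFDerivAt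
  have hs := hF.isSymmSndFDerivAt (by simp) v w
  have key : ∀ v w, alpha (F x) (fderiv ℝ F x v) = 0 →
      (c x * ((fderiv ℝ (fderiv ℝ F) x w v).2.2 - ∑ j, ((F x).2.1 j * (fderiv ℝ (fderiv ℝ F) x w v).1 j +
        (fderiv ℝ F x v).1 j * (fderiv ℝ F x w).2.1 j))).im = 0 := fun v w hv => by
    have h1 := hB.clm_apply (hasFDerivAt_const v x)
    have h2 := imCLM.hasFDerivAt.comp x (hC.mul (h1.snd.snd.sub (HasFDerivAt.fun_sum
      (u := Finset.univ) fun j _ => (hasFDerivAt_pi'.1 hA.snd.fst j).mul (hasFDerivAt_pi'.1 h1.fst j))))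
    have h3 := DFunLike.congr_fun (h2.unique ((hasFDerivAt_const (0 : ℝ) x).congr_of_eventuallyEq
      (h.mono fun y hy => hy v))) w
    have h4 : (fderiv ℝ F x v).2.2 - ∑ j, (F x).2.1 j * (fderiv ℝ F x v).1 j = 0 := hv
    simpa [h4, -mul_im] using h3
  have h1 := congrArg₂ (· - ·) (key w v hw) (key v w hv)
  simp only [← sub_im, ← mul_sub, sub_self, hs] at h1
  rw [← h1]
  congr 2
  simp only [Finset.sum_add_distrib, Finset.sum_sub_distrib]
  ring

/-- An immersion on which `alpha` has a fixed phase has `alpha ≠ 0` on each tangent space. -/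
theorem rank_one {n : ℕ} (F : Euc n → Amb n) (c : Euc n → ℂ) (x : Euc n) (hx : ‖x‖ = 1)
    (hF : ContDiffAt ℝ 2 F x) (hc : ContDiffAt ℝ 1 c x) (hc0 : c x ≠ 0)
    (h : ∀ᶠ y in 𝓝 x, ∀ v, (c y * alpha (F y) (fderiv ℝ F y v)).im = 0)
    (imm : ∀ v, inner ℝ x v = 0 → fderiv ℝ F x v = 0 → v = 0) :
    ∃ v, inner ℝ x v = 0 ∧ alpha (F x) (fderiv ℝ F x v) ≠ 0 := by
  by_contra h0
  push Not at h0
  let B : LinearMap.BilinForm ℝ ((Fin n → ℂ) × (Fin n → ℂ)) := LinearMap.mk₂ ℝ
    (fun u u' => (c x * ∑ j, (u.1 j * u'.2 j - u'.1 j * u.2 j)).im)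
    (fun u u' u'' => by
      rw [← add_im, ← mul_add, ← Finset.sum_add_distrib]
      congr 3
      funext j
      simp only [Prod.fst_add, Prod.snd_add, Pi.add_apply]
      ring)
    (fun r u u' => by
      rw [← smul_im, ← mul_smul_comm, Finset.smul_sum]
      simp only [Prod.smul_fst, Prod.smul_snd, Pi.smul_apply, smul_sub, mul_smul_comm, smul_mul_assoc])
    (fun u u' u'' => by
      rw [← add_im, ← mul_add, ← Finset.sum_add_distrib]
      congr 3
      funext j
      simp only [Prod.fst_add, Prod.snd_add, Pi.add_apply]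
      ring)
    (fun r u u' => by
      rw [← smul_im, ← mul_smul_comm, Finset.smul_sum]
      simp only [Prod.smul_fst, Prod.smul_snd, Pi.smul_apply, smul_sub, mul_smul_comm, smul_mul_assoc])
  have k : ∀ a : ℂ, (∀ b, (c x * (a * b)).im = 0) → a = 0 := fun a ha => by
    have h1 := ha 1
    have h2 := ha I
    rw [← mul_assoc] at h1 h2
    refine (mul_eq_zero.1 (Complex.ext ?_ ?_)).resolve_left hc0
    · simpa [-mul_re] using h2
    · simpa [-mul_im] using h1
  have hB : B.ker = ⊥ := LinearMap.ker_eq_bot'.2 fun u hu => by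
    refine Prod.ext (funext fun j => k _ fun b => ?_) (funext fun j => k _ fun b => ?_)
    · simpa [B, Pi.single_apply, -mul_im] using DFunLike.congr_fun hu (0, Pi.single j b)
    · simpa [B, Pi.single_apply, mul_comm b, -mul_im] using DFunLike.congr_fun hu (Pi.single j b, 0)
  let T : (ℝ ∙ x)ᗮ →ₗ[ℝ] (Fin n → ℂ) × (Fin n → ℂ) :=
    ((LinearMap.fst ℝ _ _).prod ((LinearMap.fst ℝ _ _).comp (LinearMap.snd ℝ _ _))).comp
      ((fderiv ℝ F x).toLinearMap.comp (Submodule.subtype _))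
  have m : ∀ v : (ℝ ∙ x)ᗮ, inner ℝ x v.1 = 0 := fun v =>
    Submodule.mem_orthogonal_singleton_iff_inner_right.1 v.2
  have hT : Function.Injective T := (injective_iff_map_eq_zero _).2 fun v hv => by
    have h1 : (fderiv ℝ F x v).1 = 0 := congrArg Prod.fst hv
    have h2 : (fderiv ℝ F x v).2.2 - ∑ j, (F x).2.1 j * (fderiv ℝ F x v).1 j = 0 := h0 v (m v)
    exact Subtype.ext (imm v (m v) (Prod.ext h1 (Prod.ext (congrArg Prod.snd hv)
      (by simpa [h1] using h2))))
  have h1 : LinearMap.range T ≤ B.orthogonal (LinearMap.range T) := by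
    rintro _ ⟨w, rfl⟩ _ ⟨v, rfl⟩
    exact isotropic F c x hF hc h v w (h0 v (m v)) (h0 w (m w))
  have h2 := Submodule.finrank_mono h1
  have h3 := B.finrank_add_finrank_orthogonal' (LinearMap.range T)
  have : Fact (Module.finrank ℝ (Euc n) = 2 * n + 1 + 1) := ⟨finrank_euclideanSpace_fin⟩
  rw [hB, inf_bot_eq, finrank_bot] at h3
  rw [LinearMap.finrank_range_of_inj hT, Submodule.finrank_orthogonal_span_singleton (n := 2 * n + 1)
    (by rintro rfl; simp at hx)] at h2 h3
  simp [Module.finrank_pi_fintype] at h3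
  omega

end Pool.Agent.Lib.MP_b7c8b0_gt
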