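import Pool.Agent.Lib.MP_b7c8b0_gt.HDefs
import Pool.Agent.Lib.MP_b7c8b0_gt.Pert

open scoped ContDiff Topology ComplexConjugate
open Filter MeasureTheory Matrix

noncomputable section

namespace Pool.Agent.Lib.MP_b7c8b0_gt

/-- The projection of a basis vector to the tangent space of the sphere. -/
def phE {n : ℕ} (x : Euc n) (i : Fin (2 * n + 1 + 1)) : Euc n :=
  EuclideanSpace.single i (1 : ℝ) - x i • x

/-- The square of the phase, up to a positive factor. -/
def phQ {n : ℕ} (F : Euc n → Amb n) (x : Euc n) : ℂ :=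
  ∑ i, alpha (F x) (fderiv ℝ F x (phE x i)) ^ 2

theorem phase_inner_phE {n : ℕ} {x : Euc n} (hx : ‖x‖ = 1) (i : Fin (2 * n + 1 + 1)) :
    inner ℝ x (phE x i) = 0 := by
  rw [phE, inner_sub_right, inner_smul_right, real_inner_self_eq_norm_sq, hx,
    EuclideanSpace.inner_single_right]
  simp

theorem phase_sum_phE {n : ℕ} {x v : Euc n} (hv : inner ℝ x v = 0) :
    ∑ i, v i • phE x i = v := by
  have h1 : ∑ i, v i • EuclideanSpace.single i (1 : ℝ) = v := by
    ext j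
    simp [Pi.single_apply]
  have h2 : ∑ i, v i * x i = 0 := by
    rw [← hv, PiLp.inner_apply]
    simp
  simp only [phE, smul_sub, Finset.sum_sub_distrib, h1, smul_smul, ← Finset.sum_smul, h2,
    zero_smul, sub_zero]

theorem phase_struct {n : ℕ} {F : Euc n → Amb n} (hF : EPre n F) {x : Euc n} (hx : ‖x‖ = 1) :
    ∃ (c : ℂ) (R : ℝ), c ≠ 0 ∧ 0 < R ∧ phQ F x = R * c ^ 2 ∧
      ∀ v, inner ℝ x v = 0 → ∃ r : ℝ, alpha (F x) (fderiv ℝ F x v) = r * c := by
  obtain ⟨c, hc, h1, v, hv, hv0⟩ := hF.rank x hx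
  choose r hr using fun i => h1 _ (phase_inner_phE hx i)
  refine ⟨c, ∑ i, r i ^ 2, hc, ?_, ?_, h1⟩
  · refine lt_of_le_of_ne (Finset.sum_nonneg fun i _ => sq_nonneg _) fun h0 => hv0 ?_
    have h2 := (Finset.sum_eq_zero_iff_of_nonneg fun i _ => sq_nonneg (r i)).1 h0.symm
    rw [← phase_sum_phE hv, map_sum, map_sum]
    refine Finset.sum_eq_zero fun i hi => ?_
    rw [map_smul, map_smul, hr, pow_eq_zero_iff two_ne_zero |>.1 (h2 i hi)]
    simp
  · simp only [phQ, hr, mul_pow]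
    push_cast
    rw [Finset.sum_mul]

theorem phase_phQ_ne {n : ℕ} {F : Euc n → Amb n} (hF : EPre n F) {x : Euc n} (hx : ‖x‖ = 1) :
    phQ F x ≠ 0 := by
  obtain ⟨c, R, hc, hR, h, -⟩ := phase_struct hF hx
  rw [h]
  exact mul_ne_zero (by exact_mod_cast hR.ne') (pow_ne_zero _ hc)

theorem phase_im_of_sq {z : ℂ} {ρ : ℝ} (hρ : 0 < ρ) (h : z ^ 2 = ρ) : z.im = 0 := by
  have h1 := congrArg Complex.re h
  have h2 := congrArg Complex.im h
  simp only [pow_two, Complex.mul_re, Complex.mul_im, Complex.ofReal_re, Complex.ofReal_im] at h1 h2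
  by_contra h0
  have h3 : z.re * z.im = 0 := by linarith
  rcases mul_eq_zero.1 h3 with h4 | h4
  · rw [h4] at h1
    nlinarith [mul_self_nonneg z.im]
  · exact h0 h4

theorem phase_key {n : ℕ} {F : Euc n → Amb n} (hF : EPre n F) {x : Euc n} (hx : ‖x‖ = 1)
    {u : ℂ} {ρ : ℝ} (hρ : 0 < ρ) (h : u ^ 2 * phQ F x = ρ) {v : Euc n} (hv : inner ℝ x v = 0) :
    (u * alpha (F x) (fderiv ℝ F x v)).im = 0 := by
  obtain ⟨c, R, -, hR, h1, h2⟩ := phase_struct hF hx
  obtain ⟨r, hr⟩ := h2 v hv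
  have hRc : (R : ℂ) ≠ 0 := by exact_mod_cast hR.ne'
  have h3 : (u * c) ^ 2 = ((ρ / R : ℝ) : ℂ) := by
    push_cast
    rw [← h, h1]
    field_simp
  have h4 := phase_im_of_sq (div_pos hρ hR) h3
  rw [hr, mul_left_comm, Complex.im_ofReal_mul, h4, mul_zero]

theorem phase_conv {n : ℕ} {F : Euc n → Amb n} (hF : EPre n F) {x : Euc n} (hx : ‖x‖ = 1)
    {c : ℂ} (hc : c ≠ 0)
    (h : ∀ v, inner ℝ x v = 0 → (c * alpha (F x) (fderiv ℝ F x v)).im = 0) :
    ∃ ρ : ℝ, 0 < ρ ∧ c ^ 2 * phQ F x = ρ := by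
  have h1 : c ^ 2 * phQ F x =
      ((∑ i, (c * alpha (F x) (fderiv ℝ F x (phE x i))).re ^ 2 : ℝ) : ℂ) := by
    rw [phQ, Finset.mul_sum]
    push_cast
    refine Finset.sum_congr rfl fun i _ => ?_
    rw [← mul_pow]
    congr 1
    exact Complex.ext rfl (h _ (phase_inner_phE hx i))
  refine ⟨_, lt_of_le_of_ne (Finset.sum_nonneg fun i _ => sq_nonneg _) fun h0 => ?_, h1⟩
  rw [← h0] at h1
  exact mul_ne_zero (pow_ne_zero 2 hc) (phase_phQ_ne hF hx) (h1.trans Complex.ofReal_zero)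

theorem phase_two_le : (2 : WithTop ℕ∞) ≤ ∞ :=
  WithTop.coe_le_coe.2 (le_top : (2 : ℕ∞) ≤ ⊤)

theorem phase_smooth {n : ℕ} {F : Euc n → Amb n} (hF : EPre n F) {x : Euc n} (hx : x ≠ 0) :
    ContDiffAt ℝ 1 (phQ F) x := by
  have h0 : ContDiffAt ℝ 1 F x := (hF.smooth x hx).of_le (by exact_mod_cast le_top)
  have h1 : ContDiffAt ℝ 1 (fderiv ℝ F) x :=
    ((hF.smooth x hx).of_le phase_two_le).fderiv_right (m := 1) le_rfl
  refine ContDiffAt.sum fun i _ => ContDiffAt.pow ?_ 2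
  have h2 : ContDiffAt ℝ 1 (fun y : Euc n => phE y i) x := by
    unfold phE
    fun_prop
  have h3 := h1.clm_apply h2
  exact h3.snd.snd.sub (ContDiffAt.sum fun j _ =>
    (contDiffAt_pi.1 h0.snd.fst j).mul (contDiffAt_pi.1 h3.fst j))

theorem phase_out_zero {k : ℕ} (hk : 2 ≤ k) : Out (0 : YY k) :=
  ⟨⟨0, by omega⟩, Or.inl (by norm_num)⟩

theorem phase_out_preconn {k : ℕ} (hk : 2 ≤ k) : IsPreconnected {y : YY k | Out y} := by
  have c1 : ∀ i : Fin k, IsPreconnected {y : YY k | y i ≤ 1 / 4} := fun i =>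
    (convex_halfSpace_le (LinearMap.proj (R := ℝ) (φ := fun _ : Fin k => ℝ) i).isLinear
      (1 / 4)).isPreconnected
  have c2 : ∀ i : Fin k, IsPreconnected {y : YY k | 3 / 4 ≤ y i} := fun i =>
    (convex_halfSpace_ge (LinearMap.proj (R := ℝ) (φ := fun _ : Fin k => ℝ) i).isLinear
      (3 / 4)).isPreconnected
  refine isPreconnected_of_forall 0 ?_
  rintro y ⟨i, hi | hi⟩
  · exact ⟨{y : YY k | y i ≤ 1 / 4}, fun z hz => ⟨i, Or.inl hz⟩, by norm_num, hi, c1 i⟩
  · have : Nontrivial (Fin k) := Fin.nontrivial_iff_two_le.2 hk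
    obtain ⟨j, hj⟩ := exists_ne i
    refine ⟨{y : YY k | y j ≤ 1 / 4} ∪ {y : YY k | 3 / 4 ≤ y i}, ?_, Or.inl (by norm_num),
      Or.inr hi, IsPreconnected.union (Pi.single i 1) ?_ ?_ (c1 j) (c2 i)⟩
    · rintro z (hz | hz)
      · exact ⟨j, Or.inl hz⟩
      · exact ⟨i, Or.inr hz⟩
    · simp [Pi.single_eq_of_ne hj]
    · simp only [Set.mem_ofPred_eq, Pi.single_eq_same]
      norm_num

/-- A continuous phase along a map from the cube to the sphere. -/
theorem exists_phase {n k : ℕ} (hk : 2 ≤ k) {F : Euc n → Amb n} (hF : EPre n F)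
    {κ : YY k → Euc n} (hc : Continuous κ) (h1 : ∀ y, ‖κ y‖ = 1)
    (ho : ∀ y, Out y → κ y = κ 0) :
    ∃ θ : YY k → ℝ, Continuous θ ∧ (∀ y, Out y → θ y = θ 0) ∧
      ∀ y v, inner ℝ (κ y) v = 0 → (Complex.exp (θ y * Complex.I) *
        alpha (F (κ y)) (fderiv ℝ F (κ y) v)).im = 0 := by
  have hq : Continuous fun y => phQ F (κ y) := by
    refine continuous_iff_continuousAt.2 fun y => ?_
    refine ContinuousAt.comp (f := κ) (phase_smooth hF ?_).continuousAt hc.continuousAt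
    rw [← norm_ne_zero_iff, h1]
    exact one_ne_zero
  let f : C(YY k, {z : ℂ // z ≠ 0}) :=
    ⟨fun y => ⟨phQ F (κ y), phase_phQ_ne hF (h1 y)⟩, hq.subtype_mk _⟩
  obtain ⟨L, ⟨-, hL⟩, -⟩ := Complex.isCoveringMap_exp.existsUnique_continuousMap_lifts f 0
    (Complex.log (phQ F (κ 0))) (Subtype.ext (Complex.exp_log (phase_phQ_ne hF (h1 0))))
  have hL' : ∀ y, Complex.exp (L y) = phQ F (κ y) := fun y =>
    congrArg Subtype.val (congrFun hL y)
  refine ⟨fun y => -(L y).im / 2, by fun_prop, fun y hy => ?_, fun y v hv => ?_⟩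
  · have := Complex.isCoveringMap_exp.constOn_of_comp (phase_out_preconn hk)
      L.continuous.continuousOn (fun a ha a' ha' => Subtype.ext (by
        show Complex.exp (L a) = Complex.exp (L a')
        rw [hL', hL', ho a ha, ho a' ha'])) hy (phase_out_zero hk)
    simp only [this]
  · refine phase_key hF (h1 y) (Real.exp_pos (L y).re) ?_ hv
    rw [← hL', ← Complex.exp_nat_mul, ← Complex.exp_add, Complex.ofReal_exp]
    congr 1
    apply Complex.ext <;> simp
    ring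

theorem phase_normalise {n : ℕ} {y : Euc n} (hy : y ≠ 0) (v : Euc n) :
    inner ℝ (‖y‖⁻¹ • y) (fderiv ℝ (fun x : Euc n => ‖x‖⁻¹ • x) y v) = 0 ∧
      ∃ t : ℝ, fderiv ℝ (fun x : Euc n => ‖x‖⁻¹ • x) y v = ‖y‖⁻¹ • v + t • y := by
  have h1 : DifferentiableAt ℝ (fun x : Euc n => ‖x‖⁻¹) y :=
    ((differentiableAt_id.norm ℝ hy).inv (norm_ne_zero_iff.2 hy))
  have h2 := h1.hasFDerivAt.smul (hasFDerivAt_id y)
  have h3 : HasFDerivAt (fun x : Euc n => ‖x‖⁻¹ • x) _ y := h2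
  constructor
  · have h4 := h3.differentiableAt.hasFDerivAt
    have h5 := h4.inner ℝ h4
    have h6 : (fun x : Euc n => inner ℝ (‖x‖⁻¹ • x) (‖x‖⁻¹ • x)) =ᶠ[𝓝 y] fun _ => (1 : ℝ) := by
      filter_upwards [isOpen_ne.mem_nhds hy] with x hx
      rw [real_inner_self_eq_norm_sq, norm_smul, norm_inv, norm_norm,
        inv_mul_cancel₀ (norm_ne_zero_iff.2 hx), one_pow]
    have h7 := DFunLike.congr_fun (h5.unique ((hasFDerivAt_const (1 : ℝ) y).congr_of_eventuallyEq
      h6)) v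
    simp only [ContinuousLinearMap.comp_apply, ContinuousLinearMap.prod_apply, fderivInnerCLM_apply,
      _root_.zero_apply] at h7
    rw [real_inner_comm (‖y‖⁻¹ • y)] at h7
    linarith
  · rw [h3.fderiv]
    exact ⟨_, rfl⟩

theorem phase_iso {n : ℕ} {F : Euc n → Amb n} (hF : EPre n F) {b : Euc n} (hb : ‖b‖ = 1)
    {c : ℂ} (hc : c ≠ 0)
    (h : ∀ v, inner ℝ b v = 0 → (c * alpha (F b) (fderiv ℝ F b v)).im = 0)
    {v v' : Euc n} (hv : inner ℝ b v = 0) (hv' : inner ℝ b v' = 0)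
    (a1 : alpha (F b) (fderiv ℝ F b v) = 0) (a2 : alpha (F b) (fderiv ℝ F b v') = 0) :
    (c * ∑ j, ((fderiv ℝ F b v).1 j * (fderiv ℝ F b v').2.1 j
      - (fderiv ℝ F b v').1 j * (fderiv ℝ F b v).2.1 j)).im = 0 := by
  obtain ⟨ρ, hρ, hρ'⟩ := phase_conv hF hb hc h
  have hb0 : b ≠ 0 := by
    rw [← norm_ne_zero_iff, hb]
    exact one_ne_zero
  set N : Euc n → Euc n := fun x => ‖x‖⁻¹ • x with hN
  have hNb : N b = b := by simp [hN, hb]
  have hN1 : ∀ y, y ≠ 0 → ‖N y‖ = 1 := fun y hy => by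
    rw [hN, norm_smul, norm_inv, norm_norm, inv_mul_cancel₀ (norm_ne_zero_iff.2 hy)]
  have hN0 : ∀ y, y ≠ 0 → N y ≠ 0 := fun y hy => by
    rw [← norm_ne_zero_iff, hN1 y hy]
    exact one_ne_zero
  have hNs : ∀ y, y ≠ 0 → ContDiffAt ℝ 2 N y := fun y hy =>
    ((contDiffAt_norm ℝ hy).inv (norm_ne_zero_iff.2 hy)).smul contDiffAt_id
  have hFs : ∀ y, y ≠ 0 → ContDiffAt ℝ 2 F y := fun y hy =>
    (hF.smooth y hy).of_le phase_two_le
  have hD : ∀ y, y ≠ 0 → ∀ w, fderiv ℝ (F ∘ N) y w = fderiv ℝ F (N y) (fderiv ℝ N y w) :=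
    fun y hy w => by
      rw [fderiv_comp y ((hFs _ (hN0 y hy)).differentiableAt two_ne_zero)
        ((hNs y hy).differentiableAt two_ne_zero)]
      rfl
  have hDb : ∀ w, inner ℝ b w = 0 → fderiv ℝ (F ∘ N) b w = fderiv ℝ F b w := fun w hw => by
    obtain ⟨h1, t, h2⟩ := phase_normalise hb0 w
    rw [h2, hb, inv_one, one_smul, one_smul, inner_add_right, inner_smul_right, hw,
      real_inner_self_eq_norm_sq, hb] at h1
    have h3 : t = 0 := by linarith
    rw [hD b hb0, hNb, hN, h2, h3, hb]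
    simp
  have hq := phase_phQ_ne hF hb
  have hQ : ContDiffAt ℝ 1 (fun x => phQ F (N x) / phQ F b) b :=
    ((phase_smooth hF (hN0 b hb0)).comp b ((hNs b hb0).of_le one_le_two)).div_const _
  have hlog : ContDiffAt ℝ 1 (fun x => Complex.log (phQ F (N x) / phQ F b)) b := by
    refine ContDiffAt.comp b (g := Complex.log) ?_ hQ
    rw [hNb, div_self hq]
    exact (Complex.contDiffAt_log Complex.one_mem_slitPlane).restrict_scalars ℝ
  have hC : ContDiffAt ℝ 1
      (fun x => c * Complex.exp (-Complex.log (phQ F (N x) / phQ F b) / 2)) b :=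
    contDiffAt_const.mul (hlog.neg.div_const 2).cexp
  have key := isotropic (F ∘ N) _ b ((hFs _ (hN0 b hb0)).comp b (hNs b hb0)) hC (by
      filter_upwards [isOpen_ne.mem_nhds hb0] with y hy w
      rw [hD y hy]
      refine phase_key hF (hN1 y hy) hρ ?_ (phase_normalise hy w).1
      have hq' := phase_phQ_ne hF (hN1 y hy)
      rw [mul_pow, ← Complex.exp_nat_mul, ← hρ']
      have e1 : ((2 : ℕ) : ℂ) * (-Complex.log (phQ F (N y) / phQ F b) / 2) =
          -Complex.log (phQ F (N y) / phQ F b) := by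
        push_cast
        ring
      rw [e1, Complex.exp_neg, Complex.exp_log (div_ne_zero hq' hq)]
      field_simp) v v'
    (by rw [hDb v hv, Function.comp_apply, hNb]; exact a1)
    (by rw [hDb v' hv', Function.comp_apply, hNb]; exact a2)
  rw [hDb v hv, hDb v' hv', hNb, div_self hq, Complex.log_one] at key
  simpa [-Complex.mul_im] using key

theorem phase_zero {n : ℕ} {c : ℂ} (hc : c ≠ 0) {p w : Amb n} (h1 : ∀ j, c * w.1 j = 0)
    (h2 : ∀ j, w.2.1 j = 0) (h3 : alpha p w = 0) : w = 0 := by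
  have h4 : w.1 = 0 := funext fun j => (mul_eq_zero.1 (h1 j)).resolve_left hc
  have h5 : w.2.2 - ∑ j, p.2.1 j * w.1 j = 0 := h3
  exact Prod.ext h4 (Prod.ext (funext h2) (by simpa [h4] using h5))

/-- The tangent spaces are totally real for the twisted complex structure. -/
theorem totally_real {n : ℕ} {F : Euc n → Amb n} (hF : EPre n F) {b : Euc n} (hb : ‖b‖ = 1)
    {c : ℂ} (hc : c ≠ 0)
    (h : ∀ v, inner ℝ b v = 0 → (c * alpha (F b) (fderiv ℝ F b v)).im = 0)
    {v v' : Euc n} (hv : inner ℝ b v = 0) (hv' : inner ℝ b v' = 0)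
    (h0 : AA c (F b).2.1 (fderiv ℝ F b v) + Complex.I • AA c (F b).2.1 (fderiv ℝ F b v') = 0) :
    v = 0 ∧ v' = 0 := by
  have i1 := h v hv
  have i2 := h v' hv'
  have l0 : c * alpha (F b) (fderiv ℝ F b v) +
      Complex.I * (c * alpha (F b) (fderiv ℝ F b v')) = 0 := congrFun h0 (Sum.inr ())
  have a1 : alpha (F b) (fderiv ℝ F b v) = 0 := by
    refine (mul_eq_zero.1 (Complex.ext ?_ i1)).resolve_left hc
    have := congrArg Complex.re l0
    rw [Complex.add_re, Complex.I_mul_re, i2] at this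
    simpa [-Complex.mul_re] using this
  have a2 : alpha (F b) (fderiv ℝ F b v') = 0 := by
    rw [a1, mul_zero, zero_add] at l0
    exact (mul_eq_zero.1 ((mul_eq_zero.1 l0).resolve_left Complex.I_ne_zero)).resolve_left hc
  have key := phase_iso hF hb hc h hv hv' a1 a2
  set w := fderiv ℝ F b v with hw
  set w' := fderiv ℝ F b v' with hw'
  have l1 : ∀ j, (c * w.1 j).re = (w'.2.1 j).im ∧ (w.2.1 j).im = -(c * w'.1 j).re := fun j => by
    have e : ((c * w.1 j).re : ℂ) + Complex.I * ((w.2.1 j).im : ℂ) +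
        Complex.I * (((c * w'.1 j).re : ℂ) + Complex.I * ((w'.2.1 j).im : ℂ)) = 0 :=
      congrFun h0 (Sum.inl (Sum.inl j))
    have e1 := congrArg Complex.re e
    have e2 := congrArg Complex.im e
    generalize (c * w.1 j).re = s at e1 e2 ⊢
    generalize (c * w'.1 j).re = t at e1 e2 ⊢
    simp at e1 e2
    constructor <;> linarith
  have l2 : ∀ j, (c * w.1 j).im = (w'.2.1 j).re ∧ (w.2.1 j).re = -(c * w'.1 j).im := fun j => by
    have e : ((c * w.1 j).im : ℂ) + Complex.I * ((w.2.1 j).re : ℂ) +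
        Complex.I * (((c * w'.1 j).im : ℂ) + Complex.I * ((w'.2.1 j).re : ℂ)) = 0 :=
      congrFun h0 (Sum.inl (Sum.inr j))
    have e1 := congrArg Complex.re e
    have e2 := congrArg Complex.im e
    generalize (c * w.1 j).im = s at e1 e2 ⊢
    generalize (c * w'.1 j).im = t at e1 e2 ⊢
    simp at e1 e2
    constructor <;> linarith
  have k2 : ∑ j, ((w'.2.1 j).im ^ 2 + (w'.2.1 j).re ^ 2 +
      (c * w'.1 j).re ^ 2 + (c * w'.1 j).im ^ 2) = 0 := by
    rw [← key, Finset.mul_sum, Complex.im_sum]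
    refine Finset.sum_congr rfl fun j _ => ?_
    rw [mul_sub, ← mul_assoc, ← mul_assoc, Complex.sub_im, Complex.mul_im (c * w.1 j),
      Complex.mul_im (c * w'.1 j), (l1 j).1, (l1 j).2, (l2 j).1, (l2 j).2]
    ring
  have k3 := (Finset.sum_eq_zero_iff_of_nonneg fun j _ => by positivity).1 k2
  have k4 : ∀ j, (w'.2.1 j).im = 0 ∧ (w'.2.1 j).re = 0 ∧ (c * w'.1 j).re = 0 ∧
      (c * w'.1 j).im = 0 := fun j => by
    have := k3 j (Finset.mem_univ j)
    refine ⟨?_, ?_, ?_, ?_⟩ <;> nlinarith [sq_nonneg (w'.2.1 j).im, sq_nonneg (w'.2.1 j).re,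
      sq_nonneg (c * w'.1 j).re, sq_nonneg (c * w'.1 j).im]
  refine ⟨hF.imm b v hb hv (phase_zero hc (fun j => Complex.ext ?_ ?_)
      (fun j => Complex.ext ?_ ?_) a1),
    hF.imm b v' hb hv' (phase_zero hc (fun j => Complex.ext (k4 j).2.2.1 (k4 j).2.2.2)
      (fun j => Complex.ext (k4 j).2.1 (k4 j).1) a2)⟩
  · exact (l1 j).1.trans (k4 j).1
  · exact (l2 j).1.trans (k4 j).2.1
  · rw [Complex.zero_re, ← hw, (l2 j).2, (k4 j).2.2.2, neg_zero]
  · rw [Complex.zero_im, ← hw, (l1 j).2, (k4 j).2.2.1, neg_zero]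

theorem AA_eq_zero {n : ℕ} {c : ℂ} (hc : c ≠ 0) (p : Fin n → ℂ) {w : Amb n}
    (h : AA c p w = 0) : w = 0 := by
  have l0 : c * (w.2.2 - ∑ j, p j * w.1 j) = 0 := congrFun h (Sum.inr ())
  have l1 : ∀ j, (c * w.1 j).re = 0 ∧ (w.2.1 j).im = 0 := fun j => by
    have e : ((c * w.1 j).re : ℂ) + Complex.I * ((w.2.1 j).im : ℂ) = 0 :=
      congrFun h (Sum.inl (Sum.inl j))
    have e1 := congrArg Complex.re e
    have e2 := congrArg Complex.im e
    generalize (c * w.1 j).re = s at e1 e2 ⊢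
    simp at e1 e2
    exact ⟨e1, e2⟩
  have l2 : ∀ j, (c * w.1 j).im = 0 ∧ (w.2.1 j).re = 0 := fun j => by
    have e : ((c * w.1 j).im : ℂ) + Complex.I * ((w.2.1 j).re : ℂ) = 0 :=
      congrFun h (Sum.inl (Sum.inr j))
    have e1 := congrArg Complex.re e
    have e2 := congrArg Complex.im e
    generalize (c * w.1 j).im = s at e1 e2 ⊢
    simp at e1 e2
    exact ⟨e1, e2⟩
  exact phase_zero (p := (0, p, 0)) hc (fun j => Complex.ext (l1 j).1 (l2 j).1)
    (fun j => Complex.ext (l2 j).2 (l1 j).2) ((mul_eq_zero.1 l0).resolve_left hc)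

theorem AA_add {n : ℕ} (c : ℂ) (p : Fin n → ℂ) (w w' : Amb n) :
    AA c p (w + w') = AA c p w + AA c p w' := by
  funext i
  rcases i with (j | j) | u
  · simp only [AA, Prod.fst_add, Prod.snd_add, Pi.add_apply, mul_add, Complex.add_re,
      Complex.add_im]
    push_cast
    ring
  · simp only [AA, Prod.fst_add, Prod.snd_add, Pi.add_apply, mul_add, Complex.add_re,
      Complex.add_im]
    push_cast
    ring
  · simp only [AA, Prod.fst_add, Prod.snd_add, Pi.add_apply, mul_add, Finset.sum_add_distrib]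
    ring

theorem AA_smul {n : ℕ} (c : ℂ) (p : Fin n → ℂ) (r : ℝ) (w : Amb n) :
    AA c p (r • w) = (r : ℂ) • AA c p w := by
  funext i
  rcases i with (j | j) | u
  · simp only [AA, Prod.smul_fst, Prod.smul_snd, Pi.smul_apply, mul_smul_comm, Complex.smul_re,
      Complex.smul_im, smul_eq_mul]
    push_cast
    ring
  · simp only [AA, Prod.smul_fst, Prod.smul_snd, Pi.smul_apply, mul_smul_comm, Complex.smul_re,
      Complex.smul_im, smul_eq_mul]
    push_cast
    ring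
  · simp only [AA, Prod.smul_fst, Prod.smul_snd, Pi.smul_apply, smul_eq_mul, Complex.real_smul,
      mul_left_comm _ (r : ℂ), ← Finset.mul_sum]
    ring

theorem continuous_AA {n : ℕ} :
    Continuous fun q : ℂ × (Fin n → ℂ) × Amb n => AA q.1 q.2.1 q.2.2 := by
  refine continuous_pi fun i => ?_
  rcases i with (j | j) | u
  · simp only [AA]
    fun_prop
  · simp only [AA]
    fun_prop
  · simp only [AA]
    fun_prop

end Pool.Agent.Lib.MP_b7c8b0_gt
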