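import Pool.Agent.Lib.MP_b7c8b0_gt.HomZ
import Pool.Agent.Lib.MP_b7c8b0_gt.Phase

open scoped ContDiff Topology ComplexConjugate
open Filter MeasureTheory Matrix

noncomputable section

namespace Pool.Agent.Lib.MP_b7c8b0_gt

/-- The vector part `a` of `x = (c, a)`. -/
def chordA {N : ℕ} (x : XX N) : EuclideanSpace ℝ (Fin N) := WithLp.toLp 2 fun i => x (some i)

theorem chordA_apply {N : ℕ} (x : XX N) (i : Fin N) : chordA x i = x (some i) := rfl

theorem chordA_cont {N : ℕ} : Continuous (chordA (N := N)) := by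
  unfold chordA
  fun_prop

theorem chordA_neg {N : ℕ} (x : XX N) : chordA (-x) = -chordA x := by
  ext i
  simp [chordA_apply]

theorem chordA_norm {N : ℕ} (x : XX N) : ‖chordA x‖ ≤ ‖x‖ := by
  rw [EuclideanSpace.norm_eq, EuclideanSpace.norm_eq]
  refine Real.sqrt_le_sqrt ?_
  rw [Fintype.sum_option]
  simp only [chordA_apply]
  exact le_add_of_nonneg_left (by positivity)

theorem chordA_ne {N : ℕ} {x : XX N} (hx : ‖x‖ = 1) (hc : x none = 0) : chordA x ≠ 0 := by
  intro h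
  have : x = 0 := by
    ext i
    rcases i with _ | i
    · simpa using hc
    · have := congrArg (fun v : EuclideanSpace ℝ (Fin N) => v i) h
      simpa [chordA_apply] using this
  rw [this, norm_zero] at hx
  exact zero_ne_one hx

section abstract

variable {E W : Type} [NormedAddCommGroup E] [NormedSpace ℝ E] [NormedAddCommGroup W]
  [NormedSpace ℝ W] [CompleteSpace W]

/-- The averaged derivative along a chord. -/
def chordQ (Φ : E → W) (b a : E) (ε : ℝ) : W :=
  ∫ τ in (-1 : ℝ)..1, fderiv ℝ Φ (b + (max (-1) (min τ 1) * ε) • a) a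

theorem chord_pt_ne {b a : E} (hb : ‖b‖ = 1) (ha : ‖a‖ ≤ 1) {ε t : ℝ} (hε : |ε| ≤ 1 / 2)
    (ht : |t| ≤ 1) : b + (t * ε) • a ≠ 0 := by
  intro h
  have h1 : b = -((t * ε) • a) := eq_neg_of_add_eq_zero_left h
  have h2 : ‖b‖ ≤ 1 * (1 / 2) * 1 := by
    rw [h1, norm_neg, norm_smul, Real.norm_eq_abs, abs_mul]
    gcongr
  linarith

theorem chord_clamp (τ : ℝ) : |max (-1) (min τ 1)| ≤ 1 :=
  abs_le.2 ⟨le_max_left _ _, max_le (by norm_num) (min_le_right _ _)⟩

theorem chordQ_zero (Φ : E → W) (b a : E) : chordQ Φ b a 0 = (2 : ℝ) • fderiv ℝ Φ b a := by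
  unfold chordQ
  simp only [mul_zero, zero_smul, add_zero, intervalIntegral.integral_const]
  norm_num

omit [CompleteSpace W] in
theorem chord_int_cont {Φ : E → W} (hΦ : ∀ z, z ≠ 0 → ContDiffAt ℝ 1 Φ z) {P : Type}
    [TopologicalSpace P] {b a : P → E} {ε : P → ℝ} (cb : Continuous b) (ca : Continuous a)
    (cε : Continuous ε) (hb : ∀ p, ‖b p‖ = 1) (ha : ∀ p, ‖a p‖ ≤ 1) (hε : ∀ p, |ε p| ≤ 1 / 2) :
    Continuous fun q : P × ℝ =>
      fderiv ℝ Φ (b q.1 + (max (-1) (min q.2 1) * ε q.1) • a q.1) (a q.1) := by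
  refine Continuous.clm_apply ?_ (ca.comp continuous_fst)
  refine continuous_iff_continuousAt.2 fun q => ?_
  have h1 := (hΦ _ (chord_pt_ne (hb q.1) (ha q.1) (hε q.1) (chord_clamp q.2))).continuousAt_fderiv
    one_ne_zero
  have h2 : Continuous fun q : P × ℝ => b q.1 + (max (-1) (min q.2 1) * ε q.1) • a q.1 := by
    fun_prop
  exact ContinuousAt.comp (f := fun q : P × ℝ => b q.1 + (max (-1) (min q.2 1) * ε q.1) • a q.1)
    h1 h2.continuousAt

omit [CompleteSpace W] in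
theorem chordQ_cont {Φ : E → W} (hΦ : ∀ z, z ≠ 0 → ContDiffAt ℝ 1 Φ z) {P : Type}
    [TopologicalSpace P] {b a : P → E} {ε : P → ℝ} (cb : Continuous b) (ca : Continuous a)
    (cε : Continuous ε) (hb : ∀ p, ‖b p‖ = 1) (ha : ∀ p, ‖a p‖ ≤ 1) (hε : ∀ p, |ε p| ≤ 1 / 2) :
    Continuous fun p => chordQ Φ (b p) (a p) (ε p) :=
  intervalIntegral.continuous_parametric_intervalIntegral_of_continuous'
    (f := fun p τ => fderiv ℝ Φ (b p + (max (-1) (min τ 1) * ε p) • a p) (a p))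
    (chord_int_cont hΦ cb ca cε hb ha hε) _ _

theorem chordQ_eq {Φ : E → W} (hΦ : ∀ z, z ≠ 0 → ContDiffAt ℝ 1 Φ z) {b a : E} (hb : ‖b‖ = 1)
    (ha : ‖a‖ ≤ 1) {ε : ℝ} (hε : |ε| ≤ 1 / 2) :
    ε • chordQ Φ b a ε = Φ (b + ε • a) - Φ (b - ε • a) := by
  have hc : Continuous fun τ : ℝ => fderiv ℝ Φ (b + (max (-1) (min τ 1) * ε) • a) a :=
    (chord_int_cont (P := Unit) hΦ continuous_const continuous_const continuous_const
      (fun _ => hb) (fun _ => ha) (fun _ => hε)).comp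
      (show Continuous fun τ : ℝ => (((), τ) : Unit × ℝ) by fun_prop)
  unfold chordQ
  rw [← intervalIntegral.integral_smul]
  have := intervalIntegral.integral_eq_sub_of_hasDerivAt (f := fun τ : ℝ => Φ (b + (τ * ε) • a))
    (f' := fun τ : ℝ => ε • fderiv ℝ Φ (b + (max (-1) (min τ 1) * ε) • a) a) (a := -1) (b := 1)
    (fun τ hτ => ?_) ((hc.const_smul ε).intervalIntegrable _ _)
  · rw [this]
    simp [sub_eq_add_neg]
  · rw [Set.uIcc_of_le (by norm_num)] at hτ
    have e : max (-1) (min τ 1) = τ := by rw [min_eq_left hτ.2, max_eq_right hτ.1]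
    rw [e]
    have h1 : HasDerivAt (fun τ : ℝ => b + (τ * ε) • a) (ε • a) τ := by
      have := (((hasDerivAt_id τ).mul_const ε).smul_const a).const_add b
      simpa using this
    have h2 := ((hΦ _ (chord_pt_ne hb ha hε (abs_le.2 hτ))).differentiableAt
      one_ne_zero).hasFDerivAt
    have h3 := h2.comp_hasDerivAt τ h1
    rw [map_smul] at h3
    exact h3

theorem chordQ_neg {Φ : E → W} (hΦ : ∀ z, z ≠ 0 → ContDiffAt ℝ 1 Φ z) {b a : E} (hb : ‖b‖ = 1)
    (ha : ‖a‖ ≤ 1) {ε : ℝ} (hε : |ε| ≤ 1 / 2) : chordQ Φ b (-a) ε = -chordQ Φ b a ε := by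
  rcases eq_or_ne ε 0 with rfl | h0
  · rw [chordQ_zero, chordQ_zero, map_neg, smul_neg]
  · refine smul_right_injective W h0 ?_
    simp only
    rw [smul_neg, chordQ_eq hΦ hb ha hε, chordQ_eq hΦ hb (by rwa [norm_neg]) hε]
    simp [sub_eq_add_neg]

omit [NormedSpace ℝ W] [CompleteSpace W] in
theorem chord_sub_ne {Φ : E → W} (hi : Function.Injective Φ) {b a : E} (ha : a ≠ 0) {ε : ℝ}
    (hε : ε ≠ 0) : Φ (b + ε • a) - Φ (b - ε • a) ≠ 0 := by
  intro h
  have h1 := hi (sub_eq_zero.1 h)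
  have h2 : (2 * ε) • a = 0 := by
    rw [mul_smul, two_smul]
    have : b + ε • a - (b - ε • a) = 0 := sub_eq_zero.2 h1
    rw [← this]
    abel
  rcases smul_eq_zero.1 h2 with h3 | h3
  · exact hε (by linarith)
  · exact ha h3

theorem chordQ_ne {Φ : E → W} (hΦ : ∀ z, z ≠ 0 → ContDiffAt ℝ 1 Φ z) (hi : Function.Injective Φ)
    {b a : E} (hb : ‖b‖ = 1) (hd : fderiv ℝ Φ b a = 0 → a = 0) (ha : ‖a‖ ≤ 1) (ha0 : a ≠ 0)
    {ε : ℝ} (hε : |ε| ≤ 1 / 2) : chordQ Φ b a ε ≠ 0 := by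
  intro h
  rcases eq_or_ne ε 0 with rfl | h0
  · rw [chordQ_zero] at h
    exact ha0 (hd ((smul_eq_zero.1 h).resolve_left two_ne_zero))
  · have := chordQ_eq hΦ hb ha hε
    rw [h, smul_zero] at this
    exact chord_sub_ne hi ha0 h0 this.symm

end abstract

/-- Stages 1 and 2 for an abstract injective map. -/
theorem chord_stage12 {N k : ℕ} {W V : Type} [NormedAddCommGroup W] [NormedSpace ℝ W]
    [CompleteSpace W] [NormedAddCommGroup V] [NormedSpace ℝ V]
    {Φ : EuclideanSpace ℝ (Fin N) → W} (hc : Continuous Φ) (hi : Function.Injective Φ)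
    (hΦ : ∀ z, z ≠ 0 → ContDiffAt ℝ 1 Φ z)
    (hd : ∀ b a, ‖b‖ = 1 → fderiv ℝ Φ b a = 0 → a = 0)
    {L : W × ℝ → V} (Lc : Continuous L) (Ln : ∀ w c, L (-w, -c) = -L (w, c))
    (L0 : ∀ w c, L (w, c) = 0 → w = 0 ∧ c = 0)
    {κ : YY k → EuclideanSpace ℝ (Fin N)} (κc : Continuous κ) (h1 : ∀ y, ‖κ y‖ = 1)
    (ho : ∀ y, Out y → κ y = κ 0) :
    HomZ (fun (x : XX N) (_ : YY k) =>
        L (Φ ((1 / 2 : ℝ) • chordA x) - Φ (-((1 / 2 : ℝ) • chordA x)), x none))
      (fun x y => L (fderiv ℝ Φ (κ y) (chordA x), x none)) 0 := by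
  have cA := chordA_cont (N := N)
  have S1 : HomZ (fun (x : XX N) (_ : YY k) =>
        L (Φ ((1 / 2 : ℝ) • chordA x) - Φ (-((1 / 2 : ℝ) • chordA x)), x none))
      (fun x y => L (Φ (κ y + (1 / 2 : ℝ) • chordA x) - Φ (κ y - (1 / 2 : ℝ) • chordA x),
        x none)) 0 := by
    refine HomZ.of_ne (fun p => L (Φ (p.1 • κ p.2.2 + (1 / 2 : ℝ) • chordA p.2.1) -
      Φ (p.1 • κ p.2.2 - (1 / 2 : ℝ) • chordA p.2.1), p.2.1 none)) ?_ ?_ ?_ ?_ ?_ ?_
    · exact Continuous.continuousOn (by fun_prop)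
    · intro s x y _ _ _
      simp only
      rw [← Ln, chordA_neg]
      simp [sub_eq_add_neg]
    · intro s x y _ _ _ hy
      simp only [ho y hy]
    · intro x y _
      simp
    · intro x y _
      simp
    · intro s x y _ _ hx h
      obtain ⟨a1, a2⟩ := L0 _ _ h
      exact chord_sub_ne hi (chordA_ne hx a2) (by norm_num) a1
  have hε : ∀ s : ℝ, 0 ≤ s → s ≤ 1 → |(1 - s) / 2| ≤ 1 / 2 := fun s h0 h1 =>
    abs_le.2 ⟨by linarith, by linarith⟩
  have S2 : HomZ (fun (x : XX N) (y : YY k) => L (Φ (κ y + (1 / 2 : ℝ) • chordA x) -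
        Φ (κ y - (1 / 2 : ℝ) • chordA x), x none))
      (fun x y => L (fderiv ℝ Φ (κ y) (chordA x), x none)) 0 := by
    refine HomZ.of_ne (fun p => L ((1 / 2 : ℝ) • chordQ Φ (κ p.2.2) (chordA p.2.1) ((1 - p.1) / 2),
      p.2.1 none)) ?_ ?_ ?_ ?_ ?_ ?_
    · rw [continuousOn_iff_continuous_domRestrict]
      have := chordQ_cont (P := {p : ℝ × XX N × YY k | (0 ≤ p.1 ∧ p.1 ≤ 1) ∧ ‖p.2.1‖ = 1}) hΦ
        (b := fun p => κ p.1.2.2) (a := fun p => chordA p.1.2.1) (ε := fun p => (1 - p.1.1) / 2)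
        (by fun_prop) (by fun_prop) (by fun_prop) (fun p => h1 _)
        (fun p => (chordA_norm _).trans p.2.2.le) (fun p => hε _ p.2.1.1 p.2.1.2)
      exact Lc.comp ((this.const_smul (1 / 2 : ℝ)).prodMk (by fun_prop))
    · intro s x y s0 s1 hx
      simp only
      rw [← Ln, chordA_neg, chordQ_neg hΦ (h1 y) ((chordA_norm _).trans hx.le) (hε s s0 s1)]
      simp
    · intro s x y _ _ _ hy
      simp only [ho y hy]
    · intro x y hx
      simp only [sub_zero]
      rw [chordQ_eq hΦ (h1 y) ((chordA_norm _).trans hx.le) (by norm_num)]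
    · intro x y _
      simp only [sub_self, zero_div]
      rw [chordQ_zero, smul_smul]
      norm_num
    · intro s x y s0 s1 hx h
      obtain ⟨a1, a2⟩ := L0 _ _ h
      exact chordQ_ne hΦ hi (h1 y) (hd _ _ (h1 y)) ((chordA_norm _).trans hx.le) (chordA_ne hx a2)
        (hε s s0 s1) ((smul_eq_zero.1 a1).resolve_left (by norm_num))
  exact S1.trans S2

/-- The cone over the embedded sphere. -/
def chordF {n : ℕ} (F : Euc n → Amb n) (x : Euc n) : Amb n × ℝ := (‖x‖ • F (‖x‖⁻¹ • x), ‖x‖)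

theorem chord_norm_unit {n : ℕ} {x : Euc n} (hx : x ≠ 0) : ‖‖x‖⁻¹ • x‖ = 1 :=
  norm_smul_inv_norm hx

theorem chord_unit_ne {n : ℕ} {x : Euc n} (hx : ‖x‖ = 1) : x ≠ 0 := by
  rintro rfl
  simp at hx

theorem chordF_smooth {n : ℕ} {F : Euc n → Amb n} (hF : EPre n F) (z : Euc n) (hz : z ≠ 0) :
    ContDiffAt ℝ 1 (chordF F) z := by
  have h1 : ContDiffAt ℝ 1 (fun x : Euc n => ‖x‖) z := contDiffAt_norm ℝ hz
  have h2 : ContDiffAt ℝ 1 (fun x : Euc n => ‖x‖⁻¹ • x) z :=
    (h1.inv (norm_ne_zero_iff.2 hz)).smul contDiffAt_id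
  have h3 : ContDiffAt ℝ 1 F (‖z‖⁻¹ • z) :=
    (hF.smooth _ (chord_unit_ne (chord_norm_unit hz))).of_le (by exact_mod_cast le_top)
  exact (h1.smul (ContDiffAt.comp (f := fun x : Euc n => ‖x‖⁻¹ • x) z h3 h2)).prodMk h1

theorem chordF_cont {n : ℕ} {F : Euc n → Amb n} (hF : EPre n F) : Continuous (chordF F) := by
  refine continuous_iff_continuousAt.2 fun z => ?_
  rcases ne_or_eq z 0 with hz | rfl
  · exact (chordF_smooth hF z hz).continuousAt
  refine ContinuousAt.prodMk ?_ continuous_norm.continuousAt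
  have hK : ContinuousOn F (Metric.sphere (0 : Euc n) 1) := fun x hx =>
    (hF.smooth x (chord_unit_ne (by simpa using hx))).continuousAt.continuousWithinAt
  obtain ⟨M, hM⟩ := (isCompact_sphere (0 : Euc n) 1).exists_bound_of_continuousOn hK
  have hb : ∀ x : Euc n, ‖‖x‖ • F (‖x‖⁻¹ • x)‖ ≤ ‖x‖ * M := by
    intro x
    rcases ne_or_eq x 0 with hx | rfl
    · rw [norm_smul, norm_norm]
      exact mul_le_mul_of_nonneg_left (hM _ (by simpa using chord_norm_unit hx)) (norm_nonneg _)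
    · simp
  have h0 : Tendsto (fun x : Euc n => ‖x‖ * M) (𝓝 0) (𝓝 0) := by
    have : Continuous fun x : Euc n => ‖x‖ * M := by fun_prop
    simpa using this.tendsto 0
  have := squeeze_zero_norm hb h0
  unfold ContinuousAt
  simpa using this

theorem chordF_inj {n : ℕ} {F : Euc n → Amb n} (hF : EPre n F) :
    Function.Injective (chordF F) := by
  intro x x' h
  have h2 : ‖x‖ = ‖x'‖ := congrArg Prod.snd h
  have h1 : ‖x‖ • F (‖x‖⁻¹ • x) = ‖x'‖ • F (‖x'‖⁻¹ • x') := congrArg Prod.fst h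
  rcases ne_or_eq x 0 with hx | rfl
  · have hn : ‖x‖ ≠ 0 := norm_ne_zero_iff.2 hx
    have hx' : x' ≠ 0 := norm_ne_zero_iff.1 (h2 ▸ hn)
    have h3 : F (‖x‖⁻¹ • x) = F (‖x'‖⁻¹ • x') := by
      refine smul_right_injective _ hn ?_
      simp only
      rw [h1, h2]
    have h4 := hF.inj _ _ (chord_norm_unit hx) (chord_norm_unit hx') h3
    rw [← h2] at h4
    exact smul_right_injective _ (inv_ne_zero hn) h4
  · rw [norm_zero] at h2
    exact (norm_eq_zero.1 h2.symm).symm

theorem chordF_fderiv {n : ℕ} {F : Euc n → Amb n} (hF : EPre n F) {b : Euc n} (hb : ‖b‖ = 1)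
    (a : Euc n) : fderiv ℝ (chordF F) b a =
      (inner ℝ b a • F b + fderiv ℝ F b (a - inner ℝ b a • b), inner ℝ b a) := by
  have h1 : HasFDerivAt (fun x : Euc n => ‖x‖) (innerSL ℝ b) b := by
    have h := (hasStrictFDerivAt_norm_sq b).hasFDerivAt.sqrt (by rw [hb]; norm_num)
    simp only [Real.sqrt_sq (norm_nonneg _), hb, one_pow, Real.sqrt_one] at h
    have e : (1 / (2 * 1) : ℝ) • (2 • innerSL ℝ b) = innerSL ℝ b := by
      ext v
      simp
    rwa [e] at h
  have h2 : HasFDerivAt (fun x : Euc n => ‖x‖⁻¹) (-innerSL ℝ b) b := by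
    have h := (hasDerivAt_inv (x := ‖b‖) (by rw [hb]; norm_num)).comp_hasFDerivAt b h1
    simp only [hb] at h
    have e : (-(1 ^ 2 : ℝ)⁻¹) • innerSL ℝ b = -innerSL ℝ b := by simp
    rw [e] at h
    exact h
  have h3 := h2.smul (hasFDerivAt_id b)
  have hb' : ‖b‖⁻¹ • b = b := by rw [hb]; simp
  have h4 : HasFDerivAt F (fderiv ℝ F b) (‖b‖⁻¹ • b) := by
    rw [hb']
    exact ((hF.smooth b (chord_unit_ne hb)).differentiableAt (by simp)).hasFDerivAt
  have h5 := HasFDerivAt.comp (f := fun x : Euc n => ‖x‖⁻¹ • x) b h4 h3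
  have h6 := (h1.smul h5).prodMk h1
  have h7 : fderiv ℝ (chordF F) b = _ := h6.fderiv
  rw [h7]
  simp [hb, sub_eq_add_neg, add_comm]

theorem chord_tan {n : ℕ} {b : Euc n} (hb : ‖b‖ = 1) (a : Euc n) :
    inner ℝ b (a - inner ℝ b a • b) = 0 := by
  rw [inner_sub_right, inner_smul_right, real_inner_self_eq_norm_sq, hb]
  ring

theorem chordF_imm {n : ℕ} {F : Euc n → Amb n} (hF : EPre n F) (b a : Euc n) (hb : ‖b‖ = 1)
    (h : fderiv ℝ (chordF F) b a = 0) : a = 0 := by
  rw [chordF_fderiv hF hb] at h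
  have h2 : inner ℝ b a = 0 := congrArg Prod.snd h
  have h1 : inner ℝ b a • F b + fderiv ℝ F b (a - inner ℝ b a • b) = 0 := congrArg Prod.fst h
  rw [h2, zero_smul, zero_add, zero_smul, sub_zero] at h1
  exact hF.imm b a hb h2 h1

/-- The reindexing of coordinates. -/
def chordE (n : ℕ) : Fin (2 * n + 1 + 1) ≃ ((Fin n ⊕ Fin n) ⊕ Unit) ⊕ Unit :=
  Fintype.equivOfCardEq (by simp; omega)

/-- Packing of coordinates. -/
def chordP {n : ℕ} (u : (Fin n ⊕ Fin n) ⊕ Unit → ℂ) (z : ℂ) : Fin (2 * n + 1 + 1) → ℂ :=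
  fun i => Sum.elim u (fun _ => z) (chordE n i)

theorem chordP_add {n : ℕ} (u u' : (Fin n ⊕ Fin n) ⊕ Unit → ℂ) (z z' : ℂ) :
    chordP (u + u') (z + z') = chordP u z + chordP u' z' := by
  funext i
  simp only [chordP, Pi.add_apply]
  rcases chordE n i with j | j <;> rfl

theorem chordP_smul {n : ℕ} (c : ℂ) (u : (Fin n ⊕ Fin n) ⊕ Unit → ℂ) (z : ℂ) :
    chordP (c • u) (c * z) = c • chordP u z := by
  funext i
  simp only [chordP, Pi.smul_apply]
  rcases chordE n i with j | j <;> rfl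

theorem chordP_eq_zero {n : ℕ} {u : (Fin n ⊕ Fin n) ⊕ Unit → ℂ} {z : ℂ} (h : chordP u z = 0) :
    u = 0 ∧ z = 0 := by
  constructor
  · funext j
    have := congrFun h ((chordE n).symm (Sum.inl j))
    simpa [chordP] using this
  · have := congrFun h ((chordE n).symm (Sum.inr ()))
    simpa [chordP] using this

theorem chordP_cont {n : ℕ} {P : Type} [TopologicalSpace P] {u : P → (Fin n ⊕ Fin n) ⊕ Unit → ℂ}
    {z : P → ℂ} (hu : Continuous u) (hz : Continuous z) :
    Continuous fun p => chordP (u p) (z p) := by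
  refine continuous_pi fun i => ?_
  unfold chordP
  rcases chordE n i with j | j
  · exact (continuous_apply j).comp hu
  · exact hz

theorem chord_AA_neg {n : ℕ} (c : ℂ) (p : Fin n → ℂ) (w : Amb n) : AA c p (-w) = -AA c p w := by
  have := AA_smul c p (-1) w
  simpa using this

/-- The interpolating family of injective real linear maps. -/
def chordB {n : ℕ} (c : ℂ) (q : Amb n) (w : (Amb n × ℝ) × ℝ) : Fin (2 * n + 1 + 1) → ℂ :=
  chordP (AA c q.2.1 (w.1.1 - w.1.2 • q)) ((w.1.2 : ℂ) + Complex.I * (w.2 : ℂ))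

theorem chordB_neg {n : ℕ} (c : ℂ) (q : Amb n) (w : Amb n × ℝ) (t : ℝ) :
    chordB c q (-w, -t) = -chordB c q (w, t) := by
  unfold chordB
  rw [← neg_one_smul ℂ (chordP _ _), ← chordP_smul, neg_one_smul, ← chord_AA_neg]
  congr 1
  · congr 1
    simp only [Prod.fst_neg, Prod.snd_neg, neg_smul]
    abel
  · simp only [Prod.snd_neg]
    push_cast
    ring

theorem chordB_eq_zero {n : ℕ} {c : ℂ} (hc : c ≠ 0) (q : Amb n) (w : Amb n × ℝ) (t : ℝ)
    (h : chordB c q (w, t) = 0) : w = 0 ∧ t = 0 := by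
  obtain ⟨h1, h2⟩ := chordP_eq_zero h
  have a1 : w.2 = 0 := by simpa using congrArg Complex.re h2
  have a2 : t = 0 := by simpa using congrArg Complex.im h2
  have a3 := AA_eq_zero hc _ h1
  simp only [a1, zero_smul, sub_zero] at a3
  exact ⟨Prod.ext a3 a1, a2⟩

theorem chordB_cont {n : ℕ} {P : Type} [TopologicalSpace P] {c : P → ℂ} {q : P → Amb n}
    {w : P → (Amb n × ℝ) × ℝ} (hc : Continuous c) (hq : Continuous q) (hw : Continuous w) :
    Continuous fun p => chordB (c p) (q p) (w p) := by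
  refine chordP_cont ?_ (by fun_prop)
  exact continuous_AA.comp (f := fun p => (c p, (q p).2.1, (w p).1.1 - (w p).1.2 • q p))
    (by fun_prop)

/-- The real linear map whose complexification is the matrix. -/
def chordT {n : ℕ} (F : Euc n → Amb n) (c : ℂ) (b : Euc n) :
    Euc n →ₗ[ℝ] (Fin (2 * n + 1 + 1) → ℂ) where
  toFun a := chordP (AA c (F b).2.1 (fderiv ℝ F b (a - inner ℝ b a • b))) (inner ℝ b a : ℝ)
  map_add' a a' := by
    rw [← chordP_add, ← AA_add, ← map_add, inner_add_right, add_smul]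
    congr 1
    · congr 2
      abel
    · push_cast
      rfl
  map_smul' r a := by
    have e : r • a - inner ℝ b (r • a) • b = r • (a - inner ℝ b a • b) := by
      rw [inner_smul_right, smul_sub, smul_smul]
    rw [e, map_smul, AA_smul, inner_smul_right, Complex.ofReal_mul, chordP_smul]
    rfl

theorem chordT_apply {n : ℕ} (F : Euc n → Amb n) (c : ℂ) (b a : Euc n) : chordT F c b a =
    chordP (AA c (F b).2.1 (fderiv ℝ F b (a - inner ℝ b a • b))) (inner ℝ b a : ℝ) := rfl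

/-- The matrix. -/
def chordG {n : ℕ} (F : Euc n → Amb n) (c : ℂ) (b : Euc n) :
    Matrix (Fin (2 * n + 1 + 1)) (Fin (2 * n + 1 + 1)) ℂ :=
  Matrix.of fun r i => chordT F c b (EuclideanSpace.single i 1) r

theorem chordG_real {n : ℕ} (F : Euc n → Amb n) (c : ℂ) (b a : Euc n) :
    chordG F c b *ᵥ (fun i => (a i : ℂ)) = chordT F c b a := by
  have e : a = ∑ i, a i • EuclideanSpace.single i (1 : ℝ) := by
    ext j
    simp [Pi.single_apply]
  conv_rhs => rw [e, map_sum]
  funext r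
  simp [chordG, Matrix.mulVec, dotProduct, mul_comm]

theorem chordG_mulVec {n : ℕ} (F : Euc n → Amb n) (c : ℂ) (b a a' : Euc n) :
    chordG F c b *ᵥ (fun i => (a i : ℂ) + Complex.I * (a' i : ℂ)) =
      chordT F c b a + Complex.I • chordT F c b a' := by
  rw [← chordG_real, ← chordG_real, ← Matrix.mulVec_smul, ← Matrix.mulVec_add]
  rfl

theorem chordG_det {n : ℕ} {F : Euc n → Amb n} (hF : EPre n F) {b : Euc n} (hb : ‖b‖ = 1)
    {c : ℂ} (hc : c ≠ 0)
    (h : ∀ v, inner ℝ b v = 0 → (c * alpha (F b) (fderiv ℝ F b v)).im = 0) :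
    (chordG F c b).det ≠ 0 := by
  intro h0
  obtain ⟨w, hw, hG⟩ := Matrix.exists_mulVec_eq_zero_iff.2 h0
  let a : Euc n := WithLp.toLp 2 fun i => (w i).re
  let a' : Euc n := WithLp.toLp 2 fun i => (w i).im
  have e : w = fun i => (a i : ℂ) + Complex.I * (a' i : ℂ) := by
    funext i
    rw [mul_comm Complex.I]
    exact (Complex.re_add_im (w i)).symm
  rw [e, chordG_mulVec, chordT_apply, chordT_apply, ← chordP_smul, ← chordP_add] at hG
  obtain ⟨h1, h2⟩ := chordP_eq_zero hG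
  have a1 : inner ℝ b a = 0 := by simpa using congrArg Complex.re h2
  have a2 : inner ℝ b a' = 0 := by simpa using congrArg Complex.im h2
  rw [a1, a2, zero_smul, sub_zero, sub_zero] at h1
  obtain ⟨z1, z2⟩ := totally_real hF hb hc h a1 a2 h1
  apply hw
  rw [e, z1, z2]
  funext i
  simp

theorem chordG_tau {n : ℕ} {F : Euc n → Amb n} (hF : EPre n F) {b : Euc n} (hb : ‖b‖ = 1) (c : ℂ)
    (x : XX (2 * n + 1 + 1)) : chordG F c b *ᵥ tauB b x =
      chordB c (F b) (fderiv ℝ (chordF F) b (chordA x), x none) := by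
  have e : tauB b x = fun i => (chordA x i : ℂ) + Complex.I * (((x none • b : Euc n) i : ℝ) : ℂ) := by
    funext i
    simp [tauB, chordA_apply, mul_assoc]
  have hbb : inner ℝ b (x none • b) = x none := by
    rw [inner_smul_right, real_inner_self_eq_norm_sq, hb]
    ring
  have h0 : AA c (F b).2.1 0 = 0 := by simpa using AA_smul c (F b).2.1 0 0
  rw [e, chordG_mulVec, chordT_apply, chordT_apply, hbb, sub_self, map_zero, h0, ← chordP_smul,
    ← chordP_add, chordF_fderiv hF hb]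
  unfold chordB
  simp

/-- The chord homotopy of an embedded prelegendrian sphere. -/
theorem emb_data {n : ℕ} (hn : 1 ≤ n) {F : Euc n → Amb n} (hF : EPre n F)
    {κ : YY (2 * n + 1) → Euc n} (hc : Continuous κ) (h1 : ∀ y, ‖κ y‖ = 1)
    (ho : ∀ y, Out y → κ y = κ 0) :
    ∃ (G : YY (2 * n + 1) → Matrix (Fin (2 * n + 1 + 1)) (Fin (2 * n + 1 + 1)) ℂ)
      (f0 : XX (2 * n + 1 + 1) → (Fin (2 * n + 1 + 1) → ℂ)), GLGood G ∧
      HomZ (fun x _ => f0 x) (fun x y => G y *ᵥ tauB (κ y) x) 0 := by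
  obtain ⟨θ, θc, θo, hθ⟩ := exists_phase (by omega) hF hc h1 ho
  have cF : Continuous fun y => F (κ y) := continuous_iff_continuousAt.2 fun y =>
    ContinuousAt.comp (f := κ) (hF.smooth _ (chord_unit_ne (h1 y))).continuousAt hc.continuousAt
  have cD : Continuous fun y => fderiv ℝ F (κ y) := continuous_iff_continuousAt.2 fun y =>
    ContinuousAt.comp (f := κ)
      ((hF.smooth _ (chord_unit_ne (h1 y))).continuousAt_fderiv (by simp)) hc.continuousAt
  have cD' : Continuous fun y => fderiv ℝ (chordF F) (κ y) :=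
    continuous_iff_continuousAt.2 fun y => ContinuousAt.comp (f := κ)
      ((chordF_smooth hF _ (chord_unit_ne (h1 y))).continuousAt_fderiv one_ne_zero)
      hc.continuousAt
  have cA := chordA_cont (N := 2 * n + 1 + 1)
  refine ⟨fun y => chordG F (Complex.exp (θ y * Complex.I)) (κ y), _, ⟨?_, fun y => ?_, ?_⟩,
    (chord_stage12 (chordF_cont hF) (chordF_inj hF) (chordF_smooth hF) (chordF_imm hF)
      (L := chordB 1 0) (chordB_cont continuous_const continuous_const continuous_id)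
      (chordB_neg 1 0) (chordB_eq_zero one_ne_zero 0) hc h1 ho).trans (r' := 0) ?_⟩
  · refine continuous_pi fun r => continuous_pi fun i => ?_
    refine (continuous_apply r).comp (f := fun y => chordT F (Complex.exp (θ y * Complex.I)) (κ y)
      (EuclideanSpace.single i 1)) ?_
    simp only [chordT_apply]
    refine chordP_cont ?_ (by fun_prop)
    exact continuous_AA.comp (f := fun y => (Complex.exp (θ y * Complex.I), (F (κ y)).2.1,
      fderiv ℝ F (κ y) (EuclideanSpace.single i 1 -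
        inner ℝ (κ y) (EuclideanSpace.single i (1 : ℝ)) • κ y)))
      (Continuous.prodMk (by fun_prop) (cF.snd.fst.prodMk (cD.clm_apply (by fun_prop))))
  · exact chordG_det hF (h1 y) (Complex.exp_ne_zero _) (hθ y)
  · intro y hy
    simp only [ho y hy, θo y hy]
  · refine HomZ.of_ne (fun p => chordB (Complex.exp ((p.1 * θ p.2.2 : ℝ) * Complex.I))
      (p.1 • F (κ p.2.2)) (fderiv ℝ (chordF F) (κ p.2.2) (chordA p.2.1), p.2.1 none))
      ?_ ?_ ?_ ?_ ?_ ?_
    · exact (chordB_cont (by fun_prop) (continuous_fst.smul (cF.comp continuous_snd.snd))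
        (((cD'.comp continuous_snd.snd).clm_apply (by fun_prop)).prodMk (by fun_prop))).continuousOn
    · intro s x y _ _ _
      simp only
      rw [← chordB_neg, chordA_neg, map_neg]
      rfl
    · intro s x y _ _ _ hy
      simp only [ho y hy, θo y hy]
    · intro x y _
      simp
    · intro x y _
      simp only [one_mul, one_smul]
      rw [chordG_tau hF (h1 y)]
    · intro s x y _ _ hx h
      obtain ⟨a1, a2⟩ := chordB_eq_zero (Complex.exp_ne_zero _) _ _ _ h
      exact chordA_ne hx a2 (chordF_imm hF _ _ (h1 y) a1)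

end Pool.Agent.Lib.MP_b7c8b0_gt
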