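import Pool.Agent.Lib.MP_b7c8b0_gt.Stokes

open scoped ContDiff Topology ComplexConjugate
open Filter MeasureTheory Matrix

noncomputable section

namespace Pool.Agent.Lib.MP_b7c8b0_gt

variable {ι : Type} [Fintype ι] [DecidableEq ι]

theorem coefDet_ctr_one (i : ι) : ctr i (1 : Om ι) = 0 := by
  rw [← map_one (fn (ι := ι))]
  exact ctr_fn i 1

/-- Contraction of a product of odd forms whose contractions are functions. -/
theorem coefDet_ctr_prod (i : ι) {q : ℕ} (w : Fin (q + 1) → Om ι) (c : Fin (q + 1) → Sm ι)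
    (hodd : ∀ a, sg (w a) = -w a) (hc : ∀ a, ctr i (w a) = fn (c a)) :
    ctr i (List.ofFn w).prod = ∑ j : Fin (q + 1),
      fn ((-1) ^ (j : ℕ) * c j) * (List.ofFn fun b => w (j.succAbove b)).prod := by
  induction q with
  | zero => simp [hc]
  | succ q ih =>
    have ih' := ih (fun a => w a.succ) (fun a => c a.succ) (fun a => hodd _) (fun a => hc _)
    rw [List.ofFn_succ, List.prod_cons, ctr_mul, ih', hc, hodd, Fin.sum_univ_succ (n := q + 1),
      Finset.mul_sum]
    refine congrArg₂ (· + ·) (by simp) (Finset.sum_congr rfl fun j _ => ?_)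
    rw [List.ofFn_succ (f := fun b => w (j.succ.succAbove b)), List.prod_cons]
    simp only [Fin.succ_succAbove_zero, Fin.succ_succAbove_succ, Fin.val_succ]
    have e : ((-1 : Sm ι) ^ ((j : ℕ) + 1) * c j.succ) = -((-1) ^ (j : ℕ) * c j.succ) := by ring
    rw [e, map_neg, ← mul_assoc, ← mul_assoc, neg_mul, ← fn_comm, neg_mul, neg_mul, neg_mul]

theorem coefDet_sg_one_form (M : ι → Sm ι) :
    sg (∑ i, fn (M i) * eps i) = -∑ i, fn (M i) * eps i := by
  rw [map_sum, ← Finset.sum_neg_distrib]
  refine Finset.sum_congr rfl fun i _ => ?_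
  rw [map_mul, sg_fn, sg_eps, mul_neg]

theorem coefDet_ctr_one_form (j : ι) (M : ι → Sm ι) :
    ctr j (∑ i, fn (M i) * eps i) = fn (M j) := by
  rw [map_sum, Finset.sum_eq_single j]
  · rw [ctr_mul, ctr_fn, ctr_eps_self, sg_fn, zero_mul, zero_add, mul_one]
  · intro i _ hi
    rw [ctr_mul, ctr_fn, ctr_eps_ne hi, zero_mul, mul_zero, add_zero]
  · intro h
    exact absurd (Finset.mem_univ j) h

theorem coefDet_aux {q : ℕ} (v : Fin q → ι) (M : Fin q → ι → Sm ι) :
    coef (List.ofFn v) (List.ofFn fun a => ∑ i, fn (M a i) * eps i).prod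
      = (Matrix.of fun a b => M a (v b)).det := by
  induction q with
  | zero =>
    rw [List.ofFn_zero, List.ofFn_zero, List.prod_nil, Matrix.det_isEmpty,
      ← map_one (fn (ι := ι))]
    exact coef_nil_fn 1
  | succ q ih =>
    rw [List.ofFn_succ (f := v), coef_cons,
      coefDet_ctr_prod (v 0) (fun a => ∑ i, fn (M a i) * eps i) (fun a => M a (v 0))
        (fun a => coefDet_sg_one_form _) (fun a => coefDet_ctr_one_form _ _),
      map_sum, Matrix.det_succ_column_zero]
    refine Finset.sum_congr rfl fun j _ => ?_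
    rw [coef_fn_mul, ih (fun b => v b.succ) (fun a => M (j.succAbove a))]
    rfl

/-- The top coefficient of a product of 1-forms is a determinant. -/
theorem coef_det {q : ℕ} (v : Fin q → ι) (hv : Function.Injective v) (M : Fin q → ι → Sm ι) :
    coef (List.ofFn v) (List.ofFn fun a => ∑ i, fn (M a i) * eps i).prod
      = (Matrix.of fun a b => M a (v b)).det := by
  exact coefDet_aux v M

theorem coef_det_dd {q : ℕ} (v : Fin q → ι) (hv : Function.Injective v) (f : Fin q → Sm ι) :
    coef (List.ofFn v) (List.ofFn fun a => dd (fn (f a))).prod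
      = (Matrix.of fun a b => pd (v b) (f a)).det := by
  simp only [dd_fn]
  exact coef_det v hv (fun a i => pd i (f a))

theorem coefDet_add_pow {A : Type} [Ring A] {a T : A} (hc : Commute a T) (h0 : a * a = 0)
    (k : ℕ) : (a + T) ^ (k + 1) = T ^ (k + 1) + ((k + 1 : ℕ) : A) * (a * T ^ k) := by
  induction k with
  | zero => simp [add_comm]
  | succ k ih =>
    have h1 : T ^ (k + 1) * a = a * T ^ (k + 1) := (hc.pow_right (k + 1)).eq.symm
    have h2 : a * T ^ k * a = 0 := by
      rw [mul_assoc, ← (hc.pow_right k).eq, ← mul_assoc, h0, zero_mul]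
    rw [pow_succ, ih, mul_add, add_mul, add_mul, h1, mul_assoc, h2, mul_zero, add_zero,
      mul_assoc, mul_assoc, ← pow_succ, ← pow_succ, Nat.cast_succ (k + 1), add_mul, one_mul]
    abel

theorem coefDet_mul_prod_zero {A : Type} [Ring A] {q : ℕ} (x : Fin q → A)
    (hc : ∀ a b, Commute (x a) (x b)) (h0 : ∀ a, x a * x a = 0) (a : Fin q) :
    x a * (List.ofFn x).prod = 0 := by
  induction q with
  | zero => exact a.elim0
  | succ q ih =>
    rw [List.ofFn_succ, List.prod_cons]
    refine Fin.cases ?_ (fun b => ?_) a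
    · rw [← mul_assoc, h0, zero_mul]
    · rw [← mul_assoc, (hc b.succ 0).eq, mul_assoc,
        ih (fun a => x a.succ) (fun a b => hc _ _) (fun a => h0 _) b, mul_zero]

theorem coefDet_mul_prod_succAbove {A : Type} [Ring A] {q : ℕ} (x : Fin (q + 1) → A)
    (hc : ∀ a b, Commute (x a) (x b)) (a : Fin (q + 1)) :
    x a * (List.ofFn fun b => x (a.succAbove b)).prod = (List.ofFn x).prod := by
  induction q with
  | zero =>
    have ha : a = 0 := Fin.eq_zero a
    subst ha
    simp
  | succ q ih =>
    refine Fin.cases ?_ (fun b => ?_) a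
    · rw [List.ofFn_succ (f := x), List.prod_cons]
      simp only [Fin.succAbove_zero]
    · rw [List.ofFn_succ (f := x), List.prod_cons,
        List.ofFn_succ (f := fun c => x (b.succ.succAbove c)), List.prod_cons]
      simp only [Fin.succ_succAbove_zero, Fin.succ_succAbove_succ]
      rw [← mul_assoc, (hc b.succ 0).eq, mul_assoc,
        ih (fun a => x a.succ) (fun a b => hc _ _) b]

/-- Top power of a sum of commuting elements of square zero. -/
theorem sum_pow_sq_zero {A : Type} [Ring A] {q : ℕ} (x : Fin q → A)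
    (hc : ∀ a b, Commute (x a) (x b)) (h0 : ∀ a, x a * x a = 0) :
    (∑ a, x a) ^ q = (q.factorial : A) * (List.ofFn x).prod := by
  induction q with
  | zero => simp
  | succ q ih =>
    have ih' := ih (fun a => x a.succ) (fun a b => hc _ _) (fun a => h0 _)
    have hT : Commute (x 0) (∑ a : Fin q, x a.succ) :=
      Commute.sum_right _ _ _ fun a _ => hc _ _
    have hz : (∑ a : Fin q, x a.succ) ^ (q + 1) = 0 := by
      rw [pow_succ', ih', ← mul_assoc, ← Nat.cast_comm, mul_assoc, Finset.sum_mul,
        Finset.sum_eq_zero, mul_zero]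
      intro a _
      exact coefDet_mul_prod_zero (fun a : Fin q => x a.succ) (fun a b => hc _ _)
        (fun a => h0 _) a
    rw [Fin.sum_univ_succ, coefDet_add_pow hT (h0 0), hz, zero_add, ih', List.ofFn_succ,
      List.prod_cons, Nat.factorial_succ, Nat.cast_mul, ← mul_assoc (x 0), ← Nat.cast_comm,
      mul_assoc, mul_assoc]

theorem coefDet_sum_pow_pred {A : Type} [Ring A] {q : ℕ} (x : Fin (q + 1) → A)
    (hc : ∀ a b, Commute (x a) (x b)) (h0 : ∀ a, x a * x a = 0) :
    (∑ a, x a) ^ q =
      (q.factorial : A) * ∑ c : Fin (q + 1), (List.ofFn fun b => x (c.succAbove b)).prod := by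
  induction q with
  | zero => simp
  | succ q ih =>
    have ih' := ih (fun a => x a.succ) (fun a b => hc _ _) (fun a => h0 _)
    have htop := sum_pow_sq_zero (fun a : Fin (q + 1) => x a.succ) (fun a b => hc _ _)
      (fun a => h0 _)
    have hT : Commute (x 0) (∑ a : Fin (q + 1), x a.succ) :=
      Commute.sum_right _ _ _ fun a _ => hc _ _
    rw [Fin.sum_univ_succ (n := q + 1), coefDet_add_pow hT (h0 0), htop, ih',
      Fin.sum_univ_succ (n := q + 1), mul_add]
    refine congrArg₂ (· + ·) (by simp only [Fin.succAbove_zero]) ?_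
    rw [Nat.factorial_succ, Nat.cast_mul, ← mul_assoc (x 0), ← Nat.cast_comm, mul_assoc,
      mul_assoc, Finset.mul_sum]
    refine congrArg _ (congrArg _ (Finset.sum_congr rfl fun j _ => ?_))
    rw [List.ofFn_succ (f := fun c => x (j.succ.succAbove c)), List.prod_cons]
    simp only [Fin.succ_succAbove_zero, Fin.succ_succAbove_succ]

/-- One factor times the power of one degree less. -/
theorem mul_sum_pow_sq_zero {A : Type} [Ring A] {q : ℕ} (x : Fin (q + 1) → A)
    (hc : ∀ a b, Commute (x a) (x b)) (h0 : ∀ a, x a * x a = 0) (a : Fin (q + 1)) :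
    x a * (∑ a, x a) ^ q = (q.factorial : A) * (List.ofFn x).prod := by
  rw [coefDet_sum_pow_pred x hc h0, ← mul_assoc, ← Nat.cast_comm, mul_assoc, Finset.mul_sum,
    Finset.sum_eq_single a, coefDet_mul_prod_succAbove x hc a]
  · intro c _ hca
    obtain ⟨b, hb⟩ := Fin.exists_succAbove_eq (Ne.symm hca)
    rw [← hb]
    exact coefDet_mul_prod_zero (fun b => x (c.succAbove b)) (fun a b => hc _ _)
      (fun a => h0 _) b
  · intro h
    exact absurd (Finset.mem_univ a) h

/-- The power of one degree less. -/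
theorem sum_pow_pred_sq_zero {A : Type} [Ring A] {q : ℕ} (x : Fin (q + 1) → A)
    (hc : ∀ a b, Commute (x a) (x b)) (h0 : ∀ a, x a * x a = 0) :
    (∑ a, x a) ^ q = (q.factorial : A) * ∑ c : Fin (q + 1), (List.ofFn fun b => x (c.succAbove b)).prod := by
  exact coefDet_sum_pow_pred x hc h0

end Pool.Agent.Lib.MP_b7c8b0_gt
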