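import Pool.Agent.Lib.MP_b7c8b0_gt.DegInt
import Pool.Agent.Lib.MP_b7c8b0_gt.CoefDet

open scoped ContDiff Topology ComplexConjugate
open Filter MeasureTheory Matrix

noncomputable section

namespace Pool.Agent.Lib.MP_b7c8b0_gt

section Algebra

variable {R : Type} [CommRing R] {q : ℕ}

theorem cube_der_prod {α : Type} [DecidableEq α] (D : R →+ R)
    (hmul : ∀ a b, D (a * b) = D a * b + a * D b) (g : α → R) (s : Finset α) :
    D (∏ k ∈ s, g k) = ∑ k ∈ s, D (g k) * ∏ k' ∈ s.erase k, g k' := by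
  induction s using Finset.induction_on with
  | empty =>
    have h := hmul 1 1
    simp only [mul_one, one_mul] at h
    simpa using h
  | insert a s ha ih =>
    rw [Finset.prod_insert ha, hmul, ih, Finset.sum_insert ha, Finset.erase_insert ha,
      Finset.mul_sum]
    congr 1
    refine Finset.sum_congr rfl fun k hk => ?_
    have hne : a ≠ k := fun e => ha (e ▸ hk)
    rw [Finset.erase_insert_of_ne hne,
      Finset.prod_insert (fun h => ha (Finset.mem_of_mem_erase h))]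
    ring

/-- The determinant with first row `r` and the other rows `M`. -/
def cubeN (M : Fin q → Fin (q + 1) → R) (r : Fin (q + 1) → R) : R :=
  (Matrix.of (Fin.cons r M : Fin (q + 1) → Fin (q + 1) → R)).det

theorem cubeN_expand (M : Fin q → Fin (q + 1) → R) (r : Fin (q + 1) → R) :
    cubeN M r = ∑ j : Fin (q + 1),
      (-1) ^ (j : ℕ) * r j * (Matrix.of fun k l => M k (j.succAbove l)).det := by
  unfold cubeN
  rw [Matrix.det_succ_row_zero]
  rfl

theorem cubeN_single (M : Fin q → Fin (q + 1) → R) (j : Fin (q + 1)) :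
    cubeN M (Pi.single j 1) =
      (-1) ^ (j : ℕ) * (Matrix.of fun k l => M k (j.succAbove l)).det := by
  rw [cubeN_expand, Finset.sum_eq_single j]
  · simp
  · intro i _ hi
    simp [Pi.single_eq_of_ne hi]
  · simp

theorem cubeN_row (M : Fin q → Fin (q + 1) → R) (k : Fin q) : cubeN M (M k) = 0 := by
  unfold cubeN
  exact Matrix.det_zero_of_row_eq (Fin.succ_ne_zero k).symm rfl

theorem cubeN_dep (M : Fin q → Fin (q + 1) → R) (c : Fin q → R) :
    ∑ j, (∑ k, c k * M k j) * cubeN M (Pi.single j 1) = 0 := by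
  have h : ∀ k, ∑ j, M k j * cubeN M (Pi.single j 1) = 0 := by
    intro k
    rw [← cubeN_row M k, cubeN_expand]
    refine Finset.sum_congr rfl fun j _ => ?_
    rw [cubeN_single]
    ring
  simp_rw [Finset.sum_mul]
  rw [Finset.sum_comm]
  refine Finset.sum_eq_zero fun k _ => ?_
  simp_rw [mul_assoc]
  rw [← Finset.mul_sum, h, mul_zero]

theorem cubeN_perm (M : Fin q → Fin (q + 1) → R) (r : Fin (q + 1) → R) :
    cubeN M r = ∑ σ : Equiv.Perm (Fin (q + 1)),
      ((Equiv.Perm.sign σ : ℤˣ) : ℤ) • (r (σ 0) * ∏ k, M k (σ k.succ)) := by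
  unfold cubeN
  rw [← Matrix.det_transpose, Matrix.det_apply]
  refine Finset.sum_congr rfl fun σ _ => ?_
  rw [Fin.prod_univ_succ, Units.smul_def]
  rfl

/-- The Piola identity. -/
theorem cube_piola (D : Fin (q + 1) → R →+ R)
    (hmul : ∀ i a b, D i (a * b) = D i a * b + a * D i b)
    (hc : ∀ i j a, D i (D j a) = D j (D i a)) (f : Fin q → R) :
    ∑ j, D j (cubeN (fun k l => D l (f k)) (Pi.single j 1)) = 0 := by
  have h1 : ∀ j, D j (cubeN (fun k l => D l (f k)) (Pi.single j 1)) =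
      ∑ σ : Equiv.Perm (Fin (q + 1)), if σ 0 = j then
        ((Equiv.Perm.sign σ : ℤˣ) : ℤ) • D (σ 0) (∏ k, D (σ k.succ) (f k)) else 0 := by
    intro j
    rw [cubeN_perm, map_sum]
    refine Finset.sum_congr rfl fun σ _ => ?_
    rw [map_zsmul]
    split_ifs with h
    · rw [h, Pi.single_eq_same, one_mul]
    · rw [Pi.single_eq_of_ne h, zero_mul, map_zero, smul_zero]
  simp_rw [h1]
  rw [Finset.sum_comm]
  simp only [Finset.sum_ite_eq, Finset.mem_univ, if_true]
  simp_rw [cube_der_prod _ (hmul _), Finset.smul_sum]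
  rw [Finset.sum_comm]
  refine Finset.sum_eq_zero fun k _ => ?_
  refine Finset.sum_involution (fun σ _ => σ * Equiv.swap 0 k.succ) ?_ ?_
    (fun _ _ => Finset.mem_univ _) ?_
  · intro σ _
    have e1 : (σ * Equiv.swap 0 k.succ) 0 = σ k.succ := by simp
    have e2 : (σ * Equiv.swap 0 k.succ) k.succ = σ 0 := by simp
    have e3 : ∏ k' ∈ Finset.univ.erase k, D ((σ * Equiv.swap 0 k.succ) k'.succ) (f k') =
        ∏ k' ∈ Finset.univ.erase k, D (σ k'.succ) (f k') := by
      refine Finset.prod_congr rfl fun k' hk' => ?_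
      have hne : k' ≠ k := (Finset.mem_erase.1 hk').1
      rw [Equiv.Perm.mul_apply, Equiv.swap_apply_of_ne_of_ne (Fin.succ_ne_zero k')
        (fun e => hne (Fin.succ_injective _ e))]
    rw [e1, e2, e3, Equiv.Perm.sign_mul, Equiv.Perm.sign_swap (Fin.succ_ne_zero k).symm,
      hc (σ k.succ) (σ 0)]
    simp
  · intro σ _ _ e
    have e1 : (σ * Equiv.swap 0 k.succ) 0 = σ k.succ := by simp
    rw [e] at e1
    exact Fin.succ_ne_zero k (σ.injective e1).symm
  · intro σ _
    simp [mul_assoc]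

theorem cube_closed (D : Fin (q + 1) → R →+ R)
    (hmul : ∀ i a b, D i (a * b) = D i a * b + a * D i b)
    (hc : ∀ i j a, D i (D j a) = D j (D i a)) (f : Fin q → R) (g : R) (c : Fin q → R)
    (hg : ∀ j, D j g = ∑ k, c k * D j (f k)) :
    ∑ j, D j (g * cubeN (fun k l => D l (f k)) (Pi.single j 1)) = 0 := by
  simp_rw [hmul, hg]
  rw [Finset.sum_add_distrib, cubeN_dep (fun k l => D l (f k)) c, ← Finset.mul_sum,
    cube_piola D hmul hc f]
  simp

end Algebra

/-- Smooth real functions. -/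
def cubeS (n : ℕ) : Subalgebra ℝ ((Fin n → ℝ) → ℝ) where
  carrier := {f | ContDiff ℝ ∞ f}
  mul_mem' := fun {a b} (ha : ContDiff ℝ ∞ a) (hb : ContDiff ℝ ∞ b) =>
    show ContDiff ℝ ∞ (fun x => a x * b x) from ha.mul hb
  add_mem' := fun {a b} (ha : ContDiff ℝ ∞ a) (hb : ContDiff ℝ ∞ b) =>
    show ContDiff ℝ ∞ (fun x => a x + b x) from ha.add hb
  algebraMap_mem' := fun c => show ContDiff ℝ ∞ (fun _ : Fin n → ℝ => c) from contDiff_const

theorem cubeS_smooth {n : ℕ} (f : cubeS n) : ContDiff ℝ ∞ (f : (Fin n → ℝ) → ℝ) := f.2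

theorem cubeS_diff {n : ℕ} (f : cubeS n) (x : Fin n → ℝ) :
    DifferentiableAt ℝ (f : (Fin n → ℝ) → ℝ) x :=
  ((cubeS_smooth f).differentiable (by simp)) x

/-- The derivative in a coordinate direction. -/
def cubeD {n : ℕ} (i : Fin n) : cubeS n →+ cubeS n where
  toFun f := ⟨fun x => fderiv ℝ (f : (Fin n → ℝ) → ℝ) x (Pi.single i 1),
    ((cubeS_smooth f).fderiv_right (m := ∞) (by simp)).clm_apply contDiff_const⟩
  map_zero' := by
    ext x
    change fderiv ℝ (0 : (Fin n → ℝ) → ℝ) x _ = 0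
    simp
  map_add' f g := by
    ext x
    change fderiv ℝ ((f : (Fin n → ℝ) → ℝ) + (g : (Fin n → ℝ) → ℝ)) x _ =
      fderiv ℝ (f : (Fin n → ℝ) → ℝ) x _ + fderiv ℝ (g : (Fin n → ℝ) → ℝ) x _
    rw [fderiv_add (cubeS_diff f x) (cubeS_diff g x)]
    rfl

theorem cubeD_apply {n : ℕ} (i : Fin n) (f : cubeS n) (x : Fin n → ℝ) :
    (cubeD i f).1 x = fderiv ℝ (f : (Fin n → ℝ) → ℝ) x (Pi.single i 1) := rfl

theorem cubeD_mul {n : ℕ} (i : Fin n) (f g : cubeS n) :
    cubeD i (f * g) = cubeD i f * g + f * cubeD i g := by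
  ext x
  change fderiv ℝ ((f : (Fin n → ℝ) → ℝ) * (g : (Fin n → ℝ) → ℝ)) x _ =
    fderiv ℝ (f : (Fin n → ℝ) → ℝ) x _ * g.1 x + f.1 x * fderiv ℝ (g : (Fin n → ℝ) → ℝ) x _
  rw [fderiv_mul (cubeS_diff f x) (cubeS_diff g x)]
  simp only [_root_.add_apply, _root_.smul_apply, smul_eq_mul]
  ring

theorem cubeD_comm {n : ℕ} (i j : Fin n) (f : cubeS n) :
    cubeD i (cubeD j f) = cubeD j (cubeD i f) := by
  ext x
  have hd : DifferentiableAt ℝ (fderiv ℝ (f : (Fin n → ℝ) → ℝ)) x :=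
    (((cubeS_smooth f).fderiv_right (m := ∞) (by simp)).differentiable (by simp)) x
  have h : ∀ v w : Fin n → ℝ,
      fderiv ℝ (fun y => fderiv ℝ (f : (Fin n → ℝ) → ℝ) y v) x w =
        fderiv ℝ (fderiv ℝ (f : (Fin n → ℝ) → ℝ)) x w v := by
    intro v w
    rw [fderiv_clm_apply hd (differentiableAt_const v)]
    simp
  have hs : IsSymmSndFDerivAt ℝ (f : (Fin n → ℝ) → ℝ) x :=
    (cubeS_smooth f).contDiffAt.isSymmSndFDerivAt (by
      rw [minSmoothness_of_isRCLikeNormedField]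
      exact WithTop.coe_le_coe.2 le_top)
  change fderiv ℝ (fun y => fderiv ℝ (f : (Fin n → ℝ) → ℝ) y (Pi.single j 1)) x (Pi.single i 1) =
    fderiv ℝ (fun y => fderiv ℝ (f : (Fin n → ℝ) → ℝ) y (Pi.single i 1)) x (Pi.single j 1)
  rw [h, h, hs.eq]

/-- Evaluation at a point. -/
def cubeEv {n : ℕ} (x : Fin n → ℝ) : cubeS n →+* ℝ :=
  (Pi.evalRingHom (fun _ : Fin n → ℝ => ℝ) x).comp (cubeS n).val.toRingHom

theorem cubeEv_apply {n : ℕ} (x : Fin n → ℝ) (f : cubeS n) : cubeEv x f = f.1 x := rfl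

variable {q : ℕ}

/-- The linear part of the insertion of a coordinate. -/
def cubeIns (j : Fin (q + 1)) : (Fin q → ℝ) →L[ℝ] (Fin (q + 1) → ℝ) :=
  LinearMap.toContinuousLinearMap
    { toFun := fun v => Fin.insertNth (α := fun _ => ℝ) j 0 v
      map_add' := fun v w => by
        ext i
        refine Fin.succAboveCases j ?_ (fun l => ?_) i <;> simp
      map_smul' := fun c v => by
        ext i
        refine Fin.succAboveCases j ?_ (fun l => ?_) i <;> simp }

theorem cubeIns_apply (j : Fin (q + 1)) (v : Fin q → ℝ) :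
    cubeIns j v = Fin.insertNth (α := fun _ => ℝ) j 0 v := rfl

theorem cubeIns_single (j : Fin (q + 1)) (l : Fin q) :
    cubeIns j (Pi.single l 1) = Pi.single (j.succAbove l) 1 := by
  ext i
  rw [cubeIns_apply]
  refine Fin.succAboveCases j ?_ (fun l' => ?_) i
  · simp
  · simp [Pi.single_apply]

theorem cube_ins_eq (j : Fin (q + 1)) (c : ℝ) :
    (fun v : Fin q → ℝ => Fin.insertNth (α := fun _ => ℝ) j c v) =
      fun v => cubeIns j v + Pi.single j c := by
  ext v i
  rw [Pi.add_apply, cubeIns_apply]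
  refine Fin.succAboveCases j ?_ (fun l' => ?_) i
  · simp
  · simp

theorem cube_ins_smooth (j : Fin (q + 1)) (c : ℝ) :
    ContDiff ℝ ∞ (fun v : Fin q → ℝ => Fin.insertNth (α := fun _ => ℝ) j c v) := by
  rw [cube_ins_eq]
  exact (cubeIns j).contDiff.add contDiff_const

theorem cube_ins_fderiv {Θ : (Fin (q + 1) → ℝ) → (Fin q → ℝ)} (hΘ : ContDiff ℝ ∞ Θ)
    (j : Fin (q + 1)) (c : ℝ) (y : Fin q → ℝ) :
    fderiv ℝ (fun v => Θ (Fin.insertNth (α := fun _ => ℝ) j c v)) y =
      (fderiv ℝ Θ (Fin.insertNth (α := fun _ => ℝ) j c y)).comp (cubeIns j) := by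
  have h1 : HasFDerivAt (fun v : Fin q → ℝ => Fin.insertNth (α := fun _ => ℝ) j c v)
      (cubeIns j) y := by
    rw [cube_ins_eq]
    exact (cubeIns j).hasFDerivAt.add_const _
  exact (((hΘ.differentiable (by simp)) _).hasFDerivAt.comp y h1).fderiv

/-- Stokes formula for the pulled back top form. -/
theorem cube_stokes (a b : Fin (q + 1) → ℝ) (hab : a ≤ b)
    {Θ : (Fin (q + 1) → ℝ) → (Fin q → ℝ)} (hΘ : ContDiff ℝ ∞ Θ)
    {φ : (Fin q → ℝ) → ℝ} (hφ : ContDiff ℝ ∞ φ) :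
    ∑ j : Fin (q + 1), (-1) ^ (j : ℕ) *
      ((∫ y in Set.Icc (a ∘ j.succAbove) (b ∘ j.succAbove),
        φ (Θ (Fin.insertNth (α := fun _ => ℝ) j (b j) y)) *
          (fderiv ℝ (fun v => Θ (Fin.insertNth (α := fun _ => ℝ) j (b j) v)) y).det) -
      ∫ y in Set.Icc (a ∘ j.succAbove) (b ∘ j.succAbove),
        φ (Θ (Fin.insertNth (α := fun _ => ℝ) j (a j) y)) *
          (fderiv ℝ (fun v => Θ (Fin.insertNth (α := fun _ => ℝ) j (a j) v)) y).det) = 0 := by
  have hΘd : ∀ x, DifferentiableAt ℝ Θ x := hΘ.differentiable (by simp)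
  let f : Fin q → cubeS (q + 1) := fun k => ⟨fun x => Θ x k, contDiff_pi.1 hΘ k⟩
  let g : cubeS (q + 1) := ⟨fun x => φ (Θ x), hφ.comp hΘ⟩
  let c : Fin q → cubeS (q + 1) := fun k => ⟨fun x => fderiv ℝ φ (Θ x) (Pi.single k 1),
    ((hφ.fderiv_right (m := ∞) (by simp)).comp hΘ).clm_apply contDiff_const⟩
  have hf : ∀ k l x, (cubeD l (f k)).1 x = fderiv ℝ Θ x (Pi.single l 1) k := by
    intro k l x
    rw [cubeD_apply]
    have h := ((ContinuousLinearMap.proj (R := ℝ) (φ := fun _ : Fin q => ℝ) k).hasFDerivAt.comp x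
      (hΘd x).hasFDerivAt).fderiv
    exact congrArg (fun A : (Fin (q + 1) → ℝ) →L[ℝ] ℝ => A (Pi.single l 1)) h
  have hg : ∀ j, cubeD j g = ∑ k, c k * cubeD j (f k) := by
    intro j
    ext x
    have h := (((hφ.differentiable (by simp)) (Θ x)).hasFDerivAt.comp x
      (hΘd x).hasFDerivAt).fderiv
    have h2 : (cubeD j g).1 x = fderiv ℝ φ (Θ x) (fderiv ℝ Θ x (Pi.single j 1)) :=
      congrArg (fun A : (Fin (q + 1) → ℝ) →L[ℝ] ℝ => A (Pi.single j 1)) h
    rw [h2, ← cubeEv_apply, map_sum]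
    conv_lhs => rw [← Finset.univ_sum_single (fderiv ℝ Θ x (Pi.single j 1)), map_sum]
    refine Finset.sum_congr rfl fun k _ => ?_
    rw [map_mul, cubeEv_apply, cubeEv_apply, hf]
    have e : (Pi.single k (fderiv ℝ Θ x (Pi.single j 1) k) : Fin q → ℝ) =
        fderiv ℝ Θ x (Pi.single j 1) k • (Pi.single k 1 : Fin q → ℝ) := by
      rw [← Pi.single_smul, smul_eq_mul, mul_one]
    rw [e, map_smul, smul_eq_mul, mul_comm]
  have hcl := cube_closed cubeD cubeD_mul cubeD_comm f g c hg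
  set F : Fin (q + 1) → cubeS (q + 1) :=
    fun j => g * cubeN (fun k l => cubeD l (f k)) (Pi.single j 1) with hF
  have hzero : ∀ x, ∑ j, fderiv ℝ (F j).1 x (Pi.single j 1) = 0 := by
    intro x
    have h := congrArg (cubeEv x) hcl
    rw [map_sum, map_zero] at h
    exact h
  have hdiv := integral_divergence_of_hasFDerivAt_off_countable' a b hab (fun j => (F j).1)
    (fun j x => fderiv ℝ (F j).1 x) ∅ Set.countable_empty
    (fun j => (cubeS_smooth (F j)).continuous.continuousOn)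
    (fun x _ j => (cubeS_diff (F j) x).hasFDerivAt) (by simp_rw [hzero]; simp)
  simp_rw [hzero] at hdiv
  have hval : ∀ (j : Fin (q + 1)) (t : ℝ) (y : Fin q → ℝ),
      (F j).1 (Fin.insertNth (α := fun _ => ℝ) j t y) = (-1) ^ (j : ℕ) *
        (φ (Θ (Fin.insertNth (α := fun _ => ℝ) j t y)) *
          (fderiv ℝ (fun v => Θ (Fin.insertNth (α := fun _ => ℝ) j t v)) y).det) := by
    intro j t y
    rw [← cubeEv_apply, hF]
    simp only
    rw [cubeN_single, map_mul, map_mul, map_pow, map_neg, map_one, RingHom.map_det,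
      cube_ins_fderiv hΘ, ContinuousLinearMap.det, ← LinearMap.det_toMatrix', cubeEv_apply]
    have e : (cubeEv (Fin.insertNth (α := fun _ => ℝ) j t y)).mapMatrix
        (Matrix.of fun k l => cubeD (j.succAbove l) (f k)) =
        LinearMap.toMatrix' ((fderiv ℝ Θ (Fin.insertNth (α := fun _ => ℝ) j t y)).comp
          (cubeIns j) : (Fin q → ℝ) →ₗ[ℝ] (Fin q → ℝ)) := by
      ext k l
      rw [LinearMap.toMatrix'_apply, RingHom.mapMatrix_apply, Matrix.map_apply, Matrix.of_apply,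
        cubeEv_apply, hf, ← cubeIns_single]
      rfl
    rw [e]
    change φ (Θ _) * _ = _
    ring
  simp_rw [hval, integral_const_mul, ← mul_sub] at hdiv
  rw [← hdiv]
  simp

theorem cube_fin (a b : Fin (q + 1) → ℝ) (hab : ∀ i, a i < b i)
    (Θ : (Fin (q + 1) → ℝ) → (Fin q → ℝ)) (hΘ : ContDiff ℝ ∞ Θ)
    (hZ : ∀ x ∈ Set.Icc a b, Θ x = 0 → ∀ j, (x j = a j ∨ x j = b j) →
      (∀ i, i ≠ j → a i < x i ∧ x i < b i) ∧ ∀ v, v j = 0 → fderiv ℝ Θ x v = 0 → v = 0) :
    {x | x ∈ Set.Icc a b ∧ Θ x = 0 ∧ ∃ j, x j = a j ∨ x j = b j}.Finite ∧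
      Even {x | x ∈ Set.Icc a b ∧ Θ x = 0 ∧ ∃ j, x j = a j ∨ x j = b j}.ncard := by
  let c : Fin (q + 1) × Bool → ℝ := fun p => if p.2 then b p.1 else a p.1
  have hc : ∀ p, c p = a p.1 ∨ c p = b p.1 := by
    rintro ⟨j, s⟩
    cases s <;> simp [c]
  have hcI : ∀ p, c p ∈ Set.Icc (a p.1) (b p.1) := by
    intro p
    rcases hc p with e | e <;> rw [e]
    · exact ⟨le_rfl, (hab _).le⟩
    · exact ⟨(hab _).le, le_rfl⟩
  let ins : Fin (q + 1) × Bool → (Fin q → ℝ) → (Fin (q + 1) → ℝ) :=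
    fun p v => Fin.insertNth (α := fun _ => ℝ) p.1 (c p) v
  have hmem : ∀ p, ∀ y ∈ Set.Icc (a ∘ p.1.succAbove) (b ∘ p.1.succAbove),
      ins p y ∈ Set.Icc a b := fun p y hy => Fin.insertNth_mem_Icc.2 ⟨hcI p, hy⟩
  have hsame : ∀ p y, ins p y p.1 = c p := fun p y => Fin.insertNth_apply_same _ _ _
  have hsucc : ∀ p y l, ins p y (p.1.succAbove l) = y l :=
    fun p y l => Fin.insertNth_apply_succAbove _ _ _ _
  have hdeg := fun p : Fin (q + 1) × Bool =>
    deg_int (a ∘ p.1.succAbove) (b ∘ p.1.succAbove) (fun v => Θ (ins p v))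
      ((hΘ.comp (cube_ins_smooth p.1 (c p))).of_le (by simp)) (by
        intro y hy h0
        obtain ⟨h1, h2⟩ := hZ _ (hmem p y hy) h0 p.1 (by rw [hsame]; exact hc p)
        refine ⟨fun l => ?_, ?_⟩
        · have h3 := h1 (p.1.succAbove l) (Fin.succAbove_ne _ _)
          rwa [hsucc] at h3
        · intro h3
          rw [ContinuousLinearMap.det, LinearMap.det_eq_zero_iff_ker_ne_bot] at h3
          apply h3
          rw [LinearMap.ker_eq_bot']
          intro v hv
          have h4 : fderiv ℝ Θ (ins p y) (cubeIns p.1 v) = 0 := by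
            have h5 := cube_ins_fderiv hΘ p.1 (c p) y
            have h6 : fderiv ℝ (fun v => Θ (ins p v)) y v = 0 := hv
            rw [h5] at h6
            exact h6
          have h7 := h2 _ (by rw [cubeIns_apply]; simp) h4
          ext l
          have h8 := congrFun h7 (p.1.succAbove l)
          rw [cubeIns_apply] at h8
          simpa using h8)
  set Z : Fin (q + 1) × Bool → Set (Fin q → ℝ) := fun p =>
    {y | y ∈ Set.Icc (a ∘ p.1.succAbove) (b ∘ p.1.succAbove) ∧ Θ (ins p y) = 0} with hZdef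
  have hfin : ∀ p, (Z p).Finite := fun p => (hdeg p).1
  choose ε hε d hd hint using fun p => (hdeg p).2
  have hinj : ∀ p, Function.Injective (ins p) := by
    intro p y y' e
    ext l
    rw [← hsucc p y l, e, hsucc]
  have hU : {x | x ∈ Set.Icc a b ∧ Θ x = 0 ∧ ∃ j, x j = a j ∨ x j = b j} =
      ⋃ p, ins p '' Z p := by
    ext x
    simp only [Set.mem_ofPred_eq, Set.mem_iUnion, Set.mem_image]
    constructor
    · rintro ⟨h1, h2, j, h3⟩
      obtain ⟨s, hs⟩ : ∃ s : Bool, x j = c (j, s) := by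
        rcases h3 with e | e
        · exact ⟨false, by simpa [c] using e⟩
        · exact ⟨true, by simpa [c] using e⟩
      have e : ins (j, s) (fun l => x (j.succAbove l)) = x := by
        ext i
        refine Fin.succAboveCases j ?_ (fun l => ?_) i
        · exact (hsame (j, s) _).trans hs.symm
        · exact hsucc (j, s) _ l
      refine ⟨(j, s), fun l => x (j.succAbove l), ⟨⟨fun l => h1.1 _, fun l => h1.2 _⟩, ?_⟩, e⟩
      rw [e, h2]
    · rintro ⟨p, y, ⟨h1, h2⟩, rfl⟩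
      exact ⟨hmem p y h1, h2, p.1, by rw [hsame]; exact hc p⟩
  have hdisj : Pairwise (Function.onFun Disjoint fun p => ins p '' Z p) := by
    intro p p' hne
    rw [Function.onFun, Set.disjoint_left]
    rintro x ⟨y, ⟨h1, h2⟩, rfl⟩ ⟨y', -, e⟩
    obtain ⟨h3, -⟩ := hZ _ (hmem p y h1) h2 p.1 (by rw [hsame]; exact hc p)
    have h4 : ins p y p'.1 = c p' := by rw [← e, hsame]
    by_cases hj : p'.1 = p.1
    · obtain ⟨j, s⟩ := p
      obtain ⟨j', s'⟩ := p'
      simp only at hj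
      subst hj
      have h5 := hsame (j', s) y
      rw [h4] at h5
      have h6 := hab j'
      cases s <;> cases s' <;> simp [c] at h5 hne <;> linarith
    · have h5 := h3 _ hj
      rw [h4] at h5
      rcases hc p' with e' | e' <;> rw [e'] at h5 <;> linarith [h5.1, h5.2]
  rw [hU]
  refine ⟨Set.finite_iUnion fun p => (hfin p).image _, ?_⟩
  rw [Set.ncard_iUnion_of_finite (fun p => (hfin p).image _) hdisj, finsum_eq_sum_of_fintype]
  simp_rw [Set.ncard_image_of_injective _ (hinj _)]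
  obtain ⟨p₀, -, hp₀⟩ := Finset.exists_min_image Finset.univ ε Finset.univ_nonempty
  let φ : ContDiffBump (0 : Fin q → ℝ) := ⟨ε p₀ / 2, ε p₀, by linarith [hε p₀], by linarith [hε p₀]⟩
  have hI : 0 < ∫ w, φ w := φ.integral_pos
  have hint' := fun p => hint p φ φ.continuous (fun w hw => φ.zero_of_le_dist (by
    rw [dist_zero_right]
    exact (hp₀ p (Finset.mem_univ _)).trans hw))
  have hst := cube_stokes a b (fun i => (hab i).le) hΘ (φ.contDiff (n := ⊤))
  have hst2 : (∑ j : Fin (q + 1), (-1 : ℝ) ^ (j : ℕ) * ((d (j, true) : ℝ) - d (j, false))) *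
      ∫ w, φ w = 0 := by
    rw [← hst, Finset.sum_mul]
    refine Finset.sum_congr rfl fun j _ => ?_
    rw [mul_assoc, sub_mul, ← hint' (j, true), ← hint' (j, false)]
    rfl
  have hst3 : ∑ j : Fin (q + 1), (-1 : ℤ) ^ (j : ℕ) * (d (j, true) - d (j, false)) = 0 := by
    have h := (mul_eq_zero.1 hst2).resolve_right hI.ne'
    exact_mod_cast h
  rw [← ZMod.natCast_eq_zero_iff_even]
  have h2 := congrArg (Int.cast : ℤ → ZMod 2) hst3
  push_cast at h2 ⊢
  rw [← h2, Fintype.sum_prod_type]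
  refine Finset.sum_congr rfl fun j _ => ?_
  have h3 : ∀ p, ((d p : ℤ) : ZMod 2) = ((Z p).ncard : ZMod 2) := by
    intro p
    have h := (ZMod.intCast_eq_intCast_iff _ _ 2).2 (hd p)
    rwa [Int.cast_natCast] at h
  rw [h3, h3, Fintype.sum_bool, CharTwo.neg_eq, one_pow, one_mul, CharTwo.sub_eq_add]

/-- The number of zeros on the boundary of a box of a map to a space of one dimension less is
even, if they lie inside faces and are regular there. -/
theorem cube_parity {ι : Type} [Fintype ι] [DecidableEq ι] {W : Type} [NormedAddCommGroup W]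
    [NormedSpace ℝ W] [FiniteDimensional ℝ W] (hW : Module.finrank ℝ W + 1 = Fintype.card ι)
    (a b : ι → ℝ) (hab : ∀ i, a i < b i) (Θ : (ι → ℝ) → W) (hΘ : ContDiff ℝ ∞ Θ)
    (hZ : ∀ x ∈ Set.Icc a b, Θ x = 0 → ∀ j, (x j = a j ∨ x j = b j) →
      (∀ i, i ≠ j → a i < x i ∧ x i < b i) ∧ ∀ v, v j = 0 → fderiv ℝ Θ x v = 0 → v = 0) :
    {x | x ∈ Set.Icc a b ∧ Θ x = 0 ∧ ∃ j, x j = a j ∨ x j = b j}.Finite ∧
      Even {x | x ∈ Set.Icc a b ∧ Θ x = 0 ∧ ∃ j, x j = a j ∨ x j = b j}.ncard := by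
  obtain ⟨q, hq⟩ : ∃ q, q = Module.finrank ℝ W := ⟨_, rfl⟩
  let e : ι ≃ Fin (q + 1) := Fintype.equivFinOfCardEq (by rw [← hW, hq])
  let T : (Fin (q + 1) → ℝ) ≃L[ℝ] (ι → ℝ) :=
    (LinearEquiv.funCongrLeft ℝ ℝ e).toContinuousLinearEquiv
  have hT : ∀ y i, T y i = y (e i) := fun _ _ => rfl
  let L : W ≃L[ℝ] (Fin q → ℝ) := ContinuousLinearEquiv.ofFinrankEq (by simp [hq])
  have hIcc : ∀ y, y ∈ Set.Icc (a ∘ e.symm) (b ∘ e.symm) ↔ T y ∈ Set.Icc a b := by
    intro y
    constructor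
    · rintro ⟨h1, h2⟩
      exact ⟨fun i => by simpa [hT] using h1 (e i), fun i => by simpa [hT] using h2 (e i)⟩
    · rintro ⟨h1, h2⟩
      exact ⟨fun i => by simpa [hT] using h1 (e.symm i), fun i => by simpa [hT] using h2 (e.symm i)⟩
  have h := cube_fin (a ∘ e.symm) (b ∘ e.symm) (fun i => hab _) (fun y => L (Θ (T y)))
    (L.contDiff.comp (hΘ.comp T.contDiff)) (by
      intro y hy h0 j hj
      obtain ⟨h1, h2⟩ := hZ (T y) ((hIcc y).1 hy) (by simpa using h0) (e.symm j)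
        (by simpa [hT] using hj)
      refine ⟨fun i hi => ?_, fun v hv h3 => ?_⟩
      · simpa [hT] using h1 (e.symm i) (fun e' => hi (e.symm.injective e'))
      · have h4 := (L.hasFDerivAt.comp y
          (((hΘ.differentiable (by simp)) (T y)).hasFDerivAt.comp y T.hasFDerivAt)).fderiv
        have h5 : L (fderiv ℝ Θ (T y) (T v)) = 0 := by
          have h6 := congrArg (fun A : (Fin (q + 1) → ℝ) →L[ℝ] (Fin q → ℝ) => A v) h4
          exact h6.symm.trans h3
        have h7 := h2 (T v) (by simpa [hT] using hv) (by simpa using h5)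
        simpa using h7)
  have hset : {x | x ∈ Set.Icc a b ∧ Θ x = 0 ∧ ∃ j, x j = a j ∨ x j = b j} =
      T '' {y | y ∈ Set.Icc (a ∘ e.symm) (b ∘ e.symm) ∧ L (Θ (T y)) = 0 ∧
        ∃ j, y j = (a ∘ e.symm) j ∨ y j = (b ∘ e.symm) j} := by
    ext x
    obtain ⟨y, rfl⟩ := T.surjective x
    rw [T.injective.mem_set_image]
    simp only [Set.mem_ofPred_eq, hIcc, map_eq_zero_iff L L.injective]
    refine and_congr_right fun _ => and_congr_right fun _ => ⟨?_, ?_⟩
    · rintro ⟨j, hj⟩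
      exact ⟨e j, by simpa [hT] using hj⟩
    · rintro ⟨j, hj⟩
      exact ⟨e.symm j, by simpa [hT] using hj⟩
  rw [hset, Set.ncard_image_of_injective _ T.injective]
  exact ⟨h.1.image _, h.2⟩

end Pool.Agent.Lib.MP_b7c8b0_gt
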