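import Mathlib

/-!
Prelegendrian embeddings of spheres in the standard fat distribution on complex (2n+1)-space.
-/

open scoped Manifold ContDiff

namespace Pool.Agent.Lib.MP_b7c8b0_gt

/-- Complex (2n+1)-space with coordinates `(x, y, z)`, as a real normed space. -/
abbrev Amb (n : ℕ) : Type := (Fin n → ℂ) × (Fin n → ℂ) × ℂ

/-- The complex 1-form `dz - ∑ y_j dx_j` at the point `p = (x, y, z)`, as a real-linear map. -/
noncomputable def alpha {n : ℕ} (p : Amb n) : Amb n →ₗ[ℝ] ℂ where
  toFun v := v.2.2 - ∑ j, p.2.1 j * v.1 j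
  map_add' v w := by
    simp only [Prod.snd_add, Prod.fst_add, Pi.add_apply, mul_add, Finset.sum_add_distrib]; ring
  map_smul' c v := by
    simp only [Prod.smul_snd, Prod.smul_fst, Pi.smul_apply, RingHom.id_apply, smul_sub,
      Finset.smul_sum, mul_smul_comm]

/-- The standard fat distribution at `p`: the kernel of `dz - ∑ y_j dx_j`. -/
noncomputable def Dstd {n : ℕ} (p : Amb n) : Submodule ℝ (Amb n) := LinearMap.ker (alpha p)

/-- The unit sphere of dimension `2n+1` in Euclidean `(2n+2)`-space. -/
abbrev Sph (n : ℕ) : Type := Metric.sphere (0 : EuclideanSpace ℝ (Fin (2 * n + 1 + 1))) 1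

/-- The differential at `p` of a map from the sphere to complex (2n+1)-space. -/
noncomputable def dMap {n : ℕ} (f : Sph n → Amb n) (p : Sph n) :
    EuclideanSpace ℝ (Fin (2 * n + 1)) →L[ℝ] Amb n :=
  mfderiv (modelWithCornersSelf ℝ (EuclideanSpace ℝ (Fin (2 * n + 1))))
    (modelWithCornersSelf ℝ (Amb n)) f p

/-- `f` is a smooth embedding (smooth, topological embedding, injective differential) of the
`(2n+1)`-sphere whose image is preisotropic: at every point the sum of the tangent space and the
distribution has real codimension 1. The dimension `2n+1` makes it prelegendrian. -/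
structure IsPrelegendrianEmbedding (n : ℕ) (f : Sph n → Amb n) : Prop where
  smooth : ContMDiff (modelWithCornersSelf ℝ (EuclideanSpace ℝ (Fin (2 * n + 1))))
    (modelWithCornersSelf ℝ (Amb n)) ∞ f
  embedding : Topology.IsEmbedding f
  immersion : ∀ p, Function.Injective (dMap f p)
  corank : ∀ p, Module.finrank ℝ
    ((LinearMap.range (dMap f p).toLinearMap ⊔ Dstd (f p) : Submodule ℝ (Amb n))) + 1
      = Module.finrank ℝ (Amb n)

end Pool.Agent.Lib.MP_b7c8b0_gt
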