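import Pool.Agent.Lib.MP_b7c8b0_gt.FDefs

open scoped ContDiff Topology ComplexConjugate
open Filter MeasureTheory Matrix

noncomputable section

namespace Pool.Agent.Lib.MP_b7c8b0_gt

variable {E V : Type} [NormedAddCommGroup E] [NormedSpace ℝ E] [FiniteDimensional ℝ E]
  [NormedAddCommGroup V] [NormedSpace ℝ V] [FiniteDimensional ℝ V]

/-- Sard's lemma in equal dimensions: the critical values have dense complement. -/
theorem sard_null [MeasurableSpace V] [BorelSpace V] (μ : Measure V) [μ.IsAddHaarMeasure]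
    (hd : Module.finrank ℝ E = Module.finrank ℝ V) {U : Set E} (hU : IsOpen U) {f : E → V}
    (hf : ContDiffOn ℝ 1 f U) :
    μ (f '' {p | p ∈ U ∧ ¬ Function.Injective (fderiv ℝ f p)}) = 0 := by
  let L : V ≃L[ℝ] E := ContinuousLinearEquiv.ofFinrankEq hd.symm
  have h1 : f '' {p | p ∈ U ∧ ¬ Function.Injective (fderiv ℝ f p)} =
      (f ∘ L) '' (L ⁻¹' {p | p ∈ U ∧ ¬ Function.Injective (fderiv ℝ f p)}) := by
    rw [Set.image_comp, Set.image_preimage_eq _ L.surjective]
  rw [h1]
  refine addHaar_image_eq_zero_of_det_fderivWithin_eq_zero μ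
    (f' := fun x => (fderiv ℝ f (L x)).comp (L : V →L[ℝ] E)) ?_ ?_
  · intro x hx
    have h2 : DifferentiableAt ℝ f (L x) :=
      (hf.differentiableOn one_ne_zero).differentiableAt (hU.mem_nhds hx.1)
    exact (h2.hasFDerivAt.comp x L.hasFDerivAt).hasFDerivWithinAt
  · intro x hx
    rw [ContinuousLinearMap.det, LinearMap.det_eq_zero_iff_ker_ne_bot]
    intro h3
    rw [LinearMap.ker_eq_bot] at h3
    apply hx.2
    have h4 : Function.Injective ((fderiv ℝ f (L x)) ∘ L) := h3
    exact (Function.Injective.of_comp_iff' _ L.bijective).1 h4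

theorem sard_small (hd : Module.finrank ℝ E = Module.finrank ℝ V) {U : Set E} (hU : IsOpen U)
    {f : E → V} (hf : ContDiffOn ℝ 1 f U) {δ : ℝ} (hδ : 0 < δ) :
    ∃ η : V, ‖η‖ < δ ∧ ∀ p ∈ U, f p = η → Function.Injective (fderiv ℝ f p) := by
  let _ : MeasurableSpace V := borel V
  have : BorelSpace V := ⟨rfl⟩
  have h1 := sard_null (Measure.addHaar : Measure V) hd hU hf
  have h2 : 0 < (Measure.addHaar : Measure V) (Metric.ball 0 δ) := Metric.measure_ball_pos _ _ hδ
  have h3 : ¬ Metric.ball (0 : V) δ ⊆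
      f '' {p | p ∈ U ∧ ¬ Function.Injective (fderiv ℝ f p)} := fun h =>
    h2.ne' (measure_mono_null h h1)
  obtain ⟨η, hη, hη'⟩ := Set.not_subset.1 h3
  refine ⟨η, mem_ball_zero_iff.1 hη, fun p hp hpη => ?_⟩
  by_contra h4
  exact hη' ⟨p, ⟨hp, h4⟩, hpη⟩

/-- A smooth map from a space of smaller dimension misses a point. -/
theorem exists_not_mem_range (hd : Module.finrank ℝ E < Module.finrank ℝ V) {f : E → V}
    (hf : ContDiff ℝ 1 f) : ∃ η : V, ∀ p, f p ≠ η := by
  obtain ⟨η, hη⟩ := (hf.dense_compl_range_of_finrank_lt_finrank hd).nonempty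
  exact ⟨η, fun p hp => hη ⟨p, hp⟩⟩

theorem finite_zeros {K : Set E} (hK : IsCompact K) {f : E → V} (hf : ContDiff ℝ 1 f)
    (h : ∀ p ∈ K, f p = 0 → Function.Injective (fderiv ℝ f p)) :
    {p | p ∈ K ∧ f p = 0}.Finite := by
  have h1 : IsCompact {p | p ∈ K ∧ f p = 0} :=
    hK.inter_right (isClosed_eq hf.continuous continuous_const)
  refine h1.finite (isDiscrete_iff_nhdsNE.2 fun p hp => ?_)
  have h2 : HasFDerivAt f (fderiv ℝ f p) p := (hf.differentiable one_ne_zero p).hasFDerivAt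
  obtain ⟨C, _, hC⟩ := LinearMap.exists_antilipschitzWith (fderiv ℝ f p : E →ₗ[ℝ] V)
    (LinearMap.ker_eq_bot.2 (h p hp.1 hp.2))
  have h3 := h2.eventually_ne (c := 0) ⟨C, hC⟩
  rw [Filter.inf_principal_eq_bot]
  filter_upwards [h3] with q hq hq'
  exact hq hq'.2

/-- Parametric transversality for an affine family of perturbations. -/
theorem psard {I : Type} [Fintype I] [DecidableEq I]
    (hd : Module.finrank ℝ E = Module.finrank ℝ V + 1) (F : E → V) (σ h : E → ℝ) (ξ : I → E → ℝ)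
    (hF : ContDiff ℝ 1 F) (hσ : ContDiff ℝ 1 σ) (hh : ContDiff ℝ 1 h)
    (hξ : ∀ i, ContDiff ℝ 1 (ξ i)) :
    ∃ (M : I → V) (r : ℝ), |r| < 1 ∧ ∀ p, σ p ≠ 0 → (∃ j, ξ j p ≠ 0) →
      F p + σ p • ∑ i, ξ i p • M i = 0 → h p + σ p * r = 0 →
      Function.Injective
        (fderiv ℝ (fun q => (F q + σ q • ∑ i, ξ i q • M i, h q + σ q * r)) p) := by
  let Φ : I → E × (I → V) → (I → V) × ℝ × V := fun j x =>
    (x.2 - Pi.single j ((σ x.1 * ξ j x.1)⁻¹ • (F x.1 + σ x.1 • ∑ i, ξ i x.1 • x.2 i)),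
      -(σ x.1)⁻¹ * h x.1, x.2 j)
  let U : I → Set (E × (I → V)) := fun j => {x | σ x.1 * ξ j x.1 ≠ 0}
  have hU : ∀ j, IsOpen (U j) := fun j =>
    isOpen_ne_fun ((hσ.continuous.comp continuous_fst).mul
      ((hξ j).continuous.comp continuous_fst)) continuous_const
  have hΦ : ∀ j, ContDiffOn ℝ 1 (Φ j) (U j) := by
    intro j
    have a1 : ContDiff ℝ 1 fun x : E × (I → V) => σ x.1 := hσ.comp contDiff_fst
    have a2 : ∀ i, ContDiff ℝ 1 fun x : E × (I → V) => ξ i x.1 := fun i =>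
      (hξ i).comp contDiff_fst
    have a3 : ∀ i, ContDiff ℝ 1 fun x : E × (I → V) => x.2 i := fun i =>
      (contDiff_apply ℝ V i).comp contDiff_snd
    have a4 : ContDiff ℝ 1 fun x : E × (I → V) => F x.1 + σ x.1 • ∑ i, ξ i x.1 • x.2 i :=
      (hF.comp contDiff_fst).add (a1.smul (ContDiff.sum fun i _ => (a2 i).smul (a3 i)))
    have a5 : ContDiffOn ℝ 1 (fun x : E × (I → V) => (σ x.1 * ξ j x.1)⁻¹) (U j) :=
      (a1.mul (a2 j)).contDiffOn.inv fun x hx => hx
    have a6 : ContDiffOn ℝ 1 (fun x : E × (I → V) => (σ x.1)⁻¹) (U j) :=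
      a1.contDiffOn.inv fun x hx => left_ne_zero_of_mul hx
    have a7 := (ContinuousLinearMap.single ℝ (fun _ : I => V) j).contDiff.comp_contDiffOn
      (a5.smul a4.contDiffOn)
    exact (contDiff_snd.contDiffOn.sub a7).prodMk
      ((a6.neg.mul (hh.comp contDiff_fst).contDiffOn).prodMk (a3 j).contDiffOn)
  have hdim : Module.finrank ℝ (E × (I → V)) = Module.finrank ℝ ((I → V) × ℝ × V) := by
    rw [Module.finrank_prod, Module.finrank_prod, Module.finrank_prod, Module.finrank_self, hd]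
    ring
  let _ : MeasurableSpace ((I → V) × ℝ × V) := borel _
  have : BorelSpace ((I → V) × ℝ × V) := ⟨rfl⟩
  have h1 : (Measure.addHaar : Measure ((I → V) × ℝ × V))
      (⋃ j, Φ j '' {p | p ∈ U j ∧ ¬ Function.Injective (fderiv ℝ (Φ j) p)}) = 0 :=
    measure_iUnion_null fun j => sard_null _ hdim (hU j) (hΦ j)
  have h2 : 0 < (Measure.addHaar : Measure ((I → V) × ℝ × V)) (Metric.ball 0 1) :=
    Metric.measure_ball_pos _ _ one_pos
  obtain ⟨⟨M, r, w⟩, hη, hη'⟩ := Set.not_subset.1 fun h => h2.ne' (measure_mono_null h h1)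
  refine ⟨M, r, ?_, ?_⟩
  · rw [mem_ball_zero_iff] at hη
    have b1 := norm_snd_le ((M, r, w) : (I → V) × ℝ × V)
    have b2 := norm_fst_le ((r, w) : ℝ × V)
    exact (b2.trans b1).trans_lt hη
  rintro p hp ⟨j, hj⟩ e1 e2
  have hpU : (p, Function.update M j w) ∈ U j := mul_ne_zero hp hj
  have key : ∀ q, σ q * ξ j q ≠ 0 → Φ j (q, Function.update M j w) =
      (M - Pi.single j ((σ q * ξ j q)⁻¹ • (F q + σ q • ∑ i, ξ i q • M i)),
        r - (σ q)⁻¹ * (h q + σ q * r), w) := by
    intro q hq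
    have c1 : σ q ≠ 0 := left_ne_zero_of_mul hq
    have c2 : ∑ i, ξ i q • Function.update M j w i =
        ∑ i, ξ i q • M i + ξ j q • (w - M j) := by
      rw [← Finset.add_sum_erase _ _ (Finset.mem_univ j),
        ← Finset.add_sum_erase _ (fun i => ξ i q • M i) (Finset.mem_univ j),
        Function.update_self, smul_sub]
      have : ∑ i ∈ Finset.univ.erase j, ξ i q • Function.update M j w i =
          ∑ i ∈ Finset.univ.erase j, ξ i q • M i :=
        Finset.sum_congr rfl fun i hi => by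
          rw [Function.update_of_ne (Finset.ne_of_mem_erase hi)]
      rw [this]
      abel
    refine Prod.ext ?_ (Prod.ext ?_ ?_)
    · funext i
      simp only [Φ, c2, Pi.sub_apply]
      by_cases hi : i = j
      · subst hi
        rw [Function.update_self, Pi.single_eq_same, Pi.single_eq_same, smul_add (σ q),
          ← add_assoc, smul_add (σ q * ξ i q)⁻¹, smul_smul (σ q), smul_smul,
          inv_mul_cancel₀ hq, one_smul]
        abel
      · rw [Function.update_of_ne hi, Pi.single_eq_of_ne hi, Pi.single_eq_of_ne hi]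
    · simp only [Φ]
      field_simp
      ring
    · simp [Φ]
  have hinj : Function.Injective (fderiv ℝ (Φ j) (p, Function.update M j w)) := by
    by_contra hc
    refine hη' (Set.mem_iUnion.2 ⟨j, (p, Function.update M j w), ⟨hpU, hc⟩, ?_⟩)
    rw [key p hpU, e1, e2]
    simp
  have d1 : DifferentiableAt ℝ (fun q => F q + σ q • ∑ i, ξ i q • M i) p :=
    (hF.add (hσ.smul (ContDiff.sum fun i _ => (hξ i).smul contDiff_const))).differentiable
      one_ne_zero p
  have d2 : DifferentiableAt ℝ (fun q => h q + σ q * r) p :=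
    (hh.add (hσ.mul contDiff_const)).differentiable one_ne_zero p
  have d3 : DifferentiableAt ℝ (fun q => (σ q * ξ j q)⁻¹) p :=
    ((hσ.mul (hξ j)).differentiable one_ne_zero p).inv (mul_ne_zero hp hj)
  have d4 : DifferentiableAt ℝ (fun q => (σ q)⁻¹) p :=
    (hσ.differentiable one_ne_zero p).inv hp
  rw [d1.fderiv_prodMk d2]
  refine (injective_iff_map_eq_zero _).2 fun v hv => ?_
  rw [ContinuousLinearMap.prod_apply, Prod.mk_eq_zero] at hv
  have g1 := ((hasFDerivAt_const M p).sub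
    ((ContinuousLinearMap.single ℝ (fun _ : I => V) j).hasFDerivAt.comp p
      (d3.hasFDerivAt.smul d1.hasFDerivAt))).prodMk
    (((hasFDerivAt_const r p).sub (d4.hasFDerivAt.mul d2.hasFDerivAt)).prodMk
      (hasFDerivAt_const w p))
  have g2 : DifferentiableAt ℝ (Φ j) (p, Function.update M j w) :=
    ((hΦ j).differentiableOn one_ne_zero).differentiableAt ((hU j).mem_nhds hpU)
  have g3 := HasFDerivAt.comp (f := fun q => (q, Function.update M j w)) p g2.hasFDerivAt
    (hasFDerivAt_prodMk_left (𝕜 := ℝ) p (Function.update M j w))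
  have g4 : ∀ᶠ q in 𝓝 p, σ q * ξ j q ≠ 0 :=
    (hσ.continuous.mul (hξ j).continuous).continuousAt.eventually_ne hpU
  have g5 := g1.congr_of_eventuallyEq
    (f₁ := Φ j ∘ fun q => (q, Function.update M j w)) (g4.mono fun q hq => key q hq)
  have g6 := congrArg (fun A : E →L[ℝ] (I → V) × ℝ × V => A v) (g3.unique g5)
  have g7 : fderiv ℝ (Φ j) (p, Function.update M j w) (v, 0) = (0, 0, 0) := by
    simpa [hv.1, hv.2, e1, e2] using g6
  have g8 := (injective_iff_map_eq_zero _).1 hinj _ g7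
  exact (Prod.mk_eq_zero.1 g8).1

end Pool.Agent.Lib.MP_b7c8b0_gt
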