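import Pool.Agent.Lib.MP_b7c8b0_gt.HomZ
import Pool.Agent.Lib.MP_b7c8b0_gt.PSard

open scoped ContDiff Topology ComplexConjugate
open Filter MeasureTheory Matrix

noncomputable section

namespace Pool.Agent.Lib.MP_b7c8b0_gt

variable {k : ℕ}

theorem destab_det_blk {n p q : Type} [Fintype n] [DecidableEq n] [Fintype p] [DecidableEq p]
    [Fintype q] [DecidableEq q] (e : n ≃ p ⊕ q) (A : Matrix p p ℂ) : (blk e A).det = A.det := by
  rw [blk, det_reindex_self, det_fromBlocks_zero₂₁, det_one, mul_one]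

theorem GLHom.blk {n p q : Type} [Fintype n] [DecidableEq n] [Fintype p] [DecidableEq p]
    [Fintype q] [DecidableEq q] (e : n ≃ p ⊕ q) {A A' : YY k → Matrix p p ℂ} (h : GLHom A A') :
    GLHom (fun y => blk e (A y)) (fun y => blk e (A' y)) := by
  induction h with
  | refl => exact Relation.ReflTransGen.refl
  | tail _ hs ih => ?_
  refine Relation.ReflTransGen.tail ih ?_
  obtain ⟨K, hK, hdet, hout, h0, h1⟩ := hs
  refine ⟨fun z => Pool.Agent.Lib.MP_b7c8b0_gt.blk e (K z), ?_, ?_, ?_, ?_, ?_⟩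
  · exact (hK.matrix_fromBlocks continuous_const continuous_const continuous_const).matrix_reindex
      _ _
  · intro s y hs hs'
    rw [destab_det_blk]
    exact hdet s y hs hs'
  · intro s y hy
    simp only [hout s y hy]
  · intro y
    simp only [h0 y]
  · intro y
    simp only [h1 y]

section
variable {n : Type} [Fintype n] [DecidableEq n]

/-- The conjugate of the component of `w` orthogonal to `u`, rescaled by the square norm of `u`. -/
def destabPerp (u w : n → ℂ) : n → ℂ :=
  fun i => (star u ⬝ᵥ u) * conj (w i) - (star w ⬝ᵥ u) * conj (u i)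

omit [DecidableEq n] in
theorem destabPerp_dot (u w z : n → ℂ) :
    destabPerp u w ⬝ᵥ z = (star u ⬝ᵥ u) * (star w ⬝ᵥ z) - (star w ⬝ᵥ u) * (star u ⬝ᵥ z) := by
  have : destabPerp u w = (star u ⬝ᵥ u) • star w - (star w ⬝ᵥ u) • star u := rfl
  rw [this, sub_dotProduct, smul_dotProduct, smul_dotProduct, smul_eq_mul, smul_eq_mul]

omit [DecidableEq n] in
theorem destabPerp_left (u w : n → ℂ) : destabPerp u w ⬝ᵥ u = 0 := by
  rw [destabPerp_dot]
  ring

omit [DecidableEq n] in
open scoped ComplexOrder in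
theorem destabPerp_right {d w : n → ℂ} (hw : w ≠ 0) (hd : ∀ c : ℂ, d ≠ c • w) :
    destabPerp (d - w) w ⬝ᵥ w ≠ 0 := by
  intro h
  set u := d - w with hu
  have hu0 : u ≠ 0 := fun h0 => hd 1 (by rw [one_smul]; exact sub_eq_zero.1 h0)
  have huu : star u ⬝ᵥ u ≠ 0 := fun h0 => hu0 (dotProduct_star_self_eq_zero.1 h0)
  have hst : star (destabPerp u w) = (star u ⬝ᵥ u) • w - (star u ⬝ᵥ w) • u := by
    have : destabPerp u w = (star u ⬝ᵥ u) • star w - (star w ⬝ᵥ u) • star u := rfl
    rw [this, star_sub, star_smul, star_smul, star_star, star_star, ← star_dotProduct,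
      ← star_dotProduct]
  have hz : destabPerp u w ⬝ᵥ star (destabPerp u w) = 0 := by
    rw [hst, dotProduct_sub, dotProduct_smul, dotProduct_smul, h, destabPerp_left]
    simp
  have h0 : (star u ⬝ᵥ u) • w - (star u ⬝ᵥ w) • u = 0 := by
    rw [← hst, dotProduct_self_star_eq_zero.1 hz, star_zero]
  generalize star u ⬝ᵥ u = a at huu h0
  generalize star u ⬝ᵥ w = b at h0
  have hb : b ≠ 0 := by
    rintro rfl
    rw [zero_smul, sub_zero] at h0
    exact hw ((smul_eq_zero.1 h0).resolve_left huu)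
  refine hd ((a + b) / b) (funext fun i => ?_)
  have := congrFun h0 i
  simp only [hu, Pi.sub_apply, Pi.smul_apply, smul_eq_mul, Pi.zero_apply] at this ⊢
  field_simp
  linear_combination -this

omit [DecidableEq n] in
theorem destab_contDiff_dot {u w : YY k → n → ℂ} (hu : ∀ i, ContDiff ℝ ∞ fun y => u y i)
    (hw : ∀ i, ContDiff ℝ ∞ fun y => w y i) : ContDiff ℝ ∞ fun y => u y ⬝ᵥ w y :=
  ContDiff.sum fun i _ => (hu i).mul (hw i)

theorem destab_contDiff_conj {f : YY k → ℂ} (hf : ContDiff ℝ ∞ f) :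
    ContDiff ℝ ∞ fun y => conj (f y) :=
  Complex.conjCLE.contDiff.comp hf

theorem destab_det_unip (u ψ : n → ℂ) (h : ψ ⬝ᵥ u = 0) (s : ℂ) :
    (1 + s • vecMulVec u ψ).det = 1 := by
  rw [← smul_vecMulVec, vecMulVec_eq Unit, det_one_add_replicateCol_mul_replicateRow,
    dotProduct_smul, h, smul_zero, add_zero]

/-- Move a column to a constant vector that is nowhere proportional to it. -/
theorem destab_move {G : YY k → Matrix n n ℂ} (hG : SmGood G) (e0 : n) (d : n → ℂ)
    (hd : ∀ y (c : ℂ), d ≠ c • fun a => G y a e0) :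
    ∃ G', SmGood G' ∧ GLStep G G' ∧ ∀ y a, G' y a e0 = d a := by
  let w : YY k → n → ℂ := fun y a => G y a e0
  have hw0 : ∀ y, w y ≠ 0 := fun y h =>
    hG.det y (det_eq_zero_of_column_eq_zero e0 fun a => congrFun h a)
  have hws : ∀ i, ContDiff ℝ ∞ fun y => w y i := fun i => hG.smooth i e0
  have hus : ∀ i, ContDiff ℝ ∞ fun y => (d - w y) i := fun i => contDiff_const.sub (hws i)
  have hps : ∀ i, ContDiff ℝ ∞ fun y => destabPerp (d - w y) (w y) i := fun i =>
    ((destab_contDiff_dot (fun i => destab_contDiff_conj (hus i)) hus).mul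
      (destab_contDiff_conj (hws i))).sub
    ((destab_contDiff_dot (fun i => destab_contDiff_conj (hws i)) hus).mul
      (destab_contDiff_conj (hus i)))
  have hc : ∀ y, destabPerp (d - w y) (w y) ⬝ᵥ w y ≠ 0 := fun y => destabPerp_right (hw0 y) (hd y)
  let ψ : YY k → n → ℂ := fun y =>
    (destabPerp (d - w y) (w y) ⬝ᵥ w y)⁻¹ • destabPerp (d - w y) (w y)
  have hψs : ∀ i, ContDiff ℝ ∞ fun y => ψ y i := fun i =>
    ((destab_contDiff_dot hps hws).inv hc).mul (hps i)
  have hψu : ∀ y, ψ y ⬝ᵥ (d - w y) = 0 := fun y => by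
    simp only [ψ, smul_dotProduct, destabPerp_left, smul_zero]
  have hψw : ∀ y, ψ y ⬝ᵥ w y = 1 := fun y => by
    simp only [ψ, smul_dotProduct, smul_eq_mul, inv_mul_cancel₀ (hc y)]
  let K : ℝ × YY k → Matrix n n ℂ := fun z =>
    (1 + ((z.1 : ℝ) : ℂ) • vecMulVec (d - w z.2) (ψ z.2)) * G z.2
  have hKe : ∀ z a b, K z a b =
      G z.2 a b + ((z.1 : ℝ) : ℂ) * ((d - w z.2) a * (ψ z.2 ⬝ᵥ fun i => G z.2 i b)) := by
    intro z a b
    simp only [K, add_mul, one_mul, smul_mul_assoc, Matrix.add_apply, Matrix.smul_apply,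
      smul_eq_mul, Matrix.mul_apply, vecMulVec_apply, dotProduct, Finset.mul_sum, mul_assoc]
  have hdet : ∀ z, (K z).det ≠ 0 := fun z => by
    simp only [K, det_mul, destab_det_unip _ _ (hψu z.2), one_mul]
    exact hG.det _
  have hout : ∀ s y, Out y → K (s, y) = K (s, 0) := fun s y hy => by
    simp only [K, ψ, w, hG.out y hy]
  have hsm : ∀ a b, ContDiff ℝ ∞ fun y => (d - w y) a * (ψ y ⬝ᵥ fun i => G y i b) := fun a b =>
    (hus a).mul (destab_contDiff_dot hψs fun i => hG.smooth i b)
  refine ⟨fun y => K (1, y), ⟨fun a b => ?_, fun y => hdet _, hout 1⟩,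
    ⟨K, ?_, fun s y _ _ => hdet _, hout, fun y => ?_, fun _ => rfl⟩, fun y a => ?_⟩
  · simp only [hKe]
    exact (hG.smooth a b).add (contDiff_const.mul (hsm a b))
  · refine continuous_matrix fun a b => ?_
    simp only [hKe]
    exact ((hG.smooth a b).continuous.comp continuous_snd).add
      ((Complex.continuous_ofReal.comp continuous_fst).mul
        ((hsm a b).continuous.comp continuous_snd))
  · simp [K]
  · show K (1, y) a e0 = d a
    rw [hKe]
    have := hψw y
    simp only [w] at this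
    simp [this, w]

/-- Clear the row once the column is the basis vector. -/
theorem destab_clear {p : Type} [Fintype p] [DecidableEq p] (e : n ≃ p ⊕ Unit)
    {G : YY k → Matrix n n ℂ} (hG : SmGood G)
    (hcol : ∀ y a, G y a (e.symm (Sum.inr ())) = (Pi.single (e.symm (Sum.inr ())) 1 : n → ℂ) a) :
    ∃ A : YY k → Matrix p p ℂ, SmGood A ∧ GLStep G (fun y => blk e (A y)) := by
  let A : YY k → Matrix p p ℂ := fun y =>
    of fun a b => G y (e.symm (Sum.inl a)) (e.symm (Sum.inl b))
  let C : YY k → Matrix Unit p ℂ := fun y =>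
    of fun a b => G y (e.symm (Sum.inr a)) (e.symm (Sum.inl b))
  let K : ℝ × YY k → Matrix n n ℂ := fun z =>
    reindex e.symm e.symm (fromBlocks (A z.2) 0 (((1 - z.1 : ℝ) : ℂ) • C z.2) 1)
  have hdet : ∀ z, (K z).det = (A z.2).det := fun z => by
    simp only [K]
    rw [det_reindex_self, det_fromBlocks_zero₁₂, det_one, mul_one]
  have h0 : ∀ y, K (0, y) = G y := fun y => by
    ext a b
    obtain ⟨a, rfl⟩ := e.symm.surjective a
    obtain ⟨b, rfl⟩ := e.symm.surjective b
    rcases a with a | a <;> rcases b with b | b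
    · simp [K, A]
    · rw [hcol]
      simp [K]
    · simp [K, C]
    · rw [hcol]
      simp [K]
  have hA : ∀ y, (A y).det ≠ 0 := fun y => by
    rw [← hdet (0, y), h0]
    exact hG.det y
  refine ⟨A, ⟨fun a b => hG.smooth _ _, hA, fun y hy => by simp only [A, hG.out y hy]⟩,
    K, ?_, fun s y _ _ => by rw [hdet]; exact hA y, fun s y hy => ?_, h0, fun y => ?_⟩
  · have hAc : Continuous A := continuous_matrix fun a b => (hG.smooth _ _).continuous
    have hCc : Continuous C := continuous_matrix fun a b => (hG.smooth _ _).continuous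
    refine Continuous.matrix_reindex (Continuous.matrix_fromBlocks (hAc.comp continuous_snd)
      continuous_const ?_ continuous_const) _ _
    exact (Complex.continuous_ofReal.comp (continuous_const.sub continuous_fst)).smul
      (hCc.comp continuous_snd)
  · simp only [K, A, C, hG.out y hy]
  · simp [K, blk]

end

/-- One destabilisation step. -/
theorem destab_step {n p : Type} [Fintype n] [DecidableEq n] [Fintype p] [DecidableEq p]
    (e : n ≃ p ⊕ Unit) (hp : k < 2 * Fintype.card p) {G : YY k → Matrix n n ℂ} (hG : SmGood G) :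
    ∃ A : YY k → Matrix p p ℂ, SmGood A ∧ GLHom G (fun y => blk e (A y)) := by
  set e0 := e.symm (Sum.inr ()) with he0
  have hcard : Fintype.card n = Fintype.card p + 1 := by
    rw [Fintype.card_congr e, Fintype.card_sum, Fintype.card_unit]
  obtain ⟨d, hd⟩ := exists_not_mem_range (E := YY k × ℂ) (V := n → ℂ)
    (f := fun z => z.2 • fun a => G z.1 a e0)
    (by
      rw [Module.finrank_prod, Module.finrank_pi_fintype, Module.finrank_pi_fintype]
      simp only [Module.finrank_self, Complex.finrank_real_complex, Finset.sum_const,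
        Finset.card_univ, Fintype.card_fin, smul_eq_mul, mul_one, hcard]
      omega)
    (contDiff_pi.2 fun a => contDiff_snd.mul
      (((hG.smooth a e0).of_le (by simp)).comp contDiff_fst))
  have key : ∃ G', SmGood G' ∧ GLHom G G' ∧ ∀ y a, G' y a e0 = (Pi.single e0 1 : n → ℂ) a := by
    by_cases h : ∃ c : ℂ, (Pi.single e0 1 : n → ℂ) = c • d
    · obtain ⟨c, hc⟩ := h
      have hc0 : c ≠ 0 := by
        rintro rfl
        simpa using congrFun hc e0
      obtain ⟨G', h1, h2, h3⟩ := destab_move hG e0 (Pi.single e0 1) fun y c' hc' =>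
        hd (y, c⁻¹ * c') (by
          simp only [mul_smul]
          rw [← hc', hc, smul_smul, inv_mul_cancel₀ hc0, one_smul])
      exact ⟨G', h1, Relation.ReflTransGen.single h2, h3⟩
    · obtain ⟨G1, h1, h2, h3⟩ := destab_move hG e0 d fun y c hc => hd (y, c) hc.symm
      obtain ⟨G2, g1, g2, g3⟩ := destab_move h1 e0 (Pi.single e0 1) fun y c hc =>
        h ⟨c, by rw [hc]; simp only [h3]⟩
      exact ⟨G2, g1, (Relation.ReflTransGen.single h2).tail g2, g3⟩
  obtain ⟨G', h1, h2, h3⟩ := key
  obtain ⟨A, hA, hs⟩ := destab_clear e h1 h3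
  exact ⟨A, hA, Relation.ReflTransGen.tail h2 hs⟩

theorem destab_blk_blk {n p q q' : Type} [DecidableEq q] [DecidableEq q'] (e : n ≃ p ⊕ q')
    (g : q' ≃ q ⊕ Unit) (A : Matrix p p ℂ) :
    blk (e.trans ((Equiv.sumCongr (Equiv.refl p) g).trans (Equiv.sumAssoc p q Unit).symm))
      (blk (Equiv.refl (p ⊕ q)) A) = blk e A := by
  ext a b
  obtain ⟨a, rfl⟩ := e.symm.surjective a
  obtain ⟨b, rfl⟩ := e.symm.surjective b
  rcases a with a | a <;> rcases b with b | b
  · simp [blk]
  · obtain ⟨b, rfl⟩ := g.symm.surjective b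
    rcases b with b | b <;> simp [blk]
  · obtain ⟨a, rfl⟩ := g.symm.surjective a
    rcases a with a | a <;> simp [blk]
  · obtain ⟨a, rfl⟩ := g.symm.surjective a
    obtain ⟨b, rfl⟩ := g.symm.surjective b
    rcases a with a | a <;> rcases b with b | b <;> simp [blk, one_apply]

/-- Destabilisation. -/
theorem destab {m : ℕ} (hm : k < 2 * m) (j : ℕ) {n : Type} [Fintype n] [DecidableEq n]
    (e : n ≃ Fin m ⊕ Fin j) {G : YY k → Matrix n n ℂ} (hG : SmGood G) :
    ∃ A : YY k → Matrix (Fin m) (Fin m) ℂ, SmGood A ∧ GLHom G (fun y => blk e (A y)) := by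
  induction j generalizing n with
  | zero =>
    let A : YY k → Matrix (Fin m) (Fin m) ℂ := fun y =>
      of fun a b => G y (e.symm (Sum.inl a)) (e.symm (Sum.inl b))
    have h : ∀ y, blk e (A y) = G y := fun y => by
      ext a b
      obtain ⟨a, rfl⟩ := e.symm.surjective a
      obtain ⟨b, rfl⟩ := e.symm.surjective b
      rcases a with a | a
      · rcases b with b | b
        · simp [blk, A]
        · exact b.elim0
      · exact a.elim0
    refine ⟨A, ⟨fun a b => hG.smooth _ _, fun y => ?_, fun y hy => by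
      simp only [A, hG.out y hy]⟩, ?_⟩
    · rw [← destab_det_blk e, h]
      exact hG.det y
    · simp only [h]
      exact Relation.ReflTransGen.refl
  | succ j ih =>
    let g : Fin (j + 1) ≃ Fin j ⊕ Unit := finSuccEquivLast.trans (Equiv.optionEquivSumPUnit _)
    obtain ⟨A1, h1, h2⟩ := destab_step (e.trans ((Equiv.sumCongr (Equiv.refl (Fin m)) g).trans
      (Equiv.sumAssoc (Fin m) (Fin j) Unit).symm)) (by simp; omega) hG
    obtain ⟨A, h3, h4⟩ := ih (Equiv.refl _) h1
    refine ⟨A, h3, Relation.ReflTransGen.trans h2 ?_⟩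
    have := GLHom.blk (e.trans ((Equiv.sumCongr (Equiv.refl (Fin m)) g).trans
      (Equiv.sumAssoc (Fin m) (Fin j) Unit).symm)) h4
    simp only [destab_blk_blk] at this
    exact this

end Pool.Agent.Lib.MP_b7c8b0_gt
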