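import Pool.Agent.Lib.MP_b7c8b0_gt.Defs

/-! Euclidean form of the prelegendrian condition. -/

open scoped ContDiff

namespace Pool.Agent.Lib.MP_b7c8b0_gt

abbrev Euc (n : ℕ) : Type := EuclideanSpace ℝ (Fin (2 * n + 1 + 1))

/-- Euclidean form: `F` is smooth off the origin, injective on the unit sphere, its derivative is
injective on tangent spaces of the sphere and `alpha` has real rank one on them. -/
structure EPre (n : ℕ) (F : Euc n → Amb n) : Prop where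
  smooth : ∀ x, x ≠ 0 → ContDiffAt ℝ ∞ F x
  inj : ∀ x x', ‖x‖ = 1 → ‖x'‖ = 1 → F x = F x' → x = x'
  imm : ∀ x v, ‖x‖ = 1 → inner ℝ x v = 0 → fderiv ℝ F x v = 0 → v = 0
  rank : ∀ x, ‖x‖ = 1 → ∃ c : ℂ, c ≠ 0 ∧
    (∀ v, inner ℝ x v = 0 → ∃ r : ℝ, alpha (F x) (fderiv ℝ F x v) = r * c) ∧
    ∃ v, inner ℝ x v = 0 ∧ alpha (F x) (fderiv ℝ F x v) ≠ 0

end Pool.Agent.Lib.MP_b7c8b0_gt
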