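import Mathlib

/-! Smooth complex differential forms on `ι → ℝ`, matrix forms, transgression. -/

open scoped ContDiff TensorProduct
open MeasureTheory

noncomputable section

namespace Pool.Agent.Lib.MP_b7c8b0_gt

variable (ι : Type) [Fintype ι] [DecidableEq ι]

/-- Smooth complex functions on `ι → ℝ`. -/
def Sm : Subalgebra ℂ ((ι → ℝ) → ℂ) where
  carrier := {f | ContDiff ℝ ∞ f}
  mul_mem' := fun {a b} (ha : ContDiff ℝ ∞ a) (hb : ContDiff ℝ ∞ b) =>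
    show ContDiff ℝ ∞ (fun x => a x * b x) from ha.mul hb
  add_mem' := fun {a b} (ha : ContDiff ℝ ∞ a) (hb : ContDiff ℝ ∞ b) =>
    show ContDiff ℝ ∞ (fun x => a x + b x) from ha.add hb
  algebraMap_mem' := fun c => show ContDiff ℝ ∞ (fun _ : ι → ℝ => c) from contDiff_const

/-- Smooth complex differential forms on `ι → ℝ`. -/
def Om : Type := Sm ι ⊗[ℂ] ExteriorAlgebra ℂ (ι → ℂ)

instance : Ring (Om ι) := inferInstanceAs (Ring (Sm ι ⊗[ℂ] ExteriorAlgebra ℂ (ι → ℂ)))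
instance : Algebra ℂ (Om ι) :=
  inferInstanceAs (Algebra ℂ (Sm ι ⊗[ℂ] ExteriorAlgebra ℂ (ι → ℂ)))

variable {ι}

omit [DecidableEq ι] in
theorem Sm.smooth (f : Sm ι) : ContDiff ℝ ∞ (f : (ι → ℝ) → ℂ) := f.2

/-- Constructor for smooth functions. -/
def Sm.mk (f : (ι → ℝ) → ℂ) (hf : ContDiff ℝ ∞ f) : Sm ι := ⟨f, hf⟩

/-- Functions as 0-forms. -/
def fn : Sm ι →ₐ[ℂ] Om ι :=
  (Algebra.TensorProduct.includeLeft :
    Sm ι →ₐ[ℂ] Sm ι ⊗[ℂ] ExteriorAlgebra ℂ (ι → ℂ))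

/-- The coordinate 1-form `dx_i`. -/
def eps (i : ι) : Om ι :=
  ((1 : Sm ι) ⊗ₜ[ℂ] ExteriorAlgebra.ι ℂ (Pi.single i (1 : ℂ) : ι → ℂ) :
    Sm ι ⊗[ℂ] ExteriorAlgebra ℂ (ι → ℂ))

/-- Partial derivative in the `i`-th variable. -/
def pd (i : ι) : Sm ι →ₗ[ℂ] Sm ι where
  toFun f := ⟨fun x => fderiv ℝ (f : (ι → ℝ) → ℂ) x (Pi.single i 1),
    ((Sm.smooth f).fderiv_right (m := ∞) (by simp)).clm_apply contDiff_const⟩
  map_add' f g := by
    ext x
    have hf := ((Sm.smooth f).differentiable (by simp)) x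
    have hg := ((Sm.smooth g).differentiable (by simp)) x
    change fderiv ℝ ((f : (ι → ℝ) → ℂ) + (g : (ι → ℝ) → ℂ)) x _ = fderiv ℝ (f : (ι → ℝ) → ℂ) x _ +
      fderiv ℝ (g : (ι → ℝ) → ℂ) x _
    rw [fderiv_add hf hg]; rfl
  map_smul' c f := by
    ext x
    have hf := ((Sm.smooth f).differentiable (by simp)) x
    change fderiv ℝ (c • (f : (ι → ℝ) → ℂ)) x _ = c • fderiv ℝ (f : (ι → ℝ) → ℂ) x _
    rw [fderiv_const_smul hf]; rfl

/-- Partial derivative of the coefficients of a form. -/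
def pdO (i : ι) : Om ι →ₗ[ℂ] Om ι :=
  (LinearMap.rTensor (ExteriorAlgebra ℂ (ι → ℂ)) (pd i) :
    Sm ι ⊗[ℂ] ExteriorAlgebra ℂ (ι → ℂ) →ₗ[ℂ] Sm ι ⊗[ℂ] ExteriorAlgebra ℂ (ι → ℂ))

/-- Exterior derivative. -/
def dd : Om ι →ₗ[ℂ] Om ι := ∑ i, LinearMap.mulLeft ℂ (eps i) ∘ₗ pdO i

/-- Parity involution. -/
def sg : Om ι →ₐ[ℂ] Om ι :=
  (Algebra.TensorProduct.map (AlgHom.id ℂ (Sm ι)) CliffordAlgebra.involute :
    Sm ι ⊗[ℂ] ExteriorAlgebra ℂ (ι → ℂ) →ₐ[ℂ] Sm ι ⊗[ℂ] ExteriorAlgebra ℂ (ι → ℂ))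

/-- Precomposition with a smooth map. -/
def compS (φ : (ι → ℝ) → (ι → ℝ)) (hφ : ContDiff ℝ ∞ φ) : Sm ι →ₐ[ℂ] Sm ι where
  toFun f := ⟨fun x => f.1 (φ x), (Sm.smooth f).comp hφ⟩
  map_one' := rfl
  map_mul' _ _ := rfl
  map_zero' := rfl
  map_add' _ _ := rfl
  commutes' _ := rfl

theorem contDiff_upd (i : ι) (c : ℝ) :
    ContDiff ℝ ∞ (fun x : ι → ℝ => Function.update x i c) := by
  refine contDiff_pi.2 fun j => ?_
  by_cases h : j = i
  · subst h; simpa using contDiff_const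
  · simpa [Function.update_of_ne h] using contDiff_apply ℝ ℝ j

/-- Restriction of a function to the hyperplane `x_i = c`. -/
def fS (i : ι) (c : ℝ) : Sm ι →ₐ[ℂ] Sm ι := compS _ (contDiff_upd i c)

theorem contDiff_rep (z : ι) :
    ContDiff ℝ ∞ (fun x : ι → ℝ => Function.update x z (Real.smoothTransition (x z))) := by
  refine contDiff_pi.2 fun j => ?_
  by_cases h : j = z
  · subst h
    simpa [Function.comp_def] using Real.smoothTransition.contDiff.comp (contDiff_apply ℝ ℝ j)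
  · simpa [Function.update_of_ne h] using contDiff_apply ℝ ℝ j

/-- Reparametrisation of the variable `x_z` by the smooth transition function. -/
def repS (z : ι) : Sm ι →ₐ[ℂ] Sm ι := compS _ (contDiff_rep z)

/-- The linear map killing the `i`-th coordinate. -/
def killL (i : ι) : (ι → ℂ) →ₗ[ℂ] (ι → ℂ) :=
  LinearMap.pi fun j => if j = i then 0 else LinearMap.proj j

/-- Pullback of forms along `x ↦ update x i c`. -/
def face (i : ι) (c : ℝ) : Om ι →ₐ[ℂ] Om ι :=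
  (Algebra.TensorProduct.map (fS i c) (ExteriorAlgebra.map (killL i)) :
    Sm ι ⊗[ℂ] ExteriorAlgebra ℂ (ι → ℂ) →ₐ[ℂ] Sm ι ⊗[ℂ] ExteriorAlgebra ℂ (ι → ℂ))

/-- Contraction with the `i`-th coordinate vector field. -/
def ctr (i : ι) : Om ι →ₗ[ℂ] Om ι :=
  (LinearMap.lTensor (Sm ι)
    (CliffordAlgebra.contractLeft (Q := (0 : QuadraticForm ℂ (ι → ℂ))) (LinearMap.proj i)) :
    Sm ι ⊗[ℂ] ExteriorAlgebra ℂ (ι → ℂ) →ₗ[ℂ] Sm ι ⊗[ℂ] ExteriorAlgebra ℂ (ι → ℂ))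

/-- Degree zero part of a form. -/
def coef0 : Om ι →ₐ[ℂ] Sm ι :=
  (Algebra.TensorProduct.lift (AlgHom.id ℂ (Sm ι))
    ((Algebra.ofId ℂ (Sm ι)).comp ExteriorAlgebra.algebraMapInv) (fun _ _ => Commute.all _ _) :
    Sm ι ⊗[ℂ] ExteriorAlgebra ℂ (ι → ℂ) →ₐ[ℂ] Sm ι)

/-- The coefficient of `dx_{i1} ⋯ dx_{iq}` for the list `[i1, …, iq]`. -/
def coef : List ι → (Om ι →ₗ[ℂ] Sm ι)
  | [] => coef0.toLinearMap
  | i :: l => coef l ∘ₗ ctr i

omit [DecidableEq ι] in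
theorem Sm.integrableOn (f : Sm ι) :
    IntegrableOn (f : (ι → ℝ) → ℂ) (Set.Icc (0 : ι → ℝ) 1) :=
  (Sm.smooth f).continuous.continuousOn.integrableOn_compact isCompact_Icc

/-- Integral over the unit cube. -/
def intS : Sm ι →ₗ[ℂ] ℂ where
  toFun f := ∫ x in Set.Icc (0 : ι → ℝ) 1, f.1 x
  map_add' f g := integral_add (Sm.integrableOn f) (Sm.integrableOn g)
  map_smul' c _ := integral_smul c _

/-- Integral over the unit cube of the coefficient of `dx_l`. -/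
def itg (l : List ι) : Om ι →ₗ[ℂ] ℂ := intS ∘ₗ coef l

/-- The coordinate function `x_i`. -/
def xc (i : ι) : Sm ι :=
  ⟨fun x => ((x i : ℝ) : ℂ), show ContDiff ℝ ∞ (Complex.ofRealCLM ∘ fun x : ι → ℝ => x i) from
    Complex.ofRealCLM.contDiff.comp (contDiff_apply ℝ ℝ i)⟩

/-- A smooth function of the single variable `x_i`. -/
def un (φ : ℝ → ℂ) (hφ : ContDiff ℝ ∞ φ) (i : ι) : Sm ι :=
  ⟨fun x => φ (x i), hφ.comp (contDiff_apply ℝ ℝ i)⟩

/-- The function `exp (2 π i x_z)`. -/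
def zeta (z : ι) : Sm ι :=
  ⟨fun x => Complex.exp (2 * Real.pi * Complex.I * (xc z).1 x),
    (Complex.contDiff_exp (𝕜 := ℝ)).comp (contDiff_const.mul (Sm.smooth (xc z)))⟩

/-- The form does not involve the variable `x_i`. -/
def Ind (i : ι) (w : Om ι) : Prop := face i 0 w = w

/-- The form has the same restriction to the faces `x_i = 0` and `x_i = 1`. -/
def WPer (i : ι) (w : Om ι) : Prop := face i 1 w = face i 0 w

/-- `f` depends only on the variables in `P` and, periodically, on the variables in `l`. -/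
def Tor (P l : List ι) (f : Sm ι) : Prop :=
  ∀ x y : ι → ℝ, (∀ i ∈ P, x i = y i) → (∀ i ∈ l, ∃ k : ℤ, x i = y i + k) → f.1 x = f.1 y

/-! Matrices. -/

abbrev MS (n ι : Type) [Fintype ι] : Type := Matrix n n (Sm ι)
abbrev MO (n ι : Type) [Fintype ι] : Type := Matrix n n (Om ι)

variable {n : Type} [Fintype n] [DecidableEq n]

def fnM : MS n ι →ₐ[ℂ] MO n ι := fn.mapMatrix
def dM (A : MO n ι) : MO n ι := A.map dd
def sgM : MO n ι →ₐ[ℂ] MO n ι := sg.mapMatrix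
def faceM (i : ι) (c : ℝ) : MO n ι →ₐ[ℂ] MO n ι := (face i c).mapMatrix
def fSM (i : ι) (c : ℝ) : MS n ι →ₐ[ℂ] MS n ι := (fS i c).mapMatrix

def repM (z : ι) : MS n ι →ₐ[ℂ] MS n ι := (repS z).mapMatrix

/-- Value of a matrix of functions at a point. -/
def ev (g : MS n ι) (x : ι → ℝ) : Matrix n n ℂ := g.map fun f => f.1 x

/-- Pointwise invertible. -/
def Inv (g : MS n ι) : Prop := ∀ x, (ev g x).det ≠ 0

def TorM (P l : List ι) (g : MS n ι) : Prop := ∀ a b, Tor P l (g a b)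

/-- Curvature. -/
def curv (A : MO n ι) : MO n ι := dM A + A * A

/-- Chern character form (unnormalised). -/
def ch (m : ℕ) (A : MO n ι) : Om ι := Matrix.trace (curv A ^ m)

/-- Gauge transform by `g` with inverse `h`. -/
def gauge (g h : MS n ι) (A : MO n ι) : MO n ι := fnM h * A * fnM g + fnM h * dM (fnM g)

/-- Maurer-Cartan form. -/
def mc (g : MS n ι) : MO n ι := fnM g⁻¹ * dM (fnM g)

/-- Linear path of connections in the variable `t`. -/
def lin (t : ι) (A B : MO n ι) : MO n ι := A + fn (xc t) • (B - A)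

/-- Transgression. -/
def TT (m : ℕ) (t : ι) (l : List ι) (A B : MO n ι) : ℂ := itg (t :: l) (ch m (lin t A B))

/-- Odd Chern character number. -/
def Ch (m : ℕ) (t : ι) (l : List ι) (g : MS n ι) : ℂ := TT m t l 0 (mc g)

/-- Even Chern character number. -/
def JJ (m : ℕ) (l : List ι) (e : MS n ι) : ℂ :=
  itg l (Matrix.trace (fnM e * dM (fnM e) ^ (2 * m)))

/-- Odd matrix forms, independent of the variables in `I` and periodic in those of `l`. -/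
structure Adm (I l : List ι) (A : MO n ι) : Prop where
  odd : sgM A = -A
  ind : ∀ i ∈ I, faceM i 0 A = A
  per : ∀ i ∈ l, faceM i 1 A = faceM i 0 A

/-- The pencil `1 + (ζ - 1) e`. -/
def pencil (z : ι) (e : MS n ι) : MS n ι := 1 + (zeta z - 1) • e

/-- The lattice of integrality. -/
def Lat (m : ℕ) (c : ℂ) : Prop :=
  ∃ d : ℤ, c = (2 * Real.pi * Complex.I) ^ m * (m.factorial : ℂ) * d

/-- The segment from `g` to `g'` is pointwise invertible. -/
def Seg (g g' : MS n ι) : Prop :=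
  ∀ r : ℝ, 0 ≤ r → r ≤ 1 → ∀ x, (((1 - r : ℝ) : ℂ) • ev g x + ((r : ℝ) : ℂ) • ev g' x).det ≠ 0

/-- Elementary symmetric expressions in terms of power sums (Newton recursion). -/
def Ek {A : Type} [Ring A] [Algebra ℂ A] (p : ℕ → A) : ℕ → A
  | 0 => 1
  | k + 1 => ((k + 1 : ℕ) : ℂ)⁻¹ •
      ∑ i : Fin (k + 1), (-1 : ℂ) ^ (i : ℕ) • (Ek p (k - i) * p (i + 1))
decreasing_by omega

/-- The 1-form `∑ u_a dv_a`. -/
def th (u v : n → Sm ι) : Om ι := ∑ a, fn (u a) * dd (fn (v a))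

/-- The number `∫ ϑ (dϑ)^m`. -/
def CS (m : ℕ) (l : List ι) (u v : n → Sm ι) : ℂ := itg l (th u v * dd (th u v) ^ m)

/-- Real coordinates on `Fin m → ℂ`. -/
def RI {m : ℕ} (w : Fin m → ℂ) (a : Fin (m * 2)) : ℝ :=
  if (finProdFinEquiv.symm a).2 = 0 then (w (finProdFinEquiv.symm a).1).re
  else (w (finProdFinEquiv.symm a).1).im

/-- The radial density of `(dϑ)^(m+1)`. -/
def PhiR (m : ℕ) (ψ : ℝ → ℝ) (ρ : ℝ) : ℝ := ψ ρ ^ (m + 1) + ρ * ψ ρ ^ m * deriv ψ ρ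

end Pool.Agent.Lib.MP_b7c8b0_gt
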