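import Pool.Agent.Lib.MP_b7c8b0_gt.HomZ
import Pool.Agent.Lib.MP_b7c8b0_gt.PSard

open scoped ContDiff Topology ComplexConjugate
open Filter MeasureTheory Matrix

noncomputable section

namespace Pool.Agent.Lib.MP_b7c8b0_gt

variable {k N m : ℕ}

lemma fillh_tauB_cont (b : EuclideanSpace ℝ (Fin N)) : Continuous (tauB b) := by
  unfold tauB
  fun_prop

lemma fillh_tau0_cont (e : Fin N ≃ Fin m ⊕ Fin m) (j0 : Fin m) : Continuous (tau0 e j0) := by
  refine continuous_pi fun i => ?_
  unfold tau0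
  rcases e i with a | a
  · simp only [Sum.elim_inl]
    split_ifs <;> fun_prop
  · simp only [Sum.elim_inr]
    fun_prop

lemma fillh_tauB_neg (b : EuclideanSpace ℝ (Fin N)) (x : XX N) : tauB b (-x) = -tauB b x := by
  funext i
  simp only [tauB, PiLp.neg_apply, Pi.neg_apply]
  push_cast
  ring

lemma fillh_tau0_neg (e : Fin N ≃ Fin m ⊕ Fin m) (j0 : Fin m) (x : XX N) :
    tau0 e j0 (-x) = -tau0 e j0 x := by
  funext i
  simp only [tau0, PiLp.neg_apply, Pi.neg_apply]
  rcases e i with a | a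
  · simp only [Sum.elim_inl]
    split_ifs
    · push_cast; ring
    · simp
  · simp only [Sum.elim_inr]
    push_cast
    ring

lemma fillh_ext (e : Fin N ≃ Fin m ⊕ Fin m) {x : XX N} (h0 : x none = 0)
    (h1 : ∀ a, x (some (e.symm (Sum.inl a))) = 0) (h2 : ∀ a, x (some (e.symm (Sum.inr a))) = 0) :
    x = 0 := by
  ext o
  rcases o with _ | i
  · exact h0
  · obtain ⟨j, rfl⟩ := e.symm.surjective i
    rcases j with a | a
    · exact h1 a
    · exact h2 a

lemma fillh_lin_inj (e : Fin N ≃ Fin m ⊕ Fin m) (j0 : Fin m) (i0 : Fin N) {s : ℝ} (hs0 : 0 ≤ s)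
    (hs1 : s ≤ 1) {x : XX N}
    (h : (1 - s) • tauB (EuclideanSpace.single i0 1) x + s • tau0 e j0 x = 0) : x = 0 := by
  have hl : ∀ a, (1 - s) * x (some (e.symm (Sum.inl a))) = 0 ∧
      (1 - s) * (x none * if e.symm (Sum.inl a) = i0 then 1 else 0)
        + s * (if a = j0 then x none else 0) = 0 := by
    intro a
    have h1 := congrFun h (e.symm (Sum.inl a))
    simp only [tauB, tau0, Pi.add_apply, Pi.smul_apply, Equiv.apply_symm_apply, Sum.elim_inl,
      Pi.zero_apply, PiLp.single_apply] at h1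
    have h2 := congrArg Complex.re h1
    have h3 := congrArg Complex.im h1
    constructor
    · by_cases ha : a = j0 <;> simpa [ha] using h2
    · by_cases ha : a = j0 <;> simpa [ha] using h3
  have hr : ∀ a, x (some (e.symm (Sum.inr a))) = 0 ∧
      (1 - s) * (x none * if e.symm (Sum.inr a) = i0 then 1 else 0)
        + s * x (some (e.symm (Sum.inl a))) = 0 := by
    intro a
    have h1 := congrFun h (e.symm (Sum.inr a))
    simp only [tauB, tau0, Pi.add_apply, Pi.smul_apply, Equiv.apply_symm_apply, Sum.elim_inr,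
      Pi.zero_apply, PiLp.single_apply] at h1
    have h2 := congrArg Complex.re h1
    have h3 := congrArg Complex.im h1
    constructor
    · have h4 : (1 - s) * x (some (e.symm (Sum.inr a))) + s * x (some (e.symm (Sum.inr a))) = 0 := by
        simpa using h2
      linarith
    · simpa using h3
  rcases hs1.eq_or_lt with rfl | hs
  · refine fillh_ext e ?_ (fun a => ?_) (fun a => (hr a).1)
    · simpa using (hl j0).2
    · simpa using (hr a).2
  · have hs' : 0 < 1 - s := by linarith
    have ha : ∀ a, x (some (e.symm (Sum.inl a))) = 0 := fun a =>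
      (mul_eq_zero.1 (hl a).1).resolve_left hs'.ne'
    refine fillh_ext e ?_ ha (fun a => (hr a).1)
    obtain ⟨j, rfl⟩ := e.symm.surjective i0
    rcases j with a | a
    · have h1 := (hl a).2
      rw [if_pos rfl, mul_one] at h1
      split_ifs at h1
      · linarith
      · rw [mul_zero, add_zero] at h1
        exact (mul_eq_zero.1 h1).resolve_left hs'.ne'
    · have h1 := (hr a).2
      rw [if_pos rfl, mul_one, ha a, mul_zero, add_zero] at h1
      exact (mul_eq_zero.1 h1).resolve_left hs'.ne'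

/-- A path of injective real linear maps. -/
theorem tau_path (e : Fin N ≃ Fin m ⊕ Fin m) (j0 : Fin m) (i0 : Fin N)
    {G : YY k → Matrix (Fin N) (Fin N) ℂ} (hG : GLGood G) :
    HomZ (fun x y => G y *ᵥ tauB (EuclideanSpace.single i0 1) x)
      (fun x y => G y *ᵥ tau0 e j0 x) 0 := by
  refine HomZ.of_ne (fun p => G p.2.2 *ᵥ
    ((1 - p.1) • tauB (EuclideanSpace.single i0 1) p.2.1 + p.1 • tau0 e j0 p.2.1))
    ?_ ?_ ?_ ?_ ?_ ?_
  · refine Continuous.continuousOn ?_
    have h1 := fillh_tauB_cont (EuclideanSpace.single i0 (1 : ℝ))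
    have h2 := fillh_tau0_cont e j0
    have h3 := hG.cont
    refine Continuous.matrix_mulVec (by fun_prop) (by fun_prop)
  · intro s x y _ _ _
    simp only [fillh_tauB_neg, fillh_tau0_neg, smul_neg, ← neg_add, Matrix.mulVec_neg]
  · intro s x y _ _ _ hy
    simp only [hG.out y hy]
  · intro x y _
    simp
  · intro x y _
    simp
  · intro s x y hs0 hs1 hx h
    have h1 : x = 0 :=
      fillh_lin_inj e j0 i0 hs0 hs1 (Matrix.eq_zero_of_mulVec_eq_zero (hG.det y) h)
    rw [h1, norm_zero] at hx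
    exact zero_ne_one hx

theorem exists_fill (hk : k + 1 = 2 * m) {A : YY k → Matrix (Fin m) (Fin m) ℂ} (hA : SmGood A)
    (j0 : Fin m) : ∃ W Z, Fill A j0 W Z := by
  classical
  set v : YY k → (Fin m → ℂ) := fun y a => A y a j0 with hv
  have hvs : ContDiff ℝ ∞ v := contDiff_pi.2 fun a => hA.smooth a j0
  have hv0 : ∀ y, v y ≠ 0 := fun y h =>
    hA.det y (Matrix.det_eq_zero_of_column_eq_zero j0 fun a => congrFun h a)
  have hvo : ∀ y, Out y → v y = v 0 := fun y hy => by simp only [hv, hA.out y hy]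
  have hd : Module.finrank ℝ (ℝ × YY k) = Module.finrank ℝ (Fin m → ℂ) := by
    rw [Module.finrank_prod, Module.finrank_self, Module.finrank_fin_fun,
      Module.finrank_pi_fintype]
    simp only [Complex.finrank_real_complex, Finset.sum_const, Finset.card_univ, Fintype.card_fin,
      smul_eq_mul]
    omega
  set F : ℝ × YY k → (Fin m → ℂ) := fun p => (1 - p.1) • v p.2 + p.1 • v 0 with hF
  have hFs : ContDiff ℝ ∞ F :=
    ((contDiff_const.sub contDiff_fst).smul (hvs.comp contDiff_snd)).add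
      (contDiff_fst.smul contDiff_const)
  set σ : ℝ × YY k → ℝ := fun p => p.1 * (1 - p.1) with hσ
  have hσs : ContDiff ℝ ∞ σ := by fun_prop
  set U : Set (ℝ × YY k) := {p | σ p ≠ 0} with hU
  have hUo : IsOpen U := isOpen_ne_fun hσs.continuous continuous_const
  have hf : ContDiffOn ℝ 1 (fun p => (σ p)⁻¹ • F p) U :=
    ContDiffOn.smul ((hσs.of_le (by simp)).contDiffOn.inv fun p hp => hp)
      (hFs.of_le (by simp)).contDiffOn
  obtain ⟨η, hη, hreg⟩ := sard_small hd hUo hf (norm_pos_iff.2 (hv0 0))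
  set W : ℝ × YY k → (Fin m → ℂ) := fun p => F p - σ p • η with hW
  have hWs : ContDiff ℝ ∞ W := hFs.sub (hσs.smul contDiff_const)
  have hz : ∀ p : ℝ × YY k, 0 ≤ p.1 → p.1 ≤ 1 → W p = 0 →
      0 < p.1 ∧ p.1 < 1 ∧ ¬ Out p.2 ∧ Function.Injective (fderiv ℝ W p) := by
    rintro ⟨s, y⟩ hs0 hs1 hp
    have h0 : 0 < s := by
      refine lt_of_le_of_ne hs0 ?_
      rintro rfl
      exact hv0 y (by simpa [hW, hF, hσ] using hp)
    have h1 : s < 1 := by
      refine lt_of_le_of_ne hs1 ?_
      rintro rfl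
      exact hv0 0 (by simpa [hW, hF, hσ] using hp)
    have hσp : σ (s, y) ≠ 0 := mul_ne_zero h0.ne' (by linarith)
    refine ⟨h0, h1, fun hy => ?_, ?_⟩
    · have h2 : v 0 = (s * (1 - s)) • η := by
        have h3 : (1 - s) • v y + s • v 0 - (s * (1 - s)) • η = 0 := hp
        rw [hvo y hy, ← add_smul, sub_add_cancel, one_smul, sub_eq_zero] at h3
        exact h3
      have h4 : ‖v 0‖ ≤ ‖η‖ := by
        rw [h2, norm_smul, Real.norm_eq_abs, abs_of_nonneg (by nlinarith)]
        exact mul_le_of_le_one_left (norm_nonneg _) (by nlinarith)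
      linarith
    · have hfp : (σ (s, y))⁻¹ • F (s, y) = η := by
        have h3 : F (s, y) = σ (s, y) • η := sub_eq_zero.1 hp
        rw [h3, smul_smul, inv_mul_cancel₀ hσp, one_smul]
      have hinj := hreg (s, y) hσp hfp
      have hfd : HasFDerivAt (fun p => (σ p)⁻¹ • F p) (fderiv ℝ (fun p => (σ p)⁻¹ • F p) (s, y))
          (s, y) :=
        ((hf.contDiffAt (hUo.mem_nhds hσp)).differentiableAt one_ne_zero).hasFDerivAt
      have hσd : HasFDerivAt σ (fderiv ℝ σ (s, y)) (s, y) :=
        (hσs.differentiable (by simp) _).hasFDerivAt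
      have h5 := hσd.fun_smul (hfd.sub_const η)
      have h6 : W =ᶠ[𝓝 (s, y)] fun p => σ p • ((σ p)⁻¹ • F p - η) := by
        filter_upwards [hUo.mem_nhds hσp] with p hp
        rw [smul_sub, smul_smul, mul_inv_cancel₀ hp, one_smul]
      rw [(h5.congr_of_eventuallyEq h6).fderiv, hfp, sub_self]
      intro a b hab
      apply hinj
      simpa [hσp] using hab
  have hK : IsCompact (Set.Icc (0 : ℝ) 1 ×ˢ Set.Icc (0 : YY k) 1) := isCompact_Icc.prod isCompact_Icc
  have hfin := finite_zeros hK (hWs.of_le (by simp))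
    (fun p hp h => (hz p hp.1.1 hp.1.2 h).2.2.2)
  have hmem : ∀ p, p ∈ hfin.toFinset ↔ (0 ≤ p.1 ∧ p.1 ≤ 1) ∧ W p = 0 := by
    intro p
    rw [Set.Finite.mem_toFinset]
    constructor
    · rintro ⟨h1, h2⟩
      exact ⟨h1.1, h2⟩
    · rintro ⟨h1, h2⟩
      refine ⟨⟨h1, ?_⟩, h2⟩
      have h3 := (hz p h1.1 h1.2 h2).2.2.1
      simp only [Out, not_exists, not_or, not_le] at h3
      constructor
      · intro i
        have := (h3 i).1
        simp only [Pi.zero_apply]
        linarith
      · intro i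
        have := (h3 i).2
        simp only [Pi.one_apply]
        linarith
  refine ⟨W, hfin.toFinset, hWs, ?_, ?_, ?_, hmem, fun p hp => ?_⟩
  · intro y a
    simp [hW, hF, hσ, hv]
  · intro y
    simp [hW, hF, hσ]
  · intro s y hy
    simp only [hW, hF, hσ, hvo y hy]
  · obtain ⟨h1, h2⟩ := (hmem p).1 hp
    exact hz p h1.1 h1.2 h2

/-- A coordinate of the sphere variable. -/
def fillhCo (N k : ℕ) (o : Option (Fin N)) : ℝ × XX N × YY k →L[ℝ] ℂ :=
  Complex.ofRealCLM.comp ((EuclideanSpace.proj o).comp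
    ((ContinuousLinearMap.fst ℝ _ _).comp (ContinuousLinearMap.snd ℝ _ _)))

/-- Forget the sphere variable. -/
def fillhPr (N k : ℕ) : ℝ × XX N × YY k →L[ℝ] ℝ × YY k :=
  (ContinuousLinearMap.fst ℝ _ _).prod
    ((ContinuousLinearMap.snd ℝ _ _).comp (ContinuousLinearMap.snd ℝ _ _))

lemma fillhCo_apply (o : Option (Fin N)) (q : ℝ × XX N × YY k) :
    fillhCo N k o q = (q.2.1 o : ℂ) := rfl

lemma fillhPr_apply (q : ℝ × XX N × YY k) : fillhPr N k q = (q.1, q.2.2) := rfl

/-- The homotopy attached to a filling. -/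
def fillhK (e : Fin N ≃ Fin m ⊕ Fin m) (W : ℝ × YY k → (Fin m → ℂ)) (q : ℝ × XX N × YY k) :
    Fin N → ℂ :=
  fun i => Sum.elim (fun a => (Complex.I * fillhCo N k none q) * W (fillhPr N k q) a)
    (fun a => fillhCo N k (some (e.symm (Sum.inr a))) q
      + Complex.I * fillhCo N k (some (e.symm (Sum.inl a))) q) (e i)

lemma fillhK_smooth (e : Fin N ≃ Fin m ⊕ Fin m) {W : ℝ × YY k → (Fin m → ℂ)}
    (hW : ContDiff ℝ ∞ W) : ContDiff ℝ ∞ (fillhK e W) := by
  refine contDiff_pi.2 fun i => ?_
  unfold fillhK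
  rcases e i with a | a
  · simp only [Sum.elim_inl]
    exact (contDiff_const.mul (fillhCo N k none).contDiff).mul
      ((contDiff_pi.1 hW a).comp (fillhPr N k).contDiff)
  · simp only [Sum.elim_inr]
    exact (fillhCo N k _).contDiff.add (contDiff_const.mul (fillhCo N k _).contDiff)

lemma fillh_re_im {a b : ℝ} (h : (a : ℂ) + Complex.I * (b : ℂ) = 0) : a = 0 ∧ b = 0 :=
  ⟨by simpa using congrArg Complex.re h, by simpa using congrArg Complex.im h⟩

lemma fillhK_eq_zero (e : Fin N ≃ Fin m ⊕ Fin m) (W : ℝ × YY k → (Fin m → ℂ)) (s : ℝ) (x : XX N)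
    (y : YY k) (hx : ‖x‖ = 1) : fillhK e W (s, x, y) = 0 ↔
      (x = EuclideanSpace.single none 1 ∨ x = -EuclideanSpace.single none 1) ∧ W (s, y) = 0 := by
  constructor
  · intro h
    have h1 : ∀ a, x (some (e.symm (Sum.inr a))) = 0 ∧ x (some (e.symm (Sum.inl a))) = 0 := by
      intro a
      have := congrFun h (e.symm (Sum.inr a))
      simp only [fillhK, Equiv.apply_symm_apply, Sum.elim_inr, fillhCo_apply, Pi.zero_apply] at this
      exact fillh_re_im this
    have h2 : x = EuclideanSpace.single none (x none) := by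
      rw [← sub_eq_zero]
      refine fillh_ext e ?_ (fun a => ?_) (fun a => ?_)
      · simp
      · simp [(h1 a).2]
      · simp [(h1 a).1]
    have h3 : |x none| = 1 := by
      rw [h2] at hx
      simpa using hx
    have h4 : x none ≠ 0 := by
      intro h0
      rw [h0, abs_zero] at h3
      exact zero_ne_one h3
    refine ⟨?_, ?_⟩
    · rcases (abs_eq zero_le_one).1 h3 with h5 | h5
      · left
        rw [h2, h5]
      · right
        rw [h2, h5]
        ext o
        rcases o with _ | i <;> simp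
    · funext a
      have := congrFun h (e.symm (Sum.inl a))
      simp only [fillhK, Equiv.apply_symm_apply, Sum.elim_inl, fillhCo_apply, fillhPr_apply,
        Pi.zero_apply, mul_eq_zero, Complex.I_ne_zero, Complex.ofReal_eq_zero, h4, or_self,
        false_or] at this
      exact this
  · rintro ⟨h1, h2⟩
    funext i
    simp only [fillhK, fillhCo_apply, fillhPr_apply, h2]
    rcases e i with a | a
    · simp
    · rcases h1 with rfl | rfl <;> simp

lemma fillhK_reg (e : Fin N ≃ Fin m ⊕ Fin m) {W : ℝ × YY k → (Fin m → ℂ)}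
    (hW : ContDiff ℝ ∞ W) {s : ℝ} {x : XX N} {y : YY k}
    (hx : x = EuclideanSpace.single none 1 ∨ x = -EuclideanSpace.single none 1)
    (hinj : Function.Injective (fderiv ℝ W (s, y))) : Reg (fillhK e W) (s, x, y) := by
  refine ⟨Set.univ, Filter.univ_mem, fillhK e W, (fillhK_smooth e hW).contDiffOn,
    fun _ _ _ => rfl, fun v hv h0 => ?_⟩
  have hx0 : x none ≠ 0 := by rcases hx with rfl | rfl <;> simp
  have hv0 : v.2.1 none = 0 := by
    rcases hx with rfl | rfl
    · simpa [EuclideanSpace.inner_single_left] using hv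
    · simpa [EuclideanSpace.inner_single_left] using hv
  have hK : HasFDerivAt (fillhK e W) (fderiv ℝ (fillhK e W) (s, x, y)) (s, x, y) :=
    ((fillhK_smooth e hW).differentiable (by simp) _).hasFDerivAt
  have hKi := hasFDerivAt_pi'.1 hK
  have hr : ∀ a, v.2.1 (some (e.symm (Sum.inr a))) = 0 ∧
      v.2.1 (some (e.symm (Sum.inl a))) = 0 := by
    intro a
    have h1 := hKi (e.symm (Sum.inr a))
    simp only [fillhK, Equiv.apply_symm_apply, Sum.elim_inr] at h1
    have h2 := (fillhCo N k (some (e.symm (Sum.inr a)))).hasFDerivAt.fun_add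
      (((fillhCo N k (some (e.symm (Sum.inl a)))).hasFDerivAt (x := (s, x, y))).const_mul Complex.I)
    have h3 := congrArg (fun L : ℝ × XX N × YY k →L[ℝ] ℂ => L v) (h1.unique h2)
    simp only [ContinuousLinearMap.comp_apply, h0, map_zero, _root_.add_apply,
      _root_.smul_apply, smul_eq_mul, fillhCo_apply] at h3
    exact fillh_re_im h3.symm
  have hv1 : v.2.1 = 0 := fillh_ext e hv0 (fun a => (hr a).2) (fun a => (hr a).1)
  have hWd : HasFDerivAt W (fderiv ℝ W (s, y)) (fillhPr N k (s, x, y)) :=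
    (hW.differentiable (by simp) _).hasFDerivAt
  have hv2 : fderiv ℝ W (s, y) (v.1, v.2.2) = 0 := by
    funext a
    have h1 := hKi (e.symm (Sum.inl a))
    simp only [fillhK, Equiv.apply_symm_apply, Sum.elim_inl] at h1
    have h2 := (((fillhCo N k none).hasFDerivAt (x := (s, x, y))).const_mul Complex.I).fun_mul
      ((hasFDerivAt_pi'.1 hWd a).comp (s, x, y) (fillhPr N k).hasFDerivAt)
    have h3 := congrArg (fun L : ℝ × XX N × YY k →L[ℝ] ℂ => L v) (h1.unique h2)
    simp only [ContinuousLinearMap.comp_apply, h0, map_zero, _root_.add_apply,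
      _root_.smul_apply, smul_eq_mul, fillhCo_apply, fillhPr_apply, hv0,
      Complex.ofReal_zero, mul_zero, add_zero, ContinuousLinearMap.proj_apply] at h3
    have h4 : Complex.I * (x none : ℂ) ≠ 0 :=
      mul_ne_zero Complex.I_ne_zero (Complex.ofReal_ne_zero.2 hx0)
    exact (mul_eq_zero.1 h3.symm).resolve_left h4
  have hv3 : (v.1, v.2.2) = 0 := hinj (by rw [hv2, map_zero])
  rw [Prod.mk_eq_zero] at hv3
  exact Prod.ext hv3.1 (Prod.ext hv1 hv3.2)

theorem fill_homZ (e : Fin N ≃ Fin m ⊕ Fin m) {j0 : Fin m}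
    {A : YY k → Matrix (Fin m) (Fin m) ℂ} {W : ℝ × YY k → (Fin m → ℂ)} {Z : Finset (ℝ × YY k)}
    (h : Fill A j0 W Z) : ∃ f1 : XX N → (Fin N → ℂ),
      HomZ (fun x y => blk e (A y) *ᵥ tau0 e j0 x) (fun x _ => f1 x) Z.card := by
  classical
  set u : XX N := EuclideanSpace.single none 1 with hu
  have hun : ‖u‖ = 1 := by simp [hu]
  have hne : u ≠ -u := by
    intro h0
    have := congrArg (fun x : XX N => x none) h0
    simp [hu] at this
    norm_num at this
  have hinj : ∀ x : XX N, Function.Injective (fun p : ℝ × YY k => (p.1, x, p.2)) := by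
    intro x p q hpq
    simp only [Prod.mk.injEq, true_and] at hpq
    exact Prod.ext hpq.1 hpq.2
  set Z' : Finset (ℝ × XX N × YY k) :=
    Z.image (fun p => (p.1, u, p.2)) ∪ Z.image (fun p => (p.1, -u, p.2)) with hZ'
  have hmem : ∀ s x y, (s, x, y) ∈ Z' ↔ (x = u ∨ x = -u) ∧ (s, y) ∈ Z := by
    intro s x y
    simp only [hZ', Finset.mem_union, Finset.mem_image, Prod.mk.injEq]
    constructor
    · rintro (⟨p, hp, rfl, rfl, rfl⟩ | ⟨p, hp, rfl, rfl, rfl⟩)
      · exact ⟨Or.inl rfl, hp⟩
      · exact ⟨Or.inr rfl, hp⟩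
    · rintro ⟨rfl | rfl, hp⟩
      · exact Or.inl ⟨_, hp, rfl, rfl, rfl⟩
      · exact Or.inr ⟨_, hp, rfl, rfl, rfl⟩
  refine ⟨fun x => fillhK e W (1, x, 0), fillhK e W, Z', ⟨?_, ?_, ?_, ?_, ?_, ?_, ?_⟩, ?_⟩
  · exact (fillhK_smooth e h.smooth).continuous.continuousOn
  · intro s x y _ _ _
    funext i
    simp only [fillhK, fillhCo_apply, fillhPr_apply, PiLp.neg_apply, Pi.neg_apply]
    rcases e i with a | a
    · simp only [Sum.elim_inl]
      push_cast
      ring
    · simp only [Sum.elim_inr]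
      push_cast
      ring
  · intro s x y _ _ _ hy
    funext i
    simp only [fillhK, fillhCo_apply, fillhPr_apply, h.out s y hy]
  · intro x y _
    funext i
    obtain ⟨j, rfl⟩ := e.symm.surjective i
    simp only [fillhK, fillhCo_apply, fillhPr_apply, h.zero, Equiv.apply_symm_apply, blk,
      Matrix.mulVec, dotProduct]
    rw [← e.symm.sum_comp, Fintype.sum_sum_type]
    rcases j with a | a
    · simp [tau0, mul_comm]
    · simp [tau0, Matrix.one_apply]
  · intro x y _
    funext i
    simp only [fillhK, fillhCo_apply, fillhPr_apply, h.one y]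
  · rintro ⟨s, x, y⟩
    rw [hmem, h.mem]
    constructor
    · rintro ⟨hx, hs, hW⟩
      have hx1 : ‖x‖ = 1 := by
        rcases hx with rfl | rfl
        · exact hun
        · rw [norm_neg, hun]
      exact ⟨⟨hs, hx1⟩, (fillhK_eq_zero e W s x y hx1).2 ⟨hx, hW⟩⟩
    · rintro ⟨⟨hs, hx1⟩, h0⟩
      obtain ⟨hx, hW⟩ := (fillhK_eq_zero e W s x y hx1).1 h0
      exact ⟨hx, hs, hW⟩
  · rintro ⟨s, x, y⟩ hp
    obtain ⟨hx, hp'⟩ := (hmem s x y).1 hp
    obtain ⟨h1, h2, h3, h4⟩ := h.reg _ hp'
    exact ⟨h1, h2, h3, fillhK_reg e h.smooth hx h4⟩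
  · rw [hZ', Finset.card_union_of_disjoint, Finset.card_image_of_injective _ (hinj u),
      Finset.card_image_of_injective _ (hinj (-u)), two_mul]
    rw [Finset.disjoint_left]
    intro q hq hq'
    obtain ⟨p, -, rfl⟩ := Finset.mem_image.1 hq
    obtain ⟨p', -, hp'⟩ := Finset.mem_image.1 hq'
    simp only [Prod.mk.injEq] at hp'
    exact hne hp'.2.1.symm

end Pool.Agent.Lib.MP_b7c8b0_gt
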