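import Pool.Agent.Lib.MP_b7c8b0_gt.FDefs

open scoped ContDiff Topology ComplexConjugate TensorProduct
open Filter MeasureTheory Matrix

noncomputable section

namespace Pool.Agent.Lib.MP_b7c8b0_gt

variable {ι : Type} [Fintype ι] [DecidableEq ι]

/-- Pure tensors. -/
def formTm (f : Sm ι) (a : ExteriorAlgebra ℂ (ι → ℂ)) : Om ι :=
  (f ⊗ₜ[ℂ] a : Sm ι ⊗[ℂ] ExteriorAlgebra ℂ (ι → ℂ))

section
variable (f g : Sm ι) (a b : ExteriorAlgebra ℂ (ι → ℂ))

omit [DecidableEq ι] in
theorem formTm_mul : formTm f a * formTm g b = formTm (f * g) (a * b) :=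
  Algebra.TensorProduct.tmul_mul_tmul f g a b
omit [DecidableEq ι] in
theorem formTm_add : formTm f (a + b) = formTm f a + formTm f b := TensorProduct.tmul_add f a b
omit [DecidableEq ι] in
theorem formTm_add' : formTm (f + g) a = formTm f a + formTm g a := TensorProduct.add_tmul f g a
omit [DecidableEq ι] in
theorem formTm_neg : formTm f (-a) = -formTm f a := TensorProduct.tmul_neg f a
omit [DecidableEq ι] in
theorem formTm_zero : formTm f 0 = 0 := TensorProduct.tmul_zero _ f
omit [DecidableEq ι] in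
theorem formTm_zero' : formTm 0 a = 0 := TensorProduct.zero_tmul _ a
omit [DecidableEq ι] in
theorem formTm_smul (c : ℂ) : formTm f (c • a) = formTm (c • f) a :=
  (TensorProduct.smul_tmul c f a).symm
omit [DecidableEq ι] in
theorem fn_eq_tm : fn f = formTm f 1 := rfl
theorem eps_eq_tm (i : ι) :
    eps i = formTm 1 (ExteriorAlgebra.ι ℂ (Pi.single i (1 : ℂ) : ι → ℂ)) := rfl
omit [DecidableEq ι] in
theorem sg_tm : sg (formTm f a) = formTm f (CliffordAlgebra.involute a) := rfl
theorem pdO_tm (i : ι) : pdO i (formTm f a) = formTm (pd i f) a := rfl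
theorem face_tm (i : ι) (c : ℝ) :
    face i c (formTm f a) = formTm (fS i c f) (ExteriorAlgebra.map (killL i) a) := rfl
end

omit [DecidableEq ι] in
theorem Om.tind {P : Om ι → Prop} (h0 : P 0) (ht : ∀ f a, P (formTm f a))
    (ha : ∀ a b, P a → P b → P (a + b)) (w : Om ι) : P w :=
  TensorProduct.induction_on (motive := P) w h0 ht ha

theorem Om.ind {P : Om ι → Prop} (hf : ∀ f, P (fn f)) (he : ∀ i, P (eps i))
    (ha : ∀ a b, P a → P b → P (a + b)) (hm : ∀ a b, P a → P b → P (a * b)) (w : Om ι) : P w := by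
  have h0 : P 0 := by simpa using hf 0
  have h1 : ∀ a, P (formTm 1 a) := by
    intro a
    induction a using ExteriorAlgebra.induction with
    | algebraMap r =>
      rw [Algebra.algebraMap_eq_smul_one, formTm_smul]; exact hf _
    | ι v =>
      have hv : ∀ s : Finset ι, P (formTm 1 (∑ i ∈ s,
          v i • ExteriorAlgebra.ι ℂ (Pi.single i (1 : ℂ) : ι → ℂ))) := by
        intro s
        induction s using Finset.induction_on with
        | empty => rw [Finset.sum_empty, formTm_zero]; exact h0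
        | insert i s hi ih =>
          rw [Finset.sum_insert hi, formTm_add]
          refine ha _ _ ?_ ih
          have := hm _ _ (hf (v i • 1)) (he i)
          rwa [fn_eq_tm, eps_eq_tm, formTm_mul, mul_one, one_mul, ← formTm_smul] at this
      have e : ExteriorAlgebra.ι ℂ v = ∑ i,
          v i • ExteriorAlgebra.ι ℂ (Pi.single i (1 : ℂ) : ι → ℂ) := by
        conv_lhs => rw [pi_eq_sum_univ' v]
        simp only [map_sum, map_smul]
      rw [e]; exact hv _
    | mul a b iha ihb =>
      have := hm _ _ iha ihb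
      rwa [formTm_mul, mul_one] at this
    | add a b iha ihb => rw [formTm_add]; exact ha _ _ iha ihb
  refine Om.tind h0 (fun f a => ?_) ha w
  have := hm _ _ (hf f) (h1 a)
  rwa [fn_eq_tm, formTm_mul, mul_one, one_mul] at this

theorem fn_comm (f : Sm ι) (w : Om ι) : fn f * w = w * fn f := by
  induction w using Om.tind with
  | h0 => simp
  | ht g a => rw [fn_eq_tm, formTm_mul, formTm_mul, mul_comm f, one_mul, mul_one]
  | ha a b iha ihb => rw [mul_add, add_mul, iha, ihb]
theorem sg_fn (f : Sm ι) : sg (fn f) = fn f := by rw [fn_eq_tm, sg_tm, map_one]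
theorem sg_eps (i : ι) : sg (eps i) = -eps i := by
  rw [eps_eq_tm, sg_tm, ← formTm_neg]
  exact congrArg _ (CliffordAlgebra.involute_ι _)
theorem sg_sg (w : Om ι) : sg (sg w) = w := by
  induction w using Om.tind with
  | h0 => simp
  | ht g a => rw [sg_tm, sg_tm, CliffordAlgebra.involute_involute]
  | ha a b iha ihb => rw [map_add, map_add, iha, ihb]
theorem eps_mul (i : ι) (w : Om ι) : eps i * w = sg w * eps i := by
  induction w using Om.ind with
  | hf f => rw [sg_fn, fn_comm]
  | he j =>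
    rw [sg_eps, neg_mul, eq_neg_iff_add_eq_zero, eps_eq_tm, eps_eq_tm, formTm_mul, formTm_mul,
      ← formTm_add, ExteriorAlgebra.ι_add_mul_swap, formTm_zero]
  | ha a b iha ihb => rw [mul_add, map_add, add_mul, iha, ihb]
  | hm a b iha ihb => rw [← mul_assoc, iha, mul_assoc, ihb, map_mul, mul_assoc]
theorem eps_sq (i : ι) : eps i * eps i = (0 : Om ι) := by
  rw [eps_eq_tm, formTm_mul, ExteriorAlgebra.ι_sq_zero, formTm_zero]
theorem ev_comm {a : Om ι} (h : sg a = a) (w : Om ι) : a * w = w * a := by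
  induction w using Om.ind with
  | hf f => rw [fn_comm]
  | he j => rw [eps_mul, h]
  | ha a b iha ihb => rw [mul_add, add_mul, iha, ihb]
  | hm a b iha ihb => rw [← mul_assoc, iha, mul_assoc, ihb, mul_assoc]
theorem od_comm {b : Om ι} (h : sg b = -b) (w : Om ι) : b * w = sg w * b := by
  induction w using Om.ind with
  | hf f => rw [sg_fn, fn_comm]
  | he j => rw [sg_eps, neg_mul, eps_mul, h, neg_mul, neg_neg]
  | ha a b iha ihb => rw [mul_add, map_add, add_mul, iha, ihb]
  | hm a b iha ihb => rw [← mul_assoc, iha, mul_assoc, ihb, map_mul, mul_assoc]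
theorem od_sq {b : Om ι} (h : sg b = -b) : b * b = 0 := by
  have h1 := od_comm h b
  rw [h, neg_mul, eq_neg_iff_add_eq_zero, ← two_smul ℂ] at h1
  exact (smul_eq_zero_iff_right two_ne_zero).1 h1

theorem pd_apply (i : ι) (f : Sm ι) (x : ι → ℝ) :
    (pd i f).1 x = fderiv ℝ f.1 x (Pi.single i 1) := rfl

omit [DecidableEq ι] in
theorem form_diff (f : Sm ι) (x : ι → ℝ) : DifferentiableAt ℝ f.1 x :=
  ((Sm.smooth f).differentiable (by simp)) x

theorem pd_mul (i : ι) (f g : Sm ι) : pd i (f * g) = pd i f * g + f * pd i g := by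
  ext x
  change fderiv ℝ (f.1 * g.1) x _ = fderiv ℝ f.1 x _ * g.1 x + f.1 x * fderiv ℝ g.1 x _
  rw [fderiv_mul (form_diff f x) (form_diff g x)]
  simp only [FunLike.coe_add, FunLike.coe_smul, Pi.add_apply,
    Pi.smul_apply, smul_eq_mul]
  ring
theorem pd_comm (i j : ι) (f : Sm ι) : pd i (pd j f) = pd j (pd i f) := by
  ext x
  have hd : DifferentiableAt ℝ (fderiv ℝ f.1) x :=
    (((Sm.smooth f).fderiv_right (m := ∞) (by simp)).differentiable (by simp)) x
  have key : ∀ u v, fderiv ℝ (fun y => fderiv ℝ f.1 y v) x u = fderiv ℝ (fderiv ℝ f.1) x u v := by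
    intro u v
    rw [fderiv_clm_apply hd (differentiableAt_const v)]
    simp
  change fderiv ℝ (fun y => fderiv ℝ f.1 y _) x _ = fderiv ℝ (fun y => fderiv ℝ f.1 y _) x _
  rw [key, key]
  exact (Sm.smooth f).contDiffAt.isSymmSndFDerivAt (by simp; norm_cast) _ _
theorem pd_algebraMap (i : ι) (c : ℂ) : pd i (algebraMap ℂ (Sm ι) c) = 0 := by
  ext x
  change fderiv ℝ (fun _ => c) x _ = 0
  simp
theorem pd_one (i : ι) : pd i (1 : Sm ι) = 0 := by simpa using pd_algebraMap i 1
theorem form_pd_un (φ : ℝ → ℂ) (hφ : ContDiff ℝ ∞ φ) (i j : ι) (x : ι → ℝ) :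
    (pd j (un φ hφ i)).1 x = (Pi.single j (1 : ℝ) : ι → ℝ) i • deriv φ (x i) := by
  have h1 := (hφ.differentiable (by simp) (x i)).hasDerivAt.hasFDerivAt.comp x
    (hasFDerivAt_apply (𝕜 := ℝ) i x)
  change fderiv ℝ (φ ∘ fun x : ι → ℝ => x i) x _ = _
  rw [h1.fderiv]
  simp
theorem form_pd_xc (i j : ι) (x : ι → ℝ) :
    (pd i (xc j)).1 x = (((Pi.single i (1 : ℝ) : ι → ℝ) j : ℝ) : ℂ) := by
  have h1 := Complex.ofRealCLM.hasFDerivAt.comp x (hasFDerivAt_apply (𝕜 := ℝ) j x)
  change fderiv ℝ (Complex.ofRealCLM ∘ fun x : ι → ℝ => x j) x _ = _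
  rw [h1.fderiv]
  simp
theorem pd_xc_self (i : ι) : pd i (xc i) = 1 := by
  ext x; rw [form_pd_xc]; simp
theorem pd_xc_ne {i j : ι} (h : i ≠ j) : pd i (xc j) = 0 := by
  ext x; rw [form_pd_xc]; simp [h.symm]

theorem pdO_fn (i : ι) (f : Sm ι) : pdO i (fn f) = fn (pd i f) := rfl
theorem pdO_eps (i j : ι) : pdO i (eps j) = 0 := by
  rw [eps_eq_tm, pdO_tm, pd_one, formTm_zero']
theorem pdO_mul (i : ι) (a b : Om ι) : pdO i (a * b) = pdO i a * b + a * pdO i b := by
  induction a using Om.tind with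
  | h0 => simp
  | ht f a =>
    induction b using Om.tind with
    | h0 => simp
    | ht g b => rw [formTm_mul, pdO_tm, pdO_tm, pdO_tm, formTm_mul, formTm_mul, pd_mul, formTm_add']
    | ha b b' ih ih' => rw [mul_add, map_add, ih, ih', map_add, mul_add, mul_add]; abel
  | ha a a' ih ih' => rw [add_mul, map_add, ih, ih', map_add, add_mul, add_mul]; abel
theorem pdO_comm (i j : ι) (w : Om ι) : pdO i (pdO j w) = pdO j (pdO i w) := by
  induction w using Om.tind with
  | h0 => simp
  | ht g a => rw [pdO_tm, pdO_tm, pdO_tm, pdO_tm, pd_comm]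
  | ha a b iha ihb => simp only [map_add, iha, ihb]
theorem sg_pdO (i : ι) (w : Om ι) : sg (pdO i w) = pdO i (sg w) := by
  induction w using Om.tind with
  | h0 => simp
  | ht g a => rfl
  | ha a b iha ihb => simp only [map_add, iha, ihb]

theorem dd_apply (w : Om ι) : dd w = ∑ i, eps i * pdO i w := by
  simp [dd, LinearMap.sum_apply]
theorem dd_fn (f : Sm ι) : dd (fn f) = ∑ i, fn (pd i f) * eps i := by
  simp only [dd_apply, pdO_fn, fn_comm]
theorem dd_eps (i : ι) : dd (eps i) = 0 := by simp [dd_apply, pdO_eps]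
theorem dd_one : dd (1 : Om ι) = 0 := by
  rw [← map_one fn, dd_fn]; simp [pd_one]
theorem dd_algebraMap (c : ℂ) : dd (algebraMap ℂ (Om ι) c) = 0 := by
  rw [Algebra.algebraMap_eq_smul_one, map_smul, dd_one, smul_zero]
theorem dd_mul (a b : Om ι) : dd (a * b) = dd a * b + sg a * dd b := by
  simp only [dd_apply, pdO_mul, mul_add, Finset.sum_add_distrib, Finset.sum_mul, Finset.mul_sum,
    ← mul_assoc, eps_mul _ a]
theorem form_pdO_dd (i : ι) (w : Om ι) : pdO i (dd w) = ∑ j, eps j * pdO i (pdO j w) := by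
  simp only [dd_apply, map_sum, pdO_mul, pdO_eps, zero_mul, zero_add]
theorem dd_dd (w : Om ι) : dd (dd w) = 0 := by
  have h : dd (dd w) = ∑ i, ∑ j, eps i * eps j * pdO i (pdO j w) := by
    simp only [dd_apply (dd w), form_pdO_dd, Finset.mul_sum, mul_assoc]
  have h' : dd (dd w) = -dd (dd w) := by
    conv_lhs => rw [h, Finset.sum_comm]
    rw [h, ← Finset.sum_neg_distrib]
    refine Finset.sum_congr rfl fun i _ => ?_
    rw [← Finset.sum_neg_distrib]
    refine Finset.sum_congr rfl fun j _ => ?_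
    rw [eps_mul j (eps i), sg_eps, pdO_comm, neg_mul, neg_mul]
  rw [eq_neg_iff_add_eq_zero, ← two_smul ℂ] at h'
  exact (smul_eq_zero_iff_right two_ne_zero).1 h'
theorem sg_dd (w : Om ι) : sg (dd w) = -dd (sg w) := by
  simp only [dd_apply, map_sum, map_mul, sg_eps, sg_pdO, neg_mul, Finset.sum_neg_distrib]
theorem sg_dd_fn (f : Sm ι) : sg (dd (fn f)) = -dd (fn f) := by rw [sg_dd, sg_fn]
theorem dd_fn_mul (f g : Sm ι) : dd (fn (f * g)) = dd (fn f) * fn g + fn f * dd (fn g) := by
  rw [map_mul, dd_mul, sg_fn]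
theorem dd_xc (i : ι) : dd (fn (xc i)) = eps i := by
  rw [dd_fn, Finset.sum_eq_single i (fun j _ hj => by rw [pd_xc_ne hj]; simp) (by simp),
    pd_xc_self, map_one, one_mul]
theorem dd_un (φ : ℝ → ℂ) (hφ : ContDiff ℝ ∞ φ) (hφ' : ContDiff ℝ ∞ (deriv φ)) (i : ι) :
    dd (fn (un φ hφ i)) = fn (un (deriv φ) hφ' i) * eps i := by
  have h1 : ∀ j, j ≠ i → pd j (un φ hφ i) = 0 := fun j hj => by
    ext x; rw [form_pd_un]; simp [hj.symm]
  have h2 : pd i (un φ hφ i) = un (deriv φ) hφ' i := by
    ext x; rw [form_pd_un]; simp [un]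
  rw [dd_fn, Finset.sum_eq_single i (fun j _ hj => by rw [h1 j hj]; simp) (by simp), h2]
theorem dd_zeta (z : ι) :
    dd (fn (zeta z)) = (2 * Real.pi * Complex.I : ℂ) • (fn (zeta z) * eps z) := by
  let φ : ℝ → ℂ := fun t => Complex.exp (2 * Real.pi * Complex.I * t)
  have hφ : ContDiff ℝ ∞ φ := (Complex.contDiff_exp (𝕜 := ℝ)).comp
    (contDiff_const.mul Complex.ofRealCLM.contDiff)
  have hd : deriv φ = fun t => (2 * Real.pi * Complex.I : ℂ) * φ t := by
    funext t
    have := ((Complex.ofRealCLM.hasDerivAt (x := t)).const_mul (2 * Real.pi * Complex.I : ℂ)).cexp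
    rw [show φ = fun t : ℝ => Complex.exp (2 * Real.pi * Complex.I * Complex.ofRealCLM t) from rfl,
      this.deriv]
    simp [mul_comm]
  have hφ' : ContDiff ℝ ∞ (deriv φ) := by rw [hd]; exact contDiff_const.mul hφ
  have e : un (deriv φ) hφ' z = (2 * Real.pi * Complex.I : ℂ) • zeta z := by
    ext x
    change deriv φ (x z) = _
    rw [hd]; rfl
  rw [show zeta z = un φ hφ z from rfl, dd_un φ hφ hφ', e, map_smul, smul_mul_assoc]
  rfl
/-- Powers of a closed even form are closed. -/
theorem dd_pow {a : Om ι} (h : sg a = a) (h' : dd a = 0) (m : ℕ) : dd (a ^ m) = 0 := by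
  induction m with
  | zero => rw [pow_zero, dd_one]
  | succ m ih => rw [pow_succ', dd_mul, h, h', ih, zero_mul, mul_zero, add_zero]

/-! Faces. -/

theorem fS_apply (i : ι) (c : ℝ) (f : Sm ι) (x : ι → ℝ) :
    (fS i c f).1 x = f.1 (Function.update x i c) := rfl
theorem fS_xc_self (i : ι) (c : ℝ) : fS i c (xc i) = algebraMap ℂ (Sm ι) c := by
  ext x; rw [fS_apply]; simp [xc]
theorem fS_xc_ne {i j : ι} (h : j ≠ i) (c : ℝ) : fS i c (xc j) = xc j := by
  ext x; rw [fS_apply]; simp [xc, Function.update_of_ne h]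
theorem fS_zeta_ne {i z : ι} (h : z ≠ i) (c : ℝ) : fS i c (zeta z) = zeta z := by
  ext x; rw [fS_apply]; simp [zeta, xc, Function.update_of_ne h]
theorem fS_zeta_zero (z : ι) : fS z 0 (zeta z) = 1 := by
  ext x; rw [fS_apply]; simp [zeta, xc]
theorem fS_zeta_one (z : ι) : fS z 1 (zeta z) = 1 := by
  ext x; rw [fS_apply]; simp [zeta, xc]
theorem form_pd_fS (i j : ι) (c : ℝ) (f : Sm ι) (x : ι → ℝ) : (pd j (fS i c f)).1 x =
    fderiv ℝ f.1 (Function.update x i c) (Function.update (Pi.single j 1) i 0) := by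
  have h0 : HasFDerivAt (fun x : ι → ℝ => Function.update x i c)
      (ContinuousLinearMap.pi fun k => if k = i then 0 else ContinuousLinearMap.proj k :
        (ι → ℝ) →L[ℝ] (ι → ℝ)) x := by
    refine hasFDerivAt_pi.2 fun k => ?_
    by_cases h : k = i
    · subst h; simpa using hasFDerivAt_const c x
    · simpa [Function.update_of_ne h, h] using hasFDerivAt_apply (𝕜 := ℝ) k x
  have h1 := (form_diff f _).hasFDerivAt.comp x h0
  change fderiv ℝ (f.1 ∘ fun x : ι → ℝ => Function.update x i c) x _ = _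
  rw [h1.fderiv, ContinuousLinearMap.comp_apply]
  congr 1
  funext k
  by_cases h : k = i
  · subst h; simp
  · simp [h]
theorem pd_fS_self (i : ι) (c : ℝ) (f : Sm ι) : pd i (fS i c f) = 0 := by
  ext x
  have : Function.update (Pi.single i 1 : ι → ℝ) i 0 = 0 := by
    funext k
    by_cases h : k = i
    · subst h; simp
    · simp [h]
  rw [form_pd_fS, this, map_zero]; rfl
theorem pd_fS_ne {i j : ι} (h : j ≠ i) (c : ℝ) (f : Sm ι) :
    pd j (fS i c f) = fS i c (pd j f) := by
  ext x
  have : Function.update (Pi.single j 1 : ι → ℝ) i 0 = Pi.single j 1 := by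
    rw [Function.update_eq_self_iff]; simp [h.symm]
  rw [form_pd_fS, this]; rfl
theorem face_fn (i : ι) (c : ℝ) (f : Sm ι) : face i c (fn f) = fn (fS i c f) := by
  rw [fn_eq_tm, face_tm, map_one]; rfl
theorem face_eps_self (i : ι) (c : ℝ) : face i c (eps i) = 0 := by
  have : killL i (Pi.single i (1 : ℂ)) = 0 := by
    funext k
    by_cases h : k = i <;> simp [killL, h]
  rw [eps_eq_tm, face_tm, ExteriorAlgebra.map_apply_ι, this, map_zero, formTm_zero]
theorem face_eps_ne {i j : ι} (h : j ≠ i) (c : ℝ) : face i c (eps j) = eps j := by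
  have : killL i (Pi.single j (1 : ℂ)) = Pi.single j 1 := by
    funext k
    by_cases h' : k = i
    · subst h'; simp [killL, h.symm]
    · simp [killL, h']
  rw [eps_eq_tm, face_tm, ExteriorAlgebra.map_apply_ι, this, map_one]
theorem face_sg (i : ι) (c : ℝ) (w : Om ι) : face i c (sg w) = sg (face i c w) := by
  induction w using Om.ind with
  | hf f => rw [sg_fn, face_fn, sg_fn]
  | he j =>
    by_cases h : j = i
    · subst h; simp [sg_eps, face_eps_self]
    · simp [sg_eps, face_eps_ne h]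
  | ha a b iha ihb => simp only [map_add, iha, ihb]
  | hm a b iha ihb => simp only [map_mul, iha, ihb]
theorem face_dd (i : ι) (c : ℝ) (w : Om ι) : face i c (dd w) = dd (face i c w) := by
  induction w using Om.ind with
  | hf f =>
    rw [face_fn, dd_fn, dd_fn, map_sum]
    refine Finset.sum_congr rfl fun j _ => ?_
    by_cases h : j = i
    · subst h; simp [face_eps_self, pd_fS_self]
    · rw [map_mul, face_fn, face_eps_ne h, pd_fS_ne h]
  | he j =>
    by_cases h : j = i
    · subst h; simp [dd_eps, face_eps_self]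
    · simp [dd_eps, face_eps_ne h]
  | ha a b iha ihb => simp only [map_add, iha, ihb]
  | hm a b iha ihb => simp only [map_mul, map_add, dd_mul, iha, ihb, face_sg]
theorem face_face_self (i : ι) (c c' : ℝ) (w : Om ι) :
    face i c (face i c' w) = face i c' w := by
  induction w using Om.ind with
  | hf f =>
    rw [face_fn, face_fn]
    congr 1
    ext x; simp [fS_apply]
  | he j =>
    by_cases h : j = i
    · subst h; simp [face_eps_self]
    · simp [face_eps_ne h]
  | ha a b iha ihb => simp only [map_add, iha, ihb]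
  | hm a b iha ihb => simp only [map_mul, iha, ihb]
theorem face_comm {i j : ι} (h : i ≠ j) (c c' : ℝ) (w : Om ι) :
    face i c (face j c' w) = face j c' (face i c w) := by
  induction w using Om.ind with
  | hf f =>
    rw [face_fn, face_fn, face_fn, face_fn]
    congr 1
    ext x; simp [fS_apply, Function.update_comm h]
  | he k =>
    by_cases h1 : k = i
    · subst h1; simp [face_eps_self, face_eps_ne h]
    · by_cases h2 : k = j
      · subst h2; simp [face_eps_self, face_eps_ne h1]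
      · simp [face_eps_ne h1, face_eps_ne h2]
  | ha a b iha ihb => simp only [map_add, iha, ihb]
  | hm a b iha ihb => simp only [map_mul, iha, ihb]
theorem Ind.face {i : ι} {w : Om ι} (h : Ind i w) (c : ℝ) : face i c w = w := by
  have h' : MP_b7c8b0_gt.face i 0 w = w := h
  rw [← h', face_face_self]
theorem Ind.wper {i : ι} {w : Om ι} (h : Ind i w) : WPer i w := (h.face 1).trans (h.face 0).symm

/-! The predicate `Tor`. -/

section
variable {P l : List ι} {f g : Sm ι}
theorem Tor.fS_not_mem (h : Tor P l f) {i : ι} (hP : i ∉ P) (hl : i ∉ l) (c : ℝ) :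
    fS i c f = f := by
  ext x
  refine h _ _ (fun j hj => ?_) fun j hj => ⟨0, ?_⟩
  · have : j ≠ i := fun e => hP (e ▸ hj)
    simp [this]
  · have : j ≠ i := fun e => hl (e ▸ hj)
    simp [this]
theorem Tor.fS_per (h : Tor P l f) {i : ι} (hP : i ∉ P) : fS i 1 f = fS i 0 f := by
  ext x
  refine h _ _ (fun j hj => ?_) fun j _ => ?_
  · have : j ≠ i := fun e => hP (e ▸ hj)
    simp [this]
  · by_cases e : j = i
    · subst e; exact ⟨1, by simp⟩
    · exact ⟨0, by simp [e]⟩
theorem Tor.algebraMap (c : ℂ) : Tor P l (algebraMap ℂ (Sm ι) c) := fun _ _ _ _ => rfl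
theorem Tor.zero : Tor P l (0 : Sm ι) := fun _ _ _ _ => rfl
theorem Tor.one : Tor P l (1 : Sm ι) := fun _ _ _ _ => rfl
theorem Tor.add (hf : Tor P l f) (hg : Tor P l g) : Tor P l (f + g) := fun x y h1 h2 =>
  congrArg₂ (· + ·) (hf x y h1 h2) (hg x y h1 h2)
theorem Tor.sub (hf : Tor P l f) (hg : Tor P l g) : Tor P l (f - g) := fun x y h1 h2 =>
  congrArg₂ (· - ·) (hf x y h1 h2) (hg x y h1 h2)
theorem Tor.neg (hf : Tor P l f) : Tor P l (-f) := fun x y h1 h2 =>
  congrArg (- ·) (hf x y h1 h2)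
theorem Tor.mul (hf : Tor P l f) (hg : Tor P l g) : Tor P l (f * g) := fun x y h1 h2 =>
  congrArg₂ (· * ·) (hf x y h1 h2) (hg x y h1 h2)
theorem Tor.pow (hf : Tor P l f) (m : ℕ) : Tor P l (f ^ m) := by
  induction m with
  | zero => rw [pow_zero]; exact Tor.one
  | succ m ih => rw [pow_succ]; exact ih.mul hf
theorem Tor.smul (hf : Tor P l f) (c : ℂ) : Tor P l (c • f) := fun x y h1 h2 =>
  congrArg (c * ·) (hf x y h1 h2)
theorem Tor.sum {α : Type} (s : Finset α) (F : α → Sm ι) (h : ∀ a ∈ s, Tor P l (F a)) :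
    Tor P l (∑ a ∈ s, F a) :=
  Finset.sum_induction F (Tor P l) (fun _ _ => Tor.add) Tor.zero h
theorem Tor.mono (hf : Tor P l f) {P' l' : List ι} (hP : ∀ i ∈ P, i ∈ P')
    (hl : ∀ i ∈ l, i ∈ P' ∨ i ∈ l') : Tor P' l' f := fun x y h1 h2 =>
  hf x y (fun i hi => h1 i (hP i hi)) fun i hi =>
    (hl i hi).elim (fun h => ⟨0, by simp [h1 i h]⟩) (h2 i)
theorem Tor.xc {i : ι} (h : i ∈ P) : Tor P l (xc i) := fun _ _ h1 _ =>
  congrArg Complex.ofReal (h1 i h)
theorem Tor.zeta {z : ι} (h : z ∈ l) : Tor P l (zeta z) := by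
  intro x y _ h2
  obtain ⟨k, hk⟩ := h2 z h
  change Complex.exp (2 * Real.pi * Complex.I * (x z : ℝ)) =
    Complex.exp (2 * Real.pi * Complex.I * (y z : ℝ))
  rw [hk, Complex.exp_eq_exp_iff_exists_int]
  exact ⟨k, by push_cast; ring⟩
/-- Restricting to a face removes the variable. -/
theorem Tor.fS_cons_left {z : ι} (hf : Tor (z :: P) l f) (c : ℝ) : Tor P l (fS z c f) := by
  intro x y h1 h2
  refine hf _ _ (fun i hi => ?_) fun i hi => ?_
  · by_cases e : i = z
    · subst e; simp
    · simpa [e] using h1 i ((List.mem_cons.1 hi).resolve_left e)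
  · by_cases e : i = z
    · subst e; exact ⟨0, by simp⟩
    · simpa [e] using h2 i hi
theorem Tor.fS_cons_right {z : ι} (hf : Tor P (z :: l) f) (c : ℝ) : Tor P l (fS z c f) := by
  intro x y h1 h2
  refine hf _ _ (fun i hi => ?_) fun i hi => ?_
  · by_cases e : i = z
    · subst e; simp
    · simpa [e] using h1 i hi
  · by_cases e : i = z
    · subst e; exact ⟨0, by simp⟩
    · simpa [e] using h2 i ((List.mem_cons.1 hi).resolve_left e)
end

end Pool.Agent.Lib.MP_b7c8b0_gt
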