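import Pool.Agent.Lib.MP_b7c8b0_gt.ADefs

open scoped ContDiff ComplexConjugate Topology
open Complex Filter

noncomputable section

namespace Pool.Agent.Lib.MP_b7c8b0_gt

theorem gm_rat_nonneg (a b : ℂ) : 0 ≤ rat a b := by unfold rat; positivity

theorem gm_small {a b : ℂ} (h : rat a b ≤ 1 / 10000) : 99 * ‖b‖ ≤ ‖a‖ := by
  unfold rat at h
  by_cases hb : ‖b‖ = 0
  · rw [hb]; simp
  have hb' : 0 < ‖b‖ := lt_of_le_of_ne (norm_nonneg _) (Ne.symm hb)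
  have hd : 0 < ‖a‖ ^ 2 + ‖b‖ ^ 2 := by positivity
  rw [div_le_iff₀ hd] at h
  have ha := norm_nonneg a
  by_contra hc
  push Not at hc
  nlinarith

theorem gm_lam_ne (κ : Cut) {a b : ℂ} (h : κ.lam (rat a b) ≠ 0) : 99 * ‖b‖ ≤ ‖a‖ := by
  apply gm_small
  by_contra hc
  push Not at hc
  exact h (κ.zero _ hc.le)

theorem gm_deriv_ne (κ : Cut) {r : ℝ} (h : deriv κ.lam r ≠ 0) : r ≤ 1 / 10000 := by
  by_contra hc
  push Not at hc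
  apply h
  have : κ.lam =ᶠ[𝓝 r] fun _ => (0 : ℝ) := by
    filter_upwards [lt_mem_nhds hc] with x hx using κ.zero x hx.le
  rw [this.deriv_eq]; simp

theorem gm_abs_lam (κ : Cut) (r : ℝ) : ‖((κ.lam r : ℝ) : ℂ)‖ ≤ 1 := by
  rw [Complex.norm_real, Real.norm_eq_abs, abs_of_nonneg (κ.nonneg r)]; exact κ.le_one r

theorem gm_rat_smul (a b : ℂ) {s : ℝ} (hs : s ≠ 0) : rat ((s : ℂ) * a) ((s : ℂ) * b) = rat a b := by
  unfold rat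
  simp only [norm_mul, Complex.norm_real, mul_pow]
  have : (0 : ℝ) < ‖s‖ ^ 2 := by positivity
  rw [← mul_add, mul_div_mul_left _ _ this.ne']

theorem gm_congr {E : Type*} [NormedAddCommGroup E] [NormedSpace ℝ E] {f g : ℝ → E} {a b : E}
    {x : ℝ} (h : HasDerivAt f a x) (hf : ∀ t, g t = f t) (hb : b = a) : HasDerivAt g b x := by
  rw [hb, show g = f from funext hf]; exact h

theorem gm_line (Y V : ℂ) : HasDerivAt (fun t : ℝ => Y + (t : ℂ) * V) V 0 := by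
  have := ((Complex.ofRealCLM.hasDerivAt (x := (0 : ℝ))).mul_const V).const_add Y
  simpa using this

theorem gm_line_conj (Y V : ℂ) :
    HasDerivAt (fun t : ℝ => conj (Y + (t : ℂ) * V)) (conj V) 0 := by
  have := gm_line (conj Y) (conj V)
  simpa using this

theorem gm_nsq (Y V : ℂ) : ∃ m : ℝ,
    HasDerivAt (fun t : ℝ => ‖Y + (t : ℂ) * V‖ ^ 2) m 0 ∧ |m| ≤ 2 * ‖Y‖ * ‖V‖ := by
  refine ⟨2 * inner ℝ Y V, ?_, ?_⟩
  · have := (gm_line Y V).norm_sq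
    simpa using this
  · have := abs_real_inner_le_norm Y V
    rw [abs_mul, abs_two]; linarith

theorem gm_lamd (κ : Cut) (r : ℝ) : HasDerivAt κ.lam (deriv κ.lam r) r :=
  (κ.s.differentiable (by simp)).differentiableAt.hasDerivAt

theorem gm_phi (κ : Cut) {ν : ℂ} (hν : ν ≠ 0) (Y V : ℂ) : ∃ d : ℝ,
    HasDerivAt (fun t : ℝ => κ.lam (rat ν (Y + (t : ℂ) * V))) d 0 ∧ ‖Y‖ * |d| ≤ ‖V‖ / 50 ∧
      (d ≠ 0 → 99 * ‖Y‖ ≤ ‖ν‖) := by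
  obtain ⟨m, hm, hb⟩ := gm_nsq Y V
  have ha : 0 < ‖ν‖ := norm_pos_iff.2 hν
  have hd : 0 < ‖ν‖ ^ 2 + ‖Y‖ ^ 2 := by positivity
  have h1 : HasDerivAt (fun t : ℝ => rat ν (Y + (t : ℂ) * V))
      (‖ν‖ ^ 2 * m / (‖ν‖ ^ 2 + ‖Y‖ ^ 2) ^ 2) 0 := by
    have := hm.div (hm.const_add (‖ν‖ ^ 2)) (by simpa using hd.ne')
    refine gm_congr this (fun t => rfl) ?_
    simp only [Complex.ofReal_zero, zero_mul, add_zero]
    congr 1; ring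
  have h2 := (gm_lamd κ (rat ν (Y + ((0 : ℝ) : ℂ) * V))).comp (0 : ℝ) h1
  simp only [Complex.ofReal_zero, zero_mul, add_zero] at h2
  refine ⟨_, h2, ?_, fun h => gm_small (gm_deriv_ne κ (left_ne_zero_of_mul h))⟩
  have hs := κ.slow (rat ν Y) (gm_rat_nonneg _ _)
  set l := deriv κ.lam (rat ν Y)
  unfold rat at hs
  rw [abs_mul, abs_of_nonneg (by positivity : (0 : ℝ) ≤ ‖Y‖ ^ 2 / (‖ν‖ ^ 2 + ‖Y‖ ^ 2)),
    div_mul_eq_mul_div, div_le_iff₀ hd] at hs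
  rw [abs_mul, abs_div, abs_mul, abs_of_pos (by positivity : (0 : ℝ) < ‖ν‖ ^ 2),
    abs_of_pos (by positivity : (0 : ℝ) < (‖ν‖ ^ 2 + ‖Y‖ ^ 2) ^ 2), ← mul_div_assoc, ← mul_div_assoc,
    div_le_iff₀ (by positivity)]
  have hY := norm_nonneg Y
  have hV := norm_nonneg V
  have hl := abs_nonneg l
  calc ‖Y‖ * (|l| * (‖ν‖ ^ 2 * |m|)) ≤ ‖Y‖ * (|l| * (‖ν‖ ^ 2 * (2 * ‖Y‖ * ‖V‖))) := by gcongr
    _ = 2 * ‖V‖ * ‖ν‖ ^ 2 * (‖Y‖ ^ 2 * |l|) := by ring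
    _ ≤ 2 * ‖V‖ * (‖ν‖ ^ 2 + ‖Y‖ ^ 2) * (1 / 100 * (‖ν‖ ^ 2 + ‖Y‖ ^ 2)) := by
        gcongr; nlinarith
    _ = ‖V‖ / 50 * (‖ν‖ ^ 2 + ‖Y‖ ^ 2) ^ 2 := by ring

theorem gm_psi (κ : Cut) {ν : ℂ} (hν : ν ≠ 0) (Y V : ℂ) : ∃ d : ℝ,
    HasDerivAt (fun t : ℝ => κ.lam (rat (Y + (t : ℂ) * V) ν)) d 0 ∧ ‖ν‖ * |d| ≤ ‖V‖ / 100 := by
  obtain ⟨m, hm, hb⟩ := gm_nsq Y V
  have ha : 0 < ‖ν‖ := norm_pos_iff.2 hν
  have hd : 0 < ‖Y‖ ^ 2 + ‖ν‖ ^ 2 := by positivity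
  have h1 : HasDerivAt (fun t : ℝ => rat (Y + (t : ℂ) * V) ν)
      (-(‖ν‖ ^ 2 * m) / (‖Y‖ ^ 2 + ‖ν‖ ^ 2) ^ 2) 0 := by
    have := (hasDerivAt_const (0 : ℝ) (‖ν‖ ^ 2)).div (hm.add_const (‖ν‖ ^ 2))
      (by simpa using hd.ne')
    refine gm_congr this (fun t => rfl) ?_
    simp only [Complex.ofReal_zero, zero_mul, add_zero, zero_sub]
  have h2 := (gm_lamd κ (rat (Y + ((0 : ℝ) : ℂ) * V) ν)).comp (0 : ℝ) h1
  simp only [Complex.ofReal_zero, zero_mul, add_zero] at h2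
  refine ⟨_, h2, ?_⟩
  have hs := κ.slow (rat Y ν) (gm_rat_nonneg _ _)
  set l := deriv κ.lam (rat Y ν)
  unfold rat at hs
  rw [abs_mul, abs_of_nonneg (by positivity : (0 : ℝ) ≤ ‖ν‖ ^ 2 / (‖Y‖ ^ 2 + ‖ν‖ ^ 2)),
    div_mul_eq_mul_div, div_le_iff₀ hd] at hs
  rw [abs_mul, abs_div, abs_neg, abs_mul, abs_of_pos (by positivity : (0 : ℝ) < ‖ν‖ ^ 2),
    abs_of_pos (by positivity : (0 : ℝ) < (‖Y‖ ^ 2 + ‖ν‖ ^ 2) ^ 2), ← mul_div_assoc, ← mul_div_assoc,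
    div_le_iff₀ (by positivity)]
  have hY := norm_nonneg Y
  have hV := norm_nonneg V
  have hl := abs_nonneg l
  calc ‖ν‖ * (|l| * (‖ν‖ ^ 2 * |m|)) ≤ ‖ν‖ * (|l| * (‖ν‖ ^ 2 * (2 * ‖Y‖ * ‖V‖))) := by gcongr
    _ = ‖V‖ * (2 * ‖Y‖ * ‖ν‖) * (‖ν‖ ^ 2 * |l|) := by ring
    _ ≤ ‖V‖ * (‖Y‖ ^ 2 + ‖ν‖ ^ 2) * (1 / 100 * (‖Y‖ ^ 2 + ‖ν‖ ^ 2)) := by
        gcongr; nlinarith [sq_nonneg (‖Y‖ - ‖ν‖)]
    _ = ‖V‖ / 100 * (‖Y‖ ^ 2 + ‖ν‖ ^ 2) ^ 2 := by ring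

/-- Lower Lipschitz bound for a small perturbation of a multiplication. -/
theorem gm_lower (f : ℂ → ℂ) (a : ℂ) (c : ℝ)
    (h : ∀ Y V : ℂ, ∃ D : ℂ,
      HasDerivAt (fun t : ℝ => f (Y + (t : ℂ) * V) - a * (Y + (t : ℂ) * V)) D 0 ∧ ‖D‖ ≤ c * ‖V‖)
    (Y Y' : ℂ) : (‖a‖ - c) * ‖Y' - Y‖ ≤ ‖f Y' - f Y‖ := by
  set V := Y' - Y with hV
  let g : ℝ → ℂ := fun t => f (Y + (t : ℂ) * V) - a * (Y + (t : ℂ) * V)
  have hg : ∀ s : ℝ, ∃ D, HasDerivAt g D s ∧ ‖D‖ ≤ c * ‖V‖ := by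
    intro s
    obtain ⟨D, hD, hb⟩ := h (Y + (s : ℂ) * V) V
    refine ⟨D, ?_, hb⟩
    have h1 : HasDerivAt (fun t : ℝ => t - s) 1 s := (hasDerivAt_id s).sub_const s
    have h2 := HasDerivAt.scomp s (by simpa using hD) h1
    simp only [one_smul] at h2
    refine gm_congr h2 (fun t => ?_) rfl
    simp only [g, Function.comp]
    have : Y + (s : ℂ) * V + ((t - s : ℝ) : ℂ) * V = Y + (t : ℂ) * V := by push_cast; ring
    rw [this]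
  choose D hD hb using hg
  have := norm_image_sub_le_of_norm_deriv_le_segment_01' (f := g) (f' := D) (C := c * ‖V‖)
    (fun x _ => (hD x).hasDerivWithinAt) (fun x _ => hb x)
  have e1 : g 1 - g 0 = f Y' - f Y - a * V := by
    simp only [g, Complex.ofReal_one, Complex.ofReal_zero, one_mul, zero_mul, add_zero]
    rw [show Y + V = Y' by rw [hV]; ring, hV]; ring
  rw [e1] at this
  have h3 : ‖a * V‖ ≤ ‖f Y' - f Y‖ + ‖f Y' - f Y - a * V‖ := by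
    have := norm_sub_le (f Y' - f Y) (f Y' - f Y - a * V)
    rwa [show f Y' - f Y - (f Y' - f Y - a * V) = a * V by ring] at this
  rw [norm_mul] at h3
  linarith

/-- A map with a lower Lipschitz bound has no vanishing directional derivative. -/
theorem gm_dir (f : ℂ → ℂ) {c : ℝ} (hc : 0 < c) (Y V : ℂ)
    (h : ∀ Y', c * ‖Y' - Y‖ ≤ ‖f Y' - f Y‖)
    (hd : HasDerivAt (fun t : ℝ => f (Y + (t : ℂ) * V)) 0 0) : V = 0 := by
  by_contra hV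
  have hp : 0 < c * ‖V‖ := mul_pos hc (norm_pos_iff.2 hV)
  have h1 := hasDerivAt_iff_tendsto_slope_zero.1 hd
  have h2 : ∀ᶠ t : ℝ in 𝓝[≠] 0,
      ‖t⁻¹ • (f (Y + ((0 + t : ℝ) : ℂ) * V) - f (Y + ((0 : ℝ) : ℂ) * V))‖ < c * ‖V‖ := by
    have := h1.norm
    rw [norm_zero] at this
    exact this.eventually (gt_mem_nhds hp)
  obtain ⟨t, ht, ht0⟩ := (h2.and self_mem_nhdsWithin).exists
  have ht1 : 0 < |t| := abs_pos.2 ht0
  simp only [zero_add, Complex.ofReal_zero, zero_mul, add_zero, norm_smul, norm_inv,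
    Real.norm_eq_abs] at ht
  have h3 := h (Y + (t : ℂ) * V)
  rw [add_sub_cancel_left, norm_mul, Complex.norm_real, Real.norm_eq_abs] at h3
  rw [inv_mul_lt_iff₀ ht1] at ht
  nlinarith

theorem gm_Lm_le (Y : ℂ) : ‖Lm Y‖ ≤ 2 * ‖Y‖ := by
  unfold Lm
  have := norm_sub_le (3 / 2 * Y) (1 / 2 * conj Y)
  simp only [norm_mul, Complex.norm_conj, norm_div, Complex.norm_ofNat, norm_one] at this
  linarith

theorem gm_Lm_line (Y V : ℂ) : HasDerivAt (fun t : ℝ => Lm (Y + (t : ℂ) * V)) (Lm V) 0 := by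
  unfold Lm
  exact ((gm_line Y V).const_mul _).sub ((gm_line_conj Y V).const_mul _)

/-- The quadratic correction term is small. -/
theorem gm_quad (κ : Cut) {ν Y V : ℂ} {d : ℝ} (h1 : ‖Y‖ * |d| ≤ ‖V‖ / 50)
    (h2 : d ≠ 0 → 99 * ‖Y‖ ≤ ‖ν‖) :
    ‖(d : ℂ) * Lm Y ^ 2 + (κ.lam (rat ν Y) : ℂ) * (2 * Lm Y * Lm V)‖ ≤ ‖ν‖ * ‖V‖ / 10 := by
  have hY := norm_nonneg Y
  have hV := norm_nonneg V
  have hν := norm_nonneg ν
  have a1 : ‖(d : ℂ) * Lm Y ^ 2‖ ≤ ‖ν‖ * ‖V‖ / 100 := by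
    by_cases hd : d = 0
    · simp [hd]; positivity
    have := h2 hd
    rw [norm_mul, norm_pow, Complex.norm_real, Real.norm_eq_abs]
    calc |d| * ‖Lm Y‖ ^ 2 ≤ |d| * (2 * ‖Y‖) ^ 2 := by gcongr; exact gm_Lm_le Y
      _ = 4 * ‖Y‖ * (‖Y‖ * |d|) := by ring
      _ ≤ 4 * ‖Y‖ * (‖V‖ / 50) := by gcongr
      _ ≤ _ := by nlinarith
  have a2 : ‖(κ.lam (rat ν Y) : ℂ) * (2 * Lm Y * Lm V)‖ ≤ 9 * (‖ν‖ * ‖V‖) / 100 := by
    by_cases hd : κ.lam (rat ν Y) = 0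
    · simp [hd]; positivity
    have := gm_lam_ne κ hd
    rw [norm_mul, norm_mul, norm_mul, Complex.norm_ofNat]
    calc _ ≤ 1 * (2 * (2 * ‖Y‖) * (2 * ‖V‖)) := by
          gcongr
          · exact gm_abs_lam κ _
          · exact gm_Lm_le Y
          · exact gm_Lm_le V
      _ ≤ _ := by nlinarith
  have := norm_add_le ((d : ℂ) * Lm Y ^ 2) ((κ.lam (rat ν Y) : ℂ) * (2 * Lm Y * Lm V))
  linarith

theorem gm_Q1 (κ : Cut) {ν : ℂ} (hν : ν ≠ 0) (Y Y' : ℂ) :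
    ‖ν‖ / 2 * ‖Y' - Y‖ ≤ ‖Q1 κ ν Y' - Q1 κ ν Y‖ := by
  have key := gm_lower (Q1 κ ν) (-(9 / 2) * ν) (4 * ‖ν‖) ?_ Y Y'
  · have : ‖-(9 / 2) * ν‖ - 4 * ‖ν‖ = ‖ν‖ / 2 := by
      rw [norm_mul, norm_neg, norm_div, Complex.norm_ofNat, Complex.norm_ofNat]; ring
    rwa [this] at key
  intro Y V
  obtain ⟨d, hd, b1, b2⟩ := gm_phi κ hν Y V
  obtain ⟨e, he, b3⟩ := gm_psi κ hν Y V
  have hd' := hd.ofReal_comp
  have he' := ((he.const_sub 1).mul_const (‖ν‖ ^ 2)).ofReal_comp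
  have hl := gm_line Y V
  have hc := gm_line_conj Y V
  have hL := gm_Lm_line Y V
  have H := ((((he'.const_mul (3 / 2 : ℂ)).const_add (9 / 4 * ν ^ 2 + 1 / 4 * conj ν ^ 2)).add
    (hc.const_mul (1 / 2 * conj ν))).sub
    ((hd'.const_mul (3 / 2 : ℂ)).mul ((hl.const_mul (conj ν)).sub (hc.const_mul ν)))).add
    (hd'.mul (hL.pow 2))
  simp only [Complex.ofReal_zero, zero_mul, add_zero, Pi.sub_apply, Pi.pow_apply] at H
  refine ⟨3 / 2 * ((-e * ‖ν‖ ^ 2 : ℝ) : ℂ) + 1 / 2 * conj ν * conj V -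
    (3 / 2 * (d : ℂ) * (conj ν * Y - ν * conj Y) +
      3 / 2 * (κ.lam (rat ν Y) : ℂ) * (conj ν * V - ν * conj V)) +
    ((d : ℂ) * Lm Y ^ 2 + (κ.lam (rat ν Y) : ℂ) * (2 * Lm Y * Lm V)), ?_, ?_⟩
  · refine gm_congr H (fun t => ?_) ?_
    · simp only [Q1, Pi.add_apply, Pi.sub_apply, Pi.mul_apply, Pi.pow_apply]
      ring
    · norm_num
  have hY := norm_nonneg Y
  have hV := norm_nonneg V
  have hn := norm_nonneg ν
  have q := gm_quad κ (V := V) b1 b2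
  have a1 : ‖(3 / 2 : ℂ) * ((-e * ‖ν‖ ^ 2 : ℝ) : ℂ)‖ ≤ 3 / 200 * (‖ν‖ * ‖V‖) := by
    rw [norm_mul, Complex.norm_real, Real.norm_eq_abs, abs_mul, abs_neg,
      abs_of_nonneg (by positivity : (0 : ℝ) ≤ ‖ν‖ ^ 2), norm_div, Complex.norm_ofNat,
      Complex.norm_ofNat]
    nlinarith [mul_le_mul_of_nonneg_left b3 hn]
  have a2 : ‖1 / 2 * conj ν * conj V‖ = 1 / 2 * (‖ν‖ * ‖V‖) := by
    simp only [norm_mul, Complex.norm_conj, norm_div, norm_one, Complex.norm_ofNat]; ring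
  have ac : ∀ Z : ℂ, ‖conj ν * Z - ν * conj Z‖ ≤ 2 * (‖ν‖ * ‖Z‖) := by
    intro Z
    have := norm_sub_le (conj ν * Z) (ν * conj Z)
    simp only [norm_mul, Complex.norm_conj] at this
    linarith
  have a3 : ‖3 / 2 * (d : ℂ) * (conj ν * Y - ν * conj Y)‖ ≤ 3 / 50 * (‖ν‖ * ‖V‖) := by
    rw [norm_mul, norm_mul, Complex.norm_real, Real.norm_eq_abs, norm_div, Complex.norm_ofNat,
      Complex.norm_ofNat]
    calc _ ≤ 3 / 2 * |d| * (2 * (‖ν‖ * ‖Y‖)) := by gcongr; exact ac Y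
      _ = 3 * ‖ν‖ * (‖Y‖ * |d|) := by ring
      _ ≤ 3 * ‖ν‖ * (‖V‖ / 50) := by gcongr
      _ = _ := by ring
  have a4 : ‖3 / 2 * (κ.lam (rat ν Y) : ℂ) * (conj ν * V - ν * conj V)‖ ≤ 3 * (‖ν‖ * ‖V‖) := by
    rw [norm_mul, norm_mul, norm_div, Complex.norm_ofNat, Complex.norm_ofNat]
    calc _ ≤ 3 / 2 * 1 * (2 * (‖ν‖ * ‖V‖)) := by
          gcongr
          · exact gm_abs_lam κ _
          · exact ac V
      _ = _ := by ring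
  refine (norm_add_le _ _).trans ?_
  refine (add_le_add_left (norm_sub_le _ _) _).trans ?_
  have t1 := norm_add_le ((3 / 2 : ℂ) * ((-e * ‖ν‖ ^ 2 : ℝ) : ℂ)) (1 / 2 * conj ν * conj V)
  have t2 := norm_add_le (3 / 2 * (d : ℂ) * (conj ν * Y - ν * conj Y))
    (3 / 2 * (κ.lam (rat ν Y) : ℂ) * (conj ν * V - ν * conj V))
  nlinarith [mul_nonneg hn hV]

theorem gm_Q2 (κ : Cut) {ν : ℂ} (hν : ν ≠ 0) (Y Y' : ℂ) :
    ‖ν‖ * ‖Y' - Y‖ ≤ ‖Q2 κ ν Y' - Q2 κ ν Y‖ := by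
  have key := gm_lower (Q2 κ ν) (3 * conj ν) (2 * ‖ν‖) ?_ Y Y'
  · have : ‖3 * conj ν‖ - 2 * ‖ν‖ = ‖ν‖ := by
      rw [norm_mul, Complex.norm_conj, Complex.norm_ofNat]; ring
    rwa [this] at key
  intro Y V
  obtain ⟨d, hd, b1, b2⟩ := gm_phi κ hν Y V
  have hd' := hd.ofReal_comp
  have hc := gm_line_conj Y V
  have hL := gm_Lm_line Y V
  have H := (((hd'.mul_const (conj ν)).mul hc).const_sub (conj ν ^ 2)).add (hd'.mul (hL.pow 2))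
  simp only [Complex.ofReal_zero, zero_mul, add_zero, Pi.pow_apply] at H
  refine ⟨-((d : ℂ) * conj ν * conj Y + (κ.lam (rat ν Y) : ℂ) * conj ν * conj V) +
    ((d : ℂ) * Lm Y ^ 2 + (κ.lam (rat ν Y) : ℂ) * (2 * Lm Y * Lm V)), ?_, ?_⟩
  · refine gm_congr H (fun t => ?_) ?_
    · simp only [Q2, Pi.add_apply, Pi.mul_apply, Pi.pow_apply]
      ring
    · norm_num
  have hY := norm_nonneg Y
  have hV := norm_nonneg V
  have hn := norm_nonneg ν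
  have q := gm_quad κ (V := V) b1 b2
  have a3 : ‖(d : ℂ) * conj ν * conj Y‖ ≤ 1 / 50 * (‖ν‖ * ‖V‖) := by
    rw [norm_mul, norm_mul, Complex.norm_real, Real.norm_eq_abs, Complex.norm_conj,
      Complex.norm_conj]
    nlinarith [mul_le_mul_of_nonneg_left b1 hn]
  have a4 : ‖(κ.lam (rat ν Y) : ℂ) * conj ν * conj V‖ ≤ ‖ν‖ * ‖V‖ := by
    rw [norm_mul, norm_mul, Complex.norm_conj, Complex.norm_conj]
    calc _ ≤ 1 * ‖ν‖ * ‖V‖ := by gcongr; exact gm_abs_lam κ _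
      _ = _ := by ring
  refine (norm_add_le _ _).trans ?_
  rw [norm_neg]
  have t2 := norm_add_le ((d : ℂ) * conj ν * conj Y) ((κ.lam (rat ν Y) : ℂ) * conj ν * conj V)
  nlinarith [mul_nonneg hn hV]

/-- The common first coordinate of both charts. -/
def gmN (κ : Cut) (Y X : ℂ) : ℂ := X + (κ.lam (rat X Y) : ℂ) * Y

theorem gm_N (κ : Cut) (Y X X' : ℂ) : 1 / 2 * ‖X' - X‖ ≤ ‖gmN κ Y X' - gmN κ Y X‖ := by
  by_cases hY : Y = 0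
  · simp only [gmN, hY, mul_zero, add_zero]
    linarith [norm_nonneg (X' - X)]
  have key := gm_lower (gmN κ Y) 1 (1 / 2) ?_ X X'
  · rw [norm_one] at key; linarith
  intro X V
  obtain ⟨e, he, b⟩ := gm_psi κ hY X V
  refine ⟨(e : ℂ) * Y, ?_, ?_⟩
  · refine gm_congr (he.ofReal_comp.mul_const Y) (fun t => ?_) rfl
    simp only [gmN]; ring
  · rw [norm_mul, Complex.norm_real, Real.norm_eq_abs]
    nlinarith [norm_nonneg V]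

theorem gm_N_ne (κ : Cut) (Y : ℂ) {X : ℂ} (hX : X ≠ 0) : gmN κ Y X ≠ 0 := by
  intro h
  unfold gmN at h
  by_cases hl : κ.lam (rat X Y) = 0
  · simp [hl, hX] at h
  have h1 := gm_lam_ne κ hl
  have h2 : ‖X‖ = ‖(κ.lam (rat X Y) : ℂ) * Y‖ := by
    have := congrArg norm (eq_neg_of_add_eq_zero_left h)
    rwa [norm_neg] at this
  have h3 : ‖(κ.lam (rat X Y) : ℂ) * Y‖ ≤ 1 * ‖Y‖ := by
    rw [norm_mul]; gcongr; exact gm_abs_lam κ _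
  have := norm_pos_iff.2 hX
  linarith

theorem gm_N_smul (κ : Cut) (Y X : ℂ) {s : ℝ} (hs : s ≠ 0) :
    gmN κ ((s : ℂ) * Y) ((s : ℂ) * X) = (s : ℂ) * gmN κ Y X := by
  unfold gmN; rw [gm_rat_smul _ _ hs]; ring

theorem gm_Q1_smul (κ : Cut) (ν Y : ℂ) {s : ℝ} (hs : s ≠ 0) :
    Q1 κ ((s : ℂ) * ν) ((s : ℂ) * Y) = (s : ℂ) ^ 2 * Q1 κ ν Y := by
  unfold Q1 Lm
  rw [gm_rat_smul _ _ hs, gm_rat_smul _ _ hs]
  simp only [map_mul, Complex.conj_ofReal, norm_mul, Complex.norm_real, mul_pow, Real.norm_eq_abs,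
    sq_abs]
  push_cast
  ring

theorem gm_Q2_smul (κ : Cut) (ν Y : ℂ) {s : ℝ} (hs : s ≠ 0) :
    Q2 κ ((s : ℂ) * ν) ((s : ℂ) * Y) = (s : ℂ) ^ 2 * Q2 κ ν Y := by
  unfold Q2 Lm
  rw [gm_rat_smul _ _ hs]
  simp only [map_mul, Complex.conj_ofReal]
  ring

section smooth
variable {E : Type*} [NormedAddCommGroup E] [NormedSpace ℝ E] {a b : E → ℂ} {x : E}

theorem gm_s_conj (ha : ContDiffAt ℝ ∞ a x) : ContDiffAt ℝ ∞ (fun y => conj (a y)) x :=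
  Complex.conjCLE.contDiff.contDiffAt.comp x ha

theorem gm_s_re {r : E → ℝ} (hr : ContDiffAt ℝ ∞ r x) :
    ContDiffAt ℝ ∞ (fun y => ((r y : ℝ) : ℂ)) x :=
  Complex.ofRealCLM.contDiff.contDiffAt.comp x hr

theorem gm_s_lam (κ : Cut) (ha : ContDiffAt ℝ ∞ a x) (hb : ContDiffAt ℝ ∞ b x)
    (h : a x ≠ 0 ∨ b x ≠ 0) : ContDiffAt ℝ ∞ (fun y => κ.lam (rat (a y) (b y))) x := by
  refine κ.s.contDiffAt.comp x ?_
  unfold rat
  refine (hb.norm_sq ℝ).div ((ha.norm_sq ℝ).add (hb.norm_sq ℝ)) ?_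
  rcases h with h | h
  · have := norm_pos_iff.2 h; positivity
  · have := norm_pos_iff.2 h; positivity

theorem gm_s_Lm (ha : ContDiffAt ℝ ∞ a x) : ContDiffAt ℝ ∞ (fun y => Lm (a y)) x := by
  unfold Lm
  exact (contDiffAt_const.mul ha).sub (contDiffAt_const.mul (gm_s_conj ha))

theorem gm_s_N (κ : Cut) (ha : ContDiffAt ℝ ∞ a x) (hb : ContDiffAt ℝ ∞ b x) (h : a x ≠ 0) :
    ContDiffAt ℝ ∞ (fun y => gmN κ (b y) (a y)) x := by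
  unfold gmN
  exact ha.add ((gm_s_re (gm_s_lam κ ha hb (Or.inl h))).mul hb)

theorem gm_s_Q1 (κ : Cut) (ha : ContDiffAt ℝ ∞ a x) (hb : ContDiffAt ℝ ∞ b x) (h : a x ≠ 0) :
    ContDiffAt ℝ ∞ (fun y => Q1 κ (a y) (b y)) x := by
  unfold Q1
  have h1 := gm_s_re (gm_s_lam κ ha hb (Or.inl h))
  have h2 := gm_s_re ((contDiffAt_const (c := (1 : ℝ))).sub (gm_s_lam κ hb ha (Or.inr h))
    |>.mul (ha.norm_sq ℝ))
  have h3 := gm_s_conj ha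
  have h4 := gm_s_conj hb
  exact ((((((contDiffAt_const.mul (ha.pow 2)).add (contDiffAt_const.mul (h3.pow 2))).add
    (contDiffAt_const.mul h2)).sub ((contDiffAt_const.mul ha).mul hb)).add
    ((contDiffAt_const.mul h3).mul h4)).sub
    ((contDiffAt_const.mul h1).mul ((h3.mul hb).sub (ha.mul h4)))).add
    (h1.mul ((gm_s_Lm hb).pow 2))

theorem gm_s_Q2 (κ : Cut) (ha : ContDiffAt ℝ ∞ a x) (hb : ContDiffAt ℝ ∞ b x) (h : a x ≠ 0) :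
    ContDiffAt ℝ ∞ (fun y => Q2 κ (a y) (b y)) x := by
  unfold Q2
  have h1 := gm_s_re (gm_s_lam κ ha hb (Or.inl h))
  have h3 := gm_s_conj ha
  have h4 := gm_s_conj hb
  exact (((h3.pow 2).add ((contDiffAt_const.mul h3).mul hb)).sub ((h1.mul h3).mul h4)).add
    (h1.mul ((gm_s_Lm hb).pow 2))

end smooth

theorem gm_eq_of_lower {f : ℂ → ℂ} {c : ℝ} (hc : 0 < c) {Y Y' : ℂ}
    (h : c * ‖Y' - Y‖ ≤ ‖f Y' - f Y‖) (he : f Y = f Y') : Y' = Y := by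
  rw [he, sub_self, norm_zero] at h
  have : ‖Y' - Y‖ ≤ 0 := by
    by_contra hc'
    push Not at hc'
    nlinarith [mul_pos hc hc']
  exact sub_eq_zero.1 (norm_le_zero_iff.1 this)

theorem gm_inj (κ : Cut) (q : ℂ → ℂ → ℂ)
    (low : ∀ ν, ν ≠ 0 → ∃ c : ℝ, 0 < c ∧ ∀ Y Y', c * ‖Y' - Y‖ ≤ ‖q ν Y' - q ν Y‖)
    (ev : ∀ ν Y, q (-ν) (-Y) = q ν Y) {X Y X' Y' : ℂ} (hX : X ≠ 0)
    (h1 : gmN κ Y X ^ 2 = gmN κ Y' X' ^ 2) (h2 : q (gmN κ Y X) Y = q (gmN κ Y' X') Y') :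
    (X' = X ∧ Y' = Y) ∨ (X' = -X ∧ Y' = -Y) := by
  have main : ∀ X' Y', gmN κ Y X = gmN κ Y' X' → q (gmN κ Y X) Y = q (gmN κ Y' X') Y' →
      X' = X ∧ Y' = Y := by
    intro X' Y' e1 e2
    obtain ⟨c, hc, hl⟩ := low _ (gm_N_ne κ Y hX)
    rw [← e1] at e2
    have hY : Y' = Y := gm_eq_of_lower hc (hl Y Y') e2
    subst hY
    exact ⟨gm_eq_of_lower (by norm_num) (gm_N κ Y' X X') e1, rfl⟩
  rcases sq_eq_sq_iff_eq_or_eq_neg.1 h1 with h | h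
  · exact Or.inl (main X' Y' h h2)
  · right
    have hn : gmN κ (-Y') (-X') = -gmN κ Y' X' := by
      have := gm_N_smul κ Y' X' (s := -1) (by norm_num)
      simpa using this
    have := main (-X') (-Y') (by rw [hn, h]) (by rw [hn, ev, h2])
    exact ⟨by rw [← this.1, neg_neg], by rw [← this.2, neg_neg]⟩

theorem gm_imm (κ : Cut) (q : ℂ → ℂ → ℂ)
    (low : ∀ ν, ν ≠ 0 → ∃ c : ℝ, 0 < c ∧ ∀ Y Y', c * ‖Y' - Y‖ ≤ ‖q ν Y' - q ν Y‖)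
    (sm : ∀ ν Y, ν ≠ 0 → ContDiffAt ℝ ∞ (fun p : C2 => q p.1 p.2) (ν, Y)) {X Y A B : ℂ}
    (hX : X ≠ 0)
    (h1 : HasDerivAt (fun t : ℝ => gmN κ (Y + (t : ℂ) * B) (X + (t : ℂ) * A) ^ 2) 0 0)
    (h2 : HasDerivAt (fun t : ℝ => q (gmN κ (Y + (t : ℂ) * B) (X + (t : ℂ) * A))
      (Y + (t : ℂ) * B)) 0 0) : A = 0 ∧ B = 0 := by
  have hN := gm_N_ne κ Y hX
  have sl : ∀ Y V : ℂ, ContDiffAt ℝ ∞ (fun t : ℝ => Y + (t : ℂ) * V) 0 := fun Y V =>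
    contDiffAt_const.add ((gm_s_re contDiffAt_id).mul contDiffAt_const)
  have d0 := ((gm_s_N κ (sl X A) (sl Y B) (by simpa using hX)).differentiableAt
    (by simp)).hasDerivAt
  set n := deriv (fun t : ℝ => gmN κ (Y + (t : ℂ) * B) (X + (t : ℂ) * A)) 0
  have hn : n = 0 := by
    have := (d0.pow 2).unique h1
    simp only [Complex.ofReal_zero, zero_mul, add_zero] at this
    simpa [hN] using this
  rw [hn] at d0
  have dq := ((sm _ Y hN).differentiableAt (by simp)).hasFDerivAt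
  set D := fderiv ℝ (fun p : C2 => q p.1 p.2) (gmN κ Y X, Y)
  have e1 := dq.comp_hasDerivAt_of_eq (0 : ℝ) (d0.prodMk (gm_line Y B)) (by simp)
  have e2 := dq.comp_hasDerivAt_of_eq (0 : ℝ)
    ((hasDerivAt_const (0 : ℝ) (gmN κ Y X)).prodMk (gm_line Y B)) (by simp)
  have e3 : D (0, B) = 0 := e1.unique h2
  rw [e3] at e2
  obtain ⟨c, hc, hl⟩ := low _ hN
  have hB : B = 0 := gm_dir (q (gmN κ Y X)) hc Y B (hl Y) e2
  subst hB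
  refine ⟨gm_dir (gmN κ Y) (c := 1 / 2) (by norm_num) X A (gm_N κ Y X) ?_, rfl⟩
  simpa using d0

theorem gm_along {G : C2 → C2} {W V : C2} (hG : ContDiffAt ℝ ∞ G W) (h : fderiv ℝ G W V = 0) :
    HasDerivAt (fun t : ℝ => G (W.1 + (t : ℂ) * V.1, W.2 + (t : ℂ) * V.2)) 0 0 := by
  have := (hG.differentiableAt (by simp)).hasFDerivAt.comp_hasDerivAt_of_eq (0 : ℝ)
    ((gm_line W.1 V.1).prodMk (gm_line W.2 V.2)) (by simp)
  rw [show (V.1, V.2) = V from rfl, h] at this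
  exact this

theorem gm_lam_one (κ : Cut) {a b : ℂ} (h : ‖b‖ ^ 2 ≤ κ.r0 * ‖a‖ ^ 2) : κ.lam (rat a b) = 1 := by
  refine κ.one _ (gm_rat_nonneg _ _) ?_
  unfold rat
  have := κ.r0pos
  refine div_le_of_le_mul₀ (by positivity) this.le ?_
  nlinarith [sq_nonneg ‖b‖]

theorem gm_lam_zero (κ : Cut) {a b : ℂ} (ha : a ≠ 0) (h : ‖b‖ ≤ ‖a‖) : κ.lam (rat b a) = 0 := by
  by_contra hc
  have := gm_lam_ne κ hc
  have := norm_pos_iff.2 ha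
  linarith

theorem gm_near (κ : Cut) {X Y : ℂ} (hW : X ≠ 0 ∨ Y ≠ 0) (h : ‖Y‖ ^ 2 ≤ κ.r0 / 4 * ‖X‖ ^ 2) :
    κ.lam (rat X Y) = 1 ∧ κ.lam (rat Y X) = 0 ∧ κ.lam (rat (X + Y) Y) = 1 ∧
      κ.lam (rat Y (X + Y)) = 0 := by
  have r0 := κ.r0pos
  have r1 := κ.r0lt
  have hX := norm_nonneg X
  have hY := norm_nonneg Y
  have h1 : 3 * ‖Y‖ ≤ ‖X‖ := by
    by_contra hc
    push Not at hc
    nlinarith
  have hX0 : X ≠ 0 := by
    rcases hW with h' | h'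
    · exact h'
    · have := norm_pos_iff.2 h'
      exact norm_pos_iff.1 (by linarith)
  have hp := norm_pos_iff.2 hX0
  have h2 : ‖X‖ ≤ ‖X + Y‖ + ‖Y‖ := by
    have := norm_sub_le (X + Y) Y
    rwa [add_sub_cancel_right] at this
  refine ⟨gm_lam_one κ (by nlinarith), gm_lam_zero κ hX0 (by linarith), gm_lam_one κ ?_,
    gm_lam_zero κ (norm_pos_iff.1 (by linarith)) (by linarith)⟩
  have : ‖X‖ ^ 2 ≤ 4 * ‖X + Y‖ ^ 2 := by nlinarith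
  nlinarith

theorem gm_nsq_eq (z : ℂ) : ((‖z‖ : ℝ) : ℂ) ^ 2 = z * conj z := by
  rw [Complex.mul_conj, Complex.normSq_eq_norm_sq]; push_cast; rfl

theorem gok (κ : Cut) : GOK κ := by
  have l1 : ∀ ν : ℂ, ν ≠ 0 → ∃ c : ℝ, 0 < c ∧ ∀ Y Y', c * ‖Y' - Y‖ ≤ ‖Q1 κ ν Y' - Q1 κ ν Y‖ :=
    fun ν hν => ⟨‖ν‖ / 2, half_pos (norm_pos_iff.2 hν), gm_Q1 κ hν⟩
  have l2 : ∀ ν : ℂ, ν ≠ 0 → ∃ c : ℝ, 0 < c ∧ ∀ Y Y', c * ‖Y' - Y‖ ≤ ‖Q2 κ ν Y' - Q2 κ ν Y‖ :=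
    fun ν hν => ⟨‖ν‖, norm_pos_iff.2 hν, gm_Q2 κ hν⟩
  have s1 : ∀ W : C2, W.1 ≠ 0 → ContDiffAt ℝ ∞ (G1 κ) W := fun W hW => by
    have hN := gm_s_N κ (contDiffAt_fst (p := W)) contDiffAt_snd hW
    exact (hN.pow 2).prodMk (gm_s_Q1 κ hN contDiffAt_snd (gm_N_ne κ _ hW))
  have s2 : ∀ W : C2, W.2 ≠ 0 → ContDiffAt ℝ ∞ (G2 κ) W := fun W hW => by
    have hN := gm_s_N κ (contDiffAt_snd (p := W)) contDiffAt_fst hW
    exact (hN.pow 2).prodMk (gm_s_Q2 κ hN contDiffAt_fst (gm_N_ne κ _ hW))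
  refine ⟨s1, s2, ?_, ?_, ?_, ?_, ?_, ?_, ?_, ?_, ?_⟩
  · intro W s hs
    have h := gm_N_smul κ W.2 W.1 hs
    change (gmN κ (s • W.2) (s • W.1) ^ 2, Q1 κ (gmN κ (s • W.2) (s • W.1)) (s • W.2)) =
      (s ^ 2 • gmN κ W.2 W.1 ^ 2, s ^ 2 • Q1 κ (gmN κ W.2 W.1) W.2)
    simp only [Complex.real_smul]
    rw [h, gm_Q1_smul κ _ _ hs, mul_pow]; push_cast; rfl
  · intro W s hs
    have h := gm_N_smul κ W.1 W.2 hs
    change (gmN κ (s • W.1) (s • W.2) ^ 2, Q2 κ (gmN κ (s • W.1) (s • W.2)) (s • W.1)) =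
      (s ^ 2 • gmN κ W.1 W.2 ^ 2, s ^ 2 • Q2 κ (gmN κ W.1 W.2) W.1)
    simp only [Complex.real_smul]
    rw [h, gm_Q2_smul κ _ _ hs, mul_pow]; push_cast; rfl
  · exact fun W hW => pow_ne_zero 2 (gm_N_ne κ _ hW)
  · exact fun W hW => pow_ne_zero 2 (gm_N_ne κ _ hW)
  · intro W W' hW h
    have ev : ∀ ν Y, Q1 κ (-ν) (-Y) = Q1 κ ν Y := fun ν Y => by
      simpa using gm_Q1_smul κ ν Y (s := -1) (by norm_num)
    rcases gm_inj κ (Q1 κ) l1 ev hW (congrArg Prod.fst h) (congrArg Prod.snd h) with h | h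
    · exact Or.inl (Prod.ext h.1 h.2)
    · exact Or.inr (Prod.ext h.1 h.2)
  · intro W W' hW h
    have ev : ∀ ν Y, Q2 κ (-ν) (-Y) = Q2 κ ν Y := fun ν Y => by
      simpa using gm_Q2_smul κ ν Y (s := -1) (by norm_num)
    rcases gm_inj κ (Q2 κ) l2 ev hW (congrArg Prod.fst h) (congrArg Prod.snd h) with h | h
    · exact Or.inl (Prod.ext h.2 h.1)
    · exact Or.inr (Prod.ext h.2 h.1)
  · intro W V hW h
    have hd := gm_along (s1 W hW) h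
    have := gm_imm κ (Q1 κ) l1
      (fun ν Y hν => gm_s_Q1 κ contDiffAt_fst contDiffAt_snd hν) hW hd.fst hd.snd
    exact Prod.ext this.1 this.2
  · intro W V hW h
    have hd := gm_along (s2 W hW) h
    have := gm_imm κ (Q2 κ) l2
      (fun ν Y hν => gm_s_Q2 κ contDiffAt_fst contDiffAt_snd hν) hW hd.fst hd.snd
    exact Prod.ext this.2 this.1
  · refine ⟨κ.r0 / 4, by linarith [κ.r0pos], fun W hW => ?_⟩
    obtain ⟨X, Y⟩ := W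
    have hW' : X ≠ 0 ∨ Y ≠ 0 := by
      by_contra hc
      push Not at hc
      exact hW (Prod.ext hc.1 hc.2)
    constructor
    · intro h
      obtain ⟨a1, a2, a3, a4⟩ := gm_near κ hW' h
      constructor
      · simp only [G1, nu1, Q1, sq2, Lin, Lm, a1, Complex.ofReal_one, one_mul, a3, a4, sub_zero,
          Complex.ofReal_pow, gm_nsq_eq, map_add]
        congr 1; ring
      · simp only [G2, nu2, Q2, F2, a2, Complex.ofReal_zero, zero_mul, add_zero, sub_zero]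
    · intro h
      obtain ⟨a1, a2, a3, a4⟩ := gm_near κ hW'.symm h
      constructor
      · simp only [G2, nu2, Q2, sq2, Lin, Lm, a1, Complex.ofReal_one, one_mul, a3, map_add]
        congr 1 <;> ring
      · simp only [G1, nu1, Q1, F1, a1, a2, Complex.ofReal_zero, zero_mul, add_zero, sub_zero,
          mul_zero, sub_self]

end Pool.Agent.Lib.MP_b7c8b0_gt
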