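import Pool.Agent.Lib.MP_b7c8b0_gt.EDefs

/-! Families of odd maps on spheres and homotopies with finitely many regular zeros. -/

open scoped ContDiff Topology
open Filter

noncomputable section

namespace Pool.Agent.Lib.MP_b7c8b0_gt

abbrev YY (k : ℕ) : Type := Fin k → ℝ

/-- The outer region of the parameter cube. -/
def Out {k : ℕ} (y : YY k) : Prop := ∃ i, y i ≤ 1 / 4 ∨ 3 / 4 ≤ y i

section
variable {X V : Type} [NormedAddCommGroup X] [InnerProductSpace ℝ X]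
  [NormedAddCommGroup V] [NormedSpace ℝ V] {k : ℕ}

/-- Near `p`, on the sphere, `H` agrees with a smooth map whose derivative at `p` is injective on
the vectors tangent to the sphere. -/
def Reg (H : ℝ × X × YY k → V) (p : ℝ × X × YY k) : Prop :=
  ∃ U ∈ 𝓝 p, ∃ K : ℝ × X × YY k → V, ContDiffOn ℝ ∞ K U ∧ (∀ q ∈ U, ‖q.2.1‖ = 1 → H q = K q) ∧
    ∀ v : ℝ × X × YY k, inner ℝ p.2.1 v.2.1 = 0 → fderiv ℝ K p v = 0 → v = 0

/-- `H` is a homotopy of families of odd maps with zero set `Z`. -/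
structure IsHomZ (f f' : X → YY k → V) (H : ℝ × X × YY k → V) (Z : Finset (ℝ × X × YY k)) :
    Prop where
  cont : ContinuousOn H {p | (0 ≤ p.1 ∧ p.1 ≤ 1) ∧ ‖p.2.1‖ = 1}
  odd : ∀ s x y, 0 ≤ s → s ≤ 1 → ‖x‖ = 1 → H (s, -x, y) = -H (s, x, y)
  out : ∀ s x y, 0 ≤ s → s ≤ 1 → ‖x‖ = 1 → Out y → H (s, x, y) = H (s, x, 0)
  zero : ∀ x y, ‖x‖ = 1 → H (0, x, y) = f x y
  one : ∀ x y, ‖x‖ = 1 → H (1, x, y) = f' x y
  mem : ∀ p, p ∈ Z ↔ ((0 ≤ p.1 ∧ p.1 ≤ 1) ∧ ‖p.2.1‖ = 1) ∧ H p = 0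
  reg : ∀ p ∈ Z, 0 < p.1 ∧ p.1 < 1 ∧ ¬ Out p.2.2 ∧ Reg H p

/-- There is a homotopy from `f` to `f'` with `r` antipodal pairs of regular zeros. -/
def HomZ (f f' : X → YY k → V) (r : ℕ) : Prop :=
  ∃ H Z, IsHomZ f f' H Z ∧ Z.card = 2 * r

/-- A globally smooth homotopy `G + D`, with `G` parameter free and nowhere zero. -/
structure SmZ (G : ℝ × X → V) (D : ℝ × X × YY k → V) (Z : Finset (ℝ × X × YY k)) : Prop where
  smG : ContDiff ℝ ∞ G
  smD : ContDiff ℝ ∞ D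
  oddG : ∀ s x, G (s, -x) = -G (s, x)
  oddD : ∀ s x y, D (s, -x, y) = -D (s, x, y)
  van : ∀ s x y, s ≤ 0 ∨ 1 ≤ s ∨ Out y → D (s, x, y) = 0
  neG : ∀ s x, 0 ≤ s → s ≤ 1 → ‖x‖ = 1 → G (s, x) ≠ 0
  mem : ∀ p, p ∈ Z ↔ ((0 ≤ p.1 ∧ p.1 ≤ 1) ∧ ‖p.2.1‖ = 1) ∧ G (p.1, p.2.1) + D p = 0
  reg : ∀ p ∈ Z, ∀ v : ℝ × X × YY k, inner ℝ p.2.1 v.2.1 = 0 →
    fderiv ℝ (fun q : ℝ × X × YY k => G (q.1, q.2.1) + D q) p v = 0 → v = 0

end

section
variable {n : Type} [Fintype n] [DecidableEq n] {k : ℕ}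

/-- Continuous invertible matrix family, constant on the outer region. -/
structure GLGood (G : YY k → Matrix n n ℂ) : Prop where
  cont : Continuous G
  det : ∀ y, (G y).det ≠ 0
  out : ∀ y, Out y → G y = G 0

/-- Smooth invertible matrix family, constant on the outer region. -/
structure SmGood (G : YY k → Matrix n n ℂ) : Prop where
  smooth : ∀ a b, ContDiff ℝ ∞ fun y => G y a b
  det : ∀ y, (G y).det ≠ 0
  out : ∀ y, Out y → G y = G 0

/-- One homotopy of invertible matrix families. -/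
def GLStep (G G' : YY k → Matrix n n ℂ) : Prop :=
  ∃ K : ℝ × YY k → Matrix n n ℂ, Continuous K ∧ (∀ s y, 0 ≤ s → s ≤ 1 → (K (s, y)).det ≠ 0) ∧
    (∀ s y, Out y → K (s, y) = K (s, 0)) ∧ (∀ y, K (0, y) = G y) ∧ ∀ y, K (1, y) = G' y

/-- Chains of homotopies of invertible matrix families. -/
def GLHom (G G' : YY k → Matrix n n ℂ) : Prop := Relation.ReflTransGen GLStep G G'

end

/-- `W` is a null-homotopy of the column `j0` of `A` with regular zeros `Z`. -/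
structure Fill {k m : ℕ} (A : YY k → Matrix (Fin m) (Fin m) ℂ) (j0 : Fin m)
    (W : ℝ × YY k → (Fin m → ℂ)) (Z : Finset (ℝ × YY k)) : Prop where
  smooth : ContDiff ℝ ∞ W
  zero : ∀ y a, W (0, y) a = A y a j0
  one : ∀ y, W (1, y) = W (1, 0)
  out : ∀ s y, Out y → W (s, y) = W (s, 0)
  mem : ∀ p, p ∈ Z ↔ (0 ≤ p.1 ∧ p.1 ≤ 1) ∧ W p = 0
  reg : ∀ p ∈ Z, 0 < p.1 ∧ p.1 < 1 ∧ ¬ Out p.2 ∧ Function.Injective (fderiv ℝ W p)

/-- The source of the odd maps: points `(c, a)` with `c` real and `a` in `ℝ^N`. -/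
abbrev XX (N : ℕ) : Type := EuclideanSpace ℝ (Option (Fin N))

/-- The real linear map `(c, a) ↦ a + i c b`. -/
def tauB {N : ℕ} (b : EuclideanSpace ℝ (Fin N)) (x : XX N) : Fin N → ℂ :=
  fun i => (x (some i) : ℂ) + Complex.I * (x none : ℂ) * (b i : ℂ)

/-- The real linear map `(c, a', a'') ↦ (i c e_{j0}, a'' + i a')`. -/
def tau0 {N m : ℕ} (e : Fin N ≃ Fin m ⊕ Fin m) (j0 : Fin m) (x : XX N) : Fin N → ℂ :=
  fun i => Sum.elim (fun a => if a = j0 then Complex.I * (x none : ℂ) else 0)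
    (fun a => (x (some (e.symm (Sum.inr a))) : ℂ) + Complex.I * (x (some (e.symm (Sum.inl a))) : ℂ))
    (e i)

/-- The block matrix `A ⊕ 1`, reindexed. -/
def blk {n p q : Type} [DecidableEq q] (e : n ≃ p ⊕ q) (A : Matrix p p ℂ) : Matrix n n ℂ :=
  Matrix.reindex e.symm e.symm (Matrix.fromBlocks A 0 0 1)

/-- A collapse map from the cube to the unit sphere. -/
structure Collapse {k : ℕ} (κ : YY k → EuclideanSpace ℝ (Fin (k + 1))) (y0 : YY k) : Prop where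
  smooth : ContDiff ℝ ∞ κ
  norm : ∀ y, ‖κ y‖ = 1
  out : ∀ y, Out y → κ y = EuclideanSpace.single (Fin.last k) 1
  inner : ¬ Out y0
  anti : ∀ y, κ y = -EuclideanSpace.single (Fin.last k) 1 ↔ y = y0
  reg : Function.Injective (fderiv ℝ κ y0)

/-- The twisted complex coordinates on the tangent space of `Amb n` at a point with
`y`-coordinates `p`, for the phase `c`. -/
def AA {n : ℕ} (c : ℂ) (p : Fin n → ℂ) (w : Amb n) : (Fin n ⊕ Fin n) ⊕ Unit → ℂ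
  | Sum.inl (Sum.inl j) => ((c * w.1 j).re : ℂ) + Complex.I * ((w.2.1 j).im : ℂ)
  | Sum.inl (Sum.inr j) => ((c * w.1 j).im : ℂ) + Complex.I * ((w.2.1 j).re : ℂ)
  | Sum.inr _ => c * (w.2.2 - ∑ j, p j * w.1 j)

end Pool.Agent.Lib.MP_b7c8b0_gt
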