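import Pool.Agent.Lib.MP_b7c8b0_gt.HDefs

open scoped ContDiff Topology ComplexConjugate
open Filter MeasureTheory Matrix

noncomputable section

namespace Pool.Agent.Lib.MP_b7c8b0_gt

variable {X V : Type} [NormedAddCommGroup X] [InnerProductSpace ℝ X]
  [NormedAddCommGroup V] [NormedSpace ℝ V] {k : ℕ}

theorem homz_reg {H1 H : ℝ × X × YY k → V} {p : ℝ × X × YY k} (b : ℝ)
    (h : Reg H1 (2 * p.1 + b, p.2))
    (he : ∀ᶠ q in 𝓝 p, ‖q.2.1‖ = 1 → H q = H1 (2 * q.1 + b, q.2)) : Reg H p := by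
  obtain ⟨U, hU, K, hK, hKe, hKi⟩ := h
  have hφ : ContDiff ℝ ∞ (fun q : ℝ × X × YY k => ((2 * q.1 + b, q.2) : ℝ × X × YY k)) :=
    ((contDiff_const.mul contDiff_fst).add contDiff_const).prodMk contDiff_snd
  refine ⟨(fun q : ℝ × X × YY k => ((2 * q.1 + b, q.2) : ℝ × X × YY k)) ⁻¹' U ∩
    {q | ‖q.2.1‖ = 1 → H q = H1 (2 * q.1 + b, q.2)},
    inter_mem (hφ.continuous.continuousAt.preimage_mem_nhds hU) he,
    fun q => K (2 * q.1 + b, q.2), hK.comp hφ.contDiffOn (fun q hq => hq.1),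
    fun q hq h1 => (hq.2 h1).trans (hKe _ hq.1 h1), fun v hv h0 => ?_⟩
  have d1 : HasFDerivAt (fun q : ℝ × X × YY k => ((2 * q.1 + b, q.2) : ℝ × X × YY k))
      (((2 : ℝ) • ContinuousLinearMap.fst ℝ ℝ (X × YY k)).prod
        (ContinuousLinearMap.snd ℝ ℝ (X × YY k))) p :=
    ((hasFDerivAt_fst.const_mul (2 : ℝ)).add_const b).prodMk hasFDerivAt_snd
  have d2 : DifferentiableAt ℝ K (2 * p.1 + b, p.2) :=
    (hK.contDiffAt hU).differentiableAt (by simp)
  have d3 := (HasFDerivAt.comp p (g := K) d2.hasFDerivAt d1).fderiv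
  have h1 : fderiv ℝ K (2 * p.1 + b, p.2) (2 * v.1, v.2) = 0 := by
    rw [← h0]
    exact (congrArg (fun L => L v) d3).symm
  have h2 := hKi (2 * v.1, v.2) hv h1
  have h3 : 2 * v.1 = 0 := congrArg Prod.fst h2
  exact Prod.ext (by simpa using h3) (congrArg Prod.snd h2 :)

theorem HomZ.trans {f g h : X → YY k → V} {r r' : ℕ} (H : HomZ f g r) (H' : HomZ g h r') :
    HomZ f h (r + r') := by
  classical
  obtain ⟨H1, Z1, h1, c1⟩ := H
  obtain ⟨H2, Z2, h2, c2⟩ := H'
  obtain ⟨K, hK⟩ : ∃ K : ℝ × X × YY k → V, K = fun p =>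
      H1 (min (2 * p.1) 1, p.2) + H2 (max (2 * p.1 + -1) 0, p.2) - H2 (0, p.2) := ⟨_, rfl⟩
  have lo : ∀ p : ℝ × X × YY k, p.1 ≤ 1 / 2 → K p = H1 (2 * p.1 + 0, p.2) := by
    intro p hp
    rw [hK]
    dsimp only
    rw [min_eq_left (by linarith), max_eq_right (by linarith), add_zero, add_sub_cancel_right]
  have hi : ∀ p : ℝ × X × YY k, 1 / 2 ≤ p.1 → ‖p.2.1‖ = 1 → K p = H2 (2 * p.1 + -1, p.2) := by
    intro p hp hn
    rw [hK]
    dsimp only
    rw [min_eq_right (by linarith), max_eq_left (by linarith), h1.one p.2.1 p.2.2 hn,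
      h2.zero p.2.1 p.2.2 hn, add_sub_cancel_left]
  have i1 : Function.Injective fun q : ℝ × X × YY k => ((q.1 / 2, q.2) : ℝ × X × YY k) := by
    intro p q e
    have e1 : p.1 / 2 = q.1 / 2 := congrArg Prod.fst e
    exact Prod.ext (by linarith) (congrArg Prod.snd e :)
  have i2 : Function.Injective fun q : ℝ × X × YY k => (((q.1 + 1) / 2, q.2) : ℝ × X × YY k) := by
    intro p q e
    have e1 : (p.1 + 1) / 2 = (q.1 + 1) / 2 := congrArg Prod.fst e
    exact Prod.ext (by linarith) (congrArg Prod.snd e :)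
  have m1 : ∀ p : ℝ × X × YY k, p ∈ Z1.image (fun q => ((q.1 / 2, q.2) : ℝ × X × YY k)) ↔
      ((2 * p.1 + 0, p.2) : ℝ × X × YY k) ∈ Z1 := by
    intro p
    rw [Finset.mem_image]
    constructor
    · rintro ⟨q, hq, rfl⟩
      convert hq using 1
      exact Prod.ext (by dsimp only; ring) rfl
    · intro hq
      exact ⟨_, hq, Prod.ext (by dsimp only; ring) rfl⟩
  have m2 : ∀ p : ℝ × X × YY k, p ∈ Z2.image (fun q => (((q.1 + 1) / 2, q.2) : ℝ × X × YY k)) ↔
      ((2 * p.1 + -1, p.2) : ℝ × X × YY k) ∈ Z2 := by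
    intro p
    rw [Finset.mem_image]
    constructor
    · rintro ⟨q, hq, rfl⟩
      convert hq using 1
      exact Prod.ext (by dsimp only; ring) rfl
    · intro hq
      exact ⟨_, hq, Prod.ext (by dsimp only; ring) rfl⟩
  refine ⟨K, Z1.image (fun q => (q.1 / 2, q.2)) ∪ Z2.image (fun q => ((q.1 + 1) / 2, q.2)),
    ⟨?_, ?_, ?_, ?_, ?_, ?_, ?_⟩, ?_⟩
  · rw [hK]
    refine ((h1.cont.comp (f := fun p : ℝ × X × YY k => (min (2 * p.1) 1, p.2)) (by fun_prop)
      ?_).add (h2.cont.comp (f := fun p : ℝ × X × YY k => (max (2 * p.1 + -1) 0, p.2))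
      (by fun_prop) ?_)).sub (h2.cont.comp (f := fun p : ℝ × X × YY k => (0, p.2))
      (by fun_prop) ?_)
    · rintro p ⟨⟨a, _⟩, c⟩
      exact ⟨⟨le_min (by linarith) zero_le_one, min_le_right _ _⟩, c⟩
    · rintro p ⟨⟨_, a⟩, c⟩
      exact ⟨⟨le_max_right _ _, max_le (by linarith) zero_le_one⟩, c⟩
    · rintro p ⟨_, c⟩
      exact ⟨⟨le_rfl, zero_le_one⟩, c⟩
  · intro s x y a b c
    rcases le_total s (1 / 2) with d | d
    · rw [lo (s, -x, y) d, lo (s, x, y) d]
      exact h1.odd _ x y (by linarith) (by linarith) c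
    · rw [hi (s, -x, y) d (by simpa using c), hi (s, x, y) d c]
      exact h2.odd _ x y (by linarith) (by linarith) c
  · intro s x y a b c o
    rcases le_total s (1 / 2) with d | d
    · rw [lo (s, x, y) d, lo (s, x, 0) d]
      exact h1.out _ x y (by linarith) (by linarith) c o
    · rw [hi (s, x, y) d c, hi (s, x, 0) d c]
      exact h2.out _ x y (by linarith) (by linarith) c o
  · intro x y c
    rw [lo (0, x, y) (by norm_num), ← h1.zero x y c]
    norm_num
  · intro x y c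
    rw [hi (1, x, y) (by norm_num) c, ← h2.one x y c]
    norm_num
  · intro p
    rw [Finset.mem_union, m1, m2]
    constructor
    · rintro (a | a)
      · obtain ⟨⟨⟨b1, b2⟩, b3⟩, b4⟩ := (h1.mem _).1 a
        dsimp only at b1 b2
        exact ⟨⟨⟨by linarith, by linarith⟩, b3⟩, (lo p (by linarith)).trans b4⟩
      · obtain ⟨⟨⟨b1, b2⟩, b3⟩, b4⟩ := (h2.mem _).1 a
        dsimp only at b1 b2
        exact ⟨⟨⟨by linarith, by linarith⟩, b3⟩, (hi p (by linarith) b3).trans b4⟩
    · rintro ⟨⟨⟨b1, b2⟩, b3⟩, b4⟩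
      rcases le_total p.1 (1 / 2) with d | d
      · exact Or.inl ((h1.mem _).2 ⟨⟨⟨by dsimp only; linarith, by dsimp only; linarith⟩, b3⟩,
          (lo p d).symm.trans b4⟩)
      · exact Or.inr ((h2.mem _).2 ⟨⟨⟨by dsimp only; linarith, by dsimp only; linarith⟩, b3⟩,
          (hi p d b3).symm.trans b4⟩)
  · intro p hp
    rw [Finset.mem_union, m1, m2] at hp
    rcases hp with a | a
    · obtain ⟨b1, b2, b3, b4⟩ := h1.reg _ a
      dsimp only at b1 b2
      refine ⟨by linarith, by linarith, b3, homz_reg 0 b4 ?_⟩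
      have : ∀ᶠ q : ℝ × X × YY k in 𝓝 p, q.1 < 1 / 2 :=
        continuous_fst.continuousAt.eventually_lt continuousAt_const (by linarith)
      filter_upwards [this] with q hq _ using lo q hq.le
    · obtain ⟨b1, b2, b3, b4⟩ := h2.reg _ a
      dsimp only at b1 b2
      refine ⟨by linarith, by linarith, b3, homz_reg (-1) b4 ?_⟩
      have : ∀ᶠ q : ℝ × X × YY k in 𝓝 p, 1 / 2 < q.1 :=
        continuousAt_const.eventually_lt continuous_fst.continuousAt (by linarith)
      filter_upwards [this] with q hq c using hi q hq.le c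
  · rw [Finset.card_union_of_disjoint, Finset.card_image_of_injective _ i1,
      Finset.card_image_of_injective _ i2, c1, c2, mul_add]
    rw [Finset.disjoint_left]
    intro p a b
    have a1 := (h1.reg _ ((m1 p).1 a)).2.1
    have a2 := (h2.reg _ ((m2 p).1 b)).1
    dsimp only at a1 a2
    linarith

theorem HomZ.congr {f f' g g' : X → YY k → V} {r : ℕ} (H : HomZ f g r)
    (h1 : ∀ x y, ‖x‖ = 1 → f x y = f' x y) (h2 : ∀ x y, ‖x‖ = 1 → g x y = g' x y) :
    HomZ f' g' r := by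
  obtain ⟨K, Z, h, c⟩ := H
  exact ⟨K, Z, ⟨h.cont, h.odd, h.out, fun x y a => (h.zero x y a).trans (h1 x y a),
    fun x y a => (h.one x y a).trans (h2 x y a), h.mem, h.reg⟩, c⟩

/-- A zero free homotopy. -/
theorem HomZ.of_ne {f g : X → YY k → V} (H : ℝ × X × YY k → V)
    (cont : ContinuousOn H {p | (0 ≤ p.1 ∧ p.1 ≤ 1) ∧ ‖p.2.1‖ = 1})
    (odd : ∀ s x y, 0 ≤ s → s ≤ 1 → ‖x‖ = 1 → H (s, -x, y) = -H (s, x, y))
    (out : ∀ s x y, 0 ≤ s → s ≤ 1 → ‖x‖ = 1 → Out y → H (s, x, y) = H (s, x, 0))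
    (zero : ∀ x y, ‖x‖ = 1 → H (0, x, y) = f x y) (one : ∀ x y, ‖x‖ = 1 → H (1, x, y) = g x y)
    (ne : ∀ s x y, 0 ≤ s → s ≤ 1 → ‖x‖ = 1 → H (s, x, y) ≠ 0) : HomZ f g 0 :=
  ⟨H, ∅, ⟨cont, odd, out, zero, one, fun p => ⟨fun a => absurd a (Finset.notMem_empty p),
    fun a => absurd a.2 (ne p.1 p.2.1 p.2.2 a.1.1.1 a.1.1.2 a.1.2)⟩,
    fun p a => absurd a (Finset.notMem_empty p)⟩, rfl⟩

variable {n : Type} [Fintype n] [DecidableEq n]

theorem SmGood.good {G : YY k → Matrix n n ℂ} (h : SmGood G) : GLGood G :=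
  ⟨continuous_matrix fun a b => (h.smooth a b).continuous, h.det, h.out⟩

theorem GLStep.good {G G' : YY k → Matrix n n ℂ} (h : GLStep G G') : GLGood G ∧ GLGood G' := by
  obtain ⟨K, hc, hd, ho, h0, h1⟩ := h
  obtain rfl : G = fun y => K (0, y) := (funext h0).symm
  obtain rfl : G' = fun y => K (1, y) := (funext h1).symm
  exact ⟨⟨by fun_prop, fun y => hd 0 y le_rfl zero_le_one, ho 0⟩,
    ⟨by fun_prop, fun y => hd 1 y zero_le_one le_rfl, ho 1⟩⟩

theorem GLHom.good {G G' : YY k → Matrix n n ℂ} (h : GLHom G G') (hG : GLGood G) : GLGood G' := by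
  induction h with
  | refl => exact hG
  | tail _ s _ => exact s.good.2

theorem homz_step {G G' : YY k → Matrix n n ℂ} (h : GLStep G G')
    (τ : X → YY k → (n → ℂ)) (hc : Continuous fun p : X × YY k => τ p.1 p.2)
    (ho : ∀ x y, τ (-x) y = -τ x y) (hout : ∀ x y, Out y → τ x y = τ x 0)
    (hne : ∀ x y, ‖x‖ = 1 → τ x y ≠ 0) :
    HomZ (fun x y => G y *ᵥ τ x y) (fun x y => G' y *ᵥ τ x y) 0 := by
  obtain ⟨K, kc, kd, ko, k0, k1⟩ := h
  refine HomZ.of_ne (fun p => K (p.1, p.2.2) *ᵥ τ p.2.1 p.2.2) ?_ ?_ ?_ ?_ ?_ ?_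
  · exact ((kc.comp (f := fun p : ℝ × X × YY k => (p.1, p.2.2)) (by fun_prop)).matrix_mulVec
      (hc.comp continuous_snd)).continuousOn
  · intro s x y _ _ _
    dsimp only
    rw [ho, Matrix.mulVec_neg]
  · intro s x y _ _ _ o
    dsimp only
    rw [ko s y o, hout x y o]
  · intro x y _
    dsimp only
    rw [k0]
  · intro x y _
    dsimp only
    rw [k1]
  · intro s x y a b c e
    exact hne x y c (Matrix.eq_zero_of_mulVec_eq_zero (kd s y a b) e)

/-- Homotopies of matrix families act on nowhere vanishing families of odd maps. -/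
theorem GLHom.homZ {G G' : YY k → Matrix n n ℂ} (h : GLHom G G') (hG : GLGood G)
    (τ : X → YY k → (n → ℂ)) (hc : Continuous fun p : X × YY k => τ p.1 p.2)
    (ho : ∀ x y, τ (-x) y = -τ x y) (hout : ∀ x y, Out y → τ x y = τ x 0)
    (hne : ∀ x y, ‖x‖ = 1 → τ x y ≠ 0) :
    HomZ (fun x y => G y *ᵥ τ x y) (fun x y => G' y *ᵥ τ x y) 0 := by
  induction h with
  | refl =>
    exact homz_step ⟨fun p => G p.2, hG.cont.comp continuous_snd, fun _ y _ _ => hG.det y,
      fun _ y o => hG.out y o, fun _ => rfl, fun _ => rfl⟩ τ hc ho hout hne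
  | tail _ s ih => exact ih.trans (homz_step s τ hc ho hout hne)

theorem homz_eps {F : YY k → n → n → ℂ} (hc : Continuous F)
    (hd : ∀ y, (Matrix.of (F y)).det ≠ 0) :
    ∃ ε : YY k → ℝ, Continuous ε ∧ (∀ y, 0 < ε y) ∧
      ∀ y (M : n → n → ℂ), dist (F y) M < ε y → (Matrix.of M).det ≠ 0 := by
  rcases Set.eq_empty_or_nonempty {M : n → n → ℂ | (Matrix.of M).det = 0} with h | h
  · refine ⟨fun _ => 1, continuous_const, fun _ => one_pos, fun _ M _ e => ?_⟩
    exact Set.notMem_empty M (h ▸ e)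
  · have hcl : IsClosed {M : n → n → ℂ | (Matrix.of M).det = 0} :=
      isClosed_eq (Continuous.matrix_det (A := fun M : n → n → ℂ => Matrix.of M)
        (continuous_matrix fun a b => (continuous_apply b).comp (continuous_apply a)))
        continuous_const
    exact ⟨fun y => Metric.infDist (F y) {M | (Matrix.of M).det = 0},
      (Metric.continuous_infDist_pt _).comp hc,
      fun y => (hcl.notMem_iff_infDist_pos h).1 (hd y),
      fun y M a => (Metric.notMem_of_dist_lt_infDist a :)⟩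

/-- Every continuous family is homotopic to a smooth one. -/
theorem GLGood.smooth {G : YY k → Matrix n n ℂ} (hG : GLGood G) :
    ∃ G', SmGood G' ∧ GLStep G G' := by
  have hc : Continuous fun y => (fun a b => G y a b : n → n → ℂ) :=
    continuous_pi fun a => continuous_pi fun b => hG.cont.matrix_elem a b
  obtain ⟨ε, e1, e2, e3⟩ := homz_eps hc hG.det
  obtain ⟨g, g1, g2, g3⟩ := Continuous.exists_contDiff_approx ⊤
    (hc.sub (continuous_const (y := (fun a b => G 0 a b : n → n → ℂ)))) e1 e2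
  have g0 : ∀ y, G y = G 0 → g y = 0 := by
    intro y hy
    by_contra a
    exact g3 a (by simp [hy])
  have hd : ∀ (s : ℝ) y, 0 ≤ s → s ≤ 1 →
      (Matrix.of fun a b => G y a b + s • (G 0 a b + g y a b - G y a b)).det ≠ 0 := by
    intro s y a b
    refine e3 y _ (lt_of_le_of_lt ?_ (g2 y))
    rw [dist_eq_norm, dist_eq_norm]
    have : ((fun a b => G y a b) - fun a b => G y a b + s • (G 0 a b + g y a b - G y a b)) =
        (-s) • (g y - ((fun a b => G y a b) - fun a b => G 0 a b)) := by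
      funext a b
      simp only [Pi.sub_apply, Pi.smul_apply, Complex.real_smul, Complex.ofReal_neg]
      ring
    rw [this, norm_smul, norm_neg, Real.norm_of_nonneg a]
    exact mul_le_of_le_one_left (norm_nonneg _) b
  refine ⟨fun y => Matrix.of fun a b => G 0 a b + g y a b, ⟨fun a b => ?_, fun y => ?_,
    fun y o => ?_⟩, fun p => Matrix.of fun a b =>
      G p.2 a b + p.1 • (G 0 a b + g p.2 a b - G p.2 a b), ?_, hd, fun s y o => ?_, fun y => ?_,
      fun y => ?_⟩
  · exact contDiff_const.add (contDiff_pi.1 (contDiff_pi.1 g1 a) b)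
  · simpa using hd 1 y zero_le_one le_rfl
  · rw [g0 y (hG.out y o), g0 0 rfl]
  · refine continuous_matrix fun a b => ?_
    have c1 : Continuous fun p : ℝ × YY k => G p.2 a b :=
      (hG.cont.matrix_elem a b).comp continuous_snd
    have c2 : Continuous fun p : ℝ × YY k => g p.2 a b :=
      ((continuous_apply b).comp ((continuous_apply a).comp g1.continuous)).comp continuous_snd
    exact c1.add (continuous_fst.smul ((continuous_const.add c2).sub c1))
  · dsimp only
    rw [g0 y (hG.out y o), g0 0 rfl, hG.out y o]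
  · ext a b
    simp
  · ext a b
    simp

end Pool.Agent.Lib.MP_b7c8b0_gt
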