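import Pool.Agent.Lib.MP_b7c8b0_gt.JetU
import Pool.Agent.Lib.MP_b7c8b0_gt.Cert

open scoped ContDiff ComplexConjugate Topology
open Complex Filter

noncomputable section

namespace Pool.Agent.Lib.MP_b7c8b0_gt

theorem j0_compact {α : Type} [TopologicalSpace α] [T2Space α] {K : Set α} (hK : IsCompact K)
    {f p q : α → ℝ} (hf : ContinuousOn f K) (hp : ContinuousOn p K) (hq : ContinuousOn q K)
    (p0 : ∀ x ∈ K, 0 ≤ p x) (h : ∀ x ∈ K, p x = 0 → 0 < f x) :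
    ∃ ρ, 0 < ρ ∧ ∀ x ∈ K, p x ≤ ρ * q x → 0 < f x := by
  have hK' : IsCompact (K ∩ f ⁻¹' Set.Iic 0) :=
    hK.of_isClosed_subset (hf.preimage_isClosed_of_isClosed hK.isClosed isClosed_Iic)
      Set.inter_subset_left
  rcases (K ∩ f ⁻¹' Set.Iic 0).eq_empty_or_nonempty with h0 | h0
  · refine ⟨1, one_pos, fun x hx _ => ?_⟩
    by_contra hc
    exact h0.subset ⟨hx, not_lt.1 hc⟩
  obtain ⟨x0, hx0, hm⟩ := hK'.exists_isMinOn h0 (hp.mono Set.inter_subset_left)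
  obtain ⟨M, hM⟩ := hK.bddAbove_image hq
  have hm0 : 0 < p x0 := (p0 x0 hx0.1).lt_of_ne fun e => absurd (h x0 hx0.1 e.symm) (not_lt.2 hx0.2)
  have hM1 : 0 < |M| + 1 := by positivity
  refine ⟨p x0 / (|M| + 1), div_pos hm0 hM1, fun x hx hxp => ?_⟩
  by_contra hc
  have h1 : p x0 ≤ p x := hm ⟨hx, not_lt.1 hc⟩
  have h2 : q x < |M| + 1 := by
    have := hM ⟨x, hx, rfl⟩
    have := le_abs_self M
    linarith
  have h3 := mul_lt_mul_of_pos_left h2 (div_pos hm0 hM1)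
  rw [div_mul_cancel₀ _ hM1.ne'] at h3
  linarith

theorem j0_fderiv (Z V : C2) : fderiv ℝ y0 Z V =
    3 / 2 * (2 * conj Z.1 * conj V.1 * Z.2 + conj Z.1 ^ 2 * V.2).re
      - 3 / 2 * (conj Z.1 ^ 2 * conj V.1).re
      - 4 * (conj (Z.2 - conj Z.1) * (V.2 - conj V.1)).re * (‖Z.2‖ ^ 2 - ‖Z.1‖ ^ 2 / 2)
      - 2 * ‖Z.2 - conj Z.1‖ ^ 2 * (2 * (conj Z.2 * V.2).re - (conj Z.1 * V.1).re) := by
  have h1 : HasFDerivAt (fun Z : C2 => Z.1) (ContinuousLinearMap.fst ℝ ℂ ℂ) Z := hasFDerivAt_fst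
  have h2 : HasFDerivAt (fun Z : C2 => Z.2) (ContinuousLinearMap.snd ℝ ℂ ℂ) Z := hasFDerivAt_snd
  have h3 : HasFDerivAt (fun Z : C2 => conj Z.1) _ Z :=
    (conjCLE : ℂ →L[ℝ] ℂ).hasFDerivAt.comp Z h1
  have h4 := (reCLM.hasFDerivAt.comp Z ((h3.pow 2).mul h2)).const_mul (3 / 2 : ℝ)
  have h5 := (reCLM.hasFDerivAt.comp Z (h3.pow 3)).const_mul (1 / 2 : ℝ)
  have h6 := (((h2.sub h3).norm_sq).const_mul (2 : ℝ)).mul
    (h2.norm_sq.sub (h1.norm_sq.mul_const (1 / 2 : ℝ)))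
  have h7 : HasFDerivAt y0 _ Z := ((h4.sub h5).sub h6).congr_of_eventuallyEq
    (Eventually.of_forall fun W => by simp [y0, div_eq_mul_inv])
  rw [h7.fderiv]
  simp [Complex.inner, pow_succ]
  ring

theorem j0_D0 (w : C2) : D0 w = (conj w.1 ^ 3 * (w.2 - conj w.1) ^ 2 * (w.2 + conj w.1 / 2)).re
    + 2 * (‖w.2 - conj w.1‖ ^ 2 * ‖w.2 + conj w.1‖ ^ 2) * (‖w.2‖ ^ 4 - ‖w.1‖ ^ 4 / 2) := by
  have h1 : w.2 ^ 2 - conj (w.1 ^ 2) = (w.2 - conj w.1) * (w.2 + conj w.1) := by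
    rw [map_pow]; ring
  have h2 : conj w.1 ^ 3 * (w.2 - conj w.1) ^ 2 * (w.2 + conj w.1 / 2) =
      (w.2 * conj w.1) ^ 3 - ((3 / 2 : ℝ) * (conj (w.1 ^ 2) ^ 2 * w.2 ^ 2)
        - (1 / 2 : ℝ) * conj (w.1 ^ 2) ^ 3) := by
    rw [map_pow]; push_cast; ring
  simp only [D0, uu, y0, sq2, h1, h2, norm_mul, norm_pow, sub_re, re_ofReal_mul]
  ring

/-- The lower bound of `D0` divided by the square of the distance to the line. -/
def j0g (w : C2) : ℝ :=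
  2 * ‖w.2 + conj w.1‖ ^ 2 * (‖w.2‖ ^ 4 - ‖w.1‖ ^ 4 / 2) - ‖w.1‖ ^ 3 * ‖w.2 + conj w.1 / 2‖

def j0G (w : C2) : ℝ :=
  2 * ‖w.2 + conj w.1‖ ^ 2 * |‖w.2‖ ^ 4 - ‖w.1‖ ^ 4 / 2| + ‖w.1‖ ^ 3 * ‖w.2 + conj w.1 / 2‖

theorem j0_re (w : C2) : |(conj w.1 ^ 3 * (w.2 - conj w.1) ^ 2 * (w.2 + conj w.1 / 2)).re| ≤
    ‖w.2 - conj w.1‖ ^ 2 * (‖w.1‖ ^ 3 * ‖w.2 + conj w.1 / 2‖) := by
  refine (abs_re_le_norm _).trans_eq ?_
  simp only [norm_mul, norm_pow, RCLike.norm_conj]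
  ring

theorem j0_lower (w : C2) : ‖w.2 - conj w.1‖ ^ 2 * j0g w ≤ D0 w := by
  have := (abs_le.1 (j0_re w)).1
  rw [j0_D0, j0g]
  linarith

theorem j0_upper (w : C2) : |D0 w| ≤ ‖w.2 - conj w.1‖ ^ 2 * j0G w := by
  rw [j0_D0, j0G]
  refine (abs_add_le _ _).trans ?_
  have h1 := j0_re w
  rw [abs_mul _ (‖w.2‖ ^ 4 - ‖w.1‖ ^ 4 / 2), abs_of_nonneg (a := 2 * _) (by positivity)]
  linarith

theorem j0_delta (w : C2) : w.2 - conj w.1 = 3 / 2 * Xc w - 1 / 2 * conj (Xc w) := by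
  simp only [Xc, map_add, map_sub, map_mul, map_div₀, conj_conj, map_ofNat, map_one]
  ring

theorem j0_delta_le (w : C2) : ‖w.2 - conj w.1‖ ≤ 2 * ‖Xc w‖ := by
  rw [j0_delta]
  refine (norm_sub_le _ _).trans_eq ?_
  simp only [norm_mul, norm_div, RCLike.norm_conj, Complex.norm_ofNat, norm_one]
  ring

theorem j0_X_zero {w : C2} : Xc w = 0 ↔ w.2 = conj w.1 := by
  refine ⟨fun h => sub_eq_zero.1 ?_, fun h => ?_⟩
  · rw [j0_delta, h]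
    simp
  · simp [Xc, h]

theorem j0_Nsq (e : ℝ) (w : C2) : Nsq e (sq2 w) = ‖w.1‖ ^ 4 + e ^ 2 * ‖w.2‖ ^ 4 := by
  simp only [Nsq, sq2, norm_pow]
  ring

theorem j0_far {e : ℝ} (he : 0 ≤ e) (he' : e ≤ 1 / 10) {w : C2} (h : Nsq e (sq2 w) = 1)
    (hw : 2 * ‖w.1‖ ≤ ‖w.2‖) : 0 < j0g w := by
  rw [j0_Nsq] at h
  have h1 : ‖w.2‖ - ‖w.1‖ ≤ ‖w.2 + conj w.1‖ := by
    have := norm_sub_norm_le w.2 (-conj w.1)
    simpa using this
  have h2 : ‖w.2 + conj w.1 / 2‖ ≤ ‖w.2‖ + ‖w.1‖ / 2 := by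
    have := norm_add_le w.2 (conj w.1 / 2)
    simpa using this
  unfold j0g
  have ha := norm_nonneg w.1
  have hd := norm_nonneg (w.2 + conj w.1 / 2)
  generalize ‖w.1‖ = a at *
  generalize ‖w.2‖ = b at *
  generalize ‖w.2 + conj w.1‖ = c at *
  generalize ‖w.2 + conj w.1 / 2‖ = d at *
  have hb : 0 ≤ b := by linarith
  have a4 : a ^ 4 ≤ (b / 2) ^ 4 := pow_le_pow_left₀ ha (by linarith) 4
  have a3 : a ^ 3 ≤ (b / 2) ^ 3 := pow_le_pow_left₀ ha (by linarith) 3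
  have c2 : (b / 2) ^ 2 ≤ c ^ 2 := pow_le_pow_left₀ (by linarith) (by linarith) 2
  have e2 : e ^ 2 ≤ 1 := by nlinarith
  have b4 : 0 ≤ b ^ 4 := by positivity
  have b5 : 1 ≤ 2 * b ^ 4 := by nlinarith
  have b2 : 1 / 2 ≤ b ^ 2 := by
    by_contra hc
    have : 0 ≤ b ^ 2 := by positivity
    nlinarith
  have t1 : a ^ 3 * d ≤ (b / 2) ^ 3 * (5 / 4 * b) :=
    mul_le_mul a3 (by linarith) hd (by positivity)
  have t2 : 1 / 8 * (31 / 32 * b ^ 4) ≤ c ^ 2 * (b ^ 4 - a ^ 4 / 2) :=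
    mul_le_mul (by nlinarith) (by nlinarith) (by positivity) (by positivity)
  nlinarith

theorem j0_line {e : ℝ} (he : 0 ≤ e) (he' : e ≤ 1 / 10) {w : C2} (h : Nsq e (sq2 w) = 1)
    (hw : Xc w = 0) : 0 < j0g w := by
  rw [j0_X_zero] at hw
  rw [j0_Nsq, hw, RCLike.norm_conj] at h
  have h1 : ‖w.2 + conj w.1‖ = 2 * ‖w.1‖ := by
    rw [hw, ← two_mul]; simp
  have h2 : ‖w.2 + conj w.1 / 2‖ = 3 / 2 * ‖w.1‖ := by
    rw [hw, show conj w.1 + conj w.1 / 2 = 3 / 2 * conj w.1 by ring]; simp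
  rw [j0g, h1, h2, hw, RCLike.norm_conj]
  have ha := norm_nonneg w.1
  generalize ‖w.1‖ = a at *
  have e2 : e ^ 2 ≤ 1 := by nlinarith
  have b4 : 0 ≤ a ^ 4 := by positivity
  have b5 : 1 ≤ 2 * a ^ 4 := by nlinarith
  have b2 : 1 / 2 ≤ a ^ 2 := by
    by_contra hc
    have : 0 ≤ a ^ 2 := by positivity
    nlinarith
  nlinarith

theorem j0_cont : Continuous fun p : ℝ × C2 => jn p.1 p.2 (D0 p.2) (PD0 p.2) := by
  simp only [jn, D0, PD0, sub_apply, j0_fderiv, Pu, cov_apply, Jv, sq2, uu, y0]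
  fun_prop

theorem j0_zero (e : ℝ) {w : C2} (hw : Xc w = 0) : jn e w (D0 w) (PD0 w) = 0 := by
  rw [j0_X_zero] at hw
  have h1 : D0 w = 0 := by simp [j0_D0, hw]
  have h2 : ∀ V, PD0 w V = 0 := by
    intro V
    simp only [PD0, sub_apply, j0_fderiv, Pu, cov_apply, sq2, hw, map_pow,
      conj_conj, sub_self]
    simp [pow_succ]
    ring
  simp [jn, h1, h2]

theorem j0_cert {w : C2} (h : Nsq 0 (sq2 w) = 1) (hw : Xc w ≠ 0) :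
    0 < jn 0 w (D0 w) (PD0 w) := by
  by_contra hc
  have a1 := abs_nonneg (D0 w)
  have a2 := abs_nonneg (PD0 w (Jv 0 (sq2 w) 1))
  have a3 := abs_nonneg (PD0 w (Jv 0 (sq2 w) I))
  unfold jn at hc
  have b1 : D0 w = 0 := abs_eq_zero.1 (by linarith)
  have b2 : PD0 w (Jv 0 (sq2 w) 1) = 0 := abs_eq_zero.1 (by linarith)
  have b3 : PD0 w (Jv 0 (sq2 w) I) = 0 := abs_eq_zero.1 (by linarith)
  obtain ⟨ν, ϖ⟩ := w
  have hn : ‖ν‖ = 1 := by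
    rw [j0_Nsq] at h
    have h4 : ‖ν‖ ^ 4 = 1 := by simpa using h
    exact (pow_eq_one_iff_of_nonneg (norm_nonneg _) (by norm_num)).1 h4
  have hu : conj ν * ν = 1 := by rw [conj_mul', hn]; simp
  obtain ⟨σ, rfl⟩ : ∃ σ, ϖ = σ * conj ν := ⟨ϖ * ν, by linear_combination (-ϖ) * hu⟩
  have hσ : σ ≠ 1 := by
    rintro rfl
    exact hw (j0_X_zero.2 (by simp))
  have n1 : ‖σ * conj ν‖ = ‖σ‖ := by simp [hn]
  have n2 : ‖σ * conj ν - conj ν‖ ^ 2 * ‖σ * conj ν + conj ν‖ ^ 2 = ‖σ ^ 2 - 1‖ ^ 2 := by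
    rw [← mul_pow, ← norm_mul, show (σ * conj ν - conj ν) * (σ * conj ν + conj ν) =
      (σ ^ 2 - 1) * conj ν ^ 2 by ring]
    simp [hn]
  have n3 : ‖(σ * conj ν) ^ 2 - conj (ν ^ 2)‖ = ‖σ ^ 2 - 1‖ := by
    rw [show (σ * conj ν) ^ 2 - conj (ν ^ 2) = (σ ^ 2 - 1) * conj ν ^ 2 by rw [map_pow]; ring]
    simp [hn]
  set B : ℂ := 3 * conj ν ^ 6 * (σ - 1) + 8 * ((conj σ ^ 2 - 1) * ((‖σ‖ ^ 4 - 1 / 2 : ℝ) : ℂ)
      + ((‖σ ^ 2 - 1‖ ^ 2 : ℝ) : ℂ) * conj σ ^ 2) with hB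
  have key : ∀ c, PD0 (ν, σ * conj ν) (Jv 0 (sq2 (ν, σ * conj ν)) c) = (c * B / 2).re := by
    intro c
    have r1 : conj ((σ * conj ν) ^ 2 - conj (ν ^ 2)) * (c * conj (ν ^ 2)) =
        c * (conj σ ^ 2 - 1) := by
      simp only [map_sub, map_mul, map_pow, conj_conj]
      linear_combination (c * (conj σ ^ 2 - 1) * (conj ν * ν + 1)) * hu
    have r2 : conj ((σ * conj ν) ^ 2) * (c * conj (ν ^ 2)) = c * conj σ ^ 2 := by
      simp only [map_mul, map_pow, conj_conj]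
      linear_combination (c * conj σ ^ 2 * (conj ν * ν + 1)) * hu
    have r3 : c * B / 2 = 3 / 2 * (σ * conj ν) * conj ν ^ 3 * (c * conj (ν ^ 2))
        - (3 / 2 : ℝ) * (conj (ν ^ 2) ^ 2 * (c * conj (ν ^ 2)))
        + ((4 * (‖σ‖ ^ 4 - 1 / 2) : ℝ) : ℂ) * (c * (conj σ ^ 2 - 1))
        + ((4 * ‖σ ^ 2 - 1‖ ^ 2 : ℝ) : ℂ) * (c * conj σ ^ 2) := by
      rw [hB, map_pow]
      push_cast
      ring
    simp only [PD0, sub_apply, j0_fderiv, Pu, cov_apply, Jv, sq2, ofReal_zero,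
      ne_eq, OfNat.ofNat_ne_zero, not_false_eq_true, zero_pow, mul_zero, zero_mul, neg_zero,
      map_zero, zero_add, sub_zero, zero_re, r1, r2, r3, n3, norm_pow, n1, hn, add_re, sub_re,
      re_ofReal_mul]
    ring
  refine cert σ (conj ν ^ 6) (by simp [hn]) hσ ?_ ?_
  · rw [j0_D0] at b1
    simp only [n1, n2, hn] at b1
    rw [show conj ν ^ 6 * (σ - 1) ^ 2 * (σ + 1 / 2) =
      conj ν ^ 3 * (σ * conj ν - conj ν) ^ 2 * (σ * conj ν + conj ν / 2) by ring]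
    linarith
  · rw [key] at b2 b3
    rw [← hB]
    apply Complex.ext
    · simpa using b2
    · simpa using b3

theorem j0_cX : Continuous Xc := by unfold Xc; fun_prop

theorem j0_cY : Continuous Yc := by unfold Yc Xc; fun_prop

theorem j0_XY {w : C2} (h1 : Xc w = 0) (h2 : Yc w = 0) : w = 0 := by
  rw [← Lin_XY w, h1, h2]
  simp [Lin]

theorem j0_main : ∃ e ρ : ℝ, 0 < e ∧ e ≤ 1 / 10 ∧ 0 < ρ ∧
    (∀ w, Nsq e (sq2 w) = 1 → near2 ρ w → Xc w ≠ 0 → 0 < D0 w) ∧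
    ∀ w, Nsq e (sq2 w) = 1 → Xc w ≠ 0 → 0 < jn e w (D0 w) (PD0 w) := by
  let K : Set (ℝ × C2) :=
    {p | 0 ≤ p.1 ∧ p.1 ≤ 1 / 10 ∧ ‖p.2.2‖ ≤ 2 * ‖p.2.1‖ ∧ Nsq p.1 (sq2 p.2) = 1}
  have hN : Continuous fun p : ℝ × C2 => Nsq p.1 (sq2 p.2) := by unfold Nsq sq2; fun_prop
  have hK : IsCompact K := by
    refine Metric.isCompact_of_isClosed_isBounded ?_ ?_
    · have c1 : Continuous fun p : ℝ × C2 => ‖p.2.2‖ := by fun_prop
      have c2 : Continuous fun p : ℝ × C2 => 2 * ‖p.2.1‖ := by fun_prop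
      exact (isClosed_le continuous_const continuous_fst).inter
        ((isClosed_le continuous_fst continuous_const).inter
        ((isClosed_le c1 c2).inter (isClosed_eq hN continuous_const)))
    · refine (isBounded_iff_forall_norm_le.2 ⟨2, ?_⟩)
      rintro ⟨e, ν, ϖ⟩ ⟨h1, h2, h3, h4⟩
      rw [j0_Nsq] at h4
      have h5 : ‖ν‖ ≤ 1 := by
        refine (pow_le_one_iff_of_nonneg (norm_nonneg _) (n := 4) (by norm_num)).1 ?_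
        have : 0 ≤ e ^ 2 * ‖ϖ‖ ^ 4 := by positivity
        simp only at h4
        linarith
      simp only at h1 h2 h3
      simp only [Prod.norm_def, max_le_iff, Real.norm_eq_abs, abs_of_nonneg h1]
      refine ⟨by linarith, by linarith, by linarith⟩
  have cX : Continuous fun p : ℝ × C2 => ‖Xc p.2‖ ^ 2 := by have := j0_cX; fun_prop
  have cY : Continuous fun p : ℝ × C2 => ‖Yc p.2‖ ^ 2 := by have := j0_cY; fun_prop
  obtain ⟨ρ, hρ, h1⟩ := j0_compact hK (f := fun p => j0g p.2) (by unfold j0g; fun_prop)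
    cX.continuousOn cY.continuousOn (fun _ _ => by positivity)
    (fun p hp h => j0_line hp.1 hp.2.1 hp.2.2.2 (by simpa using h))
  have hK' : IsCompact (K ∩ {p | ρ * ‖Yc p.2‖ ^ 2 ≤ ‖Xc p.2‖ ^ 2}) :=
    hK.inter_right (isClosed_le (continuous_const.mul cY) cX)
  obtain ⟨e0, he0, h2⟩ := j0_compact hK' j0_cont.continuousOn continuous_fst.continuousOn
    (q := fun _ => 1) continuousOn_const (fun p hp => hp.1.1) (by
      rintro ⟨e, w⟩ ⟨hp, hp'⟩ (rfl : e = 0)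
      refine j0_cert hp.2.2.2 fun (hX : Xc w = 0) => ?_
      have hp'' : ρ * ‖Yc w‖ ^ 2 ≤ ‖Xc w‖ ^ 2 := hp'
      have hY : Yc w = 0 := by
        rw [hX] at hp''
        have : ‖Yc w‖ ^ 2 ≤ 0 := by
          refine le_of_mul_le_mul_left ?_ hρ
          simpa using hp''
        simpa using this
      have := hp.2.2.2
      rw [j0_XY hX hY] at this
      simp [Nsq, sq2] at this)
  have he : 0 < min e0 (1 / 10) := lt_min he0 (by norm_num)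
  have hpos : ∀ w, Nsq (min e0 (1 / 10)) (sq2 w) = 1 → 2 * ‖w.1‖ ≤ ‖w.2‖ ∨ near2 ρ w →
      Xc w ≠ 0 → 0 < D0 w := by
    intro w hw hn hX
    refine lt_of_lt_of_le (mul_pos (pow_pos (norm_pos_iff.2 fun h => hX ?_) 2) ?_) (j0_lower w)
    · exact j0_X_zero.2 (sub_eq_zero.1 h)
    · rcases le_total (2 * ‖w.1‖) ‖w.2‖ with h | h
      · exact j0_far he.le (min_le_right _ _) hw h
      · rcases hn with hn | hn
        · exact j0_far he.le (min_le_right _ _) hw hn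
        · exact h1 (_, w) ⟨he.le, min_le_right _ _, h, hw⟩ hn
  refine ⟨_, ρ, he, min_le_right _ _, hρ, fun w hw hn => hpos w hw (Or.inr hn), fun w hw hX => ?_⟩
  by_cases hn : 2 * ‖w.1‖ ≤ ‖w.2‖ ∨ near2 ρ w
  · have := abs_pos.2 (hpos w hw hn hX).ne'
    unfold jn
    positivity
  · rw [not_or] at hn
    exact h2 (_, w) ⟨⟨he.le, min_le_right _ _, (not_le.1 hn.1).le, hw⟩, (not_le.1 hn.2).le⟩
      (by simp)

theorem j0_sphere {e : ℝ} (he : 0 < e) : IsCompact {w : C2 | Nsq e (sq2 w) = 1} := by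
  refine Metric.isCompact_of_isClosed_isBounded
    (isClosed_eq (by unfold Nsq sq2; fun_prop) continuous_const) ?_
  refine (isBounded_iff_forall_norm_le.2 ⟨1 + (e ^ 2)⁻¹, ?_⟩)
  rintro ⟨ν, ϖ⟩ h
  have h4 : ‖ν‖ ^ 4 + e ^ 2 * ‖ϖ‖ ^ 4 = 1 := (j0_Nsq e (ν, ϖ)).symm.trans h
  have a1 : 0 ≤ e ^ 2 * ‖ϖ‖ ^ 4 := by positivity
  have a2 : 0 ≤ ‖ν‖ ^ 4 := by positivity
  have a3 : 0 < (e ^ 2)⁻¹ := by positivity
  have h5 : ‖ν‖ ≤ 1 :=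
    (pow_le_one_iff_of_nonneg (norm_nonneg _) (n := 4) (by norm_num)).1 (by linarith)
  have h6 : ‖ϖ‖ ^ 4 ≤ (e ^ 2)⁻¹ := by
    rw [← mul_one (e ^ 2)⁻¹, le_inv_mul_iff₀ (by positivity)]
    linarith
  simp only [Prod.norm_def, max_le_iff]
  refine ⟨by linarith, ?_⟩
  rcases le_total ‖ϖ‖ 1 with h | h
  · linarith
  · have := le_self_pow₀ h (n := 4) (by norm_num)
    linarith

theorem j0_Li (z : ℂ) : ‖Li z‖ ≤ ‖z‖ := by
  refine (norm_add_le _ _).trans_eq ?_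
  simp only [norm_mul, norm_div, RCLike.norm_conj, Complex.norm_ofNat, norm_one]
  ring

theorem j0_unit (z : ℂ) : ‖(‖z‖ ^ 2 : ℝ)⁻¹ • z‖ = ‖z‖⁻¹ := by
  rw [norm_smul, norm_inv, norm_pow, norm_norm]
  rcases eq_or_ne ‖z‖ 0 with h | h
  · simp [h]
  · field_simp

theorem j0_PR {w : C2} (hn : near2 (1 / 16) w) (V : C2) :
    ‖Xc w‖ * |PR w V| ≤ 2 * (‖V.1‖ / ‖w.1‖ + ‖V.2‖ / ‖w.2‖) := by
  set u := (‖Xc w‖ ^ 2 : ℝ)⁻¹ • Xc w with hu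
  set v := (‖Yc w‖ ^ 2 : ℝ)⁻¹ • Yc w with hv
  have hx := norm_nonneg (Xc w)
  have h1 : ‖Xc w‖ * ‖u‖ ≤ 1 := by rw [hu, j0_unit]; exact mul_inv_le_one
  have h2 : ‖Xc w‖ * ‖v‖ ≤ 1 / 4 := by
    rw [hv, j0_unit]
    have h3 : ‖Xc w‖ ≤ 1 / 4 * ‖Yc w‖ := by
      refine (pow_le_pow_iff_left₀ hx (by positivity) two_ne_zero).1 ?_
      unfold near2 at hn
      linarith
    calc _ ≤ 1 / 4 * ‖Yc w‖ * ‖Yc w‖⁻¹ := by gcongr
      _ = 1 / 4 * (‖Yc w‖ * ‖Yc w‖⁻¹) := by ring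
      _ ≤ 1 / 4 * 1 := by gcongr; exact mul_inv_le_one
      _ = _ := by ring
  have h4 : ‖Li (u + v)‖ ≤ ‖u‖ + ‖v‖ := (j0_Li _).trans (norm_add_le _ _)
  have h5 : ‖Li (u + v) + conj v‖ ≤ ‖u‖ + ‖v‖ + ‖v‖ := by
    refine (norm_add_le _ _).trans ?_
    rw [RCLike.norm_conj]
    linarith
  have h6 : |PR w V| ≤ (‖u‖ + ‖v‖ + ‖v‖) * (‖V.1‖ / ‖w.1‖) + (‖u‖ + ‖v‖) * (‖V.2‖ / ‖w.2‖) := by
    rw [PR, cov_apply, ← hu, ← hv]
    refine (abs_re_le_norm _).trans ((norm_add_le _ _).trans (add_le_add ?_ ?_))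
    · rw [norm_mul, norm_div, norm_neg, div_mul_eq_mul_div, mul_div_assoc]
      gcongr
    · rw [norm_mul, norm_div, RCLike.norm_conj, div_mul_eq_mul_div, mul_div_assoc]
      gcongr
  have p1 : 0 ≤ ‖V.1‖ / ‖w.1‖ := by positivity
  have p2 : 0 ≤ ‖V.2‖ / ‖w.2‖ := by positivity
  have h7 := mul_le_mul_of_nonneg_left h6 hx
  nlinarith

theorem j0_DPR {e : ℝ} {w : C2} (hn : near2 (1 / 16) w) {c : ℂ} (hc : ‖c‖ = 1) :
    |(D0 w • PR w) (Jv e (sq2 w) c)| ≤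
      8 * ‖Xc w‖ * j0G w * (e ^ 2 * ‖w.2‖ ^ 2 / ‖w.1‖ + ‖w.1‖ ^ 2 / ‖w.2‖) := by
  have h1 := j0_PR hn (Jv e (sq2 w) c)
  have e1 : ‖(Jv e (sq2 w) c).1‖ = e ^ 2 * ‖w.2‖ ^ 2 := by simp [Jv, sq2, hc]
  have e2 : ‖(Jv e (sq2 w) c).2‖ = ‖w.1‖ ^ 2 := by simp [Jv, sq2, hc]
  rw [e1, e2] at h1
  have hG : 0 ≤ j0G w := by unfold j0G; positivity
  have h2 : |D0 w| ≤ (2 * ‖Xc w‖) ^ 2 * j0G w :=
    (j0_upper w).trans (by gcongr; exact j0_delta_le w)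
  rw [smul_apply, smul_eq_mul, abs_mul]
  calc _ ≤ (2 * ‖Xc w‖) ^ 2 * j0G w * |PR w (Jv e (sq2 w) c)| := by gcongr
    _ = 4 * ‖Xc w‖ * j0G w * (‖Xc w‖ * |PR w (Jv e (sq2 w) c)|) := by ring
    _ ≤ 4 * ‖Xc w‖ * j0G w * (2 * _) := by gcongr
    _ = _ := by ring

theorem j0_cJ (e : ℝ) : Continuous fun w : C2 => jn e w (D0 w) (PD0 w) := by
  simp only [jn, D0, PD0, sub_apply, j0_fderiv, Pu, cov_apply, Jv, sq2, uu, y0]
  fun_prop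

theorem j0_ne {e : ℝ} {w : C2} (h : Nsq e (sq2 w) = 1) : w ≠ 0 := by
  rintro rfl
  simp [Nsq, sq2] at h

theorem j0_marg {e : ℝ} (he : 0 < e)
    (hnv : ∀ w, Nsq e (sq2 w) = 1 → Xc w ≠ 0 → 0 < jn e w (D0 w) (PD0 w)) (ρ : ℝ) (hρ : 0 < ρ) :
    ∃ m, 0 < m ∧ ∀ w, Nsq e (sq2 w) = 1 → ρ * ‖Yc w‖ ^ 2 ≤ ‖Xc w‖ ^ 2 →
      m ≤ jn e w (D0 w) (PD0 w) := by
  have cX : Continuous fun w : C2 => ‖Xc w‖ ^ 2 := by have := j0_cX; fun_prop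
  have cY : Continuous fun w : C2 => ρ * ‖Yc w‖ ^ 2 := by have := j0_cY; fun_prop
  have hK : IsCompact ({w : C2 | Nsq e (sq2 w) = 1} ∩ {w | ρ * ‖Yc w‖ ^ 2 ≤ ‖Xc w‖ ^ 2}) :=
    (j0_sphere he).inter_right (isClosed_le cY cX)
  obtain ⟨m, hm, h⟩ := hK.exists_forall_le' (a := 0) (j0_cJ e).continuousOn (by
    rintro w ⟨hw, hw'⟩
    refine hnv w hw fun hX => j0_ne hw (j0_XY hX ?_)
    have hp : ρ * ‖Yc w‖ ^ 2 ≤ ‖Xc w‖ ^ 2 := hw'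
    rw [hX] at hp
    have : ‖Yc w‖ ^ 2 ≤ 0 := by
      refine le_of_mul_le_mul_left ?_ hρ
      simpa using hp
    simpa using this)
  exact ⟨m, hm, fun w h1 h2 => h w ⟨h1, h2⟩⟩

theorem j0_small {e : ℝ} (he : 0 < e) (he' : e ≤ 1 / 10) (η : ℝ) (hη : 0 < η) :
    ∃ ρ, 0 < ρ ∧ ∀ w, Nsq e (sq2 w) = 1 → near2 ρ w →
      jn e w (D0 w) (PD0 w) ≤ η ∧ jn e w 0 (D0 w • PR w) ≤ η := by
  have cX : Continuous fun w : C2 => ‖Xc w‖ ^ 2 := by have := j0_cX; fun_prop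
  have cY : Continuous fun w : C2 => ‖Yc w‖ ^ 2 := by have := j0_cY; fun_prop
  have cY' : Continuous fun w : C2 => 1 / 16 * ‖Yc w‖ ^ 2 := by have := j0_cY; fun_prop
  have hK : IsCompact ({w : C2 | Nsq e (sq2 w) = 1} ∩
      {w | ‖Xc w‖ ^ 2 ≤ 1 / 16 * ‖Yc w‖ ^ 2}) := (j0_sphere he).inter_right (isClosed_le cX cY')
  have hn : ∀ w ∈ {w : C2 | Nsq e (sq2 w) = 1} ∩ {w | ‖Xc w‖ ^ 2 ≤ 1 / 16 * ‖Yc w‖ ^ 2},
      ‖w.1‖ ≠ 0 ∧ ‖w.2‖ ≠ 0 := fun w hw => by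
    simpa using (jetU he he').ne w (j0_ne hw.1) (Or.inr hw.2)
  have c1 : Continuous fun w : C2 => η - jn e w (D0 w) (PD0 w) := by
    have := j0_cJ e
    fun_prop
  obtain ⟨ρ1, hρ1, h1⟩ := j0_compact hK c1.continuousOn cX.continuousOn cY.continuousOn
    (fun _ _ => by positivity) (fun w _ h => by
      rw [j0_zero e (by simpa using h)]
      linarith)
  have c2 : Continuous fun w : C2 => 8 * ‖Xc w‖ * j0G w := by
    have := j0_cX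
    unfold j0G
    fun_prop
  have c3 : Continuous fun w : C2 => e ^ 2 * ‖w.2‖ ^ 2 := by fun_prop
  have c4 : Continuous fun w : C2 => ‖w.1‖ ^ 2 := by fun_prop
  have c5 : Continuous fun w : C2 => ‖w.1‖ := by fun_prop
  have c6 : Continuous fun w : C2 => ‖w.2‖ := by fun_prop
  have c7 := (c3.continuousOn.div c5.continuousOn fun w hw => (hn w hw).1).add
    (c4.continuousOn.div c6.continuousOn fun w hw => (hn w hw).2)
  have c8 := (continuousOn_const (c := η)).sub ((continuousOn_const (c := (2 : ℝ))).mul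
    (c2.continuousOn.mul c7))
  obtain ⟨ρ2, hρ2, h2⟩ := j0_compact hK c8 cX.continuousOn cY.continuousOn
    (fun _ _ => by positivity) (fun w _ h => by
      have : ‖Xc w‖ = 0 := by simpa using h
      simpa [this] using hη)
  refine ⟨min (1 / 16) (min ρ1 ρ2), by positivity, fun w hw hρ => ?_⟩
  have mono : ∀ r, min (1 / 16) (min ρ1 ρ2) ≤ r → ‖Xc w‖ ^ 2 ≤ r * ‖Yc w‖ ^ 2 :=
    fun r hr => le_trans hρ (by gcongr)
  have n0 : near2 (1 / 16) w := mono _ (min_le_left _ _)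
  have g1 := h1 w ⟨hw, n0⟩ (mono _ ((min_le_right _ _).trans (min_le_left _ _)))
  have g2 := h2 w ⟨hw, n0⟩ (mono _ ((min_le_right _ _).trans (min_le_right _ _)))
  have g3 := j0_DPR (e := e) n0 (c := 1) (by simp)
  have g4 := j0_DPR (e := e) n0 (c := I) (by simp)
  simp only [Pi.sub_apply, Pi.mul_apply, Pi.add_apply, Pi.div_apply] at g2
  refine ⟨by linarith, ?_⟩
  rw [jn, abs_zero]
  linarith

theorem jet0 : ∃ e : ℝ, 0 < e ∧ e ≤ 1 / 10 ∧ Jet0 e := by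
  obtain ⟨e, ρ0, he, he', hρ0, hpos, hnv⟩ := j0_main
  exact ⟨e, he, he', ⟨ρ0, hρ0, hpos⟩, j0_marg he hnv, j0_small he he'⟩

end Pool.Agent.Lib.MP_b7c8b0_gt
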