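import Pool.Agent.Lib.MP_b7c8b0_gt.JetU

open scoped ContDiff ComplexConjugate Topology
open Complex Filter

noncomputable section

namespace Pool.Agent.Lib.MP_b7c8b0_gt

/-- A penalty lemma on a compact set. -/
theorem j1_penalty {α : Type} [TopologicalSpace α] [T2Space α] {K : Set α} (hK : IsCompact K)
    {f g : α → ℝ} (hf : ContinuousOn f K) (hg : ContinuousOn g K) (h0 : ∀ x ∈ K, 0 ≤ g x)
    (h1 : ∀ x ∈ K, g x = 0 → 0 < f x) :
    ∃ C0 : ℝ, ∀ C, C0 ≤ C → ∀ x ∈ K, 0 < f x + C * g x := by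
  have hK' : IsCompact (K ∩ f ⁻¹' Set.Iic 0) :=
    hK.of_isClosed_subset (hf.preimage_isClosed_of_isClosed hK.isClosed isClosed_Iic)
      Set.inter_subset_left
  obtain ⟨m, hm, hm'⟩ := hK'.exists_forall_le' (hg.mono Set.inter_subset_left) (a := 0)
    (fun x hx => lt_of_le_of_ne (h0 x hx.1) (fun h => absurd (h1 x hx.1 h.symm) (not_lt.2 hx.2)))
  obtain ⟨M, hM⟩ := hK.bddBelow_image hf
  refine ⟨(|M| + 1) / m, fun C hC x hx => ?_⟩
  have hC0 : 0 ≤ C := le_trans (by positivity) hC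
  by_cases hfx : f x ≤ 0
  · have h2 := hm' x ⟨hx, hfx⟩
    have h3 : M ≤ f x := hM ⟨x, hx, rfl⟩
    have h4 := neg_abs_le M
    rw [div_le_iff₀ hm] at hC
    have h5 := mul_le_mul_of_nonneg_left h2 hC0
    linarith
  · have h2 := mul_nonneg hC0 (h0 x hx)
    linarith [not_le.1 hfx]

/-- A continuous function vanishing where `b` vanishes is small where `b` is small. -/
theorem j1_small {α : Type} [TopologicalSpace α] [T2Space α] {K : Set α} (hK : IsCompact K)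
    {φ a b : α → ℝ} (hφ : ContinuousOn φ K) (ha : ContinuousOn a K) (hb : ContinuousOn b K)
    (hb0 : ∀ x ∈ K, 0 ≤ b x) (h1 : ∀ x ∈ K, b x = 0 → φ x = 0) {η : ℝ} (hη : 0 < η) :
    ∃ ρ, 0 < ρ ∧ ∀ x ∈ K, b x ≤ ρ * a x → φ x ≤ η := by
  have hK' : IsCompact (K ∩ φ ⁻¹' Set.Ici η) :=
    hK.of_isClosed_subset (hφ.preimage_isClosed_of_isClosed hK.isClosed isClosed_Ici)
      Set.inter_subset_left
  obtain ⟨m, hm, hm'⟩ := hK'.exists_forall_le' (hb.mono Set.inter_subset_left) (a := 0)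
    (fun x hx => lt_of_le_of_ne (hb0 x hx.1) (fun h => by
      have h2 := h1 x hx.1 h.symm
      have h3 : η ≤ φ x := hx.2
      linarith))
  obtain ⟨M, hM⟩ := hK.bddAbove_image ha
  refine ⟨m / (|M| + 1), by positivity, fun x hx h => ?_⟩
  by_contra hcon
  have h2 := hm' x ⟨hx, (not_le.1 hcon).le⟩
  have h3 : a x ≤ M := hM ⟨x, hx, rfl⟩
  have h4 := le_abs_self M
  have h5 : m / (|M| + 1) * a x < m / (|M| + 1) * (|M| + 1) :=
    mul_lt_mul_of_pos_left (by linarith) (by positivity)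
  rw [div_mul_cancel₀ _ (by positivity)] at h5
  linarith

theorem j1_nn_nonneg (Z : C2) : 0 ≤ nn Z :=
  mul_nonneg (Real.smoothTransition.nonneg _) (norm_nonneg _)

theorem j1_nn_le (Z : C2) : nn Z ≤ ‖Z.1‖ :=
  mul_le_of_le_one_left (norm_nonneg _) (Real.smoothTransition.le_one _)

theorem j1_nn_eq {Z : C2} (h : ‖Z.2‖ ≤ 5 * ‖Z.1‖) : nn Z = ‖Z.1‖ := by
  unfold nn
  rcases (norm_nonneg Z.1).eq_or_lt with h0 | h0
  · rw [← h0, mul_zero]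
  · rw [Real.smoothTransition.one_of_one_le, one_mul]
    unfold rat
    have h1 : ‖Z.2‖ ^ 2 ≤ (5 * ‖Z.1‖) ^ 2 := pow_le_pow_left₀ (norm_nonneg _) h 2
    have h2 : 1 / 26 ≤ ‖Z.1‖ ^ 2 / (‖Z.2‖ ^ 2 + ‖Z.1‖ ^ 2) := by
      rw [div_le_div_iff₀ (by norm_num) (by positivity)]
      linarith
    linarith

theorem j1_kk_le (Z : C2) : ‖kk Z‖ ≤ 4 * ‖Z.1‖ := by
  unfold kk
  refine le_trans (norm_add_le _ _) ?_
  refine le_trans (add_le_add (norm_add_le _ _) le_rfl) ?_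
  have h1 := j1_nn_le Z
  simp only [norm_mul, norm_div, Complex.norm_ofNat, norm_one, Complex.norm_conj,
    Complex.norm_real, Real.norm_eq_abs, abs_of_nonneg (j1_nn_nonneg Z)]
  linarith

theorem j1_cd_conj : ContDiff ℝ ∞ (fun z : ℂ => conj z) := Complex.conjCLE.contDiff

theorem j1_s_nn {Z : C2} (hZ : Z ≠ 0) : ContDiffAt ℝ ∞ nn Z := by
  have hden : ‖Z.2‖ ^ 2 + ‖Z.1‖ ^ 2 ≠ 0 := by
    intro h
    apply hZ
    have h1 : ‖Z.1‖ ^ 2 = 0 := by nlinarith [sq_nonneg ‖Z.1‖, sq_nonneg ‖Z.2‖]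
    have h2 : ‖Z.2‖ ^ 2 = 0 := by nlinarith [sq_nonneg ‖Z.1‖, sq_nonneg ‖Z.2‖]
    exact Prod.ext (norm_eq_zero.1 (pow_eq_zero_iff two_ne_zero |>.1 h1))
      (norm_eq_zero.1 (pow_eq_zero_iff two_ne_zero |>.1 h2))
  have hrat : ContDiffAt ℝ ∞ (fun Z : C2 => 52 * rat Z.2 Z.1 - 1) Z := by
    unfold rat
    have a1 : ContDiffAt ℝ ∞ (fun Z : C2 => ‖Z.1‖ ^ 2) Z := contDiffAt_fst.norm_sq ℝ
    have a2 : ContDiffAt ℝ ∞ (fun Z : C2 => ‖Z.2‖ ^ 2 + ‖Z.1‖ ^ 2) Z :=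
      (contDiffAt_snd.norm_sq ℝ).add a1
    exact (contDiffAt_const.mul (a1.div a2 hden)).sub contDiffAt_const
  by_cases h1 : Z.1 = 0
  · have h2 : ∀ᶠ W in 𝓝 Z, 52 * rat W.2 W.1 - 1 < 0 := by
      refine hrat.continuousAt.eventually (gt_mem_nhds ?_)
      simp [rat, h1]
    refine (contDiffAt_const (c := (0 : ℝ))).congr_of_eventuallyEq ?_
    filter_upwards [h2] with W hW
    unfold nn
    rw [Real.smoothTransition.zero_of_nonpos hW.le, zero_mul]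
  · unfold nn
    exact (Real.smoothTransition.contDiff.contDiffAt.comp Z hrat).mul (contDiffAt_fst.norm ℝ h1)

theorem j1_s_oo {Z : C2} (hZ : Z ≠ 0) : ContDiffAt ℝ ∞ oo Z := by
  unfold oo
  exact (contDiffAt_const.mul (Complex.ofRealCLM.contDiff.contDiffAt.comp Z (j1_s_nn hZ))).add
    (contDiffAt_const.mul (j1_cd_conj.contDiffAt.comp Z contDiffAt_fst))

theorem j1_s_kk {Z : C2} (hZ : Z ≠ 0) : ContDiffAt ℝ ∞ kk Z := by
  unfold kk
  exact ((contDiffAt_const.mul contDiffAt_fst).add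
    (contDiffAt_const.mul (Complex.ofRealCLM.contDiff.contDiffAt.comp Z (j1_s_nn hZ)))).add
    (contDiffAt_const.mul (j1_cd_conj.contDiffAt.comp Z contDiffAt_fst))

theorem j1_s (C : ℝ) {Z : C2} (hZ : Z ≠ 0) : ContDiffAt ℝ ∞ (y1 C) Z := by
  unfold y1
  refine (ContDiffAt.add ?_ (contDiffAt_const.mul ?_)).add (contDiffAt_const.mul ?_)
  · exact Complex.reCLM.contDiff.contDiffAt.comp Z ((j1_s_oo hZ).pow 3)
  · exact Complex.reCLM.contDiff.contDiffAt.comp Z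
      (((j1_cd_conj.contDiffAt.comp Z contDiffAt_fst).mul (j1_s_oo hZ)).mul
        (contDiffAt_snd.sub (j1_s_kk hZ)))
  · exact (contDiffAt_snd.sub (j1_s_kk hZ)).norm_sq ℝ

theorem j1_y1_split (C : ℝ) (Z : C2) : y1 C Z = y1 0 Z + C * ‖Z.2 - kk Z‖ ^ 2 := by
  unfold y1
  ring

theorem j1_ne {e : ℝ} {Z : C2} (h : Nsq e Z = 1) : Z ≠ 0 := by
  intro h0
  rw [h0] at h
  simp [Nsq] at h

theorem j1_fst_le {e : ℝ} {Z : C2} (h : Nsq e Z = 1) : ‖Z.1‖ ≤ 1 := by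
  unfold Nsq at h
  have h1 : 0 ≤ e ^ 2 * ‖Z.2‖ ^ 2 := by positivity
  nlinarith [norm_nonneg Z.1]

theorem j1_snd_le {e : ℝ} (he : 0 < e) {Z : C2} (h : Nsq e Z = 1) : ‖Z.2‖ ≤ 1 / e := by
  unfold Nsq at h
  rw [le_div_iff₀ he]
  have h1 : 0 ≤ ‖Z.2‖ * e := by positivity
  nlinarith [sq_nonneg ‖Z.1‖]

theorem j1_cont_Nsq (e : ℝ) : Continuous (Nsq e) := by
  unfold Nsq
  fun_prop

theorem j1_cont_sq2 : Continuous sq2 := by
  unfold sq2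
  fun_prop

theorem j1_compactZ {e : ℝ} (he : 0 < e) : IsCompact {Z : C2 | Nsq e Z = 1} := by
  refine (isCompact_closedBall (0 : C2) (1 + 1 / e)).of_isClosed_subset
    (isClosed_eq (j1_cont_Nsq e) continuous_const) (fun Z hZ => ?_)
  rw [mem_closedBall_zero_iff, Prod.norm_def]
  have h1 := j1_fst_le hZ
  have h2 := j1_snd_le he hZ
  have h3 : 0 < 1 / e := by positivity
  exact max_le (by linarith) (by linarith)

theorem j1_compactW {e : ℝ} (he : 0 < e) : IsCompact {w : C2 | Nsq e (sq2 w) = 1} := by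
  refine (isCompact_closedBall (0 : C2) (1 + 1 / e)).of_isClosed_subset
    (isClosed_eq ((j1_cont_Nsq e).comp j1_cont_sq2) continuous_const) (fun w hw => ?_)
  rw [mem_closedBall_zero_iff, Prod.norm_def]
  have h1 : ‖w.1 ^ 2‖ ≤ 1 := j1_fst_le hw
  have h2 : ‖w.2 ^ 2‖ ≤ 1 / e := j1_snd_le he hw
  rw [norm_pow] at h1 h2
  have h3 : 0 < 1 / e := by positivity
  exact max_le (by nlinarith [sq_nonneg (‖w.1‖ - 1)]) (by nlinarith [sq_nonneg (‖w.2‖ - 1)])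

/-- On the curve `Q = kk` the top sheet lies above the bottom sheet. -/
theorem j1_core {Z : C2} (hZ : Z ≠ 0) (h : Z.2 = kk Z) : y0 Z < y1 0 Z := by
  have h1 := j1_kk_le Z
  rw [← h] at h1
  have hr0 := norm_nonneg Z.1
  have hnn := j1_nn_eq (Z := Z) (by linarith)
  have hr : 0 < ‖Z.1‖ := by
    refine lt_of_le_of_ne hr0 (fun h0 => hZ ?_)
    rw [← h0, mul_zero] at h1
    exact Prod.ext (norm_eq_zero.1 h0.symm) (norm_le_zero_iff.1 h1)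
  have hsq : ‖Z.1‖ ^ 2 = Z.1.re ^ 2 + Z.1.im ^ 2 := by
    rw [Complex.sq_norm, Complex.normSq_apply]
    ring
  have hre := abs_le.1 (Complex.abs_re_le_norm Z.1)
  have hQre : Z.2.re = 5 / 2 * Z.1.re + 3 / 2 * ‖Z.1‖ := by
    rw [h, kk, hnn]
    simp
    ring
  have hQim : Z.2.im = 2 * Z.1.im := by
    rw [h, kk, hnn]
    simp
    ring
  have hQ : ‖Z.2‖ ^ 2 = Z.2.re ^ 2 + Z.2.im ^ 2 := by
    rw [Complex.sq_norm, Complex.normSq_apply]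
    ring
  have hQ2 : 0 ≤ ‖Z.2‖ ^ 2 - ‖Z.1‖ ^ 2 / 2 := by
    rw [hQ, hQre, hQim]
    nlinarith
  have h4 := mul_nonneg (sq_nonneg ‖Z.2 - conj Z.1‖) hQ2
  have e1 : (oo Z ^ 3).re = (3 / 2 * ‖Z.1‖ + 1 / 2 * Z.1.re) ^ 3 -
      3 * (3 / 2 * ‖Z.1‖ + 1 / 2 * Z.1.re) * (1 / 2 * Z.1.im) ^ 2 := by
    rw [oo, hnn]
    simp [pow_succ]
    ring
  have e2 : (conj Z.1 ^ 2 * Z.2).re =
      (Z.1.re ^ 2 - Z.1.im ^ 2) * Z.2.re + 2 * Z.1.re * Z.1.im * Z.2.im := by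
    simp [pow_succ]
    ring
  have e3 : (conj Z.1 ^ 3).re = Z.1.re ^ 3 - 3 * Z.1.re * Z.1.im ^ 2 := by
    simp [pow_succ]
    ring
  have e4 : Z.2 - kk Z = 0 := sub_eq_zero.2 h
  unfold y0 y1
  rw [e4, e1, e2, e3, hQre, hQim]
  simp only [mul_zero, Complex.zero_re, zero_mul, add_zero]
  have e5 : Z.1.im ^ 2 = ‖Z.1‖ ^ 2 - Z.1.re ^ 2 := by linarith
  have e6 : 2 * Z.1.re * Z.1.im * (2 * Z.1.im) = 4 * Z.1.re * Z.1.im ^ 2 := by ring
  have e7 : (1 / 2 * Z.1.im) ^ 2 = 1 / 4 * Z.1.im ^ 2 := by ring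
  rw [e6, e7, e5]
  generalize ‖Z.1‖ = r at *
  generalize Z.1.re = x at *
  have h5 : 0 < r ^ 3 := by positivity
  have h6 : 0 ≤ (r - x) * (r + x) := mul_nonneg (by linarith) (by linarith)
  have h7 : 0 ≤ r * ((r - x) * (r + x)) := mul_nonneg hr0 h6
  have h8 : 0 ≤ (r + x) * (r - 2 * x) ^ 2 := mul_nonneg (by linarith) (sq_nonneg _)
  nlinarith

/-- The line of tangency. -/
def j1a (w : C2) : ℂ := 3 / 2 * w.1 + 1 / 2 * conj w.1

theorem j1_cont_a : Continuous j1a := by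
  unfold j1a
  fun_prop

theorem j1a_le (w : C2) : ‖j1a w‖ ≤ 2 * ‖w.1‖ := by
  unfold j1a
  refine le_trans (norm_add_le _ _) ?_
  simp only [norm_mul, norm_div, Complex.norm_ofNat, norm_one, Complex.norm_conj]
  linarith

theorem j1a_ge (w : C2) : ‖w.1‖ ≤ ‖j1a w‖ := by
  have h := norm_sub_le (j1a w) (1 / 2 * conj w.1)
  have e : j1a w - 1 / 2 * conj w.1 = 3 / 2 * w.1 := by
    unfold j1a
    ring
  rw [e] at h
  simp only [norm_mul, norm_div, Complex.norm_ofNat, norm_one, Complex.norm_conj] at h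
  linarith

theorem j1_Lm (w : C2) : w.2 - j1a w = -(3 / 2 * Yc w - 1 / 2 * conj (Yc w)) := by
  simp only [Xc, Yc, j1a, map_add, map_sub, map_mul, map_div₀, conj_conj, map_ofNat, map_one]
  ring

theorem j1_p_le (w : C2) : ‖w.2 - j1a w‖ ≤ 2 * ‖Yc w‖ := by
  rw [j1_Lm, norm_neg]
  refine le_trans (norm_sub_le _ _) ?_
  simp only [norm_mul, norm_div, Complex.norm_ofNat, norm_one, Complex.norm_conj]
  linarith

theorem j1_p_ge (w : C2) : ‖Yc w‖ ≤ ‖w.2 - j1a w‖ := by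
  rw [j1_Lm, norm_neg]
  have h := norm_sub_norm_le (3 / 2 * Yc w) (1 / 2 * conj (Yc w))
  simp only [norm_mul, norm_div, Complex.norm_ofNat, norm_one, Complex.norm_conj] at h
  linarith

theorem j1_oo_kk {w : C2} (h : ‖w.2‖ ^ 2 ≤ 5 * ‖w.1‖ ^ 2) :
    oo (sq2 w) = j1a w * conj w.1 ∧ kk (sq2 w) = j1a w ^ 2 := by
  have hnn := j1_nn_eq (Z := sq2 w) (by simpa [sq2] using h)
  have e : ((nn (sq2 w) : ℝ) : ℂ) = w.1 * conj w.1 := by
    rw [hnn, Complex.mul_conj, Complex.normSq_eq_norm_sq]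
    simp [sq2]
  constructor
  · rw [oo, e]
    simp only [sq2, j1a, map_pow]
    ring
  · rw [kk, e]
    simp only [sq2, j1a, map_pow]
    ring

theorem j1_D1_eq (C : ℝ) {w : C2} (h : ‖w.2‖ ^ 2 ≤ 5 * ‖w.1‖ ^ 2) :
    D1 C w = C * (‖w.2 - j1a w‖ ^ 2 * ‖w.2 + j1a w‖ ^ 2) -
      (conj w.1 ^ 3 * (w.2 - j1a w) ^ 2 * (w.2 + j1a w / 2)).re := by
  obtain ⟨h1, h2⟩ := j1_oo_kk h
  unfold D1 y1 uu
  rw [h1, h2]
  have e1 : (sq2 w).2 - j1a w ^ 2 = (w.2 - j1a w) * (w.2 + j1a w) := by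
    simp only [sq2]
    ring
  have e2 : conj w.1 ^ 3 * (w.2 - j1a w) ^ 2 * (w.2 + j1a w / 2) =
      (w.2 * conj w.1) ^ 3 - (j1a w * conj w.1) ^ 3 - ((3 / 2 : ℝ) : ℂ) *
        (conj (sq2 w).1 * (j1a w * conj w.1) * ((w.2 - j1a w) * (w.2 + j1a w))) := by
    simp only [sq2, map_pow]
    push_cast
    ring
  rw [e1, e2, norm_mul, mul_pow, Complex.sub_re, Complex.sub_re, Complex.re_ofReal_mul]
  ring

/-- Size estimates near the line of tangency. -/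
theorem j1_region {w : C2} (h : ‖w.2 - j1a w‖ ≤ ‖w.1‖ / 5) :
    4 / 5 * ‖w.1‖ ≤ ‖w.2‖ ∧ ‖w.2‖ ≤ 11 / 5 * ‖w.1‖ ∧ 9 / 5 * ‖w.1‖ ≤ ‖w.2 + j1a w‖ ∧
      ‖w.2 + j1a w‖ ≤ 21 / 5 * ‖w.1‖ ∧ ‖w.2‖ ^ 2 ≤ 5 * ‖w.1‖ ^ 2 ∧
      |(conj w.1 ^ 3 * (w.2 - j1a w) ^ 2 * (w.2 + j1a w / 2)).re| ≤
        16 / 5 * ‖w.1‖ ^ 4 * ‖w.2 - j1a w‖ ^ 2 := by
  have h1 := j1a_le w
  have h2 := j1a_ge w
  have h3 := abs_le.1 (abs_norm_sub_norm_le w.2 (j1a w))
  have h4 := norm_add_le w.2 (j1a w)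
  have h5 := norm_sub_le (w.2 + j1a w) (w.2 - j1a w)
  have e : w.2 + j1a w - (w.2 - j1a w) = 2 * j1a w := by ring
  rw [e, norm_mul, Complex.norm_ofNat] at h5
  have h6 : ‖w.2‖ ≤ 11 / 5 * ‖w.1‖ := by linarith [h3.2]
  refine ⟨by linarith [h3.1], h6, by linarith, by linarith, ?_, ?_⟩
  · have h7 := pow_le_pow_left₀ (norm_nonneg _) h6 2
    nlinarith [sq_nonneg ‖w.1‖]
  · refine le_trans (Complex.abs_re_le_norm _) ?_
    rw [norm_mul, norm_mul, norm_pow, norm_pow, Complex.norm_conj]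
    have h7 : ‖w.2 + j1a w / 2‖ ≤ 16 / 5 * ‖w.1‖ := by
      refine le_trans (norm_add_le _ _) ?_
      rw [norm_div, Complex.norm_ofNat]
      linarith
    refine le_trans (mul_le_mul_of_nonneg_left h7 (by positivity)) (le_of_eq ?_)
    ring

theorem j1_D1_ge {C : ℝ} (hC : 3 ≤ C) {w : C2} (h : ‖w.2 - j1a w‖ ≤ ‖w.1‖ / 5)
    (h' : ‖w.1‖ ^ 2 ≤ 2) : ‖w.1‖ ^ 2 * ‖w.2 - j1a w‖ ^ 2 ≤ D1 C w := by
  obtain ⟨_, _, h3, _, h5, h6⟩ := j1_region h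
  rw [j1_D1_eq C h5]
  have h7 := (abs_le.1 h6).2
  have h8 := pow_le_pow_left₀ (by positivity) h3 2
  have hp := sq_nonneg ‖w.2 - j1a w‖
  have h9 := mul_le_mul_of_nonneg_left h8 hp
  have h10 := mul_le_mul_of_nonneg_right hC
    (show 0 ≤ ‖w.2 - j1a w‖ ^ 2 * ‖w.2 + j1a w‖ ^ 2 by positivity)
  have h11 := mul_le_mul_of_nonneg_left h'
    (show 0 ≤ ‖w.1‖ ^ 2 * ‖w.2 - j1a w‖ ^ 2 by positivity)
  have h12 : 0 ≤ ‖w.1‖ ^ 2 * ‖w.2 - j1a w‖ ^ 2 := by positivity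
  nlinarith

theorem j1_D1_le {C : ℝ} (hC : 3 ≤ C) {w : C2} (h : ‖w.2 - j1a w‖ ≤ ‖w.1‖ / 5)
    (h' : ‖w.1‖ ≤ 1) : |D1 C w| ≤ (18 * C + 4) * (4 * ‖Yc w‖ ^ 2) := by
  have hn := norm_nonneg w.1
  have h1 : ‖w.1‖ ^ 2 ≤ 1 := pow_le_one₀ hn h'
  have h2 : ‖w.1‖ ^ 4 ≤ 1 := pow_le_one₀ hn h'
  rw [abs_of_nonneg (le_trans (by positivity) (j1_D1_ge hC h (by linarith)))]
  obtain ⟨_, _, _, h4, h5, h6⟩ := j1_region h
  rw [j1_D1_eq C h5]
  have h7 := (abs_le.1 h6).1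
  have h8 : ‖w.2 + j1a w‖ ^ 2 ≤ 18 := by
    have h9 := pow_le_pow_left₀ (norm_nonneg _) h4 2
    nlinarith
  have hp := sq_nonneg ‖w.2 - j1a w‖
  have h9 := mul_le_mul_of_nonneg_left (mul_le_mul_of_nonneg_left h8 hp)
    (show 0 ≤ C by linarith)
  have h10 := mul_le_mul_of_nonneg_right h2 hp
  have h11 : ‖w.2 - j1a w‖ ^ 2 ≤ 4 * ‖Yc w‖ ^ 2 := by
    have h12 := pow_le_pow_left₀ (norm_nonneg _) (j1_p_le w) 2
    linarith
  refine le_trans ?_ (mul_le_mul_of_nonneg_left h11 (by linarith))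
  nlinarith

theorem j1_w_ne {e : ℝ} {w : C2} (hw : Nsq e (sq2 w) = 1) (h : ‖w.2‖ ^ 2 ≤ 5 * ‖w.1‖ ^ 2) :
    0 < ‖w.1‖ := by
  refine lt_of_le_of_ne (norm_nonneg _) (fun h0 => j1_ne hw ?_)
  rw [← h0] at h
  have h1 : ‖w.2‖ ^ 2 = 0 := le_antisymm (by simpa using h) (sq_nonneg _)
  have h2 : w.2 = 0 := norm_eq_zero.1 (pow_eq_zero_iff two_ne_zero |>.1 h1)
  have h3 : w.1 = 0 := norm_eq_zero.1 h0.symm
  simp [sq2, h2, h3]

theorem j1_w_le {e : ℝ} {w : C2} (hw : Nsq e (sq2 w) = 1) : ‖w.1‖ ≤ 1 := by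
  have h1 : ‖w.1 ^ 2‖ ≤ 1 := j1_fst_le hw
  rw [norm_pow] at h1
  nlinarith [norm_nonneg w.1]

/-- On the opposite line the gap is positive. -/
theorem j1_opp {e : ℝ} {w : C2} (hw : Nsq e (sq2 w) = 1) (h : ‖w.1‖ / 5 ≤ ‖w.2 - j1a w‖)
    (h0 : (sq2 w).2 - kk (sq2 w) = 0) : 0 < D1 0 w := by
  have h1 := j1_kk_le (sq2 w)
  rw [← sub_eq_zero.1 h0] at h1
  simp only [sq2, norm_pow] at h1
  have h2 : ‖w.2‖ ^ 2 ≤ 5 * ‖w.1‖ ^ 2 := by nlinarith [sq_nonneg ‖w.1‖]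
  have hr := j1_w_ne hw h2
  obtain ⟨_, h4⟩ := j1_oo_kk h2
  rw [h4] at h0
  have h5 : (w.2 - j1a w) * (w.2 + j1a w) = 0 := by
    rw [← h0]
    simp only [sq2]
    ring
  have h6 : w.2 = - j1a w := by
    rcases mul_eq_zero.1 h5 with h7 | h7
    · rw [h7, norm_zero] at h
      linarith
    · exact eq_neg_of_add_eq_zero_left h7
  rw [j1_D1_eq 0 h2, h6]
  have e : conj w.1 ^ 3 * (-j1a w - j1a w) ^ 2 * (-j1a w + j1a w / 2) =
      ((-2 : ℝ) : ℂ) * (j1a w * conj w.1) ^ 3 := by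
    push_cast
    ring
  rw [e, Complex.re_ofReal_mul]
  have e2 : ((j1a w * conj w.1) ^ 3).re = (2 * w.1.re ^ 2 + w.1.im ^ 2) ^ 3 -
      3 * (2 * w.1.re ^ 2 + w.1.im ^ 2) * (w.1.re * w.1.im) ^ 2 := by
    simp [j1a, pow_succ]
    ring
  rw [e2]
  have hsq : ‖w.1‖ ^ 2 = w.1.re ^ 2 + w.1.im ^ 2 := by
    rw [Complex.sq_norm, Complex.normSq_apply]
    ring
  have h8 : 0 < w.1.re ^ 2 + w.1.im ^ 2 := by
    rw [← hsq]
    positivity
  rw [mul_pow]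
  have ha := sq_nonneg w.1.re
  have hb := sq_nonneg w.1.im
  generalize w.1.re ^ 2 = a at *
  generalize w.1.im ^ 2 = b at *
  have h9 : 0 < (2 * a + b) ^ 2 - 3 * (a * b) := by nlinarith [mul_nonneg ha hb]
  have h10 := mul_pos (show 0 < 2 * a + b by linarith) h9
  nlinarith

theorem j1_cont_uu : Continuous uu := by
  unfold uu
  fun_prop

theorem j1_cont_D1 (C e : ℝ) : ContinuousOn (D1 C) {w : C2 | Nsq e (sq2 w) = 1} := by
  intro w hw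
  refine ContinuousAt.continuousWithinAt ?_
  unfold D1
  exact ((j1_s C (j1_ne hw)).continuousAt.comp j1_cont_sq2.continuousAt).sub
    j1_cont_uu.continuousAt

theorem j1_cont_X : Continuous Xc := by
  unfold Xc
  fun_prop

theorem j1_cont_Y : Continuous Yc := continuous_fst.sub j1_cont_X

theorem j1_sq2_deriv (w V : C2) : fderiv ℝ sq2 w V = (2 * w.1 * V.1, 2 * w.2 * V.2) := by
  have h1 := ((hasFDerivAt_fst (𝕜 := ℝ) (p := w)).mul (hasFDerivAt_fst (𝕜 := ℝ) (p := w))).prodMk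
    ((hasFDerivAt_snd (𝕜 := ℝ) (p := w)).mul (hasFDerivAt_snd (𝕜 := ℝ) (p := w)))
  have e : sq2 = fun x : C2 => ((Prod.fst * Prod.fst : C2 → ℂ) x,
      (Prod.snd * Prod.snd : C2 → ℂ) x) := by
    funext x
    simp [sq2, sq]
  rw [e, h1.fderiv]
  simp
  constructor <;> ring

/-- The jet of the gap vanishes on the line of tangency. -/
theorem j1_tangent {e C : ℝ} (hU : JetU e) (hC : 3 ≤ C) {w : C2} (hw : Nsq e (sq2 w) = 1)
    (hY : Yc w = 0) : D1 C w = 0 ∧ PD1 C w = 0 := by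
  have hp : ‖w.2 - j1a w‖ = 0 := by
    have h := j1_p_le w
    rw [hY, norm_zero, mul_zero] at h
    exact le_antisymm h (norm_nonneg _)
  have hreg : ‖w.2 - j1a w‖ ≤ ‖w.1‖ / 5 := by
    rw [hp]
    positivity
  have hle := j1_w_le hw
  obtain ⟨h1, _, _, _, h5, _⟩ := j1_region hreg
  have hr := j1_w_ne hw h5
  have hD : D1 C w = 0 := by
    have h := j1_D1_le hC hreg hle
    rw [hY, norm_zero] at h
    exact abs_nonpos_iff.1 (by simpa using h)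
  refine ⟨hD, ?_⟩
  have hmin : IsLocalMin (D1 C) w := by
    have h2 : ∀ᶠ v in 𝓝 w, ‖v.2 - j1a v‖ < ‖v.1‖ / 5 :=
      ((continuous_snd.sub j1_cont_a).norm.continuousAt).eventually_lt (by fun_prop)
        (by show ‖w.2 - j1a w‖ < _; rw [hp]; positivity)
    have h3 : ∀ᶠ v : C2 in 𝓝 w, ‖v.1‖ ^ 2 < 2 :=
      ContinuousAt.eventually_lt (by fun_prop) continuousAt_const (by nlinarith)
    filter_upwards [h2, h3] with v hv2 hv3
    rw [hD]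
    exact le_trans (by positivity) (j1_D1_ge hC hv2.le hv3.le)
  have hf := hmin.fderiv_eq_zero
  have d1 : DifferentiableAt ℝ (y1 C) (sq2 w) := (j1_s C (j1_ne hw)).differentiableAt (by simp)
  have d2 : DifferentiableAt ℝ sq2 w := by
    unfold sq2
    fun_prop
  have d3 : DifferentiableAt ℝ uu w := by
    unfold uu
    exact Complex.reCLM.differentiableAt.comp w ((differentiableAt_snd.mul
      ((j1_cd_conj.differentiable (by simp)).differentiableAt.comp w differentiableAt_fst)).pow 3)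
  have e : D1 C = (y1 C ∘ sq2) - uu := rfl
  rw [e, fderiv_sub (d1.comp w d2) d3, fderiv_comp w d1 d2] at hf
  have hw1 : w.1 ≠ 0 := norm_pos_iff.1 hr
  have hw2 : w.2 ≠ 0 := norm_pos_iff.1 (by linarith)
  refine ContinuousLinearMap.ext (fun V => ?_)
  have h6 := congrArg (fun L : Cov => L (V.1 / (2 * w.1), V.2 / (2 * w.2))) hf
  simp only [sub_apply, ContinuousLinearMap.comp_apply, hU.du,
    j1_sq2_deriv] at h6
  have e2 : (2 * w.1 * (V.1 / (2 * w.1)), 2 * w.2 * (V.2 / (2 * w.2))) = V := by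
    refine Prod.ext ?_ ?_
    · show 2 * w.1 * (V.1 / (2 * w.1)) = V.1
      field_simp
    · show 2 * w.2 * (V.2 / (2 * w.2)) = V.2
      field_simp
  rw [e2] at h6
  exact h6

theorem j1_cont_jn (C e : ℝ) : ContinuousOn (fun w => jn e w (D1 C w) (PD1 C w))
    {w : C2 | Nsq e (sq2 w) = 1} := by
  have h : ∀ c, ContinuousOn (fun w => PD1 C w (Jv e (sq2 w) c)) {w : C2 | Nsq e (sq2 w) = 1} := by
    intro c w hw
    refine ContinuousAt.continuousWithinAt ?_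
    have hJ : Continuous (fun w => Jv e (sq2 w) c) := by
      unfold Jv sq2
      fun_prop
    simp only [PD1, sub_apply]
    refine ContinuousAt.sub ?_ ?_
    · exact (((j1_s C (j1_ne hw)).continuousAt_fderiv (by simp)).comp
        j1_cont_sq2.continuousAt).clm_apply hJ.continuousAt
    · simp only [Pu, cov_apply]
      fun_prop
  unfold jn
  exact ((j1_cont_D1 C e).abs.add (h 1).abs).add (h I).abs

theorem j1_Li_le (z : ℂ) : ‖Li z‖ ≤ ‖z‖ := by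
  unfold Li
  refine le_trans (norm_add_le _ _) ?_
  simp only [norm_mul, norm_div, Complex.norm_ofNat, norm_one, Complex.norm_conj]
  linarith

theorem j1_inv_norm (z : ℂ) : ‖(‖z‖ ^ 2 : ℝ)⁻¹ • z‖ = ‖z‖⁻¹ := by
  rw [norm_smul, norm_inv, norm_pow, norm_norm]
  by_cases h : ‖z‖ = 0
  · simp [h]
  · field_simp

theorem j1_PR_le {e : ℝ} (he : 0 < e) (he' : e ≤ 1 / 10) {w : C2} (hw : Nsq e (sq2 w) = 1)
    (h : ‖w.2 - j1a w‖ ≤ ‖w.1‖ / 5) (hY : 0 < ‖Yc w‖) (hXY : ‖Yc w‖ ≤ ‖Xc w‖) {c : ℂ}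
    (hc : ‖c‖ = 1) : |PR w (Jv e (sq2 w) c)| ≤ 4 * ‖Yc w‖⁻¹ := by
  obtain ⟨h1, h2, _, _, h5, _⟩ := j1_region h
  have hr := j1_w_ne hw h5
  have hle := j1_w_le hw
  have hw2 : 0 < ‖w.2‖ := by linarith
  have hi : ‖Xc w‖⁻¹ ≤ ‖Yc w‖⁻¹ := inv_anti₀ hY hXY
  have hi0 : 0 < ‖Yc w‖⁻¹ := inv_pos.2 hY
  obtain ⟨L, hL⟩ : ∃ L, L = Li ((‖Xc w‖ ^ 2 : ℝ)⁻¹ • Xc w + (‖Yc w‖ ^ 2 : ℝ)⁻¹ • Yc w) :=
    ⟨_, rfl⟩
  obtain ⟨y, hy⟩ : ∃ y, y = (‖Yc w‖ ^ 2 : ℝ)⁻¹ • Yc w := ⟨_, rfl⟩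
  have hL' : ‖L‖ ≤ 2 * ‖Yc w‖⁻¹ := by
    rw [hL]
    refine le_trans (j1_Li_le _) (le_trans (norm_add_le _ _) ?_)
    rw [j1_inv_norm, j1_inv_norm]
    linarith
  have hy' : ‖y‖ = ‖Yc w‖⁻¹ := by rw [hy, j1_inv_norm]
  rw [PR, cov_apply, ← hL, ← hy]
  refine le_trans (Complex.abs_re_le_norm _) (le_trans (norm_add_le _ _) ?_)
  have h6 : ‖L + conj y‖ ≤ 3 * ‖Yc w‖⁻¹ := by
    refine le_trans (norm_add_le _ _) ?_
    rw [Complex.norm_conj, hy']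
    linarith
  simp only [Jv, sq2, norm_mul, norm_div, norm_neg, Complex.norm_conj, norm_pow, hc, one_mul,
    Complex.norm_real, Real.norm_eq_abs, abs_of_pos he]
  have h7 : e ^ 2 * ‖w.2‖ ^ 2 / ‖w.1‖ ≤ 1 / 3 := by
    rw [div_le_iff₀ hr]
    have h8 : e ^ 2 ≤ 1 / 100 := by nlinarith
    have h9 := mul_le_mul h8 h5 (sq_nonneg _) (by norm_num)
    nlinarith
  have h8 : ‖w.1‖ ^ 2 / ‖w.2‖ ≤ 3 / 2 := by
    rw [div_le_iff₀ hw2]
    nlinarith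
  have h9 := mul_le_mul h6 h7 (by positivity) (by positivity)
  have h10 := mul_le_mul hL' h8 (by positivity) (by positivity)
  have e1 : ‖L + conj y‖ / ‖w.1‖ * (e ^ 2 * ‖w.2‖ ^ 2) =
      ‖L + conj y‖ * (e ^ 2 * ‖w.2‖ ^ 2 / ‖w.1‖) := by ring
  have e2 : ‖L‖ / ‖w.2‖ * ‖w.1‖ ^ 2 = ‖L‖ * (‖w.1‖ ^ 2 / ‖w.2‖) := by ring
  rw [e1, e2]
  linarith

theorem jet1 {e : ℝ} (he : 0 < e) (he' : e ≤ 1 / 10) : ∃ C, Jet1 e C := by
  have hU := jetU he he'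
  have cy0 : Continuous y0 := by
    unfold y0
    fun_prop
  obtain ⟨C1, hC1⟩ := j1_penalty (j1_compactZ he) (f := fun Z => y1 0 Z - y0 Z)
    (g := fun Z => ‖Z.2 - kk Z‖ ^ 2)
    (fun Z hZ => ((j1_s 0 (j1_ne hZ)).continuousAt.sub cy0.continuousAt).continuousWithinAt)
    (fun Z hZ => ((continuousAt_snd.sub (j1_s_kk (j1_ne hZ)).continuousAt).norm.pow
      2).continuousWithinAt)
    (fun Z _ => sq_nonneg _)
    (fun Z hZ h => sub_pos.2 (j1_core (j1_ne hZ)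
      (sub_eq_zero.1 (norm_eq_zero.1 (pow_eq_zero_iff two_ne_zero |>.1 h)))))
  have hK2 : IsCompact ({w : C2 | Nsq e (sq2 w) = 1} ∩ {w | ‖w.1‖ / 5 ≤ ‖w.2 - j1a w‖}) :=
    (j1_compactW he).inter_right (isClosed_le (by fun_prop) (continuous_snd.sub j1_cont_a).norm)
  obtain ⟨C2', hC2⟩ := j1_penalty hK2 (f := D1 0)
    (g := fun w => ‖(sq2 w).2 - kk (sq2 w)‖ ^ 2)
    ((j1_cont_D1 0 e).mono Set.inter_subset_left)
    (fun w hw => (((continuousAt_snd.sub (j1_s_kk (j1_ne hw.1)).continuousAt).norm.pow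
      2).comp j1_cont_sq2.continuousAt).continuousWithinAt)
    (fun w _ => sq_nonneg _)
    (fun w hw h => j1_opp hw.1 hw.2 (norm_eq_zero.1 (pow_eq_zero_iff two_ne_zero |>.1 h)))
  obtain ⟨C, hCa, hCb, hC⟩ : ∃ C, C1 ≤ C ∧ C2' ≤ C ∧ 3 ≤ C :=
    ⟨max C1 (max C2' 3), le_max_left _ _, le_trans (le_max_left _ _) (le_max_right _ _),
      le_trans (le_max_right _ _) (le_max_right _ _)⟩
  have hpos : ∀ w, Nsq e (sq2 w) = 1 → Yc w ≠ 0 → 0 < D1 C w := by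
    intro w hw hY
    rcases le_total (‖w.2 - j1a w‖) (‖w.1‖ / 5) with h | h
    · have hle := j1_w_le hw
      have hr := j1_w_ne hw (j1_region h).2.2.2.2.1
      have hp : 0 < ‖w.2 - j1a w‖ := lt_of_lt_of_le (norm_pos_iff.2 hY) (j1_p_ge w)
      exact lt_of_lt_of_le (by positivity) (j1_D1_ge hC h (by nlinarith))
    · have h1 := hC2 C hCb w ⟨hw, h⟩
      unfold D1 at h1 ⊢
      rw [j1_y1_split]
      linarith
  refine ⟨C, fun Z hZ => j1_s C hZ, fun Z hZ => ?_, hpos, fun ρ hρ => ?_, fun η hη => ?_⟩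
  · have h1 := hC1 C hCa Z hZ
    rw [j1_y1_split]
    linarith
  · have hK : IsCompact ({w : C2 | Nsq e (sq2 w) = 1} ∩ {w | ρ * ‖Xc w‖ ^ 2 ≤ ‖Yc w‖ ^ 2}) :=
      (j1_compactW he).inter_right (isClosed_le (continuous_const.mul (j1_cont_X.norm.pow 2))
        (j1_cont_Y.norm.pow 2))
    obtain ⟨m, hm, hm'⟩ := hK.exists_forall_le' ((j1_cont_D1 C e).mono Set.inter_subset_left)
      (a := 0) (fun w hw => hpos w hw.1 (fun hY => j1_ne hw.1 (by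
        have h1 : ρ * ‖Xc w‖ ^ 2 ≤ ‖Yc w‖ ^ 2 := hw.2
        rw [hY, norm_zero] at h1
        have h2 : ‖Xc w‖ ^ 2 = 0 := le_antisymm (by nlinarith) (sq_nonneg _)
        have h3 : Xc w = 0 := norm_eq_zero.1 (pow_eq_zero_iff two_ne_zero |>.1 h2)
        rw [← Lin_XY w, h3, hY]
        simp [Lin, sq2])))
    exact ⟨m, hm, fun w hw h => hm' w ⟨hw, h⟩⟩
  · have hz : ∀ w : C2, ‖Yc w‖ ^ 2 = 0 → Yc w = 0 :=
      fun w h => norm_eq_zero.1 (pow_eq_zero_iff two_ne_zero |>.1 h)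
    obtain ⟨ρ1, hρ1, h1⟩ := j1_small (j1_compactW he) (j1_cont_jn C e)
      (j1_cont_X.norm.pow 2).continuousOn (j1_cont_Y.norm.pow 2).continuousOn
      (fun w _ => sq_nonneg _) (fun w hw h => by
        obtain ⟨h2, h3⟩ := j1_tangent hU hC hw (hz w h)
        simp [jn, h2, h3]) hη
    obtain ⟨ρ2, hρ2, h2⟩ := j1_small (j1_compactW he)
      (φ := fun w => 32 * (18 * C + 4) * ‖Yc w‖)
      (continuous_const.mul j1_cont_Y.norm).continuousOn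
      (j1_cont_X.norm.pow 2).continuousOn (j1_cont_Y.norm.pow 2).continuousOn
      (fun w _ => sq_nonneg _) (fun w _ h => by simp [hz w h]) hη
    refine ⟨min ρ1 (min ρ2 (1 / 121)), lt_min hρ1 (lt_min hρ2 (by norm_num)), fun w hw hn => ?_⟩
    have hn' : ∀ ρ, min ρ1 (min ρ2 (1 / 121)) ≤ ρ → ‖Yc w‖ ^ 2 ≤ ρ * ‖Xc w‖ ^ 2 :=
      fun ρ hρ => le_trans hn (mul_le_mul_of_nonneg_right hρ (sq_nonneg _))
    refine ⟨h1 w hw (hn' _ (min_le_left _ _)), ?_⟩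
    refine le_trans ?_ (h2 w hw (hn' _ (le_trans (min_le_right _ _) (min_le_left _ _))))
    by_cases hY : Yc w = 0
    · simp [jn, (j1_tangent hU hC hw hY).1, hY]
    have hY' : 0 < ‖Yc w‖ := norm_pos_iff.2 hY
    have h3 := hn' _ (le_trans (min_le_right _ _) (min_le_right _ _))
    have h4 : 11 * ‖Yc w‖ ≤ ‖Xc w‖ := by
      refine (pow_le_pow_iff_left₀ (by positivity) (norm_nonneg _) two_ne_zero).1 ?_
      linarith
    have h5 : ‖Xc w‖ ≤ ‖w.1‖ + ‖Yc w‖ := by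
      have e1 : Xc w = w.1 - Yc w := by
        unfold Yc
        ring
      rw [e1]
      exact norm_sub_le _ _
    have hreg : ‖w.2 - j1a w‖ ≤ ‖w.1‖ / 5 := by linarith [j1_p_le w]
    have h6 := j1_D1_le hC hreg (j1_w_le hw)
    have h7 := j1_PR_le he he' hw hreg hY' (by linarith) (c := 1) norm_one
    have h8 := j1_PR_le he he' hw hreg hY' (by linarith) (c := I) Complex.norm_I
    have h9 := mul_le_mul h6 h7 (abs_nonneg _) (by positivity)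
    have h10 := mul_le_mul h6 h8 (abs_nonneg _) (by positivity)
    have e2 : (18 * C + 4) * (4 * ‖Yc w‖ ^ 2) * (4 * ‖Yc w‖⁻¹) = 16 * (18 * C + 4) * ‖Yc w‖ := by
      field_simp
      ring
    rw [e2] at h9 h10
    simp only [jn, smul_apply, smul_eq_mul, abs_mul, abs_zero, zero_add]
    linarith

end Pool.Agent.Lib.MP_b7c8b0_gt
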