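import Pool.Agent.Lib.MP_b7c8b0_gt.ADefs

open scoped ContDiff ComplexConjugate Topology
open Complex Filter

noncomputable section

namespace Pool.Agent.Lib.MP_b7c8b0_gt

theorem Xc_Lin (W : C2) : Xc (Lin W) = W.1 := by
  simp only [Xc, Lin, map_add, map_sub, map_mul, map_div₀, conj_conj, map_ofNat, map_one]; ring

theorem Yc_Lin (W : C2) : Yc (Lin W) = W.2 := by
  rw [Yc, Xc_Lin]; simp [Lin]

theorem Lin_XY (w : C2) : Lin (Xc w, Yc w) = w := by
  ext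
  · simp [Lin, Yc]
  · simp only [Xc, Yc, Lin, map_add, map_sub, map_mul, map_div₀, conj_conj, map_ofNat, map_one]
    ring

namespace JU

theorem hc1 (w : C2) : HasFDerivAt (fun z : C2 => conj z.1)
    ((conjCLE : ℂ →L[ℝ] ℂ).comp (ContinuousLinearMap.fst ℝ ℂ ℂ)) w :=
  ((conjCLE : ℂ →L[ℝ] ℂ).comp (ContinuousLinearMap.fst ℝ ℂ ℂ)).hasFDerivAt

theorem hc2 (w : C2) : HasFDerivAt (fun z : C2 => conj z.2)
    ((conjCLE : ℂ →L[ℝ] ℂ).comp (ContinuousLinearMap.snd ℝ ℂ ℂ)) w :=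
  ((conjCLE : ℂ →L[ℝ] ℂ).comp (ContinuousLinearMap.snd ℝ ℂ ℂ)).hasFDerivAt

theorem h1 (w : C2) : HasFDerivAt (fun z : C2 => z.1) (ContinuousLinearMap.fst ℝ ℂ ℂ) w :=
  hasFDerivAt_fst

theorem h2 (w : C2) : HasFDerivAt (fun z : C2 => z.2) (ContinuousLinearMap.snd ℝ ℂ ℂ) w :=
  hasFDerivAt_snd

theorem fderiv_sq2 (w V : C2) : fderiv ℝ sq2 w V = (2 * w.1 * V.1, 2 * w.2 * V.2) := by
  have h := (((h1 w).pow 2).prodMk ((h2 w).pow 2)).fderiv
  have e : sq2 = fun z : C2 => (z.1 ^ 2, z.2 ^ 2) := rfl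
  rw [e, h]
  simp

theorem fderiv_uu (w V : C2) : fderiv ℝ uu w V =
    (3 * (w.2 * conj w.1) ^ 2 * (w.2 * conj V.1 + conj w.1 * V.2)).re := by
  have h := (reCLM.hasFDerivAt.comp w (((h2 w).mul (hc1 w)).pow 3)).fderiv
  have e : uu = reCLM ∘ fun z : C2 => (z.2 * conj z.1) ^ 3 := rfl
  rw [e]
  refine (congrArg (fun L : C2 →L[ℝ] ℝ => L V) h).trans ?_
  simp only [ContinuousLinearMap.comp_apply, reCLM_apply, smul_apply,
    add_apply, ContinuousLinearMap.coe_fst', ContinuousLinearMap.coe_snd',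
    ContinuousLinearEquiv.coe_coe, conjCLE_apply, smul_eq_mul, Pi.mul_apply, nsmul_eq_mul]
  norm_num

theorem du (w V : C2) : fderiv ℝ uu w V = Pu w (fderiv ℝ sq2 w V) := by
  rw [fderiv_uu, fderiv_sq2, Pu, cov_apply]
  have e1 : 3 * (w.2 * conj w.1) ^ 2 * (w.2 * conj V.1 + conj w.1 * V.2) =
      conj (3 / 2 * conj w.2 ^ 3 * w.1 * (2 * w.1 * V.1)) +
        3 / 2 * w.2 * conj w.1 ^ 3 * (2 * w.2 * V.2) := by
    simp only [map_mul, map_div₀, map_pow, conj_conj, map_ofNat]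
    ring
  rw [e1, add_re, add_re, conj_re]

theorem Li_adj (A U : ℂ) : (conj A * Li U).re = (conj (Li A) * U).re := by
  simp only [Li, mul_re, add_re, add_im, mul_im, conj_re, conj_im, div_ofNat_re, div_ofNat_im]
  norm_num
  ring

theorem Xc_eq (V : C2) : Xc V = Li (V.2 - conj V.1) := rfl

theorem dR (w V : C2) (a : w.1 ≠ 0) (b : w.2 ≠ 0) :
    PR w (fderiv ℝ sq2 w V) = dLog (Xc w, Yc w) (Xc V, Yc V) := by
  rw [fderiv_sq2, PR, cov_apply, dLog]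
  set X := Xc w
  set Y := Yc w
  set A : ℂ := (‖X‖ ^ 2 : ℝ)⁻¹ • X + (‖Y‖ ^ 2 : ℝ)⁻¹ • Y with hA
  set B : ℂ := (‖Y‖ ^ 2 : ℝ)⁻¹ • Y with hB
  have e1 : -(Li A + conj B) / w.1 * (2 * w.1 * V.1) + conj (Li A) / w.2 * (2 * w.2 * V.2) =
      2 * (conj (Li A) * V.2) - 2 * (Li A * V.1) - 2 * (conj B * V.1) := by
    field_simp
    ring
  have e2 : (conj (Li A) * (V.2 - conj V.1)).re = (conj (Li A) * V.2).re - (Li A * V.1).re := by
    rw [mul_sub, sub_re, ← map_mul, conj_re]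
  have e3 := Li_adj A (V.2 - conj V.1)
  rw [← Xc_eq, e2] at e3
  have e4 : (conj A * Xc V).re = (conj X * Xc V).re / ‖X‖ ^ 2 + (conj Y * Xc V).re / ‖Y‖ ^ 2 := by
    rw [hA, hB]
    simp only [real_smul, map_add, map_mul, conj_ofReal, add_mul, add_re, mul_assoc, re_ofReal_mul]
    ring
  have e5 : (conj B * V.1).re = (conj Y * V.1).re / ‖Y‖ ^ 2 := by
    rw [hB]
    simp only [real_smul, map_mul, conj_ofReal, mul_assoc, re_ofReal_mul]
    ring
  have e6 : (conj Y * Yc V).re = (conj Y * V.1).re - (conj Y * Xc V).re := by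
    rw [Yc, mul_sub, sub_re]
  simp only
  rw [e1, e6]
  simp only [sub_re, two_mul, add_re]
  rw [e5]
  have e7 : (conj (Li A) * V.2).re = (Li A * V.1).re +
    ((conj X * Xc V).re / ‖X‖ ^ 2 + (conj Y * Xc V).re / ‖Y‖ ^ 2) := by linarith
  rw [e7]
  ring

/-- A covector evaluated on the contact line. -/
theorem cov_Jv (e : ℝ) (a b c : ℂ) (Z : C2) :
    cov a b (Jv e Z c) = (c * (b * conj Z.1 - a * (e : ℂ) ^ 2 * conj Z.2)).re := by
  rw [cov_apply, Jv]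
  congr 1
  ring

theorem eq_zero_of_re {z : ℂ} (p : (1 * z).re = 0) (q : (I * z).re = 0) : z = 0 := by
  apply Complex.ext
  · simpa using p
  · simpa using q

theorem tau0 {e : ℝ} (he : 0 < e) (w : C2) (h : jn e w (uu w) (Pu w) = 0) :
    w.1 = 0 ∨ w.2 = 0 := by
  unfold jn at h
  have p0 := abs_nonneg (uu w)
  have p1 := abs_nonneg (Pu w (Jv e (sq2 w) 1))
  have p2 := abs_nonneg (Pu w (Jv e (sq2 w) I))
  have q0 : uu w = 0 := abs_eq_zero.mp (by linarith)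
  have q1 : Pu w (Jv e (sq2 w) 1) = 0 := abs_eq_zero.mp (by linarith)
  have q2 : Pu w (Jv e (sq2 w) I) = 0 := abs_eq_zero.mp (by linarith)
  rw [Pu, cov_Jv] at q1 q2
  have q := eq_zero_of_re q1 q2
  simp only [sq2, map_pow] at q
  set p : ℂ := (w.2 * conj w.1) ^ 3 with hp
  have r : p ^ 2 = ((e ^ 2 * normSq w.2 ^ 5 * normSq w.1 : ℝ) : ℂ) := by
    push_cast
    rw [normSq_eq_conj_mul_self, normSq_eq_conj_mul_self, hp]
    linear_combination (2 / 3 * w.2 ^ 5 * conj w.1) * q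
  have r1 := congrArg Complex.re r
  rw [ofReal_re, pow_two, mul_re] at r1
  have r2 : p.re = 0 := q0
  rw [r2] at r1
  by_contra hn
  push Not at hn
  have s1 : 0 < normSq w.1 := normSq_pos.mpr hn.1
  have s2 : 0 < normSq w.2 := normSq_pos.mpr hn.2
  have s3 : 0 < e ^ 2 * normSq w.2 ^ 5 * normSq w.1 := by positivity
  nlinarith [mul_self_nonneg p.im]

theorem diff_Pu : Differentiable ℝ Pu := by
  have h : ContDiff ℝ 1 Pu := by
    rw [contDiff_clm_apply_iff]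
    intro y
    simp only [Pu, cov_apply]
    have c1 : ContDiff ℝ 1 (fun z : C2 => conj z.1) := conjCLE.contDiff.comp contDiff_fst
    have c2 : ContDiff ℝ 1 (fun z : C2 => conj z.2) := conjCLE.contDiff.comp contDiff_snd
    refine reCLM.contDiff.comp (f := fun z : C2 =>
      3 / 2 * conj z.2 ^ 3 * z.1 * y.1 + 3 / 2 * z.2 * conj z.1 ^ 3 * y.2) ?_
    fun_prop
  exact h.differentiable (by norm_num)

theorem fderiv_Pu (w V y : C2) : fderiv ℝ Pu w V y =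
    cov (3 / 2 * (conj w.2 ^ 3 * V.1 + 3 * conj w.2 ^ 2 * conj V.2 * w.1))
      (3 / 2 * (3 * w.2 * conj w.1 ^ 2 * conj V.1 + conj w.1 ^ 3 * V.2)) y := by
  have a : fderiv ℝ Pu w V y = fderiv ℝ (fun z => Pu z y) w V := by
    rw [fderiv_clm_apply (diff_Pu w) (differentiableAt_const y)]
    simp
  have h := (reCLM.hasFDerivAt.comp w
    ((((((hc2 w).pow 3).mul (h1 w)).const_mul (3 / 2 : ℂ)).mul_const y.1).add
      ((((h2 w).mul ((hc1 w).pow 3)).const_mul (3 / 2 : ℂ)).mul_const y.2))).fderiv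
  have e : (fun z => Pu z y) = reCLM ∘ ((fun z : C2 => 3 / 2 * (conj z.2 ^ 3 * z.1) * y.1) +
      fun z : C2 => 3 / 2 * (z.2 * conj z.1 ^ 3) * y.2) := by
    funext z
    simp only [Pu, cov_apply, Function.comp, reCLM_apply, Pi.add_apply]
    congr 1
    ring
  rw [a, e]
  refine (congrArg (fun L : C2 →L[ℝ] ℝ => L V) h).trans ?_
  simp only [ContinuousLinearMap.comp_apply, reCLM_apply, smul_apply,
    add_apply, ContinuousLinearMap.coe_fst', ContinuousLinearMap.coe_snd',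
    ContinuousLinearEquiv.coe_coe, conjCLE_apply, smul_eq_mul, nsmul_eq_mul,
    cov_apply]
  congr 1
  norm_num
  ring

theorem branch {e : ℝ} (he : 0 < e) (w V : C2) (hw : w ≠ 0) (h : fderiv ℝ sq2 w V = 0)
    (hc : ∀ c, fderiv ℝ Pu w V (Jv e (sq2 w) c) = 0) : V = 0 := by
  rw [fderiv_sq2] at h
  have a1 : w.1 * V.1 = 0 := by
    have := congrArg Prod.fst h
    simp only [Prod.fst_zero] at this
    linear_combination this / 2
  have a2 : w.2 * V.2 = 0 := by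
    have := congrArg Prod.snd h
    simp only [Prod.snd_zero] at this
    linear_combination this / 2
  have q1 := hc 1
  have q2 := hc I
  rw [fderiv_Pu, cov_Jv] at q1 q2
  have q := eq_zero_of_re q1 q2
  simp only [sq2, map_pow] at q
  have e0 : (e : ℂ) ≠ 0 := ofReal_ne_zero.mpr he.ne'
  by_cases b1 : w.1 = 0
  · have b2 : w.2 ≠ 0 := fun b2 => hw (Prod.ext b1 b2)
    have v2 : V.2 = 0 := (mul_eq_zero.mp a2).resolve_left b2
    have c2 : conj w.2 ≠ 0 := (map_ne_zero _).mpr b2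
    rw [b1, v2] at q
    have r : (e : ℂ) ^ 2 * conj w.2 ^ 5 * V.1 = 0 := by
      simp only [map_zero] at q
      linear_combination (-2 / 3) * q
    have v1 : V.1 = 0 := (mul_eq_zero.mp r).resolve_left
      (mul_ne_zero (pow_ne_zero _ e0) (pow_ne_zero _ c2))
    exact Prod.ext v1 v2
  · have v1 : V.1 = 0 := (mul_eq_zero.mp a1).resolve_left b1
    by_cases b2 : w.2 = 0
    · have c1 : conj w.1 ≠ 0 := (map_ne_zero _).mpr b1
      rw [b2, v1] at q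
      have r : conj w.1 ^ 5 * V.2 = 0 := by
        simp only [map_zero] at q
        linear_combination (2 / 3) * q
      exact Prod.ext v1 ((mul_eq_zero.mp r).resolve_left (pow_ne_zero _ c1))
    · exact Prod.ext v1 ((mul_eq_zero.mp a2).resolve_left b2)

theorem w1_eq (w : C2) : w.1 = Xc w + Yc w := by
  rw [Yc]; ring

theorem w2_eq (w : C2) : w.2 = (3 / 2 * Xc w + 1 / 2 * conj (Xc w)) + conj (Yc w) :=
  (congrArg Prod.snd (Lin_XY w)).symm

theorem om1_le (X : ℂ) : ‖3 / 2 * X + 1 / 2 * conj X‖ ≤ 2 * ‖X‖ := by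
  have h := norm_add_le (3 / 2 * X) (1 / 2 * conj X)
  rw [norm_mul, norm_mul, norm_conj] at h
  norm_num at h ⊢
  linarith

theorem le_om1 (X : ℂ) : ‖X‖ ≤ ‖3 / 2 * X + 1 / 2 * conj X‖ := by
  have h := norm_sub_le (3 / 2 * X + 1 / 2 * conj X) (1 / 2 * conj X)
  rw [add_sub_cancel_right, norm_mul, norm_mul, norm_conj] at h
  norm_num at h ⊢
  linarith

theorem le_Li (X : ℂ) : ‖X‖ ≤ 2 * ‖Li X‖ := by
  have h := norm_sub_le (Li X) (1 / 4 * conj X)
  rw [Li, add_sub_cancel_right, norm_mul, norm_mul, norm_conj, ← Li] at h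
  norm_num at h ⊢
  linarith

/-- Norm bounds for the two coordinates. -/
theorem bounds (w : C2) :
    ‖Xc w‖ - ‖Yc w‖ ≤ ‖w.1‖ ∧ ‖Yc w‖ - ‖Xc w‖ ≤ ‖w.1‖ ∧ ‖Xc w‖ - ‖Yc w‖ ≤ ‖w.2‖ ∧
      ‖Yc w‖ - 2 * ‖Xc w‖ ≤ ‖w.2‖ ∧ ‖w.2‖ ≤ 2 * ‖Xc w‖ + ‖Yc w‖ := by
  have a1 := norm_sub_le w.1 (Yc w)
  have a2 := norm_sub_le w.1 (Xc w)
  have a3 := norm_sub_le w.2 (conj (Yc w))
  have a4 := norm_sub_le w.2 (3 / 2 * Xc w + 1 / 2 * conj (Xc w))
  have a5 := norm_add_le (3 / 2 * Xc w + 1 / 2 * conj (Xc w)) (conj (Yc w))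
  have e1 : w.1 - Yc w = Xc w := by rw [Yc]; ring
  have e2 : w.1 - Xc w = Yc w := rfl
  have e3 : w.2 - conj (Yc w) = 3 / 2 * Xc w + 1 / 2 * conj (Xc w) := by
    rw [sub_eq_iff_eq_add]; exact w2_eq w
  have e4 : w.2 - (3 / 2 * Xc w + 1 / 2 * conj (Xc w)) = conj (Yc w) := by
    rw [sub_eq_iff_eq_add']; exact w2_eq w
  rw [e1] at a1
  rw [e2] at a2
  rw [e3, norm_conj] at a3
  rw [e4, norm_conj] at a4
  rw [← w2_eq, norm_conj] at a5
  have b1 := om1_le (Xc w)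
  have b2 := le_om1 (Xc w)
  refine ⟨?_, ?_, ?_, ?_, ?_⟩ <;> linarith

theorem le_of_sq {a b r : ℝ} (hb : 0 ≤ b) (hr : 0 ≤ r) (h : a ^ 2 ≤ r ^ 2 * b ^ 2) :
    a ≤ r * b := by
  rw [← mul_pow] at h
  exact le_trans (le_abs_self a) (abs_le_of_sq_le_sq' h (mul_nonneg hr hb) |> abs_le.mpr)

theorem ne' (w : C2) (hw : w ≠ 0) (h : near1 (1 / 16) w ∨ near2 (1 / 16) w) :
    w.1 ≠ 0 ∧ w.2 ≠ 0 := by
  obtain ⟨b1, b2, b3, b4, b5⟩ := bounds w
  have x0 := norm_nonneg (Xc w)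
  have y0 := norm_nonneg (Yc w)
  have pos : 0 < ‖Xc w‖ + ‖Yc w‖ := by
    by_contra hn
    have x1 : Xc w = 0 := norm_eq_zero.mp (by linarith)
    have y1 : Yc w = 0 := norm_eq_zero.mp (by linarith)
    apply hw
    rw [← Lin_XY w, x1, y1]
    simp [Lin]
  rw [← norm_pos_iff, ← norm_pos_iff]
  rcases h with h | h
  · have := le_of_sq (r := 1 / 4) x0 (by norm_num) (le_trans h (by norm_num))
    constructor <;> linarith
  · have := le_of_sq (r := 1 / 4) y0 (by norm_num) (le_trans h (by norm_num))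
    constructor <;> linarith

theorem cont_Xc : Continuous Xc := by
  unfold Xc
  fun_prop

theorem cont_Yc : Continuous Yc := by
  have := cont_Xc
  unfold Yc
  fun_prop

theorem mtau {e : ℝ} (he : 0 < e) : ∃ m, 0 < m ∧ ∀ w, Nsq e (sq2 w) = 1 →
    near1 (1 / 16) w ∨ near2 (1 / 16) w → m ≤ jn e w (uu w) (Pu w) := by
  set K : Set C2 := {w | Nsq e (sq2 w) = 1} ∩
    ({w | near1 (1 / 16) w} ∪ {w | near2 (1 / 16) w}) with hK
  have cX := cont_Xc
  have cY := cont_Yc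
  have cl : IsClosed K := by
    refine IsClosed.inter (isClosed_eq ?_ continuous_const) (IsClosed.union ?_ ?_)
    · unfold Nsq sq2
      fun_prop
    · exact isClosed_le (by fun_prop) (by fun_prop)
    · exact isClosed_le (by fun_prop) (by fun_prop)
  have bd : Bornology.IsBounded K := by
    refine (Metric.isBounded_closedBall (x := (0 : C2)) (r := 1 + 1 / e)).subset ?_
    intro w hw
    have h : ‖w.1 ^ 2‖ ^ 2 + e ^ 2 * ‖w.2 ^ 2‖ ^ 2 = 1 := hw.1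
    rw [norm_pow, norm_pow] at h
    have i0 : 0 < 1 / e := by positivity
    have p1 := norm_nonneg w.1
    have p2 := norm_nonneg w.2
    have s1 : (‖w.1‖ ^ 2) ^ 2 ≤ 1 ^ 2 * 1 ^ 2 := by nlinarith [sq_nonneg (e * ‖w.2‖ ^ 2)]
    have s2 : (e * ‖w.2‖ ^ 2) ^ 2 ≤ 1 ^ 2 * 1 ^ 2 := by nlinarith [sq_nonneg (‖w.1‖ ^ 2)]
    have t1 := le_of_sq zero_le_one zero_le_one s1
    have t2 := le_of_sq zero_le_one zero_le_one s2
    have t3 : ‖w.2‖ ^ 2 ≤ 1 / e := by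
      rw [le_div_iff₀ he]
      linarith
    rw [mem_closedBall_zero_iff, Prod.norm_def, max_le_iff]
    constructor <;> nlinarith [sq_nonneg (‖w.1‖ - 1), sq_nonneg (‖w.2‖ - 1)]
  have cp : IsCompact K := Metric.isCompact_of_isClosed_isBounded cl bd
  have cf : Continuous fun w => jn e w (uu w) (Pu w) := by
    simp only [jn, uu, Pu, cov_apply, Jv, sq2]
    fun_prop
  have ps : ∀ w ∈ K, 0 < jn e w (uu w) (Pu w) := by
    intro w hw
    have w0 : w ≠ 0 := by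
      rintro rfl
      have h : Nsq e (sq2 0) = 1 := hw.1
      simp [Nsq, sq2] at h
    have n := ne' w w0 hw.2
    have nn : 0 ≤ jn e w (uu w) (Pu w) := by
      unfold jn
      positivity
    refine lt_of_le_of_ne nn fun h => ?_
    rcases tau0 he w h.symm with h | h
    · exact n.1 h
    · exact n.2 h
  obtain ⟨m, m0, hm⟩ := cp.exists_forall_le' cf.continuousOn ps
  exact ⟨m, m0, fun w a b => hm w ⟨a, b⟩⟩

theorem norm_inv_smul {X : ℂ} (h : X ≠ 0) : ‖(‖X‖ ^ 2 : ℝ)⁻¹ • X‖ * ‖X‖ = 1 := by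
  have p : 0 < ‖X‖ := norm_pos_iff.mpr h
  rw [norm_smul, Real.norm_eq_abs, abs_of_pos (by positivity)]
  field_simp

theorem fold {e : ℝ} (he : 0 < e) (he' : e ≤ 1 / 10) (w : C2)
    (h : near1 (1 / 100) w ∨ near2 (1 / 100) w) (hX : Xc w ≠ 0) (hY : Yc w ≠ 0) :
    ∃ c, PR w (Jv e (sq2 w) c) ≠ 0 := by
  by_contra hn
  push Not at hn
  have q1 := hn 1
  have q2 := hn I
  rw [PR, cov_Jv] at q1 q2
  have q := eq_zero_of_re q1 q2
  obtain ⟨b1, b2, b3, b4, b5⟩ := bounds w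
  have x0 : 0 < ‖Xc w‖ := norm_pos_iff.mpr hX
  have y0 : 0 < ‖Yc w‖ := norm_pos_iff.mpr hY
  have nX := norm_inv_smul hX
  have nY := norm_inv_smul hY
  set S : ℂ := (‖Xc w‖ ^ 2 : ℝ)⁻¹ • Xc w with hS
  set B : ℂ := (‖Yc w‖ ^ 2 : ℝ)⁻¹ • Yc w with hB
  have l1 := le_Li (S + B)
  have l2 : ‖B‖ ≤ ‖S + B‖ + ‖S‖ := by
    have := norm_sub_le (S + B) S
    rwa [add_sub_cancel_left] at this
  have l3 : ‖S‖ ≤ ‖S + B‖ + ‖B‖ := by
    have := norm_sub_le (S + B) B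
    rwa [add_sub_cancel_right] at this
  have s0 := norm_nonneg S
  have t0 := norm_nonneg B
  have key : 0 < ‖w.1‖ ∧ 0 < ‖w.2‖ ∧ ‖w.2‖ ≤ 7 / 3 * ‖w.1‖ ∧ ‖B‖ ≤ 3 * ‖Li (S + B)‖ := by
    rcases h with h | h
    · have r := le_of_sq (r := 1 / 10) x0.le (by norm_num) (le_trans h (by norm_num))
      have u : ‖S‖ ≤ 1 / 10 * ‖B‖ := by
        refine le_of_mul_le_mul_right ?_ x0
        nlinarith
      refine ⟨?_, ?_, ?_, ?_⟩ <;> linarith
    · have r := le_of_sq (r := 1 / 10) y0.le (by norm_num) (le_trans h (by norm_num))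
      have u : ‖B‖ ≤ 1 / 10 * ‖S‖ := by
        refine le_of_mul_le_mul_right ?_ y0
        nlinarith
      refine ⟨?_, ?_, ?_, ?_⟩ <;> linarith
  obtain ⟨k1, k2, k3, k4⟩ := key
  have B0 : 0 < ‖B‖ := by
    by_contra hb
    have : ‖B‖ = 0 := by linarith
    rw [this] at nY
    norm_num at nY
  have L0 : 0 < ‖Li (S + B)‖ := by linarith
  have w1 : w.1 ≠ 0 := norm_pos_iff.mp k1
  have w2 : w.2 ≠ 0 := norm_pos_iff.mp k2
  simp only [sq2, map_pow] at q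
  have r : conj (Li (S + B)) * conj w.1 ^ 2 * w.1 =
      -((Li (S + B) + conj B) * (e : ℂ) ^ 2 * conj w.2 ^ 2 * w.2) := by
    field_simp at q
    linear_combination q
  have r1 := congrArg norm r
  simp only [norm_mul, norm_neg, norm_pow, norm_conj, norm_real, Real.norm_eq_abs,
    sq_abs] at r1
  have r2 : ‖Li (S + B) + conj B‖ ≤ 4 * ‖Li (S + B)‖ := by
    have := norm_add_le (Li (S + B)) (conj B)
    rw [norm_conj] at this
    linarith
  have r3 : ‖Li (S + B) + conj B‖ * e ^ 2 * ‖w.2‖ ^ 2 * ‖w.2‖ ≤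
      4 * ‖Li (S + B)‖ * (1 / 10) ^ 2 * (7 / 3 * ‖w.1‖) ^ 2 * (7 / 3 * ‖w.1‖) := by
    gcongr
  have r4 : 0 < ‖Li (S + B)‖ * ‖w.1‖ ^ 2 * ‖w.1‖ := by positivity
  nlinarith

end JU

theorem jetU {e : ℝ} (he : 0 < e) (he' : e ≤ 1 / 10) : JetU e where
  du := JU.du
  dR := JU.dR
  tau0 := JU.tau0 he
  branch := JU.branch he
  ne := JU.ne'
  mtau := JU.mtau he
  fold := ⟨1 / 100, by norm_num, JU.fold he he'⟩

end Pool.Agent.Lib.MP_b7c8b0_gt
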