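import Pool.Agent.Lib.MP_b7c8b0_gt.Smooth
import Pool.Agent.Lib.MP_b7c8b0_gt.Cube
import Pool.Agent.Lib.MP_b7c8b0_gt.PSard

open scoped ContDiff Topology ComplexConjugate
open Filter MeasureTheory Matrix

noncomputable section

namespace Pool.Agent.Lib.MP_b7c8b0_gt

variable {X V : Type} [NormedAddCommGroup X] [InnerProductSpace ℝ X]
  [NormedAddCommGroup V] [NormedSpace ℝ V] {k : ℕ}

/-- Coordinates of the box: `t`, `s`, `y`, and the coordinates of `x`. -/
abbrev m2I (k n : ℕ) : Type := (Bool ⊕ Fin k) ⊕ Fin (n + 1)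

variable {n : ℕ}

/-- The point `(s, x, y)`. -/
def m2P (b : OrthonormalBasis (Fin (n + 1)) ℝ X) (k : ℕ) : (m2I k n → ℝ) →L[ℝ] ℝ × X × YY k :=
  (ContinuousLinearMap.proj (Sum.inl (Sum.inl true))).prod
    ((∑ j, (ContinuousLinearMap.proj (R := ℝ) (φ := fun _ : m2I k n => ℝ) (Sum.inr j)).smulRight
      (b j)).prod
      (ContinuousLinearMap.pi fun i => ContinuousLinearMap.proj (Sum.inl (Sum.inr i))))

theorem m2P_apply (b : OrthonormalBasis (Fin (n + 1)) ℝ X) (p : m2I k n → ℝ) :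
    m2P b k p = (p (Sum.inl (Sum.inl true)), ∑ j, p (Sum.inr j) • b j,
      fun i => p (Sum.inl (Sum.inr i))) := by
  simp [m2P]

theorem m2P_inner (b : OrthonormalBasis (Fin (n + 1)) ℝ X) (p : m2I k n → ℝ) (j : Fin (n + 1)) :
    inner ℝ (b j) (m2P b k p).2.1 = p (Sum.inr j) := by
  rw [m2P_apply]
  exact b.orthonormal.inner_right_fintype _ j

theorem m2P_ext (b : OrthonormalBasis (Fin (n + 1)) ℝ X) {p q : m2I k n → ℝ}
    (h : m2P b k p = m2P b k q) (ht : p (Sum.inl (Sum.inl false)) = q (Sum.inl (Sum.inl false))) :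
    p = q := by
  funext i
  rcases i with ((_ | _) | i) | j
  · exact ht
  · simpa only [m2P_apply] using congrArg Prod.fst h
  · simpa only [m2P_apply] using congrArg (fun z => z.2.2 i) h
  · rw [← m2P_inner b p, h, m2P_inner]

/-- The section of `m2P` in the face `t = 0`. -/
def m2Q (b : OrthonormalBasis (Fin (n + 1)) ℝ X) (z : ℝ × X × YY k) : m2I k n → ℝ :=
  Sum.elim (Sum.elim (fun c => if c then z.1 else 0) z.2.2) fun j => inner ℝ (b j) z.2.1

theorem m2P_Q (b : OrthonormalBasis (Fin (n + 1)) ℝ X) (z : ℝ × X × YY k) :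
    m2P b k (m2Q b z) = z := by
  rw [m2P_apply]
  exact Prod.ext rfl (Prod.ext (b.sum_repr' _) rfl)

/-- The antipodal map of the box. -/
def m2N (p : m2I k n → ℝ) : m2I k n → ℝ :=
  Sum.elim (fun c => p (Sum.inl c)) fun j => -p (Sum.inr j)

theorem m2P_N (b : OrthonormalBasis (Fin (n + 1)) ℝ X) (p : m2I k n → ℝ) :
    m2P b k (m2N p) = ((m2P b k p).1, -(m2P b k p).2.1, (m2P b k p).2.2) := by
  simp only [m2P_apply, m2N, Sum.elim_inl, Sum.elim_inr, neg_smul, Finset.sum_neg_distrib]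

theorem m2N_N (p : m2I k n → ℝ) : m2N (m2N p) = p := by
  funext i
  rcases i with c | j
  · rfl
  · exact neg_neg _

/-- The damping factor. -/
def m2s (p : m2I k n → ℝ) : ℝ := ∏ c, p (Sum.inl c) * (1 - p (Sum.inl c))

/-- The unperturbed map. -/
def m2F (G : ℝ × X → V) (D : ℝ × X × YY k → V) (b : OrthonormalBasis (Fin (n + 1)) ℝ X)
    (p : m2I k n → ℝ) : V :=
  G ((m2P b k p).1, (m2P b k p).2.1) + (1 - p (Sum.inl (Sum.inl false))) • D (m2P b k p)

/-- The equation of the sphere. -/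
def m2h (b : OrthonormalBasis (Fin (n + 1)) ℝ X) (p : m2I k n → ℝ) : ℝ :=
  ‖(m2P b k p).2.1‖ ^ 2 - 1

/-- The perturbed map. -/
def m2T (G : ℝ × X → V) (D : ℝ × X × YY k → V) (b : OrthonormalBasis (Fin (n + 1)) ℝ X)
    (M : Fin (n + 1) → V) (r : ℝ) (p : m2I k n → ℝ) : V × ℝ :=
  (m2F G D b p + m2s p • ∑ j, p (Sum.inr j) • M j, m2h b p + m2s p * r)

/-- Lower corner. -/
def m2a (k n : ℕ) : m2I k n → ℝ := Sum.elim (fun _ => 0) fun j => if j = 0 then 0 else -2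

/-- Upper corner. -/
def m2b (k n : ℕ) : m2I k n → ℝ := Sum.elim (fun _ => 1) fun _ => 2

theorem m2s_smooth : ContDiff ℝ ∞ (m2s : (m2I k n → ℝ) → ℝ) := by
  unfold m2s
  exact contDiff_prod fun c _ => by fun_prop

theorem m2h_smooth (b : OrthonormalBasis (Fin (n + 1)) ℝ X) :
    ContDiff ℝ ∞ (m2h b : (m2I k n → ℝ) → ℝ) :=
  ((m2P b k).contDiff.snd.fst.norm_sq ℝ).sub contDiff_const

theorem m2s_mem {p : m2I k n → ℝ} (hp : p ∈ Set.Icc (m2a k n) (m2b k n)) :
    0 ≤ m2s p ∧ m2s p ≤ 1 := by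
  have h0 : ∀ c, 0 ≤ p (Sum.inl c) := fun c => hp.1 (Sum.inl c)
  have h1 : ∀ c, p (Sum.inl c) ≤ 1 := fun c => hp.2 (Sum.inl c)
  have h2 : ∀ c, 0 ≤ p (Sum.inl c) * (1 - p (Sum.inl c)) := fun c =>
    mul_nonneg (h0 c) (sub_nonneg.2 (h1 c))
  exact ⟨Finset.prod_nonneg fun c _ => h2 c,
    Finset.prod_le_one (fun c _ => h2 c) fun c _ => by nlinarith [h0 c, h1 c]⟩

theorem m2s_eq_zero {p : m2I k n → ℝ} :
    m2s p = 0 ↔ ∃ c, p (Sum.inl c) = 0 ∨ p (Sum.inl c) = 1 := by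
  simp only [m2s, Finset.prod_eq_zero_iff, Finset.mem_univ, true_and, mul_eq_zero, sub_eq_zero,
    eq_comm (a := (1 : ℝ))]

variable {G : ℝ × X → V} {D : ℝ × X × YY k → V} {Z : Finset (ℝ × X × YY k)}
  {b : OrthonormalBasis (Fin (n + 1)) ℝ X} {M : Fin (n + 1) → V} {r : ℝ}

theorem m2F_smooth (h : SmZ G D Z) (b : OrthonormalBasis (Fin (n + 1)) ℝ X) :
    ContDiff ℝ ∞ (m2F G D b) :=
  (h.smG.comp ((m2P b k).contDiff.fst.prodMk (m2P b k).contDiff.snd.fst)).add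
    ((contDiff_const.sub (contDiff_apply ℝ ℝ _)).smul (h.smD.comp (m2P b k).contDiff))

theorem m2T_smooth (h : SmZ G D Z) (b : OrthonormalBasis (Fin (n + 1)) ℝ X)
    (M : Fin (n + 1) → V) (r : ℝ) : ContDiff ℝ ∞ (m2T G D b M r) :=
  ((m2F_smooth h b).add (m2s_smooth.smul (ContDiff.sum fun _ _ =>
    (contDiff_apply ℝ ℝ _).smul contDiff_const))).prodMk
    ((m2h_smooth b).add (m2s_smooth.mul contDiff_const))

theorem m2T_N (h : SmZ G D Z) {p : m2I k n → ℝ} (hp : m2T G D b M r p = 0) :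
    m2T G D b M r (m2N p) = 0 := by
  have h1 : m2F G D b p + m2s p • ∑ j, p (Sum.inr j) • M j = 0 := congrArg Prod.fst hp
  have h2 : m2h b p + m2s p * r = 0 := congrArg Prod.snd hp
  have e1 : m2s (m2N p) = m2s p := rfl
  have e2 : m2h b (m2N p) = m2h b p := by simp only [m2h, m2P_N, norm_neg]
  have e3 : m2F G D b (m2N p) = -m2F G D b p := by
    simp only [m2F, m2P_N, h.oddG, h.oddD, smul_neg, neg_add]
    rfl
  have e4 : ∑ j, m2N p (Sum.inr j) • M j = -∑ j, p (Sum.inr j) • M j := by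
    simp only [m2N, Sum.elim_inr, neg_smul, Finset.sum_neg_distrib]
  refine Prod.ext ?_ ?_
  · change m2F G D b (m2N p) + m2s (m2N p) • ∑ j, m2N p (Sum.inr j) • M j = 0
    rw [e1, e3, e4, smul_neg, ← neg_add, h1, neg_zero]
  · change m2h b (m2N p) + m2s (m2N p) * r = 0
    rw [e1, e2, h2]

/-- Zeros in the box stay away from the origin and from the outer faces. -/
theorem m2_norm (hr : |r| < 1) {p : m2I k n → ℝ} (hp : p ∈ Set.Icc (m2a k n) (m2b k n))
    (h0 : m2T G D b M r p = 0) : (m2P b k p).2.1 ≠ 0 ∧ ∀ j, |p (Sum.inr j)| < 2 := by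
  have h2 : ‖(m2P b k p).2.1‖ ^ 2 - 1 + m2s p * r = 0 := congrArg Prod.snd h0
  obtain ⟨s0, s1⟩ := m2s_mem hp
  have h3 : |m2s p * r| < 1 := by
    rw [abs_mul, abs_of_nonneg s0]
    exact (mul_le_of_le_one_left (abs_nonneg _) s1).trans_lt hr
  rw [abs_lt] at h3
  refine ⟨fun h => ?_, fun j => ?_⟩
  · rw [h, norm_zero] at h2
    linarith [h3.2]
  · rw [← m2P_inner b p j]
    refine (abs_real_inner_le_norm _ _).trans_lt ?_
    rw [b.orthonormal.1, one_mul]
    nlinarith [h3.1, norm_nonneg (m2P b k p).2.1]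

theorem m2_Z_int (h : SmZ G D Z) {s : ℝ} {x : X} {y : YY k} (h0 : 0 ≤ s) (h1 : s ≤ 1)
    (hx : ‖x‖ = 1) {u : ℝ} (hz : G (s, x) + u • D (s, x, y) = 0) :
    u ≠ 0 ∧ (0 < s ∧ s < 1) ∧ ∀ i, 0 < y i ∧ y i < 1 := by
  have hG := h.neG s x h0 h1 hx
  have hD : ¬ (s ≤ 0 ∨ 1 ≤ s ∨ Out y) := fun hh => hG (by simpa [h.van s x y hh] using hz)
  simp only [not_or, not_le, Out, not_exists] at hD
  refine ⟨fun hu => hG (by simpa [hu] using hz), ⟨hD.1, hD.2.1⟩, fun i => ?_⟩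
  constructor <;> linarith [(hD.2.2 i).1, (hD.2.2 i).2]

/-- Zeros where the damping factor vanishes. -/
theorem m2_zero (h : SmZ G D Z) {p : m2I k n → ℝ} (hp : p ∈ Set.Icc (m2a k n) (m2b k n))
    (h0 : m2T G D b M r p = 0) (hs : m2s p = 0) :
    p (Sum.inl (Sum.inl false)) = 0 ∧ m2P b k p ∈ Z ∧
      ∀ c, c ≠ Sum.inl false → 0 < p (Sum.inl c) ∧ p (Sum.inl c) < 1 := by
  have h1 : m2F G D b p + m2s p • ∑ j, p (Sum.inr j) • M j = 0 := congrArg Prod.fst h0
  have h2 : ‖(m2P b k p).2.1‖ ^ 2 - 1 + m2s p * r = 0 := congrArg Prod.snd h0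
  rw [hs, zero_smul, add_zero] at h1
  rw [hs, zero_mul, add_zero, sub_eq_zero,
    pow_eq_one_iff_of_nonneg (norm_nonneg _) two_ne_zero] at h2
  have s0 : 0 ≤ (m2P b k p).1 := hp.1 (Sum.inl (Sum.inl true))
  have s1 : (m2P b k p).1 ≤ 1 := hp.2 (Sum.inl (Sum.inl true))
  obtain ⟨a1, a2, a3⟩ := m2_Z_int h s0 s1 h2 h1
  have a4 : ∀ c, c ≠ Sum.inl false → 0 < p (Sum.inl c) ∧ p (Sum.inl c) < 1 := by
    rintro ((_ | _) | i) hc
    · exact absurd rfl hc
    · exact a2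
    · exact a3 i
  have a5 : p (Sum.inl (Sum.inl false)) = 0 := by
    obtain ⟨c, hc⟩ := m2s_eq_zero.1 hs
    by_cases e : c = Sum.inl false
    · subst e
      exact hc.resolve_right fun hc => a1 (by rw [hc, sub_self])
    · rcases hc with hc | hc
      · exact absurd hc (a4 c e).1.ne'
      · exact absurd hc (a4 c e).2.ne
  refine ⟨a5, (h.mem _).2 ⟨⟨⟨s0, s1⟩, h2⟩, ?_⟩, a4⟩
  simpa only [m2F, a5, sub_zero, one_smul] using h1

/-- Regularity on the face `t = 0`. -/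
theorem m2_reg_t (h : SmZ G D Z) {p v : m2I k n → ℝ} (hp : p (Sum.inl (Sum.inl false)) = 0)
    (hZ : m2P b k p ∈ Z) (hv : v (Sum.inl (Sum.inl false)) = 0)
    (h0 : fderiv ℝ (m2T G D b M r) p v = 0) : v = 0 := by
  have hH : ContDiff ℝ ∞ fun q : ℝ × X × YY k => G (q.1, q.2.1) + D q :=
    (h.smG.comp (contDiff_fst.prodMk contDiff_snd.fst)).add h.smD
  have d1 := ((m2T_smooth h b M r).differentiable (by simp) p).hasFDerivAt.hasLineDerivAt v
  have d2 := ((hH.differentiable (by simp) (m2P b k p)).hasFDerivAt.comp p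
    (m2P b k).hasFDerivAt).prodMk ((m2P b k).hasFDerivAt.snd.fst.norm_sq.sub_const 1)
  have d3 := d2.hasLineDerivAt v
  rw [h0] at d1
  unfold HasLineDerivAt at d1 d3
  have e : (fun t : ℝ => m2T G D b M r (p + t • v)) = fun t : ℝ =>
      (G ((m2P b k (p + t • v)).1, (m2P b k (p + t • v)).2.1) + D (m2P b k (p + t • v)),
        ‖(m2P b k (p + t • v)).2.1‖ ^ 2 - 1) := by
    funext t
    have e1 : (p + t • v) (Sum.inl (Sum.inl false)) = 0 := by simp [hp, hv]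
    have e2 : m2s (p + t • v) = 0 := m2s_eq_zero.2 ⟨_, Or.inl e1⟩
    simp only [m2T, m2F, m2h, e1, e2, zero_smul, zero_mul, add_zero, sub_zero, one_smul]
  rw [e] at d1
  have d4 := d3.unique d1
  have d5 := congrArg Prod.snd d4
  have d6 : inner ℝ (m2P b k p).2.1 (m2P b k v).2.1 = 0 := by simpa using d5
  refine m2P_ext b ?_ hv
  rw [map_zero]
  exact h.reg _ hZ _ d6 (congrArg Prod.fst d4)

/-- The generic perturbation, regular on the face `w 0 = 0`. -/
theorem m2_generic [FiniteDimensional ℝ V] (h : SmZ G D Z) (hd : n + 1 + k = Module.finrank ℝ V)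
    (b : OrthonormalBasis (Fin (n + 1)) ℝ X) :
    ∃ (M : Fin (n + 1) → V) (r : ℝ), |r| < 1 ∧ ∀ p v : m2I k n → ℝ, p (Sum.inr 0) = 0 →
      m2s p ≠ 0 → (m2P b k p).2.1 ≠ 0 → m2T G D b M r p = 0 → v (Sum.inr 0) = 0 →
      fderiv ℝ (m2T G D b M r) p v = 0 → v = 0 := by
  let f : Module.Dual ℝ (m2I k n → ℝ) := LinearMap.proj (Sum.inr 0)
  have hf : f ≠ 0 := fun e => one_ne_zero (LinearMap.congr_fun e fun _ => 1)
  have hE := Module.Dual.finrank_ker_add_one_of_ne_zero hf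
  let L : LinearMap.ker f →L[ℝ] (m2I k n → ℝ) := (LinearMap.ker f).subtypeL
  have hL : ContDiff ℝ 1 L := L.contDiff
  obtain ⟨M, r, hr, H⟩ := psard (E := LinearMap.ker f) (V := V) (I := Fin (n + 1))
    (by simp at hE; omega) (fun p => m2F G D b (L p)) (fun p => m2s (L p)) (fun p => m2h b (L p))
    (fun j p => L p (Sum.inr j)) (((m2F_smooth h b).of_le (by simp)).comp hL)
    ((m2s_smooth.of_le (by simp)).comp hL) (((m2h_smooth b).of_le (by simp)).comp hL)
    (fun j => (contDiff_apply ℝ ℝ _).comp hL)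
  refine ⟨M, r, hr, fun p v hp hs hx h0 hv h1 => ?_⟩
  have hj : ∃ j, p (Sum.inr j) ≠ 0 := by
    by_contra! hj
    exact hx (by simp [m2P_apply, hj])
  have H1 := H ⟨p, hp⟩ hs hj (congrArg Prod.fst h0) (congrArg Prod.snd h0)
  have d1 := (((m2T_smooth h b M r).differentiable (by simp) p).hasFDerivAt.comp
    (⟨p, hp⟩ : LinearMap.ker f) L.hasFDerivAt).fderiv
  have H2 : Function.Injective ((fderiv ℝ (m2T G D b M r) p).comp L) := d1 ▸ H1
  exact congrArg Subtype.val (H2 (a₁ := ⟨v, hv⟩) (a₂ := 0) (h1.trans (map_zero _).symm))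

theorem m2_face (h : SmZ G D Z) (hb : ∀ z ∈ Z, inner ℝ (b 0) z.2.1 ≠ 0) (hr : |r| < 1)
    {p : m2I k n → ℝ} (hp : p ∈ Set.Icc (m2a k n) (m2b k n)) (h0 : m2T G D b M r p = 0)
    {j : m2I k n} (hj : p j = m2a k n j ∨ p j = m2b k n j) :
    (j = Sum.inl (Sum.inl false) ∧ m2s p = 0 ∧ p (Sum.inr 0) ≠ 0) ∨
      (j = Sum.inr 0 ∧ m2s p ≠ 0 ∧ p (Sum.inr 0) = 0) := by
  have h1 : m2s p = 0 → p (Sum.inr 0) ≠ 0 := fun hs => by
    rw [← m2P_inner b p]
    exact hb _ (m2_zero h hp h0 hs).2.1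
  rcases j with c | j
  · have hs : m2s p = 0 := m2s_eq_zero.2 ⟨c, hj⟩
    refine Or.inl ⟨?_, hs, h1 hs⟩
    by_contra e
    have := (m2_zero h hp h0 hs).2.2 c fun e' => e (by rw [e'])
    exact hj.elim this.1.ne' this.2.ne
  · have h2 := abs_lt.1 ((m2_norm hr hp h0).2 j)
    have h3 : p (Sum.inr j) = if j = 0 then 0 else -2 := hj.resolve_right h2.2.ne
    by_cases e : j = 0
    · subst e
      rw [if_pos rfl] at h3
      exact Or.inr ⟨rfl, fun hs => h1 hs h3, h3⟩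
    · rw [if_neg e] at h3
      exact absurd h3 h2.1.ne'

theorem m2_basis [FiniteDimensional ℝ X] (hn : Module.finrank ℝ X = n + 1) (h : SmZ G D Z)
    (hZ : Z.Nonempty) :
    ∃ b : OrthonormalBasis (Fin (n + 1)) ℝ X, ∀ z ∈ Z, inner ℝ (b 0) z.2.1 ≠ 0 := by
  obtain ⟨u, hu⟩ := Module.Dual.exists_forall_ne_zero_of_forall_exists
    (fun z : Z => (innerₛₗ ℝ z.1.2.1 : Module.Dual ℝ X)) fun z => ⟨z.1.2.1, by
      simp [((h.mem _).1 z.2).1.2]⟩
  have hu' : ∀ z ∈ Z, inner ℝ u z.2.1 ≠ 0 := fun z hz => by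
    rw [real_inner_comm]
    exact hu ⟨z, hz⟩
  obtain ⟨z0, hz0⟩ := hZ
  have hu0 : ‖u‖ ≠ 0 := norm_ne_zero_iff.2 fun e => hu' z0 hz0 (by rw [e, inner_zero_left])
  obtain ⟨b, hb⟩ := Orthonormal.exists_orthonormalBasis_extension_of_card_eq (𝕜 := ℝ)
    (ι := Fin (n + 1)) (by simpa using hn) (v := fun _ => ‖u‖⁻¹ • u) (s := {0})
    ⟨fun _ => by simp [norm_smul, hu0], fun i j hij => absurd (Subsingleton.elim i j) hij⟩
  refine ⟨b, fun z hz => ?_⟩
  rw [hb 0 rfl, real_inner_smul_left]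
  exact mul_ne_zero (inv_ne_zero hu0) (hu' z hz)

open Classical in
theorem m2_half (h : SmZ G D Z) {u : X} (hb : ∀ z ∈ Z, inner ℝ u z.2.1 ≠ 0) :
    Z.card = 2 * (Z.filter fun z => 0 < inner ℝ u z.2.1).card := by
  have hN : ∀ z ∈ Z, (z.1, -z.2.1, z.2.2) ∈ Z := fun z hz => by
    rw [h.mem] at hz ⊢
    refine ⟨⟨hz.1.1, by simpa using hz.1.2⟩, ?_⟩
    rw [h.oddG, h.oddD, ← neg_add, hz.2, neg_zero]
  rw [← Finset.card_filter_add_card_filter_not (s := Z) fun z => 0 < inner ℝ u z.2.1, two_mul]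
  congr 1
  refine Finset.card_nbij' (fun z => (z.1, -z.2.1, z.2.2)) (fun z => (z.1, -z.2.1, z.2.2))
    ?_ ?_ (fun z _ => by simp) (fun z _ => by simp)
  · intro z hz
    rw [Finset.mem_coe, Finset.mem_filter] at hz ⊢
    refine ⟨hN z hz.1, ?_⟩
    rw [inner_neg_right, neg_pos]
    exact lt_of_le_of_ne (not_lt.1 hz.2) (hb z hz.1)
  · intro z hz
    rw [Finset.mem_coe, Finset.mem_filter] at hz ⊢
    refine ⟨hN z hz.1, ?_⟩
    rw [inner_neg_right, neg_pos]
    exact hz.2.le.not_gt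

theorem m2_even_card {α : Type} (s : Finset α) (g : α → α) (h1 : ∀ a ∈ s, g a ∈ s)
    (h2 : ∀ a ∈ s, g a ≠ a) (h3 : ∀ a, g (g a) = a) : Even s.card := by
  have := Finset.sum_involution (s := s) (f := fun _ => (1 : ZMod 2)) (fun a _ => g a)
    (fun _ _ => rfl) (fun a ha _ => h2 a ha) h1 fun a _ => h3 a
  rw [Finset.sum_const, nsmul_eq_mul, mul_one] at this
  exact (ZMod.natCast_eq_zero_iff_even).1 this

/-- A smooth homotopy between parameter free odd maps has an even number of pairs of zeros. -/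
theorem SmZ.even [FiniteDimensional ℝ X] [FiniteDimensional ℝ V]
    (hd : Module.finrank ℝ X + k = Module.finrank ℝ V) (hX : 0 < Module.finrank ℝ X)
    {G : ℝ × X → V} {D : ℝ × X × YY k → V} {Z : Finset (ℝ × X × YY k)} (h : SmZ G D Z)
    {r : ℕ} (hr : Z.card = 2 * r) : Even r := by
  classical
  rcases Z.eq_empty_or_nonempty with rfl | hZ
  · obtain rfl : r = 0 := by simpa using hr.symm
    exact Even.zero
  obtain ⟨n, hn⟩ : ∃ n, Module.finrank ℝ X = n + 1 := ⟨_, (Nat.succ_pred_eq_of_pos hX).symm⟩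
  obtain ⟨b, hb⟩ := m2_basis hn h hZ
  obtain ⟨M, ρ, hρ, hM⟩ := m2_generic h (by omega) b
  have hw : ∀ p ∈ Set.Icc (m2a k n) (m2b k n), m2T G D b M ρ p = 0 → ∀ j,
      (j = 0 → p (Sum.inr 0) ≠ 0) →
      m2a k n (Sum.inr j) < p (Sum.inr j) ∧ p (Sum.inr j) < m2b k n (Sum.inr j) := by
    intro p hp h0 j hj
    have h2 := abs_lt.1 ((m2_norm hρ hp h0).2 j)
    refine ⟨?_, h2.2⟩
    by_cases e : j = 0
    · subst e
      exact lt_of_le_of_ne (hp.1 _) (hj rfl).symm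
    · exact (if_neg e).trans_lt h2.1
  obtain ⟨hfin, hev⟩ := cube_parity (ι := m2I k n) (W := V × ℝ) (by simp; omega) (m2a k n)
    (m2b k n) (by
      rintro (c | j)
      · exact zero_lt_one
      · change (if j = 0 then (0 : ℝ) else -2) < 2
        split_ifs <;> norm_num) (m2T G D b M ρ) (m2T_smooth h b M ρ) (by
      intro p hp h0 j hj
      rcases m2_face h hb hρ hp h0 hj with ⟨rfl, hs, h1⟩ | ⟨rfl, hs, h1⟩
      · obtain ⟨a1, a2, a3⟩ := m2_zero h hp h0 hs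
        refine ⟨?_, fun v hv h2 => m2_reg_t h a1 a2 hv h2⟩
        rintro (c | i) hi
        · exact a3 c fun e => hi (by rw [e])
        · exact hw p hp h0 i fun _ => h1
      · refine ⟨?_, fun v hv h2 => hM p v h1 hs (m2_norm hρ hp h0).1 h0 hv h2⟩
        rintro (c | i) hi
        · exact ⟨lt_of_le_of_ne (hp.1 _) fun e => hs (m2s_eq_zero.2 ⟨c, Or.inl e.symm⟩),
            lt_of_le_of_ne (hp.2 _) fun e => hs (m2s_eq_zero.2 ⟨c, Or.inr e⟩)⟩
        · exact hw p hp h0 i fun e => absurd (by rw [e]) hi)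
  rw [Set.ncard_eq_toFinset_card _ hfin,
    ← Finset.card_filter_add_card_filter_not (fun p => m2s p = 0)] at hev
  have e1 : (hfin.toFinset.filter fun p => m2s p = 0).card = r := by
    have := m2_half h hb
    suffices (hfin.toFinset.filter fun p => m2s p = 0).card =
        (Z.filter fun z => 0 < inner ℝ (b 0) z.2.1).card by omega
    refine Finset.card_nbij' (m2P b k) (m2Q b) ?_ ?_ ?_ (fun z _ => m2P_Q b z)
    · intro p hp
      simp only [Finset.coe_filter, Set.Finite.mem_toFinset, Set.mem_ofPred_eq] at hp ⊢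
      obtain ⟨⟨hp, h0, -⟩, hs⟩ := hp
      have a2 := (m2_zero h hp h0 hs).2.1
      refine ⟨a2, lt_of_le_of_ne ?_ (hb _ a2).symm⟩
      rw [m2P_inner]
      exact hp.1 (Sum.inr 0)
    · intro z hz
      simp only [Finset.coe_filter, Set.Finite.mem_toFinset, Set.mem_ofPred_eq] at hz ⊢
      obtain ⟨⟨⟨s0, s1⟩, hx⟩, h0⟩ := (h.mem z).1 hz.1
      obtain ⟨-, -, a3⟩ := m2_Z_int h s0 s1 hx (u := 1) (y := z.2.2) (by rwa [one_smul])
      have hs : m2s (m2Q b z) = 0 := m2s_eq_zero.2 ⟨Sum.inl false, Or.inl rfl⟩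
      have hj : ∀ j, |inner ℝ (b j) z.2.1| ≤ 2 := fun j =>
        (abs_real_inner_le_norm _ _).trans (by rw [b.orthonormal.1, hx]; norm_num)
      refine ⟨⟨⟨?_, ?_⟩, ?_, Sum.inl (Sum.inl false), Or.inl rfl⟩, hs⟩
      · rintro (((_ | _) | i) | j)
        · exact le_rfl
        · exact s0
        · exact (a3 i).1.le
        · change (if j = 0 then (0 : ℝ) else -2) ≤ inner ℝ (b j) z.2.1
          split_ifs with e
          · rw [e]
            exact hz.2.le
          · exact (abs_le.1 (hj j)).1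
      · rintro (((_ | _) | i) | j)
        · exact zero_le_one
        · exact s1
        · exact (a3 i).2.le
        · exact (abs_le.1 (hj j)).2
      · have e : m2Q b z (Sum.inl (Sum.inl false)) = 0 := rfl
        simp [m2T, m2F, m2h, hs, m2P_Q, e, h0, hx]
    · intro p hp
      simp only [Finset.coe_filter, Set.Finite.mem_toFinset, Set.mem_ofPred_eq] at hp
      exact m2P_ext b (m2P_Q b _) (m2_zero h hp.1.1 hp.1.2.1 hp.2).1.symm
  have e2 : Even (hfin.toFinset.filter fun p => ¬ m2s p = 0).card := by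
    refine m2_even_card _ m2N ?_ ?_ m2N_N
    · intro p hp
      simp only [Finset.mem_filter, Set.Finite.mem_toFinset, Set.mem_ofPred_eq] at hp ⊢
      obtain ⟨⟨hp, h0, j, hj⟩, hs⟩ := hp
      have h1 : p (Sum.inr 0) = 0 :=
        ((m2_face h hb hρ hp h0 hj).resolve_left fun e => hs e.2.1).2.2
      have h2 : m2N p (Sum.inr 0) = 0 := neg_eq_zero.2 h1
      have h3 := fun j => abs_lt.1 ((m2_norm hρ hp h0).2 j)
      refine ⟨⟨⟨?_, ?_⟩, m2T_N h h0, Sum.inr 0, Or.inl h2⟩, hs⟩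
      · rintro (c | j)
        · exact hp.1 (Sum.inl c)
        · change (if j = 0 then (0 : ℝ) else -2) ≤ -p (Sum.inr j)
          split_ifs with e
          · rw [e, h1, neg_zero]
          · exact neg_le_neg (h3 j).2.le
      · rintro (c | j)
        · exact hp.2 (Sum.inl c)
        · exact neg_le.1 (h3 j).1.le
    · intro p hp e
      simp only [Finset.mem_filter, Set.Finite.mem_toFinset, Set.mem_ofPred_eq] at hp
      have h1 := congrArg (fun z => z.2.1) (m2P_N b p)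
      rw [e] at h1
      refine (m2_norm hρ hp.1.1 hp.1.2.1).1 ?_
      have h2 : (2 : ℝ) • (m2P b k p).2.1 = 0 := by
        rw [two_smul]
        exact add_eq_zero_iff_eq_neg.2 h1
      exact (smul_eq_zero.1 h2).resolve_left two_ne_zero
  rw [e1] at hev
  exact (Nat.even_add.1 hev).2 e2

theorem HomZ.even [FiniteDimensional ℝ X] [FiniteDimensional ℝ V] (hk : 0 < k)
    (hd : Module.finrank ℝ X + k = Module.finrank ℝ V) (hX : 0 < Module.finrank ℝ X)
    {f g : X → V} {r : ℕ} (H : HomZ (k := k) (fun x _ => f x) (fun x _ => g x) r) : Even r := by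
  obtain ⟨G, D, Z, h, hr⟩ := exists_smZ hk H
  exact h.even hd hX hr

end Pool.Agent.Lib.MP_b7c8b0_gt
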