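import Pool.Agent.Lib.MP_b7c8b0_gt.Form

open scoped ContDiff Topology ComplexConjugate
open Filter MeasureTheory Matrix

noncomputable section

namespace Pool.Agent.Lib.MP_b7c8b0_gt

variable {ι : Type} [Fintype ι] [DecidableEq ι] {n : Type} [Fintype n] [DecidableEq n]

theorem fnM_apply (g : MS n ι) (a b : n) : fnM g a b = fn (g a b) := rfl
theorem dM_apply (A : MO n ι) (a b : n) : dM A a b = dd (A a b) := rfl
theorem sgM_apply (A : MO n ι) (a b : n) : sgM A a b = sg (A a b) := rfl
theorem faceM_apply (i : ι) (c : ℝ) (A : MO n ι) (a b : n) :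
    faceM i c A a b = face i c (A a b) := rfl
theorem fSM_apply (i : ι) (c : ℝ) (g : MS n ι) (a b : n) : fSM i c g a b = fS i c (g a b) := rfl

theorem mform_eq_zero {w : Om ι} (h : w = -w) : w = 0 := by
  have h2 : (2 : ℂ) • w = 0 := by
    rw [two_smul]
    exact add_eq_zero_iff_eq_neg.2 h
  exact (smul_eq_zero.1 h2).resolve_left two_ne_zero

/-- Evaluation at a point as a ring homomorphism. -/
def mformEv (x : ι → ℝ) : Sm ι →+* ℂ where
  toFun f := f.1 x
  map_one' := rfl
  map_mul' _ _ := rfl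
  map_zero' := rfl
  map_add' _ _ := rfl

theorem dM_add (A B : MO n ι) : dM (A + B) = dM A + dM B := by
  refine Matrix.ext fun a b => ?_
  simp only [dM_apply, Matrix.add_apply, map_add]
theorem dM_sub (A B : MO n ι) : dM (A - B) = dM A - dM B := by
  refine Matrix.ext fun a b => ?_
  simp only [dM_apply, Matrix.sub_apply, map_sub]
theorem dM_neg (A : MO n ι) : dM (-A) = -dM A := by
  refine Matrix.ext fun a b => ?_
  simp only [dM_apply, Matrix.neg_apply, map_neg]
theorem dM_zero : dM (0 : MO n ι) = 0 := by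
  refine Matrix.ext fun a b => ?_
  simp only [dM_apply, Matrix.zero_apply, map_zero]
theorem dM_one : dM (1 : MO n ι) = 0 := by
  refine Matrix.ext fun a b => ?_
  rw [dM_apply, Matrix.one_apply, Matrix.zero_apply]
  split_ifs
  · exact dd_one
  · exact map_zero _
theorem dM_dM (A : MO n ι) : dM (dM A) = 0 := by
  refine Matrix.ext fun a b => ?_
  simp only [dM_apply, Matrix.zero_apply, dd_dd]
theorem dM_mul (A B : MO n ι) : dM (A * B) = dM A * B + sgM A * dM B := by
  refine Matrix.ext fun a b => ?_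
  simp only [dM_apply, sgM_apply, Matrix.add_apply, Matrix.mul_apply, map_sum, dd_mul,
    Finset.sum_add_distrib]
theorem dM_smul (w : Om ι) (A : MO n ι) : dM (w • A) = dd w • A + sg w • dM A := by
  refine Matrix.ext fun a b => ?_
  simp only [dM_apply, Matrix.add_apply, Matrix.smul_apply, smul_eq_mul, dd_mul]
theorem dM_csmul (c : ℂ) (A : MO n ι) : dM (c • A) = c • dM A := by
  refine Matrix.ext fun a b => ?_
  simp only [dM_apply, Matrix.smul_apply, map_smul]
theorem sgM_fnM (g : MS n ι) : sgM (fnM g) = fnM g := by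
  refine Matrix.ext fun a b => ?_
  simp only [sgM_apply, fnM_apply, sg_fn]
theorem sgM_sgM (A : MO n ι) : sgM (sgM A) = A := by
  refine Matrix.ext fun a b => ?_
  simp only [sgM_apply, sg_sg]
theorem sgM_dM (A : MO n ι) : sgM (dM A) = -dM (sgM A) := by
  refine Matrix.ext fun a b => ?_
  simp only [sgM_apply, dM_apply, Matrix.neg_apply, sg_dd]
theorem sgM_smul (w : Om ι) (A : MO n ι) : sgM (w • A) = sg w • sgM A := by
  refine Matrix.ext fun a b => ?_
  simp only [sgM_apply, Matrix.smul_apply, smul_eq_mul, map_mul]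
theorem fnM_smul (f : Sm ι) (g : MS n ι) : fnM (f • g) = fn f • fnM g := by
  refine Matrix.ext fun a b => ?_
  simp only [fnM_apply, Matrix.smul_apply, smul_eq_mul, map_mul]
theorem faceM_fnM (i : ι) (c : ℝ) (g : MS n ι) : faceM i c (fnM g) = fnM (fSM i c g) := by
  refine Matrix.ext fun a b => ?_
  simp only [faceM_apply, fnM_apply, fSM_apply, face_fn]
theorem faceM_dM (i : ι) (c : ℝ) (A : MO n ι) : faceM i c (dM A) = dM (faceM i c A) := by
  refine Matrix.ext fun a b => ?_
  simp only [faceM_apply, dM_apply, face_dd]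
theorem faceM_sgM (i : ι) (c : ℝ) (A : MO n ι) : faceM i c (sgM A) = sgM (faceM i c A) := by
  refine Matrix.ext fun a b => ?_
  simp only [faceM_apply, sgM_apply, face_sg]
theorem faceM_smul (i : ι) (c : ℝ) (w : Om ι) (A : MO n ι) :
    faceM i c (w • A) = face i c w • faceM i c A := by
  refine Matrix.ext fun a b => ?_
  simp only [faceM_apply, Matrix.smul_apply, smul_eq_mul, map_mul]
theorem faceM_faceM_self (i : ι) (c c' : ℝ) (A : MO n ι) :
    faceM i c (faceM i c' A) = faceM i c' A := by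
  refine Matrix.ext fun a b => ?_
  simp only [faceM_apply, face_face_self]
theorem faceM_comm {i j : ι} (h : i ≠ j) (c c' : ℝ) (A : MO n ι) :
    faceM i c (faceM j c' A) = faceM j c' (faceM i c A) := by
  refine Matrix.ext fun a b => ?_
  simp only [faceM_apply, face_comm h]
theorem fSM_smul (i : ι) (c : ℝ) (f : Sm ι) (g : MS n ι) :
    fSM i c (f • g) = fS i c f • fSM i c g := by
  refine Matrix.ext fun a b => ?_
  simp only [fSM_apply, Matrix.smul_apply, smul_eq_mul, map_mul]
theorem mul_smul_ev {w : Om ι} (h : sg w = w) (A B : MO n ι) : A * (w • B) = w • (A * B) := by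
  refine Matrix.ext fun a b => ?_
  simp only [Matrix.mul_apply, Matrix.smul_apply, smul_eq_mul, Finset.mul_sum]
  refine Finset.sum_congr rfl fun c _ => ?_
  rw [← mul_assoc, ← ev_comm h, mul_assoc]
theorem mul_smul_od {w : Om ι} (h : sg w = -w) (A B : MO n ι) :
    A * (w • B) = w • (sgM A * B) := by
  refine Matrix.ext fun a b => ?_
  simp only [Matrix.mul_apply, Matrix.smul_apply, smul_eq_mul, Finset.mul_sum, sgM_apply]
  refine Finset.sum_congr rfl fun c _ => ?_
  rw [← mul_assoc, ← mul_assoc, od_comm h, sg_sg]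
theorem smul_mul_M (w : Om ι) (A B : MO n ι) : (w • A) * B = w • (A * B) := by
  refine Matrix.ext fun a b => ?_
  simp only [Matrix.mul_apply, Matrix.smul_apply, smul_eq_mul, Finset.mul_sum, mul_assoc]

theorem dd_trace (A : MO n ι) : dd (trace A) = trace (dM A) := by
  simp only [Matrix.trace, Matrix.diag_apply, map_sum, dM_apply]
theorem sg_trace (A : MO n ι) : sg (trace A) = trace (sgM A) := by
  simp only [Matrix.trace, Matrix.diag_apply, map_sum, sgM_apply]
theorem face_trace (i : ι) (c : ℝ) (A : MO n ι) : face i c (trace A) = trace (faceM i c A) := by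
  simp only [Matrix.trace, Matrix.diag_apply, map_sum, faceM_apply]
theorem trace_ev {A : MO n ι} (h : sgM A = A) (B : MO n ι) : trace (A * B) = trace (B * A) := by
  simp only [Matrix.trace, Matrix.diag_apply, Matrix.mul_apply]
  rw [Finset.sum_comm]
  refine Finset.sum_congr rfl fun a _ => Finset.sum_congr rfl fun b _ => ?_
  exact ev_comm (congrFun (congrFun h b) a) _
theorem trace_od {A : MO n ι} (h : sgM A = -A) (B : MO n ι) :
    trace (A * B) = trace (sgM B * A) := by
  simp only [Matrix.trace, Matrix.diag_apply, Matrix.mul_apply, sgM_apply]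
  rw [Finset.sum_comm]
  refine Finset.sum_congr rfl fun a _ => Finset.sum_congr rfl fun b _ => ?_
  exact od_comm (congrFun (congrFun h b) a) _
theorem trace_od_pow {A : MO n ι} (h : sgM A = -A) (m : ℕ) : trace (A ^ (2 * (m + 1))) = 0 := by
  apply mform_eq_zero
  have h1 : A ^ (2 * (m + 1)) = A * A ^ (2 * m + 1) := by
    rw [← pow_succ']
    rfl
  have h2 : A ^ (2 * (m + 1)) = A ^ (2 * m + 1) * A := by
    rw [← pow_succ]
    rfl
  have h3 : sgM (A ^ (2 * m + 1)) = -(A ^ (2 * m + 1)) := by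
    rw [map_pow, h, Odd.neg_pow ⟨m, rfl⟩]
  have h4 := trace_od h (A ^ (2 * m + 1))
  rw [h3, neg_mul, trace_neg, ← h1, ← h2] at h4
  exact h4

theorem curv_zero : curv (0 : MO n ι) = 0 := by
  simp only [curv, dM_zero, mul_zero, add_zero]
theorem sgM_curv {A : MO n ι} (h : sgM A = -A) : sgM (curv A) = curv A := by
  simp only [curv, map_add, map_mul, sgM_dM, h, dM_neg, neg_neg, neg_mul_neg]
theorem faceM_curv (i : ι) (c : ℝ) (A : MO n ι) : faceM i c (curv A) = curv (faceM i c A) := by
  simp only [curv, map_add, map_mul, faceM_dM]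
theorem face_ch (i : ι) (c : ℝ) (m : ℕ) (A : MO n ι) :
    face i c (ch m A) = ch m (faceM i c A) := by
  simp only [ch, face_trace, map_pow, faceM_curv]
theorem sg_ch (m : ℕ) {A : MO n ι} (h : sgM A = -A) : sg (ch m A) = ch m A := by
  simp only [ch, sg_trace, map_pow, sgM_curv h]
/-- The Chern character forms are closed. -/
theorem dd_ch (m : ℕ) {A : MO n ι} (h : sgM A = -A) : dd (ch m A) = 0 := by
  have hF := sgM_curv h
  have h1 : dM (curv A) = curv A * A - A * curv A := by
    simp only [curv, dM_add, dM_dM, dM_mul, h]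
    noncomm_ring
  have h2 : ∀ k : ℕ, dM (curv A ^ k) = curv A ^ k * A - A * curv A ^ k := by
    intro k
    induction k with
    | zero => simp only [pow_zero, dM_one, one_mul, mul_one, sub_self]
    | succ k ih =>
      rw [pow_succ, dM_mul, ih, map_pow, hF, h1]
      noncomm_ring
  have h3 : sgM (curv A ^ m) = curv A ^ m := by rw [map_pow, hF]
  rw [ch, dd_trace, h2, trace_sub, trace_ev h3, sub_self]
theorem sgM_gauge (g h : MS n ι) {A : MO n ι} (hA : sgM A = -A) :
    sgM (gauge g h A) = -gauge g h A := by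
  simp only [gauge, map_add, map_mul, sgM_fnM, sgM_dM, hA]
  noncomm_ring
theorem curv_gauge {g h : MS n ι} (h1 : h * g = 1) (h2 : g * h = 1) {A : MO n ι}
    (hA : sgM A = -A) : curv (gauge g h A) = fnM h * curv A * fnM g := by
  have e1 : fnM h * fnM g = (1 : MO n ι) := by rw [← map_mul, h1, map_one]
  have e2 : fnM g * fnM h = (1 : MO n ι) := by rw [← map_mul, h2, map_one]
  have e3 : dM (fnM h) * fnM g + fnM h * dM (fnM g) = 0 := by
    have := dM_mul (fnM h) (fnM g)
    rw [e1, dM_one, sgM_fnM] at this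
    exact this.symm
  have e4 : dM (fnM h) = -(fnM h * dM (fnM g) * fnM h) := by
    have h5 : dM (fnM h) * fnM g = -(fnM h * dM (fnM g)) := eq_neg_of_add_eq_zero_left e3
    rw [← neg_mul, ← h5, mul_assoc, e2, mul_one]
  have e5 : ∀ X : MO n ι, fnM g * (fnM h * X) = X := fun X => by rw [← mul_assoc, e2, one_mul]
  simp only [curv, gauge, dM_add, dM_mul, map_mul, sgM_fnM, hA, dM_dM, e4, mul_add, add_mul,
    mul_assoc, e5, mul_zero, add_zero, neg_mul, mul_neg]
  abel
theorem ch_gauge (m : ℕ) {g h : MS n ι} (h1 : h * g = 1) (h2 : g * h = 1) {A : MO n ι}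
    (hA : sgM A = -A) : ch m (gauge g h A) = ch m A := by
  have e1 : fnM h * fnM g = (1 : MO n ι) := by rw [← map_mul, h1, map_one]
  have e2 : fnM g * fnM h = (1 : MO n ι) := by rw [← map_mul, h2, map_one]
  have e5 : ∀ X : MO n ι, fnM g * (fnM h * X) = X := fun X => by rw [← mul_assoc, e2, one_mul]
  have e6 : ∀ k : ℕ, (fnM h * curv A * fnM g) ^ k = fnM h * (curv A ^ k * fnM g) := by
    intro k
    induction k with
    | zero => rw [pow_zero, pow_zero, one_mul, e1]
    | succ k ih =>
      rw [pow_succ, ih, pow_succ]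
      simp only [mul_assoc, e5]
  rw [ch, curv_gauge h1 h2 hA, e6, trace_ev (sgM_fnM h), mul_assoc, e2, mul_one, ch]
theorem gauge_zero (g : MS n ι) : gauge g g⁻¹ 0 = mc g := by
  simp only [gauge, mc, mul_zero, zero_mul, zero_add]
theorem sgM_lin (t : ι) {A B : MO n ι} (hA : sgM A = -A) (hB : sgM B = -B) :
    sgM (lin t A B) = -lin t A B := by
  simp only [lin, map_add, sgM_smul, map_sub, sg_fn, hA, hB, smul_sub, smul_neg]
  abel
theorem faceM_lin_ne {i t : ι} (h : t ≠ i) (c : ℝ) (A B : MO n ι) :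
    faceM i c (lin t A B) = lin t (faceM i c A) (faceM i c B) := by
  simp only [lin, map_add, faceM_smul, map_sub, face_fn, fS_xc_ne h]
theorem faceM_lin_zero (t : ι) (A B : MO n ι) : faceM t 0 (lin t A B) = faceM t 0 A := by
  simp only [lin, map_add, faceM_smul, map_sub, face_fn, fS_xc_self, Complex.ofReal_zero, map_zero,
    zero_smul, add_zero]
theorem faceM_lin_one (t : ι) (A B : MO n ι) : faceM t 1 (lin t A B) = faceM t 1 B := by
  simp only [lin, map_add, faceM_smul, map_sub, face_fn, fS_xc_self, Complex.ofReal_one, map_one,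
    one_smul, add_sub_cancel]
/-- The form of the even Chern character of an idempotent is closed. -/
theorem dd_idem (m : ℕ) {e : MS n ι} (he : e * e = e) :
    dd (trace (fnM e * dM (fnM e) ^ (2 * m))) = 0 := by
  set E : MO n ι := fnM e with hE
  set D : MO n ι := dM E with hD
  have hs : sgM E = E := sgM_fnM e
  have e1 : E * E = E := by rw [hE, ← map_mul, he]
  have e2 : D = D * E + E * D := by
    have := dM_mul E E
    rwa [e1, hs] at this
  have e3 : ∀ k : ℕ, dM (D ^ k) = 0 := by
    intro k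
    induction k with
    | zero => rw [pow_zero, dM_one]
    | succ k ih => rw [pow_succ, dM_mul, ih, hD, dM_dM, zero_mul, mul_zero, add_zero]
  set S : MO n ι := E + E - 1 with hS
  have e4 : S * S = 1 := by
    simp only [hS, mul_sub, sub_mul, mul_add, add_mul, e1, mul_one, one_mul]
    abel
  have e5 : S * D = -(D * S) := by
    have h6 : E * D = D - D * E := by
      rw [eq_sub_iff_add_eq, add_comm]
      exact e2.symm
    simp only [hS, mul_sub, sub_mul, mul_add, add_mul, h6, mul_one, one_mul]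
    abel
  have e6 : S * (D * D) = D * D * S := by
    rw [← mul_assoc, e5, neg_mul, mul_assoc, e5, mul_neg, neg_neg, mul_assoc]
  have e7 : S * D ^ (2 * m) = D ^ (2 * m) * S := by
    rw [pow_mul, pow_two]
    exact (Commute.pow_right e6 m).eq
  have e8 : S * (D * D ^ (2 * m)) = -(D * D ^ (2 * m) * S) := by
    rw [← mul_assoc, e5, neg_mul, mul_assoc, e7, mul_assoc]
  have e9 : sgM S = S := by simp only [hS, map_sub, map_add, hs, map_one]
  rw [dd_trace, dM_mul, e3, mul_zero, add_zero, ← hD]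
  apply mform_eq_zero
  have h7 := trace_ev e9 (S * (D * D ^ (2 * m)))
  rw [← mul_assoc, e4, one_mul, e8, neg_mul, mul_assoc _ S S, e4, mul_one, trace_neg] at h7
  exact h7

/-! Pointwise values and invertibility. -/

theorem ev_apply (g : MS n ι) (x : ι → ℝ) (a b : n) : ev g x a b = (g a b).1 x := rfl
theorem ev_ext {g h : MS n ι} (H : ∀ x, ev g x = ev h x) : g = h := by
  refine Matrix.ext fun a b => Subtype.ext (funext fun x => ?_)
  exact congrFun (congrFun (H x) a) b
theorem ev_mul (g h : MS n ι) (x : ι → ℝ) : ev (g * h) x = ev g x * ev h x := by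
  exact map_mul (mformEv x).mapMatrix g h
theorem ev_add (g h : MS n ι) (x : ι → ℝ) : ev (g + h) x = ev g x + ev h x := by
  exact map_add (mformEv x).mapMatrix g h
theorem ev_sub (g h : MS n ι) (x : ι → ℝ) : ev (g - h) x = ev g x - ev h x := by
  exact map_sub (mformEv x).mapMatrix g h
theorem ev_one (x : ι → ℝ) : ev (1 : MS n ι) x = 1 := by
  exact map_one (mformEv x).mapMatrix
theorem ev_zero (x : ι → ℝ) : ev (0 : MS n ι) x = 0 := by
  exact map_zero (mformEv x).mapMatrix
theorem ev_smul (f : Sm ι) (g : MS n ι) (x : ι → ℝ) : ev (f • g) x = f.1 x • ev g x := by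
  rfl
theorem ev_det (g : MS n ι) (x : ι → ℝ) : (g.det).1 x = (ev g x).det := by
  exact RingHom.map_det (mformEv x) g
theorem ev_fSM (i : ι) (c : ℝ) (g : MS n ι) (x : ι → ℝ) :
    ev (fSM i c g) x = ev g (Function.update x i c) := rfl
theorem continuous_ev (g : MS n ι) : Continuous (ev g) := by
  exact continuous_matrix fun a b => (Sm.smooth (g a b)).continuous
theorem Inv.isUnit {g : MS n ι} (h : Inv g) : IsUnit g.det := by
  have h0 : ∀ x, (g.det).1 x ≠ 0 := fun x => by rw [ev_det]; exact h x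
  refine IsUnit.of_mul_eq_one
    (Sm.mk (fun x => ((g.det).1 x)⁻¹) ((Sm.smooth g.det).inv h0)) ?_
  refine Subtype.ext (funext fun x => ?_)
  exact mul_inv_cancel₀ (h0 x)
theorem Inv.inv_mul {g : MS n ι} (h : Inv g) : g⁻¹ * g = 1 := by
  exact Matrix.nonsing_inv_mul g h.isUnit
theorem Inv.mul_inv {g : MS n ι} (h : Inv g) : g * g⁻¹ = 1 := by
  exact Matrix.mul_nonsing_inv g h.isUnit
theorem Inv.of_mul {g h : MS n ι} (H : g * h = 1) : Inv g := by
  intro x
  have h1 : ev g x * ev h x = 1 := by rw [← ev_mul, H, ev_one]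
  exact (Matrix.isUnit_det_of_right_inverse h1).ne_zero
theorem Inv.mul {g h : MS n ι} (hg : Inv g) (hh : Inv h) : Inv (g * h) := by
  intro x
  rw [ev_mul, Matrix.det_mul]
  exact mul_ne_zero (hg x) (hh x)
theorem Inv.inv {g : MS n ι} (hg : Inv g) : Inv g⁻¹ := by
  exact Inv.of_mul hg.inv_mul
theorem Inv.one : Inv (1 : MS n ι) := by
  exact Inv.of_mul (mul_one 1)
theorem Inv.ev_inv {g : MS n ι} (h : Inv g) (x : ι → ℝ) : ev g⁻¹ x = (ev g x)⁻¹ := by
  symm
  apply Matrix.inv_eq_left_inv
  rw [← ev_mul, h.inv_mul, ev_one]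
theorem Inv.fSM {g : MS n ι} (h : Inv g) (i : ι) (c : ℝ) : Inv (fSM i c g) := by
  exact fun x => h (Function.update x i c)
theorem Inv.fSM_inv {g : MS n ι} (h : Inv g) (i : ι) (c : ℝ) :
    MP_b7c8b0_gt.fSM i c g⁻¹ = (MP_b7c8b0_gt.fSM i c g)⁻¹ := by
  symm
  apply Matrix.inv_eq_left_inv
  rw [← map_mul, h.inv_mul, map_one]
theorem Inv.faceM_mc {g : MS n ι} (h : Inv g) (i : ι) (c : ℝ) :
    faceM i c (mc g) = mc (MP_b7c8b0_gt.fSM i c g) := by
  simp only [mc, map_mul, faceM_fnM, faceM_dM, h.fSM_inv]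
theorem Inv.curv_mc {g : MS n ι} (h : Inv g) : curv (mc g) = 0 := by
  rw [← gauge_zero, curv_gauge h.inv_mul h.mul_inv (by rw [map_zero, neg_zero]), curv_zero,
    mul_zero, zero_mul]
theorem sgM_mc (g : MS n ι) : sgM (mc g) = -mc g := by
  simp only [mc, map_mul, sgM_fnM, sgM_dM, mul_neg]
theorem Seg.left {g g' : MS n ι} (h : Seg g g') : Inv g := by
  intro x
  simpa using h 0 le_rfl zero_le_one x
theorem Seg.right {g g' : MS n ι} (h : Seg g g') : Inv g' := by
  intro x
  simpa using h 1 zero_le_one le_rfl x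

section
variable {P l : List ι} {g h : MS n ι}
theorem torM_iff : TorM P l g ↔ ∀ x y : ι → ℝ, (∀ i ∈ P, x i = y i) →
    (∀ i ∈ l, ∃ k : ℤ, x i = y i + k) → ev g x = ev g y := by
  constructor
  · intro H x y h1 h2
    exact Matrix.ext fun a b => H a b x y h1 h2
  · intro H a b x y h1 h2
    exact congrFun (congrFun (H x y h1 h2) a) b
theorem TorM.one : TorM P l (1 : MS n ι) := by
  exact torM_iff.2 fun x y _ _ => by rw [ev_one, ev_one]
theorem TorM.zero : TorM P l (0 : MS n ι) := by
  exact torM_iff.2 fun x y _ _ => by rw [ev_zero, ev_zero]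
theorem TorM.add (hg : TorM P l g) (hh : TorM P l h) : TorM P l (g + h) := by
  exact fun a b => (hg a b).add (hh a b)
theorem TorM.sub (hg : TorM P l g) (hh : TorM P l h) : TorM P l (g - h) := by
  exact fun a b => (hg a b).sub (hh a b)
theorem TorM.neg (hg : TorM P l g) : TorM P l (-g) := by
  exact fun a b => (hg a b).neg
theorem TorM.mul (hg : TorM P l g) (hh : TorM P l h) : TorM P l (g * h) := by
  exact torM_iff.2 fun x y h1 h2 => by
    rw [ev_mul, ev_mul, torM_iff.1 hg x y h1 h2, torM_iff.1 hh x y h1 h2]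
theorem TorM.smul {f : Sm ι} (hf : Tor P l f) (hg : TorM P l g) : TorM P l (f • g) := by
  exact fun a b => hf.mul (hg a b)
theorem TorM.sum {α : Type} (s : Finset α) (F : α → MS n ι) (H : ∀ a ∈ s, TorM P l (F a)) :
    TorM P l (∑ a ∈ s, F a) := by
  intro a b
  rw [Matrix.sum_apply]
  exact Tor.sum s _ fun c hc => H c hc a b
theorem TorM.inv (hg : TorM P l g) (hi : Inv g) : TorM P l g⁻¹ := by
  exact torM_iff.2 fun x y h1 h2 => by
    rw [hi.ev_inv, hi.ev_inv, torM_iff.1 hg x y h1 h2]
theorem TorM.mono (hg : TorM P l g) {P' l' : List ι} (hP : ∀ i ∈ P, i ∈ P')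
    (hl : ∀ i ∈ l, i ∈ P' ∨ i ∈ l') : TorM P' l' g := by
  exact fun a b => (hg a b).mono hP hl
theorem TorM.fSM_not_mem (hg : TorM P l g) {i : ι} (hP : i ∉ P) (hl : i ∉ l) (c : ℝ) :
    fSM i c g = g := by
  exact Matrix.ext fun a b => (hg a b).fS_not_mem hP hl c
theorem TorM.fSM_per (hg : TorM P l g) {i : ι} (hP : i ∉ P) : fSM i 1 g = fSM i 0 g := by
  exact Matrix.ext fun a b => (hg a b).fS_per hP
theorem TorM.fSM_cons_left {z : ι} (hg : TorM (z :: P) l g) (c : ℝ) : TorM P l (fSM z c g) := by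
  exact fun a b => (hg a b).fS_cons_left c
theorem TorM.fSM_cons_right {z : ι} (hg : TorM P (z :: l) g) (c : ℝ) : TorM P l (fSM z c g) := by
  exact fun a b => (hg a b).fS_cons_right c
theorem TorM.pencil {z : ι} (hg : TorM P l g) : TorM P (z :: l) (pencil z g) := by
  exact TorM.one.add (TorM.smul ((Tor.zeta List.mem_cons_self).sub Tor.one)
    (hg.mono (fun _ h => h) fun _ h => Or.inr (List.mem_cons_of_mem _ h)))
end

end Pool.Agent.Lib.MP_b7c8b0_gt
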