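import Pool.Agent.Lib.MP_b7c8b0_gt.HomZ

open scoped ContDiff Topology ComplexConjugate
open Filter MeasureTheory Matrix

noncomputable section

namespace Pool.Agent.Lib.MP_b7c8b0_gt

/-- The unnormalised collapse map. -/
def tstepW {k : ℕ} (β : YY k → ℝ) (y : YY k) : EuclideanSpace ℝ (Fin (k + 1)) :=
  WithLp.toLp 2 (Fin.snoc (fun i => β y * (y i - 1 / 2)) (1 - 2 * β y))

lemma tstepW_cast {k : ℕ} (β : YY k → ℝ) (y : YY k) (i : Fin k) :
    tstepW β y i.castSucc = β y * (y i - 1 / 2) := by simp [tstepW]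

lemma tstepW_last {k : ℕ} (β : YY k → ℝ) (y : YY k) :
    tstepW β y (Fin.last k) = 1 - 2 * β y := by simp [tstepW]

theorem exists_collapse (k : ℕ) :
    ∃ (κ : YY k → EuclideanSpace ℝ (Fin (k + 1))) (y0 : YY k), Collapse κ y0 := by
  let y0 : YY k := fun _ => 1 / 2
  let β : ContDiffBump y0 := ⟨1 / 8, 1 / 4, by norm_num, by norm_num⟩
  have b0 : β y0 = 1 := β.one_of_mem_closedBall (Metric.mem_closedBall_self β.rIn_pos.le)
  have hout : ∀ y, Out y → β y = 0 := by
    rintro y ⟨i, hi⟩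
    refine β.zero_of_le_dist (le_trans ?_ (dist_le_pi_dist y y0 i))
    change (1 / 4 : ℝ) ≤ dist (y i) (1 / 2)
    rw [Real.dist_eq, le_abs]
    rcases hi with hi | hi
    · right; linarith
    · left; linarith
  have key : ∀ y, β y ≠ 0 → (∀ i : Fin k, tstepW β y i.castSucc = 0) → y = y0 := by
    intro y hy h
    funext i
    have := h i
    rw [tstepW_cast] at this
    exact sub_eq_zero.1 ((mul_eq_zero.1 this).resolve_left hy)
  have hne : ∀ y, tstepW β y ≠ 0 := by
    intro y h
    have h1 := tstepW_last β y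
    rw [h, PiLp.zero_apply] at h1
    have h2 := key y (fun e => by rw [e] at h1; norm_num at h1) fun i => by rw [h, PiLp.zero_apply]
    rw [h2, b0] at h1
    norm_num at h1
  have hsm : ContDiff ℝ ∞ (tstepW β) := by
    have hb : ContDiff ℝ ∞ β := β.contDiff
    rw [contDiff_euclidean]
    intro i
    refine Fin.lastCases ?_ (fun i => ?_) i
    · simp only [tstepW_last]
      exact contDiff_const.sub (contDiff_const.mul hb)
    · simp only [tstepW_cast]
      exact hb.mul ((contDiff_apply ℝ ℝ i).sub contDiff_const)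
  have w0 : tstepW β y0 = -EuclideanSpace.single (Fin.last k) 1 := by
    ext i
    refine Fin.lastCases ?_ (fun i => ?_) i
    · rw [tstepW_last, b0]; norm_num
    · rw [tstepW_cast]; simp [y0, Fin.castSucc_ne_last]
  have hκ : ContDiff ℝ ∞ fun y => ‖tstepW β y‖⁻¹ • tstepW β y :=
    ((hsm.norm ℝ hne).inv fun y => norm_ne_zero_iff.2 (hne y)).smul hsm
  have k0 : ‖tstepW β y0‖⁻¹ • tstepW β y0 = -EuclideanSpace.single (Fin.last k) 1 := by
    rw [w0]; simp
  refine ⟨fun y => ‖tstepW β y‖⁻¹ • tstepW β y, y0, hκ, fun y => norm_smul_inv_norm (hne y),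
    fun y hy => ?_, fun h => ?_, fun y => ⟨fun h => ?_, fun h => h ▸ k0⟩, ?_⟩
  · have e : tstepW β y = EuclideanSpace.single (Fin.last k) 1 := by
      ext i
      refine Fin.lastCases ?_ (fun i => ?_) i
      · rw [tstepW_last, hout y hy]; simp
      · rw [tstepW_cast, hout y hy]; simp [Fin.castSucc_ne_last]
    rw [e]; simp
  · rw [hout _ h] at b0
    exact zero_ne_one b0
  · have hp : 0 < ‖tstepW β y‖⁻¹ := inv_pos.2 (norm_pos_iff.2 (hne y))
    refine key y (fun e => ?_) fun i => ?_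
    · have h1 := congrArg (fun z : EuclideanSpace ℝ (Fin (k + 1)) => z (Fin.last k)) h
      simp only [PiLp.smul_apply, tstepW_last, e, smul_eq_mul, PiLp.neg_apply,
        PiLp.single_apply, if_true] at h1
      linarith
    · have h1 := congrArg (fun z : EuclideanSpace ℝ (Fin (k + 1)) => z i.castSucc) h
      simp only [PiLp.smul_apply, smul_eq_mul, PiLp.neg_apply,
        PiLp.single_apply, Fin.castSucc_ne_last, if_false, neg_zero] at h1
      exact (mul_eq_zero.1 h1).resolve_left hp.ne'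
  · rw [injective_iff_map_eq_zero]
    intro v hv
    funext i
    generalize hK : (fun y => ‖tstepW β y‖⁻¹ • tstepW β y) = κ at hκ hv
    have hd := (hκ.differentiable (by simp) y0).hasFDerivAt
    have k1 : κ y0 (Fin.last k) = -1 := by
      rw [← hK]; simp only [k0]; simp
    have h1 := ((EuclideanSpace.proj (𝕜 := ℝ) i.castSucc).hasFDerivAt.comp y0 hd).add
      (((hasFDerivAt_apply (𝕜 := ℝ) i y0).sub_const (1 / 2)).mul
        ((EuclideanSpace.proj (𝕜 := ℝ) (Fin.last k)).hasFDerivAt.comp y0 hd))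
    have h2 : HasFDerivAt (fun _ : YY k => (0 : ℝ)) _ y0 := h1.congr_of_eventuallyEq (by
      filter_upwards [β.eventuallyEq_one] with y hy
      rw [Pi.one_apply] at hy
      rw [← hK]
      change 0 = ‖tstepW β y‖⁻¹ * tstepW β y i.castSucc +
        (y i - 1 / 2) * (‖tstepW β y‖⁻¹ * tstepW β y (Fin.last k))
      rw [tstepW_cast, tstepW_last, hy]
      ring)
    have h3 := congrArg (fun L => L v) (h2.unique (hasFDerivAt_const 0 y0))
    simpa [hv, k1] using h3

theorem continuous_tauB {N : ℕ} :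
    Continuous fun p : EuclideanSpace ℝ (Fin N) × XX N => tauB p.1 p.2 := by
  refine continuous_pi fun i => ?_
  unfold tauB
  fun_prop

theorem tauB_neg {N : ℕ} (b : EuclideanSpace ℝ (Fin N)) (x : XX N) :
    tauB b (-x) = -tauB b x := by
  funext i
  simp only [tauB, PiLp.neg_apply, Complex.ofReal_neg, Pi.neg_apply]
  ring

lemma tstep_tauB_zero {N : ℕ} {b : EuclideanSpace ℝ (Fin N)} {x : XX N} (h : tauB b x = 0)
    (i : Fin N) : x (some i) = 0 ∧ x none * b i = 0 := by
  have h1 := congrFun h i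
  exact ⟨by simpa [tauB] using congrArg Complex.re h1, by simpa [tauB] using congrArg Complex.im h1⟩

theorem tauB_ne_zero {N : ℕ} {b : EuclideanSpace ℝ (Fin N)} (hb : b ≠ 0) {x : XX N}
    (hx : x ≠ 0) : tauB b x ≠ 0 := by
  intro h
  apply hx
  ext j
  rcases j with _ | j
  · by_contra h0
    apply hb
    ext i
    exact (mul_eq_zero.1 (tstep_tauB_zero h i).2).resolve_left h0
  · exact (tstep_tauB_zero h j).1

lemma tstep_prod {E n : Type} [NormedAddCommGroup E] [NormedSpace ℝ E] [Fintype n]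
    (M : E → Matrix n n ℂ) (T : E → n → ℂ) (p v : E) {T' : E →L[ℝ] (n → ℂ)}
    (hM : ∀ a b, DifferentiableAt ℝ (fun q => M q a b) p) (hT : HasFDerivAt T T' p)
    (h0 : T p = 0) : fderiv ℝ (fun q => M q *ᵥ T q) p v = M p *ᵥ T' v := by
  have h : ∀ a, HasFDerivAt (fun q => (M q *ᵥ T q) a) _ p := fun a =>
    HasFDerivAt.fun_sum (u := Finset.univ) fun b _ =>
      (hM a b).hasFDerivAt.mul (hasFDerivAt_pi'.1 hT b)
  rw [(hasFDerivAt_pi.2 h).fderiv]
  funext a
  simp [h0, mulVec, dotProduct]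

/-- The straight line from the collapse map to the last basis vector. -/
def tstepB {k : ℕ} (κ : YY k → EuclideanSpace ℝ (Fin (k + 1))) (q : ℝ × XX (k + 1) × YY k) :
    EuclideanSpace ℝ (Fin (k + 1)) :=
  (1 - q.1) • κ q.2.2 + q.1 • EuclideanSpace.single (Fin.last k) 1

lemma tstep_tauB_smooth {E : Type} [NormedAddCommGroup E] [NormedSpace ℝ E] {N : ℕ}
    {b : E → EuclideanSpace ℝ (Fin N)} {x : E → XX N} (hb : ContDiff ℝ ∞ b) (hx : ContDiff ℝ ∞ x)
    (i : Fin N) : ContDiff ℝ ∞ fun q => tauB (b q) (x q) i := by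
  have h1 := fun j => Complex.ofRealCLM.contDiff.comp (contDiff_euclidean.1 hx j)
  have h2 := Complex.ofRealCLM.contDiff.comp (contDiff_euclidean.1 hb i)
  exact (h1 _).add ((contDiff_const.mul (h1 none)).mul h2)

lemma tstep_tauB_deriv {E : Type} [NormedAddCommGroup E] [NormedSpace ℝ E] {N : ℕ}
    {b : E → EuclideanSpace ℝ (Fin N)} {x : E → XX N} {p : E} {b' : E →L[ℝ] _} {x' : E →L[ℝ] _}
    (hb : HasFDerivAt b b' p) (hx : HasFDerivAt x x' p) (h0 : b p = 0) :
    ∃ T' : E →L[ℝ] (Fin N → ℂ), HasFDerivAt (fun q => tauB (b q) (x q)) T' p ∧ ∀ v i, T' v i =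
      (x' v (some i) : ℂ) + Complex.I * (x p none : ℂ) * (b' v i : ℂ) := by
  have h1 := fun j => Complex.ofRealCLM.hasFDerivAt.comp p
    ((EuclideanSpace.proj (𝕜 := ℝ) j).hasFDerivAt.comp p hx)
  have h2 := fun i => Complex.ofRealCLM.hasFDerivAt.comp p
    ((EuclideanSpace.proj (𝕜 := ℝ) i).hasFDerivAt.comp p hb)
  have h : ∀ i, HasFDerivAt (fun q => tauB (b q) (x q) i) _ p := fun i =>
    (h1 (some i)).add (((h1 none).const_mul Complex.I).mul (h2 i))
  refine ⟨_, hasFDerivAt_pi.2 h, fun v i => ?_⟩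
  simp [h0]

/-- Straightening the normal direction costs one pair of zeros. -/
theorem tstep {k : ℕ} (hk : 0 < k) {κ : YY k → EuclideanSpace ℝ (Fin (k + 1))} {y0 : YY k}
    (hκ : Collapse κ y0) {G : YY k → Matrix (Fin (k + 1)) (Fin (k + 1)) ℂ} (hG : SmGood G) :
    HomZ (fun x y => G y *ᵥ tauB (κ y) x)
      (fun x y => G y *ᵥ tauB (EuclideanSpace.single (Fin.last k) 1) x) 1 := by
  classical
  have o0 : Out (0 : YY k) := ⟨⟨0, hk⟩, Or.inl (by simp)⟩
  have k0 := (hκ.anti y0).2 rfl
  have hB : ContDiff ℝ ∞ (tstepB κ) :=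
    ((contDiff_const.sub contDiff_fst).smul (hκ.smooth.comp (contDiff_snd.comp contDiff_snd))).add
      (contDiff_fst.smul contDiff_const)
  have hM : ∀ a b, ContDiff ℝ ∞ fun q : ℝ × XX (k + 1) × YY k => G q.2.2 a b := fun a b =>
    (hG.smooth a b).comp (contDiff_snd.comp contDiff_snd)
  have hH : ContDiff ℝ ∞ fun q : ℝ × XX (k + 1) × YY k => G q.2.2 *ᵥ tauB (tstepB κ q) q.2.1 :=
    contDiff_pi.2 fun a => ContDiff.sum (s := Finset.univ) fun b _ =>
      (hM a b).mul (tstep_tauB_smooth hB (contDiff_fst.comp contDiff_snd) b)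
  have hz : ∀ x, tstepB κ (1 / 2, x, y0) = 0 := fun x => by
    simp only [tstepB, k0]
    norm_num
  have hn : ∀ x : XX (k + 1), (∀ i, x (some i) = 0) → x = EuclideanSpace.single none (x none) := by
    intro x hx
    ext j
    rcases j with _ | j
    · simp
    · simp [hx]
  have reg : ∀ c : ℝ, c ≠ 0 → Reg
      (fun q : ℝ × XX (k + 1) × YY k => G q.2.2 *ᵥ tauB (tstepB κ q) q.2.1)
      (1 / 2, EuclideanSpace.single none c, y0) := by
    intro c hc
    refine ⟨Set.univ, univ_mem, _, hH.contDiffOn, fun _ _ _ => rfl, ?_⟩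
    rintro ⟨σ, ξ, η⟩ h1 h2
    have hd := (hκ.smooth.differentiable (by simp) y0).hasFDerivAt
    set p : ℝ × XX (k + 1) × YY k := (1 / 2, EuclideanSpace.single none c, y0) with hp
    have hd' : HasFDerivAt (fun q : ℝ × XX (k + 1) × YY k => κ q.2.2) _ p :=
      HasFDerivAt.comp p (g := κ) hd (hasFDerivAt_snd.comp p hasFDerivAt_snd)
    have hb : HasFDerivAt (tstepB κ) _ p :=
      ((hasFDerivAt_fst.const_sub (1 : ℝ)).smul hd').add (hasFDerivAt_fst.smul_const _)
    have hx : HasFDerivAt (fun q : ℝ × XX (k + 1) × YY k => q.2.1) _ p :=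
      (hasFDerivAt_fst (𝕜 := ℝ)).comp p hasFDerivAt_snd
    obtain ⟨T', hT, hT'⟩ := tstep_tauB_deriv hb hx (hz _)
    rw [tstep_prod _ _ p _ (fun a b => (hM a b).differentiable (by simp) p) hT (by
      funext i
      rw [hp, hz]
      simp [tauB])] at h2
    have h3 := eq_zero_of_mulVec_eq_zero (hG.det _) h2
    have h4 : ∀ i, ξ (some i) = 0 ∧ 1 / 2 * fderiv ℝ κ y0 η i +
        2 * σ * EuclideanSpace.single (Fin.last k) (1 : ℝ) i = 0 := by
      intro i
      have h5 := hT' (σ, ξ, η) i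
      rw [h3, Pi.zero_apply] at h5
      refine ⟨by simpa using (congrArg Complex.re h5).symm, ?_⟩
      have h6 := congrArg Complex.im h5
      simp [hp, k0] at h6
      rcases h6 with h6 | h6
      · exact absurd h6 hc
      · simp only [PiLp.single_apply]
        split_ifs at h6 ⊢ <;> linarith
    have h7 : fderiv ℝ κ y0 η (Fin.last k) = 0 := by
      have h8 : HasFDerivAt (fun _ : YY k => (1 : ℝ)) _ y0 :=
        hd.norm_sq.congr_of_eventuallyEq (Eventually.of_forall fun y => by simp [hκ.norm])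
      have h9 := congrArg (fun L => L η) (h8.unique (hasFDerivAt_const 1 y0))
      simpa [k0, EuclideanSpace.inner_single_left] using h9
    have hσ : σ = 0 := by simpa [h7] using (h4 (Fin.last k)).2
    have hη : η = 0 := (injective_iff_map_eq_zero _).1 hκ.reg η (by
      ext i
      simpa [hσ] using (h4 i).2)
    have hξ : ξ none = 0 := by simpa [hp, EuclideanSpace.inner_single_left, hc] using h1
    rw [hσ, hη, hn ξ fun i => (h4 i).1, hξ]
    simp
  refine ⟨fun q => G q.2.2 *ᵥ tauB (tstepB κ q) q.2.1,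
    {(1 / 2, EuclideanSpace.single none 1, y0), (1 / 2, EuclideanSpace.single none (-1), y0)},
    ⟨hH.continuous.continuousOn, ?_, ?_, ?_, ?_, ?_, ?_⟩, Finset.card_pair ?_⟩
  · intro s x y _ _ _
    rw [← mulVec_neg, ← tauB_neg]
    rfl
  · intro s x y _ _ _ hy
    simp only [tstepB, hG.out y hy, hκ.out y hy, hκ.out 0 o0]
  · intro x y _
    simp [tstepB]
  · intro x y _
    simp [tstepB]
  · rintro ⟨s, x, y⟩
    rw [Finset.mem_insert, Finset.mem_singleton]
    constructor
    · have h1 : ∀ c : ℝ, G y0 *ᵥ tauB (tstepB κ (1 / 2, EuclideanSpace.single none c, y0))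
          (EuclideanSpace.single none c) = 0 := fun c => by
        rw [hz, ← mulVec_zero (G y0)]
        refine congrArg _ (funext fun i => ?_)
        simp [tauB]
      rintro (h | h) <;> rw [h]
      · exact ⟨⟨⟨by norm_num, by norm_num⟩, by simp⟩, h1 1⟩
      · exact ⟨⟨⟨by norm_num, by norm_num⟩, by simp⟩, h1 (-1)⟩
    · rintro ⟨⟨⟨s0, s1⟩, hx⟩, h⟩
      dsimp only at s0 s1 hx h
      have h1 := eq_zero_of_mulVec_eq_zero (hG.det _) h
      have h2 : tstepB κ (s, x, y) = 0 := by
        by_contra h2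
        exact tauB_ne_zero h2 (fun e => by simp [e] at hx) h1
      have h3 : (1 - s) • κ y = -(s • EuclideanSpace.single (Fin.last k) 1) :=
        eq_neg_of_add_eq_zero_left h2
      have h4 := congrArg norm h3
      rw [norm_neg, norm_smul, norm_smul, hκ.norm, PiLp.norm_single, norm_one,
        Real.norm_of_nonneg s0, Real.norm_of_nonneg (sub_nonneg.2 s1)] at h4
      have hs : s = 1 / 2 := by linarith
      subst hs
      have hy : y = y0 := (hκ.anti y).1 (smul_right_injective _ (one_half_pos (α := ℝ)).ne' (by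
        rw [show (1 - 1 / 2 : ℝ) = 1 / 2 by norm_num, ← smul_neg] at h3
        exact h3))
      have h5 := hn x fun i => (tstep_tauB_zero h1 i).1
      rw [h5, PiLp.norm_single, Real.norm_eq_abs] at hx
      rcases eq_or_eq_neg_of_abs_eq hx with e | e
      · exact Or.inl (by rw [hy, h5, e])
      · exact Or.inr (by rw [hy, h5, e])
  · intro p hp
    rw [Finset.mem_insert, Finset.mem_singleton] at hp
    rcases hp with rfl | rfl
    · exact ⟨by norm_num, by norm_num, hκ.inner, reg 1 one_ne_zero⟩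
    · exact ⟨by norm_num, by norm_num, hκ.inner, reg (-1) (by norm_num)⟩
  · intro h
    have := congrArg (fun q : ℝ × XX (k + 1) × YY k => q.2.1 none) h
    norm_num at this

end Pool.Agent.Lib.MP_b7c8b0_gt
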