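import Pool.Agent.Lib.MP_b7c8b0_gt.Bridge
import Pool.Agent.Lib.MP_b7c8b0_gt.Chord
import Pool.Agent.Lib.MP_b7c8b0_gt.TStep
import Pool.Agent.Lib.MP_b7c8b0_gt.Destab
import Pool.Agent.Lib.MP_b7c8b0_gt.FillH
import Pool.Agent.Lib.MP_b7c8b0_gt.M2
import Pool.Agent.Lib.MP_b7c8b0_gt.BottEven

open scoped ContDiff Topology ComplexConjugate
open Filter MeasureTheory Matrix

noncomputable section

namespace Pool.Agent.Lib.MP_b7c8b0_gt

theorem no_EPre {n : ℕ} (hn : 2 ≤ n) (F : Euc n → Amb n) : ¬ EPre n F := by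
  intro hF
  obtain ⟨κ, y0, hκ⟩ := exists_collapse (2 * n + 1)
  have hk : 0 < 2 * n + 1 := by omega
  have o0 : Out (0 : YY (2 * n + 1)) := ⟨⟨0, hk⟩, Or.inl (by simp)⟩
  have ho : ∀ y, Out y → κ y = κ 0 := fun y hy => by rw [hκ.out y hy, hκ.out 0 o0]
  obtain ⟨G, f0, hG, H0⟩ := emb_data (by omega) hF hκ.smooth.continuous hκ.norm ho
  obtain ⟨G1, hG1, s1⟩ := hG.smooth
  have hκ0 : ∀ y, κ y ≠ 0 := fun y h => by simpa [h] using hκ.norm y
  have H1 := GLHom.homZ (X := XX (2 * n + 1 + 1)) (Relation.ReflTransGen.single s1) hG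
    (fun x y => tauB (κ y) x)
    (continuous_tauB.comp ((hκ.smooth.continuous.comp continuous_snd).prodMk continuous_fst))
    (fun x y => tauB_neg _ _) (fun x y hy => by rw [ho y hy])
    (fun x y hx => tauB_ne_zero (hκ0 y) (fun h => by simp [h] at hx))
  have H2 := tstep hk hκ hG1
  let e : Fin (2 * n + 1 + 1) ≃ Fin (n + 1) ⊕ Fin (n + 1) :=
    (finCongr (by omega)).trans finSumFinEquiv.symm
  obtain ⟨A, hA, s2⟩ := destab (m := n + 1) (by omega) (n + 1) e hG1
  have hb0 : (EuclideanSpace.single (Fin.last (2 * n + 1)) (1 : ℝ)) ≠ 0 := fun h => by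
    simpa using congrArg (fun v : EuclideanSpace ℝ (Fin (2 * n + 1 + 1)) => v (Fin.last _)) h
  have H3 := GLHom.homZ (X := XX (2 * n + 1 + 1)) s2 hG1.good
    (fun x _ => tauB (EuclideanSpace.single (Fin.last (2 * n + 1)) 1) x)
    (continuous_tauB.comp (continuous_const.prodMk continuous_fst))
    (fun x y => tauB_neg _ _) (fun x y hy => rfl)
    (fun x y hx => tauB_ne_zero hb0 (fun h => by simp [h] at hx))
  have H4 := tau_path e 0 (Fin.last (2 * n + 1)) (s2.good hG1.good)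
  obtain ⟨W, Z, hW⟩ := exists_fill (by omega) hA 0
  obtain ⟨f1, H5⟩ := fill_homZ e hW
  have H := ((((H0.trans H1).trans H2).trans H3).trans H4).trans H5
  have E1 := HomZ.even hk (by
    simp [Module.finrank_pi_fintype, Complex.finrank_real_complex]; omega) (by simp) H
  have E2 := bott_even hn rfl hA hW
  rcases E1 with ⟨a, ha⟩
  rcases E2 with ⟨b, hb⟩
  omega

theorem no_emb {n : ℕ} (hn : 2 ≤ n) : ¬ ∃ f, IsPrelegendrianEmbedding n f := by
  rintro ⟨f, hf⟩
  obtain ⟨F, hF⟩ := bridgeB hf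
  exact no_EPre hn F hF

end Pool.Agent.Lib.MP_b7c8b0_gt
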