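import Pool.Agent.Lib.MP_b7c8b0_gt.Pert
import Pool.Agent.Lib.MP_b7c8b0_gt.Cayley

open scoped ContDiff ComplexConjugate Topology
open Complex Filter

noncomputable section

namespace Pool.Agent.Lib.MP_b7c8b0_gt

/-- The complexification map with parameter `d`. -/
def odT (d : ℝ) : (ℝ × ℝ × ℝ × ℝ × ℝ × ℝ) →ₗ[ℝ] Amb 1 where
  toFun w := (fun _ => (w.1 : ℂ) + I * d * w.2.1, fun _ => (w.2.2.1 : ℂ) + I * d * w.2.2.2.1,
    (w.2.2.2.2.1 : ℂ) + I * d * w.2.2.2.2.2)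
  map_add' v w := by
    refine Prod.ext (funext fun _ => ?_) (Prod.ext (funext fun _ => ?_) ?_) <;> simp <;> ring
  map_smul' c v := by
    refine Prod.ext (funext fun _ => ?_) (Prod.ext (funext fun _ => ?_) ?_) <;> simp <;> ring

lemma odT_inj {d : ℝ} (hd : d ≠ 0) {w : ℝ × ℝ × ℝ × ℝ × ℝ × ℝ} (h : odT d w = 0) : w = 0 := by
  have key : ∀ a b : ℝ, (a : ℂ) + I * d * b = 0 → a = 0 ∧ b = 0 := by
    intro a b h
    have h1 := congrArg re h
    have h2 := congrArg im h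
    simp [hd] at h1 h2
    exact ⟨h1, h2⟩
  obtain ⟨a1, a2⟩ := key _ _ (congrFun (congrArg Prod.fst h) 0)
  obtain ⟨a3, a4⟩ := key _ _ (congrFun (congrArg (fun p => p.2.1) h) 0)
  obtain ⟨a5, a6⟩ := key _ _ (congrArg (fun p => p.2.2) h)
  ext <;> assumption

/-- The perturbed front data. -/
def odG (q : Euc 1 → ℝ × ℝ × ℝ) (A : Euc 1 → (ℝ × ℝ × ℝ) →L[ℝ] ℝ) (U : Euc 1 → ℝ)
    (p : ℝ × Euc 1) : ℝ × ℝ × ℝ × ℝ × ℝ × ℝ :=
  ((q p.2).1, -A p.2 (0, 1, 0),
    (q p.2).2.1 - p.1 ^ 2 * A p.2 (0, 0, 1) *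
      ((A p.2 (1, 0, 0) + (q p.2).2.1 * A p.2 (0, 0, 1)) / (1 + p.1 ^ 2 * A p.2 (0, 0, 1) ^ 2)),
    (A p.2 (1, 0, 0) + (q p.2).2.1 * A p.2 (0, 0, 1)) / (1 + p.1 ^ 2 * A p.2 (0, 0, 1) ^ 2),
    (q p.2).2.2, U p.2 - (q p.2).2.1 * A p.2 (0, 1, 0))

lemma od_split (B : (ℝ × ℝ × ℝ) →L[ℝ] ℝ) (u : ℝ × ℝ × ℝ) :
    B u = u.1 * B (1, 0, 0) + u.2.1 * B (0, 1, 0) + u.2.2 * B (0, 0, 1) := by
  have : u = u.1 • ((1, 0, 0) : ℝ × ℝ × ℝ) + u.2.1 • ((0, 1, 0) : ℝ × ℝ × ℝ) +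
      u.2.2 • ((0, 0, 1) : ℝ × ℝ × ℝ) := by ext <;> simp
  conv_lhs => rw [this]
  simp only [map_add, map_smul, smul_eq_mul]

lemma odG_smooth {q : Euc 1 → ℝ × ℝ × ℝ} {A : Euc 1 → (ℝ × ℝ × ℝ) →L[ℝ] ℝ} {U : Euc 1 → ℝ}
    {x : Euc 1} (sq : ContDiffAt ℝ ∞ q x) (sA : ContDiffAt ℝ ∞ A x) (sU : ContDiffAt ℝ ∞ U x)
    (d : ℝ) : ContDiffAt ℝ ∞ (odG q A U) (d, x) := by
  have hq : ContDiffAt ℝ ∞ (fun p : ℝ × Euc 1 => q p.2) (d, x) := sq.comp _ contDiffAt_snd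
  have hU : ContDiffAt ℝ ∞ (fun p : ℝ × Euc 1 => U p.2) (d, x) := sU.comp _ contDiffAt_snd
  have hA : ∀ u, ContDiffAt ℝ ∞ (fun p : ℝ × Euc 1 => A p.2 u) (d, x) := fun u =>
    (sA.comp (d, x) contDiffAt_snd).clm_apply contDiffAt_const
  have h4 : ContDiffAt ℝ ∞ (fun p : ℝ × Euc 1 => (A p.2 (1, 0, 0) + (q p.2).2.1 * A p.2 (0, 0, 1)) /
      (1 + p.1 ^ 2 * A p.2 (0, 0, 1) ^ 2)) (d, x) :=
    ((hA _).add (hq.snd.fst.mul (hA _))).div
      (contDiffAt_const.add ((contDiffAt_fst.pow 2).mul ((hA _).pow 2))) (by positivity)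
  exact hq.fst.prodMk ((hA _).neg.prodMk ((hq.snd.fst.sub
    (((contDiffAt_fst.pow 2).mul (hA _)).mul h4)).prodMk (h4.prodMk (hq.snd.snd.prodMk
      (hU.sub (hq.snd.fst.mul (hA _)))))))

lemma od_slice {G : Type*} [NormedAddCommGroup G] [NormedSpace ℝ G] {F : ℝ × Euc 1 → G} {d : ℝ}
    {x : Euc 1} (h : DifferentiableAt ℝ F (d, x)) (v : Euc 1) :
    fderiv ℝ (fun y => F (d, y)) x v = fderiv ℝ F (d, x) (0, v) := by
  have := h.hasFDerivAt.comp x (hasFDerivAt_prodMk_right d x)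
  rw [show (fun y => F (d, y)) = F ∘ fun y => (d, y) from rfl, this.fderiv]
  simp

theorem od_abstract (q : Euc 1 → ℝ × ℝ × ℝ) (A : Euc 1 → (ℝ × ℝ × ℝ) →L[ℝ] ℝ) (U : Euc 1 → ℝ)
    (sq : ∀ x, x ≠ 0 → ContDiffAt ℝ ∞ q x) (sA : ∀ x, x ≠ 0 → ContDiffAt ℝ ∞ A x)
    (sU : ∀ x, x ≠ 0 → ContDiffAt ℝ ∞ U x)
    (leg : ∀ x, x ≠ 0 → ∀ v, fderiv ℝ U x v = A x (fderiv ℝ q x v))
    (inj : ∀ x x', ‖x‖ = 1 → ‖x'‖ = 1 → q x = q x' → U x = U x' → A x (0, 1, 0) = A x' (0, 1, 0) →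
      A x (1, 0, (q x).2.1) = A x' (1, 0, (q x).2.1) → x = x')
    (imm : ∀ x v, ‖x‖ = 1 → inner ℝ x v = 0 → fderiv ℝ q x v = 0 →
      fderiv ℝ A x v (0, 1, 0) = 0 → fderiv ℝ A x v (1, 0, (q x).2.1) = 0 → v = 0) :
    ∃ F, EPre 1 F := by
  have ne : ∀ x : Euc 1, ‖x‖ = 1 → x ≠ 0 := by
    rintro x hx rfl; simp at hx
  have sG := fun x hx d => odG_smooth (sq x hx) (sA x hx) (sU x hx) d
  have dq := fun x hx => ((sq x hx).differentiableAt (by simp)).hasFDerivAt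
  have dU := fun x hx => ((sU x hx).differentiableAt (by simp)).hasFDerivAt
  have dA : ∀ x, x ≠ 0 → ∀ u, HasFDerivAt (fun y => A y u) ((fderiv ℝ A x).flip u) x := by
    intro x hx u
    simpa using ((sA x hx).differentiableAt (by simp)).hasFDerivAt.clm_apply
      (hasFDerivAt_const u x)
  have hp := pert (odG q A U) (fun x hx => (sG x (ne x hx) 0).of_le (by simp)) (by
    intro x x' hx hx' h
    simp only [odG, ne_eq, OfNat.ofNat_ne_zero, not_false_eq_true, zero_pow, zero_mul, sub_zero,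
      add_zero, div_one, Prod.mk.injEq, neg_inj] at h
    obtain ⟨h1, h2, h3, h4, h5, h6⟩ := h
    refine inj x x' hx hx' (Prod.ext h1 (Prod.ext h3 h5)) ?_ h2 ?_
    · rw [h2, h3] at h6; linarith
    · rw [od_split (A x), od_split (A x')]
      rw [← h3] at h4
      simp only [one_mul, zero_mul, add_zero]; exact h4) (by
    intro x v hx hv h
    have hx0 := ne x hx
    rw [← od_slice ((sG x hx0 0).differentiableAt (by simp))] at h
    have e : (fun y => odG q A U (0, y)) = fun y => ((q y).1, -A y (0, 1, 0), (q y).2.1,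
        A y (1, 0, 0) + (q y).2.1 * A y (0, 0, 1), (q y).2.2, U y - (q y).2.1 * A y (0, 1, 0)) := by
      funext y; simp [odG]
    have hF : HasFDerivAt (fun y => ((q y).1, -A y (0, 1, 0), (q y).2.1,
        A y (1, 0, 0) + (q y).2.1 * A y (0, 0, 1), (q y).2.2, U y - (q y).2.1 * A y (0, 1, 0))) _ x :=
      ((dq x hx0).fst.prodMk ((dA x hx0 (0, 1, 0)).neg.prodMk ((dq x hx0).snd.fst.prodMk
      (((dA x hx0 (1, 0, 0)).add ((dq x hx0).snd.fst.mul (dA x hx0 (0, 0, 1)))).prodMk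
        ((dq x hx0).snd.snd.prodMk
        ((dU x hx0).sub ((dq x hx0).snd.fst.mul (dA x hx0 (0, 1, 0)))))))))
    rw [e, hF.fderiv] at h
    simp only [ContinuousLinearMap.prod_apply, ContinuousLinearMap.comp_apply,
      ContinuousLinearMap.coe_fst', ContinuousLinearMap.coe_snd', ContinuousLinearMap.neg_apply,
      ContinuousLinearMap.add_apply, ContinuousLinearMap.smul_apply, ContinuousLinearMap.flip_apply,
      smul_eq_mul, Prod.mk_eq_zero, neg_eq_zero] at h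
    obtain ⟨h1, h2, h3, h4, h5, -⟩ := h
    refine imm x v hx hv (Prod.ext h1 (Prod.ext h3 h5)) h2 ?_
    rw [od_split]
    rw [h3] at h4
    simp only [one_mul, zero_mul, add_zero, mul_zero] at h4 ⊢
    exact h4)
  obtain ⟨d, ⟨hinj, himm⟩, hd⟩ := ((hp.filter_mono nhdsWithin_le_nhds).and
    (self_mem_nhdsWithin (s := {0}ᶜ))).exists
  have hd0 : d ≠ 0 := hd
  let T := LinearMap.toContinuousLinearMap (odT d)
  have sg : ∀ x, x ≠ 0 → ContDiffAt ℝ ∞ (fun y => odG q A U (d, y)) x := fun x hx =>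
    (sG x hx d).comp x (contDiffAt_const.prodMk contDiffAt_id)
  have sF : ∀ x, x ≠ 0 → ContDiffAt ℝ ∞ (fun y => T (odG q A U (d, y))) x := fun x hx =>
    T.contDiff.contDiffAt.comp x (sg x hx)
  have dF : ∀ x, x ≠ 0 → ∀ v, fderiv ℝ (fun y => T (odG q A U (d, y))) x v =
      odT d (fderiv ℝ (fun y => odG q A U (d, y)) x v) := by
    intro x hx v
    have := T.hasFDerivAt.comp x ((sg x hx).differentiableAt (by simp)).hasFDerivAt
    rw [show (fun y => T (odG q A U (d, y))) = T ∘ fun y => odG q A U (d, y) from rfl, this.fderiv]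
    rfl
  have immF : ∀ x v, ‖x‖ = 1 → inner ℝ x v = 0 →
      fderiv ℝ (fun y => T (odG q A U (d, y))) x v = 0 → v = 0 := by
    intro x v hx hv h
    rw [dF x (ne x hx)] at h
    refine himm x v hx hv ?_
    rw [← od_slice ((sG x (ne x hx) d).differentiableAt (by simp))]
    exact odT_inj hd0 h
  have hal : ∀ x, x ≠ 0 → ∀ v, ∃ r : ℝ, alpha (T (odG q A U (d, x)))
      (fderiv ℝ (fun y => T (odG q A U (d, y))) x v) = r * (1 + I * d * A x (0, 0, 1)) := by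
    intro x hx v
    have hg := ((sg x hx).differentiableAt (by simp)).hasFDerivAt
    have e1 := hg.fst.unique (dq x hx).fst
    have e2 := hg.snd.fst.unique (dA x hx (0, 1, 0)).neg
    have e5 := hg.snd.snd.snd.snd.fst.unique (dq x hx).snd.snd
    have e6 := hg.snd.snd.snd.snd.snd.unique
      ((dU x hx).sub ((dq x hx).snd.fst.mul (dA x hx (0, 1, 0))))
    have f1 := congrArg (fun B => B v) e1
    have f2 := congrArg (fun B => B v) e2
    have f5 := congrArg (fun B => B v) e5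
    have f6 := congrArg (fun B => B v) e6
    simp only [ContinuousLinearMap.comp_apply, ContinuousLinearMap.coe_fst',
      ContinuousLinearMap.coe_snd', ContinuousLinearMap.neg_apply, ContinuousLinearMap.sub_apply,
      ContinuousLinearMap.add_apply, ContinuousLinearMap.smul_apply, ContinuousLinearMap.flip_apply,
      smul_eq_mul] at f1 f2 f5 f6
    rw [leg x hx, od_split (A x)] at f6
    rw [dF x hx]
    generalize fderiv ℝ (fun y => odG q A U (d, y)) x v = w at *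
    have hw : w.2.2.2.2.2 = A x (1, 0, 0) * w.1 + A x (0, 0, 1) * w.2.2.2.2.1 +
        (q x).2.1 * w.2.1 := by rw [f1, f2, f5, f6]; ring
    obtain ⟨g, hg⟩ : ∃ g, g = (A x (1, 0, 0) + (q x).2.1 * A x (0, 0, 1)) /
      (1 + d ^ 2 * A x (0, 0, 1) ^ 2) := ⟨_, rfl⟩
    have hg' : A x (1, 0, 0) = g * (1 + d ^ 2 * A x (0, 0, 1) ^ 2) - (q x).2.1 * A x (0, 0, 1) := by
      rw [hg]; field_simp; ring
    refine ⟨w.2.2.2.2.1 - ((q x).2.1 - d ^ 2 * A x (0, 0, 1) * g) * w.1 + d ^ 2 * g * w.2.1, ?_⟩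
    change (w.2.2.2.2.1 : ℂ) + I * d * w.2.2.2.2.2 - ∑ _j : Fin 1,
      ((((q x).2.1 - d ^ 2 * A x (0, 0, 1) * ((A x (1, 0, 0) + (q x).2.1 * A x (0, 0, 1)) /
        (1 + d ^ 2 * A x (0, 0, 1) ^ 2)) : ℝ) : ℂ) + I * d *
        (((A x (1, 0, 0) + (q x).2.1 * A x (0, 0, 1)) / (1 + d ^ 2 * A x (0, 0, 1) ^ 2) : ℝ) : ℂ)) *
        ((w.1 : ℂ) + I * d * w.2.1) = _
    rw [← hg, hw, hg', Fin.sum_univ_one]
    push_cast
    linear_combination (-(d : ℂ) ^ 2 * g * w.2.1) * I_sq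
  have hc0 : ∀ a : ℝ, (1 + I * d * a : ℂ) ≠ 0 := by
    intro a h
    simpa using congrArg re h
  refine ⟨fun y => T (odG q A U (d, y)), sF, fun x x' hx hx' h => hinj x x' hx hx' ?_, immF,
    fun x hx => ⟨1 + I * d * A x (0, 0, 1), hc0 _, fun v _ => hal x (ne x hx) v, ?_⟩⟩
  · apply sub_eq_zero.1
    apply odT_inj hd0
    rw [map_sub]
    exact sub_eq_zero.2 h
  · have h2 : ContDiffAt ℝ 2 (fun y => T (odG q A U (d, y))) x :=
      (sF x (ne x hx)).of_le (by norm_cast)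
    refine rank_one (fun y => T (odG q A U (d, y)))
      (fun y => 1 + I * d * ((-A y (0, 0, 1) : ℝ) : ℂ)) x hx h2 ?_ (hc0 (-A x (0, 0, 1))) ?_
      (fun v => immF x v hx)
    · refine contDiffAt_const.add (contDiffAt_const.mul ?_)
      exact ofRealCLM.contDiff.contDiffAt.comp x
        (((sA x (ne x hx)).of_le (by simp)).clm_apply contDiffAt_const).neg
    · filter_upwards [isOpen_ne.mem_nhds (ne x hx)] with y hy v
      obtain ⟨r, hr⟩ := hal y hy v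
      rw [hr]
      simp
      ring

/-- Coordinates on Euclidean four-space. -/
def odL : Euc 1 →ₗ[ℝ] C2 where
  toFun x := ((x 0 : ℂ) + I * x 1, (x 2 : ℂ) + I * x 3)
  map_add' v w := by ext <;> simp <;> ring
  map_smul' c v := by ext <;> simp <;> ring

lemma odL_norm (x : Euc 1) : ‖(odL x).1‖ ^ 2 + ‖(odL x).2‖ ^ 2 = ‖x‖ ^ 2 := by
  rw [EuclideanSpace.real_norm_sq_eq, Complex.sq_norm, Complex.sq_norm, normSq_apply, normSq_apply]
  change _ = ∑ i : Fin 4, x i ^ 2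
  rw [Fin.sum_univ_four]
  simp [odL]
  ring

lemma odL_eq_zero {x : Euc 1} (h : odL x = 0) : x = 0 := by
  have := odL_norm x
  rw [h] at this
  simpa using this.symm

lemma od_span {e : ℝ} {Z : C2} {k1 k2 : ℂ} (h : (conj k1 * k2).im ≠ 0) (B : Cov)
    (h1 : B (Jv e Z k1) = 0) (h2 : B (Jv e Z k2) = 0) (c : ℂ) : B (Jv e Z c) = 0 := by
  have hc : c = (((conj c * k2).im / (conj k1 * k2).im : ℝ) : ℂ) * k1 +
      (((conj k1 * c).im / (conj k1 * k2).im : ℝ) : ℂ) * k2 := by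
    apply Complex.ext
    · rw [add_re, re_ofReal_mul, re_ofReal_mul, div_mul_eq_mul_div, div_mul_eq_mul_div, ← add_div,
        eq_div_iff h]
      simp only [mul_im, conj_re, conj_im]; ring
    · rw [add_im, im_ofReal_mul, im_ofReal_mul, div_mul_eq_mul_div, div_mul_eq_mul_div, ← add_div,
        eq_div_iff h]
      simp only [mul_im, conj_re, conj_im]; ring
  generalize (conj c * k2).im / (conj k1 * k2).im = a at hc
  generalize (conj k1 * c).im / (conj k1 * k2).im = b at hc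
  have : Jv e Z c = a • Jv e Z k1 + b • Jv e Z k2 := by
    rw [hc]; ext <;> simp [Jv] <;> ring
  rw [this, map_add, map_smul, map_smul, h1, h2]; simp

theorem of_data {e : ℝ} (he : 0 < e) (d : Data e) : ∃ F, EPre 1 F := by
  obtain ⟨ch⟩ := exists_chart he
  let L := LinearMap.toContinuousLinearMap odL
  have ne : ∀ x : Euc 1, x ≠ 0 → L x ≠ 0 := fun x hx h => hx (odL_eq_zero h)
  have ne1 : ∀ x : Euc 1, ‖x‖ = 1 → x ≠ 0 := by
    rintro x hx rfl; simp at hx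
  have sL : ∀ x, ContDiffAt ℝ ∞ L x := fun x => L.contDiff.contDiffAt
  let q : Euc 1 → ℝ × ℝ × ℝ := fun x => ch.c (d.Pi (L x))
  have sPi : ∀ x, x ≠ 0 → ContDiffAt ℝ ∞ (fun x => d.Pi (L x)) x := fun x hx =>
    (d.sPi _ (ne x hx)).comp x (sL x)
  have sP : ∀ x, x ≠ 0 → ContDiffAt ℝ ∞ (fun x => d.P (L x)) x := fun x hx =>
    (d.sP _ (ne x hx)).comp x (sL x)
  have sq : ∀ x, x ≠ 0 → ContDiffAt ℝ ∞ q x := fun x hx =>
    (ch.sc _ (d.unit _ (ne x hx)) (d.avoid _ (ne x hx))).comp x (sPi x hx)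
  have left : ∀ x, x ≠ 0 → ch.ψ (q x) = d.Pi (L x) := fun x hx =>
    ch.left _ (d.unit _ (ne x hx)) (d.avoid _ (ne x hx))
  have sD : ContDiff ℝ ∞ (fderiv ℝ ch.ψ) := ch.sψ.fderiv_right (by simp)
  have chain : ∀ {G : Type} [NormedAddCommGroup G] [NormedSpace ℝ G] (f : C2 → G) (x v : Euc 1),
      ContDiffAt ℝ ∞ f (L x) → fderiv ℝ (fun x => f (L x)) x v = fderiv ℝ f (L x) (L v) := by
    intro G _ _ f x v hf
    have := (hf.differentiableAt (by simp)).hasFDerivAt.comp x L.hasFDerivAt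
    rw [show (fun x => f (L x)) = f ∘ L from rfl, this.fderiv]; rfl
  have dPi : ∀ x, x ≠ 0 → ∀ v, fderiv ℝ d.Pi (L x) (L v) =
      fderiv ℝ ch.ψ (q x) (fderiv ℝ q x v) := by
    intro x hx v
    rw [← chain _ _ _ (d.sPi _ (ne x hx))]
    have h1 : (fun x => d.Pi (L x)) =ᶠ[𝓝 x] ch.ψ ∘ q := by
      filter_upwards [isOpen_ne.mem_nhds hx] with y hy using (left y hy).symm
    rw [h1.fderiv_eq, ((ch.sψ.differentiable (by simp) _).hasFDerivAt.comp x
      ((sq x hx).differentiableAt (by simp)).hasFDerivAt).fderiv]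
    rfl
  refine od_abstract q (fun x => (d.P (L x)).comp (fderiv ℝ ch.ψ (q x))) (fun x => d.U (L x)) sq
    (fun x hx => (sP x hx).clm_comp (sD.contDiffAt.comp x (sq x hx)))
    (fun x hx => (d.sU _ (ne x hx)).comp x (sL x)) ?_ ?_ ?_
  · intro x hx v
    rw [chain _ _ _ (d.sU _ (ne x hx)), d.leg _ (ne x hx), dPi x hx]; rfl
  · intro x x' hx hx' h1 h2 h3 h4
    simp only [ContinuousLinearMap.comp_apply] at h3 h4
    rw [← h1, ch.d1, left x (ne1 x hx)] at h3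
    rw [← h1, ch.d2, left x (ne1 x hx)] at h4
    have := d.inj (L x) (L x') ((odL_norm x).trans (by rw [hx]; simp))
      ((odL_norm x').trans (by rw [hx']; simp))
      (by rw [← left x (ne1 x hx), ← left x' (ne1 x' hx'), h1]) h2 (fun c => sub_eq_zero.1
        (od_span (ch.ind (q x)) (d.P (L x) - d.P (L x')) (sub_eq_zero.2 h3) (sub_eq_zero.2 h4) c))
    exact sub_eq_zero.1 (odL_eq_zero (by rw [map_sub]; exact sub_eq_zero.2 this))
  · intro x v hx hv h1 h2 h3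
    have hx0 := ne1 x hx
    have hA := (((sP x hx0).differentiableAt (by simp)).hasFDerivAt.clm_comp
      ((sD.differentiable (by simp) _).hasFDerivAt.comp x
        ((sq x hx0).differentiableAt (by simp)).hasFDerivAt)).fderiv
    have hA' : fderiv ℝ (fun x => (d.P (L x)).comp (fderiv ℝ ch.ψ (q x))) x v =
        (fderiv ℝ d.P (L x) (L v)).comp (fderiv ℝ ch.ψ (q x)) := by
      rw [show (fun x => (d.P (L x)).comp (fderiv ℝ ch.ψ (q x))) =
        fun x => (d.P (L x)).comp ((fderiv ℝ ch.ψ ∘ q) x) from rfl, hA,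
        ← chain _ _ _ (d.sP _ (ne x hx0))]
      simp [h1]
    rw [hA', ContinuousLinearMap.comp_apply] at h2 h3
    rw [ch.d1, left x hx0] at h2
    rw [ch.d2, left x hx0] at h3
    obtain ⟨s, hs⟩ := d.imm (L x) (ne x hx0) (L v) (by rw [dPi x hx0, h1, map_zero])
      (od_span (ch.ind (q x)) _ h2 h3)
    have hv' : v = s • x := sub_eq_zero.1 (odL_eq_zero (by
      rw [map_sub, map_smul]; exact sub_eq_zero.2 hs))
    rw [hv', inner_smul_right, real_inner_self_eq_norm_sq, hx] at hv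
    rw [hv', show s = 0 by simpa using hv, zero_smul]

end Pool.Agent.Lib.MP_b7c8b0_gt
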