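import Pool.Agent.Lib.MP_b7c8b0_gt.Trans

open scoped ContDiff Topology ComplexConjugate
open Filter MeasureTheory Matrix

noncomputable section

namespace Pool.Agent.Lib.MP_b7c8b0_gt

variable {ι : Type} [Fintype ι] [DecidableEq ι] {n : Type} [Fintype n] [DecidableEq n]
  {t s z : ι} {l : List ι}

/-- The inverse of `zeta z`. -/
def pencilZi (z : ι) : Sm ι :=
  ⟨fun x => Complex.exp (-(2 * Real.pi * Complex.I * (xc z).1 x)),
    (Complex.contDiff_exp (𝕜 := ℝ)).comp (contDiff_const.mul (Sm.smooth (xc z))).neg⟩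

omit [DecidableEq ι] in
theorem pencilZi_mul (z : ι) : pencilZi z * zeta z = 1 := by
  ext x
  change Complex.exp (-(2 * Real.pi * Complex.I * (xc z).1 x)) *
    Complex.exp (2 * Real.pi * Complex.I * (xc z).1 x) = 1
  rw [← Complex.exp_add, neg_add_cancel, Complex.exp_zero]

omit [DecidableEq ι] in
theorem pencil_mul_aux {e : MS n ι} (he : e * e = e) {a b : Sm ι} (hab : a * b = 1) :
    (1 + (a - 1) • e) * (1 + (b - 1) • e) = (1 : MS n ι) := by
  have h1 : (a - 1) * (b - 1) + (a - 1) + (b - 1) = 0 := by linear_combination hab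
  have h2 : (1 + (a - 1) • e) * (1 + (b - 1) • e)
      = (1 : MS n ι) + ((a - 1) * (b - 1) + (a - 1) + (b - 1)) • e := by
    simp only [add_mul, mul_add, one_mul, mul_one, smul_mul_assoc, mul_smul_comm, he, smul_smul,
      add_smul, smul_add]
    rw [mul_comm (b - 1) (a - 1)]
    abel
  rw [h2, h1, zero_smul, add_zero]

theorem pencil_inv {e : MS n ι} (he : e * e = e) (z : ι) : Inv (pencil z e) :=
  Inv.of_mul (h := 1 + (pencilZi z - 1) • e)
    (pencil_mul_aux he (by rw [mul_comm]; exact pencilZi_mul z))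

theorem pencil_inv_eq {e : MS n ι} (he : e * e = e) (z : ι) :
    (pencil z e)⁻¹ = 1 + (pencilZi z - 1) • e :=
  Matrix.inv_eq_left_inv (pencil_mul_aux he (pencilZi_mul z))

/-- The algebra behind the gauge transform. -/
theorem pencil_alg {R : Type} [Ring R] {E D Z Y W : R} (hE : E * E = E)
    (hD : D * E + E * D = D) (hYZ : Y * Z = 1) (hZE : E * Z = Z * E) (hZD : D * Z = Z * D)
    (hWE : E * W = W * E) (hWY : Y * W = W * Y) :
    (1 + (Y - 1) * E) * ((E + E - 1) * D) * (1 + (Z - 1) * E)
      + (1 + (Y - 1) * E) * (W * Z * E + (Z - 1) * D) = (E + E - 1) * D + W * E := by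
  have hEDE : E * D * E = 0 := by
    have h : E * (D * E + E * D) = E * D := by rw [hD]
    rw [mul_add, ← mul_assoc, ← mul_assoc, hE] at h
    exact add_eq_right.1 h
  have hDE : D * E = D - E * D := eq_sub_of_add_eq hD
  have h1 : (1 + (Y - 1) * E) * ((E + E - 1) * D) = Y * (E * D) - D * E := by
    have : (1 + (Y - 1) * E) * ((E + E - 1) * D)
        = (E + E - 1) * D + (Y - 1) * ((E * E + E * E - E) * D) := by noncomm_ring
    rw [this, hE, hDE]; noncomm_ring
  have h2 : (Y * (E * D) - D * E) * (1 + (Z - 1) * E) = Y * (E * D) - Z * (D * E) := by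
    have a1 : E * D * ((Z - 1) * E) = 0 := by
      have : E * D * ((Z - 1) * E) = E * (D * Z) * E - E * D * E := by noncomm_ring
      rw [this, hZD, ← mul_assoc, hZE, hEDE, mul_assoc, mul_assoc, ← mul_assoc E, hEDE]
      simp
    have a2 : D * E * ((Z - 1) * E) = Z * (D * E) - D * E := by
      have : D * E * ((Z - 1) * E) = D * (E * Z) * E - D * (E * E) := by noncomm_ring
      rw [this, hZE, hE, ← mul_assoc, hZD, mul_assoc, hE, mul_assoc]
    have : (Y * (E * D) - D * E) * (1 + (Z - 1) * E)
        = Y * (E * D) - D * E + Y * (E * D * ((Z - 1) * E)) - D * E * ((Z - 1) * E) := by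
      noncomm_ring
    rw [this, a1, a2]; noncomm_ring
  have h3 : (1 + (Y - 1) * E) * (W * Z * E) = W * E := by
    have a1 : E * (W * Z * E) = W * Z * E := by
      rw [← mul_assoc, ← mul_assoc, hWE, mul_assoc W, hZE, ← mul_assoc, mul_assoc, hE]
    have : (1 + (Y - 1) * E) * (W * Z * E)
        = W * Z * E + Y * (E * (W * Z * E)) - E * (W * Z * E) := by noncomm_ring
    rw [this, a1, ← mul_assoc Y, ← mul_assoc Y, hWY, mul_assoc W Y, hYZ]; noncomm_ring
  have h4 : (1 + (Y - 1) * E) * ((Z - 1) * D) = (Z - 1) * (D * E) + (1 - Y) * (E * D) := by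
    have : (1 + (Y - 1) * E) * ((Z - 1) * D)
        = (Z - 1) * D + Y * (E * Z) * D - (E * Z) * D - Y * (E * D) + E * D := by noncomm_ring
    rw [this, hZE, ← mul_assoc Y, hYZ, hDE]; noncomm_ring
  rw [h1, h2, mul_add, h3, h4, hDE]; noncomm_ring

theorem pencil_pow {R : Type} [Ring R] {Y N : R} (h : Y * N = N * Y) (hN : N * N = 0) (m : ℕ) :
    (Y + N) ^ (m + 1) = Y ^ (m + 1) + (m + 1 : ℕ) • (N * Y ^ m) := by
  induction m with
  | zero => simp
  | succ m ih =>
    have h1 : Y * (N * Y ^ m) = N * Y ^ (m + 1) := by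
      rw [← mul_assoc, h, mul_assoc, ← pow_succ']
    have h2 : N * (N * Y ^ m) = 0 := by rw [← mul_assoc, hN, zero_mul]
    rw [pow_succ' (Y + N) (m + 1), ih, add_mul, mul_add, mul_add, mul_smul_comm, mul_smul_comm,
      h1, h2, smul_zero, add_zero, ← pow_succ', succ_nsmul _ (m + 1)]
    abel

theorem pencil_smul_one (w : Om ι) (A : MO n ι) : (w • (1 : MO n ι)) * A = w • A := by
  rw [smul_mul_M, one_mul]

/-- The odd Chern character of the pencil of an idempotent. -/
theorem Ch_pencil (m : ℕ) (hN : (t :: s :: z :: l).Nodup) {e : MS n ι} (he : e * e = e)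
    (ht : TorM [] l e) :
    Ch (m + 1) t (z :: l) (pencil z e) = (m + 1 : ℕ) * (2 * Real.pi * Complex.I) * JJ m l e := by
  have htl : t ∉ z :: l := fun h => (List.nodup_cons.1 hN).1 (List.mem_cons_of_mem _ h)
  have hsl : s ∉ z :: l := (List.nodup_cons.1 (List.nodup_cons.1 hN).2).1
  have hzl : z ∉ l := (List.nodup_cons.1 (List.nodup_cons.1 (List.nodup_cons.1 hN).2).2).1
  set E : MO n ι := fnM e with hEdef
  set D : MO n ι := dM E with hDdef
  have hE : E * E = E := by rw [hEdef, ← map_mul, he]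
  have sE : sgM E = E := sgM_fnM e
  have sD : sgM D = -D := by rw [hDdef, sgM_dM, sE]
  have hD : D * E + E * D = D := by
    have h := dM_mul E E
    rw [hE, sE] at h
    exact h.symm
  set A0 : MO n ι := (E + E - 1) * D with hA0
  have sA : sgM A0 = -A0 := by
    rw [hA0, map_mul, map_sub, map_add, map_one, sE, sD, mul_neg]
  have fA : ∀ (i : ι) (c : ℝ), faceM i c A0
      = (fnM (fSM i c e) + fnM (fSM i c e) - 1) * dM (fnM (fSM i c e)) := by
    intro i c
    rw [hA0, map_mul, map_sub, map_add, map_one, hDdef, faceM_dM, hEdef, faceM_fnM]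
  have hAdm : Adm [t, s] (z :: l) A0 := by
    refine ⟨sA, fun i hi => ?_, fun i _ => ?_⟩
    · have hil : i ∉ l := by
        intro h
        rcases List.mem_cons.1 hi with rfl | hi
        · exact htl (List.mem_cons_of_mem _ h)
        · rw [List.mem_singleton.1 hi] at h
          exact hsl (List.mem_cons_of_mem _ h)
      rw [fA, ht.fSM_not_mem (List.not_mem_nil) hil]
    · rw [fA, fA, ht.fSM_per (List.not_mem_nil)]
  rw [Ch_eq (m + 1) hN (pencil_inv he z) ht.pencil hAdm]
  set c : ℂ := 2 * Real.pi * Complex.I with hc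
  set w : Om ι := c • eps z with hw
  have sw : sg w = -w := by rw [hw, map_smul, sg_eps, smul_neg]
  have dw : dd w = 0 := by rw [hw, map_smul, dd_eps, smul_zero]
  have hcen : ∀ (f : Sm ι) (X : MO n ι), X * (fn f • (1 : MO n ι)) = (fn f • (1 : MO n ι)) * X := by
    intro f X
    rw [mul_smul_ev (sg_fn f), mul_one, pencil_smul_one]
  have hG : ∀ f : Sm ι, fnM (1 + (f - 1) • e) = 1 + (fn f • (1 : MO n ι) - 1) * E := by
    intro f
    rw [map_add, map_one, fnM_smul, map_sub, map_one, sub_mul, pencil_smul_one, one_mul, sub_smul,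
      one_smul]
  have hgauge : gauge (pencil z e) (pencil z e)⁻¹ A0 = A0 + w • E := by
    have hdG : dM (fnM (pencil z e)) = (w • (1 : MO n ι)) * (fn (zeta z) • (1 : MO n ι)) * E
        + (fn (zeta z) • (1 : MO n ι) - 1) * D := by
      rw [pencil, map_add, map_one, dM_add, dM_one, zero_add, fnM_smul, dM_smul, sg_fn, map_sub,
        map_one, map_sub, dd_one, sub_zero, dd_zeta, ← hc, mul_assoc, pencil_smul_one,
        pencil_smul_one, smul_smul, sub_mul, pencil_smul_one, one_mul, sub_smul, one_smul, hw,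
        smul_mul_assoc, fn_comm]
    rw [gauge, hdG, pencil_inv_eq he, pencil, hG, hG, ← pencil_smul_one w E]
    refine pencil_alg hE hD ?_ (hcen _ _) (hcen _ _) ?_ (hcen _ _).symm
    · rw [pencil_smul_one, smul_smul, ← map_mul, pencilZi_mul, map_one, one_smul]
    · rw [mul_smul_od sw, sE, mul_one, pencil_smul_one]
  set ν : Om ι := eps t * w with hν
  have sν : sg ν = ν := by rw [hν, map_mul, sg_eps, sw, neg_mul_neg]
  have hνν : ν * ν = 0 := by
    have h1 : w * eps t = -(eps t * w) := by rw [eps_mul, sw, neg_mul, neg_neg]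
    have h2 : ν * ν = eps t * (w * eps t) * w := by rw [hν]; noncomm_ring
    rw [h2, h1, mul_neg, ← mul_assoc, eps_sq]; simp
  have hDE : D * E = D - E * D := eq_sub_of_add_eq hD
  have hcurv : curv (lin t A0 (A0 + w • E)) = D * D + ν • E := by
    have e1 : lin t A0 (A0 + w • E) = A0 + (fn (xc t) * w) • E := by
      rw [lin, add_sub_cancel_left, smul_smul]
    have sxw : sg (fn (xc t) * w) = -(fn (xc t) * w) := by rw [map_mul, sg_fn, sw, mul_neg]
    have dxw : dd (fn (xc t) * w) = ν := by rw [dd_mul, dd_xc, dw, mul_zero, add_zero]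
    have dA : dM A0 = D * D + D * D := by
      rw [hA0, dM_mul, hDdef, dM_dM, mul_zero, add_zero, dM_sub, dM_add, dM_one, sub_zero, add_mul]
    have AA : A0 * A0 = -(D * D) := by
      have h1 : D * (E + E - 1) = -((E + E - 1) * D) := by
        rw [mul_sub, mul_add, hDE]; noncomm_ring
      have h2 : (E + E - 1) * (E + E - 1) = 1 := by
        have : (E + E - 1) * (E + E - 1)
            = E * E + E * E + E * E + E * E - E - E - E - E + 1 := by noncomm_ring
        rw [this, hE]; abel
      have h3 : A0 * A0 = (E + E - 1) * (D * (E + E - 1)) * D := by rw [hA0]; noncomm_ring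
      rw [h3, h1, mul_neg, ← mul_assoc, h2, one_mul, neg_mul]
    have EA : E * A0 = E * D := by
      have : E * A0 = (E * E + E * E - E) * D := by rw [hA0]; noncomm_ring
      rw [this, hE, add_sub_cancel_right]
    have AE : A0 * E = -(D * E) := by
      have : A0 * E = E * (D * E) + E * (D * E) - D * E := by rw [hA0]; noncomm_ring
      have h0 : E * (D * E) = 0 := by rw [hDE, mul_sub, ← mul_assoc, hE, sub_self]
      rw [this, h0]; abel
    set v : Om ι := fn (xc t) * w with hv
    have hz : (-v) • D + v • (D * E) + v • (E * D) = 0 := by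
      rw [add_assoc, ← smul_add, hD, neg_smul, neg_add_cancel]
    rw [e1, curv, dM_add, dM_smul, dxw, sxw, dA, add_mul, mul_add, mul_add, AA, mul_smul_od sxw,
      sA, neg_mul, AE, neg_neg, smul_mul_M, EA, smul_mul_M, mul_smul_od sxw, smul_smul,
      od_sq sxw, zero_smul, add_zero, ← hDdef]
    have : D * D + D * D + (ν • E + (-v) • D) + (-(D * D) + v • (D * E) + v • (E * D))
        = D * D + ν • E + ((-v) • D + v • (D * E) + v • (E * D)) := by abel
    rw [this, hz, add_zero]
  have hYE : D * D * E = E * (D * D) := by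
    have h1 : D * D * E = D * D - D * (E * D) := by rw [mul_assoc, hDE, mul_sub]
    have h2 : D * (E * D) = D * D - E * (D * D) := by
      rw [← mul_assoc, hDE, sub_mul, mul_assoc]
    rw [h1, h2, sub_sub_cancel]
  have hpow := pencil_pow (Y := D * D) (N := ν • E)
    (by rw [mul_smul_ev sν, smul_mul_M, hYE])
    (by rw [smul_mul_M, mul_smul_ev sν, smul_smul, hνν, zero_smul]) m
  have hind : Ind t (trace ((D * D) ^ (m + 1))) := by
    have htl' : t ∉ l := fun h => htl (List.mem_cons_of_mem _ h)
    have fD : faceM t 0 D = D := by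
      rw [hDdef, faceM_dM, hEdef, faceM_fnM, ht.fSM_not_mem (List.not_mem_nil) htl']
    rw [Ind, face_trace, map_pow, map_mul, fD]
  rw [hgauge, TT, ch, hcurv, hpow, trace_add, map_add, itg_ind List.mem_cons_self hind, zero_add,
    trace_smul, map_nsmul, smul_mul_M, trace_smul, smul_eq_mul, hν, mul_assoc, itg_eps htl, hw,
    smul_mul_assoc, map_smul, itg_eps hzl, JJ, pow_mul, sq, nsmul_eq_mul, smul_eq_mul,
    mul_assoc _ c]

end Pool.Agent.Lib.MP_b7c8b0_gt
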