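import Pool.Agent.Lib.MP_b7c8b0_gt.HDefs

open scoped ContDiff Topology ComplexConjugate
open Filter MeasureTheory Matrix

noncomputable section

namespace Pool.Agent.Lib.MP_b7c8b0_gt

variable {X V : Type} [NormedAddCommGroup X] [InnerProductSpace ℝ X]
  [NormedAddCommGroup V] [NormedSpace ℝ V] {k : ℕ}

/-- Smooth selection from locally solvable convex conditions. -/
lemma smooth_sel {E : Type} [NormedAddCommGroup E] [NormedSpace ℝ E] [FiniteDimensional ℝ E]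
    {t : E → Set V} (ht : ∀ x, Convex ℝ (t x))
    (h : ∀ x, ∃ g : E → V, ∀ᶠ y in 𝓝 x, ContDiffAt ℝ ∞ g y ∧ g y ∈ t y) :
    ∃ g : E → V, ContDiff ℝ ∞ g ∧ ∀ x, g x ∈ t x := by
  obtain ⟨g, hg⟩ := exists_contMDiffMap_forall_mem_convex_of_local (n := ⊤)
    (modelWithCornersSelf ℝ E) ht fun x => by
      obtain ⟨g, hg⟩ := h x
      exact ⟨_, hg, g, ContDiffOn.contMDiffOn fun y hy => hy.1.contDiffWithinAt,
        fun y hy => hy.2⟩
  exact ⟨g, g.contMDiff.contDiff, hg⟩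

lemma smooth_loc {E : Type} [TopologicalSpace E] {A : Set E} (hA : IsClosed A) {H g : E → V}
    (hH : ContinuousOn H A) (hg : Continuous g) {c : ℝ} {p : E}
    (h : p ∈ A → ‖g p - H p‖ < c * ‖H p‖) :
    ∀ᶠ q in 𝓝 p, q ∈ A → ‖g q - H q‖ ≤ c * ‖H q‖ := by
  by_cases hp : p ∈ A
  · have h1 : ContinuousWithinAt (fun q => ‖g q - H q‖) A p :=
      (hg.continuousWithinAt.sub (hH p hp)).norm
    have h2 : ContinuousWithinAt (fun q => c * ‖H q‖) A p :=
      continuousWithinAt_const.mul (hH p hp).norm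
    have := Filter.Tendsto.eventually_lt h1 h2 (h hp)
    exact (eventually_nhdsWithin_iff.1 this).mono fun q hq hqA => (hq hqA).le
  · exact (hA.isOpen_compl.eventually_mem hp).mono fun q hq hqA => absurd hqA hq

lemma smooth_cvx (P : Prop) (a : V) (c : ℝ) : Convex ℝ {w : V | P → ‖w - a‖ ≤ c} := by
  have : Convex ℝ {w : V | ‖w - a‖ ≤ c} := by
    simpa only [Metric.closedBall, dist_eq_norm] using convex_closedBall a c
  exact this.setOfPred_const_imp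

lemma smooth_cvx_eq (P : Prop) (a : V) : Convex ℝ {w : V | P → w = a} :=
  (convex_singleton a).setOfPred_const_imp

lemma smooth_avg {a u v : V} {c : ℝ} (hu : ‖u - a‖ ≤ c * ‖a‖) (hv : ‖v - -a‖ ≤ c * ‖-a‖) :
    ‖(1 / 2 : ℝ) • (u - v) - a‖ ≤ c * ‖a‖ := by
  have e : (1 / 2 : ℝ) • (u - v) - a = (1 / 2 : ℝ) • ((u - a) - (v - -a)) := by module
  rw [norm_neg] at hv
  rw [e, norm_smul, Real.norm_of_nonneg (by norm_num)]
  have := norm_sub_le (u - a) (v - -a)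
  linarith

lemma smooth_G [FiniteDimensional ℝ X] {H : ℝ × X → V}
    (hc : ContinuousOn H {q | (0 ≤ q.1 ∧ q.1 ≤ 1) ∧ ‖q.2‖ = 1})
    (hodd : ∀ s x, 0 ≤ s → s ≤ 1 → ‖x‖ = 1 → H (s, -x) = -H (s, x))
    (hne : ∀ s x, 0 ≤ s → s ≤ 1 → ‖x‖ = 1 → H (s, x) ≠ 0) :
    ∃ G : ℝ × X → V, ContDiff ℝ ∞ G ∧ (∀ s x, G (s, -x) = -G (s, x)) ∧
      ∀ s x, 0 ≤ s → s ≤ 1 → ‖x‖ = 1 → ‖G (s, x) - H (s, x)‖ ≤ 1 / 4 * ‖H (s, x)‖ := by
  have hA : IsClosed {q : ℝ × X | (0 ≤ q.1 ∧ q.1 ≤ 1) ∧ ‖q.2‖ = 1} :=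
    ((isClosed_le continuous_const continuous_fst).inter
      (isClosed_le continuous_fst continuous_const)).inter
      (isClosed_eq continuous_snd.norm continuous_const)
  obtain ⟨G, hG, hG'⟩ := smooth_sel
    (t := fun q : ℝ × X => {w | (0 ≤ q.1 ∧ q.1 ≤ 1) ∧ ‖q.2‖ = 1 → ‖w - H q‖ ≤ 1 / 4 * ‖H q‖})
    (fun q => smooth_cvx _ _ _) fun q => ⟨fun _ => H q,
      (smooth_loc hA hc (g := fun _ => H q) continuous_const (c := 1 / 4) fun hq => by
        have := norm_pos_iff.2 (hne q.1 q.2 hq.1.1 hq.1.2 hq.2)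
        rw [sub_self, norm_zero]
        positivity).mono fun y hy => ⟨contDiffAt_const, hy⟩⟩
  refine ⟨fun q => (1 / 2 : ℝ) • (G q - G (q.1, -q.2)),
    (hG.sub (hG.comp (contDiff_fst.prodMk contDiff_snd.neg))).const_smul _, fun s x => ?_,
    fun s x h0 h1 hx => smooth_avg (hG' (s, x) ⟨⟨h0, h1⟩, hx⟩) ?_⟩
  · simp only [neg_neg]
    module
  · rw [← hodd s x h0 h1 hx]
    exact hG' (s, -x) ⟨⟨h0, h1⟩, by simpa using hx⟩

/-- Maps that agree on the sphere have the same tangential derivatives. -/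
lemma smooth_tan {F K : ℝ × X × YY k → V} {p v : ℝ × X × YY k} (hp : ‖p.2.1‖ = 1)
    (hv : inner ℝ p.2.1 v.2.1 = 0) (hF : DifferentiableAt ℝ F p) (hK : DifferentiableAt ℝ K p)
    (h : ∀ᶠ q in 𝓝 p, ‖q.2.1‖ = 1 → F q = K q) : fderiv ℝ F p v = fderiv ℝ K p v := by
  obtain ⟨s, x, y⟩ := p
  obtain ⟨a, w, b⟩ := v
  simp only at hp hv
  have hid := hasDerivAt_id' (0 : ℝ)
  have c1 : HasDerivAt (fun t : ℝ => 1 + t * t * ‖w‖ ^ 2) 0 0 := by
    simpa using ((hid.fun_mul hid).mul_const (‖w‖ ^ 2)).const_add 1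
  have c2 : HasDerivAt (fun t : ℝ => (√(1 + t * t * ‖w‖ ^ 2))⁻¹) 0 0 := by
    simpa using (c1.sqrt (by simp)).fun_inv (by simp)
  have c3 : HasDerivAt (fun t : ℝ => (√(1 + t * t * ‖w‖ ^ 2))⁻¹ • (x + t • w)) w 0 := by
    simpa using c2.fun_smul ((hid.smul_const w).const_add x)
  have c4 : HasDerivAt (fun t : ℝ => s + t * a) a 0 := by
    simpa using (hid.mul_const a).const_add s
  have c5 : HasDerivAt (fun t : ℝ => y + t • b) b 0 := by
    simpa using (hid.smul_const b).const_add y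
  have c6 := c4.prodMk (c3.prodMk c5)
  set γ : ℝ → ℝ × X × YY k := fun t =>
    (s + t * a, (√(1 + t * t * ‖w‖ ^ 2))⁻¹ • (x + t • w), y + t • b) with hγ
  have g0 : γ 0 = (s, x, y) := by simp [hγ]
  have gn : ∀ t, ‖(γ t).2.1‖ = 1 := by
    intro t
    have e : ‖x + t • w‖ ^ 2 = 1 + t * t * ‖w‖ ^ 2 := by
      rw [norm_add_sq_real, inner_smul_right, hv, hp, norm_smul, mul_pow, Real.norm_eq_abs,
        sq_abs]
      ring
    have hpos : 0 < 1 + t * t * ‖w‖ ^ 2 := by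
      have := mul_self_nonneg t
      positivity
    have e2 : √(1 + t * t * ‖w‖ ^ 2) = ‖x + t • w‖ := by
      rw [← e, Real.sqrt_sq (norm_nonneg _)]
    have e3 : ‖x + t • w‖ ≠ 0 := by
      rw [← e2]
      exact (Real.sqrt_pos.2 hpos).ne'
    simp only [hγ]
    rw [e2, norm_smul, norm_inv, norm_norm, inv_mul_cancel₀ e3]
  have d1 : HasDerivAt (F ∘ γ) (fderiv ℝ F (s, x, y) (a, w, b)) 0 :=
    HasFDerivAt.comp_hasDerivAt_of_eq 0 hF.hasFDerivAt c6 g0.symm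
  have d2 : HasDerivAt (K ∘ γ) (fderiv ℝ K (s, x, y) (a, w, b)) 0 :=
    HasFDerivAt.comp_hasDerivAt_of_eq 0 hK.hasFDerivAt c6 g0.symm
  have ht : Tendsto γ (𝓝 0) (𝓝 (s, x, y)) := g0 ▸ c6.continuousAt.tendsto
  exact d1.unique (d2.congr_of_eventuallyEq ((ht.eventually h).mono fun t h => h (gn t)))

lemma smooth_out_closed : IsClosed {y : YY k | Out y} := by
  have : {y : YY k | Out y} = ⋃ i, ({y | y i ≤ 1 / 4} ∪ {y | 3 / 4 ≤ y i}) := by
    ext y
    simp [Out]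
  rw [this]
  exact isClosed_iUnion_of_finite fun i =>
    (isClosed_le (continuous_apply i) continuous_const).union
      (isClosed_le continuous_const (continuous_apply i))

/-- Smoothing of a homotopy between parameter free odd maps. -/
theorem exists_smZ [FiniteDimensional ℝ X] [FiniteDimensional ℝ V] (hk : 0 < k) {f g : X → V}
    {r : ℕ} (H : HomZ (k := k) (fun x _ => f x) (fun x _ => g x) r) :
    ∃ (G : ℝ × X → V) (D : ℝ × X × YY k → V) (Z : Finset (ℝ × X × YY k)),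
      SmZ G D Z ∧ Z.card = 2 * r := by
  obtain ⟨H, Z, h, hZ⟩ := H
  have o0 : Out (0 : YY k) := ⟨⟨0, hk⟩, Or.inl (by norm_num)⟩
  have hne : ∀ s x, 0 ≤ s → s ≤ 1 → ‖x‖ = 1 → H (s, x, 0) ≠ 0 := fun s x h0 h1 hx c =>
    (h.reg _ ((h.mem (s, x, 0)).2 ⟨⟨⟨h0, h1⟩, hx⟩, c⟩)).2.2.1 o0
  obtain ⟨G, G1, G2, G3⟩ := smooth_G (H := fun q : ℝ × X => H (q.1, q.2, 0))
    (h.cont.comp (f := fun q : ℝ × X => (q.1, q.2, (0 : YY k))) (by fun_prop) fun q hq => hq)
    (fun s x => h.odd s x 0) hne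
  set A : Set (ℝ × X × YY k) := {p | (0 ≤ p.1 ∧ p.1 ≤ 1) ∧ ‖p.2.1‖ = 1} with hA
  set C : Set (ℝ × X × YY k) := {p | p.1 ≤ 0 ∨ 1 ≤ p.1 ∨ Out p.2.2} with hC
  have hAc : IsClosed A :=
    ((isClosed_le continuous_const continuous_fst).inter
      (isClosed_le continuous_fst continuous_const)).inter
      (isClosed_eq continuous_snd.fst.norm continuous_const)
  have hCc : IsClosed C :=
    (isClosed_le continuous_fst continuous_const).union
      ((isClosed_le continuous_const continuous_fst).union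
        (smooth_out_closed.preimage continuous_snd.snd))
  have G4 : ContDiff ℝ ∞ fun q : ℝ × X × YY k => G (q.1, q.2.1) :=
    G1.comp (contDiff_fst.prodMk contDiff_snd.fst)
  have hAC : ∀ p ∈ A, p ∈ C → H p = H (p.1, p.2.1, 0) := by
    rintro ⟨s, x, y⟩ ⟨⟨h0, h1⟩, hx⟩ (c | c | c)
    · obtain rfl : s = 0 := le_antisymm c h0
      rw [h.zero x y hx, h.zero x 0 hx]
    · obtain rfl : s = 1 := le_antisymm h1 c
      rw [h.one x y hx, h.one x 0 hx]
    · exact h.out s x y h0 h1 hx c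
  have hO : {p | p ∉ C ∧ ∃ K : ℝ × X × YY k → V,
      ∀ᶠ q in 𝓝 p, ContDiffAt ℝ ∞ K q ∧ (‖q.2.1‖ = 1 → H q = K q)} ∈
      𝓝ˢ (Z : Set (ℝ × X × YY k)) := by
    refine mem_nhdsSet_iff_forall.2 fun z hz => ?_
    obtain ⟨h0, h1, h2, U, hU, K, hK, hHK, -⟩ := h.reg z hz
    have a1 : z ∉ C := by
      rintro (c | c | c)
      · exact absurd h0 (not_lt.2 c)
      · exact absurd h1 (not_lt.2 c)
      · exact h2 c
    have a2 : ∀ᶠ q in 𝓝 z, ContDiffAt ℝ ∞ K q ∧ (‖q.2.1‖ = 1 → H q = K q) :=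
      (eventually_mem_nhds_iff.2 hU).mono fun q hq =>
        ⟨hK.contDiffAt hq, hHK q (mem_of_mem_nhds hq)⟩
    exact ((hCc.isOpen_compl.eventually_mem a1).and a2.eventually_nhds).mono fun q hq =>
      ⟨hq.1, K, hq.2⟩
  obtain ⟨N, hN, hNc, hNO⟩ := exists_mem_nhdsSet_isClosed_subset hO Z.finite_toSet.isClosed
  obtain ⟨F, F1, F2⟩ := smooth_sel
    (t := fun p : ℝ × X × YY k => {w | p ∈ C → w = G (p.1, p.2.1)} ∩
      ({w | p ∈ A → ‖w - H p‖ ≤ 1 / 2 * ‖H p‖} ∩ {w | p ∈ A ∩ N → w = H p}))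
    (fun p => (smooth_cvx_eq _ _).inter ((smooth_cvx _ _ _).inter (smooth_cvx_eq _ _)))
    fun p => by
      by_cases pN : p ∈ N
      · obtain ⟨pC, K, hK⟩ := hNO pN
        refine ⟨K, ((hCc.isOpen_compl.eventually_mem pC).and hK).mono fun q hq =>
          ⟨hq.2.1, fun c => absurd c hq.1, fun c => ?_, fun c => (hq.2.2 c.1.2).symm⟩⟩
        rw [← hq.2.2 c.2, sub_self, norm_zero]
        positivity
      have pN' := hNc.isOpen_compl.eventually_mem pN
      by_cases pC : p ∈ C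
      · refine ⟨fun q => G (q.1, q.2.1), (pN'.and (smooth_loc hAc h.cont G4.continuous
          (c := 1 / 2) fun pA => ?_)).mono fun q hq =>
          ⟨G4.contDiffAt, fun _ => rfl, hq.2, fun c => absurd c.2 hq.1⟩⟩
        have a1 := G3 p.1 p.2.1 pA.1.1 pA.1.2 pA.2
        have a2 := norm_pos_iff.2 (hne p.1 p.2.1 pA.1.1 pA.1.2 pA.2)
        rw [hAC p pA pC]
        simp only at a1
        linarith
      · refine ⟨fun _ => H p, ((pN'.and (hCc.isOpen_compl.eventually_mem pC)).and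
          (smooth_loc hAc h.cont (g := fun _ => H p) continuous_const
          (c := 1 / 2) fun pA => ?_)).mono fun q hq =>
          ⟨contDiffAt_const, fun c => absurd c hq.1.2, hq.2, fun c => absurd c.2 hq.1.1⟩⟩
        have a2 : 0 < ‖H p‖ := norm_pos_iff.2 fun c =>
          pN (subset_of_mem_nhdsSet hN ((h.mem p).2 ⟨pA, c⟩))
        rw [sub_self, norm_zero]
        positivity
  have τc : ContDiff ℝ ∞ fun q : ℝ × X × YY k => (q.1, -q.2.1, q.2.2) :=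
    contDiff_fst.prodMk (contDiff_snd.fst.neg.prodMk contDiff_snd.snd)
  have τA : ∀ p ∈ A, (p.1, -p.2.1, p.2.2) ∈ A := fun p hp => ⟨hp.1, by simpa using hp.2⟩
  have τH : ∀ p ∈ A, H (p.1, -p.2.1, p.2.2) = -H p := fun p hp =>
    h.odd p.1 p.2.1 p.2.2 hp.1.1 hp.1.2 hp.2
  set F' : ℝ × X × YY k → V := fun q => (1 / 2 : ℝ) • (F q - F (q.1, -q.2.1, q.2.2)) with hF'
  have F3 : ContDiff ℝ ∞ F' := (F1.sub (F1.comp τc)).const_smul _
  have F4 : ∀ p ∈ A, ‖F' p - H p‖ ≤ 1 / 2 * ‖H p‖ := fun p hp =>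
    smooth_avg ((F2 p).2.1 hp) (by
      rw [← τH p hp]
      exact (F2 _).2.1 (τA p hp))
  have e : (fun q : ℝ × X × YY k => G (q.1, q.2.1) + (F' q - G (q.1, q.2.1))) = F' := by
    funext q
    abel
  refine ⟨G, fun q => F' q - G (q.1, q.2.1), Z, ⟨G1, F3.sub G4, G2, fun s x y => ?_,
    fun s x y c => ?_, fun s x h0 h1 hx c => ?_, fun p => ?_, fun p hp v hv hd => ?_⟩, hZ⟩
  · simp only [hF', neg_neg, G2]
    module
  · have a1 : F (s, x, y) = G (s, x) := (F2 (s, x, y)).1 c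
    have a2 : F (s, -x, y) = G (s, -x) := (F2 (s, -x, y)).1 c
    simp only [hF', a1, a2, G2]
    module
  · have a1 := G3 s x h0 h1 hx
    have a2 := norm_pos_iff.2 (hne s x h0 h1 hx)
    simp only [c, zero_sub, norm_neg] at a1
    linarith
  · rw [h.mem p, congrFun e p]
    refine and_congr_right fun hp => ⟨fun c => ?_, fun c => ?_⟩
    · simpa [c] using F4 p hp
    · have a1 := F4 p hp
      rw [c, zero_sub, norm_neg] at a1
      exact norm_le_zero_iff.1 (by linarith)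
  · rw [e] at hd
    obtain ⟨h0, h1, -, U, hU, K, hK, hHK, hreg⟩ := h.reg p hp
    obtain ⟨pA, pH⟩ := (h.mem p).1 hp
    refine hreg v hv ?_
    rw [← hd]
    symm
    refine smooth_tan pA.2 hv (F3.differentiable (by simp) p)
      ((hK.contDiffAt hU).differentiableAt (by simp)) ?_
    have n1 : N ∈ 𝓝 p := mem_nhdsSet_iff_forall.1 hN p hp
    have n2 : N ∈ 𝓝 (p.1, -p.2.1, p.2.2) := mem_nhdsSet_iff_forall.1 hN _
      ((h.mem _).2 ⟨τA p pA, by rw [τH p pA, pH, neg_zero]⟩)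
    have n3 := (τc.continuous.tendsto p).eventually n2
    have n4 := continuous_fst.continuousAt.eventually (Icc_mem_nhds h0 h1)
    filter_upwards [hU, n1, n3, n4] with q q1 q2 q3 q4 q5
    have qA : q ∈ A := ⟨q4, q5⟩
    have a1 : F q = H q := (F2 q).2.2 ⟨qA, q2⟩
    have a2 : F (q.1, -q.2.1, q.2.2) = H (q.1, -q.2.1, q.2.2) := (F2 _).2.2 ⟨τA q qA, q3⟩
    rw [← hHK q q1 q5]
    simp only [hF', a1, a2, τH q qA]
    module

end Pool.Agent.Lib.MP_b7c8b0_gt
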