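import Pool.Agent.Lib.MP_b7c8b0_gt.ADefs

/-! Logarithmic coordinates on the source and gluing along the two cores. -/

open scoped ContDiff ComplexConjugate Topology
open Complex Filter

noncomputable section

namespace Pool.Agent.Lib.MP_b7c8b0_gt

def srcT (l : C2) : ℝ := 2 * (l.1.re - l.2.re)

def srcW (Φ : ℝ → ℝ) (l : C2) : C2 :=
  (exp (((Φ (srcT l) / 2 : ℝ) : ℂ) + (((l.1.im + l.2.im) / 2 : ℝ) : ℂ) * I),
    exp ((((l.2.im - l.1.im) / 2 : ℝ) : ℂ) * I))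

def srcE (Φ : ℝ → ℝ) (l : C2) : C2 × ℝ := (srcW Φ l, srcT l)

def srcX (l : C2) : C2 := (exp l.1, exp l.2)

def srcL (z : C2) : C2 := (log z.1, log z.2)

theorem srcX_srcL {z : C2} (h1 : z.1 ≠ 0) (h2 : z.2 ≠ 0) : srcX (srcL z) = z :=
  Prod.ext (exp_log h1) (exp_log h2)

theorem src_norm1 (Φ : ℝ → ℝ) (l : C2) : ‖(srcW Φ l).1‖ = Real.exp (Φ (srcT l) / 2) := by
  simp [srcW, norm_exp]

theorem src_norm2 (Φ : ℝ → ℝ) (l : C2) : ‖(srcW Φ l).2‖ = 1 := norm_exp_ofReal_mul_I _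

theorem src_con (Φ : ℝ → ℝ) (l : C2) : Con Φ (srcW Φ l) (srcT l) := by
  refine ⟨exp_ne_zero _, exp_ne_zero _, ?_⟩
  rw [src_norm1, src_norm2, one_pow, div_one, Real.log_pow, Real.log_exp]
  push_cast
  ring

theorem src_per (Φ : ℝ → ℝ) {l l' : C2} (h : srcX l' = srcX l) :
    srcT l' = srcT l ∧ ∃ s : ℝ, s ≠ 0 ∧ srcW Φ l' = s • srcW Φ l := by
  obtain ⟨n, hn⟩ := exp_eq_exp_iff_exists_int.mp (congrArg Prod.fst h)
  obtain ⟨m, hm⟩ := exp_eq_exp_iff_exists_int.mp (congrArg Prod.snd h)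
  have hT : srcT l' = srcT l := by simp [srcT, hn, hm]
  have h1 : l'.1.im = l.1.im + n * (2 * Real.pi) := by simp [hn]
  have h2 : l'.2.im = l.2.im + m * (2 * Real.pi) := by simp [hm]
  have hs : (((-1 : ℝ) ^ (n + m) : ℝ) : ℂ) = exp (((n + m : ℤ) : ℂ) * (Real.pi * I)) := by
    rw [exp_int_mul, exp_pi_mul_I]
    push_cast
    rfl
  refine ⟨hT, (-1) ^ (n + m), zpow_ne_zero _ (by norm_num), Prod.ext ?_ ?_⟩
  · simp only [srcW, Prod.smul_fst, real_smul]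
    rw [hs, ← exp_add, hT, h1, h2]
    refine congrArg exp ?_
    push_cast
    ring
  · simp only [srcW, Prod.smul_snd, real_smul]
    rw [hs, ← exp_add, h1, h2]
    refine exp_eq_exp_iff_exists_int.mpr ⟨-n, ?_⟩
    push_cast
    ring

theorem src_XY (Φ : ℝ → ℝ) (l : C2) : (srcW Φ l).1 * (srcW Φ l).2 =
    (Real.exp (Φ (srcT l) / 2 - l.2.re) : ℝ) * exp l.2 := by
  simp only [srcW]
  rw [ofReal_exp, ← exp_add, ← exp_add]
  refine congrArg exp (Complex.ext ?_ ?_) <;> simp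
  ring

theorem src_XcY (Φ : ℝ → ℝ) (l : C2) : (srcW Φ l).1 * conj (srcW Φ l).2 =
    (Real.exp (Φ (srcT l) / 2 - l.1.re) : ℝ) * exp l.1 := by
  simp only [srcW]
  rw [ofReal_exp, ← exp_conj, ← exp_add, ← exp_add, map_mul, conj_ofReal, conj_I]
  refine congrArg exp (Complex.ext ?_ ?_) <;> simp
  ring

theorem src_inj (Φ : ℝ → ℝ) {l l' : C2} (h : ‖exp l.1‖ ^ 2 + ‖exp l.2‖ ^ 2 = 1)
    (h' : ‖exp l'.1‖ ^ 2 + ‖exp l'.2‖ ^ 2 = 1) (hT : srcT l = srcT l') {s : ℝ}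
    (hs : srcW Φ l' = s • srcW Φ l) : srcX l = srcX l' := by
  have hs2 : (s : ℂ) * s = 1 := by
    have h1 := src_norm2 Φ l'
    rw [hs, Prod.smul_snd, norm_smul, src_norm2, mul_one, Real.norm_eq_abs] at h1
    have h2 : s * s = 1 := by rw [← abs_mul_abs_self, h1, one_mul]
    exact_mod_cast h2
  rw [norm_exp, norm_exp] at h h'
  have hd : l.1.re = l.2.re + (l'.1.re - l'.2.re) := by
    unfold srcT at hT
    linarith
  have h2 : l.2.re = l'.2.re := by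
    have e1 : Real.exp l.1.re = Real.exp l.2.re * Real.exp (l'.1.re - l'.2.re) := by
      rw [← Real.exp_add, ← hd]
    have e2 : Real.exp l'.1.re = Real.exp l'.2.re * Real.exp (l'.1.re - l'.2.re) := by
      rw [← Real.exp_add, add_sub_cancel]
    rw [e1] at h
    rw [e2] at h'
    have e3 : Real.exp l.2.re ^ 2 * (Real.exp (l'.1.re - l'.2.re) ^ 2 + 1) =
        Real.exp l'.2.re ^ 2 * (Real.exp (l'.1.re - l'.2.re) ^ 2 + 1) := by linarith
    have e4 := mul_right_cancel₀ (by positivity) e3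
    exact Real.exp_injective
      ((pow_left_inj₀ (Real.exp_pos _).le (Real.exp_pos _).le two_ne_zero).mp e4)
  have h1 : l.1.re = l'.1.re := by linarith
  have a1 := src_XcY Φ l'
  have a2 := src_XY Φ l'
  rw [hs, ← hT] at a1 a2
  simp only [Prod.smul_fst, Prod.smul_snd, real_smul, map_mul, conj_ofReal] at a1 a2
  rw [mul_mul_mul_comm, hs2, one_mul] at a1 a2
  rw [src_XcY, h1] at a1
  rw [src_XY, h2] at a2
  exact Prod.ext (mul_left_cancel₀ (ofReal_ne_zero.mpr (Real.exp_ne_zero _)) a1)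
    (mul_left_cancel₀ (ofReal_ne_zero.mpr (Real.exp_ne_zero _)) a2)

theorem src_smoothE {Φ : ℝ → ℝ} (hΦ : ContDiff ℝ ∞ Φ) : ContDiff ℝ ∞ (srcE Φ) := by
  have r1 : ContDiff ℝ ∞ fun l : C2 => l.1.re := reCLM.contDiff.comp contDiff_fst
  have r2 : ContDiff ℝ ∞ fun l : C2 => l.2.re := reCLM.contDiff.comp contDiff_snd
  have i1 : ContDiff ℝ ∞ fun l : C2 => l.1.im := imCLM.contDiff.comp contDiff_fst
  have i2 : ContDiff ℝ ∞ fun l : C2 => l.2.im := imCLM.contDiff.comp contDiff_snd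
  have hT : ContDiff ℝ ∞ srcT := contDiff_const.mul (r1.sub r2)
  refine ContDiff.prodMk (ContDiff.prodMk ?_ ?_) hT
  · exact ((ofRealCLM.contDiff.comp ((hΦ.comp hT).div_const 2)).add
      ((ofRealCLM.contDiff.comp ((i1.add i2).div_const 2)).mul contDiff_const)).cexp
  · exact ((ofRealCLM.contDiff.comp ((i2.sub i1).div_const 2)).mul contDiff_const).cexp

theorem src_smoothX : ContDiff ℝ ∞ srcX := contDiff_fst.cexp.prodMk contDiff_snd.cexp

theorem src_line {E F : Type} [NormedAddCommGroup E] [NormedSpace ℝ E] [NormedAddCommGroup F]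
    [NormedSpace ℝ F] {f : E → F} {x u : E} {w : F} (hf : DifferentiableAt ℝ f x)
    (h : HasDerivAt (fun s : ℝ => f (x + s • u)) w 0) : fderiv ℝ f x u = w :=
  (hf.hasFDerivAt.hasLineDerivAt u).unique h

theorem src_line1 (z v : C2) : HasDerivAt (fun s : ℝ => (z + s • v).1) v.1 0 := by
  simpa using ((hasDerivAt_id (0 : ℝ)).smul_const v.1).const_add z.1

theorem src_line2 (z v : C2) : HasDerivAt (fun s : ℝ => (z + s • v).2) v.2 0 := by
  simpa using ((hasDerivAt_id (0 : ℝ)).smul_const v.2).const_add z.2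

theorem src_dX (l u : C2) : fderiv ℝ srcX l u = (exp l.1 * u.1, exp l.2 * u.2) := by
  refine src_line (src_smoothX.differentiable (by simp) l) ?_
  simpa [srcX] using (src_line1 l u).cexp.prodMk (src_line2 l u).cexp

theorem src_dE {Φ : ℝ → ℝ} (hΦ : ContDiff ℝ ∞ Φ) (l u : C2) : fderiv ℝ (srcE Φ) l u =
    (((srcW Φ l).1 * (((deriv Φ (srcT l) * srcT u / 2 : ℝ) : ℂ) +
        (((u.1.im + u.2.im) / 2 : ℝ) : ℂ) * I),
      (srcW Φ l).2 * ((((u.2.im - u.1.im) / 2 : ℝ) : ℂ) * I)), srcT u) := by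
  refine src_line ((src_smoothE hΦ).differentiable (by simp) l) ?_
  have r1 : HasDerivAt (fun s : ℝ => (l + s • u).1.re) u.1.re 0 :=
    reCLM.hasFDerivAt.comp_hasDerivAt 0 (src_line1 l u)
  have r2 : HasDerivAt (fun s : ℝ => (l + s • u).2.re) u.2.re 0 :=
    reCLM.hasFDerivAt.comp_hasDerivAt 0 (src_line2 l u)
  have i1 : HasDerivAt (fun s : ℝ => (l + s • u).1.im) u.1.im 0 :=
    imCLM.hasFDerivAt.comp_hasDerivAt 0 (src_line1 l u)
  have i2 : HasDerivAt (fun s : ℝ => (l + s • u).2.im) u.2.im 0 :=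
    imCLM.hasFDerivAt.comp_hasDerivAt 0 (src_line2 l u)
  have hT : HasDerivAt (fun s : ℝ => srcT (l + s • u)) (srcT u) 0 := (r1.sub r2).const_mul 2
  have hP : HasDerivAt (fun s : ℝ => Φ (srcT (l + s • u))) (deriv Φ (srcT l) * srcT u) 0 :=
    HasDerivAt.comp_of_eq 0 (hΦ.differentiable (by simp) (srcT l)).hasDerivAt hT (by simp)
  have e1 := (((hP.div_const 2).ofReal_comp).add
    (((i1.add i2).div_const 2).ofReal_comp.mul_const I)).cexp
  have e2 := ((((i2.sub i1).div_const 2).ofReal_comp).mul_const I).cexp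
  have e3 := (e1.prodMk e2).prodMk hT
  simp only [Pi.add_apply, Pi.sub_apply, zero_smul, add_zero] at e3
  exact e3

theorem src_dLog (W : C2) (h1 : W.1 ≠ 0) (h2 : W.2 ≠ 0) (a b c : ℝ) :
    dLog W (W.1 * ((a / 2 : ℝ) + (b : ℂ) * I), W.2 * ((c : ℂ) * I)) = a := by
  have n1 : ‖W.1‖ ≠ 0 := norm_ne_zero_iff.mpr h1
  have n2 : ‖W.2‖ ≠ 0 := norm_ne_zero_iff.mpr h2
  simp only [dLog]
  rw [← mul_assoc, ← mul_assoc, conj_mul', conj_mul', ← ofReal_pow, ← ofReal_pow, re_ofReal_mul,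
    re_ofReal_mul]
  simp
  field_simp

theorem src_ker (W u : C2) (h1 : W.1 ≠ 0) (h2 : W.2 ≠ 0) (a : ℝ) (hT : srcT u = 0) {s : ℝ}
    (h : (W.1 * (((a * srcT u / 2 : ℝ) : ℂ) + (((u.1.im + u.2.im) / 2 : ℝ) : ℂ) * I),
      W.2 * ((((u.2.im - u.1.im) / 2 : ℝ) : ℂ) * I)) = s • W) :
    ∃ σ : ℝ, u = ((σ : ℂ), (σ : ℂ)) := by
  have e1 := congrArg Prod.fst h
  have e2 := congrArg Prod.snd h
  simp only [Prod.smul_fst, Prod.smul_snd, real_smul] at e1 e2
  rw [mul_comm] at e1 e2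
  have e3 := congrArg im (mul_right_cancel₀ h1 e1)
  have e4 := congrArg im (mul_right_cancel₀ h2 e2)
  simp only [add_im, ofReal_im, mul_im, ofReal_re, I_im, I_re] at e3 e4
  unfold srcT at hT
  refine ⟨u.1.re, Prod.ext (Complex.ext rfl ?_) (Complex.ext ?_ ?_)⟩ <;>
    simp only [ofReal_im, ofReal_re] <;> linarith

section glue

variable {α : Type}

open Classical in
/-- Gluing of the values on the two cores and on the double cover. -/
def srcG (Φ : ℝ → ℝ) (f1 f2 : C2 → α) (f : C2 × ℝ → α) (z : C2) : α :=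
  if z.1 = 0 then f1 z else if z.2 = 0 then f2 z else f (srcE Φ (srcL z))

variable {Φ : ℝ → ℝ} {f1 f2 : C2 → α} {f : C2 × ℝ → α}

theorem srcG_core1 {z : C2} (h : z.1 = 0) : srcG Φ f1 f2 f z = f1 z := if_pos h

theorem srcG_core2 {z : C2} (h1 : z.1 ≠ 0) (h : z.2 = 0) : srcG Φ f1 f2 f z = f2 z := by
  rw [srcG, if_neg h1, if_pos h]

theorem srcG_off {z : C2} (h1 : z.1 ≠ 0) (h2 : z.2 ≠ 0) :
    srcG Φ f1 f2 f z = f (srcE Φ (srcL z)) := by
  rw [srcG, if_neg h1, if_neg h2]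

theorem srcG_X (hom : ∀ W t, Con Φ W t → ∀ s : ℝ, s ≠ 0 → f (s • W, t) = f (W, t)) (l : C2) :
    srcG Φ f1 f2 f (srcX l) = f (srcE Φ l) := by
  have h1 : (srcX l).1 ≠ 0 := exp_ne_zero _
  have h2 : (srcX l).2 ≠ 0 := exp_ne_zero _
  obtain ⟨hT, s, hs, hW⟩ := src_per Φ (srcX_srcL h1 h2)
  rw [srcG_off h1 h2, srcE, hT, hW, hom _ _ (src_con Φ l) s hs, srcE]

theorem src_log_le {a b : ℂ} {T : ℝ} (ha : a ≠ 0) (h : ‖a‖ < Real.exp (-T / 2) * ‖b‖) :
    b ≠ 0 ∧ 2 * ((log a).re - (log b).re) ≤ -T := by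
  have hb : b ≠ 0 := by
    rintro rfl
    rw [norm_zero, mul_zero] at h
    exact absurd h (not_lt.mpr (norm_nonneg _))
  have h1 := Real.log_le_log (norm_pos_iff.mpr ha) h.le
  rw [Real.log_mul (Real.exp_ne_zero _) (norm_ne_zero_iff.mpr hb), Real.log_exp] at h1
  rw [log_re, log_re]
  exact ⟨hb, by linarith⟩

theorem srcG_near1 {T : ℝ} (far : ∀ l, srcT l ≤ -T → f (srcE Φ l) = f1 (srcX l)) {z : C2}
    (h1 : z.1 = 0) (h2 : z.2 ≠ 0) : srcG Φ f1 f2 f =ᶠ[𝓝 z] f1 := by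
  have ev : ∀ᶠ w : C2 in 𝓝 z, ‖w.1‖ < Real.exp (-T / 2) * ‖w.2‖ := by
    refine ContinuousAt.eventually_lt (by fun_prop) (by fun_prop) ?_
    rw [h1, norm_zero]
    exact mul_pos (Real.exp_pos _) (norm_pos_iff.mpr h2)
  filter_upwards [ev] with w hw
  by_cases hw1 : w.1 = 0
  · exact srcG_core1 hw1
  · obtain ⟨hw2, hT⟩ := src_log_le hw1 hw
    rw [srcG_off hw1 hw2, far (srcL w) hT, srcX_srcL hw1 hw2]

theorem srcG_near2 {T : ℝ} (far : ∀ l, T ≤ srcT l → f (srcE Φ l) = f2 (srcX l)) {z : C2}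
    (h1 : z.1 ≠ 0) (h2 : z.2 = 0) : srcG Φ f1 f2 f =ᶠ[𝓝 z] f2 := by
  have ev : ∀ᶠ w : C2 in 𝓝 z, ‖w.2‖ < Real.exp (-T / 2) * ‖w.1‖ := by
    refine ContinuousAt.eventually_lt (by fun_prop) (by fun_prop) ?_
    rw [h2, norm_zero]
    exact mul_pos (Real.exp_pos _) (norm_pos_iff.mpr h1)
  have ev' : ∀ᶠ w : C2 in 𝓝 z, w.1 ≠ 0 := continuous_fst.continuousAt.eventually_ne h1
  filter_upwards [ev, ev'] with w hw hw1
  by_cases hw2 : w.2 = 0
  · exact srcG_core2 hw1 hw2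
  · have hT := (src_log_le hw2 hw).2
    rw [srcG_off hw1 hw2, far _ (by unfold srcT srcL; linarith), srcX_srcL hw1 hw2]

variable [NormedAddCommGroup α] [NormedSpace ℝ α]

theorem srcG_smooth (hΦ : ContDiff ℝ ∞ Φ)
    (hom : ∀ W t, Con Φ W t → ∀ s : ℝ, s ≠ 0 → f (s • W, t) = f (W, t))
    (hf : ∀ W t, Con Φ W t → ContDiffAt ℝ ∞ f (W, t)) (l : C2) :
    ContDiffAt ℝ ∞ (srcG Φ f1 f2 f) (srcX l) := by
  let g : C2 → C2 := fun z => (l.1 + log (z.1 / exp l.1), l.2 + log (z.2 / exp l.2))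
  have hlog : ContDiffAt ℝ ∞ log 1 := (contDiffAt_log one_mem_slitPlane).restrict_scalars ℝ
  have hg : ContDiffAt ℝ ∞ g (srcX l) := by
    refine ContDiffAt.prodMk (contDiffAt_const.add ?_) (contDiffAt_const.add ?_)
    · exact ContDiffAt.comp (g := log) _ (by simpa [srcX] using hlog) (contDiffAt_fst.div_const _)
    · exact ContDiffAt.comp (g := log) _ (by simpa [srcX] using hlog) (contDiffAt_snd.div_const _)
  have hgl : g (srcX l) = l := by simp [g, srcX]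
  have h1 : ContDiffAt ℝ ∞ (fun z => f (srcE Φ (g z))) (srcX l) := by
    refine ContDiffAt.comp (g := f) _ ?_ ((src_smoothE hΦ).contDiffAt.comp _ hg)
    rw [hgl]
    exact hf _ _ (src_con Φ l)
  refine h1.congr_of_eventuallyEq ?_
  have e1 : ∀ᶠ w : C2 in 𝓝 (srcX l), w.1 ≠ 0 :=
    continuous_fst.continuousAt.eventually_ne (exp_ne_zero _)
  have e2 : ∀ᶠ w : C2 in 𝓝 (srcX l), w.2 ≠ 0 :=
    continuous_snd.continuousAt.eventually_ne (exp_ne_zero _)
  filter_upwards [e1, e2] with w h1 h2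
  have hw : srcX (g w) = w := by
    refine Prod.ext ?_ ?_
    · change exp (l.1 + log (w.1 / exp l.1)) = w.1
      rw [exp_add, exp_log (div_ne_zero h1 (exp_ne_zero _)), mul_div_cancel₀ _ (exp_ne_zero _)]
    · change exp (l.2 + log (w.2 / exp l.2)) = w.2
      rw [exp_add, exp_log (div_ne_zero h2 (exp_ne_zero _)), mul_div_cancel₀ _ (exp_ne_zero _)]
  rw [← srcG_X (f1 := f1) (f2 := f2) hom, hw]

theorem srcG_fderiv (hΦ : ContDiff ℝ ∞ Φ)
    (hom : ∀ W t, Con Φ W t → ∀ s : ℝ, s ≠ 0 → f (s • W, t) = f (W, t))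
    (hf : ∀ W t, Con Φ W t → ContDiffAt ℝ ∞ f (W, t)) (l u : C2) :
    fderiv ℝ (srcG Φ f1 f2 f) (srcX l) (exp l.1 * u.1, exp l.2 * u.2) =
      fderiv ℝ f (srcE Φ l) (fderiv ℝ (srcE Φ) l u) := by
  have h : srcG Φ f1 f2 f ∘ srcX = f ∘ srcE Φ := funext fun l => srcG_X hom l
  have h1 := fderiv_comp l ((srcG_smooth (f1 := f1) (f2 := f2) hΦ hom hf l).differentiableAt
    (by simp)) (src_smoothX.differentiable (by simp) l)
  have h2 := fderiv_comp (g := f) l ((hf _ _ (src_con Φ l)).differentiableAt (by simp))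
    ((src_smoothE hΦ).differentiable (by simp) l)
  rw [h, h2] at h1
  rw [← src_dX]
  exact (congrArg (fun A => A u) h1).symm

end glue

end Pool.Agent.Lib.MP_b7c8b0_gt
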