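import Pool.Agent.Lib.MP_b7c8b0_gt.CBase
import Pool.Agent.Lib.MP_b7c8b0_gt.SourceAux

open scoped ContDiff ComplexConjugate Topology
open Complex Filter

noncomputable section

namespace Pool.Agent.Lib.MP_b7c8b0_gt

def srcM (x : ℂ) : ℂ := 9 / 2 * x - 1 / 2 * conj x

def srcH1 (k : ℝ) (z : C2) : C2 :=
  (k * (z.1 * z.2), k * (9 / 4 * (z.1 * z.2) + 1 / 4 * conj (z.1 * z.2)) - ‖z.2‖ * srcM z.2)

def srcH2 (k : ℝ) (z : C2) : C2 := (conj z.1 * z.2, z.1 * conj z.2 + 3 * k * (‖z.1‖ * z.1))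

theorem srcM_eq {a b : ℝ} {x y : ℂ} (h : a * srcM x = b * srcM y) : a * x = b * y := by
  have h1 := congrArg re h
  have h2 := congrArg im h
  simp [srcM] at h1 h2
  refine Complex.ext ?_ ?_ <;> simp <;> linarith

theorem srcH1_lift {Φ : ℝ → ℝ} {c : ℝ} {l : C2} (h : Φ (srcT l) = srcT l + c) :
    srcH1 (Real.exp (c / 2)) (srcX l) =
      Real.exp (3 * l.2.re - l.1.re - c / 2) • F1 (srcW Φ l) := by
  have hp : (Real.exp (c / 2) : ℝ) * (exp l.1 * exp l.2) =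
      (Real.exp (3 * l.2.re - l.1.re - c / 2) : ℝ) * (srcW Φ l).1 ^ 2 := by
    simp only [srcW, h]
    rw [ofReal_exp, ofReal_exp, sq, ← exp_add, ← exp_add, ← exp_add, ← exp_add]
    refine congrArg exp (Complex.ext ?_ ?_) <;> simp [srcT]
    ring
  have hq : (‖exp l.2‖ : ℝ) * exp l.2 =
      (Real.exp (3 * l.2.re - l.1.re - c / 2) : ℝ) * ((srcW Φ l).1 * (srcW Φ l).2) := by
    rw [src_XY, ← mul_assoc, ← ofReal_mul, ← Real.exp_add, norm_exp, h, srcT]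
    ring_nf
  have hp' := congrArg conj hp
  have hq' := congrArg conj hq
  simp only [map_mul, conj_ofReal, map_pow] at hp' hq'
  refine Prod.ext hp ?_
  simp only [srcH1, srcX, srcM, F1, Prod.smul_snd, real_smul, map_mul]
  linear_combination 9 / 4 * hp + 1 / 4 * hp' - 9 / 2 * hq + 1 / 2 * hq'

theorem srcH2_lift {Φ : ℝ → ℝ} {c : ℝ} {l : C2} (h : Φ (srcT l) = srcT l + c) :
    srcH2 (Real.exp (c / 2)) (srcX l) = Real.exp (l.1.re + l.2.re) • F2 (srcW Φ l) := by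
  have hp : conj (exp l.1) * exp l.2 =
      (Real.exp (l.1.re + l.2.re) : ℝ) * (srcW Φ l).2 ^ 2 := by
    simp only [srcW]
    rw [ofReal_exp, sq, ← exp_conj, ← exp_add, ← exp_add, ← exp_add]
    refine congrArg exp (Complex.ext ?_ ?_) <;> simp
    ring
  have hq : (Real.exp (c / 2) : ℝ) * ((‖exp l.1‖ : ℝ) * exp l.1) =
      (Real.exp (l.1.re + l.2.re) : ℝ) * ((srcW Φ l).1 * conj (srcW Φ l).2) := by
    rw [src_XcY, ← mul_assoc, ← mul_assoc, ← ofReal_mul, ← ofReal_mul, ← Real.exp_add, norm_exp,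
      ← Real.exp_add, h, srcT]
    ring_nf
  have hp' := congrArg conj hp
  simp only [map_mul, conj_ofReal, map_pow, conj_conj] at hp'
  refine Prod.ext hp ?_
  simp only [srcH2, srcX, F2, Prod.smul_snd, real_smul]
  linear_combination hp' + 3 * hq

theorem srcH1_core {k : ℝ} {z : C2} (h : z.1 = 0) : srcH1 k z = (0, -(‖z.2‖ * srcM z.2)) := by
  simp [srcH1, h]

theorem srcH2_core {k : ℝ} {z : C2} (h : z.2 = 0) : srcH2 k z = (0, 3 * k * (‖z.1‖ * z.1)) := by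
  simp [srcH2, h]

theorem srcH1_ne {k : ℝ} {z : C2} (h : z.1 = 0) (h2 : z.2 ≠ 0) : srcH1 k z ≠ 0 := by
  rw [srcH1_core h]
  intro h0
  have h1 : (‖z.2‖ : ℝ) * srcM z.2 = (0 : ℝ) * srcM z.2 := by
    simpa using congrArg Prod.snd h0
  simpa [h2] using srcM_eq h1

theorem srcH2_ne {k : ℝ} (hk : k ≠ 0) {z : C2} (h1 : z.1 ≠ 0) (h : z.2 = 0) : srcH2 k z ≠ 0 := by
  rw [srcH2_core h]
  intro h0
  simpa [hk, h1] using congrArg Prod.snd h0

theorem src_conj_smooth : ContDiff ℝ ∞ fun x : ℂ => conj x := conjCLE.contDiff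

theorem srcH1_smooth (k : ℝ) {z : C2} (h2 : z.2 ≠ 0) : ContDiffAt ℝ ∞ (srcH1 k) z := by
  have m : ContDiffAt ℝ ∞ (fun w : C2 => w.1 * w.2) z := contDiffAt_fst.mul contDiffAt_snd
  have n : ContDiffAt ℝ ∞ (fun w : C2 => ((‖w.2‖ : ℝ) : ℂ)) z :=
    ofRealCLM.contDiff.contDiffAt.comp z (contDiffAt_snd.norm ℝ h2)
  exact (contDiffAt_const.mul m).prodMk ((contDiffAt_const.mul ((contDiffAt_const.mul m).add
    (contDiffAt_const.mul (src_conj_smooth.contDiffAt.comp z m)))).sub (n.mul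
      ((contDiffAt_const.mul contDiffAt_snd).sub
        (contDiffAt_const.mul (src_conj_smooth.contDiffAt.comp z contDiffAt_snd)))))

theorem srcH2_smooth (k : ℝ) {z : C2} (h1 : z.1 ≠ 0) : ContDiffAt ℝ ∞ (srcH2 k) z := by
  have n : ContDiffAt ℝ ∞ (fun w : C2 => ((‖w.1‖ : ℝ) : ℂ)) z :=
    ofRealCLM.contDiff.contDiffAt.comp z (contDiffAt_fst.norm ℝ h1)
  exact ((src_conj_smooth.contDiffAt.comp z contDiffAt_fst).mul contDiffAt_snd).prodMk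
    ((contDiffAt_fst.mul (src_conj_smooth.contDiffAt.comp z contDiffAt_snd)).add
      (contDiffAt_const.mul (n.mul contDiffAt_fst)))

theorem src_dconj {f : ℝ → ℂ} {f' : ℂ} (h : HasDerivAt f f' 0) :
    HasDerivAt (fun s => conj (f s)) (conj f') 0 :=
  conjCLE.hasFDerivAt.comp_hasDerivAt 0 h

theorem src_dnorm {f : ℝ → ℂ} {f' : ℂ} (h : HasDerivAt f f' 0) (h0 : f 0 ≠ 0) :
    ∃ ρ : ℝ, HasDerivAt (fun s => ((‖f s‖ : ℝ) : ℂ)) ρ 0 :=
  ⟨_, (h.differentiableAt.norm ℝ h0).hasDerivAt.ofReal_comp⟩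

theorem srcH1_ker {k : ℝ} (hk : k ≠ 0) {z v : C2} (h1 : z.1 = 0) (h2 : z.2 ≠ 0) {s : ℝ}
    (h : fderiv ℝ (srcH1 k) z v = s • srcH1 k z) : ∃ σ : ℝ, v = σ • z := by
  obtain ⟨ρ, hρ⟩ := src_dnorm (src_line2 z v) (by simpa using h2)
  have m := (src_line1 z v).mul (src_line2 z v)
  have d := (m.const_mul (k : ℂ)).prodMk (((((m.const_mul (9 / 4 : ℂ)).add
    ((src_dconj m).const_mul (1 / 4 : ℂ))).const_mul (k : ℂ))).sub (hρ.mul
      (((src_line2 z v).const_mul (9 / 2 : ℂ)).sub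
        ((src_dconj (src_line2 z v)).const_mul (1 / 2 : ℂ)))))
  rw [src_line ((srcH1_smooth k h2).differentiableAt (by simp)) d, srcH1_core h1] at h
  have e1 := congrArg Prod.fst h
  have e2 := congrArg Prod.snd h
  have hv : v.1 = 0 := by simpa [h1, h2, hk] using e1
  simp only [h1, hv, zero_smul, add_zero, Pi.sub_apply, Prod.smul_snd, real_smul, zero_mul,
    mul_zero, map_zero] at e2
  have e3 : (‖z.2‖ : ℝ) * srcM v.2 = ((s * ‖z.2‖ - ρ : ℝ) : ℂ) * srcM z.2 := by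
    simp only [srcM] at e2 ⊢
    push_cast
    linear_combination -e2
  have e4 := srcM_eq e3
  have hn : ((‖z.2‖ : ℝ) : ℂ) ≠ 0 := ofReal_ne_zero.mpr (norm_ne_zero_iff.mpr h2)
  refine ⟨(s * ‖z.2‖ - ρ) / ‖z.2‖, Prod.ext (by simp [h1, hv]) ?_⟩
  rw [Prod.smul_snd, real_smul, ofReal_div, div_mul_eq_mul_div, ← e4,
    mul_div_cancel_left₀ _ hn]

theorem srcH2_ker {k : ℝ} (hk : k ≠ 0) {z v : C2} (h1 : z.1 ≠ 0) (h2 : z.2 = 0) {s : ℝ}
    (h : fderiv ℝ (srcH2 k) z v = s • srcH2 k z) : ∃ σ : ℝ, v = σ • z := by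
  obtain ⟨ρ, hρ⟩ := src_dnorm (src_line1 z v) (by simpa using h1)
  have d := ((src_dconj (src_line1 z v)).mul (src_line2 z v)).prodMk
    (((src_line1 z v).mul (src_dconj (src_line2 z v))).add
      ((hρ.mul (src_line1 z v)).const_mul (3 * k : ℂ)))
  rw [src_line ((srcH2_smooth k h1).differentiableAt (by simp)) d, srcH2_core h2] at h
  have e1 := congrArg Prod.fst h
  have e2 := congrArg Prod.snd h
  have hv : v.2 = 0 := by simpa [h1, h2] using e1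
  simp only [h2, hv, zero_smul, add_zero, Prod.smul_snd, real_smul, mul_zero, map_zero,
    zero_add] at e2
  have hk' : (3 * k : ℂ) ≠ 0 := mul_ne_zero (by norm_num) (ofReal_ne_zero.mpr hk)
  have e4 : (‖z.1‖ : ℝ) * v.1 = ((s * ‖z.1‖ - ρ : ℝ) : ℂ) * z.1 := by
    refine mul_left_cancel₀ hk' ?_
    push_cast
    linear_combination e2
  have hn : ((‖z.1‖ : ℝ) : ℂ) ≠ 0 := ofReal_ne_zero.mpr (norm_ne_zero_iff.mpr h1)
  refine ⟨(s * ‖z.1‖ - ρ) / ‖z.1‖, Prod.ext ?_ (by simp [h2, hv])⟩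
  rw [Prod.smul_fst, real_smul, ofReal_div, div_mul_eq_mul_div, ← e4,
    mul_div_cancel_left₀ _ hn]

theorem src_unit {x y : ℂ} {s : ℝ} (hs : 0 < s) (hx : ‖x‖ = 1) (hy : ‖y‖ = 1)
    (h : y = s * x) : x = y := by
  have h1 := congrArg norm h
  rw [norm_mul, hx, hy, mul_one, norm_real, Real.norm_of_nonneg hs.le] at h1
  rw [h, ← h1, ofReal_one, one_mul]

theorem src_norm_one {x y : ℂ} (h : ‖x‖ ^ 2 + ‖y‖ ^ 2 = 1) (hx : x = 0) : ‖y‖ = 1 := by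
  rw [hx, norm_zero, zero_pow two_ne_zero, zero_add] at h
  exact (pow_eq_one_iff_of_nonneg (norm_nonneg y) two_ne_zero).mp h

theorem src_core {e : ℝ} (he : 0 < e) {H Pi : C2 → C2} {y U : C2 → ℝ} {P : C2 → Cov} {z : C2}
    (hH : ContDiffAt ℝ ∞ H z) (h0 : H z ≠ 0) (hy : ∀ Z, Z ≠ 0 → ContDiffAt ℝ ∞ y Z)
    (e1 : Pi =ᶠ[𝓝 z] fun w => Nrm e (H w)) (e2 : U =ᶠ[𝓝 z] fun w => y (Nrm e (H w)))
    (e3 : P =ᶠ[𝓝 z] fun w => fderiv ℝ y (Nrm e (H w))) :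
    ContDiffAt ℝ ∞ Pi z ∧ ContDiffAt ℝ ∞ U z ∧ ContDiffAt ℝ ∞ P z ∧
      (∀ v, fderiv ℝ U z v = P z (fderiv ℝ Pi z v)) ∧
      ∀ v, fderiv ℝ Pi z v = 0 → ∃ s : ℝ, fderiv ℝ H z v = s • H z := by
  have hN : ContDiffAt ℝ ∞ (fun w => Nrm e (H w)) z := (contDiffAt_Nrm he h0).comp z hH
  have hZ : Nrm e (H z) ≠ 0 := by
    intro h
    have := Nsq_Nrm he h0
    rw [h] at this
    simp [Nsq] at this
  have hy' := hy _ hZ
  refine ⟨hN.congr_of_eventuallyEq e1,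
    (ContDiffAt.comp (g := y) z hy' hN).congr_of_eventuallyEq e2,
    (ContDiffAt.comp (g := fderiv ℝ y) z (hy'.fderiv_right (by simp)) hN).congr_of_eventuallyEq e3,
    fun v => ?_, fun v hv => ?_⟩
  · rw [e2.fderiv_eq, e1.fderiv_eq, e3.eq_of_nhds]
    exact congrArg (fun A => A v) (fderiv_comp (g := y) z (hy'.differentiableAt (by simp))
      (hN.differentiableAt (by simp)))
  · rw [e1.fderiv_eq] at hv
    refine fderiv_Nrm_eq_zero he h0 (Eq.trans ?_ hv)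
    exact (congrArg (fun A => A v) (fderiv_comp z ((contDiffAt_Nrm he h0).differentiableAt
      (by simp)) (hH.differentiableAt (by simp)))).symm

theorem src_cases {z : C2} (hz : z ≠ 0) :
    (z.1 = 0 ∧ z.2 ≠ 0) ∨ (z.1 ≠ 0 ∧ z.2 = 0) ∨ ∃ l, z = srcX l := by
  by_cases h1 : z.1 = 0
  · exact Or.inl ⟨h1, fun h2 => hz (Prod.ext h1 h2)⟩
  · by_cases h2 : z.2 = 0
    · exact Or.inr (Or.inl ⟨h1, h2⟩)
    · exact Or.inr (Or.inr ⟨_, (srcX_srcL h1 h2).symm⟩)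

theorem source {e : ℝ} (he : 0 < e) (c : Cover e) : Nonempty (Data e) := by
  have hk1 : Real.exp (c.c1 / 2) ≠ 0 := Real.exp_ne_zero _
  have hk2 : Real.exp (c.c2 / 2) ≠ 0 := Real.exp_ne_zero _
  obtain ⟨N1, hN1⟩ : ∃ N1 : C2 → C2, N1 = fun w => Nrm e (srcH1 (Real.exp (c.c1 / 2)) w) := ⟨_, rfl⟩
  obtain ⟨N2, hN2⟩ : ∃ N2 : C2 → C2, N2 = fun w => Nrm e (srcH2 (Real.exp (c.c2 / 2)) w) := ⟨_, rfl⟩
  obtain ⟨Pi, hPi⟩ : ∃ Pi, Pi = srcG c.Φ N1 N2 c.Pi := ⟨_, rfl⟩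
  obtain ⟨U, hU⟩ : ∃ U, U = srcG c.Φ (fun w => c.y1 (N1 w)) (fun w => c.y0 (N2 w)) c.U := ⟨_, rfl⟩
  obtain ⟨P, hP⟩ : ∃ P, P = srcG c.Φ (fun w => fderiv ℝ c.y1 (N1 w))
    (fun w => fderiv ℝ c.y0 (N2 w)) c.P := ⟨_, rfl⟩
  have m1 := fun W t h s hs => (c.hom W t h s hs).1
  have m2 := fun W t h s hs => (c.hom W t h s hs).2.1
  have m3 := fun W t h s hs => (c.hom W t h s hs).2.2
  have f1 : ∀ l, srcT l ≤ -c.T → c.Pi (srcE c.Φ l) = N1 (srcX l) := by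
    intro l hl
    rw [hN1]
    simp only [srcH1_lift (c.lo _ hl), Nrm_smul (Real.exp_pos _)]
    exact (c.far1 _ _ (src_con _ l) hl).1
  have f2 : ∀ l, c.T ≤ srcT l → c.Pi (srcE c.Φ l) = N2 (srcX l) := by
    intro l hl
    rw [hN2]
    simp only [srcH2_lift (c.hi _ hl), Nrm_smul (Real.exp_pos _)]
    exact (c.far2 _ _ (src_con _ l) hl).1
  have K1 := fun (z : C2) (h1 : z.1 = 0) (h2 : z.2 ≠ 0) =>
    src_core (Pi := Pi) (U := U) (P := P) he (srcH1_smooth (Real.exp (c.c1 / 2)) h2)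
      (srcH1_ne h1 h2) c.sy1 (by rw [hPi, ← hN1]; exact srcG_near1 f1 h1 h2)
      (by
        rw [hU]
        refine (srcG_near1 (T := c.T) (fun l hl => ?_) h1 h2).trans (by rw [hN1])
        rw [← f1 l hl]
        exact (c.far1 _ _ (src_con _ l) hl).2.1)
      (by
        rw [hP]
        refine (srcG_near1 (T := c.T) (fun l hl => ?_) h1 h2).trans (by rw [hN1])
        rw [← f1 l hl]
        exact (c.far1 _ _ (src_con _ l) hl).2.2)
  have K2 := fun (z : C2) (h1 : z.1 ≠ 0) (h2 : z.2 = 0) =>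
    src_core (Pi := Pi) (U := U) (P := P) he (srcH2_smooth (Real.exp (c.c2 / 2)) h1)
      (srcH2_ne hk2 h1 h2) c.sy0 (by rw [hPi, ← hN2]; exact srcG_near2 f2 h1 h2)
      (by
        rw [hU]
        refine (srcG_near2 (T := c.T) (fun l hl => ?_) h1 h2).trans (by rw [hN2])
        rw [← f2 l hl]
        exact (c.far2 _ _ (src_con _ l) hl).2.1)
      (by
        rw [hP]
        refine (srcG_near2 (T := c.T) (fun l hl => ?_) h1 h2).trans (by rw [hN2])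
        rw [← f2 l hl]
        exact (c.far2 _ _ (src_con _ l) hl).2.2)
  have xPi : ∀ l, Pi (srcX l) = c.Pi (srcW c.Φ l, srcT l) := fun l => hPi ▸ srcG_X m1 l
  have xU : ∀ l, U (srcX l) = c.U (srcW c.Φ l, srcT l) := fun l => hU ▸ srcG_X m2 l
  have xP : ∀ l, P (srcX l) = c.P (srcW c.Φ l, srcT l) := fun l => hP ▸ srcG_X m3 l
  have C1 : ∀ z : C2, z.1 = 0 → Pi z = Nrm e (srcH1 (Real.exp (c.c1 / 2)) z) ∧ (Pi z).1 = 0 ∧
      U z = c.y1 (Pi z) := by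
    intro z h1
    rw [hPi, hU, srcG_core1 h1, srcG_core1 h1, hN1]
    exact ⟨rfl, by simp [srcH1_core h1, Nrm], rfl⟩
  have C2' : ∀ z : C2, z.1 ≠ 0 → z.2 = 0 → Pi z = Nrm e (srcH2 (Real.exp (c.c2 / 2)) z) ∧
      (Pi z).1 = 0 ∧ U z = c.y0 (Pi z) ∧ P z = fderiv ℝ c.y0 (Pi z) := by
    intro z h1 h2
    rw [hPi, hU, hP, srcG_core2 h1 h2, srcG_core2 h1 h2, srcG_core2 h1 h2, hN2]
    exact ⟨rfl, by simp [srcH2_core h2, Nrm], rfl, rfl⟩
  have unit : ∀ z, z ≠ 0 → Nsq e (Pi z) = 1 := by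
    intro z hz
    rcases src_cases hz with ⟨h1, h2⟩ | ⟨h1, h2⟩ | ⟨l, rfl⟩
    · rw [(C1 z h1).1]
      exact Nsq_Nrm he (srcH1_ne h1 h2)
    · rw [(C2' z h1 h2).1]
      exact Nsq_Nrm he (srcH2_ne hk2 h1 h2)
    · rw [xPi]
      exact c.unit _ _ (src_con _ l)
  have hv : ∀ (l v : C2), ∃ u : C2, v = (exp l.1 * u.1, exp l.2 * u.2) := fun l v =>
    ⟨(v.1 / exp l.1, v.2 / exp l.2), Prod.ext (mul_div_cancel₀ _ (exp_ne_zero _)).symm
      (mul_div_cancel₀ _ (exp_ne_zero _)).symm⟩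
  have I12 : ∀ z z' : C2, z.1 = 0 → z'.1 ≠ 0 → z'.2 = 0 → Pi z = Pi z' → U z ≠ U z' := by
    intro z z' h1 h1' h2' a b
    have h := c.lt _ (unit z' fun h => h1' (by rw [h]; rfl))
    rw [← (C2' z' h1' h2').2.2.1, ← a, ← (C1 z h1).2.2, b] at h
    exact lt_irrefl _ h
  have I13 : ∀ (z l : C2), z.1 = 0 → Pi z = Pi (srcX l) → U z ≠ U (srcX l) := by
    intro z l h1 a b
    refine c.core1 _ _ (src_con c.Φ l) ?_ ?_
    · rw [← xPi, ← a]
      exact (C1 z h1).2.1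
    · rw [← xPi, ← xU, ← a, ← b]
      exact (C1 z h1).2.2
  have I23 : ∀ (z l : C2), z.1 ≠ 0 → z.2 = 0 → Pi z = Pi (srcX l) → U z = U (srcX l) →
      ¬ ∀ d, P z (Jv e (Pi z) d) = P (srcX l) (Jv e (Pi z) d) := by
    intro z l h1 h2 a b d
    refine c.core2 _ _ (src_con c.Φ l) ?_ ?_ fun d' => ?_
    · rw [← xPi, ← a]
      exact (C2' z h1 h2).2.1
    · rw [← xPi, ← xU, ← a, ← b]
      exact (C2' z h1 h2).2.2.1
    · rw [← xPi, ← xP, ← a, ← d d', (C2' z h1 h2).2.2.2]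
  refine ⟨⟨Pi, U, P, fun z hz => ?_, fun z hz => ?_, fun z hz => ?_, unit, fun z hz s hs => ?_,
    fun z hz v => ?_, fun z z' hz hz' a b d => ?_, fun z hz v a b => ?_⟩⟩
  · rcases src_cases hz with ⟨h1, h2⟩ | ⟨h1, h2⟩ | ⟨l, rfl⟩
    exacts [(K1 z h1 h2).1, (K2 z h1 h2).1, hPi ▸ srcG_smooth c.sΦ m1 c.sPi l]
  · rcases src_cases hz with ⟨h1, h2⟩ | ⟨h1, h2⟩ | ⟨l, rfl⟩
    exacts [(K1 z h1 h2).2.1, (K2 z h1 h2).2.1, hU ▸ srcG_smooth c.sΦ m2 c.sU l]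
  · rcases src_cases hz with ⟨h1, h2⟩ | ⟨h1, h2⟩ | ⟨l, rfl⟩
    exacts [(K1 z h1 h2).2.2.1, (K2 z h1 h2).2.2.1, hP ▸ srcG_smooth c.sΦ m3 c.sP l]
  · have key : (Pi z).1 = 0 → Pi z ≠ (-(s : ℂ), -(s : ℂ)) := by
      intro h0 h
      rw [h] at h0
      exact hs.ne' (by simpa using h0)
    rcases src_cases hz with ⟨h1, h2⟩ | ⟨h1, h2⟩ | ⟨l, rfl⟩
    · exact key (C1 z h1).2.1
    · exact key (C2' z h1 h2).2.1
    · rw [xPi]
      exact c.avoid _ _ (src_con _ l) s hs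
  · rcases src_cases hz with ⟨h1, h2⟩ | ⟨h1, h2⟩ | ⟨l, rfl⟩
    · exact (K1 z h1 h2).2.2.2.1 v
    · exact (K2 z h1 h2).2.2.2.1 v
    · obtain ⟨u, rfl⟩ := hv l v
      rw [xP, hU, hPi, srcG_fderiv c.sΦ m2 c.sU, srcG_fderiv c.sΦ m1 c.sPi, src_dE c.sΦ]
      exact c.leg _ _ (src_con _ l) _ _
        (src_dLog _ (src_con c.Φ l).1 (src_con c.Φ l).2.1 _ _ _)
  · have hz0 : z ≠ 0 := by
      rintro rfl
      simp at hz
    have hz0' : z' ≠ 0 := by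
      rintro rfl
      simp at hz'
    have d' : ∀ x, P z' (Jv e (Pi z') x) = P z (Jv e (Pi z') x) := fun x => a ▸ (d x).symm
    rcases src_cases hz0 with ⟨h1, h2⟩ | ⟨h1, h2⟩ | ⟨l, rfl⟩ <;>
      rcases src_cases hz0' with ⟨h1', h2'⟩ | ⟨h1', h2'⟩ | ⟨l', rfl⟩
    · rw [(C1 z h1).1, (C1 z' h1').1] at a
      obtain ⟨s, hs, h⟩ := Nrm_eq he (srcH1_ne h1 h2) (srcH1_ne h1' h2') a
      have n := src_norm_one hz h1
      have n' := src_norm_one hz' h1'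
      rw [srcH1_core h1, srcH1_core h1', n, n'] at h
      have h3 : ((1 : ℝ) : ℂ) * srcM z'.2 = s * srcM z.2 := by
        simpa using congrArg Prod.snd h
      exact Prod.ext (h1.trans h1'.symm) (src_unit hs n n' (by simpa using srcM_eq h3))
    · exact absurd b (I12 z z' h1 h1' h2' a)
    · exact absurd b (I13 z l' h1 a)
    · exact absurd b.symm (I12 z' z h1' h1 h2 a.symm)
    · rw [(C2' z h1 h2).1, (C2' z' h1' h2').1] at a
      obtain ⟨s, hs, h⟩ := Nrm_eq he (srcH2_ne hk2 h1 h2) (srcH2_ne hk2 h1' h2') a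
      have n := src_norm_one ((add_comm _ _).trans hz) h2
      have n' := src_norm_one ((add_comm _ _).trans hz') h2'
      rw [srcH2_core h2, srcH2_core h2', n, n'] at h
      have h3 := congrArg Prod.snd h
      simp only [Prod.smul_snd, real_smul] at h3
      have hk' : (3 * Real.exp (c.c2 / 2) : ℂ) ≠ 0 :=
        mul_ne_zero (by norm_num) (ofReal_ne_zero.mpr hk2)
      refine Prod.ext (src_unit hs n n' (mul_left_cancel₀ hk' ?_)) (h2.trans h2'.symm)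
      rw [ofReal_one, one_mul, one_mul] at h3
      rw [h3]
      ring
    · exact absurd d (I23 z l' h1 h2 a b)
    · exact absurd b.symm (I13 z' l h1' a.symm)
    · exact absurd d' (I23 z' l h1' h2' a.symm b.symm)
    · rw [xPi, xPi] at a
      rw [xU, xU] at b
      rw [xP, xP, xPi] at d
      obtain ⟨hT, s, hs⟩ := c.inj _ _ _ _ (src_con _ l) (src_con _ l') a b d
      exact src_inj c.Φ hz hz' hT hs
  · rcases src_cases hz with ⟨h1, h2⟩ | ⟨h1, h2⟩ | ⟨l, rfl⟩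
    · obtain ⟨s, hs⟩ := (K1 z h1 h2).2.2.2.2 v a
      exact srcH1_ker hk1 h1 h2 hs
    · obtain ⟨s, hs⟩ := (K2 z h1 h2).2.2.2.2 v a
      exact srcH2_ker hk2 h1 h2 hs
    · obtain ⟨u, rfl⟩ := hv l v
      rw [hPi, srcG_fderiv c.sΦ m1 c.sPi, src_dE c.sΦ] at a
      rw [xPi, hP, srcG_fderiv c.sΦ m3 c.sP, src_dE c.sΦ] at b
      obtain ⟨hT, s, hs⟩ := c.imm _ _ (src_con _ l) _ _
        (src_dLog _ (src_con c.Φ l).1 (src_con c.Φ l).2.1 _ _ _) a b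
      obtain ⟨σ, rfl⟩ := src_ker _ u (src_con c.Φ l).1 (src_con c.Φ l).2.1 _ hT hs
      exact ⟨σ, Prod.ext (mul_comm _ _) (mul_comm _ _)⟩

end Pool.Agent.Lib.MP_b7c8b0_gt
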