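import Pool.Agent.Lib.MP_b7c8b0_gt.Defs

/-! The statement, with definitions generic in the manifold and the ambient space. -/

open scoped Manifold ContDiff

namespace Pool.Agent.Lib.MP_b7c8b0_gt

section
variable (E : Type) [NormedAddCommGroup E] [NormedSpace ℝ E]
  {M : Type} [TopologicalSpace M] [ChartedSpace E M]
  {V : Type} [NormedAddCommGroup V] [NormedSpace ℝ V]

/-- The differential at `p` of a map from a manifold modelled on `E` to the vector space `V`. -/
noncomputable def diffAt (f : M → V) (p : M) : E →L[ℝ] V :=
  mfderiv (modelWithCornersSelf ℝ E) (modelWithCornersSelf ℝ V) f p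

/-- `f` is a smooth embedding (smooth, topological embedding, injective differential) whose image
is preisotropic for the distribution `D`: at every point the sum of the tangent space of the image
and the distribution has codimension 1. -/
structure IsPreisotropicEmbedding (D : V → Submodule ℝ V) (f : M → V) : Prop where
  smooth : ContMDiff (modelWithCornersSelf ℝ E) (modelWithCornersSelf ℝ V) ∞ f
  embedding : Topology.IsEmbedding f
  immersion : ∀ p, Function.Injective (diffAt E f p)
  corank : ∀ p, Module.finrank ℝ
    ((LinearMap.range (diffAt E f p).toLinearMap ⊔ D (f p) : Submodule ℝ V)) + 1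
      = Module.finrank ℝ V

end

/-- The unit sphere of dimension `k` in Euclidean `(k+1)`-space. -/
abbrev UnitSphere (k : ℕ) : Type := Metric.sphere (0 : EuclideanSpace ℝ (Fin (k + 1))) 1

/-- The unit `k`-sphere has a smooth embedding in `V` with preisotropic image for `D`. -/
def HasPreisotropicSphere (k : ℕ) {V : Type} [NormedAddCommGroup V] [NormedSpace ℝ V]
    (D : V → Submodule ℝ V) : Prop :=
  ∃ f : UnitSphere k → V, IsPreisotropicEmbedding (EuclideanSpace ℝ (Fin k)) D f

theorem hasPre_iff (n : ℕ) :
    HasPreisotropicSphere (2 * n + 1) (Dstd (n := n)) ↔ ∃ f, IsPrelegendrianEmbedding n f :=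
  ⟨fun ⟨f, h⟩ => ⟨f, h.smooth, h.embedding, h.immersion, h.corank⟩,
    fun ⟨f, h⟩ => ⟨f, h.smooth, h.embedding, h.immersion, h.corank⟩⟩

end Pool.Agent.Lib.MP_b7c8b0_gt
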