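import Pool.Agent.Lib.MP_b7c8b0_gt.Form

open scoped ContDiff Topology ComplexConjugate TensorProduct
open Filter MeasureTheory Matrix

set_option linter.unusedSectionVars false

noncomputable section

namespace Pool.Agent.Lib.MP_b7c8b0_gt

variable {ι : Type} [Fintype ι] [DecidableEq ι]

/-- Pure tensors. -/
def stkTm (f : Sm ι) (x : ExteriorAlgebra ℂ (ι → ℂ)) : Om ι :=
  (f ⊗ₜ[ℂ] x : Sm ι ⊗[ℂ] ExteriorAlgebra ℂ (ι → ℂ))

theorem stk_ind {P : Om ι → Prop} (h0 : P 0) (ht : ∀ f x, P (stkTm f x))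
    (ha : ∀ a b, P a → P b → P (a + b)) (w : Om ι) : P w :=
  TensorProduct.induction_on (motive := fun w : Sm ι ⊗[ℂ] ExteriorAlgebra ℂ (ι → ℂ) => P w)
    w h0 ht ha

theorem stk_mul (f g : Sm ι) (x y : ExteriorAlgebra ℂ (ι → ℂ)) :
    stkTm f x * stkTm g y = stkTm (f * g) (x * y) :=
  Algebra.TensorProduct.tmul_mul_tmul f g x y

theorem stk_add (f : Sm ι) (x y : ExteriorAlgebra ℂ (ι → ℂ)) :
    stkTm f (x + y) = stkTm f x + stkTm f y :=
  TensorProduct.tmul_add f x y

theorem stk_neg (f : Sm ι) (x : ExteriorAlgebra ℂ (ι → ℂ)) :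
    stkTm f (-x) = -stkTm f x :=
  TensorProduct.tmul_neg f x

theorem stk_zero (f : Sm ι) : stkTm f 0 = 0 :=
  TensorProduct.tmul_zero _ f

theorem stk_one : stkTm (1 : Sm ι) 1 = 1 := rfl

/-- Contraction on the exterior algebra. -/
def stkC (i : ι) : ExteriorAlgebra ℂ (ι → ℂ) →ₗ[ℂ] ExteriorAlgebra ℂ (ι → ℂ) :=
  CliffordAlgebra.contractLeft (Q := (0 : QuadraticForm ℂ (ι → ℂ))) (LinearMap.proj i)

theorem stk_ctr (i : ι) (f : Sm ι) (x : ExteriorAlgebra ℂ (ι → ℂ)) :
    ctr i (stkTm f x) = stkTm f (stkC i x) := rfl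

theorem stk_sg (f : Sm ι) (x : ExteriorAlgebra ℂ (ι → ℂ)) :
    sg (stkTm f x) = stkTm f (CliffordAlgebra.involute x) := rfl

theorem stk_pdO (i : ι) (f : Sm ι) (x : ExteriorAlgebra ℂ (ι → ℂ)) :
    pdO i (stkTm f x) = stkTm (pd i f) x := rfl

theorem stk_coef0 (f : Sm ι) (x : ExteriorAlgebra ℂ (ι → ℂ)) :
    coef0 (stkTm f x) = f * algebraMap ℂ (Sm ι) (ExteriorAlgebra.algebraMapInv x) := rfl

theorem stk_fn (f : Sm ι) : fn f = stkTm f 1 := rfl

theorem stk_eps (i : ι) :
    eps i = stkTm 1 (ExteriorAlgebra.ι ℂ (Pi.single i (1 : ℂ) : ι → ℂ)) := rfl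

theorem stk_clifford {M : Type} [AddCommGroup M] [Module ℂ M] (Q : QuadraticForm ℂ M)
    (d : Module.Dual ℂ M) (a : CliffordAlgebra Q) : ∀ b : CliffordAlgebra Q,
    CliffordAlgebra.contractLeft d (a * b) = CliffordAlgebra.contractLeft d a * b +
      CliffordAlgebra.involute a * CliffordAlgebra.contractLeft d b := by
  induction a using CliffordAlgebra.induction with
  | algebraMap r =>
    intro b
    rw [CliffordAlgebra.contractLeft_algebraMap_mul, CliffordAlgebra.contractLeft_algebraMap,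
      AlgHom.commutes, zero_mul, zero_add]
  | ι m =>
    intro b
    rw [CliffordAlgebra.contractLeft_ι_mul, CliffordAlgebra.contractLeft_ι,
      CliffordAlgebra.involute_ι, Algebra.smul_def, neg_mul, sub_eq_add_neg]
  | mul a₁ a₂ h₁ h₂ =>
    intro b
    rw [mul_assoc, h₁, h₂, h₁ a₂, map_mul]
    noncomm_ring
  | add a₁ a₂ h₁ h₂ =>
    intro b
    rw [add_mul, map_add, h₁, h₂, map_add, map_add]
    noncomm_ring

omit [Fintype ι] [DecidableEq ι] in
theorem stkC_mul (i : ι) (a b : ExteriorAlgebra ℂ (ι → ℂ)) :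
    stkC i (a * b) = stkC i a * b + CliffordAlgebra.involute a * stkC i b :=
  stk_clifford (0 : QuadraticForm ℂ (ι → ℂ)) (LinearMap.proj i) a b

omit [Fintype ι] [DecidableEq ι] in
theorem stkC_one (i : ι) : stkC i 1 = 0 :=
  CliffordAlgebra.contractLeft_one (0 : QuadraticForm ℂ (ι → ℂ)) (LinearMap.proj i)

omit [Fintype ι] [DecidableEq ι] in
theorem stkC_iota (i : ι) (v : ι → ℂ) :
    stkC i (ExteriorAlgebra.ι ℂ v) = algebraMap ℂ _ (v i) :=
  CliffordAlgebra.contractLeft_ι (0 : QuadraticForm ℂ (ι → ℂ)) (LinearMap.proj i) v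

omit [Fintype ι] [DecidableEq ι] in
theorem stkC_comm (i j : ι) (x : ExteriorAlgebra ℂ (ι → ℂ)) :
    stkC i (stkC j x) = -stkC j (stkC i x) :=
  CliffordAlgebra.contractLeft_comm (Q := (0 : QuadraticForm ℂ (ι → ℂ))) (LinearMap.proj i)
    (LinearMap.proj j) x

theorem ctr_fn (i : ι) (f : Sm ι) : ctr i (fn f) = 0 := by
  rw [stk_fn, stk_ctr, stkC_one, stk_zero]

theorem ctr_eps_self (i : ι) : ctr i (eps i) = 1 := by
  rw [stk_eps, stk_ctr, stkC_iota, Pi.single_eq_same, map_one, stk_one]

theorem ctr_eps_ne {i j : ι} (h : j ≠ i) : ctr i (eps j) = 0 := by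
  rw [stk_eps, stk_ctr, stkC_iota, Pi.single_eq_of_ne h.symm, map_zero, stk_zero]

theorem ctr_mul (i : ι) (a b : Om ι) : ctr i (a * b) = ctr i a * b + sg a * ctr i b := by
  induction a using stk_ind with
  | h0 => simp
  | ht f x =>
    induction b using stk_ind with
    | h0 => simp
    | ht g y =>
      rw [stk_mul, stk_ctr, stk_ctr, stk_ctr, stk_sg, stk_mul, stk_mul, stkC_mul, stk_add]
    | ha b₁ b₂ h₁ h₂ =>
      rw [mul_add, map_add, h₁, h₂, map_add]
      noncomm_ring
  | ha a₁ a₂ h₁ h₂ =>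
    rw [add_mul, map_add, h₁, h₂, map_add, map_add]
    noncomm_ring

theorem ctr_anti (i j : ι) (w : Om ι) : ctr i (ctr j w) = -ctr j (ctr i w) := by
  induction w using stk_ind with
  | h0 => simp
  | ht f x => rw [stk_ctr, stk_ctr, stk_ctr, stk_ctr, stkC_comm, stk_neg]
  | ha a b h₁ h₂ => rw [map_add, map_add, h₁, h₂, map_add, map_add, neg_add]

theorem stk_coef_nil (w : Om ι) : coef [] w = coef0 w := rfl

theorem stk_coef0_fn (f : Sm ι) : coef0 (fn f) = f := by
  rw [stk_fn, stk_coef0, map_one, map_one, mul_one]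

theorem stk_coef0_eps (i : ι) : coef0 (eps i) = 0 := by
  rw [stk_eps, stk_coef0]
  simp [ExteriorAlgebra.algebraMapInv]

theorem coef_nil_fn (f : Sm ι) : coef [] (fn f) = f := stk_coef0_fn f
theorem coef_nil_eps (i : ι) : coef [] (eps i) = 0 := stk_coef0_eps i
theorem coef_cons (i : ι) (l : List ι) (w : Om ι) : coef (i :: l) w = coef l (ctr i w) := rfl
theorem coef_fn_mul (l : List ι) (f : Sm ι) (w : Om ι) : coef l (fn f * w) = f * coef l w := by
  induction l generalizing w with
  | nil => rw [stk_coef_nil, stk_coef_nil, map_mul, stk_coef0_fn]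
  | cons i l ih => rw [coef_cons, coef_cons, ctr_mul, ctr_fn, zero_mul, zero_add, sg_fn, ih]

theorem itg_apply (l : List ι) (w : Om ι) :
    itg l w = ∫ x in Set.Icc (0 : ι → ℝ) 1, (coef l w).1 x := rfl

theorem stk_itg (l : List ι) (w : Om ι) : itg l w = intS (coef l w) := rfl

theorem stk_itg_cons (i : ι) (l : List ι) (w : Om ι) : itg (i :: l) w = itg l (ctr i w) := rfl

theorem stk_ctr_face_self (i : ι) (c : ℝ) (w : Om ι) : ctr i (face i c w) = 0 := by
  induction w using Om.ind with
  | hf f => rw [face_fn, ctr_fn]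
  | he j =>
    by_cases h : j = i
    · subst h; rw [face_eps_self, map_zero]
    · rw [face_eps_ne h, ctr_eps_ne h]
  | ha a b h₁ h₂ => rw [map_add, map_add, h₁, h₂, add_zero]
  | hm a b h₁ h₂ => rw [map_mul, ctr_mul, h₁, h₂, zero_mul, mul_zero, add_zero]

theorem stk_ctr_face_ne {i j : ι} (h : j ≠ i) (c : ℝ) (w : Om ι) :
    ctr j (face i c w) = face i c (ctr j w) := by
  induction w using Om.ind with
  | hf f => rw [face_fn, ctr_fn, ctr_fn, map_zero]
  | he k =>
    by_cases hk : k = i
    · subst hk; rw [face_eps_self, map_zero, ctr_eps_ne h.symm, map_zero]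
    · rw [face_eps_ne hk]
      by_cases hj : k = j
      · subst hj; rw [ctr_eps_self, map_one]
      · rw [ctr_eps_ne hj, map_zero]
  | ha a b h₁ h₂ => rw [map_add, map_add, h₁, h₂, map_add, map_add]
  | hm a b h₁ h₂ =>
    rw [map_mul, ctr_mul, h₁, h₂, ctr_mul, map_add, map_mul, map_mul, face_sg]

theorem stk_coef_face_mem {i : ι} {l : List ι} (hi : i ∈ l) (c : ℝ) (w : Om ι) :
    coef l (face i c w) = 0 := by
  induction l generalizing w with
  | nil => simp at hi
  | cons j l ih =>
    rw [coef_cons]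
    by_cases h : j = i
    · subst h; rw [stk_ctr_face_self, map_zero]
    · rw [stk_ctr_face_ne h]
      rcases List.mem_cons.1 hi with h' | h'
      · exact absurd h'.symm h
      · exact ih h' _

theorem itg_ind {i : ι} {l : List ι} (hi : i ∈ l) {w : Om ι} (h : Ind i w) : itg l w = 0 := by
  have h' : face i 0 w = w := h
  rw [stk_itg, ← h', stk_coef_face_mem hi, map_zero]

theorem stk_coef_eps_mul {i : ι} {l : List ι} (hi : i ∉ l) (w : Om ι) :
    coef l (eps i * w) = 0 := by
  induction l generalizing w with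
  | nil => rw [stk_coef_nil, map_mul, stk_coef0_eps, zero_mul]
  | cons j l ih =>
    have hj : i ≠ j := fun h => hi (h ▸ List.mem_cons_self)
    have hl : i ∉ l := fun h => hi (List.mem_cons_of_mem _ h)
    rw [coef_cons, ctr_mul, ctr_eps_ne hj, zero_mul, zero_add, sg_eps, neg_mul, map_neg, ih hl,
      neg_zero]

theorem itg_eps {i : ι} {l : List ι} (hi : i ∉ l) (w : Om ι) :
    itg (i :: l) (eps i * w) = itg l w := by
  rw [stk_itg, stk_itg, coef_cons, ctr_mul, ctr_eps_self, one_mul, sg_eps, neg_mul, map_add,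
    map_neg, stk_coef_eps_mul hi, neg_zero, add_zero]

theorem itg_swap (a b : ι) (l : List ι) (w : Om ι) :
    itg (a :: b :: l) w = -itg (b :: a :: l) w := by
  rw [stk_itg_cons, stk_itg_cons, stk_itg_cons, stk_itg_cons, ctr_anti b a, map_neg]

theorem itg_nil_const (f : Sm ι) (c : ℂ) (h : ∀ x, f.1 x = c) : itg [] (fn f) = c := by
  rw [itg_apply, coef_nil_fn]
  simp_rw [h]
  rw [setIntegral_const]
  simp [Measure.real, Real.volume_Icc_pi]

theorem stk_ctr_pdO (i j : ι) (w : Om ι) : ctr i (pdO j w) = pdO j (ctr i w) := by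
  induction w using stk_ind with
  | h0 => simp
  | ht f x => rw [stk_pdO, stk_ctr, stk_ctr, stk_pdO]
  | ha a b h₁ h₂ => rw [map_add, map_add, h₁, h₂, map_add, map_add]

theorem stk_cartan (i : ι) (w : Om ι) : ctr i (dd w) = pdO i w - dd (ctr i w) := by
  rw [dd_apply, dd_apply, map_sum]
  have h : ∀ j, ctr i (eps j * pdO j w) =
      (if j = i then pdO i w else 0) - eps j * pdO j (ctr i w) := by
    intro j
    rw [ctr_mul, sg_eps, neg_mul, stk_ctr_pdO, ← sub_eq_add_neg]
    by_cases hj : j = i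
    · subst hj; rw [ctr_eps_self, one_mul, if_pos rfl]
    · rw [ctr_eps_ne hj, zero_mul, if_neg hj]
  simp_rw [h]
  rw [Finset.sum_sub_distrib, Finset.sum_ite_eq' Finset.univ i, if_pos (Finset.mem_univ i)]

theorem stk_coef_pdO (l : List ι) (i : ι) (w : Om ι) : coef l (pdO i w) = pd i (coef l w) := by
  induction l generalizing w with
  | nil =>
    rw [stk_coef_nil, stk_coef_nil]
    induction w using stk_ind with
    | h0 => simp
    | ht f x =>
      rw [stk_pdO, stk_coef0, stk_coef0, mul_comm, mul_comm f, ← Algebra.smul_def,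
        ← Algebra.smul_def, map_smul]
    | ha a b h₁ h₂ => rw [map_add, map_add, h₁, h₂, map_add, map_add]
  | cons j l ih => rw [coef_cons, coef_cons, stk_ctr_pdO, ih]

theorem stk_coef_face {i : ι} {l : List ι} (hi : i ∉ l) (c : ℝ) (w : Om ι) :
    coef l (face i c w) = fS i c (coef l w) := by
  induction l generalizing w with
  | nil =>
    rw [stk_coef_nil, stk_coef_nil]
    induction w using Om.ind with
    | hf f => rw [face_fn, stk_coef0_fn, stk_coef0_fn]
    | he j =>
      rw [stk_coef0_eps, map_zero]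
      by_cases h : j = i
      · subst h; rw [face_eps_self, map_zero]
      · rw [face_eps_ne h, stk_coef0_eps]
    | ha a b h₁ h₂ => rw [map_add, map_add, h₁, h₂, map_add, map_add]
    | hm a b h₁ h₂ => rw [map_mul, map_mul, h₁, h₂, map_mul, map_mul]
  | cons j l ih =>
    have hj : j ≠ i := fun h => hi (h ▸ List.mem_cons_self)
    have hl : i ∉ l := fun h => hi (List.mem_cons_of_mem _ h)
    rw [coef_cons, coef_cons, stk_ctr_face_ne hj, ih hl]

omit [DecidableEq ι] in
theorem stk_restrict : (volume : Measure (ι → ℝ)).restrict (Set.Icc 0 1) =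
    Measure.pi fun _ : ι => (volume : Measure ℝ).restrict (Set.Icc 0 1) := by
  rw [← Set.pi_univ_Icc, volume_pi, Measure.restrict_pi_pi]
  rfl

theorem stk_update_mp (ν : Measure ℝ) [IsProbabilityMeasure ν] (i : ι) :
    MeasurePreserving (fun p : (ι → ℝ) × ℝ => Function.update p.1 i p.2)
      ((Measure.pi fun _ : ι => ν).prod ν) (Measure.pi fun _ : ι => ν) := by
  have hm : Measurable (fun p : (ι → ℝ) × ℝ => Function.update p.1 i p.2) :=
    measurable_update'
  refine ⟨hm, ?_⟩
  symm
  refine Measure.pi_eq fun s hs => ?_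
  rw [Measure.map_apply hm (MeasurableSet.univ_pi hs)]
  have hpre : (fun p : (ι → ℝ) × ℝ => Function.update p.1 i p.2) ⁻¹' Set.univ.pi s =
      (Set.univ.pi (Function.update s i Set.univ)) ×ˢ s i := by
    ext ⟨x, t⟩
    simp only [Set.mem_preimage, Set.mem_pi, Set.mem_univ, true_imp_iff, Set.mem_prod]
    constructor
    · intro h
      refine ⟨fun j => ?_, by simpa using h i⟩
      by_cases hj : j = i
      · subst hj; simp
      · simpa [Function.update_of_ne hj] using h j
    · rintro ⟨h1, h2⟩ j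
      by_cases hj : j = i
      · subst hj; simpa using h2
      · simpa [Function.update_of_ne hj] using h1 j
  rw [hpre, Measure.prod_prod, Measure.pi_pi]
  rw [← Finset.mul_prod_erase Finset.univ (fun j => ν (Function.update s i Set.univ j))
      (Finset.mem_univ i),
    ← Finset.mul_prod_erase Finset.univ (fun j => ν (s j)) (Finset.mem_univ i)]
  rw [Function.update_self, measure_univ, one_mul, mul_comm]
  congr 1
  refine Finset.prod_congr rfl fun j hj => ?_
  rw [Function.update_of_ne (Finset.ne_of_mem_erase hj)]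

theorem stk_ftc (i : ι) (f : Sm ι) (x : ι → ℝ) :
    ∫ t in Set.Icc (0 : ℝ) 1, (pd i f).1 (Function.update x i t) =
      f.1 (Function.update x i 1) - f.1 (Function.update x i 0) := by
  rw [integral_Icc_eq_integral_Ioc, ← intervalIntegral.integral_of_le zero_le_one]
  have hu : ∀ t : ℝ, HasDerivAt (fun t : ℝ => Function.update x i t) (Pi.single i 1) t :=
    fun t => hasDerivAt_update x i t
  refine intervalIntegral.integral_eq_sub_of_hasDerivAt
    (f := fun t : ℝ => f.1 (Function.update x i t)) (fun t _ => ?_) ?_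
  · have hf := (((Sm.smooth f).differentiable (by simp)) (Function.update x i t)).hasFDerivAt
    exact hf.comp_hasDerivAt t (hu t)
  · refine Continuous.intervalIntegrable ?_ _ _
    exact (Sm.smooth (pd i f)).continuous.comp (continuous_const.update i continuous_id)

theorem stk_intS_pd (i : ι) (f : Sm ι) :
    intS (pd i f) = intS (fS i 1 f) - intS (fS i 0 f) := by
  have : IsProbabilityMeasure ((volume : Measure ℝ).restrict (Set.Icc 0 1)) := ⟨by simp⟩
  rw [← map_sub]
  change ∫ x in Set.Icc (0 : ι → ℝ) 1, (pd i f).1 x =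
    ∫ x in Set.Icc (0 : ι → ℝ) 1, (f.1 (Function.update x i 1) - f.1 (Function.update x i 0))
  have hmp := stk_update_mp ((volume : Measure ℝ).restrict (Set.Icc 0 1)) i
  have hint : Integrable (pd i f).1
      (Measure.pi fun _ : ι => (volume : Measure ℝ).restrict (Set.Icc 0 1)) := by
    rw [← stk_restrict]; exact Sm.integrableOn _
  have h1 : ∫ x, (pd i f).1 x ∂(Measure.pi fun _ : ι =>
      (volume : Measure ℝ).restrict (Set.Icc 0 1)) =
      ∫ p : (ι → ℝ) × ℝ, (pd i f).1 (Function.update p.1 i p.2) ∂((Measure.pi fun _ : ι =>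
        (volume : Measure ℝ).restrict (Set.Icc 0 1)).prod
          ((volume : Measure ℝ).restrict (Set.Icc 0 1))) := by
    rw [← integral_map hmp.measurable.aemeasurable, hmp.map_eq]
    rw [hmp.map_eq]
    exact hint.aestronglyMeasurable
  rw [stk_restrict, h1]
  refine (integral_prod _ (hmp.integrable_comp_of_integrable hint)).trans ?_
  refine integral_congr_ae (Eventually.of_forall fun x => ?_)
  exact stk_ftc i f x

theorem stk_step {i : ι} {l : List ι} (hi : i ∉ l) (w : Om ι) :
    itg (i :: l) (dd w) = (itg l (face i 1 w) - itg l (face i 0 w)) - itg l (dd (ctr i w)) := by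
  rw [stk_itg_cons, stk_cartan, map_sub, stk_itg l (pdO i w), stk_coef_pdO, stk_intS_pd,
    stk_itg l (face i 1 w), stk_itg l (face i 0 w), stk_coef_face hi, stk_coef_face hi]

theorem stk_wper_ctr {i j : ι} (h : i ≠ j) {w : Om ι} (hw : WPer j w) : WPer j (ctr i w) := by
  have hw' : face j 1 w = face j 0 w := hw
  change face j 1 (ctr i w) = face j 0 (ctr i w)
  rw [← stk_ctr_face_ne h, ← stk_ctr_face_ne h, hw']

/-- Stokes on a torus. -/
theorem st0 {l : List ι} (hl : l.Nodup) {w : Om ι} (hw : ∀ i ∈ l, WPer i w) :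
    itg l (dd w) = 0 := by
  induction l generalizing w with
  | nil =>
    rw [stk_itg, dd_apply, map_sum, Finset.sum_eq_zero, map_zero]
    intro j _
    exact stk_coef_eps_mul (List.not_mem_nil) _
  | cons i l ih =>
    obtain ⟨hi, hl'⟩ := List.nodup_cons.1 hl
    have hwi : face i 1 w = face i 0 w := hw i List.mem_cons_self
    rw [stk_step hi, hwi, sub_self, ih hl', sub_zero]
    intro j hj
    exact stk_wper_ctr (fun h : i = j => hi (h ▸ hj)) (hw j (List.mem_cons_of_mem _ hj))

/-- Stokes on an interval times a torus. -/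
theorem st1 {t : ι} {l : List ι} (hl : (t :: l).Nodup) {w : Om ι} (hw : ∀ i ∈ l, WPer i w) :
    itg (t :: l) (dd w) = itg l (face t 1 w) - itg l (face t 0 w) := by
  obtain ⟨hi, hl'⟩ := List.nodup_cons.1 hl
  rw [stk_step hi, st0 hl', sub_zero]
  intro j hj
  exact stk_wper_ctr (fun h : t = j => hi (h ▸ hj)) (hw j hj)

/-- Stokes on a square times a torus. -/
theorem st2 {s t : ι} {l : List ι} (hl : (s :: t :: l).Nodup) {w : Om ι}
    (hw : ∀ i ∈ l, WPer i w) :
    itg (s :: t :: l) (dd w) = (itg (t :: l) (face s 1 w) - itg (t :: l) (face s 0 w))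
      - (itg (s :: l) (face t 1 w) - itg (s :: l) (face t 0 w)) := by
  obtain ⟨hi, hl'⟩ := List.nodup_cons.1 hl
  have hst : s ≠ t := fun h => hi (h ▸ List.mem_cons_self)
  rw [stk_step hi, st1 hl', ← stk_ctr_face_ne hst, ← stk_ctr_face_ne hst,
    stk_itg_cons s l, stk_itg_cons s l]
  intro j hj
  exact stk_wper_ctr (fun h : s = j => hi (h ▸ List.mem_cons_of_mem _ hj)) (hw j hj)

end Pool.Agent.Lib.MP_b7c8b0_gt
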