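import Pool.Agent.Lib.MP_b7c8b0_gt.MForm
import Pool.Agent.Lib.MP_b7c8b0_gt.Stokes

open scoped ContDiff Topology ComplexConjugate
open Filter MeasureTheory Matrix

noncomputable section

namespace Pool.Agent.Lib.MP_b7c8b0_gt

variable {ι : Type} [Fintype ι] [DecidableEq ι] {n : Type} [Fintype n] [DecidableEq n]
  {t s : ι} {l : List ι}

theorem trans_face_gauge {g : MS n ι} (hg : Inv g) (i : ι) (c : ℝ) (A : MO n ι) :
    faceM i c (gauge g g⁻¹ A) = gauge (fSM i c g) (fSM i c g)⁻¹ (faceM i c A) := by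
  simp only [gauge, map_add, map_mul, faceM_fnM, faceM_dM, hg.fSM_inv]

theorem trans_face_ind {i : ι} {A : MO n ι} (h : faceM i 0 A = A) (c : ℝ) : faceM i c A = A := by
  rw [← h, faceM_faceM_self]

theorem trans_ind (m : ℕ) {i : ι} (hi : i ∈ l) {A : MO n ι} (h : faceM i 0 A = A) :
    itg l (ch m A) = 0 :=
  itg_ind hi (by rw [Ind, face_ch, h])

theorem trans_sq (m : ℕ) (hN : (t :: s :: l).Nodup) {M : MO n ι} (ho : sgM M = -M)
    (hp : ∀ i ∈ l, faceM i 1 M = faceM i 0 M) :
    itg (t :: l) (ch m (faceM s 1 M)) - itg (t :: l) (ch m (faceM s 0 M)) =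
      itg (s :: l) (ch m (faceM t 1 M)) - itg (s :: l) (ch m (faceM t 0 M)) := by
  have hN' : (s :: t :: l).Nodup := (List.Perm.swap _ _ _).nodup_iff.mp hN
  have h := st2 hN' (w := ch m M) (fun i hi => by rw [WPer, face_ch, face_ch, hp i hi])
  rw [dd_ch m ho, map_zero, face_ch, face_ch, face_ch, face_ch] at h
  exact sub_eq_zero.mp h.symm

theorem trans_nodup (hN : (t :: s :: l).Nodup) :
    t ≠ s ∧ (∀ i ∈ l, t ≠ i) ∧ (∀ i ∈ l, s ≠ i) := by
  simp only [List.nodup_cons, List.mem_cons, not_or] at hN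
  exact ⟨hN.1.1, fun i hi h => hN.1.2 (h ▸ hi), fun i hi h => hN.2.1 (h ▸ hi)⟩

theorem trans_lin_self (A : MO n ι) : lin t A A = A := by simp [lin]

theorem trans_xc0 (i : ι) : fS i 0 (xc i) = 0 := by rw [fS_xc_self]; simp

theorem trans_xc1 (i : ι) : fS i 1 (xc i) = 1 := by rw [fS_xc_self]; simp

theorem trans_face_fsmul (i : ι) (c : ℝ) (f : Sm ι) (A : MO n ι) :
    faceM i c (fn f • A) = fn (fS i c f) • faceM i c A := by
  rw [faceM_smul, face_fn]

theorem trans_sg_fsmul (f : Sm ι) (A : MO n ι) : sgM (fn f • A) = fn f • sgM A := by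
  rw [sgM_smul, sg_fn]

theorem Adm.zero (I l : List ι) : Adm I l (0 : MO n ι) :=
  ⟨by simp, fun _ _ => by simp, fun _ _ => by simp⟩

theorem Adm.gauge {I P : List ι} {A : MO n ι} (hA : Adm I l A) {g : MS n ι} (hg : Inv g)
    (ht : TorM P l g) (hI : ∀ i ∈ I, i ∉ P ∧ i ∉ l) (hP : ∀ i ∈ l, i ∉ P) :
    Adm I l (gauge g g⁻¹ A) := by
  refine ⟨sgM_gauge _ _ hA.odd, fun i hi => ?_, fun i hi => ?_⟩
  · rw [trans_face_gauge hg, ht.fSM_not_mem (hI i hi).1 (hI i hi).2, hA.ind i hi]
  · rw [trans_face_gauge hg, trans_face_gauge hg, ht.fSM_per (hP i hi), hA.per i hi]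

theorem Adm.mc {I P : List ι} {g : MS n ι} (hg : Inv g)
    (ht : TorM P l g) (hI : ∀ i ∈ I, i ∉ P ∧ i ∉ l) (hP : ∀ i ∈ l, i ∉ P) :
    Adm I l (mc g) := by
  rw [← gauge_zero]
  exact (Adm.zero I l).gauge hg ht hI hP

/-- Path independence. -/
theorem T_path (m : ℕ) (hN : (t :: s :: l).Nodup) {A : MO n ι} (hA : Adm [s] l A) :
    itg (t :: l) (ch m A) = TT m t l (faceM t 0 A) (faceM t 1 A) := by
  obtain ⟨hts, htl, hsl⟩ := trans_nodup hN
  have hs : ∀ c, faceM s c A = A := trans_face_ind (hA.ind s (by simp))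
  have hst : ∀ c c', faceM s c (faceM t c' A) = faceM t c' A := fun c c' => by
    rw [faceM_comm hts.symm, hs]
  have ho : ∀ c, sgM (faceM t c A) = -faceM t c A := fun c => by
    rw [← faceM_sgM, hA.odd, map_neg]
  have h := trans_sq m hN (M := lin s A (lin t (faceM t 0 A) (faceM t 1 A)))
    (sgM_lin _ hA.odd (sgM_lin _ (ho 0) (ho 1))) (fun i hi => by
      simp only [faceM_lin_ne (hsl i hi), faceM_lin_ne (htl i hi), faceM_comm (htl i hi).symm,
        hA.per i hi])
  rw [faceM_lin_one, faceM_lin_zero, faceM_lin_ne hts, hst, hst, hs, faceM_lin_ne hts.symm,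
    faceM_lin_ne hts.symm, faceM_lin_one, faceM_lin_zero, faceM_faceM_self, faceM_faceM_self,
    trans_lin_self, trans_lin_self, trans_ind m List.mem_cons_self (hst 0 1),
    trans_ind m List.mem_cons_self (hst 0 0), sub_self, sub_eq_zero] at h
  exact h.symm

/-- The name of the path variable does not matter. -/
theorem T_var (m : ℕ) (hN : (t :: s :: l).Nodup) {A B : MO n ι} (hA : Adm [t, s] l A)
    (hB : Adm [t, s] l B) : TT m t l A B = TT m s l A B := by
  obtain ⟨hts, htl, hsl⟩ := trans_nodup hN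
  have At := trans_face_ind (hA.ind t (by simp))
  have As := trans_face_ind (hA.ind s (by simp))
  have Bt := trans_face_ind (hB.ind t (by simp))
  have Bs := trans_face_ind (hB.ind s (by simp))
  have h := trans_sq m hN (M := A + fn (xc s + xc t - xc s * xc t) • (B - A))
    (by rw [map_add, trans_sg_fsmul, map_sub sgM, hA.odd, hB.odd, neg_add, ← smul_neg, neg_sub,
          neg_sub_neg])
    (fun i hi => by
      simp only [map_add (faceM _ _), trans_face_fsmul, map_sub (faceM _ _), hA.per i hi,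
        hB.per i hi, map_sub (fS _ _), map_add (fS _ _), map_mul (fS _ _), fS_xc_ne (htl i hi),
        fS_xc_ne (hsl i hi)])
  simp only [map_add (faceM _ _), trans_face_fsmul, map_sub (faceM _ _), At, As, Bt, Bs,
    map_sub (fS _ _), map_add (fS _ _), map_mul (fS _ _), fS_xc_ne hts, fS_xc_ne hts.symm,
    trans_xc0, trans_xc1, one_mul, mul_one, zero_mul, mul_zero, add_sub_cancel_right,
    add_sub_cancel_left, map_one, one_smul, zero_add, add_zero, sub_zero, add_sub_cancel] at h
  rw [trans_ind m List.mem_cons_self (Bt 0), trans_ind m List.mem_cons_self (Bs 0), zero_sub,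
    zero_sub, neg_inj] at h
  exact h

theorem T_self (m : ℕ) {A : MO n ι} (hA : faceM t 0 A = A) : TT m t l A A = 0 := by
  rw [TT, trans_lin_self]
  exact trans_ind m List.mem_cons_self hA

theorem T_add (m : ℕ) (hN : (t :: s :: l).Nodup) {A B C : MO n ι} (hA : Adm [t, s] l A)
    (hB : Adm [t, s] l B) (hC : Adm [t, s] l C) :
    TT m t l A B + TT m t l B C = TT m t l A C := by
  obtain ⟨hts, htl, hsl⟩ := trans_nodup hN
  have At := trans_face_ind (hA.ind t (by simp))
  have As := trans_face_ind (hA.ind s (by simp))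
  have Bt := trans_face_ind (hB.ind t (by simp))
  have Bs := trans_face_ind (hB.ind s (by simp))
  have Ct := trans_face_ind (hC.ind t (by simp))
  have Cs := trans_face_ind (hC.ind s (by simp))
  have h := trans_sq m hN (M := A + fn (xc t) • (B - A) + fn (xc s * xc t) • (C - B))
    (by
      rw [map_add, map_add, trans_sg_fsmul, trans_sg_fsmul, map_sub sgM, map_sub sgM, hA.odd,
        hB.odd, hC.odd, neg_add, neg_add, ← smul_neg, ← smul_neg, neg_sub, neg_sub, neg_sub_neg,
        neg_sub_neg])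
    (fun i hi => by
      simp only [map_add (faceM _ _), trans_face_fsmul, map_sub (faceM _ _), hA.per i hi,
        hB.per i hi, hC.per i hi, map_mul (fS _ _), fS_xc_ne (htl i hi), fS_xc_ne (hsl i hi)])
  simp only [map_add (faceM _ _), trans_face_fsmul, map_sub (faceM _ _), At, As, Bt, Bs, Ct, Cs,
    map_mul (fS _ _), fS_xc_ne hts, fS_xc_ne hts.symm,
    trans_xc0, trans_xc1, one_mul, mul_one, zero_mul, mul_zero,
    map_one, map_zero, one_smul, zero_smul, add_zero, add_sub_cancel] at h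
  have e : A + fn (xc t) • (B - A) + fn (xc t) • (C - B) = lin t A C := by
    rw [lin, add_assoc, ← smul_add, sub_add_sub_cancel']
  rw [trans_ind m List.mem_cons_self (As 0), sub_zero, e] at h
  rw [T_var m hN hB hC]
  change itg (t :: l) (ch m (lin t A B)) + itg (s :: l) (ch m (lin s B C)) =
    itg (t :: l) (ch m (lin t A C))
  rw [lin, lin, ← h]
  ring

theorem T_gauge (m : ℕ) {g : MS n ι} (hg : Inv g) {A B : MO n ι} (hA : sgM A = -A)
    (hB : sgM B = -B) : TT m t l (gauge g g⁻¹ A) (gauge g g⁻¹ B) = TT m t l A B := by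
  have e : lin t (gauge g g⁻¹ A) (gauge g g⁻¹ B) = gauge g g⁻¹ (lin t A B) := by
    simp only [lin, gauge]
    rw [add_sub_add_right_eq_sub, mul_add, add_mul, mul_smul_ev (sg_fn _), smul_mul_M, mul_sub,
      sub_mul, add_right_comm]
  rw [TT, TT, e, ch_gauge m hg.inv_mul hg.mul_inv (sgM_lin t hA hB)]

theorem trans_hI (hN : (t :: s :: l).Nodup) : ∀ i ∈ [t, s], i ∉ ([] : List ι) ∧ i ∉ l := by
  obtain ⟨-, htl, hsl⟩ := trans_nodup hN
  intro i hi
  refine ⟨by simp, fun h => ?_⟩
  simp only [List.mem_cons, List.not_mem_nil, or_false] at hi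
  rcases hi with rfl | rfl
  · exact htl _ h rfl
  · exact hsl _ h rfl

theorem Ch_eq (m : ℕ) (hN : (t :: s :: l).Nodup) {g : MS n ι} (hg : Inv g) (ht : TorM [] l g)
    {A : MO n ι} (hA : Adm [t, s] l A) : Ch m t l g = TT m t l A (gauge g g⁻¹ A) := by
  have h0 : Adm [t, s] l (0 : MO n ι) := Adm.zero _ _
  have hm : Adm [t, s] l (mc g) := Adm.mc hg ht (trans_hI hN) (by simp)
  have hgA := hA.gauge hg ht (trans_hI hN) (by simp)
  have e1 := T_add m hN hA h0 hgA
  have e2 := T_add m hN h0 hm hgA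
  have e3 := T_gauge (t := t) (l := l) m hg h0.odd hA.odd
  have e4 := T_add m hN hA h0 hA
  rw [T_self m (hA.ind t (by simp))] at e4
  rw [gauge_zero] at e3
  rw [Ch]
  linear_combination e1 + e2 - e3 - e4

theorem Ch_mul (m : ℕ) (hN : (t :: s :: l).Nodup) {g h : MS n ι} (hg : Inv g) (hh : Inv h)
    (tg : TorM [] l g) (th : TorM [] l h) :
    Ch m t l (g * h) = Ch m t l g + Ch m t l h := by
  have hm : Adm [t, s] l (mc g) := Adm.mc hg tg (trans_hI hN) (by simp)
  have e : mc (g * h) = gauge h h⁻¹ (mc g) := by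
    have h1 : fnM g⁻¹ * fnM g = 1 := by rw [← map_mul, hg.inv_mul, map_one]
    simp only [mc, gauge, Matrix.mul_inv_rev, map_mul, dM_mul, sgM_fnM, mul_add, mul_assoc]
    rw [← mul_assoc (fnM g⁻¹) (fnM g), h1, one_mul]
  rw [Ch_eq m hN hh th hm, Ch, Ch, e]
  exact (T_add m hN (Adm.zero _ _) hm (hm.gauge hh th (trans_hI hN) (by simp))).symm

theorem trans_cd : ContDiff ℝ ∞ fun x : ℝ => ((Real.smoothTransition x : ℝ) : ℂ) :=
  Complex.ofRealCLM.contDiff.comp Real.smoothTransition.contDiff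

theorem Ch_seg (m : ℕ) (hN : (t :: s :: l).Nodup) {g h : MS n ι} (H : Seg g h)
    (tg : TorM [] l g) (th : TorM [] l h) : Ch m t l g = Ch m t l h := by
  obtain ⟨hts, htl, hsl⟩ := trans_nodup hN
  have hsl' : s ∉ l := fun h => hsl s h rfl
  set G : MS n ι := g + un _ trans_cd s • (h - g) with hG
  have hI : Inv G := fun x => by
    have := H (Real.smoothTransition (x s)) (Real.smoothTransition.nonneg _)
      (Real.smoothTransition.le_one _) x
    convert this using 2
    rw [hG, ev_add, ev_smul, ev_sub]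
    change ev g x + ((Real.smoothTransition (x s) : ℝ) : ℂ) • (ev h x - ev g x) = _
    push_cast
    module
  have hu : Tor [s] l (un _ trans_cd s) := fun x y hx _ => by
    change ((Real.smoothTransition (x s) : ℝ) : ℂ) = ((Real.smoothTransition (y s) : ℝ) : ℂ)
    rw [hx s (by simp)]
  have tg' : TorM [s] l g := tg.mono (by simp) fun i hi => Or.inr hi
  have th' : TorM [s] l h := th.mono (by simp) fun i hi => Or.inr hi
  have tG : TorM [s] l G := tg'.add (TorM.smul hu (th'.sub tg'))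
  have hm : Adm [t] l (mc G) := Adm.mc hI tG
    (fun i hi => by
      rw [List.mem_singleton.mp hi]
      exact ⟨by simpa using hts, fun h => htl t h rfl⟩)
    (fun i hi => by simpa using (hsl i hi).symm)
  have u0 : fS s 0 (un _ trans_cd s) = 0 := by
    ext x
    change ((Real.smoothTransition (Function.update x s 0 s) : ℝ) : ℂ) = 0
    simp
  have u1 : fS s 1 (un _ trans_cd s) = 1 := by
    ext x
    change ((Real.smoothTransition (Function.update x s 1 s) : ℝ) : ℂ) = 1
    simp
  have G0 : fSM s 0 G = g := by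
    rw [hG, map_add, fSM_smul, u0, zero_smul, add_zero, tg.fSM_not_mem (by simp) hsl']
  have G1 : fSM s 1 G = h := by
    rw [hG, map_add, fSM_smul, u1, one_smul, map_sub, tg.fSM_not_mem (by simp) hsl',
      th.fSM_not_mem (by simp) hsl', add_sub_cancel]
  have h1 := trans_sq m hN (M := lin t 0 (mc G)) (sgM_lin _ (by simp) hm.odd) (fun i hi => by
    simp only [faceM_lin_ne (htl i hi), hm.per i hi, map_zero])
  have e : ch m (mc G) = ch m (0 : MO n ι) := by rw [ch, ch, hI.curv_mc, curv_zero]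
  rw [faceM_lin_ne hts, faceM_lin_ne hts, faceM_lin_one, faceM_lin_zero, hI.faceM_mc s,
    hI.faceM_mc s, G0, G1, trans_face_ind (hm.ind t (by simp)), e] at h1
  simp only [map_zero, sub_self, sub_eq_zero] at h1
  exact h1.symm

theorem Ch_ind (m : ℕ) {z : ι} (hz : z ∈ l) (ht : t ≠ z) {g : MS n ι} (hg : Inv g)
    (h : fSM z 0 g = g) : Ch m t l g = 0 :=
  trans_ind m (List.mem_cons_of_mem _ hz) (by rw [faceM_lin_ne ht, map_zero, hg.faceM_mc, h])

theorem Ch_one (m : ℕ) : Ch m t l (1 : MS n ι) = 0 := by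
  rw [Ch, mc, map_one, dM_one, mul_zero]
  exact T_self m (map_zero _)

theorem Ch_block {n' : Type} [Fintype n'] [DecidableEq n'] (m : ℕ) {g : MS n ι} (hg : Inv g) :
    Ch m t l (fromBlocks g 0 0 (1 : MS n' ι)) = Ch m t l g := by
  rcases m with _ | m
  · have h0 : ∀ {k : Type} [Fintype k] [DecidableEq k] (A : MO k ι), itg (t :: l) (ch 0 A) = 0 :=
      fun A => itg_ind (i := t) List.mem_cons_self (by rw [Ind, ch, pow_zero, face_trace, map_one])
    rw [Ch, Ch, TT, TT, h0, h0]
  have hinv : (fromBlocks g 0 0 (1 : MS n' ι))⁻¹ = fromBlocks g⁻¹ 0 0 1 := by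
    refine Matrix.inv_eq_left_inv ?_
    simp [fromBlocks_multiply, hg.inv_mul]
  have hfn : ∀ k : MS n ι, fnM (fromBlocks k 0 0 (1 : MS n' ι)) = fromBlocks (fnM k) 0 0 1 := by
    intro k
    ext (a | a) (b | b) <;> simp [fnM_apply, Matrix.one_apply]
  have hd : ∀ (A : MO n ι) (B : MO n' ι), dM (fromBlocks A 0 0 B) = fromBlocks (dM A) 0 0 (dM B) := by
    intro A B
    ext (a | a) (b | b) <;> simp [dM_apply]
  have hmc : mc (fromBlocks g 0 0 (1 : MS n' ι)) = fromBlocks (mc g) 0 0 0 := by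
    rw [mc, hinv, hfn, hfn, hd, dM_one, fromBlocks_multiply, mc]
    simp
  have hlin : ∀ A : MO n ι, lin t 0 (fromBlocks A 0 0 (0 : MO n' ι)) =
      fromBlocks (lin t 0 A) 0 0 0 := by
    intro A
    simp [lin, fromBlocks_smul]
  have hcurv : ∀ A : MO n ι, curv (fromBlocks A 0 0 (0 : MO n' ι)) =
      fromBlocks (curv A) 0 0 0 := by
    intro A
    rw [curv, hd, dM_zero, fromBlocks_multiply, fromBlocks_add, curv]
    simp
  have hpow : ∀ (A : MO n ι) (k : ℕ), (fromBlocks A 0 0 (0 : MO n' ι)) ^ (k + 1) =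
      fromBlocks (A ^ (k + 1)) 0 0 0 := by
    intro A k
    induction k with
    | zero => simp
    | succ k ih =>
      rw [pow_succ, ih, fromBlocks_multiply, pow_succ A (k + 1)]
      simp
  rw [Ch, Ch, TT, TT, hmc, hlin, ch, ch, hcurv, hpow]
  congr 1
  simp [Matrix.trace, Fintype.sum_sum_type]

end Pool.Agent.Lib.MP_b7c8b0_gt
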