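import Pool.Agent.Lib.MP_b7c8b0_gt.ADefs

open scoped ContDiff ComplexConjugate Topology
open Complex Filter

noncomputable section

namespace Pool.Agent.Lib.MP_b7c8b0_gt

/-- The primitive of a smooth function is smooth. -/
theorem zig_primitive {h : ℝ → ℝ} (hh : ContDiff ℝ ∞ h) (a : ℝ) :
    ContDiff ℝ ∞ (fun t => ∫ s in a..t, h s) ∧ ∀ t, HasDerivAt (fun t => ∫ s in a..t, h s) (h t) t := by
  have hd : ∀ t, HasDerivAt (fun t => ∫ s in a..t, h s) (h t) t := fun t =>
    (hh.continuous.integral_hasStrictDerivAt a t).hasDerivAt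
  refine ⟨contDiff_infty_iff_deriv.2 ⟨fun t => (hd t).differentiableAt, ?_⟩, hd⟩
  have : deriv (fun t => ∫ s in a..t, h s) = h := funext fun t => (hd t).deriv
  rw [this]
  exact hh

/-- The derivative of the zigzag profile. -/
def zigH (t : ℝ) : ℝ := Real.smoothTransition t - Real.smoothTransition (-t)

/-- The bump. -/
def zigB (t : ℝ) : ℝ := Real.smoothTransition (1 - t ^ 2)

theorem zigH_smooth : ContDiff ℝ ∞ zigH :=
  Real.smoothTransition.contDiff.sub (Real.smoothTransition.contDiff.comp contDiff_neg)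

theorem zigB_smooth : ContDiff ℝ ∞ zigB :=
  Real.smoothTransition.contDiff.comp (contDiff_const.sub (contDiff_id.pow 2))

theorem zigH_pos {t : ℝ} (ht : 0 < t) : 0 < zigH t := by
  have h1 := Real.smoothTransition.pos_of_pos ht
  have h2 := Real.smoothTransition.zero_of_nonpos (x := -t) (by linarith)
  simp only [zigH, h2, sub_zero]
  exact h1

theorem zigH_neg {t : ℝ} (ht : t < 0) : zigH t < 0 := by
  have h1 := Real.smoothTransition.pos_of_pos (x := -t) (by linarith)
  have h2 := Real.smoothTransition.zero_of_nonpos ht.le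
  simp only [zigH, h2, zero_sub]
  linarith

theorem zigH_zero : zigH 0 = 0 := by simp [zigH]

theorem zigH_lo {t : ℝ} (ht : t ≤ -1) : zigH t = -1 := by
  have h1 := Real.smoothTransition.one_of_one_le (x := -t) (by linarith)
  have h2 := Real.smoothTransition.zero_of_nonpos (x := t) (by linarith)
  simp only [zigH, h1, h2, zero_sub]

theorem zigH_hi {t : ℝ} (ht : 1 ≤ t) : zigH t = 1 := by
  have h1 := Real.smoothTransition.one_of_one_le ht
  have h2 := Real.smoothTransition.zero_of_nonpos (x := -t) (by linarith)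
  simp only [zigH, h1, h2, sub_zero]

theorem zigB_zero {t : ℝ} (ht : 1 ≤ |t|) : zigB t = 0 := by
  refine Real.smoothTransition.zero_of_nonpos ?_
  have : 1 ≤ t ^ 2 := by
    rw [← sq_abs]
    nlinarith
  linarith

theorem zigB_pos {t : ℝ} (h1 : -1 < t) (h2 : t < 1) : 0 < zigB t :=
  Real.smoothTransition.pos_of_pos (by nlinarith)

theorem zigB_nonneg (t : ℝ) : 0 ≤ zigB t := Real.smoothTransition.nonneg _

theorem zigB_le (t : ℝ) : zigB t ≤ 1 := Real.smoothTransition.le_one _

theorem zigB_at_zero : zigB 0 = 1 := by simp [zigB]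

/-- The unnormalized derivative of `n`. -/
def zigM (t : ℝ) : ℝ := t * zigB t * zigH t

theorem zigM_smooth : ContDiff ℝ ∞ zigM := (contDiff_id.mul zigB_smooth).mul zigH_smooth

theorem zigM_nonneg (t : ℝ) : 0 ≤ zigM t := by
  have hb := zigB_nonneg t
  have : 0 ≤ t * zigH t := by
    rcases lt_trichotomy t 0 with h | h | h
    · exact (mul_pos_of_neg_of_neg h (zigH_neg h)).le
    · simp [h]
    · exact (mul_pos h (zigH_pos h)).le
  unfold zigM
  nlinarith [mul_nonneg hb this]

theorem zigM_pos {t : ℝ} (h1 : -1 < t) (h2 : t < 1) (h0 : t ≠ 0) : 0 < zigM t := by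
  have hb := zigB_pos h1 h2
  have : 0 < t * zigH t := by
    rcases lt_or_gt_of_ne h0 with h | h
    · exact mul_pos_of_neg_of_neg h (zigH_neg h)
    · exact mul_pos h (zigH_pos h)
  unfold zigM
  nlinarith [mul_pos hb this]

theorem zigM_zero {t : ℝ} (ht : 1 ≤ |t|) : zigM t = 0 := by simp [zigM, zigB_zero ht]

theorem exists_zig : Nonempty Zig := by
  obtain ⟨gs, gd⟩ := zig_primitive zigH_smooth 0
  obtain ⟨Ns, Nd⟩ := zig_primitive zigM_smooth (-1)
  set g : ℝ → ℝ := fun t => ∫ s in (0 : ℝ)..t, zigH s with hg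
  set N : ℝ → ℝ := fun t => ∫ s in (-1 : ℝ)..t, zigM s with hN
  have gderiv : ∀ t, deriv g t = zigH t := fun t => (gd t).deriv
  have Nderiv : ∀ t, deriv N t = zigM t := fun t => (Nd t).deriv
  have Hi : ∀ a b, IntervalIntegrable zigH MeasureTheory.volume a b := fun a b =>
    zigH_smooth.continuous.intervalIntegrable a b
  have Mi : ∀ a b, IntervalIntegrable zigM MeasureTheory.volume a b := fun a b =>
    zigM_smooth.continuous.intervalIntegrable a b
  have Nstrict : StrictMonoOn N (Set.Icc (-1) 1) := by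
    have h1 : StrictMonoOn N (Set.Icc (-1) 0) :=
      strictMonoOn_of_deriv_pos (convex_Icc _ _) Ns.continuous.continuousOn fun t ht => by
        rw [interior_Icc] at ht
        rw [Nderiv]
        exact zigM_pos ht.1 (by linarith [ht.2]) ht.2.ne
    have h2 : StrictMonoOn N (Set.Icc 0 1) :=
      strictMonoOn_of_deriv_pos (convex_Icc _ _) Ns.continuous.continuousOn fun t ht => by
        rw [interior_Icc] at ht
        rw [Nderiv]
        exact zigM_pos (by linarith [ht.1]) ht.2 ht.1.ne'
    have h3 := h1.union h2 (isGreatest_Icc (by norm_num)) (isLeast_Icc (by norm_num))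
    rwa [Set.Icc_union_Icc_eq_Icc (by norm_num) (by norm_num)] at h3
  have N0 : ∀ t, t ≤ -1 → N t = 0 := fun t ht => by
    have : ∀ s ∈ Set.uIcc (-1 : ℝ) t, zigM s = 0 := fun s hs => by
      rw [Set.uIcc_of_ge ht] at hs
      exact zigM_zero (le_abs.2 (Or.inr (by linarith [hs.2])))
    simp only [hN]
    rw [intervalIntegral.integral_congr (g := fun _ => (0 : ℝ)) this]
    simp
  have N1 : ∀ t, 1 ≤ t → N t = N 1 := fun t ht => by
    have : ∀ s ∈ Set.uIcc (1 : ℝ) t, zigM s = 0 := fun s hs => by
      rw [Set.uIcc_of_le ht] at hs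
      exact zigM_zero (le_abs.2 (Or.inl hs.1))
    simp only [hN]
    rw [← intervalIntegral.integral_add_adjacent_intervals (Mi (-1) 1) (Mi 1 t),
      intervalIntegral.integral_congr (g := fun _ => (0 : ℝ)) this]
    simp
  have Zpos : 0 < N 1 := by
    have := Nstrict (a := -1) (b := 1) (by norm_num) (by norm_num) (by norm_num)
    rwa [N0 (-1) le_rfl] at this
  have nd : ∀ t, HasDerivAt (fun t => N t / N 1) (zigM t / N 1) t := fun t => (Nd t).div_const _
  refine ⟨{
    g := g
    n := fun t => N t / N 1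
    k := fun t => t * zigB t / N 1
    c := g 1 - 1
    c' := g (-1) - 1
    K := 1 / N 1
    sg := gs
    sn := Ns.div_const _
    sk := (contDiff_id.mul zigB_smooth).div_const _
    glo := fun t ht => ?_
    ghi := fun t ht => ?_
    anti := ?_
    mono := ?_
    dg := fun t ht => ?_
    dg0 := by rw [gderiv, zigH_zero]
    n0 := fun t ht => by simp only [N0 t ht, zero_div]
    n1 := fun t ht => by simp only [N1 t ht, div_self Zpos.ne']
    nmono := ?_
    nstrict := fun a ha b hb hab => div_lt_div_of_pos_right (Nstrict ha hb hab) Zpos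
    dn := fun t => ?_
    k0 := fun t ht => by simp only [zigB_zero ht, mul_zero, zero_div]
    dk := ?_
    kb := fun t => ?_ }⟩
  · have : ∀ s ∈ Set.uIcc (-1 : ℝ) t, zigH s = -1 := fun s hs => by
      rw [Set.uIcc_of_ge ht] at hs
      exact zigH_lo hs.2
    simp only [hg]
    rw [← intervalIntegral.integral_add_adjacent_intervals (Hi 0 (-1)) (Hi (-1) t),
      intervalIntegral.integral_congr (g := fun _ => (-1 : ℝ)) this]
    simp only [intervalIntegral.integral_const, smul_eq_mul]
    ring
  · have : ∀ s ∈ Set.uIcc (1 : ℝ) t, zigH s = 1 := fun s hs => by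
      rw [Set.uIcc_of_le ht] at hs
      exact zigH_hi hs.1
    simp only [hg]
    rw [← intervalIntegral.integral_add_adjacent_intervals (Hi 0 1) (Hi 1 t),
      intervalIntegral.integral_congr (g := fun _ => (1 : ℝ)) this]
    simp only [intervalIntegral.integral_const, smul_eq_mul]
    ring
  · refine strictAntiOn_of_deriv_neg (convex_Iic _) gs.continuous.continuousOn fun t ht => ?_
    rw [interior_Iic] at ht
    rw [gderiv]
    exact zigH_neg ht
  · refine strictMonoOn_of_deriv_pos (convex_Ici _) gs.continuous.continuousOn fun t ht => ?_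
    rw [interior_Ici] at ht
    rw [gderiv]
    exact zigH_pos ht
  · rw [gderiv]
    rcases lt_or_gt_of_ne ht with h | h
    · exact (zigH_neg h).ne
    · exact (zigH_pos h).ne'
  · refine monotone_of_deriv_nonneg (fun t => (nd t).differentiableAt) fun t => ?_
    rw [(nd t).deriv]
    exact div_nonneg (zigM_nonneg t) Zpos.le
  · rw [(nd t).deriv, gderiv, zigM]
    ring
  · have hb : HasDerivAt zigB (deriv zigB 0) 0 :=
      (zigB_smooth.differentiable (by simp) 0).hasDerivAt
    have h1 := ((hasDerivAt_id (0 : ℝ)).mul hb).div_const (N 1)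
    have h2 : deriv (fun t => t * zigB t / N 1) 0 = (1 * zigB 0 + id 0 * deriv zigB 0) / N 1 :=
      h1.deriv
    rw [h2, zigB_at_zero]
    simp [Zpos.ne']
  · rw [abs_div, abs_of_pos Zpos]
    refine div_le_div_of_nonneg_right ?_ Zpos.le
    rcases le_or_gt 1 |t| with h | h
    · simp [zigB_zero h]
    · rw [abs_mul, abs_of_nonneg (zigB_nonneg t)]
      nlinarith [zigB_nonneg t, zigB_le t, abs_nonneg t]

/-- The derivative of the smooth transition function is bounded. -/
theorem deriv_smoothTransition_bdd : ∃ B, 0 ≤ B ∧ ∀ u, |deriv Real.smoothTransition u| ≤ B := by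
  have hc : Continuous (deriv Real.smoothTransition) :=
    (Real.smoothTransition.contDiff (n := 1)).continuous_deriv (by simp)
  obtain ⟨B, hB⟩ := (isCompact_Icc (a := (0 : ℝ)) (b := 1)).exists_bound_of_continuousOn
    hc.continuousOn
  have B0 : 0 ≤ B := (norm_nonneg _).trans (hB 0 (by simp))
  refine ⟨B, B0, fun u => ?_⟩
  rcases lt_or_ge u 0 with h | h
  · have : Real.smoothTransition =ᶠ[𝓝 u] fun _ => 0 := by
      filter_upwards [Iio_mem_nhds h] with v hv using Real.smoothTransition.zero_of_nonpos hv.le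
    rw [this.deriv_eq]
    simpa using B0
  rcases lt_or_ge 1 u with h' | h'
  · have : Real.smoothTransition =ᶠ[𝓝 u] fun _ => 1 := by
      filter_upwards [Ioi_mem_nhds h'] with v hv using Real.smoothTransition.one_of_one_le hv.le
    rw [this.deriv_eq]
    simpa using B0
  · exact hB u ⟨h, h'⟩

theorem exists_cut : Nonempty Cut := by
  obtain ⟨B, B0, hB⟩ := deriv_smoothTransition_bdd
  obtain ⟨M, hM⟩ : ∃ M : ℝ, M = 200 * B + 1 := ⟨_, rfl⟩
  have M0 : 0 < M := by rw [hM]; positivity
  obtain ⟨η, hη⟩ : ∃ η : ℝ, η = Real.exp (-M) / 20000 := ⟨_, rfl⟩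
  have η0 : 0 < η := by rw [hη]; positivity
  have eM : Real.exp (-M) ≤ 1 := Real.exp_le_one_iff.2 (by linarith)
  have hp : ∀ r : ℝ, 0 < r ^ 2 + η ^ 2 := fun r => by positivity
  let u : ℝ → ℝ := fun r => (Real.log (r ^ 2 + η ^ 2) - Real.log (2 * η ^ 2)) / M
  have us : ContDiff ℝ ∞ u :=
    ((((contDiff_id.pow 2).add contDiff_const).log fun r => (hp r).ne').sub
      contDiff_const).div_const _
  have ud : ∀ r, HasDerivAt u (2 * r / (r ^ 2 + η ^ 2) / M) r := fun r => by
    have h1 : HasDerivAt (fun r : ℝ => r ^ 2 + η ^ 2) (2 * r) r := by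
      simpa using (hasDerivAt_pow 2 r).add_const (η ^ 2)
    exact ((h1.log (hp r).ne').sub_const _).div_const M
  refine ⟨{
    lam := fun r => 1 - Real.smoothTransition (u r)
    r0 := η
    s := contDiff_const.sub (Real.smoothTransition.contDiff.comp us)
    r0pos := η0
    r0lt := by rw [hη]; linarith
    one := fun r h0 h1 => ?_
    zero := fun r h1 => ?_
    nonneg := fun r => sub_nonneg.2 (Real.smoothTransition.le_one _)
    le_one := fun r => by linarith [Real.smoothTransition.nonneg (u r)]
    slow := fun r h0 => ?_ }⟩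
  · have : u r ≤ 0 := by
      refine div_nonpos_of_nonpos_of_nonneg (sub_nonpos.2 ?_) M0.le
      exact Real.log_le_log (hp r) (by nlinarith)
    simp only [Real.smoothTransition.zero_of_nonpos this, sub_zero]
  · have : 1 ≤ u r := by
      rw [le_div_iff₀ M0, one_mul, le_sub_iff_add_le, ← Real.log_exp M,
        ← Real.log_mul (Real.exp_pos M).ne' (by positivity)]
      refine Real.log_le_log (by positivity) ?_
      have h2 : Real.exp M * η = 1 / 20000 := by
        rw [hη, Real.exp_neg]
        field_simp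
      have h3 : η ≤ 1 / 20000 := by rw [hη]; linarith
      have h4 : Real.exp M * (2 * η ^ 2) = 2 * η * (Real.exp M * η) := by ring
      rw [h4, h2]
      nlinarith
    simp only [Real.smoothTransition.one_of_one_le this, sub_self]
  · have hs : HasDerivAt Real.smoothTransition (deriv Real.smoothTransition (u r)) (u r) :=
      ((Real.smoothTransition.contDiff (n := 1)).differentiable (by simp) _).hasDerivAt
    have h1 := (hs.comp r (ud r)).const_sub 1
    have h2 : deriv (fun r => 1 - Real.smoothTransition (u r)) r =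
        -(deriv Real.smoothTransition (u r) * (2 * r / (r ^ 2 + η ^ 2) / M)) := h1.deriv
    rw [h2]
    have h3 : r * -(deriv Real.smoothTransition (u r) * (2 * r / (r ^ 2 + η ^ 2) / M)) =
        -(deriv Real.smoothTransition (u r) * (2 * (r ^ 2 / (r ^ 2 + η ^ 2)) / M)) := by ring
    have h4 : r ^ 2 / (r ^ 2 + η ^ 2) ≤ 1 := (div_le_one (hp r)).2 (by nlinarith)
    have h5 : 0 ≤ r ^ 2 / (r ^ 2 + η ^ 2) := by positivity
    rw [h3, abs_neg, abs_mul, abs_of_nonneg (a := 2 * (r ^ 2 / (r ^ 2 + η ^ 2)) / M)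
      (by positivity)]
    calc _ ≤ B * (2 / M) := by gcongr; exact hB _; linarith
      _ ≤ 1 / 100 := by
        rw [← mul_div_assoc, div_le_div_iff₀ M0 (by norm_num), hM]
        linarith

end Pool.Agent.Lib.MP_b7c8b0_gt
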