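import Pool.Agent.Lib.MP_b7c8b0_gt.Bridge
import Pool.Agent.Lib.MP_b7c8b0_gt.OfData
import Pool.Agent.Lib.MP_b7c8b0_gt.Zig
import Pool.Agent.Lib.MP_b7c8b0_gt.Gmaps
import Pool.Agent.Lib.MP_b7c8b0_gt.Jet0
import Pool.Agent.Lib.MP_b7c8b0_gt.Jet1
import Pool.Agent.Lib.MP_b7c8b0_gt.Source
import Pool.Agent.Lib.MP_b7c8b0_gt.CImm
import Pool.Agent.Lib.MP_b7c8b0_gt.CInj

open scoped ContDiff ComplexConjugate Topology
open Complex Filter

noncomputable section

namespace Pool.Agent.Lib.MP_b7c8b0_gt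

theorem contDiff_y0 : ContDiff ℝ ∞ y0 := by
  have hc : ContDiff ℝ ∞ (fun z : ℂ => conj z) := conjCLE.contDiff
  have hr : ContDiff ℝ ∞ (fun z : ℂ => z.re) := reCLM.contDiff
  unfold y0
  refine ContDiff.sub (ContDiff.sub ?_ ?_) ?_
  · exact contDiff_const.mul (hr.comp (((hc.comp contDiff_fst).pow 2).mul contDiff_snd))
  · exact contDiff_const.mul (hr.comp ((hc.comp contDiff_fst).pow 3))
  · exact (contDiff_const.mul ((contDiff_snd.sub (hc.comp contDiff_fst)).norm_sq ℝ)).mul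
      ((contDiff_snd.norm_sq ℝ).sub ((contDiff_fst.norm_sq ℝ).div_const 2))

theorem exists_cover : ∃ e : ℝ, 0 < e ∧ Nonempty (Cover e) := by
  obtain ⟨e, he, he', j0⟩ := jet0
  obtain ⟨C, j1⟩ := jet1 he he'
  obtain ⟨κ⟩ := exists_cut
  obtain ⟨ζ⟩ := exists_zig
  have h : Par e C κ := ⟨he, he', gok κ, jetU he he', j0, j1⟩
  obtain ⟨Λ, hs, hl, ⟨T, c1, c2, lo, hi, f1, f2⟩, him, hin, hco⟩ :=
    ((cover_smooth h ζ).and ((cover_leg h ζ).and ((cover_far h ζ).and ((cover_imm h ζ).and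
      ((cover_inj h ζ).and (cover_core h ζ)))))).exists
  refine ⟨e, he, ⟨{
    Φ := Phi ζ Λ, T := T, c1 := c1, c2 := c2, Pi := PiC e κ Λ, U := UC e C ζ κ Λ
    P := PC e C ζ κ Λ, y1 := y1 C, y0 := y0
    sΦ := (contDiff_id.add (ζ.sg.comp (contDiff_id.sub contDiff_const))).sub
      (ζ.sg.comp (contDiff_id.add contDiff_const))
    lo := lo, hi := hi, sy1 := j1.s, sy0 := fun _ _ => contDiff_y0.contDiffAt
    sPi := fun W t hc => (hs W t hc).1
    sU := fun W t hc => (hs W t hc).2.1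
    sP := fun W t hc => (hs W t hc).2.2
    hom := fun W t hc s hs0 => cover_hom h ζ Λ W t (fun h0 => hc.1 (by rw [h0]; rfl)) s hs0
    unit := fun W t hc => cover_unit h Λ W t hc.1 hc.2.1
    avoid := fun W t hc => cover_avoid h Λ W t hc.1 hc.2.1
    leg := hl, imm := him, inj := hin, far1 := f1, far2 := f2
    core1 := fun W t hc h0 => (hco W t hc h0).1
    core2 := fun W t hc h0 => (hco W t hc h0).2
    lt := j1.lt }⟩⟩

theorem yes_one : ∃ f, IsPrelegendrianEmbedding 1 f := by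
  obtain ⟨e, he, ⟨c⟩⟩ := exists_cover
  obtain ⟨d⟩ := source he c
  obtain ⟨F, hF⟩ := of_data he d
  exact ⟨_, bridgeA hF⟩

end Pool.Agent.Lib.MP_b7c8b0_gt
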